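import Pool.Agent.H23R2.CycWord
import Pool.Agent.H23R2.Ch.Defs

/-!
# Traces of idempotents of group-graded rings
-/

set_option autoImplicit false
set_option linter.unusedSectionVars false

namespace Pool.Agent.W647.G1

open Finset Pool.Agent.H23R2 Pool.Agent.H23R2.Cyc
open Pool.Agent.H23R2.Ch (Sep)

section core

variable {G : Type*} [Group G] {A : Type*} [Ring A] {M : Type*} [AddCommGroup M]

/-- a multiplicative family of additive subgroups indexed by a group -/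
structure Fam (𝒮 : G → AddSubgroup A) : Prop where
  one : 1 ∈ 𝒮 1
  mul : ∀ g h x y, x ∈ 𝒮 g → y ∈ 𝒮 h → x * y ∈ 𝒮 (g * h)

variable {𝒮 : G → AddSubgroup A}

lemma Fam.pow (h𝒮 : Fam 𝒮) {g : G} {x : A} (hx : x ∈ 𝒮 g) (n : ℕ) : x ^ n ∈ 𝒮 (g ^ n) := by
  induction n with
  | zero => rw [pow_zero, pow_zero]; exact h𝒮.one
  | succ n ih => rw [pow_succ, pow_succ]; exact h𝒮.mul _ _ _ _ ih hx

lemma Fam.mpr (h𝒮 : Fam 𝒮) {n : ℕ} (a : ZMod n → A) (deg : ZMod n → G)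
    (h : ∀ i, a i ∈ 𝒮 (deg i)) (c : ZMod n) (m : ℕ) :
    Cyc.mpr a c m ∈ 𝒮 (Cyc.mpr deg c m) := by
  induction m with
  | zero => exact h𝒮.one
  | succ m ih => exact h𝒮.mul _ _ _ _ ih (h _)

/-- at most one `p`-power of an element lies in the class of `g` -/
lemma exists_exp {p : ℕ} {g : G} (hg : ∀ j, 1 ≤ j → ¬ IsConj g (g ^ p ^ j)) (W : Finset G) :
    ∃ K : ℕ, ∀ w ∈ W, ¬ IsConj (w ^ p ^ K) g := by
  have hfin : {K : ℕ | ∃ w ∈ W, IsConj (w ^ p ^ K) g}.Finite := by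
    have h2 : {K : ℕ | ∃ w ∈ W, IsConj (w ^ p ^ K) g} ⊆
        ⋃ w ∈ W, {K : ℕ | IsConj (w ^ p ^ K) g} := by
      rintro K ⟨w, hw, hK⟩
      exact Set.mem_biUnion hw hK
    refine Set.Finite.subset (W.finite_toSet.biUnion fun w _ => ?_) h2
    apply Set.Subsingleton.finite
    have h3 : ∀ a b : ℕ, a < b → IsConj (w ^ p ^ a) g → IsConj (w ^ p ^ b) g → False := by
      intro a b hab ha hb
      apply hg (b - a) (by omega)
      have h4 : w ^ p ^ b = (w ^ p ^ a) ^ p ^ (b - a) := by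
        rw [← pow_mul, ← pow_add]
        congr 2
        omega
      rw [h4] at hb
      exact hb.symm.trans (ha.pow _)
    intro a ha b hb
    by_contra hne
    rcases Nat.lt_or_gt_of_ne hne with h4 | h4
    · exact h3 a b h4 ha hb
    · exact h3 b a h4 hb ha
  obtain ⟨K, hK⟩ := Infinite.exists_notMem_finset hfin.toFinset
  refine ⟨K, fun w hw h3 => hK ?_⟩
  rw [Set.Finite.mem_toFinset]
  exact ⟨w, hw, h3⟩

/-- **Core lemma** -/
theorem core (h𝒮 : Fam 𝒮) (T : A →+ M) (hT : ∀ x y, T (x * y) = T (y * x)) {p : ℕ}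
    [hp : Fact p.Prime] (hM : Sep M p) (g : G) (hg : ∀ j, 1 ≤ j → ¬ IsConj g (g ^ p ^ j))
    (hsupp : ∀ h, ¬ IsConj h g → ∀ x ∈ 𝒮 h, T x = 0) {ι : Type*} [Fintype ι] (a : ι → A)
    (deg : ι → G) (ha : ∀ i, a i ∈ 𝒮 (deg i))
    (hX : ∀ q : ℕ, q ≠ 0 → T ((∑ i, a i) ^ q) = T (∑ i, a i)) : T (∑ i, a i) = 0 := by
  classical
  apply hM
  intro m
  let W : Finset G := (univ : Finset (Fin (p ^ m) → ι)).image
    fun v => (List.ofFn fun i => deg (v i)).prod
  obtain ⟨K, hK⟩ := exists_exp hg W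
  let N : AddSubgroup M := (nsmulAddMonoidHom (α := M) (p ^ m)).range
  have hN : ∀ x : M, x ∈ N ↔ ∃ y, p ^ m • y = x := fun x => Iff.rfl
  have hMN : ∀ x : M ⧸ N, p ^ m • x = 0 := by
    intro x
    obtain ⟨x, rfl⟩ := QuotientAddGroup.mk'_surjective N x
    rw [← map_nsmul, QuotientAddGroup.mk'_apply, QuotientAddGroup.eq_zero_iff, hN]
    exact ⟨x, rfl⟩
  let T' : A →+ M ⧸ N := (QuotientAddGroup.mk' N).comp T
  have hT' : ∀ x y, T' (x * y) = T' (y * x) := by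
    intro x y
    show QuotientAddGroup.mk' N (T (x * y)) = QuotientAddGroup.mk' N (T (y * x))
    rw [hT]
  have hn : p ^ (m + K) ≠ 0 := pow_ne_zero _ hp.out.ne_zero
  have : NeZero (p ^ (m + K)) := ⟨hn⟩
  have h1 := trace_pow T' hT' K (p ^ (m + K)) rfl hMN a
  have h2 : T' ((∑ s, a s) ^ p ^ (m + K)) = QuotientAddGroup.mk' N (T (∑ i, a i)) := by
    show QuotientAddGroup.mk' N (T ((∑ s, a s) ^ p ^ (m + K))) = _
    rw [hX _ hn]
  have h5 : QuotientAddGroup.mk' N (T (∑ i, a i)) = 0 := by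
    rw [← h2, h1]
    refine Finset.sum_eq_zero fun w _ => ?_
    have h3 := h𝒮.pow (h𝒮.mpr (fun i => a (w i)) (fun i => deg (w i)) (fun i => ha _) 0 (p ^ m))
      (p ^ K)
    have h4 : T ((Cyc.mpr (fun i => a (w i)) 0 (p ^ m)) ^ p ^ K) = 0 := by
      refine hsupp _ ?_ _ h3
      rw [mpr_eq_ofFn (fun i => deg (w i))]
      apply hK
      exact Finset.mem_image.mpr ⟨fun i => w (0 + ((i : ℕ) : ZMod _)), mem_univ _, rfl⟩
    show QuotientAddGroup.mk' N (T _) = 0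
    rw [h4, map_zero]
  rw [QuotientAddGroup.mk'_apply, QuotientAddGroup.eq_zero_iff, hN] at h5
  exact h5

end core

end Pool.Agent.W647.G1
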