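import Pool.Agent.H23R2.Ch.Cycle
import Pool.Agent.W647.G1

/-!
# The Fedosov representation of a free monoid, and traces of lifted idempotents
-/

set_option autoImplicit false
set_option linter.unusedSectionVars false

namespace Pool.Agent.W647.G2

open Finset Pool.Agent.H23R2 Pool.Agent.H23R2.Cyc Pool.Agent.H23R2.Ch
open scoped Pointwise

section trace

variable {k : Type*} [CommRing k] {F : Type*} [Monoid F] {M : Type*} [AddCommGroup M] [Module k M]
  {d : Type*} [Fintype d] [DecidableEq d] {G : Type*} [Group G]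

/-- the class of `g` -/
def cl (g : G) : G → Prop := fun h => ConjClasses.mk h = ConjClasses.mk g

lemma cl_iff (g h : G) : cl g h ↔ IsConj h g := ConjClasses.mk_eq_mk_iff_isConj

lemma cl_comm (g x y : G) : cl g (x * y) ↔ cl g (y * x) := by
  unfold cl
  have h2 : ConjClasses.mk (x * y) = ConjClasses.mk (y * x) := by
    rw [ConjClasses.mk_eq_mk_iff_isConj, isConj_iff]
    exact ⟨x⁻¹, by group⟩
  rw [h2]

/-- sum over the classes -/
lemma sum_classes (π : F →* G) (Φ : F → M)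
    (X : Matrix d d (MonoidAlgebra k F)) (h : ∀ g : G, tf (cut π (cl g) Φ) X = 0) :
    tf Φ X = 0 := by
  classical
  let T : Finset (ConjClasses G) := X.trace.coeff.support.image fun f => ConjClasses.mk (π f)
  have h2 : tf Φ X = ∑ C ∈ T, tf (cut π (fun h => ConjClasses.mk h = C) Φ) X := by
    rw [tf_eq, ex_eq_sum]
    simp only [tf_eq, ex_eq_sum]
    rw [Finset.sum_comm]
    refine Finset.sum_congr rfl fun f hf => ?_
    rw [← Finset.smul_sum]
    congr 1
    unfold cut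
    beta_reduce
    rw [Finset.sum_eq_single (ConjClasses.mk (π f)), if_pos rfl]
    · intro C _ hC
      rw [if_neg (Ne.symm hC)]
    · intro hne
      exact absurd (Finset.mem_image_of_mem _ hf) hne
  rw [h2]
  refine Finset.sum_eq_zero fun C _ => ?_
  obtain ⟨g, rfl⟩ := ConjClasses.exists_rep C
  exact h g

/-- vanishing of the trace of a matrix which is idempotent up to elements killed by the functions
`cut π (cl g) Φ` -/
theorem main_gen (π : F →* G) (Φ : F → M) (hΦ : ∀ x y, Φ (x * y) = Φ (y * x))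
    (X : Matrix d d (MonoidAlgebra k F))
    (hX : ∀ (g : G) (q : ℕ), q ≠ 0 → tf (cut π (cl g) Φ) (X ^ q) = tf (cut π (cl g) Φ) X)
    (hloc : ∀ g : G, (∃ p : ℕ, p.Prime ∧ Sep M p ∧ ∀ j, 1 ≤ j → ¬ IsConj g (g ^ p ^ j)) ∨
      ∀ f, IsConj (π f) g → Φ f = 0) : tf Φ X = 0 := by
  apply sum_classes π
  intro g
  rcases hloc g with ⟨p, hp, hM, hg⟩ | hg
  · have : Fact p.Prime := ⟨hp⟩
    apply hM
    intro m
    apply tf_divisible (cut π (cl g) Φ) (cut_comm π (cl g) (cl_comm g) Φ hΦ) X (hX g) m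
    intro W
    classical
    obtain ⟨K, hK⟩ := G1.exists_exp hg (W.image π)
    refine ⟨K, fun w hw => ⟨0, ?_⟩⟩
    have h2 : ¬ cl g (π (w ^ p ^ K)) := by
      rw [cl_iff, map_pow]
      exact hK _ (Finset.mem_image_of_mem _ hw)
    unfold cut
    rw [if_neg h2, smul_zero]
  · have h2 : ∀ f, cut π (cl g) Φ f = 0 := by
      intro f
      unfold cut
      split_ifs with h3
      · exact hg f ((cl_iff _ _).1 h3)
      · rfl
    rw [tf_eq, ex_eq_sum]
    exact Finset.sum_eq_zero fun f _ => by rw [h2, smul_zero]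

/-- a left ideal spanned by homogeneous elements -/
structure HomId (π : F →* G) (J : Submodule k (MonoidAlgebra k F)) : Prop where
  left : ∀ x y, y ∈ J → x * y ∈ J
  hom : J ≤ Submodule.span k {y | y ∈ J ∧ ∃ h, y ∈ Ch.Hm k π h}

lemma mul_mem_pow {π : F →* G} {J : Submodule k (MonoidAlgebra k F)} (hJ : HomId π J) (n : ℕ)
    (x : MonoidAlgebra k F) {y : MonoidAlgebra k F} (hy : y ∈ J ^ (n + 1)) :
    x * y ∈ J ^ (n + 1) := by
  rw [pow_succ'] at hy ⊢
  induction hy using Submodule.mul_induction_on' with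
  | mem_mul_mem u hu v hv =>
    rw [← mul_assoc]
    exact Submodule.mul_mem_mul (hJ.left x u hu) hv
  | add u _ v _ h h' => rw [mul_add]; exact Submodule.add_mem _ h h'

lemma span_hom {π : F →* G} {J : Submodule k (MonoidAlgebra k F)} (hJ : HomId π J) (n : ℕ) :
    J ^ n ≤ Submodule.span k {y | y ∈ J ^ n ∧ ∃ h, y ∈ Ch.Hm k π h} := by
  induction n with
  | zero =>
    rw [pow_zero, Submodule.one_eq_span, Submodule.span_le]
    rintro _ rfl
    apply Submodule.subset_span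
    exact ⟨Submodule.subset_span rfl, 1, Submodule.subset_span ⟨1, map_one π, rfl⟩⟩
  | succ n ih =>
    rw [pow_succ]
    refine (mul_le_mul' ih hJ.hom).trans ?_
    rw [Submodule.span_mul_span]
    apply Submodule.span_mono
    rintro _ ⟨a, ⟨ha, g, hg⟩, b, ⟨hb, h, hh⟩, rfl⟩
    exact ⟨Submodule.mul_mem_mul ha hb, g * h, Ch.Hm_mul π hg hh⟩

lemma cut_kill {π : F →* G} {J : Submodule k (MonoidAlgebra k F)} (hJ : HomId π J) (n : ℕ)
    (c : G → Prop) (Φ : F → M) (hk : ∀ x ∈ J ^ n, ex Φ x = 0) :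
    ∀ x ∈ J ^ n, ex (cut π c Φ) x = 0 := by
  intro x hx
  have h1 : Set.EqOn (ex (k := k) (cut π c Φ)) (0 : MonoidAlgebra k F →ₗ[k] M)
      {y | y ∈ J ^ n ∧ ∃ h, y ∈ Ch.Hm k π h} := by
    rintro y ⟨hy, h, hh⟩
    rcases ex_cut_Hm π c Φ hh with h2 | h2
    · exact h2
    · rw [h2]
      exact hk y hy
  exact LinearMap.eqOn_span h1 (span_hom hJ n hx)

lemma pow_entries' {π : F →* G} {J : Submodule k (MonoidAlgebra k F)} (hJ : HomId π J) (n : ℕ)
    (X : Matrix d d (MonoidAlgebra k F)) (hX : ∀ i j, (X * X - X) i j ∈ J ^ (n + 1)) (q : ℕ)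
    (i j : d) : (X ^ (q + 1) - X) i j ∈ J ^ (n + 1) := by
  induction q generalizing i j with
  | zero => simp
  | succ q ih =>
    have h1 : X ^ (q + 1 + 1) - X = X * (X ^ (q + 1) - X) + (X * X - X) := by
      rw [mul_sub, ← pow_succ']
      abel
    rw [h1, Matrix.add_apply, Matrix.mul_apply]
    refine Submodule.add_mem _ (Submodule.sum_mem _ fun l _ => ?_) (hX i j)
    exact mul_mem_pow hJ n _ (ih l j)

/-- **Main theorem** for homogeneous ideals -/
theorem main_hom {π : F →* G} {J : Submodule k (MonoidAlgebra k F)} (hJ : HomId π J) (n : ℕ)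
    (Φ : F → M) (hΦ : ∀ x y, Φ (x * y) = Φ (y * x)) (hk : ∀ x ∈ J ^ (n + 1), ex Φ x = 0)
    (X : Matrix d d (MonoidAlgebra k F)) (hX : ∀ i j, (X * X - X) i j ∈ J ^ (n + 1))
    (hloc : ∀ g : G, (∃ p : ℕ, p.Prime ∧ Sep M p ∧ ∀ j, 1 ≤ j → ¬ IsConj g (g ^ p ^ j)) ∨
      ∀ f, IsConj (π f) g → Φ f = 0) : tf Φ X = 0 := by
  refine main_gen π Φ hΦ X ?_ hloc
  intro g q hq
  obtain ⟨q, rfl⟩ : ∃ q', q = q' + 1 := ⟨q - 1, by omega⟩
  have h1 : tf (cut π (cl g) Φ) (X ^ (q + 1) - X) = 0 := by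
    rw [tf_apply]
    exact Finset.sum_eq_zero fun i _ => cut_kill hJ (n + 1) (cl g) Φ hk _
      (pow_entries' hJ n X hX q i i)
  rw [map_sub] at h1
  exact sub_eq_zero.mp h1

end trace

/-! ### words -/

section words

variable {k : Type*} [CommRing k] {L : Type*} {M : Type*} [AddCommGroup M] [Module k M]
  {Ω : Type*} [Ring Ω] [Algebra k Ω]
  {𝒜 : ℕ → Submodule k Ω} [GradedAlgebra 𝒜] {δ : Ω →ₗ[k] Ω} {T : Ω →ₗ[k] M} {N : ℕ}

/-- the representation of the free monoid -/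
noncomputable def Wm (δ : Ω →ₗ[k] Ω) (r : L → Ω) : FreeMonoid L →* Module.End k Ω :=
  FreeMonoid.lift fun l => Lop δ (r l)

/-- its linear extension -/
noncomputable def Wa (δ : Ω →ₗ[k] Ω) (r : L → Ω) :
    MonoidAlgebra k (FreeMonoid L) →ₐ[k] Module.End k Ω :=
  MonoidAlgebra.lift k (Module.End k Ω) (FreeMonoid L) (Wm δ r)

/-- the underlying product -/
noncomputable def th (k : Type*) [CommRing k] {L : Type*} {Ω : Type*} [Ring Ω] [Algebra k Ω]
    (r : L → Ω) : MonoidAlgebra k (FreeMonoid L) →ₐ[k] Ω :=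
  MonoidAlgebra.lift k Ω (FreeMonoid L) (FreeMonoid.lift r)

variable {r : L → Ω}

lemma Wm_cons (δ : Ω →ₗ[k] Ω) (r : L → Ω) (l : L) (w : FreeMonoid L) (x : Ω) :
    Wm δ r (FreeMonoid.of l * w) x = Lop δ (r l) (Wm δ r w x) := by
  rw [map_mul]
  simp [Wm]

lemma Wm_Ev (h : IsCycle N 𝒜 δ T) (hr : ∀ l, r l ∈ 𝒜 0) (j : ℕ) (w : FreeMonoid L) {x : Ω}
    (hx : x ∈ Ev 𝒜 j) : Wm δ r w x ∈ Ev 𝒜 j := by
  induction w using FreeMonoid.inductionOn' with
  | one => simpa using hx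
  | of_mul g w ih =>
    rw [Wm_cons, Lop_apply]
    exact Submodule.sub_mem _ (mul_Ev (hr _) j ih)
      (Ev_mono (Nat.le_succ j) (dmul_Ev h (hr _) j ih))

lemma Wm_sub (h : IsCycle N 𝒜 δ T) (hr : ∀ l, r l ∈ 𝒜 0) (j : ℕ) (w : FreeMonoid L) {x : Ω}
    (hx : x ∈ Ev 𝒜 j) :
    Wm δ r w x - FreeMonoid.lift r w * x ∈ Ev 𝒜 (j + 1) := by
  induction w using FreeMonoid.inductionOn' with
  | one => simp
  | of_mul g w ih =>
    rw [Wm_cons, Lop_apply, map_mul, FreeMonoid.lift_eval_of]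
    have h1 : r g * Wm δ r w x - δ (r g) * δ (Wm δ r w x) - r g * FreeMonoid.lift r w * x =
        r g * (Wm δ r w x - FreeMonoid.lift r w * x) - δ (r g) * δ (Wm δ r w x) := by
      noncomm_ring
    rw [h1]
    exact Submodule.sub_mem _ (mul_Ev (hr _) _ ih)
      (dmul_Ev h (hr _) j (Wm_Ev h hr j w hx))

lemma Wm_formula (h : IsCycle N 𝒜 δ T) (hr : ∀ l, r l ∈ 𝒜 0) (w : FreeMonoid L) (x : Ω) :
    Wm δ r w x = Wm δ r w 1 * x - δ (Wm δ r w 1) * δ x := by
  have h11 : (1 : Ω) ∈ Ev 𝒜 0 := deg_zero_Ev (SetLike.GradedOne.one_mem)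
  induction w using FreeMonoid.inductionOn' with
  | one =>
    have h1 : δ (1 : Ω) = 0 := by
      have := leib h h11 1
      simpa using this
    simp [h1]
  | of_mul g w ih =>
    rw [Wm_cons, Wm_cons, ih, Lop_apply, Lop_apply]
    have hc := Wm_Ev h hr 0 w h11
    set c := Wm δ r w 1 with hcdef
    set a := r g with hadef
    have ha : a ∈ Ev 𝒜 0 := deg_zero_Ev (hr _)
    have e1 : δ (c * x - δ c * δ x) = δ c * x + c * δ x := by
      rw [map_sub, dd h hc, leib h hc, sub_zero]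
    have e2 : δ (a * c - δ a * δ c) = δ a * c + a * δ c := by
      rw [map_sub, dd h ha, leib h ha, sub_zero]
    rw [e1, e2]
    noncomm_ring

/-- the trace on words -/
noncomputable def Ph (T : Ω →ₗ[k] M) (δ : Ω →ₗ[k] Ω) (r : L → Ω) : FreeMonoid L → M :=
  fun w => T (Wm δ r w 1)

lemma Ph_comm (h : IsCycle N 𝒜 δ T) (hr : ∀ l, r l ∈ 𝒜 0) (v w : FreeMonoid L) :
    Ph T δ r (v * w) = Ph T δ r (w * v) := by
  have h11 : (1 : Ω) ∈ Ev 𝒜 0 := deg_zero_Ev (SetLike.GradedOne.one_mem)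
  have hv := Wm_Ev h hr 0 v h11
  have hw := Wm_Ev h hr 0 w h11
  unfold Ph
  rw [map_mul, map_mul, Module.End.mul_apply, Module.End.mul_apply, Wm_formula h hr v,
    Wm_formula h hr w (Wm δ r v 1), map_sub, map_sub, T_dd h hv, T_dd h hw, mul_comm_T h hv hw]

lemma ex_Ph (T : Ω →ₗ[k] M) (δ : Ω →ₗ[k] Ω) (r : L → Ω)
    (x : MonoidAlgebra k (FreeMonoid L)) : ex (Ph T δ r) x = T (Wa δ r x 1) := by
  induction x using MonoidAlgebra.induction_linear with
  | zero => simp
  | add x y hx hy => rw [map_add, map_add, LinearMap.add_apply, map_add, hx, hy]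
  | single w a =>
    rw [ex_single, Wa, MonoidAlgebra.lift_single, LinearMap.smul_apply, map_smul]
    rfl

lemma Wa_sub (h : IsCycle N 𝒜 δ T) (hr : ∀ l, r l ∈ 𝒜 0) (j : ℕ)
    (x : MonoidAlgebra k (FreeMonoid L)) {y : Ω} (hy : y ∈ Ev 𝒜 j) :
    Wa δ r x y - th k r x * y ∈ Ev 𝒜 (j + 1) := by
  induction x using MonoidAlgebra.induction_linear with
  | zero => simp
  | add a b ha hb =>
    have h1 : Wa δ r (a + b) y - th k r (a + b) * y =
        (Wa δ r a y - th k r a * y) + (Wa δ r b y - th k r b * y) := by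
      rw [map_add, map_add, LinearMap.add_apply, add_mul]
      abel
    rw [h1]
    exact Submodule.add_mem _ ha hb
  | single w a =>
    have h1 : Wa δ r (MonoidAlgebra.single w a) y - th k r (MonoidAlgebra.single w a) * y =
        a • (Wm δ r w y - FreeMonoid.lift r w * y) := by
      rw [Wa, th, MonoidAlgebra.lift_single, MonoidAlgebra.lift_single, LinearMap.smul_apply,
        smul_sub, smul_mul_assoc]
    rw [h1]
    exact Submodule.smul_mem _ _ (Wm_sub h hr j w hy)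

lemma Wa_pow (h : IsCycle N 𝒜 δ T) (hr : ∀ l, r l ∈ 𝒜 0)
    (J : Submodule k (MonoidAlgebra k (FreeMonoid L))) (hJ : ∀ x ∈ J, th k r x = 0) (m : ℕ)
    {x : MonoidAlgebra k (FreeMonoid L)} (hx : x ∈ J ^ m) (j : ℕ) {y : Ω}
    (hy : y ∈ Ev 𝒜 j) : Wa δ r x y ∈ Ev 𝒜 (j + m) := by
  induction m generalizing x j y with
  | zero =>
    rw [pow_zero, Submodule.mem_one] at hx
    obtain ⟨a, rfl⟩ := hx
    rw [AlgHom.commutes, add_zero]
    simp only [Module.algebraMap_end_apply]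
    exact Submodule.smul_mem _ _ hy
  | succ m ih =>
    rw [pow_succ] at hx
    induction hx using Submodule.mul_induction_on' with
    | mem_mul_mem u hu v hv =>
      rw [map_mul, Module.End.mul_apply]
      have h2 := Wa_sub h hr j v hy
      rw [hJ v hv, zero_mul, sub_zero] at h2
      have h1 := ih hu (j + 1) h2
      rwa [show j + 1 + m = j + (m + 1) by ring] at h1
    | add u _ v _ hu hv =>
      rw [map_add, LinearMap.add_apply]
      exact Submodule.add_mem _ hu hv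

lemma Ph_kill {n : ℕ} (h : IsCycle (2 * n) 𝒜 δ T) (hr : ∀ l, r l ∈ 𝒜 0)
    (J : Submodule k (MonoidAlgebra k (FreeMonoid L))) (hJ : ∀ x ∈ J, th k r x = 0) :
    ∀ x ∈ J ^ (n + 1), ex (Ph T δ r) x = 0 := by
  intro x hx
  rw [ex_Ph]
  apply T_Ev h
  have h1 := Wa_pow h hr J hJ (n + 1) hx 0 (deg_zero_Ev (SetLike.GradedOne.one_mem (A := 𝒜)))
  rwa [zero_add] at h1

end words

end Pool.Agent.W647.G2
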