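import Pool.Agent.W647.G2
import Pool.Agent.H23R2.Ch.Cycle2

/-!
# Cycles over group-graded rings
-/

set_option autoImplicit false
set_option linter.unusedSectionVars false

namespace Pool.Agent.W647.G3

open Finset Pool.Agent.H23R2 Pool.Agent.H23R2.Ch
open Pool.Agent.W647.G2 (HomId main_hom mul_mem_pow th)

section value

variable {k : Type*} [CommRing k] {L : Type*} {M : Type*} [AddCommGroup M] [Module k M]
  {Ω : Type*} [Ring Ω] [Algebra k Ω]
  {𝒜 : ℕ → Submodule k Ω} [GradedAlgebra 𝒜] {δ : Ω →ₗ[k] Ω} {T : Ω →ₗ[k] M} {N : ℕ}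
  {d : Type*} [Fintype d] [DecidableEq d] {r : L → Ω}

/-- evaluation of matrices over `k[F]` -/
noncomputable def wM (δ : Ω →ₗ[k] Ω) (r : L → Ω)
    (Z : Matrix d d (MonoidAlgebra k (FreeMonoid L))) : Matrix d d Ω :=
  Z.map fun z => G2.Wa δ r z 1

lemma wM_sub (Z Z' : Matrix d d (MonoidAlgebra k (FreeMonoid L))) :
    wM δ r (Z - Z') = wM δ r Z - wM δ r Z' := by
  ext i j
  simp [wM]

lemma wM_one : wM δ r (1 : Matrix d d (MonoidAlgebra k (FreeMonoid L))) = 1 := by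
  ext i j
  simp only [wM, Matrix.map_apply, Matrix.one_apply]
  split_ifs <;> simp

lemma wM_mul (E : Matrix d d Ω) (X0 : Matrix d d (MonoidAlgebra k (FreeMonoid L)))
    (hX0 : ∀ i j, G2.Wa δ r (X0 i j) = Lop δ (E i j))
    (Z : Matrix d d (MonoidAlgebra k (FreeMonoid L))) :
    wM δ r (X0 * Z) = E * wM δ r Z - E.map δ * (wM δ r Z).map δ := by
  ext i j
  simp only [wM, Matrix.map_apply, Matrix.mul_apply, Matrix.sub_apply, map_sum,
    LinearMap.sum_apply, map_mul, Module.End.mul_apply, hX0, Lop_apply, Finset.sum_sub_distrib]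

lemma wM_Y (h : IsCycle N 𝒜 δ T) (E : Matrix d d Ω) (hE0 : ∀ i j, E i j ∈ 𝒜 0)
    (hEE : E * E = E) (X0 : Matrix d d (MonoidAlgebra k (FreeMonoid L)))
    (hX0 : ∀ i j, G2.Wa δ r (X0 i j) = Lop δ (E i j))
    (Z : Matrix d d (MonoidAlgebra k (FreeMonoid L))) :
    wM δ r ((X0 - X0 * X0) * Z) = (E.map δ * E.map δ) * wM δ r Z := by
  have hE : ∀ i j, E i j ∈ Ev 𝒜 0 := fun i j => deg_zero_Ev (hE0 i j)
  rw [sub_mul, wM_sub, mul_assoc, wM_mul E X0 hX0, wM_mul E X0 hX0, wM_mul E X0 hX0]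
  set z := wM δ r Z with hz
  have h1 : E.map δ = E.map δ * E + E * E.map δ := by
    conv_lhs => rw [← hEE]
    exact map_leib h E E hE
  have h2 : (E * z - E.map δ * z.map δ).map δ = E.map δ * z + E * z.map δ := by
    rw [Ch.map_sub', map_leib h E z hE, map_leib_odd h E _ hE, map_dd h, mul_zero, neg_zero,
      sub_zero]
  rw [h2]
  have h3 : E * z - E.map δ * z.map δ - (E * (E * z - E.map δ * z.map δ) -
      E.map δ * (E.map δ * z + E * z.map δ)) =
      (E * z - E * E * z) + E.map δ * E.map δ * z +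
        ((E.map δ * E + E * E.map δ) - E.map δ) * z.map δ := by
    noncomm_ring
  rw [h3, hEE, ← h1]
  simp

lemma wM_Ypow (h : IsCycle N 𝒜 δ T) (E : Matrix d d Ω) (hE0 : ∀ i j, E i j ∈ 𝒜 0)
    (hEE : E * E = E) (X0 : Matrix d d (MonoidAlgebra k (FreeMonoid L)))
    (hX0 : ∀ i j, G2.Wa δ r (X0 i j) = Lop δ (E i j)) (i : ℕ)
    (Z : Matrix d d (MonoidAlgebra k (FreeMonoid L))) :
    wM δ r ((X0 - X0 * X0) ^ i * Z) = (E.map δ * E.map δ) ^ i * wM δ r Z := by
  induction i with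
  | zero => simp
  | succ i ih =>
    rw [pow_succ', mul_assoc, wM_Y h E hE0 hEE X0 hX0, ih, pow_succ' (_ * _) i]
    simp only [mul_assoc]

lemma eta_deg (h : IsCycle N 𝒜 δ T) (E : Matrix d d Ω) (hE0 : ∀ i j, E i j ∈ 𝒜 0)
    (m : ℕ) (i j : d) : ((E.map δ * E.map δ) ^ m) i j ∈ 𝒜 (2 * m) := by
  have h1 : ∀ i j, (E.map δ) i j ∈ 𝒜 1 := by
    intro i j
    have := h.deg 0 _ (hE0 i j)
    simpa using this
  induction m generalizing i j with
  | zero => simpa using mat_one_deg i j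
  | succ m ih =>
    rw [pow_succ, show 2 * (m + 1) = 2 * m + (1 + 1) by ring]
    exact mat_mul_deg ih (mat_mul_deg h1 h1) i j

lemma eta_closed (h : IsCycle N 𝒜 δ T) (E : Matrix d d Ω) (hE0 : ∀ i j, E i j ∈ 𝒜 0)
    (m : ℕ) : ((E.map δ * E.map δ) ^ m).map δ = 0 := by
  have hE : ∀ i j, E i j ∈ Ev 𝒜 0 := fun i j => deg_zero_Ev (hE0 i j)
  induction m with
  | zero =>
    ext i j
    simp only [pow_zero, Matrix.map_apply, Matrix.one_apply, Matrix.zero_apply]
    split_ifs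
    · exact delta_one h
    · simp
  | succ m ih =>
    rw [pow_succ', mul_assoc, map_leib_odd h _ _ hE, map_leib_odd h _ _ hE, ih]
    simp

lemma T_eta {n : ℕ} (hn : 1 ≤ n) (h : IsCycle (2 * n) 𝒜 δ T) (E : Matrix d d Ω)
    (hE0 : ∀ i j, E i j ∈ 𝒜 0) : T ((E.map δ * E.map δ) ^ n).trace = 0 := by
  have hE : ∀ i j, E i j ∈ Ev 𝒜 0 := fun i j => deg_zero_Ev (hE0 i j)
  obtain ⟨m, rfl⟩ : ∃ m, n = m + 1 := ⟨n - 1, by omega⟩
  have h1 : (E.map δ * E.map δ) ^ (m + 1) =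
      (E * (E.map δ * (E.map δ * E.map δ) ^ m)).map δ := by
    rw [map_leib h _ _ hE, map_leib_odd h _ _ hE, eta_closed h E hE0, pow_succ', mul_assoc]
    simp
  rw [h1, Matrix.trace, map_sum]
  exact Finset.sum_eq_zero fun i _ => h.closed _

/-- the value of the trace on words at the lifted idempotent -/
theorem cycle_value {n : ℕ} (h : IsCycle (2 * n) 𝒜 δ T) (E : Matrix d d Ω)
    (hE0 : ∀ i j, E i j ∈ 𝒜 0) (hEE : E * E = E)
    (X0 : Matrix d d (MonoidAlgebra k (FreeMonoid L)))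
    (hX0 : ∀ i j, G2.Wa δ r (X0 i j) = Lop δ (E i j)) :
    Ch.tf (G2.Ph T δ r) (Ch.lp n X0) = ((2 * n).choose n) • T (E * (E.map δ) ^ (2 * n)).trace := by
  have hE : ∀ i j, E i j ∈ Ev 𝒜 0 := fun i j => deg_zero_Ev (hE0 i j)
  have htf0 : ∀ Z : Matrix d d (MonoidAlgebra k (FreeMonoid L)),
      Ch.tf (G2.Ph T δ r) Z = T (wM δ r Z).trace := by
    intro Z
    rw [Ch.tf_apply, Matrix.trace, map_sum]
    refine Finset.sum_congr rfl fun i _ => ?_
    rw [Matrix.diag_apply, wM, Matrix.map_apply]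
    exact G2.ex_Ph T δ r (Z i i)
  have hw1 : wM δ r X0 = E := by
    have h1 := wM_mul (δ := δ) (r := r) E X0 hX0 1
    rw [mul_one, wM_one, mul_one] at h1
    rw [h1]
    have h2 : (1 : Matrix d d Ω).map δ = 0 := by
      have := eta_closed h E hE0 0
      rwa [pow_zero] at this
    rw [h2, mul_zero, sub_zero]
  rcases Nat.eq_zero_or_pos n with rfl | hn
  · have h1 : Ch.lp 0 X0 = X0 := by
      simp [Ch.lp]
    rw [h1, htf0, hw1]
    simp
  set Y : Matrix d d (MonoidAlgebra k (FreeMonoid L)) := X0 - X0 * X0 with hY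
  set t : ℕ → ℕ → M := fun i m => T (wM δ r (Y ^ i * X0 ^ m)).trace with ht
  have htf : Ch.tf (G2.Ph T δ r) (Ch.lp n X0) =
      ∑ i ∈ range (n + 1), ((2 * n + 1).choose i) • t i (2 * (n - i) + 1) := by
    unfold Ch.lp
    rw [map_sum]
    refine Finset.sum_congr rfl fun i _ => ?_
    rw [map_nsmul, htf0]
  have ht0 : ∀ i, t i 0 = 0 := by
    intro i
    simp only [ht]
    rw [pow_zero, hY, wM_Ypow h E hE0 hEE X0 hX0, wM_one, mul_one]
    by_cases hi : i = n
    · rw [hi]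
      exact T_eta hn h E hE0
    · exact T_trace_zero h (m := 2 * i) (by omega) _ (eta_deg h E hE0 i)
  have ht1' : ∀ i, t i 1 = T ((E.map δ * E.map δ) ^ i * E).trace := by
    intro i
    simp only [ht]
    rw [pow_one, hY, wM_Ypow h E hE0 hEE X0 hX0, hw1]
  have ht1 : ∀ i, i < n → t i 1 = 0 := by
    intro i hi
    rw [ht1']
    refine T_trace_zero h (m := 2 * i + 0) (by omega) _ ?_
    exact mat_mul_deg (eta_deg h E hE0 i) hE0
  have ht2 : ∀ i m, t i (m + 2) = t i (m + 1) - t (i + 1) m := by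
    intro i m
    simp only [ht]
    rw [← map_sub, ← Matrix.trace_sub, ← wM_sub]
    congr 3
    have h1 : X0 ^ (m + 2) = X0 * X0 * X0 ^ m := by
      rw [pow_succ', pow_succ', mul_assoc]
    have h2 : X0 * X0 = X0 - Y := by rw [hY]; abel
    rw [h1, h2, sub_mul, mul_sub, pow_succ' X0 m, pow_succ Y i, mul_assoc]
  rw [htf, t_sum n t ht2 ht0 ht1, ht1']
  rw [T_trace_comm h _ _ (fun i j => ?_) hE]
  · rw [← pow_two, ← pow_mul]
    rfl
  · exact mem_Ev 0 n (Nat.zero_le n) (eta_deg h E hE0 n i j)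

end value

end Pool.Agent.W647.G3
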