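import Pool.Agent.W647.G3

/-!
# Vanishing of pairings of idempotent matrices over group-graded rings with cycles
-/

set_option autoImplicit false
set_option linter.unusedSectionVars false

namespace Pool.Agent.W647.G4

open Finset Pool.Agent.H23R2 Pool.Agent.H23R2.Ch
open Pool.Agent.W647.G2 (HomId main_hom mul_mem_pow th)

section letters

variable {k : Type*} [CommRing k] {G : Type*} [Group G] {S : Type*} [Ring S] [Algebra k S]
  (𝒮 : G → Submodule k S) (H : Subgroup G)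

/-- homogeneous elements with degree in `H` -/
abbrev Let : Type _ := Σ h : H, 𝒮 (h : G)

/-- the underlying element -/
def rS (l : Let 𝒮 H) : S := (l.2 : S)

/-- the degree of a word -/
def pi : FreeMonoid (Let 𝒮 H) →* H := FreeMonoid.lift Sigma.fst

variable {𝒮 H}

lemma word_mem (h1 : (1 : S) ∈ 𝒮 1)
    (hmul : ∀ g h : G, ∀ x ∈ 𝒮 g, ∀ y ∈ 𝒮 h, x * y ∈ 𝒮 (g * h)) (w : FreeMonoid (Let 𝒮 H)) :
    FreeMonoid.lift (rS 𝒮 H) w ∈ 𝒮 ((pi 𝒮 H w : H) : G) := by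
  induction w using FreeMonoid.inductionOn' with
  | one => simpa using h1
  | of_mul l w ih =>
    rw [map_mul, map_mul, FreeMonoid.lift_eval_of]
    have h2 : ((pi 𝒮 H (FreeMonoid.of l) * pi 𝒮 H w : H) : G) = (l.1 : G) * (pi 𝒮 H w : H) := by
      rw [Subgroup.coe_mul]
      rfl
    rw [h2]
    exact hmul _ _ _ l.2.2 _ ih

variable (k 𝒮 H) in
/-- the kernel -/
noncomputable def J : Submodule k (MonoidAlgebra k (FreeMonoid (Let 𝒮 H))) :=
  LinearMap.ker (th k (rS 𝒮 H)).toLinearMap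

lemma mem_J (x : MonoidAlgebra k (FreeMonoid (Let 𝒮 H))) :
    x ∈ J k 𝒮 H ↔ th k (rS 𝒮 H) x = 0 := by
  rw [J, LinearMap.mem_ker, AlgHom.toLinearMap_apply]

lemma sum_single {F : Type*} [Monoid F] (x : MonoidAlgebra k F) :
    x = ∑ g ∈ x.coeff.support, MonoidAlgebra.single g (x.coeff g) := by
  classical
  apply MonoidAlgebra.coeff_injective
  ext h
  rw [MonoidAlgebra.coeff_sum, Finset.sum_apply']
  by_cases hh : h ∈ x.coeff.support
  · rw [Finset.sum_eq_single h]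
    · simp
    · intro g _ hgh
      simp [hgh]
    · intro h'; exact absurd hh h'
  · rw [Finset.sum_eq_zero]
    · by_contra hne
      exact hh (Finsupp.mem_support_iff.mpr hne)
    · intro g hg
      have : g ≠ h := fun e => hh (e ▸ hg)
      simp [this]

/-- the kernel is homogeneous -/
theorem J_hom [DecidableEq G] (hint : DirectSum.IsInternal 𝒮) (h1 : (1 : S) ∈ 𝒮 1)
    (hmul : ∀ g h : G, ∀ x ∈ 𝒮 g, ∀ y ∈ 𝒮 h, x * y ∈ 𝒮 (g * h)) :
    HomId (pi 𝒮 H) (J k 𝒮 H) where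
  left x y hy := by
    rw [mem_J] at hy ⊢
    rw [map_mul, hy, mul_zero]
  hom x hx := by
    classical
    rw [mem_J] at hx
    let xh : H → MonoidAlgebra k (FreeMonoid (Let 𝒮 H)) := fun h =>
      ∑ w ∈ x.coeff.support with pi 𝒮 H w = h, MonoidAlgebra.single w (x.coeff w)
    have hsum : x = ∑ h ∈ x.coeff.support.image (pi 𝒮 H), xh h := by
      conv_lhs => rw [sum_single x]
      exact (Finset.sum_fiberwise_of_maps_to (fun w hw => Finset.mem_image_of_mem _ hw) _).symm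
    have hHm : ∀ h, xh h ∈ Ch.Hm k (pi 𝒮 H) h := by
      intro h
      refine Submodule.sum_mem _ fun w hw => ?_
      rw [single_eq_smul]
      exact Submodule.smul_mem _ _ (Submodule.subset_span ⟨w, (Finset.mem_filter.1 hw).2, rfl⟩)
    have hmem : ∀ h : H, th k (rS 𝒮 H) (xh h) ∈ 𝒮 (h : G) := by
      intro h
      rw [map_sum]
      refine Submodule.sum_mem _ fun w hw => ?_
      rw [th, MonoidAlgebra.lift_single]
      have h3 := word_mem h1 hmul w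
      rw [(Finset.mem_filter.1 hw).2] at h3
      exact Submodule.smul_mem _ _ h3
    have hzero : ∀ h ∈ x.coeff.support.image (pi 𝒮 H), th k (rS 𝒮 H) (xh h) = 0 := by
      let y : DirectSum G fun g => 𝒮 g := ∑ h ∈ x.coeff.support.image (pi 𝒮 H),
        DirectSum.of (fun g => 𝒮 g) (h : G) ⟨th k (rS 𝒮 H) (xh h), hmem h⟩
      have hy0 : y = 0 := by
        apply hint.injective
        rw [map_zero, map_sum]
        have h4 : ∀ h ∈ x.coeff.support.image (pi 𝒮 H),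
            DirectSum.coeAddMonoidHom 𝒮
              (DirectSum.of (fun g => 𝒮 g) (h : G) ⟨th k (rS 𝒮 H) (xh h), hmem h⟩) =
            th k (rS 𝒮 H) (xh h) := by
          intro h _
          rw [DirectSum.coeAddMonoidHom_of]
        rw [Finset.sum_congr rfl h4, ← map_sum, ← hsum, hx]
      intro h0 hh0
      have h5 : (y (h0 : G) : S) = th k (rS 𝒮 H) (xh h0) := by
        show (((∑ h ∈ x.coeff.support.image (pi 𝒮 H), DirectSum.of (fun g => 𝒮 g) (h : G)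
          ⟨th k (rS 𝒮 H) (xh h), hmem h⟩ : DirectSum G fun g => 𝒮 g) (h0 : G) : 𝒮 (h0 : G)) : S) = _
        rw [DFinsupp.finsetSum_apply, Finset.sum_eq_single h0]
        · rw [DirectSum.of_eq_same]
        · intro b _ hb
          rw [DirectSum.of_eq_of_ne]
          intro h6
          exact hb (Subtype.ext h6.symm)
        · intro h6
          exact absurd hh0 h6
      rw [← h5, hy0]
      rfl
    rw [hsum]
    refine Submodule.sum_mem _ fun h hh => ?_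
    apply Submodule.subset_span
    exact ⟨(mem_J _).2 (hzero h hh), h, hHm h⟩

lemma iSup_mono_subgroup {H H' : Subgroup G} (hle : H ≤ H') :
    (⨆ h : H, 𝒮 (h : G)) ≤ ⨆ h : H', 𝒮 (h : G) :=
  iSup_le fun h => le_iSup (fun h : H' => 𝒮 (h : G)) ⟨h, hle h.2⟩

lemma exists_fin {s : S} (hs : s ∈ ⨆ g, 𝒮 g) :
    ∃ W : Finset G, s ∈ ⨆ h : Subgroup.closure (W : Set G), 𝒮 (h : G) := by
  classical
  refine Submodule.iSup_induction 𝒮
    (motive := fun s => ∃ W : Finset G, s ∈ ⨆ h : Subgroup.closure (W : Set G), 𝒮 (h : G)) hs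
    ?_ ?_ ?_
  · intro g x hx
    refine ⟨{g}, ?_⟩
    have h1 : g ∈ Subgroup.closure (({g} : Finset G) : Set G) :=
      Subgroup.subset_closure (by simp)
    exact Submodule.mem_iSup_of_mem (p := fun h : Subgroup.closure (({g} : Finset G) : Set G) =>
      𝒮 (h : G)) ⟨g, h1⟩ hx
  · exact ⟨∅, Submodule.zero_mem _⟩
  · rintro x y ⟨W, hW⟩ ⟨W', hW'⟩
    refine ⟨W ∪ W', Submodule.add_mem _ ?_ ?_⟩
    · exact iSup_mono_subgroup (Subgroup.closure_mono (by simp)) hW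
    · exact iSup_mono_subgroup (Subgroup.closure_mono (by simp)) hW'

/-- the degrees of the entries of a matrix generate a finitely generated subgroup -/
lemma exists_fg {d : Type*} [Fintype d] (htop : ⨆ g, 𝒮 g = ⊤) (e : Matrix d d S) :
    ∃ H : Subgroup G, H.FG ∧ ∀ i j, e i j ∈ ⨆ h : H, 𝒮 (h : G) := by
  classical
  have h1 : ∀ i j, ∃ W : Finset G, e i j ∈ ⨆ h : Subgroup.closure (W : Set G), 𝒮 (h : G) :=
    fun i j => exists_fin (by rw [htop]; trivial)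
  choose W hW using h1
  refine ⟨Subgroup.closure ((univ.biUnion fun i => univ.biUnion fun j => W i j : Finset G) :
    Set G), ⟨_, rfl⟩, fun i j => iSup_mono_subgroup (Subgroup.closure_mono ?_) (hW i j)⟩
  intro x hx
  simp only [Finset.coe_biUnion, Set.mem_iUnion]
  exact ⟨i, by simp, j, by simp, hx⟩

end letters

section cycle

variable {k : Type*} [CommRing k] {G : Type*} [Group G] {S : Type*} [Ring S] [Algebra k S]
  {𝒮 : G → Submodule k S} {H : Subgroup G} {M : Type*} [AddCommGroup M] [Module k M]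
  {Ω : Type*} [Ring Ω] [Algebra k Ω] {𝒜 : ℕ → Submodule k Ω} [GradedAlgebra 𝒜]
  {δ : Ω →ₗ[k] Ω} {T : Ω →ₗ[k] M} {ρ : S →ₐ[k] Ω} {d : Type*} [Fintype d] [DecidableEq d]

/-- the letters as elements of `Ω` -/
def rr (ρ : S →ₐ[k] Ω) (𝒮 : G → Submodule k S) (H : Subgroup G) (l : Let 𝒮 H) : Ω :=
  ρ (rS 𝒮 H l)

lemma th_rr (x : MonoidAlgebra k (FreeMonoid (Let 𝒮 H))) :
    th k (rr ρ 𝒮 H) x = ρ (th k (rS 𝒮 H) x) := by
  have h1 : ∀ w : FreeMonoid (Let 𝒮 H),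
      FreeMonoid.lift (rr ρ 𝒮 H) w = ρ (FreeMonoid.lift (rS 𝒮 H) w) := by
    intro w
    induction w using FreeMonoid.inductionOn' with
    | one => simp
    | of_mul l w ih =>
      rw [map_mul, map_mul, map_mul, ih, FreeMonoid.lift_eval_of, FreeMonoid.lift_eval_of]
      rfl
  induction x using MonoidAlgebra.induction_linear with
  | zero => simp
  | add a b ha hb => rw [map_add, map_add, map_add, ha, hb]
  | single w a => rw [th, th, MonoidAlgebra.lift_single, MonoidAlgebra.lift_single, map_smul, h1]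

/-- lifting an element of the ring -/
lemma exists_lift {s : S} (hs : s ∈ ⨆ h : H, 𝒮 (h : G)) :
    ∃ x : MonoidAlgebra k (FreeMonoid (Let 𝒮 H)),
      G2.Wa δ (rr ρ 𝒮 H) x = Lop δ (ρ s) ∧ th k (rS 𝒮 H) x = s := by
  refine Submodule.iSup_induction (fun h : H => 𝒮 (h : G))
    (motive := fun s => ∃ x : MonoidAlgebra k (FreeMonoid (Let 𝒮 H)),
      G2.Wa δ (rr ρ 𝒮 H) x = Lop δ (ρ s) ∧ th k (rS 𝒮 H) x = s) hs ?_ ?_ ?_
  · intro h x hx
    refine ⟨MonoidAlgebra.single (FreeMonoid.of ⟨h, ⟨x, hx⟩⟩) 1, ?_, ?_⟩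
    · rw [G2.Wa, MonoidAlgebra.lift_single, one_smul, G2.Wm, FreeMonoid.lift_eval_of]
      rfl
    · rw [th, MonoidAlgebra.lift_single, one_smul, FreeMonoid.lift_eval_of]
      rfl
  · exact ⟨0, by simp, by simp⟩
  · rintro x y ⟨a, ha, ha'⟩ ⟨b, hb, hb'⟩
    exact ⟨a + b, by rw [map_add, map_add, map_add, ha, hb], by rw [map_add, ha', hb']⟩

/-- `δs_1 ⋯ δs_m` -/
noncomputable def pf (δ : Ω →ₗ[k] Ω) (ρ : S →ₐ[k] Ω) (l : List (Let 𝒮 H)) : Ω :=
  (l.map fun q => δ (ρ (q.2 : S))).prod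

lemma pf_cons (q : Let 𝒮 H) (l : List (Let 𝒮 H)) :
    pf δ ρ (q :: l) = δ (ρ (q.2 : S)) * pf δ ρ l := by simp [pf]

lemma delta_pf {N : ℕ} (h : IsCycle N 𝒜 δ T) (hρ : ∀ a, ρ a ∈ 𝒜 0) (l : List (Let 𝒮 H)) :
    δ (pf δ ρ l) = 0 := by
  induction l with
  | nil => simpa [pf] using delta_one h
  | cons q l ih => rw [pf_cons, leib_odd h (deg_zero_Ev (hρ _)), ih, mul_zero, neg_zero]

lemma pf_deg {N : ℕ} (h : IsCycle N 𝒜 δ T) (hρ : ∀ a, ρ a ∈ 𝒜 0) (l : List (Let 𝒮 H)) :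
    pf δ ρ l ∈ 𝒜 l.length := by
  induction l with
  | nil => simpa [pf] using SetLike.GradedOne.one_mem (A := 𝒜)
  | cons q l ih =>
    rw [pf_cons, List.length_cons, add_comm]
    have := mul_mem_deg (h.deg _ _ (hρ (q.2 : S))) ih
    rwa [zero_add] at this

/-- span of the even forms of degree `g` -/
noncomputable def Se (δ : Ω →ₗ[k] Ω) (ρ : S →ₐ[k] Ω) (𝒮 : G → Submodule k S) (H : Subgroup G)
    (g : H) : Submodule k Ω :=
  Submodule.span k {x | ∃ (a : Let 𝒮 H) (l : List (Let 𝒮 H)), Even l.length ∧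
    a.1 * (l.map Sigma.fst).prod = g ∧ ρ (a.2 : S) * pf δ ρ l = x}

lemma Lop_Se (h1 : (1 : S) ∈ 𝒮 1)
    (hmul : ∀ g h : G, ∀ x ∈ 𝒮 g, ∀ y ∈ 𝒮 h, x * y ∈ 𝒮 (g * h)) {N : ℕ}
    (h : IsCycle N 𝒜 δ T) (hρ : ∀ a, ρ a ∈ 𝒜 0) (b : Let 𝒮 H) (g : H) {x : Ω}
    (hx : x ∈ Se δ ρ 𝒮 H g) : Lop δ (rr ρ 𝒮 H b) x ∈ Se δ ρ 𝒮 H (b.1 * g) := by
  refine Submodule.span_induction
    (p := fun x _ => Lop δ (rr ρ 𝒮 H b) x ∈ Se δ ρ 𝒮 H (b.1 * g)) ?_ ?_ ?_ ?_ hx
  · rintro _ ⟨a, l, hl, hal, rfl⟩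
    rw [Lop_apply]
    refine Submodule.sub_mem _ ?_ ?_
    · apply Submodule.subset_span
      have h2 : (b.2 : S) * (a.2 : S) ∈ 𝒮 ((b.1 * a.1 : H) : G) := by
        rw [Subgroup.coe_mul]
        exact hmul _ _ _ b.2.2 _ a.2.2
      refine ⟨⟨b.1 * a.1, ⟨(b.2 : S) * (a.2 : S), h2⟩⟩, l, hl, ?_, ?_⟩
      · rw [← hal, mul_assoc]
      · show ρ ((b.2 : S) * (a.2 : S)) * pf δ ρ l = ρ (b.2 : S) * (ρ (a.2 : S) * pf δ ρ l)
        rw [map_mul, mul_assoc]
    · apply Submodule.subset_span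
      have h2 : (1 : S) ∈ 𝒮 (((1 : H) : G)) := by
        rw [Subgroup.coe_one]
        exact h1
      refine ⟨⟨1, ⟨1, h2⟩⟩, b :: a :: l, ?_, ?_, ?_⟩
      · simp only [List.length_cons]
        exact (hl.add_one).add_one
      · rw [List.map_cons, List.map_cons, List.prod_cons, List.prod_cons, hal, one_mul]
      · show ρ 1 * pf δ ρ (b :: a :: l) = δ (ρ (b.2 : S)) * δ (ρ (a.2 : S) * pf δ ρ l)
        rw [leib h (deg_zero_Ev (hρ _)), delta_pf h hρ, mul_zero, add_zero, map_one, one_mul,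
          pf_cons, pf_cons]
  · rw [map_zero]; exact Submodule.zero_mem _
  · intro x y _ _ hx hy
    rw [map_add]; exact Submodule.add_mem _ hx hy
  · intro a x _ hx
    rw [map_smul]; exact Submodule.smul_mem _ _ hx

lemma Wm_Se (h1 : (1 : S) ∈ 𝒮 1)
    (hmul : ∀ g h : G, ∀ x ∈ 𝒮 g, ∀ y ∈ 𝒮 h, x * y ∈ 𝒮 (g * h)) {N : ℕ}
    (h : IsCycle N 𝒜 δ T) (hρ : ∀ a, ρ a ∈ 𝒜 0) (w : FreeMonoid (Let 𝒮 H)) :
    G2.Wm δ (rr ρ 𝒮 H) w 1 ∈ Se δ ρ 𝒮 H (pi 𝒮 H w) := by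
  induction w using FreeMonoid.inductionOn' with
  | one =>
    apply Submodule.subset_span
    have h2 : (1 : S) ∈ 𝒮 (((1 : H) : G)) := by
      rw [Subgroup.coe_one]
      exact h1
    refine ⟨⟨1, ⟨1, h2⟩⟩, [], ?_, ?_, ?_⟩
    · simp
    · simp
    · show ρ 1 * pf δ ρ [] = _
      simp [pf]
  | of_mul g w ih =>
    rw [G2.Wm_cons, map_mul]
    exact Lop_Se h1 hmul h hρ g _ ih

lemma T_Se {n : ℕ} (h : IsCycle (2 * n) 𝒜 δ T) (hρ : ∀ a, ρ a ∈ 𝒜 0) (g : H)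
    (hg : ∀ (a : Let 𝒮 H) (l : List (Let 𝒮 H)), l.length = 2 * n →
      a.1 * (l.map Sigma.fst).prod = g → T (ρ (a.2 : S) * pf δ ρ l) = 0) {x : Ω}
    (hx : x ∈ Se δ ρ 𝒮 H g) : T x = 0 := by
  refine Submodule.span_induction (p := fun x _ => T x = 0) ?_ (map_zero _) ?_ ?_ hx
  · rintro _ ⟨a, l, hl, hal, rfl⟩
    by_cases hj : l.length = 2 * n
    · exact hg a l hj hal
    · refine h.dim l.length hj _ ?_
      have := mul_mem_deg (hρ (a.2 : S)) (pf_deg h hρ l)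
      rwa [zero_add] at this
  · intro x y _ _ hx hy
    rw [map_add, hx, hy, add_zero]
  · intro a x _ hx
    rw [map_smul, hx, smul_zero]

/-- **Vanishing theorem for group-graded rings.** -/
theorem vanish [DecidableEq G] (hint : DirectSum.IsInternal 𝒮) (h1 : (1 : S) ∈ 𝒮 1)
    (hmul : ∀ g h : G, ∀ x ∈ 𝒮 g, ∀ y ∈ 𝒮 h, x * y ∈ 𝒮 (g * h)) {n : ℕ}
    (h : IsCycle (2 * n) 𝒜 δ T) (hρ : ∀ a, ρ a ∈ 𝒜 0)
    (hloc : ∀ g : H, (∃ p : ℕ, p.Prime ∧ Sep M p ∧ ∀ j, 1 ≤ j → ¬ IsConj g (g ^ p ^ j)) ∨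
      ∀ (a : Let 𝒮 H) (l : List (Let 𝒮 H)), l.length = 2 * n →
        IsConj (a.1 * (l.map Sigma.fst).prod) g → T (ρ (a.2 : S) * pf δ ρ l) = 0)
    (e : Matrix d d S) (he : e * e = e) (heH : ∀ i j, e i j ∈ ⨆ h : H, 𝒮 (h : G)) :
    ((2 * n).choose n) • T ((e.map ρ) * ((e.map ρ).map δ) ^ (2 * n)).trace = 0 := by
  classical
  choose X0' hX0 hX0' using fun i j => exists_lift (δ := δ) (ρ := ρ) (heH i j)
  let X0 : Matrix d d (MonoidAlgebra k (FreeMonoid (Let 𝒮 H))) := Matrix.of X0'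
  have hEE : e.map ρ * e.map ρ = e.map ρ := by
    have h1 := congrArg (fun X : Matrix d d S => X.map ρ) he
    simp only [Matrix.map_mul] at h1
    exact h1
  have hval := G3.cycle_value (r := rr ρ 𝒮 H) h (e.map ρ) (fun i j => hρ _) hEE X0
    (fun i j => hX0 i j)
  rw [← hval]
  have hJ := J_hom (k := k) (H := H) hint h1 hmul
  have hYI : ∀ i j, (X0 - X0 * X0) i j ∈ J k 𝒮 H := by
    intro i j
    rw [mem_J, Matrix.sub_apply, map_sub, Matrix.mul_apply, map_sum]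
    have h3 : ∀ l, th k (rS 𝒮 H) (X0 i l * X0 l j) = e i l * e l j := by
      intro l
      rw [map_mul]
      exact congrArg₂ (· * ·) (hX0' i l) (hX0' l j)
    rw [Finset.sum_congr rfl fun l _ => h3 l, ← Matrix.mul_apply, he, sub_eq_zero]
    exact hX0' i j
  have hYpow : ∀ m i j, ((X0 - X0 * X0) ^ m) i j ∈ (J k 𝒮 H) ^ m := by
    intro m
    induction m with
    | zero =>
      intro i j
      rw [pow_zero, pow_zero, Matrix.one_apply]
      split_ifs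
      · exact Submodule.one_le.mp le_rfl
      · exact Submodule.zero_mem _
    | succ m ih =>
      intro i j
      rw [pow_succ, pow_succ, Matrix.mul_apply]
      exact Submodule.sum_mem _ fun l _ => Submodule.mul_mem_mul (ih i l) (hYI l j)
  have hr : ∀ l, rr ρ 𝒮 H l ∈ 𝒜 0 := fun l => hρ _
  refine main_hom hJ n (G2.Ph T δ (rr ρ 𝒮 H)) (G2.Ph_comm h hr)
    (G2.Ph_kill h hr (J k 𝒮 H) (fun x hx => by rw [th_rr, (mem_J x).1 hx, map_zero]))
    (Ch.lp n X0) ?_ ?_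
  · obtain ⟨Q, hQ⟩ := lp_ring n X0
    intro i j
    rw [hQ, Matrix.mul_apply]
    exact Submodule.sum_mem _ fun l _ => mul_mem_pow hJ n _ (hYpow (n + 1) l j)
  · intro g
    rcases hloc g with hg | hg
    · exact Or.inl hg
    · right
      intro f hf
      refine T_Se h hρ (pi 𝒮 H f) (fun a l hl hal => ?_) (Wm_Se h1 hmul h hρ f)
      exact hg a l hl (by rw [hal]; exact hf)

end cycle

end Pool.Agent.W647.G4
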