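import Mathlib

/-!
# Alternating cochains on lists and contraction operators

`V g A` is the module of functions on lists of elements of `G` which are alternating and invariant
under left multiplication by `g` in each single variable; `x a` is the insertion of `a` as first
variable; `Lop h l` is the sum of `x (h_s) x (h_(s+1))` along the path `h, h l₀, h l₀ l₁, …`.
-/

set_option autoImplicit false
set_option linter.unusedSectionVars false

namespace Pool.Agent.W647.HV1

open Finset

section ops

variable {G : Type*} [Group G]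

/-- cochains on lists which are alternating and invariant under `g` in each variable -/
def VS (g : G) (A : Type*) [Ring A] : Submodule A (List G → A) where
  carrier := {φ | (∀ l a b l', φ (l ++ a :: b :: l') = - φ (l ++ b :: a :: l')) ∧
    (∀ l a l', φ (l ++ a :: a :: l') = 0) ∧
    (∀ l a l', φ (l ++ (g * a) :: l') = φ (l ++ a :: l'))}
  add_mem' := by
    rintro φ ψ ⟨h1, h2, h3⟩ ⟨k1, k2, k3⟩
    refine ⟨fun l a b l' => ?_, fun l a l' => ?_, fun l a l' => ?_⟩
    · simp only [Pi.add_apply]; rw [h1, k1]; abel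
    · simp only [Pi.add_apply]; rw [h2, k2, add_zero]
    · simp only [Pi.add_apply]; rw [h3, k3]
  zero_mem' := by
    refine ⟨fun l a b l' => ?_, fun l a l' => rfl, fun l a l' => rfl⟩
    simp
  smul_mem' := by
    rintro r φ ⟨h1, h2, h3⟩
    refine ⟨fun l a b l' => ?_, fun l a l' => ?_, fun l a l' => ?_⟩
    · simp only [Pi.smul_apply]; rw [h1, smul_neg]
    · simp only [Pi.smul_apply]; rw [h2, smul_zero]
    · simp only [Pi.smul_apply]; rw [h3]

/-- the same as a type -/
def V (g : G) (A : Type*) [Ring A] : Type _ := ↥(VS g A)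

instance (g : G) (A : Type*) [Ring A] : AddCommGroup (V g A) :=
  inferInstanceAs (AddCommGroup ↥(VS g A))

instance (g : G) (A : Type*) [Ring A] : Module A (V g A) :=
  inferInstanceAs (Module A ↥(VS g A))

variable {g : G} {A : Type*} [Ring A]

/-- the underlying function -/
def ev (φ : V g A) : List G → A := φ.1

lemma ev_add (φ ψ : V g A) : ev (φ + ψ) = ev φ + ev ψ := rfl
lemma ev_zero : ev (0 : V g A) = 0 := rfl
lemma ev_neg (φ : V g A) : ev (-φ) = - ev φ := rfl
lemma ev_sub (φ ψ : V g A) : ev (φ - ψ) = ev φ - ev ψ := rfl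
lemma ev_smul (r : A) (φ : V g A) : ev (r • φ) = r • ev φ := rfl

/-- evaluation as a homomorphism -/
def evHom (l : List G) : V g A →+ A where
  toFun φ := ev φ l
  map_zero' := rfl
  map_add' _ _ := rfl

lemma evHom_apply (l : List G) (φ : V g A) : evHom l φ = ev φ l := rfl

lemma V_ext {φ ψ : V g A} (h : ∀ l, ev φ l = ev ψ l) : φ = ψ := Subtype.ext (funext h)

/-- insertion of `a` as first variable -/
def x (a : G) : AddMonoid.End (V g A) where
  toFun φ := ⟨fun l => φ.1 (a :: l), fun l b c l' => φ.2.1 (a :: l) b c l',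
    fun l b l' => φ.2.2.1 (a :: l) b l', fun l b l' => φ.2.2.2 (a :: l) b l'⟩
  map_zero' := rfl
  map_add' _ _ := rfl

lemma ev_x (a : G) (φ : V g A) (l : List G) : ev (x a φ) l = ev φ (a :: l) := rfl

lemma x_smul (a : G) (r : A) (φ : V g A) : x a (r • φ) = r • x a φ := rfl

lemma x_anti (a b : G) : (x a : AddMonoid.End (V g A)) * x b = -(x b * x a) := by
  refine AddMonoidHom.ext fun φ => V_ext fun l => ?_
  exact φ.2.1 [] b a l

lemma x_sq (a : G) : (x a : AddMonoid.End (V g A)) * x a = 0 := by
  refine AddMonoidHom.ext fun φ => V_ext fun l => ?_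
  exact φ.2.2.1 [] a l

lemma x_inv (a : G) : (x (g * a) : AddMonoid.End (V g A)) = x a := by
  refine AddMonoidHom.ext fun φ => V_ext fun l => ?_
  exact φ.2.2.2 [] a l

lemma x_zpow (m : ℤ) (a : G) : (x (g ^ m * a) : AddMonoid.End (V g A)) = x a := by
  induction m using Int.induction_on with
  | zero => simp
  | succ n ih =>
    rw [add_comm, zpow_add, zpow_one, mul_assoc, x_inv, ih]
  | pred n ih =>
    rw [← ih, ← x_inv, ← mul_assoc, ← zpow_one_add]
    congr 3
    ring

/-- the product `x a * x b` -/
lemma P_comm (a b c : G) : Commute ((x a : AddMonoid.End (V g A)) * x b) (x c) := by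
  show x a * x b * x c = x c * (x a * x b)
  rw [mul_assoc, x_anti b c, mul_neg, ← mul_assoc, x_anti a c, neg_mul, neg_neg, mul_assoc]

lemma P_sq (a b : G) : ((x a : AddMonoid.End (V g A)) * x b) * (x a * x b) = 0 := by
  have h := (P_comm (A := A) (g := g) a b a).eq
  rw [← mul_assoc, h, ← mul_assoc, x_sq, zero_mul, zero_mul]

/-- the sum of `x (h_s) x (h_(s+1))` along a path -/
def Lop (A : Type*) [Ring A] (g : G) : G → List G → AddMonoid.End (V g A)
  | _, [] => 0
  | h, s :: l => x h * x (h * s) + Lop A g (h * s) l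

lemma Lop_nil (h : G) : Lop A g h [] = 0 := rfl

lemma Lop_cons (h s : G) (l : List G) : Lop A g h (s :: l) = x h * x (h * s) + Lop A g (h * s) l :=
  rfl

lemma Lop_append (h : G) (l l' : List G) :
    Lop A g h (l ++ l') = Lop A g h l + Lop A g (h * l.prod) l' := by
  induction l generalizing h with
  | nil => simp [Lop_nil]
  | cons s l ih => rw [List.cons_append, Lop_cons, ih, Lop_cons, List.prod_cons, ← mul_assoc,
      add_assoc]

lemma Lop_comm_x (h : G) (l : List G) (c : G) : Commute (Lop A g h l) (x c) := by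
  induction l generalizing h with
  | nil => exact Commute.zero_left _
  | cons s l ih => exact (P_comm _ _ _).add_left (ih _)

lemma Lop_zpow (m : ℤ) (h : G) (l : List G) : Lop A g (g ^ m * h) l = Lop A g h l := by
  induction l generalizing h with
  | nil => rfl
  | cons s l ih => rw [Lop_cons, Lop_cons, x_zpow, mul_assoc, x_zpow, ih]

lemma Lop_g (h : G) (l : List G) : Lop A g (g * h) l = Lop A g h l := by
  have := Lop_zpow (A := A) (g := g) 1 h l
  rwa [zpow_one] at this

/-- rotation -/
lemma Lop_rot (h : G) (l l' : List G) (hc : h * (l ++ l').prod = g * h) :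
    Lop A g (h * l.prod) (l' ++ l) = Lop A g h (l ++ l') := by
  rw [Lop_append, Lop_append, add_comm]
  congr 1
  rw [mul_assoc, ← List.prod_append, hc, Lop_g]

lemma add_pow_sq_zero {E : Type*} [Ring E] (a b : E) (hab : Commute a b) (ha : a * a = 0) (k : ℕ) :
    (a + b) ^ (k + 1) = b ^ (k + 1) + (k + 1) • (a * b ^ k) := by
  induction k with
  | zero => simp [add_comm]
  | succ k ih =>
    rw [pow_succ, ih, mul_add, add_mul, add_mul, ← pow_succ, smul_mul_assoc, smul_mul_assoc]
    have h1 : a * b ^ k * a = 0 := by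
      rw [mul_assoc, ← (hab.pow_right k).eq, ← mul_assoc, ha, zero_mul]
    have h2 : b ^ (k + 1) * a = a * b ^ (k + 1) := (hab.pow_right (k + 1)).eq.symm
    rw [h1, h2, smul_zero, add_zero, mul_assoc a, ← pow_succ, succ_nsmul (a * b ^ (k + 1)) (k + 1)]
    abel

lemma Lop_cons_pow (h s : G) (l : List G) (k : ℕ) :
    Lop A g h (s :: l) ^ (k + 1) = Lop A g (h * s) l ^ (k + 1) +
      (k + 1) • (x h * x (h * s) * Lop A g (h * s) l ^ k) := by
  rw [Lop_cons]
  refine add_pow_sq_zero _ _ ?_ (P_sq _ _) k
  exact ((Lop_comm_x _ _ _).mul_right (Lop_comm_x _ _ _)).symm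

end ops

end Pool.Agent.W647.HV1
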