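import Pool.Agent.W647.HV1

/-!
# Independence of the apex, translations, periodic words
-/

set_option autoImplicit false
set_option linter.unusedSectionVars false

namespace Pool.Agent.W647.HV1

open Finset

section apex

variable {G : Type*} [Group G] {g : G} {A : Type*} [Ring A]

/-- the alternating sum of the faces -/
def D : List G → (List G → A) → A
  | [], _ => 0
  | a :: l, φ => φ l - D l (fun l' => φ (a :: l'))

lemma D_nil (φ : List G → A) : D [] φ = 0 := rfl

lemma D_cons (a : G) (l : List G) (φ : List G → A) :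
    D (a :: l) φ = φ l - D l (fun l' => φ (a :: l')) := rfl

lemma D_add (l : List G) (φ ψ : List G → A) : D l (φ + ψ) = D l φ + D l ψ := by
  induction l generalizing φ ψ with
  | nil => simp [D_nil]
  | cons a l ih =>
    have h1 : (fun l' => (φ + ψ) (a :: l')) = (fun l' => φ (a :: l')) + (fun l' => ψ (a :: l')) :=
      rfl
    rw [D_cons, D_cons, D_cons, h1, ih, Pi.add_apply]
    abel

lemma D_zero (l : List G) : D l (0 : List G → A) = 0 := by
  have h := D_add l (0 : List G → A) 0
  rw [add_zero] at h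
  simpa using h

/-- `Lop` on functions -/
def Lf : G → List G → (List G → A) → (List G → A)
  | _, [], _ => 0
  | h, s :: l, φ => (fun l' => φ ((h * s) :: h :: l')) + Lf (h * s) l φ

lemma Lf_cons (h s : G) (l : List G) (φ : List G → A) :
    Lf h (s :: l) φ = (fun l' => φ ((h * s) :: h :: l')) + Lf (h * s) l φ := rfl

lemma ev_Lop (h : G) (l : List G) (φ : V g A) : ev (Lop A g h l φ) = Lf h l (ev φ) := by
  induction l generalizing h with
  | nil => rfl
  | cons s l ih =>
    rw [Lf_cons, ← ih]
    rfl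

lemma D_Lf (h : G) (l : List G) (φ : List G → A) (m : List G) :
    D m (Lf h l φ) = Lf h l (fun m' => D m' φ) m + φ ((h * l.prod) :: m) - φ (h :: m) := by
  induction l generalizing h with
  | nil =>
    have h1 : Lf h [] φ = 0 := rfl
    have h2 : Lf h [] (fun m' => D m' φ) = 0 := rfl
    rw [h1, h2, D_zero, List.prod_nil, mul_one]
    simp
  | cons s l ih =>
    rw [Lf_cons, D_add, ih, Lf_cons, Pi.add_apply]
    have h1 : ∀ m : List G, D m (fun l' => φ ((h * s) :: h :: l')) =
        φ ((h * s) :: m) - φ (h :: m) + D ((h * s) :: h :: m) φ := by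
      intro m
      rw [D_cons, D_cons]
      abel
    rw [h1, List.prod_cons, mul_assoc]
    abel

lemma D_two (a b : G) (φ : List G → A) (m : List G) :
    D m (fun l' => φ (b :: a :: l')) = φ (b :: m) - φ (a :: m) + D (b :: a :: m) φ := by
  rw [D_cons, D_cons]
  abel

lemma D_Lop (h : G) (l : List G) (hc : h * l.prod = g * h) (φ : V g A) (m : List G) :
    D m (ev (Lop A g h l φ)) = Lf h l (fun m' => D m' (ev φ)) m := by
  rw [ev_Lop, D_Lf, hc]
  have h1 : ev φ (g * h :: m) = ev φ (h :: m) := φ.2.2.2 [] h m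
  rw [h1]
  abel

lemma D_Lop_pow (h : G) (l : List G) (hc : h * l.prod = g * h) (k : ℕ) (φ : V g A) :
    (fun m => D m (ev ((Lop A g h l ^ k) φ))) = (Lf h l)^[k] (fun m' => D m' (ev φ)) := by
  induction k with
  | zero => rfl
  | succ k ih =>
    rw [Function.iterate_succ_apply', ← ih]
    funext m
    rw [pow_succ']
    exact D_Lop h l hc _ m

lemma ev_Lop_pow (h : G) (l : List G) (k : ℕ) (φ : V g A) :
    ev ((Lop A g h l ^ k) φ) = (Lf h l)^[k] (ev φ) := by
  induction k with
  | zero => rfl
  | succ k ih =>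
    rw [Function.iterate_succ_apply', ← ih, pow_succ']
    exact ev_Lop h l _

/-- independence of the apex -/
lemma apex (h : G) (l : List G) (hc : h * l.prod = g * h) (k : ℕ) (c : V g A)
    (hD : ∀ m, D m (ev c) = 0) (a b : G) :
    ev ((Lop A g h l ^ k) (x a c)) [] = ev ((Lop A g h l ^ k) (x b c)) [] := by
  have h1 := congrFun (D_Lop_pow h l hc k (x a (x b c))) []
  rw [D_nil] at h1
  have h2 : (fun m' => D m' (ev (x a (x b c)))) = ev (x b c - x a c) := by
    funext m'
    have h3 : ev (x a (x b c)) = fun l' => ev c (b :: a :: l') := rfl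
    rw [h3, D_two, hD, add_zero]
    rfl
  rw [h2, ← ev_Lop_pow, map_sub, ev_sub, Pi.sub_apply] at h1
  exact (sub_eq_zero.1 h1.symm).symm

/-- translation by an element commuting with `g` -/
def th (z : G) (hz : z * g = g * z) : AddMonoid.End (V g A) where
  toFun φ := ⟨fun l => ev φ (l.map fun a => z * a), by
    refine ⟨fun l a b l' => ?_, fun l a l' => ?_, fun l a l' => ?_⟩
    · simp only [List.map_append, List.map_cons]
      exact φ.2.1 _ _ _ _
    · simp only [List.map_append, List.map_cons]
      exact φ.2.2.1 _ _ _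
    · simp only [List.map_append, List.map_cons]
      rw [← mul_assoc, hz, mul_assoc]
      exact φ.2.2.2 _ _ _⟩
  map_zero' := rfl
  map_add' _ _ := rfl

lemma ev_th (z : G) (hz : z * g = g * z) (φ : V g A) (l : List G) :
    ev (th z hz φ) l = ev φ (l.map fun a => z * a) := rfl

lemma x_th (z : G) (hz : z * g = g * z) (a : G) :
    (x a : AddMonoid.End (V g A)) * th z hz = th z hz * x (z * a) := by
  refine AddMonoidHom.ext fun φ => V_ext fun l => ?_
  rfl

lemma Lop_th (z : G) (hz : z * g = g * z) (h : G) (l : List G) :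
    Lop A g h l * th z hz = th z hz * Lop A g (z * h) l := by
  induction l generalizing h with
  | nil => simp [Lop_nil]
  | cons s l ih =>
    rw [Lop_cons, Lop_cons, add_mul, ih, mul_assoc, x_th, ← mul_assoc, x_th, mul_assoc, mul_add,
      mul_assoc]

lemma Lop_pow_th (z : G) (hz : z * g = g * z) (h : G) (l : List G) (k : ℕ) :
    Lop A g h l ^ k * th z hz = th z hz * Lop A g (z * h) l ^ k := by
  induction k with
  | zero => simp
  | succ k ih => rw [pow_succ, mul_assoc, Lop_th, ← mul_assoc, ih, mul_assoc, ← pow_succ]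

lemma trans (z : G) (hz : z * g = g * z) (h : G) (l : List G) (k : ℕ) (c : V g A)
    (hc : th z hz c = c) :
    ev ((Lop A g h l ^ k) (x h c)) [] = ev ((Lop A g (z * h) l ^ k) (x (z * h) c)) [] := by
  have h1 : x h c = th z hz (x (z * h) c) := by
    conv_lhs => rw [← hc]
    exact DFunLike.congr_fun (x_th (A := A) z hz h) c
  rw [h1]
  have h2 := DFunLike.congr_fun (Lop_pow_th (A := A) z hz h l k) (x (z * h) c)
  have h3 : (Lop A g h l ^ k) (th z hz (x (z * h) c)) =
      th z hz ((Lop A g (z * h) l ^ k) (x (z * h) c)) := h2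
  rw [h3, ev_th]
  rfl

/-- the cochains with central values -/
def Cen (g : G) (A : Type*) [Ring A] : AddSubgroup (V g A) where
  carrier := {φ | ∀ l a, a * ev φ l = ev φ l * a}
  zero_mem' := by
    intro l a
    rw [ev_zero, Pi.zero_apply, mul_zero, zero_mul]
  add_mem' := by
    intro φ ψ hφ hψ l a
    rw [ev_add, Pi.add_apply, mul_add, add_mul, hφ, hψ]
  neg_mem' := by
    intro φ hφ l a
    rw [ev_neg, Pi.neg_apply, mul_neg, neg_mul, hφ]

lemma Cen_x (a : G) {φ : V g A} (hφ : φ ∈ Cen g A) : x a φ ∈ Cen g A := fun l b => hφ (a :: l) b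

lemma Cen_Lop (h : G) (l : List G) {φ : V g A} (hφ : φ ∈ Cen g A) : Lop A g h l φ ∈ Cen g A := by
  induction l generalizing h with
  | nil => exact (Cen g A).zero_mem
  | cons s l ih => exact (Cen g A).add_mem (Cen_x _ (Cen_x _ hφ)) (ih _)

lemma Cen_Lop_pow (h : G) (l : List G) (k : ℕ) {φ : V g A} (hφ : φ ∈ Cen g A) :
    (Lop A g h l ^ k) φ ∈ Cen g A := by
  induction k with
  | zero => exact hφ
  | succ k ih => rw [pow_succ']; exact Cen_Lop h l ih

/-- periodic words -/
lemma Lop_flat (h : G) (u : List G) (q : ℕ) :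
    Lop A g h (List.replicate q u).flatten =
      ∑ i ∈ range q, Lop A g ((h * u.prod * h⁻¹) ^ i * h) u := by
  induction q generalizing h with
  | zero => simp [Lop_nil]
  | succ q ih =>
    rw [List.replicate_succ', List.flatten_append, Lop_append, ih, sum_range_succ]
    congr 1
    rw [List.flatten_singleton, List.prod_flatten, List.map_replicate, List.prod_replicate]
    congr 1
    rw [conj_pow]
    group

lemma Lop_flat_div (h : G) (u : List G) (q : ℕ) (hq : q ≠ 0)
    (hc : h * (List.replicate q u).flatten.prod = g * h) (o : ℕ) (ho : u.prod ^ o = 1) :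
    ∃ L' : AddMonoid.End (V g A),
      Lop A g h (List.replicate q u).flatten = (q / (Nat.gcd q o)) • L' := by
  set z := h * u.prod * h⁻¹ with hz
  set r := Nat.gcd q o with hr
  have hrpos : 0 < r := Nat.gcd_pos_of_pos_left _ (Nat.pos_of_ne_zero hq)
  have hzq : z ^ q = g := by
    rw [hz, conj_pow]
    rw [List.prod_flatten, List.map_replicate, List.prod_replicate] at hc
    rw [hc]
    group
  have hzo : z ^ o = 1 := by
    rw [hz, conj_pow, ho]
    group
  obtain ⟨m, hm⟩ : ∃ m : ℤ, z ^ r = g ^ m := by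
    refine ⟨Nat.gcdA q o, ?_⟩
    have h1 : z ^ r = z ^ ((r : ℕ) : ℤ) := (zpow_natCast z r).symm
    rw [h1, hr, Nat.gcd_eq_gcd_ab, zpow_add, zpow_mul, zpow_mul, zpow_natCast, zpow_natCast, hzq,
      hzo, one_zpow, mul_one]
  have hper : ∀ i, Lop A g (z ^ (i + r) * h) u = Lop A g (z ^ i * h) u := by
    intro i
    rw [add_comm i r, pow_add, hm, mul_assoc, Lop_zpow]
  refine ⟨∑ i ∈ range r, Lop A g (z ^ i * h) u, ?_⟩
  rw [Lop_flat]
  have hdvd : r ∣ q := Nat.gcd_dvd_left _ _
  obtain ⟨t, ht⟩ := hdvd
  have ht' : q / r = t := by rw [ht, Nat.mul_div_cancel_left _ hrpos]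
  rw [ht', ht]
  clear_value r
  clear ht ht' hzq hc hr hm hzo hq
  induction t with
  | zero => simp
  | succ t ih =>
    rw [Nat.mul_succ, sum_range_add, ih, succ_nsmul]
    congr 1
    refine Finset.sum_congr rfl fun i _ => ?_
    have h2 : ∀ t, Lop A g (z ^ (r * t + i) * h) u = Lop A g (z ^ i * h) u := by
      intro t
      induction t with
      | zero => simp
      | succ t ih => rw [show r * (t + 1) + i = (r * t + i) + r by ring, hper, ih]
    exact h2 t

lemma nsmul_pow_div {E : Type*} [Ring E] (t : ℕ) (L' : E) (k : ℕ) :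
    ∃ L'' : E, (t • L') ^ (k + 1) = t • L'' := by
  refine ⟨L' * (t • L') ^ k, ?_⟩
  rw [pow_succ', smul_mul_assoc]

end apex

end Pool.Agent.W647.HV1
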