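import Pool.Agent.W647.HV2

/-!
# The operator identity

If `E * E = E` and `X * X = 0` in a ring, then `Q N k`, the sum of all weighted words of length `N`,
is a combination of `(E X) ^ (2 k + 1)` and `X (E X) ^ (2 k)`.
-/

set_option autoImplicit false
set_option linter.unusedSectionVars false

namespace Pool.Agent.W647.HV1

open Finset

section ring

/-- the first coefficient -/
def ca : ℕ → ℕ → ℕ × ℕ
  | 0, 0 => (0, 1)
  | 0, _ + 1 => (0, 0)
  | N + 1, 0 => ((ca N 0).1 + (ca N 0).2, 0)
  | N + 1, k + 1 => ((ca N (k + 1)).1 + (ca N (k + 1)).2, (k + 1) * (ca N k).1)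

lemma ca_zero_le (k : ℕ) : ∀ j ≤ k, (ca j k).1 = 0 ∧ (1 ≤ k → (ca j k).2 = 0) := by
  induction k with
  | zero =>
    intro j hj
    obtain rfl : j = 0 := by omega
    exact ⟨rfl, by omega⟩
  | succ k ih =>
    intro j
    induction j with
    | zero => exact fun _ => ⟨rfl, fun _ => rfl⟩
    | succ j ihj =>
      intro hj
      obtain ⟨h1, h2⟩ := ihj (by omega)
      refine ⟨?_, fun _ => ?_⟩
      · show (ca j (k + 1)).1 + (ca j (k + 1)).2 = 0
        rw [h1, h2 (by omega)]
      · show (k + 1) * (ca j k).1 = 0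
        rw [(ih j (by omega)).1, mul_zero]

lemma ca_eq (k : ℕ) : ∀ N, (ca (N + k + 1) k).1 = N.descFactorial k := by
  induction k with
  | zero =>
    intro N
    rw [Nat.descFactorial_zero]
    induction N with
    | zero => rfl
    | succ N ih =>
      have h1 : (ca (N + 1 + 0 + 1) 0).1 = (ca (N + 0 + 1) 0).1 + (ca (N + 0 + 1) 0).2 := rfl
      rw [h1, ih]
      rfl
  | succ k ih =>
    intro N
    induction N with
    | zero =>
      have h1 : (ca (0 + (k + 1) + 1) (k + 1)).1 = (ca (0 + (k + 1)) (k + 1)).1 +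
        (ca (0 + (k + 1)) (k + 1)).2 := rfl
      obtain ⟨h2, h3⟩ := ca_zero_le (k + 1) (0 + (k + 1)) (by omega)
      rw [h1, h2, h3 (by omega), Nat.zero_descFactorial_succ]
    | succ N ihN =>
      have h1 : (ca (N + 1 + (k + 1) + 1) (k + 1)).1 = (ca (N + 1 + (k + 1)) (k + 1)).1 +
        (ca (N + 1 + (k + 1)) (k + 1)).2 := rfl
      have h2 : N + 1 + (k + 1) = (N + (k + 1)) + 1 := by ring
      have h3 : (ca ((N + (k + 1)) + 1) (k + 1)).2 = (k + 1) * (ca (N + (k + 1)) k).1 := rfl
      have h4 : N + (k + 1) = N + k + 1 := by ring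
      rw [h1, h2, h3, ihN, h4, ih N, Nat.succ_descFactorial_succ, Nat.descFactorial_succ]
      rcases le_or_gt k N with hk | hk
      · obtain ⟨t, rfl⟩ := Nat.exists_eq_add_of_le hk
        rw [Nat.add_sub_cancel_left]
        ring
      · rw [(Nat.descFactorial_eq_zero_iff_lt).2 hk]
        simp

variable {R : Type*} [Ring R] (E X : R)

/-- weighted words -/
def Q : ℕ → ℕ → R
  | 0, 0 => X
  | 0, _ + 1 => 0
  | N + 1, 0 => E * Q N 0
  | N + 1, k + 1 => E * Q N (k + 1) + (k + 1) • (X * (E * (X * Q N k)))

lemma Q_formula (hE : E * E = E) (hX : X * X = 0) (N k : ℕ) :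
    Q E X N k = (ca N k).1 • (E * X) ^ (2 * k + 1) + (ca N k).2 • (X * (E * X) ^ (2 * k)) := by
  have hEU : ∀ n, E * (E * X) ^ (n + 1) = (E * X) ^ (n + 1) := by
    intro n
    rw [pow_succ', ← mul_assoc, ← mul_assoc, hE]
  have hEXU : ∀ n, E * (X * (E * X) ^ n) = (E * X) ^ (n + 1) := by
    intro n
    rw [pow_succ', mul_assoc]
  induction N generalizing k with
  | zero =>
    cases k with
    | zero => simp [Q, ca]
    | succ k => simp [Q, ca]
  | succ N ih =>
    cases k with
    | zero =>
      show E * Q E X N 0 = _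
      rw [ih 0, mul_add, mul_smul_comm, mul_smul_comm, hEU, hEXU]
      show _ = ((ca N 0).1 + (ca N 0).2) • _ + 0 • _
      rw [zero_smul, add_zero, add_smul]
    | succ k =>
      show E * Q E X N (k + 1) + (k + 1) • (X * (E * (X * Q E X N k))) = _
      rw [ih (k + 1), ih k, mul_add, mul_smul_comm, mul_smul_comm, hEU, hEXU]
      have h1 : X * ((ca N k).2 • (X * (E * X) ^ (2 * k))) = 0 := by
        rw [mul_smul_comm, ← mul_assoc, hX, zero_mul, smul_zero]
      rw [mul_add X, h1, add_zero, mul_smul_comm, mul_smul_comm, mul_smul_comm, hEXU]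
      show _ = ((ca N (k + 1)).1 + (ca N (k + 1)).2) • _ + ((k + 1) * (ca N k).1) • _
      rw [add_smul (ca N (k + 1)).1, mul_smul, show 2 * (k + 1) = 2 * k + 1 + 1 by ring]

end ring

section states

variable {G : Type*} [Group G] {g : G} {A : Type*} [Ring A]

/-- insertion of the position -/
def Xop (g : G) (A : Type*) [Ring A] : AddMonoid.End (G → V g A) where
  toFun f := fun h => x h (f h)
  map_zero' := by
    funext h
    exact map_zero _
  map_add' f f' := by
    funext h
    exact map_add _ _ _

lemma Xop_apply (f : G → V g A) (h : G) : Xop g A f h = x h (f h) := rfl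

lemma Xop_sq : Xop g A * Xop g A = 0 := by
  refine AddMonoidHom.ext fun f => funext fun h => ?_
  exact DFunLike.congr_fun (x_sq (g := g) (A := A) h) (f h)

/-- translation of states -/
def tr (g : G) (A : Type*) [Ring A] : G →* AddMonoid.End (G → V g A) where
  toFun s :=
    { toFun := fun f h => f (h * s)
      map_zero' := rfl
      map_add' := fun _ _ => rfl }
  map_one' := by
    refine AddMonoidHom.ext fun f => funext fun h => ?_
    show f (h * 1) = f h
    rw [mul_one]
  map_mul' s t := by
    refine AddMonoidHom.ext fun f => funext fun h => ?_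
    show f (h * (s * t)) = f (h * s * t)
    rw [mul_assoc]

lemma comm_tr (r : A) (s : G) :
    Commute (Module.toAddMonoidEnd A (G → V g A) r) (tr g A s) := by
  refine AddMonoidHom.ext fun f => funext fun h => ?_
  rfl

/-- the action of the group ring on states -/
noncomputable def Eop (g : G) (A : Type*) [Ring A] :
    MonoidAlgebra A G →+* AddMonoid.End (G → V g A) :=
  MonoidAlgebra.liftNCRingHom (Module.toAddMonoidEnd A (G → V g A)) (tr g A) comm_tr

lemma Eop_single' (s : G) (a : A) :
    Eop g A (MonoidAlgebra.single s a) = Module.toAddMonoidEnd A (G → V g A) a * tr g A s :=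
  MonoidAlgebra.liftNCRingHom_single _ _ _ _ _

lemma Eop_single (s : G) (a : A) (f : G → V g A) (h : G) :
    Eop g A (MonoidAlgebra.single s a) f h = a • f (h * s) := by
  rw [Eop_single']
  rfl

variable {S : Type*} [Fintype S] (dg : S → G) (a : S → A)

/-- the element of the group ring -/
noncomputable def el : MonoidAlgebra A G := ∑ s, MonoidAlgebra.single (dg s) (a s)

lemma Eop_el (f : G → V g A) (h : G) :
    Eop g A (el dg a) f h = ∑ s, a s • f (h * dg s) := by
  rw [el, map_sum]
  have h1 : (∑ s, Eop g A (MonoidAlgebra.single (dg s) (a s))) f h =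
      ∑ s, (Eop g A (MonoidAlgebra.single (dg s) (a s))) f h := by
    classical
    induction (univ : Finset S) using Finset.induction_on with
    | empty => rfl
    | insert s t hs ih =>
      rw [Finset.sum_insert hs, Finset.sum_insert hs, ← ih]
      rfl
  rw [h1]
  exact Finset.sum_congr rfl fun s _ => Eop_single _ _ _ _

/-- the coefficient of a word -/
def co (l : List S) : A := (l.map a).prod

lemma co_cons (s : S) (l : List S) : co a (s :: l) = a s * co a l := by
  rw [co, List.map_cons, List.prod_cons]; rfl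

lemma co_append (l l' : List S) : co a (l ++ l') = co a l * co a l' := by
  rw [co, List.map_append, List.prod_append]; rfl

lemma sum_words_succ {M : Type*} [AddCommMonoid M] (N : ℕ) (F : List S → M) :
    ∑ w : Fin (N + 1) → S, F (List.ofFn w) = ∑ s, ∑ w : Fin N → S, F (s :: List.ofFn w) := by
  rw [← (Fin.consEquiv (fun _ : Fin (N + 1) => S)).sum_comp, Fintype.sum_prod_type]
  refine Finset.sum_congr rfl fun s _ => Finset.sum_congr rfl fun w _ => ?_
  rw [List.ofFn_succ]
  simp [Fin.consEquiv]

lemma Q_words (f : G → V g A) (N k : ℕ) (h : G) :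
    Q (Eop g A (el dg a)) (Xop g A) N k f h = ∑ w : Fin N → S,
      co a (List.ofFn w) • (Lop A g h ((List.ofFn w).map dg) ^ k)
        (x (h * ((List.ofFn w).map dg).prod) (f (h * ((List.ofFn w).map dg).prod))) := by
  induction N generalizing h k with
  | zero =>
    cases k with
    | zero => simp [Q, co, Lop_nil, Xop_apply]
    | succ k => simp [Q, co, Lop_nil]
  | succ N ih =>
    rw [sum_words_succ (F := fun l => co a l • (Lop A g h (l.map dg) ^ k)
      (x (h * (l.map dg).prod) (f (h * (l.map dg).prod))))]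
    cases k with
    | zero =>
      show (Eop g A (el dg a)) (Q (Eop g A (el dg a)) (Xop g A) N 0 f) h = _
      rw [Eop_el]
      refine Finset.sum_congr rfl fun s _ => ?_
      rw [ih, Finset.smul_sum]
      refine Finset.sum_congr rfl fun w _ => ?_
      rw [co_cons, List.map_cons, List.prod_cons, mul_smul, ← mul_assoc]
      rfl
    | succ k =>
      have h1 : Q (Eop g A (el dg a)) (Xop g A) (N + 1) (k + 1) f h =
          (Eop g A (el dg a)) (Q (Eop g A (el dg a)) (Xop g A) N (k + 1) f) h +
          (k + 1) • x h ((Eop g A (el dg a)) (Xop g A (Q (Eop g A (el dg a)) (Xop g A) N k f)) h) :=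
        rfl
      rw [h1, Eop_el, Eop_el, map_sum, Finset.smul_sum, ← Finset.sum_add_distrib]
      refine Finset.sum_congr rfl fun s _ => ?_
      rw [Xop_apply, ih, ih, Finset.smul_sum, map_sum, Finset.smul_sum, map_sum, Finset.smul_sum,
        ← Finset.sum_add_distrib]
      refine Finset.sum_congr rfl fun w _ => ?_
      rw [co_cons, List.map_cons, List.prod_cons, mul_smul, ← mul_assoc, Lop_cons_pow,
        x_smul, x_smul, x_smul]
      set z := (x (h * dg s * (List.map dg (List.ofFn w)).prod))
        (f (h * dg s * (List.map dg (List.ofFn w)).prod)) with hz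
      have h2 : (Lop A g (h * dg s) (List.map dg (List.ofFn w)) ^ (k + 1) +
          (k + 1) • (x h * x (h * dg s) * Lop A g (h * dg s) (List.map dg (List.ofFn w)) ^ k) :
            AddMonoid.End (V g A)) z =
          (Lop A g (h * dg s) (List.map dg (List.ofFn w)) ^ (k + 1)) z + (k + 1) •
          (x h) ((x (h * dg s)) ((Lop A g (h * dg s) (List.map dg (List.ofFn w)) ^ k) z)) := rfl
      rw [h2, smul_add, smul_add, smul_comm (k + 1) (a s), smul_comm (k + 1) (co a (List.ofFn w))]

/-- insertion of all vertices of a path -/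
def Xw (A : Type*) [Ring A] (g : G) : G → List G → AddMonoid.End (V g A)
  | _, [] => 1
  | h, s :: l => x (h * s) * Xw A g (h * s) l

lemma U_words (f : G → V g A) (n : ℕ) (h : G) :
    ((Eop g A (el dg a) * Xop g A) ^ n : AddMonoid.End (G → V g A)) f h = ∑ w : Fin n → S,
      co a (List.ofFn w) • (Xw A g h ((List.ofFn w).map dg))
        (f (h * ((List.ofFn w).map dg).prod)) := by
  induction n generalizing h with
  | zero => simp [co, Xw]
  | succ n ih =>
    rw [sum_words_succ (F := fun l => co a l • (Xw A g h (l.map dg))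
      (f (h * (l.map dg).prod))), pow_succ']
    show (Eop g A (el dg a)) (Xop g A (((Eop g A (el dg a) * Xop g A) ^ n :
      AddMonoid.End (G → V g A)) f)) h = _
    rw [Eop_el]
    refine Finset.sum_congr rfl fun s _ => ?_
    rw [Xop_apply, ih, map_sum, Finset.smul_sum]
    refine Finset.sum_congr rfl fun w _ => ?_
    rw [co_cons, List.map_cons, List.prod_cons, mul_smul, ← mul_assoc, x_smul]
    rfl

open Classical in
/-- the initial state -/
noncomputable def dl (c : V g A) (h₀ : G) : G → V g A := fun h => if h = g * h₀ then c else 0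

lemma van (c : V g A) (h₀ : G) (n : ℕ) :
    x h₀ ((((Eop g A (el dg a) * Xop g A) ^ (n + 1) : AddMonoid.End (G → V g A)) (dl c h₀)) h₀) =
      0 := by
  have hEI : ∀ f : G → V g A, (∀ h, x h₀ (f h) = 0) →
      ∀ h, x h₀ (Eop g A (el dg a) f h) = 0 := by
    intro f hf h
    rw [Eop_el, map_sum]
    refine Finset.sum_eq_zero fun s _ => ?_
    rw [x_smul, hf, smul_zero]
  have hXI : ∀ f : G → V g A, (∀ h, x h₀ (f h) = 0) → ∀ h, x h₀ (Xop g A f h) = 0 := by
    intro f hf h
    have h1 := DFunLike.congr_fun (x_anti (A := A) (g := g) h₀ h) (f h)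
    have h2 : x h₀ (x h (f h)) = -(x h (x h₀ (f h))) := h1
    rw [Xop_apply, h2, hf, map_zero, neg_zero]
  have hbase : ∀ h, x h₀ (Xop g A (dl c h₀) h) = 0 := by
    intro h
    rw [Xop_apply, dl]
    split_ifs with hh
    · rw [hh]
      have h1 := DFunLike.congr_fun (x_inv (A := A) (g := g) h₀) c
      rw [h1]
      exact DFunLike.congr_fun (x_sq (A := A) (g := g) h₀) c
    · rw [map_zero, map_zero]
  have key : ∀ n : ℕ, ∀ h, x h₀ ((((Eop g A (el dg a) * Xop g A) ^ (n + 1) :
      AddMonoid.End (G → V g A)) (dl c h₀)) h) = 0 := by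
    intro n
    induction n with
    | zero =>
      rw [zero_add, pow_one]
      exact hEI _ hbase
    | succ n ih =>
      rw [pow_succ']
      exact hEI _ (hXI _ ih)
  exact key n h₀

/-- **The main identity on operators** -/
lemma Q_dl (he : el dg a * el dg a = el dg a) (c : V g A) (h₀ : G) (N k : ℕ) :
    Q (Eop g A (el dg a)) (Xop g A) N (k + 1) (dl c h₀) h₀ = (ca N (k + 1)).1 •
      (((Eop g A (el dg a) * Xop g A) ^ (2 * (k + 1) + 1) : AddMonoid.End (G → V g A))
        (dl c h₀)) h₀ := by
  rw [Q_formula _ _ (by rw [← map_mul, he]) Xop_sq]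
  have h1 : ((ca N (k + 1)).1 • (Eop g A (el dg a) * Xop g A) ^ (2 * (k + 1) + 1) +
      (ca N (k + 1)).2 • (Xop g A * (Eop g A (el dg a) * Xop g A) ^ (2 * (k + 1))) :
        AddMonoid.End (G → V g A)) (dl c h₀) h₀ =
      (ca N (k + 1)).1 • (((Eop g A (el dg a) * Xop g A) ^ (2 * (k + 1) + 1) :
        AddMonoid.End (G → V g A)) (dl c h₀)) h₀ +
      (ca N (k + 1)).2 • x h₀ ((((Eop g A (el dg a) * Xop g A) ^ (2 * k + 1 + 1) :
        AddMonoid.End (G → V g A)) (dl c h₀)) h₀) := rfl
  rw [h1, van, smul_zero, add_zero]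

end states

end Pool.Agent.W647.HV1
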