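import Pool.Agent.W647.HV3
import Pool.Agent.H23R2.CycWord

/-!
# Sums over cyclic words
-/

set_option autoImplicit false
set_option linter.unusedSectionVars false

namespace Pool.Agent.W647.HV1

open Finset Pool.Agent.H23R2 Pool.Agent.H23R2.Cyc

section cyc

variable {S : Type*} [Fintype S] {M : Type*} [AddCommGroup M]

lemma ofFn_cyc (N : ℕ) (w : ZMod N → S) :
    mpr (fun i => FreeMonoid.of (w i)) 0 N =
      FreeMonoid.ofList (List.ofFn fun i : Fin N => w ((i : ℕ) : ZMod N)) := by
  rw [mpr_eq_ofFn]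
  have h1 : ∀ l : List S, (l.map FreeMonoid.of).prod = FreeMonoid.ofList l := by
    intro l
    induction l with
    | nil => rfl
    | cons a l ih => rw [List.map_cons, List.prod_cons, ih]; rfl
  rw [← h1, List.map_ofFn]
  congr 2
  funext i
  simp

lemma length_mpr (N : ℕ) (w : ZMod N → S) (d : ℕ) :
    (FreeMonoid.toList (mpr (fun i => FreeMonoid.of (w i)) 0 d)).length = d := by
  induction d with
  | zero => rfl
  | succ d ih =>
    rw [mpr, FreeMonoid.toList_mul, List.length_append, ih]
    rfl

/-- A cyclically invariant function summed over all words. -/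
theorem cyc_sum (F : FreeMonoid S → M) (hF : ∀ u v, F (u * v) = F (v * u)) (N : ℕ) [NeZero N]
    (D : AddSubgroup M)
    (h : ∀ (u : FreeMonoid S) (d q : ℕ), d * q = N → (FreeMonoid.toList u).length = d →
      d • F (u ^ q) ∈ D) :
    ∑ w : Fin N → S, F (FreeMonoid.ofList (List.ofFn w)) ∈ D := by
  classical
  have hbij : Function.Bijective (fun i : Fin N => ((i : ℕ) : ZMod N)) := by
    rw [Fintype.bijective_iff_injective_and_card]
    refine ⟨fun i j h => ?_, by rw [Fintype.card_fin, ZMod.card]⟩
    have h' : ((i : ℕ) : ZMod N) = ((j : ℕ) : ZMod N) := h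
    rw [ZMod.natCast_eq_natCast_iff'] at h'
    rw [Nat.mod_eq_of_lt i.isLt, Nat.mod_eq_of_lt j.isLt] at h'
    exact Fin.ext h'
  let e : Fin N ≃ ZMod N := Equiv.ofBijective _ hbij
  have h1 : ∑ w : Fin N → S, F (FreeMonoid.ofList (List.ofFn w)) =
      ∑ w : ZMod N → S, F (mpr (fun i => FreeMonoid.of (w i)) 0 N) := by
    rw [← (Equiv.arrowCongr e.symm (Equiv.refl S)).sum_comp]
    refine Finset.sum_congr rfl fun w _ => ?_
    rw [ofFn_cyc]
    rfl
  rw [h1, ← QuotientAddGroup.eq_zero_iff, ← QuotientAddGroup.mk'_apply, map_sum]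
  let _ := rotAction N S
  have hN : N ≠ 0 := NeZero.ne N
  refine sum_orbits (G := ZMod N) _ ?_ ?_
  · intro c w
    show QuotientAddGroup.mk' D (F (mpr (shift c (fun i => FreeMonoid.of (w i))) 0 N)) = _
    rw [rot F hF c _ hN]
  · intro w
    have h2 : Nat.card (AddAction.orbit (ZMod N) w) =
        (AddAction.stabilizer (ZMod N) w).index :=
      (AddAction.index_stabilizer (ZMod N) w).symm
    rw [h2]
    obtain ⟨d, hd⟩ : ∃ d, d = (AddAction.stabilizer (ZMod N) w).index := ⟨_, rfl⟩
    have h3 : d ∣ N := by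
      have h0 := (AddAction.stabilizer (ZMod N) w).index_dvd_card
      rw [Nat.card_zmod] at h0
      rw [hd]
      exact h0
    have h4 : shift ((d : ℕ) : ZMod N) w = w := by
      have h4 := AddSubgroup.nsmul_index_mem (AddAction.stabilizer (ZMod N) w) (1 : ZMod N)
      rw [nsmul_one, ← hd] at h4
      exact h4
    rw [← hd]
    obtain ⟨q, hq⟩ := h3
    have h5 := mpr_periodic d q (fun i => FreeMonoid.of (w i))
      (congrArg (fun v : ZMod N → S => fun i => FreeMonoid.of (v i)) h4)
    have h6 : mpr (fun i => FreeMonoid.of (w i)) 0 N =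
        mpr (fun i => FreeMonoid.of (w i)) 0 d ^ q := by
      rw [← h5]
      exact congrArg _ hq
    rw [h6, ← map_nsmul, QuotientAddGroup.mk'_apply, QuotientAddGroup.eq_zero_iff]
    exact h _ d q hq.symm (length_mpr N w d)

end cyc

end Pool.Agent.W647.HV1
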