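import Pool.Agent.W647.HV4

/-!
# Divisibility of the higher Chern character
-/

set_option autoImplicit false
set_option linter.unusedSectionVars false

namespace Pool.Agent.W647.HV1

open Finset Pool.Agent.H23R2 Pool.Agent.H23R2.Cyc

section core

variable {G : Type*} [Group G] {g : G} {A : Type*} [Ring A] {S : Type*} [Fintype S]
  (dg : S → G) (a : S → A) {M : Type*} [AddCommGroup M] (T : A →+ M) (c : V g A) (t : G → G)

open Classical in
/-- the weight of a closed word -/
noncomputable def PhiN (k : ℕ) (l : List S) : M :=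
  if IsConj (l.map dg).prod g then
    T (co a l * ev ((Lop A g (t (l.map dg).prod) (l.map dg) ^ k) (x (t (l.map dg).prod) c)) [])
  else 0

open Classical in
/-- the term of the Chern character at a closed word -/
noncomputable def PhiU (l : List S) : M :=
  if IsConj (l.map dg).prod g then
    T (co a l * ev (Xw A g (t (l.map dg).prod) (l.map dg) c) [])
  else 0

lemma isConj_mul_comm (y z : G) : IsConj (y * z) g ↔ IsConj (z * y) g := by
  have h1 : IsConj (y * z) (z * y) := isConj_iff.2 ⟨y⁻¹, by group⟩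
  exact ⟨fun h => h1.symm.trans h, fun h => h1.trans h⟩

variable {T c t}

lemma PhiN_rot (hT : ∀ a b, T (a * b) = T (b * a)) (hcen : c ∈ Cen g A)
    (hD : ∀ m, D m (ev c) = 0) (hth : ∀ z (hz : z * g = g * z), th z hz c = c)
    (ht : ∀ y, IsConj y g → t y * y * (t y)⁻¹ = g) (k : ℕ) (l l' : List S) :
    PhiN dg a T c t k (l ++ l') = PhiN dg a T c t k (l' ++ l) := by
  classical
  rw [PhiN, PhiN]
  simp only [List.map_append, List.prod_append]
  set m := l.map dg with hm
  set m' := l'.map dg with hm'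
  by_cases hy : IsConj (m.prod * m'.prod) g
  · have hy' := (isConj_mul_comm _ _).1 hy
    rw [if_pos hy, if_pos hy']
    set h := t (m.prod * m'.prod) with hh
    set h' := t (m'.prod * m.prod) with hh'
    have e1 : h * (m.prod * m'.prod) * h⁻¹ = g := ht _ hy
    have e2 : h' * (m'.prod * m.prod) * h'⁻¹ = g := ht _ hy'
    have e1' : h * (m ++ m').prod = g * h := by
      rw [List.prod_append, ← e1]; group
    have e3 : (h * m.prod) * (m'.prod * m.prod) * (h * m.prod)⁻¹ = g := by
      rw [← e1]; group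
    set z := h' * (h * m.prod)⁻¹ with hz
    have hzg : z * g = g * z := by
      rw [hz]
      nth_rewrite 1 [← e3]
      nth_rewrite 1 [← e2]
      group
    have e4 : z * (h * m.prod) = h' := by rw [hz]; group
    have e5 : ev ((Lop A g h (m ++ m') ^ k) (x h c)) [] =
        ev ((Lop A g h' (m' ++ m) ^ k) (x h' c)) [] := by
      rw [apex h (m ++ m') e1' k c hD h (h * m.prod), ← Lop_rot h m m' e1',
        trans z hzg (h * m.prod) (m' ++ m) k c (hth z hzg), e4]
    rw [e5, co_append, co_append]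
    have hc : ∀ b : A, b * ev ((Lop A g h' (m' ++ m) ^ k) (x h' c)) [] =
        ev ((Lop A g h' (m' ++ m) ^ k) (x h' c)) [] * b := by
      intro b
      exact Cen_Lop_pow h' (m' ++ m) k (Cen_x h' hcen) [] b
    rw [mul_assoc, mul_assoc, hT, mul_assoc (co a l'), hc (co a l)]
  · have hy' : ¬ IsConj (m'.prod * m.prod) g := fun h => hy ((isConj_mul_comm _ _).2 h)
    rw [if_neg hy, if_neg hy']

lemma prod_flat (u : List S) (q : ℕ) :
    (((List.replicate q u).flatten).map dg) = (List.replicate q (u.map dg)).flatten := by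
  rw [List.map_flatten, List.map_replicate]

lemma toList_pow (u : FreeMonoid S) (q : ℕ) :
    FreeMonoid.toList (u ^ q) = (List.replicate q (FreeMonoid.toList u)).flatten := by
  induction q with
  | zero => rfl
  | succ q ih => rw [pow_succ', FreeMonoid.toList_mul, ih, List.replicate_succ]; rfl

lemma PhiN_div (hg : IsOfFinOrder g) (ht : ∀ y, IsConj y g → t y * y * (t y)⁻¹ = g) (k : ℕ)
    (u : List S) (q : ℕ) (hq : q ≠ 0) :
    PhiN dg a T c t (k + 1) (List.replicate q u).flatten = 0 ∨
      (IsOfFinOrder (u.map dg).prod ∧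
        ∃ m : M, PhiN dg a T c t (k + 1) (List.replicate q u).flatten =
          (q / (Nat.gcd q (orderOf (u.map dg).prod))) • m) := by
  classical
  rw [PhiN]
  by_cases hy : IsConj ((List.replicate q u).flatten.map dg).prod g
  · right
    have h1 : ((List.replicate q u).flatten.map dg).prod = (u.map dg).prod ^ q := by
      rw [prod_flat, List.prod_flatten, List.map_replicate, List.prod_replicate]
    have h2 : IsOfFinOrder ((u.map dg).prod ^ q) := by
      obtain ⟨b, hb⟩ := isConj_iff.1 hy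
      obtain ⟨n, hn, hn1⟩ := hg.exists_pow_eq_one
      rw [isOfFinOrder_iff_pow_eq_one]
      refine ⟨n, hn, ?_⟩
      rw [← h1]
      have h3 : ((List.replicate q u).flatten.map dg).prod = b⁻¹ * g * b := by
        rw [← hb]; group
      rw [h3]
      have h4 : (b⁻¹ * g * b⁻¹⁻¹) ^ n = b⁻¹ * g ^ n * b⁻¹⁻¹ := conj_pow
      rw [inv_inv] at h4
      rw [h4, hn1]
      group
    refine ⟨(isOfFinOrder_pow.1 h2).resolve_right hq, ?_⟩
    rw [if_pos hy]
    have h5 := ht _ hy
    set h := t ((List.replicate q u).flatten.map dg).prod with hh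
    have h6 : h * (List.replicate q (u.map dg)).flatten.prod = g * h := by
      rw [← prod_flat, ← h5]; group
    obtain ⟨L', hL'⟩ := Lop_flat_div (A := A) h (u.map dg) q hq h6 (orderOf (u.map dg).prod)
      (pow_orderOf_eq_one _)
    rw [prod_flat, hL']
    obtain ⟨L'', hL''⟩ := nsmul_pow_div (q / Nat.gcd q (orderOf (u.map dg).prod)) L' k
    rw [hL'']
    refine ⟨T (co a (List.replicate q u).flatten * ev (L'' (x h c)) []), ?_⟩
    rw [← map_nsmul, ← mul_smul_comm]
    rfl
  · left
    rw [if_neg hy]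

/-- **Divisibility of the weighted sum over all words of length `p ^ (m + b)`.** -/
theorem sum_words_mem (hT : ∀ a b, T (a * b) = T (b * a)) (hcen : c ∈ Cen g A)
    (hD : ∀ m, D m (ev c) = 0) (hth : ∀ z (hz : z * g = g * z), th z hz c = c)
    (hg : IsOfFinOrder g)
    (ht : ∀ y, IsConj y g → t y * y * (t y)⁻¹ = g) (k : ℕ) {p : ℕ} (hp : p.Prime) (m : ℕ) :
    ∃ b : ℕ, ∃ y : M, ∑ w : Fin (p ^ (m + b)) → S, PhiN dg a T c t (k + 1) (List.ofFn w) =
      p ^ m • y := by
  classical
  -- a bound for the orders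
  obtain ⟨b, hb⟩ : ∃ b : ℕ, ∀ u : List S, u.length < p ^ m → IsOfFinOrder (u.map dg).prod →
      orderOf (u.map dg).prod ≤ p ^ b := by
    let W : Finset G := (range (p ^ m)).biUnion fun n =>
      (univ : Finset (Fin n → S)).image fun w => ((List.ofFn w).map dg).prod
    refine ⟨∑ y ∈ W, orderOf y, fun u hu _ => ?_⟩
    have h1 : (u.map dg).prod ∈ W := by
      rw [mem_biUnion]
      refine ⟨u.length, mem_range.2 hu, mem_image.2 ⟨fun i => u.get i, mem_univ _, ?_⟩⟩
      rw [List.ofFn_get]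
    have h2 : orderOf (u.map dg).prod ≤ ∑ y ∈ W, orderOf y :=
      Finset.single_le_sum (f := fun y => orderOf y) (fun _ _ => Nat.zero_le _) h1
    exact h2.trans (Nat.lt_pow_self hp.one_lt).le
  refine ⟨b, ?_⟩
  have hN0 : p ^ (m + b) ≠ 0 := pow_ne_zero _ hp.ne_zero
  have : NeZero (p ^ (m + b)) := ⟨hN0⟩
  let DD : AddSubgroup M := (nsmulAddMonoidHom (α := M) (p ^ m)).range
  have key := cyc_sum (fun v : FreeMonoid S => PhiN dg a T c t (k + 1) (FreeMonoid.toList v))
    (fun u v => by
      show PhiN dg a T c t (k + 1) (FreeMonoid.toList (u * v)) =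
        PhiN dg a T c t (k + 1) (FreeMonoid.toList (v * u))
      rw [FreeMonoid.toList_mul, FreeMonoid.toList_mul]
      exact PhiN_rot dg a hT hcen hD hth ht (k + 1) _ _) (p ^ (m + b)) DD ?_
  · obtain ⟨y, hy⟩ := key
    exact ⟨y, hy.symm⟩
  · intro u d q hdq hu
    show d • PhiN dg a T c t (k + 1) (FreeMonoid.toList (u ^ q)) ∈ DD
    rw [toList_pow]
    have hd : d ∣ p ^ (m + b) := ⟨q, hdq.symm⟩
    obtain ⟨i, hi, hdi⟩ := (Nat.dvd_prime_pow hp).1 hd
    have hq0 : q ≠ 0 := by
      rintro rfl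
      rw [mul_zero] at hdq
      exact hN0 hdq.symm
    rcases PhiN_div (T := T) (c := c) dg a hg ht k (FreeMonoid.toList u) q hq0 with h0 |
      ⟨hfin, y, hy⟩
    · rw [h0, smul_zero]
      exact DD.zero_mem
    · rw [hy, smul_smul]
      set o := orderOf ((FreeMonoid.toList u).map dg).prod with ho
      have hopos : 0 < o := hfin.orderOf_pos
      have hrq : Nat.gcd q o ∣ q := Nat.gcd_dvd_left _ _
      have hqN : q ∣ p ^ (m + b) := ⟨d, by rw [mul_comm]; exact hdq.symm⟩
      obtain ⟨j, hj, hrj⟩ := (Nat.dvd_prime_pow hp).1 (hrq.trans hqN)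
      have h7 : p ^ m ∣ d * (q / Nat.gcd q o) := by
        rcases le_or_gt m i with hmi | hmi
        · rw [hdi]
          exact (pow_dvd_pow p hmi).trans (dvd_mul_right _ _)
        · have hlen : (FreeMonoid.toList u).length < p ^ m := by
            rw [hu, hdi]
            exact Nat.pow_lt_pow_right hp.one_lt hmi
          have h8 : o ≤ p ^ b := hb _ hlen hfin
          have h9 : p ^ j ≤ p ^ b := by
            rw [← hrj]
            exact (Nat.le_of_dvd hopos (Nat.gcd_dvd_right _ _)).trans h8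
          have h10 : j ≤ b := (Nat.pow_le_pow_iff_right hp.one_lt).1 h9
          obtain ⟨s, hs⟩ := hrq
          have hrpos : 0 < Nat.gcd q o := Nat.gcd_pos_of_pos_right _ hopos
          have h11 : q / Nat.gcd q o = s := by
            nth_rewrite 1 [hs]
            exact Nat.mul_div_cancel_left _ hrpos
          rw [h11]
          have h12 : p ^ j * (d * s) = p ^ (m + b) := by
            rw [← hdq, ← hrj]
            conv_rhs => rw [hs]
            ring
          have h13 : p ^ j * p ^ m ∣ p ^ j * (d * s) := by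
            rw [h12, ← pow_add]
            exact pow_dvd_pow p (by omega)
          exact Nat.dvd_of_mul_dvd_mul_left (pow_pos hp.pos _) h13
      obtain ⟨e, he⟩ := h7
      rw [he]
      exact ⟨e • y, by show p ^ m • e • y = _; rw [smul_smul]⟩

lemma term_N (h₀ y : G) (hy : h₀ * y * h₀⁻¹ = g) (k N : ℕ) :
    T (ev (Q (Eop g A (el dg a)) (Xop g A) N k (dl c h₀) h₀) []) =
      ∑ w : Fin N → S, (open Classical in if ((List.ofFn w).map dg).prod = y then
        T (co a (List.ofFn w) * ev ((Lop A g h₀ ((List.ofFn w).map dg) ^ k) (x h₀ c)) []) else 0) := by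
  classical
  rw [Q_words, ← evHom_apply, map_sum, map_sum]
  refine Finset.sum_congr rfl fun w _ => ?_
  rw [evHom_apply, ev_smul, Pi.smul_apply, smul_eq_mul]
  split_ifs with h1
  · have h2 : h₀ * ((List.ofFn w).map dg).prod = g * h₀ := by
      rw [h1, ← hy]; group
    rw [h2]
    have h3 : dl c h₀ (g * h₀) = c := by rw [dl, if_pos rfl]
    rw [h3, x_inv]
  · have h2 : h₀ * ((List.ofFn w).map dg).prod ≠ g * h₀ := by
      intro h2
      apply h1
      rw [← hy] at h2
      have h3 : h₀ * ((List.ofFn w).map dg).prod = h₀ * y := by rw [h2]; group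
      exact mul_left_cancel h3
    have h3 : dl c h₀ (h₀ * ((List.ofFn w).map dg).prod) = 0 := by rw [dl, if_neg h2]
    rw [h3, map_zero, map_zero, ev_zero, Pi.zero_apply, mul_zero, map_zero]

lemma term_U (h₀ y : G) (hy : h₀ * y * h₀⁻¹ = g) (n : ℕ) :
    T (ev ((((Eop g A (el dg a) * Xop g A) ^ n : AddMonoid.End (G → V g A))
        (dl c h₀)) h₀) []) =
      ∑ w : Fin n → S, (open Classical in if ((List.ofFn w).map dg).prod = y then
        T (co a (List.ofFn w) * ev (Xw A g h₀ ((List.ofFn w).map dg) c) []) else 0) := by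
  classical
  rw [U_words, ← evHom_apply, map_sum, map_sum]
  refine Finset.sum_congr rfl fun w _ => ?_
  rw [evHom_apply, ev_smul, Pi.smul_apply, smul_eq_mul]
  split_ifs with h1
  · have h2 : h₀ * ((List.ofFn w).map dg).prod = g * h₀ := by
      rw [h1, ← hy]; group
    rw [h2]
    have h3 : dl c h₀ (g * h₀) = c := by rw [dl, if_pos rfl]
    rw [h3]
  · have h2 : h₀ * ((List.ofFn w).map dg).prod ≠ g * h₀ := by
      intro h2
      apply h1
      rw [← hy] at h2
      have h3 : h₀ * ((List.ofFn w).map dg).prod = h₀ * y := by rw [h2]; group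
      exact mul_left_cancel h3
    have h3 : dl c h₀ (h₀ * ((List.ofFn w).map dg).prod) = 0 := by rw [dl, if_neg h2]
    rw [h3, map_zero, ev_zero, Pi.zero_apply, mul_zero, map_zero]

theorem sum_N_eq_U (he : el dg a * el dg a = el dg a)
    (ht : ∀ y, IsConj y g → t y * y * (t y)⁻¹ = g) (N k : ℕ) :
    ∑ w : Fin N → S, PhiN dg a T c t (k + 1) (List.ofFn w) = (ca N (k + 1)).1 •
      ∑ w : Fin (2 * (k + 1) + 1) → S, PhiU dg a T c t (List.ofFn w) := by
  classical
  let Y : Finset G := (((univ : Finset (Fin N → S)).image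
    fun w => ((List.ofFn w).map dg).prod) ∪ ((univ : Finset (Fin (2 * (k + 1) + 1) → S)).image
    fun w => ((List.ofFn w).map dg).prod)).filter fun y => IsConj y g
  have hYg : ∀ y ∈ Y, IsConj y g := fun y hy => (mem_filter.1 hy).2
  have h1 : ∑ w : Fin N → S, PhiN dg a T c t (k + 1) (List.ofFn w) =
      ∑ w : Fin N → S, ∑ y ∈ Y, if ((List.ofFn w).map dg).prod = y then
        T (co a (List.ofFn w) * ev ((Lop A g (t y) ((List.ofFn w).map dg) ^ (k + 1))
          (x (t y) c)) []) else 0 := by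
    refine Finset.sum_congr rfl fun w _ => ?_
    rw [Finset.sum_ite_eq, PhiN]
    by_cases h2 : IsConj ((List.ofFn w).map dg).prod g
    · rw [if_pos h2, if_pos]
      exact mem_filter.2 ⟨mem_union_left _ (mem_image_of_mem _ (mem_univ w)), h2⟩
    · rw [if_neg h2, if_neg]
      exact fun h3 => h2 (hYg _ h3)
  have h1' : ∑ w : Fin (2 * (k + 1) + 1) → S, PhiU dg a T c t (List.ofFn w) =
      ∑ w : Fin (2 * (k + 1) + 1) → S, ∑ y ∈ Y, if ((List.ofFn w).map dg).prod = y then
        T (co a (List.ofFn w) * ev (Xw A g (t y) ((List.ofFn w).map dg) c) []) else 0 := by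
    refine Finset.sum_congr rfl fun w _ => ?_
    rw [Finset.sum_ite_eq, PhiU]
    by_cases h2 : IsConj ((List.ofFn w).map dg).prod g
    · rw [if_pos h2, if_pos]
      exact mem_filter.2 ⟨mem_union_right _ (mem_image_of_mem _ (mem_univ w)), h2⟩
    · rw [if_neg h2, if_neg]
      exact fun h3 => h2 (hYg _ h3)
  rw [h1, h1', Finset.sum_comm, Finset.sum_comm (s := (univ : Finset (Fin (2 * (k + 1) + 1) → S))),
    Finset.smul_sum]
  refine Finset.sum_congr rfl fun y hy => ?_
  have h2 := ht y (hYg y hy)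
  rw [← term_N dg a (t y) y h2, ← term_U dg a (t y) y h2, Q_dl dg a he, ← map_nsmul]
  rfl

/-- **The higher Chern character is divisible by all powers of all large primes.** -/
theorem chern_mem (he : el dg a * el dg a = el dg a)
    (hT : ∀ a b, T (a * b) = T (b * a)) (hcen : c ∈ Cen g A)
    (hD : ∀ m, D m (ev c) = 0) (hth : ∀ z (hz : z * g = g * z), th z hz c = c)
    (hg : IsOfFinOrder g)
    (ht : ∀ y, IsConj y g → t y * y * (t y)⁻¹ = g) (k : ℕ) {p : ℕ} (hp : p.Prime)
    (hkp : 2 * (k + 1) < p) (m : ℕ) :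
    ∃ y : M, ∑ w : Fin (2 * (k + 1) + 1) → S, PhiU dg a T c t (List.ofFn w) = p ^ m • y := by
  rcases Nat.eq_zero_or_pos m with rfl | hm
  · exact ⟨_, by rw [pow_zero, one_smul]⟩
  obtain ⟨b, y, hy⟩ := sum_words_mem (T := T) (c := c) dg a hT hcen hD hth hg ht k hp m
  rw [sum_N_eq_U dg a he ht] at hy
  set Z := ∑ w : Fin (2 * (k + 1) + 1) → S, PhiU dg a T c t (List.ofFn w) with hZ
  have hN : 2 * (k + 1) < p ^ (m + b) :=
    hkp.trans_le (Nat.le_self_pow (by omega) p)
  obtain ⟨n, hn⟩ : ∃ n, p ^ (m + b) = n + (k + 1) + 1 :=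
    ⟨p ^ (m + b) - (k + 2), by omega⟩
  have hcop : Nat.Coprime (ca (p ^ (m + b)) (k + 1)).1 (p ^ m) := by
    rw [hn, ca_eq]
    apply Nat.Coprime.pow_right
    rw [Nat.coprime_comm, hp.coprime_iff_not_dvd]
    intro hdvd
    rw [Nat.descFactorial_eq_prod_range, hp.prime.dvd_finsetProd_iff] at hdvd
    obtain ⟨i, hi, hdi⟩ := hdvd
    rw [mem_range] at hi
    have h1 : p ∣ p ^ (m + b) := dvd_pow_self p (by omega)
    have h2 : p ^ (m + b) = (n - i) + (i + k + 2) := by omega
    rw [h2, Nat.dvd_add_right hdi] at h1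
    exact absurd (Nat.le_of_dvd (by omega) h1) (by omega)
  have h1 := Nat.gcd_eq_gcd_ab (ca (p ^ (m + b)) (k + 1)).1 (p ^ m)
  rw [hcop] at h1
  refine ⟨(Nat.gcdA (ca (p ^ (m + b)) (k + 1)).1 (p ^ m)) • y +
    (Nat.gcdB (ca (p ^ (m + b)) (k + 1)).1 (p ^ m)) • Z, ?_⟩
  have h3 : (((ca (p ^ (m + b)) (k + 1)).1 : ℤ) * (Nat.gcdA (ca (p ^ (m + b)) (k + 1)).1 (p ^ m)) +
      ((p ^ m : ℕ) : ℤ) * (Nat.gcdB (ca (p ^ (m + b)) (k + 1)).1 (p ^ m))) • Z = Z := by
    rw [← h1, Nat.cast_one, one_smul]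
  rw [add_smul, mul_smul, mul_smul, natCast_zsmul, natCast_zsmul, smul_comm, hy] at h3
  rw [smul_add, smul_comm (p ^ m) (Nat.gcdA (ca (p ^ (m + b)) (k + 1)).1 (p ^ m)) y]
  exact h3.symm

end core

end Pool.Agent.W647.HV1
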