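import Pool.Agent.W647.HV5

/-!
# Divisibility by all integers
-/

set_option autoImplicit false
set_option linter.unusedSectionVars false

namespace Pool.Agent.W647.HV1

open Finset Pool.Agent.H23R2 Pool.Agent.H23R2.Cyc

section dvd

lemma desc_mod (k n N : ℕ) (hN : N = n + k + 1) (hk : k ≤ n) :
    ∃ t : ℤ, ((2 * k).descFactorial k : ℤ) = (-1) ^ k * (n.descFactorial k : ℤ) + N * t := by
  have h1 : (n.descFactorial k : ℤ) = ∏ i ∈ range k, ((N : ℤ) - (k + 1 + i)) := by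
    rw [Nat.descFactorial_eq_prod_range, Nat.cast_prod]
    refine Finset.prod_congr rfl fun i hi => ?_
    rw [mem_range] at hi
    rw [Nat.cast_sub (by omega), hN]
    push_cast
    ring
  have h2 : ((2 * k).descFactorial k : ℤ) = ∏ i ∈ range k, ((k : ℤ) + 1 + i) := by
    rw [Nat.descFactorial_eq_prod_range, Nat.cast_prod, ← Finset.prod_range_reflect]
    refine Finset.prod_congr rfl fun i hi => ?_
    rw [mem_range] at hi
    rw [Nat.cast_sub (by omega), Nat.cast_sub (by omega), Nat.cast_sub (by omega)]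
    push_cast
    ring
  have h3 : ∀ j, ∃ t : ℤ, ∏ i ∈ range j, ((k : ℤ) + 1 + i) =
      (-1) ^ j * ∏ i ∈ range j, ((N : ℤ) - (k + 1 + i)) + N * t := by
    intro j
    induction j with
    | zero => exact ⟨0, by simp⟩
    | succ j ih =>
      obtain ⟨t, ht⟩ := ih
      refine ⟨(-1) ^ j * ∏ i ∈ range j, ((N : ℤ) - (k + 1 + i)) + ((k : ℤ) + 1 + j) * t, ?_⟩
      rw [Finset.prod_range_succ, Finset.prod_range_succ, ht]
      ring
  obtain ⟨t, ht⟩ := h3 k
  exact ⟨t, by rw [h1, h2, ht]⟩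

variable {G : Type*} [Group G] {g : G} {A : Type*} [Ring A] {S : Type*} [Fintype S]
  (dg : S → G) (a : S → A) {M : Type*} [AddCommGroup M] {T : A →+ M} {c : V g A} {t : G → G}

theorem chern_prime (he : el dg a * el dg a = el dg a)
    (hT : ∀ a b, T (a * b) = T (b * a)) (hcen : c ∈ Cen g A)
    (hD : ∀ m, D m (ev c) = 0) (hth : ∀ z (hz : z * g = g * z), th z hz c = c)
    (hg : IsOfFinOrder g)
    (ht : ∀ y, IsConj y g → t y * y * (t y)⁻¹ = g) (k : ℕ) {p : ℕ} (hp : p.Prime) (m : ℕ) :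
    ∃ y : M, (2 * (k + 1)).descFactorial (k + 1) •
      ∑ w : Fin (2 * (k + 1) + 1) → S, PhiU dg a T c t (List.ofFn w) = p ^ m • y := by
  obtain ⟨b, y, hy⟩ := sum_words_mem (T := T) (c := c) dg a hT hcen hD hth hg ht k hp
    (m + (2 * k + 4))
  rw [sum_N_eq_U dg a he ht] at hy
  set Z := ∑ w : Fin (2 * (k + 1) + 1) → S, PhiU dg a T c t (List.ofFn w) with hZ
  have hN : 2 * k + 4 < p ^ (m + (2 * k + 4) + b) := by
    calc 2 * k + 4 < p ^ (2 * k + 4) := Nat.lt_pow_self hp.one_lt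
      _ ≤ p ^ (m + (2 * k + 4) + b) := Nat.pow_le_pow_right hp.pos (by omega)
  obtain ⟨n, hn⟩ : ∃ n, p ^ (m + (2 * k + 4) + b) = n + (k + 1) + 1 :=
    ⟨p ^ (m + (2 * k + 4) + b) - (k + 2), by omega⟩
  obtain ⟨s, hs⟩ := desc_mod (k + 1) n _ hn (by omega)
  have h1 : (ca (p ^ (m + (2 * k + 4) + b)) (k + 1)).1 = n.descFactorial (k + 1) := by
    rw [hn, ca_eq]
  rw [h1] at hy
  refine ⟨(-1 : ℤ) ^ (k + 1) • (p ^ (2 * k + 4) • y) + s • (p ^ (2 * k + 4 + b) • Z), ?_⟩
  rw [← natCast_zsmul, hs, add_smul, mul_smul, natCast_zsmul, hy, smul_add]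
  congr 1
  · rw [pow_add p m (2 * k + 4), mul_smul, smul_comm]
  · rw [mul_smul, smul_comm, natCast_zsmul, smul_comm (p ^ m) s]
    congr 1
    rw [smul_smul, ← pow_add]
    congr 2
    ring

/-- **Divisibility by every positive integer.** -/
theorem chern_dvd (he : el dg a * el dg a = el dg a)
    (hT : ∀ a b, T (a * b) = T (b * a)) (hcen : c ∈ Cen g A)
    (hD : ∀ m, D m (ev c) = 0) (hth : ∀ z (hz : z * g = g * z), th z hz c = c)
    (hg : IsOfFinOrder g)
    (ht : ∀ y, IsConj y g → t y * y * (t y)⁻¹ = g) (k : ℕ) (N : ℕ) (hN : N ≠ 0) :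
    ∃ y : M, (2 * (k + 1)).descFactorial (k + 1) •
      ∑ w : Fin (2 * (k + 1) + 1) → S, PhiU dg a T c t (List.ofFn w) = N • y := by
  set Z := (2 * (k + 1)).descFactorial (k + 1) •
      ∑ w : Fin (2 * (k + 1) + 1) → S, PhiU dg a T c t (List.ofFn w) with hZ
  induction N using Nat.recOnPosPrimePosCoprime with
  | prime_pow p m hp hm => exact chern_prime dg a he hT hcen hD hth hg ht k hp m
  | zero => exact absurd rfl hN
  | one => exact ⟨Z, by rw [one_smul]⟩
  | coprime a b ha hb hab iha ihb =>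
    obtain ⟨y, hy⟩ := iha (by omega)
    obtain ⟨y', hy'⟩ := ihb (by omega)
    have h1 := Nat.gcd_eq_gcd_ab a b
    rw [hab] at h1
    refine ⟨Nat.gcdA a b • y' + Nat.gcdB a b • y, ?_⟩
    have h3 : ((a : ℤ) * (Nat.gcdA a b) + (b : ℤ) * (Nat.gcdB a b)) • Z = Z := by
      rw [← h1, Nat.cast_one, one_smul]
    rw [← h3, add_smul, smul_add]
    congr 1
    · conv_lhs => rw [hy']
      rw [mul_smul, natCast_zsmul, smul_comm (Nat.gcdA a b) b y', smul_smul, smul_comm]
    · conv_lhs => rw [hy]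
      rw [mul_smul, natCast_zsmul, smul_comm (Nat.gcdB a b) a y, smul_smul, mul_comm b a]

end dvd

end Pool.Agent.W647.HV1
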