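import Pool.Agent.W647.HV6

/-!
# From homogeneous cochains on tuples to cochains on lists
-/

set_option autoImplicit false
set_option linter.unusedSectionVars false

namespace Pool.Agent.W647.HV1

open Finset

section tuples

variable {G : Type*} [Group G] {A : Type*} [Ring A]

/-- the tuple of a list -/
def vec (m : ℕ) (l : List G) : Fin m → G := fun i => l.getD i 1

/-- the cochain on lists -/
def lc {m : ℕ} (c : (Fin m → G) → A) : List G → A := fun l =>
  if l.length = m then c (vec m l) else 0

/-- The alternating homogeneous cochains of degree `n` of `G` with values in `A`, which are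
cocycles, invariant under left multiplication by all elements of the centralizer of `g`, and
invariant under left multiplication by `g` in each single variable. -/
structure IsClassCocycle (g : G) {n : ℕ} (c : (Fin (n + 1) → G) → A) : Prop where
  perm : ∀ (v : Fin (n + 1) → G) (σ : Equiv.Perm (Fin (n + 1))),
    c (v ∘ σ) = ((Equiv.Perm.sign σ : ℤˣ) : ℤ) • c v
  rep : ∀ (v : Fin (n + 1) → G) (i j : Fin (n + 1)), i ≠ j → v i = v j → c v = 0
  left : ∀ (z : G), z * g = g * z → ∀ v : Fin (n + 1) → G, c (fun i => z * v i) = c v
  single : ∀ (v : Fin (n + 1) → G) (i : Fin (n + 1)), c (Function.update v i (g * v i)) = c v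
  closed : ∀ v : Fin (n + 2) → G, ∑ i : Fin (n + 2), (-1 : ℤ) ^ (i : ℕ) • c (v ∘ i.succAbove) = 0

lemma vec_append_left (m : ℕ) (l l' : List G) (j : Fin m) (hj : (j : ℕ) < l.length) :
    vec m (l ++ l') j = l.getD j 1 := by
  rw [vec]
  simp only [List.getD_eq_getElem?_getD]
  rw [List.getElem?_append_left hj]

lemma vec_append_right (m : ℕ) (l l' : List G) (j : Fin m) (hj : l.length ≤ (j : ℕ)) :
    vec m (l ++ l') j = l'.getD (j - l.length) 1 := by
  rw [vec]
  simp only [List.getD_eq_getElem?_getD]
  rw [List.getElem?_append_right hj]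

lemma lc_mem {g : G} {n : ℕ} {c : (Fin (n + 1) → G) → A} (hc : IsClassCocycle g c) :
    lc c ∈ VS g A := by
  refine ⟨fun l a b l' => ?_, fun l a l' => ?_, fun l a l' => ?_⟩
  · by_cases hl : (l ++ a :: b :: l').length = n + 1
    · have hl' : (l ++ b :: a :: l').length = n + 1 := by
        rw [← hl]; simp
      rw [lc, lc, if_pos hl, if_pos hl']
      have hi : l.length < n + 1 := by
        rw [List.length_append, List.length_cons] at hl; omega
      have hi' : l.length + 1 < n + 1 := by
        rw [List.length_append, List.length_cons, List.length_cons] at hl; omega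
      have h1 : vec (n + 1) (l ++ a :: b :: l') =
          vec (n + 1) (l ++ b :: a :: l') ∘ (Equiv.swap ⟨l.length, hi⟩ ⟨l.length + 1, hi'⟩) := by
        funext j
        rw [Function.comp_apply]
        by_cases e1 : j = ⟨l.length, hi⟩
        · rw [e1, Equiv.swap_apply_left, vec_append_right _ _ _ _ le_rfl,
            vec_append_right _ _ _ _ (Nat.le_succ _)]
          simp
        · by_cases e2 : j = ⟨l.length + 1, hi'⟩
          · rw [e2, Equiv.swap_apply_right, vec_append_right _ _ _ _ (Nat.le_succ _),
              vec_append_right _ _ _ _ le_rfl]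
            simp
          · rw [Equiv.swap_apply_of_ne_of_ne e1 e2]
            rcases lt_or_ge (j : ℕ) l.length with e3 | e3
            · rw [vec_append_left _ _ _ _ e3, vec_append_left _ _ _ _ e3]
            · rw [vec_append_right _ _ _ _ e3, vec_append_right _ _ _ _ e3]
              have e1' : (j : ℕ) ≠ l.length := fun e => e1 (Fin.ext e)
              have e2' : (j : ℕ) ≠ l.length + 1 := fun e => e2 (Fin.ext e)
              obtain ⟨s, hs⟩ : ∃ s, (j : ℕ) - l.length = s + 2 :=
                ⟨(j : ℕ) - l.length - 2, by omega⟩
              rw [hs]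
              simp
      rw [h1, hc.perm, Equiv.Perm.sign_swap]
      · simp
      · intro e
        have := congrArg Fin.val e
        simp at this
    · have hl' : ¬ (l ++ b :: a :: l').length = n + 1 := by
        intro e; apply hl; rw [← e]; simp
      rw [lc, lc, if_neg hl, if_neg hl', neg_zero]
  · by_cases hl : (l ++ a :: a :: l').length = n + 1
    · rw [lc, if_pos hl]
      have hi : l.length < n + 1 := by
        rw [List.length_append, List.length_cons] at hl; omega
      have hi' : l.length + 1 < n + 1 := by
        rw [List.length_append, List.length_cons, List.length_cons] at hl; omega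
      refine hc.rep _ ⟨l.length, hi⟩ ⟨l.length + 1, hi'⟩ ?_ ?_
      · intro e
        have := congrArg Fin.val e
        simp at this
      · rw [vec_append_right _ _ _ _ le_rfl, vec_append_right _ _ _ _ (Nat.le_succ _)]
        simp
    · rw [lc, if_neg hl]
  · by_cases hl : (l ++ a :: l').length = n + 1
    · have hl' : (l ++ (g * a) :: l').length = n + 1 := by
        rw [← hl]; simp
      rw [lc, lc, if_pos hl, if_pos hl']
      have hi : l.length < n + 1 := by
        rw [List.length_append, List.length_cons] at hl; omega
      have h1 : vec (n + 1) (l ++ (g * a) :: l') =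
          Function.update (vec (n + 1) (l ++ a :: l')) ⟨l.length, hi⟩
            (g * vec (n + 1) (l ++ a :: l') ⟨l.length, hi⟩) := by
        funext j
        by_cases e1 : j = ⟨l.length, hi⟩
        · rw [e1, Function.update_self, vec_append_right _ _ _ _ le_rfl,
            vec_append_right _ _ _ _ le_rfl]
          simp
        · rw [Function.update_of_ne e1]
          rcases lt_or_ge (j : ℕ) l.length with e3 | e3
          · rw [vec_append_left _ _ _ _ e3, vec_append_left _ _ _ _ e3]
          · rw [vec_append_right _ _ _ _ e3, vec_append_right _ _ _ _ e3]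
            have e1' : (j : ℕ) ≠ l.length := fun e => e1 (Fin.ext e)
            obtain ⟨s, hs⟩ : ∃ s, (j : ℕ) - l.length = s + 1 :=
              ⟨(j : ℕ) - l.length - 1, by omega⟩
            rw [hs]
            simp
      rw [h1, hc.single]
    · have hl' : ¬ (l ++ (g * a) :: l').length = n + 1 := by
        intro e; apply hl; rw [← e]; simp
      rw [lc, lc, if_neg hl, if_neg hl']

lemma D_eq_sum (l : List G) (φ : List G → A) :
    D l φ = ∑ i ∈ range l.length, (-1 : ℤ) ^ i • φ (l.eraseIdx i) := by
  induction l generalizing φ with
  | nil => simp [D_nil]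
  | cons a l ih =>
    rw [D_cons, ih, List.length_cons, Finset.sum_range_succ', sub_eq_add_neg, add_comm,
      ← Finset.sum_neg_distrib]
    congr 1
    · refine Finset.sum_congr rfl fun i _ => ?_
      rw [List.eraseIdx_cons_succ, pow_succ, mul_neg_one, neg_smul]
    · simp

lemma vec_eraseIdx (m : ℕ) (l : List G) (i : Fin (m + 1)) :
    vec m (l.eraseIdx i) = vec (m + 1) l ∘ i.succAbove := by
  funext j
  rw [Function.comp_apply, vec, vec]
  simp only [List.getD_eq_getElem?_getD]
  rw [List.getElem?_eraseIdx]
  congr 1
  rcases lt_or_ge (j : ℕ) (i : ℕ) with h | h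
  · rw [if_pos h, Fin.succAbove_of_castSucc_lt _ _ h]
    rfl
  · rw [if_neg (not_lt.2 h), Fin.succAbove_of_le_castSucc _ _ h]
    rfl

lemma D_lc {g : G} {n : ℕ} {c : (Fin (n + 1) → G) → A} (hc : IsClassCocycle g c)
    (l : List G) : D l (lc c) = 0 := by
  rw [D_eq_sum]
  by_cases hl : l.length = n + 2
  · rw [hl, Finset.sum_range, ← hc.closed (vec (n + 2) l)]
    refine Finset.sum_congr rfl fun i _ => ?_
    rw [lc, if_pos, vec_eraseIdx]
    rw [List.length_eraseIdx_of_lt (by rw [hl]; exact i.isLt), hl]
    rfl
  · refine Finset.sum_eq_zero fun i hi => ?_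
    rw [mem_range] at hi
    rw [lc, if_neg, smul_zero]
    rw [List.length_eraseIdx_of_lt hi]
    omega

/-- the cochain on lists as an element of `V` -/
def lV {g : G} {n : ℕ} {c : (Fin (n + 1) → G) → A} (hc : IsClassCocycle g c) : V g A :=
  ⟨lc c, lc_mem hc⟩

lemma ev_lV {g : G} {n : ℕ} {c : (Fin (n + 1) → G) → A} (hc : IsClassCocycle g c) :
    ev (lV hc) = lc c := rfl

lemma th_lV {g : G} {n : ℕ} {c : (Fin (n + 1) → G) → A} (hc : IsClassCocycle g c) (z : G)
    (hz : z * g = g * z) : th z hz (lV hc) = lV hc := by
  refine V_ext fun l => ?_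
  rw [ev_th, ev_lV, lc, lc, List.length_map]
  by_cases hl : l.length = n + 1
  · rw [if_pos hl, if_pos hl]
    conv_rhs => rw [← hc.left z hz]
    congr 1
    funext j
    rw [vec, vec]
    simp only [List.getD_eq_getElem?_getD]
    rw [List.getElem?_map, List.getElem?_eq_getElem (by rw [hl]; exact j.isLt)]
    simp
  · rw [if_neg hl, if_neg hl]

lemma Cen_lV {g : G} {n : ℕ} {c : (Fin (n + 1) → G) → A} (hc : IsClassCocycle g c)
    (hcen : ∀ v a, a * c v = c v * a) : lV hc ∈ Cen g A := by
  intro l a
  rw [ev_lV, lc]
  split_ifs
  · exact hcen _ _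
  · rw [mul_zero, zero_mul]

/-- the vertices of a path -/
def verts : G → List G → List G
  | _, [] => []
  | h, s :: l => (h * s) :: verts (h * s) l

lemma ev_Xw {g : G} (h : G) (l : List G) (φ : V g A) (l' : List G) :
    ev (Xw A g h l φ) l' = ev φ ((verts h l).reverse ++ l') := by
  induction l generalizing h l' with
  | nil => rfl
  | cons s l ih =>
    show ev (Xw A g (h * s) l φ) ((h * s) :: l') = _
    rw [ih, verts, List.reverse_cons, List.append_assoc]
    rfl

lemma verts_length (h : G) (l : List G) : (verts h l).length = l.length := by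
  induction l generalizing h with
  | nil => rfl
  | cons s l ih => rw [verts, List.length_cons, List.length_cons, ih]

lemma verts_get (h : G) (l : List G) (i : ℕ) (hi : i < l.length) :
    (verts h l).getD i 1 = h * (l.take (i + 1)).prod := by
  induction l generalizing h i with
  | nil => simp at hi
  | cons s l ih =>
    rw [verts, List.take_succ_cons, List.prod_cons, ← mul_assoc]
    cases i with
    | zero => simp
    | succ i =>
      rw [List.getD_cons_succ, ih]
      simpa using hi

/-- the value of the cochain on a closed path -/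
lemma ev_closed {g : G} {n : ℕ} {c : (Fin (n + 1) → G) → A} (hc : IsClassCocycle g c)
    (h : G) (l : List G) (hl : l.length = n + 1) (hcl : h * l.prod = g * h) :
    ev (Xw A g h l (lV hc)) [] =
      ((Equiv.Perm.sign (Equiv.neg (Fin (n + 1))) : ℤˣ) : ℤ) •
        c (fun i => h * (l.take i).prod) := by
  rw [ev_Xw, List.append_nil, ev_lV, lc, if_pos (by rw [List.length_reverse, verts_length, hl]),
    ← hc.perm]
  have h1 : vec (n + 1) (verts h l).reverse =
      Function.update ((fun i : Fin (n + 1) => h * (l.take i).prod) ∘ (Equiv.neg (Fin (n + 1)))) 0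
        (g * ((fun i : Fin (n + 1) => h * (l.take i).prod) ∘ (Equiv.neg (Fin (n + 1)))) 0) := by
    funext j
    have hlen : (verts h l).length = n + 1 := by rw [verts_length, hl]
    have h2 : vec (n + 1) (verts h l).reverse j = h * (l.take (n + 1 - j)).prod := by
      rw [vec]
      simp only [List.getD_eq_getElem?_getD]
      rw [List.getElem?_reverse (by rw [hlen]; exact j.isLt), hlen,
        ← List.getD_eq_getElem?_getD, verts_get _ _ _ (by rw [hl]; omega)]
      congr 3
      have := j.isLt
      omega
    rw [h2]
    by_cases e : j = 0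
    · rw [e, Function.update_self, Function.comp_apply, Equiv.neg_apply, neg_zero]
      simp only [Fin.val_zero, Nat.sub_zero, List.take_zero, List.prod_nil, mul_one]
      rw [← hl, List.take_length, hcl]
    · rw [Function.update_of_ne e, Function.comp_apply, Equiv.neg_apply]
      have h3 : ((-j : Fin (n + 1)) : ℕ) = n + 1 - j := by
        rw [Fin.val_neg]
        rw [if_neg e]
      rw [h3]
  rw [h1, hc.single]

end tuples

end Pool.Agent.W647.HV1
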