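import Pool.Agent.W647.HV7

/-!
# Idempotent matrices over group rings
-/

set_option autoImplicit false
set_option linter.unusedSectionVars false

namespace Pool.Agent.W647.HV1

open Finset

section matrix

variable {G : Type*} [Group G] {R : Type*} [Ring R] {d : Type*} [Fintype d] [DecidableEq d]

/-- the matrix of the coefficients at `s` -/
def cm (e : Matrix d d (MonoidAlgebra R G)) (s : G) : Matrix d d R := e.map fun y => y.coeff s

/-- from the group ring of matrices to matrices over the group ring -/
noncomputable def rho : MonoidAlgebra (Matrix d d R) G →+ Matrix d d (MonoidAlgebra R G) where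
  toFun X := Matrix.of fun i j => ∑ s ∈ X.coeff.support, MonoidAlgebra.single s ((X.coeff s) i j)
  map_zero' := by
    ext i j
    simp
  map_add' := by
    classical
    intro X Y
    refine Matrix.ext fun i j => ?_
    have h1 : ∀ (X : MonoidAlgebra (Matrix d d R) G) (W : Finset G), X.coeff.support ⊆ W →
        ∑ s ∈ X.coeff.support, MonoidAlgebra.single s ((X.coeff s) i j) =
        ∑ s ∈ W, MonoidAlgebra.single s ((X.coeff s) i j) := by
      intro X W hW
      refine Finset.sum_subset hW fun s _ hs => ?_
      rw [Finsupp.notMem_support_iff.1 hs]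
      simp
    show ∑ s ∈ (X + Y).coeff.support, MonoidAlgebra.single s (((X + Y).coeff s) i j) =
      ∑ s ∈ X.coeff.support, MonoidAlgebra.single s ((X.coeff s) i j) +
      ∑ s ∈ Y.coeff.support, MonoidAlgebra.single s ((Y.coeff s) i j)
    rw [h1 X (X.coeff.support ∪ Y.coeff.support) subset_union_left,
      h1 Y (X.coeff.support ∪ Y.coeff.support) subset_union_right,
      h1 (X + Y) (X.coeff.support ∪ Y.coeff.support) (by
        rw [MonoidAlgebra.coeff_add]; exact Finsupp.support_add), ← Finset.sum_add_distrib]
    refine Finset.sum_congr rfl fun s _ => ?_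
    rw [MonoidAlgebra.coeff_add, Finsupp.add_apply, Matrix.add_apply, MonoidAlgebra.single_add]

lemma rho_single (s : G) (a : Matrix d d R) (i j : d) :
    rho (MonoidAlgebra.single s a) i j = MonoidAlgebra.single s (a i j) := by
  classical
  show ∑ s' ∈ (MonoidAlgebra.single s a).coeff.support,
    MonoidAlgebra.single s' (((MonoidAlgebra.single s a).coeff s') i j) = _
  rw [MonoidAlgebra.coeff_single]
  by_cases ha : a = 0
  · rw [ha]
    simp
  · rw [Finsupp.support_single _ ha, Finset.sum_singleton, Finsupp.single_eq_same]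

lemma rho_coeff (X : MonoidAlgebra (Matrix d d R) G) (i j : d) (s : G) :
    (rho X i j).coeff s = (X.coeff s) i j := by
  classical
  show (∑ s' ∈ X.coeff.support, MonoidAlgebra.single s' ((X.coeff s') i j)).coeff s = _
  rw [MonoidAlgebra.coeff_sum, Finset.sum_apply']
  by_cases hs : s ∈ X.coeff.support
  · rw [Finset.sum_eq_single s]
    · simp
    · intro b _ hb
      simp [hb]
    · intro h; exact absurd hs h
  · rw [Finset.sum_eq_zero]
    · rw [Finsupp.notMem_support_iff.1 hs]; rfl
    · intro b hb
      have : b ≠ s := fun e => hs (e ▸ hb)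
      simp [this]

lemma rho_inj : Function.Injective (rho : MonoidAlgebra (Matrix d d R) G →+ _) := by
  intro X Y h
  apply MonoidAlgebra.coeff_injective
  ext s i j
  rw [← rho_coeff, ← rho_coeff, h]

lemma rho_mul (X Y : MonoidAlgebra (Matrix d d R) G) : rho (X * Y) = rho X * rho Y := by
  classical
  induction X using MonoidAlgebra.induction_linear with
  | zero => simp
  | add X X' h h' => rw [add_mul, map_add, map_add, add_mul, h, h']
  | single s a =>
    induction Y using MonoidAlgebra.induction_linear with
    | zero => simp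
    | add Y Y' h h' => rw [mul_add, map_add, map_add, mul_add, h, h']
    | single t b =>
      refine Matrix.ext fun i j => ?_
      rw [MonoidAlgebra.single_mul_single, rho_single, Matrix.mul_apply, Matrix.mul_apply]
      simp only [rho_single, MonoidAlgebra.single_mul_single]
      induction (univ : Finset d) using Finset.induction_on with
      | empty => simp
      | insert x W hx ih =>
        rw [Finset.sum_insert hx, Finset.sum_insert hx, MonoidAlgebra.single_add, ih]

lemma rho_el (e : Matrix d d (MonoidAlgebra R G)) (S : Finset G)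
    (hS : ∀ i j, (e i j).coeff.support ⊆ S) :
    rho (el (fun s : S => (s : G)) (fun s : S => cm e (s : G))) = e := by
  classical
  rw [el, map_sum]
  refine Matrix.ext fun i j => ?_
  rw [Matrix.sum_apply]
  simp only [rho_single]
  rw [Finset.sum_coe_sort S (fun s => MonoidAlgebra.single s (cm e s i j))]
  apply MonoidAlgebra.coeff_injective
  ext s
  rw [MonoidAlgebra.coeff_sum, Finset.sum_apply']
  by_cases hs : s ∈ S
  · rw [Finset.sum_eq_single s]
    · simp [cm]
    · intro b _ hb
      simp [hb]
    · intro h; exact absurd hs h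
  · rw [Finset.sum_eq_zero]
    · exact (Finsupp.notMem_support_iff.1 fun h => hs (hS i j h)).symm
    · intro b hb
      have : b ≠ s := fun e => hs (e ▸ hb)
      simp [this]

lemma el_idem (e : Matrix d d (MonoidAlgebra R G)) (he : e * e = e) (S : Finset G)
    (hS : ∀ i j, (e i j).coeff.support ⊆ S) :
    el (fun s : S => (s : G)) (fun s : S => cm e (s : G)) *
      el (fun s : S => (s : G)) (fun s : S => cm e (s : G)) =
      el (fun s : S => (s : G)) (fun s : S => cm e (s : G)) := by
  apply rho_inj
  rw [rho_mul, rho_el e S hS, he]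

variable {M : Type*} [AddCommGroup M]

open Classical in
/-- the value of the `n`-cochain `c` at the class of `g` on the matrix `e` -/
noncomputable def chernSum (T : R →+ M) (g : G) (t : G → G) {n : ℕ} (c : (Fin (n + 1) → G) → R)
    (e : Matrix d d (MonoidAlgebra R G)) : M :=
  ∑ᶠ w : Fin (n + 1) → G, if IsConj (List.ofFn w).prod g then
    T ((List.ofFn fun i => cm e (w i)).prod.trace *
      c (fun i => t (List.ofFn w).prod * ((List.ofFn w).take i).prod)) else 0

/-- the trace on matrices -/
def mT (d : Type*) [Fintype d] (T : R →+ M) : Matrix d d R →+ M where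
  toFun X := T X.trace
  map_zero' := by simp
  map_add' X Y := by rw [Matrix.trace_add, map_add]

lemma mT_comm (T : R →+ M) (hT : ∀ a b, T (a * b) = T (b * a)) (X Y : Matrix d d R) :
    mT d T (X * Y) = mT d T (Y * X) := by
  show T (X * Y).trace = T (Y * X).trace
  rw [Matrix.trace, Matrix.trace, map_sum, map_sum]
  simp only [Matrix.diag_apply, Matrix.mul_apply, map_sum]
  rw [Finset.sum_comm]
  exact Finset.sum_congr rfl fun i _ => Finset.sum_congr rfl fun j _ => hT _ _

lemma mT_diag (T : R →+ M) (X : Matrix d d R) (r : R) :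
    mT d T (X * Matrix.diagonal fun _ => r) = T (X.trace * r) := by
  show T _ = _
  congr 1
  rw [Matrix.trace, Matrix.trace, Finset.sum_mul]
  exact Finset.sum_congr rfl fun i _ => by rw [Matrix.diag_apply, Matrix.diag_apply,
    Matrix.mul_diagonal]

/-- the cochain with values in matrices -/
def cmat (d : Type*) [DecidableEq d] {n : ℕ} (c : (Fin (n + 1) → G) → R) :
    (Fin (n + 1) → G) → Matrix d d R := fun v => Matrix.diagonal fun _ => c v

lemma cmat_class {g : G} {n : ℕ} {c : (Fin (n + 1) → G) → R} (hc : IsClassCocycle g c) :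
    IsClassCocycle g (cmat d c) where
  perm v σ := by
    rw [cmat, cmat, hc.perm]
    ext i j
    by_cases h : i = j
    · subst h; simp
    · simp [Matrix.diagonal_apply_ne _ h]
  rep v i j hij h := by
    rw [cmat, hc.rep v i j hij h]
    simp
  left z hz v := by
    rw [cmat, hc.left z hz]
    rfl
  single v i := by
    rw [cmat, hc.single]
    rfl
  closed v := by
    ext i j
    rw [Matrix.sum_apply]
    by_cases h : i = j
    · subst h
      have h1 := hc.closed v
      simpa [cmat] using h1
    · simp [cmat, Matrix.diagonal_apply_ne _ h]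

lemma cmat_cen {n : ℕ} {c : (Fin (n + 1) → G) → R} (hcen : ∀ v a, a * c v = c v * a)
    (v : Fin (n + 1) → G) (X : Matrix d d R) : X * cmat d c v = cmat d c v * X := by
  ext i j
  rw [cmat, Matrix.mul_diagonal, Matrix.diagonal_mul, hcen]

lemma chernSum_eq (T : R →+ M) {g : G} {t : G → G}
    (ht : ∀ y, IsConj y g → t y * y * (t y)⁻¹ = g) {n : ℕ}
    {c : (Fin (n + 1) → G) → R} (hc : IsClassCocycle g c)
    (e : Matrix d d (MonoidAlgebra R G)) (S : Finset G)
    (hS : ∀ i j, (e i j).coeff.support ⊆ S) :
    ∑ w : Fin (n + 1) → S, PhiU (fun s : S => (s : G)) (fun s : S => cm e (s : G)) (mT d T)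
      (lV (cmat_class (d := d) hc)) t (List.ofFn w) =
    ((Equiv.Perm.sign (Equiv.neg (Fin (n + 1))) : ℤˣ) : ℤ) • chernSum T g t c e := by
  classical
  have hcm : ∀ s, s ∉ S → cm e s = 0 := by
    intro s hs
    ext i j
    exact Finsupp.notMem_support_iff.1 fun h => hs (hS i j h)
  have h1 : chernSum T g t c e = ∑ w ∈ Fintype.piFinset fun _ : Fin (n + 1) => S,
      if IsConj (List.ofFn w).prod g then
        T ((List.ofFn fun i => cm e (w i)).prod.trace *
          c (fun i => t (List.ofFn w).prod * ((List.ofFn w).take i).prod)) else 0 := by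
    rw [chernSum]
    apply finsum_eq_sum_of_support_subset
    intro w hw
    rw [Function.mem_support] at hw
    rw [Finset.mem_coe, Fintype.mem_piFinset]
    by_contra hcon
    push Not at hcon
    obtain ⟨i, hi⟩ := hcon
    apply hw
    have h2 : (List.ofFn fun i => cm e (w i)).prod = 0 := by
      apply List.prod_eq_zero
      rw [List.mem_ofFn]
      exact ⟨i, hcm _ hi⟩
    rw [h2]
    simp
  rw [h1, Finset.smul_sum]
  refine Finset.sum_bij (fun w _ => fun i => ((w i : S) : G)) ?_ ?_ ?_ ?_
  · intro w _
    rw [Fintype.mem_piFinset]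
    exact fun i => (w i).2
  · intro w _ w' _ h
    funext i
    exact Subtype.ext (congrFun h i)
  · intro w hw
    rw [Fintype.mem_piFinset] at hw
    exact ⟨fun i => ⟨w i, hw i⟩, mem_univ _, rfl⟩
  · intro w _
    have h2 : (List.ofFn w).map (fun s : S => (s : G)) = List.ofFn fun i => ((w i : S) : G) := by
      rw [List.map_ofFn]; rfl
    have h3 : co (fun s : S => cm e (s : G)) (List.ofFn w) =
        (List.ofFn fun i => cm e ((w i : S) : G)).prod := by
      rw [co, List.map_ofFn]; rfl
    rw [PhiU, h2, h3]
    split_ifs with h4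
    · have h5 := ht _ h4
      rw [ev_closed (cmat_class (d := d) hc) _ _ (by rw [List.length_ofFn]) 
        (mul_inv_eq_iff_eq_mul.1 h5)]
      rw [mul_smul_comm, map_zsmul]
      congr 1
      exact mT_diag T _ _
    · rw [smul_zero]

/-- **Divisibility of the higher Chern character.** -/
theorem chernSum_dvd (T : R →+ M) (hT : ∀ a b, T (a * b) = T (b * a)) {g : G}
    (hg : IsOfFinOrder g) {t : G → G} (ht : ∀ y, IsConj y g → t y * y * (t y)⁻¹ = g) {k : ℕ}
    (hk : k ≠ 0) {c : (Fin (2 * k + 1) → G) → R} (hc : IsClassCocycle g c)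
    (hcen : ∀ v a, a * c v = c v * a)
    (e : Matrix d d (MonoidAlgebra R G)) (he : e * e = e) (N : ℕ) (hN : N ≠ 0) :
    ∃ y : M, (2 * k).descFactorial k • chernSum T g t c e = N • y := by
  classical
  obtain ⟨k, rfl⟩ := Nat.exists_eq_succ_of_ne_zero hk
  obtain ⟨S, hS⟩ : ∃ S : Finset G, ∀ i j, (e i j).coeff.support ⊆ S :=
    ⟨univ.biUnion fun i => univ.biUnion fun j => (e i j).coeff.support, fun i j =>
      (Finset.subset_biUnion_of_mem (fun j => (e i j).coeff.support) (mem_univ j)).trans
        (Finset.subset_biUnion_of_mem (fun i => univ.biUnion fun j => (e i j).coeff.support)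
          (mem_univ i))⟩
  obtain ⟨y, hy⟩ := chern_dvd (T := mT d T) (c := lV (cmat_class (d := d) hc)) (t := t)
    (fun s : S => (s : G)) (fun s : S => cm e (s : G)) (el_idem e he S hS) (mT_comm T hT)
    (Cen_lV _ (cmat_cen hcen)) (D_lc (cmat_class (d := d) hc)) (th_lV _) hg ht k N hN
  have h1 := chernSum_eq (d := d) T ht hc e S hS
  have h2 : (2 * (k + 1)).descFactorial (k + 1) •
      (((Equiv.Perm.sign (Equiv.neg (Fin (2 * (k + 1) + 1))) : ℤˣ) : ℤ) • chernSum T g t c e) =
        N • y := by
    rw [← hy]
    exact congrArg _ h1.symm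
  rcases Int.units_eq_one_or (Equiv.Perm.sign (Equiv.neg (Fin (2 * (k + 1) + 1)))) with h3 | h3
  · rw [h3, Units.val_one, one_smul] at h2
    exact ⟨y, h2⟩
  · rw [h3, Units.val_neg, Units.val_one, neg_smul, one_smul, smul_neg] at h2
    exact ⟨-y, by rw [smul_neg, ← h2, neg_neg]⟩

end matrix

end Pool.Agent.W647.HV1
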