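import Pool.Agent.W647.HV6

/-!
# Involutions: words in pairs of letters
-/

set_option autoImplicit false
set_option linter.unusedSectionVars false

namespace Pool.Agent.W647.HW1

open Finset Pool.Agent.W647.HV1

section blocks

variable {G : Type*} [Group G] {g : G} {A : Type*} [Ring A] {S : Type*} [Fintype S]
  (dg : S → G) (a : S → A)

/-- the word of a list of pairs -/
def pl {S : Type*} : List (S × S) → List S
  | [] => []
  | s :: l => s.1 :: s.2 :: pl l

lemma pl_nil {S : Type*} : pl ([] : List (S × S)) = [] := rfl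

lemma pl_cons {S : Type*} (s : S × S) (l : List (S × S)) : pl (s :: l) = s.1 :: s.2 :: pl l := rfl

lemma pl_append {S : Type*} (l l' : List (S × S)) : pl (l ++ l') = pl l ++ pl l' := by
  induction l with
  | nil => rfl
  | cons s l ih => rw [List.cons_append, pl_cons, pl_cons, ih]; rfl

lemma pl_length {S : Type*} (l : List (S × S)) : (pl l).length = 2 * l.length := by
  induction l with
  | nil => rfl
  | cons s l ih => rw [pl_cons, List.length_cons, List.length_cons, List.length_cons, ih]; ring

/-- the operator of a pair of steps -/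
def st (A : Type*) [Ring A] (g h p q : G) : AddMonoid.End (V g A) :=
  x h * x (h * p) + x (h * p) * x (h * p * q)

lemma st_sq (h p q : G) : st A g h p q * st A g h p q = 0 := by
  have h1 := P_sq (A := A) (g := g) h (h * p)
  have h2 := P_sq (A := A) (g := g) (h * p) (h * p * q)
  have h3 : (x h * x (h * p)) * (x (h * p) * x (h * p * q)) = (0 : AddMonoid.End (V g A)) := by
    rw [mul_assoc, ← mul_assoc (x (h * p)) (x (h * p)), x_sq, zero_mul, mul_zero]
  have h4 : (x (h * p) * x (h * p * q)) * (x h * x (h * p)) = (0 : AddMonoid.End (V g A)) := by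
    have h5 : Commute ((x (h * p) : AddMonoid.End (V g A)) * x (h * p * q)) (x h * x (h * p)) :=
      (P_comm _ _ _).mul_right (P_comm _ _ _)
    rw [h5.eq, h3]
  rw [st, add_mul, mul_add, mul_add, h1, h2, h3, h4]
  simp

lemma st_comm (h p q c : G) : Commute (st A g h p q) (x c) := (P_comm _ _ _).add_left (P_comm _ _ _)

lemma Lop_two (h p q : G) (l : List G) :
    Lop A g h (p :: q :: l) = st A g h p q + Lop A g (h * p * q) l := by
  rw [Lop_cons, Lop_cons, st, add_assoc]

lemma Lop_two_pow (h p q : G) (l : List G) (k : ℕ) :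
    Lop A g h (p :: q :: l) ^ (k + 1) = Lop A g (h * p * q) l ^ (k + 1) +
      (k + 1) • (st A g h p q * Lop A g (h * p * q) l ^ k) := by
  rw [Lop_two]
  refine add_pow_sq_zero _ _ ?_ (st_sq _ _ _) k
  exact (((Lop_comm_x _ _ _).mul_right (Lop_comm_x _ _ _)).add_right
    ((Lop_comm_x _ _ _).mul_right (Lop_comm_x _ _ _))).symm

/-- the operator `E X E X + X E X E` -/
noncomputable def Zop (g : G) : AddMonoid.End (G → V g A) :=
  Eop g A (el dg a) * (Xop g A * (Eop g A (el dg a) * Xop g A)) +
    Xop g A * (Eop g A (el dg a) * (Xop g A * Eop g A (el dg a)))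

lemma st_smul (h p q : G) (r : A) (φ : V g A) : st A g h p q (r • φ) = r • st A g h p q φ := by
  show x h (x (h * p) (r • φ)) + x (h * p) (x (h * p * q) (r • φ)) =
    r • (x h (x (h * p) φ) + x (h * p) (x (h * p * q) φ))
  rw [x_smul, x_smul, x_smul, x_smul, smul_add]

lemma EE (F : G → V g A) (h : G) (he : el dg a * el dg a = 1) :
    ∑ s : S × S, (a s.1 * a s.2) • F (h * dg s.1 * dg s.2) = F h := by
  have h1 : (Eop g A (el dg a)) ((Eop g A (el dg a)) F) h = F h := by
    have h2 : Eop g A (el dg a) * Eop g A (el dg a) = 1 := by rw [← map_mul, he, map_one]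
    exact congrFun (DFunLike.congr_fun h2 F) h
  rw [← h1, Eop_el, Fintype.sum_prod_type]
  refine Finset.sum_congr rfl fun s _ => ?_
  rw [Eop_el, Finset.smul_sum]
  exact Finset.sum_congr rfl fun s' _ => by rw [mul_smul]

lemma ZZ (F : G → V g A) (h : G) :
    ∑ s : S × S, (a s.1 * a s.2) • st A g h (dg s.1) (dg s.2) (F (h * dg s.1 * dg s.2)) =
      (Zop dg a g) F h := by
  have h1 : (Zop dg a g) F h =
      (Eop g A (el dg a)) (Xop g A ((Eop g A (el dg a)) (Xop g A F))) h +
      (Xop g A ((Eop g A (el dg a)) (Xop g A ((Eop g A (el dg a)) F)))) h := rfl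
  rw [h1, Eop_el, Xop_apply, Eop_el, map_sum, ← Finset.sum_add_distrib, Fintype.sum_prod_type]
  refine Finset.sum_congr rfl fun s _ => ?_
  rw [Xop_apply, Xop_apply, Eop_el, Eop_el, map_sum, map_sum, Finset.smul_sum, Finset.smul_sum,
    map_sum, ← Finset.sum_add_distrib]
  refine Finset.sum_congr rfl fun s' _ => ?_
  rw [Xop_apply, mul_smul, x_smul, x_smul, x_smul, x_smul]
  have h2 : st A g h (dg s) (dg s') (F (h * dg s * dg s')) =
      x h (x (h * dg s) (F (h * dg s * dg s'))) +
      x (h * dg s) (x (h * dg s * dg s') (F (h * dg s * dg s'))) := rfl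
  rw [h2, smul_add, smul_add, add_comm]

/-- **Words in pairs of letters** -/
lemma BW (he : el dg a * el dg a = 1) (f : G → V g A) (N k : ℕ) (h : G) :
    ∑ w : Fin N → S × S, co a (pl (List.ofFn w)) •
      (Lop A g h ((pl (List.ofFn w)).map dg) ^ k) (f (h * ((pl (List.ofFn w)).map dg).prod)) =
        N.descFactorial k • ((Zop dg a g ^ k : AddMonoid.End (G → V g A)) f) h := by
  induction N generalizing h k with
  | zero =>
    cases k with
    | zero => simp [pl, co]
    | succ k => simp [pl, co, Lop_nil]
  | succ N ih =>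
    rw [sum_words_succ (S := S × S) (F := fun l => co a (pl l) • (Lop A g h ((pl l).map dg) ^ k)
      (f (h * ((pl l).map dg).prod)))]
    have hco : ∀ (s : S × S) (l : List (S × S)), co a (pl (s :: l)) =
        (a s.1 * a s.2) * co a (pl l) := by
      intro s l
      rw [pl_cons, co_cons, co_cons, mul_assoc]
    have hpr : ∀ (s : S × S) (l : List (S × S)), h * ((pl (s :: l)).map dg).prod =
        h * dg s.1 * dg s.2 * ((pl l).map dg).prod := by
      intro s l
      rw [pl_cons, List.map_cons, List.map_cons, List.prod_cons, List.prod_cons]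
      group
    cases k with
    | zero =>
      rw [Nat.descFactorial_zero, one_smul, pow_zero]
      have h2 := EE dg a f h he
      refine Eq.trans ?_ h2
      refine Finset.sum_congr rfl fun s _ => ?_
      have h3 := ih 0 (h * dg s.1 * dg s.2)
      rw [Nat.descFactorial_zero, one_smul, pow_zero] at h3
      rw [show f (h * dg s.1 * dg s.2) = (1 : AddMonoid.End (G → V g A)) f (h * dg s.1 * dg s.2)
        from rfl, ← h3, Finset.smul_sum]
      refine Finset.sum_congr rfl fun w _ => ?_
      rw [hco, hpr, mul_smul, pow_zero, pow_zero]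
    | succ k =>
      have h1 : ∀ s : S × S, ∑ w : Fin N → S × S, co a (pl (s :: List.ofFn w)) •
          (Lop A g h ((pl (s :: List.ofFn w)).map dg) ^ (k + 1))
            (f (h * ((pl (s :: List.ofFn w)).map dg).prod)) =
          (a s.1 * a s.2) • (N.descFactorial (k + 1) •
            ((Zop dg a g ^ (k + 1) : AddMonoid.End (G → V g A)) f) (h * dg s.1 * dg s.2)) +
          (k + 1) • ((a s.1 * a s.2) • st A g h (dg s.1) (dg s.2) (N.descFactorial k •
            ((Zop dg a g ^ k : AddMonoid.End (G → V g A)) f) (h * dg s.1 * dg s.2))) := by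
        intro s
        rw [← ih, ← ih, Finset.smul_sum, map_sum, Finset.smul_sum, Finset.smul_sum,
          ← Finset.sum_add_distrib]
        refine Finset.sum_congr rfl fun w _ => ?_
        rw [hco, hpr, mul_smul, pl_cons, List.map_cons, List.map_cons, Lop_two_pow, st_smul]
        set z := f (h * dg s.1 * dg s.2 * ((pl (List.ofFn w)).map dg).prod) with hz
        have h2 : (Lop A g (h * dg s.1 * dg s.2) ((pl (List.ofFn w)).map dg) ^ (k + 1) +
            (k + 1) • (st A g h (dg s.1) (dg s.2) *
              Lop A g (h * dg s.1 * dg s.2) ((pl (List.ofFn w)).map dg) ^ k) :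
              AddMonoid.End (V g A)) z =
            (Lop A g (h * dg s.1 * dg s.2) ((pl (List.ofFn w)).map dg) ^ (k + 1)) z + (k + 1) •
            (st A g h (dg s.1) (dg s.2)
              ((Lop A g (h * dg s.1 * dg s.2) ((pl (List.ofFn w)).map dg) ^ k) z)) := rfl
        rw [h2, smul_add, smul_add, smul_comm (k + 1) (a s.1 * a s.2),
          smul_comm (k + 1) (co a (pl (List.ofFn w)))]
      rw [Finset.sum_congr rfl fun s _ => h1 s, Finset.sum_add_distrib]
      have h3 : ∑ s : S × S, (a s.1 * a s.2) • (N.descFactorial (k + 1) •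
            ((Zop dg a g ^ (k + 1) : AddMonoid.End (G → V g A)) f) (h * dg s.1 * dg s.2)) =
          N.descFactorial (k + 1) • ((Zop dg a g ^ (k + 1) : AddMonoid.End (G → V g A)) f) h := by
        rw [← EE dg a ((Zop dg a g ^ (k + 1) : AddMonoid.End (G → V g A)) f) h he, Finset.smul_sum]
        exact Finset.sum_congr rfl fun s _ => smul_comm _ _ _
      have h4 : ∑ s : S × S, (k + 1) • ((a s.1 * a s.2) • st A g h (dg s.1) (dg s.2)
          (N.descFactorial k •
            ((Zop dg a g ^ k : AddMonoid.End (G → V g A)) f) (h * dg s.1 * dg s.2))) =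
          ((k + 1) * N.descFactorial k) •
            ((Zop dg a g ^ (k + 1) : AddMonoid.End (G → V g A)) f) h := by
        have h5 : ((Zop dg a g ^ (k + 1) : AddMonoid.End (G → V g A)) f) h =
            (Zop dg a g) ((Zop dg a g ^ k : AddMonoid.End (G → V g A)) f) h := by
          rw [pow_succ']; rfl
        rw [h5, ← ZZ, Finset.smul_sum]
        refine Finset.sum_congr rfl fun s _ => ?_
        rw [map_nsmul, mul_smul (k + 1) (N.descFactorial k),
          smul_comm (a s.1 * a s.2) (N.descFactorial k)]
      rw [h3, h4, ← add_smul]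
      congr 1
      rw [Nat.succ_descFactorial_succ, Nat.descFactorial_succ]
      rcases le_or_gt k N with hk | hk
      · obtain ⟨t, rfl⟩ := Nat.exists_eq_add_of_le hk
        rw [Nat.add_sub_cancel_left]
        ring
      · rw [(Nat.descFactorial_eq_zero_iff_lt).2 hk]
        simp

end blocks

end Pool.Agent.W647.HW1
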