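import Pool.Agent.W647.HW1

/-!
# The first identity and the vanishing for a fixed column
-/

set_option autoImplicit false
set_option linter.unusedSectionVars false

namespace Pool.Agent.W647.HW1

open Finset Pool.Agent.W647.HV1

section first

variable {G : Type*} [Group G] {g : G} {A : Type*} [Ring A] {S : Type*} [Fintype S]
  (dg : S → G) (a : S → A)

/-- the degree of the first letter -/
def fd {S : Type*} (dg : S → G) : List (S × S) → G
  | [] => 1
  | s :: _ => dg s.1

lemma xx_Lop (h p q : G) (l : List G) (k : ℕ) :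
    (x h * x (h * p)) * Lop A g h (p :: q :: l) ^ k =
      (x h * x (h * p)) * Lop A g (h * p * q) l ^ k := by
  cases k with
  | zero => rw [pow_zero, pow_zero]
  | succ k =>
    rw [Lop_two_pow, mul_add, mul_smul_comm, ← mul_assoc (x h * x (h * p)) (st A g h p q)]
    have h1 : (x h * x (h * p)) * st A g h p q = (0 : AddMonoid.End (V g A)) := by
      have h3 : (x h * x (h * p)) * (x (h * p) * x (h * p * q)) =
          (0 : AddMonoid.End (V g A)) := by
        rw [mul_assoc, ← mul_assoc (x (h * p)) (x (h * p)), x_sq, zero_mul, mul_zero]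
      rw [st, mul_add, P_sq, h3, add_zero]
    rw [h1, zero_mul]
    simp

lemma xx_Lop_apply (h p q : G) (l : List G) (k : ℕ) (φ : V g A) :
    x h (x (h * p) ((Lop A g h (p :: q :: l) ^ k) φ)) =
      x h (x (h * p) ((Lop A g (h * p * q) l ^ k) φ)) :=
  DFunLike.congr_fun (xx_Lop h p q l k) φ

lemma co_pl_cons (s : S × S) (l : List (S × S)) : co a (pl (s :: l)) =
    (a s.1 * a s.2) * co a (pl l) := by
  rw [pl_cons, co_cons, co_cons, mul_assoc]

lemma prod_pl_cons (h : G) (s : S × S) (l : List (S × S)) : h * ((pl (s :: l)).map dg).prod =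
    h * dg s.1 * dg s.2 * ((pl l).map dg).prod := by
  rw [pl_cons, List.map_cons, List.map_cons, List.prod_cons, List.prod_cons]
  group

lemma BW_first (he : el dg a * el dg a = 1) (f : G → V g A) (N k : ℕ) (h : G) :
    ∑ w : Fin (N + 1) → S × S, co a (pl (List.ofFn w)) •
      x h (x (h * fd dg (List.ofFn w)) ((Lop A g h ((pl (List.ofFn w)).map dg) ^ k)
        (f (h * ((pl (List.ofFn w)).map dg).prod)))) =
        N.descFactorial k • ((Xop g A * (Eop g A (el dg a) * (Xop g A * (Eop g A (el dg a) *
          Zop dg a g ^ k))) : AddMonoid.End (G → V g A)) f) h := by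
  rw [sum_words_succ (S := S × S) (F := fun l => co a (pl l) • x h (x (h * fd dg l)
    ((Lop A g h ((pl l).map dg) ^ k) (f (h * ((pl l).map dg).prod)))))]
  have h0 : ((Xop g A * (Eop g A (el dg a) * (Xop g A * (Eop g A (el dg a) *
      Zop dg a g ^ k))) : AddMonoid.End (G → V g A)) f) h =
      (Xop g A ((Eop g A (el dg a)) (Xop g A ((Eop g A (el dg a))
        ((Zop dg a g ^ k : AddMonoid.End (G → V g A)) f))))) h := rfl
  rw [h0, Xop_apply, Eop_el, map_sum, Finset.smul_sum, Fintype.sum_prod_type]
  refine Finset.sum_congr rfl fun s _ => ?_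
  rw [Xop_apply, Eop_el, map_sum, Finset.smul_sum, map_sum, Finset.smul_sum]
  refine Finset.sum_congr rfl fun s' _ => ?_
  have h1 := BW dg a he f N k (h * dg s * dg s')
  rw [x_smul, x_smul, x_smul]
  have h2 : N.descFactorial k • (a s • a s' • x h (x (h * dg s)
      ((Zop dg a g ^ k : AddMonoid.End (G → V g A)) f (h * dg s * dg s')))) =
      a s • a s' • x h (x (h * dg s) (N.descFactorial k •
        ((Zop dg a g ^ k : AddMonoid.End (G → V g A)) f (h * dg s * dg s')))) := by
    rw [map_nsmul, map_nsmul, smul_comm (N.descFactorial k) (a s),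
      smul_comm (N.descFactorial k) (a s')]
  rw [h2, ← h1, map_sum, map_sum, Finset.smul_sum, Finset.smul_sum]
  refine Finset.sum_congr rfl fun w _ => ?_
  rw [co_pl_cons, prod_pl_cons, x_smul, x_smul, mul_smul, mul_smul, fd, pl_cons, List.map_cons,
    List.map_cons, xx_Lop_apply]

/-- the product of the insertions of the vertices of a path, without the last one -/
def Xv (A : Type*) [Ring A] (g : G) : G → List G → AddMonoid.End (V g A)
  | _, [] => 1
  | h, s :: l => x h * Xv A g (h * s) l

lemma XE_words (f : G → V g A) (n : ℕ) (h : G) :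
    ((Xop g A * Eop g A (el dg a)) ^ n : AddMonoid.End (G → V g A)) f h = ∑ w : Fin n → S,
      co a (List.ofFn w) • (Xv A g h ((List.ofFn w).map dg))
        (f (h * ((List.ofFn w).map dg).prod)) := by
  induction n generalizing h with
  | zero => simp [co, Xv]
  | succ n ih =>
    rw [sum_words_succ (F := fun l => co a l • (Xv A g h (l.map dg))
      (f (h * (l.map dg).prod))), pow_succ']
    show (Xop g A) (Eop g A (el dg a) (((Xop g A * Eop g A (el dg a)) ^ n :
      AddMonoid.End (G → V g A)) f)) h = _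
    rw [Xop_apply, Eop_el, map_sum]
    refine Finset.sum_congr rfl fun s _ => ?_
    rw [ih, x_smul, map_sum, Finset.smul_sum]
    refine Finset.sum_congr rfl fun w _ => ?_
    rw [co_cons, List.map_cons, List.prod_cons, mul_smul, ← mul_assoc, x_smul]
    rfl

lemma ring_id {R : Type*} [Ring R] (E X : R) (hE : E * E = 1) (hX : X * X = 0) (k : ℕ) :
    X * (E * (X * (E * (E * (X * (E * X)) + X * (E * (X * E))) ^ k))) = (X * E) ^ (2 * k + 2) := by
  have h1 : ∀ k : ℕ, (X * E) ^ 2 * (E * (X * (E * X)) + X * (E * (X * E))) ^ k =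
      (X * E) ^ (2 * k + 2) := by
    intro k
    induction k with
    | zero => simp
    | succ k ih =>
      rw [pow_succ (E * (X * (E * X)) + X * (E * (X * E))) k, ← mul_assoc, ih, mul_add]
      have h2 : (X * E) ^ (2 * k + 2) * (E * (X * (E * X))) = 0 := by
        rw [pow_succ (X * E) (2 * k + 1), mul_assoc, mul_assoc X E, ← mul_assoc E E, hE, one_mul,
          ← mul_assoc X X, hX, zero_mul, mul_zero]
      rw [h2, zero_add, show 2 * (k + 1) + 2 = (2 * k + 2) + 2 by ring, pow_add _ (2 * k + 2) 2,
        pow_two (X * E)]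
      simp only [mul_assoc]
  rw [← h1, pow_two]
  simp only [mul_assoc]

/-- **The first identity** -/
lemma ident_one (he : el dg a * el dg a = 1) (f : G → V g A) (N k : ℕ) (h : G) :
    ∑ w : Fin (N + 1) → S × S, co a (pl (List.ofFn w)) •
      x h (x (h * fd dg (List.ofFn w)) ((Lop A g h ((pl (List.ofFn w)).map dg) ^ k)
        (f (h * ((pl (List.ofFn w)).map dg).prod)))) =
        N.descFactorial k • ∑ w : Fin (2 * k + 2) → S, co a (List.ofFn w) •
          (Xv A g h ((List.ofFn w).map dg)) (f (h * ((List.ofFn w).map dg).prod)) := by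
  rw [BW_first dg a he, ← XE_words]
  have h1 := ring_id (Eop g A (el dg a)) (Xop g A) (by rw [← map_mul, he, map_one]) Xop_sq k
  rw [← h1]
  rfl

end first

section column

variable {G : Type*} [Group G] {g : G} {A : Type*} [Ring A] {S : Type*} [Fintype S]
  (dg : S → G) (a : S → A)

/-- multiplication by an element of the ring -/
def sm (g : G) (r : A) : AddMonoid.End (V g A) := Module.toAddMonoidEnd A (V g A) r

lemma sm_apply (r : A) (φ : V g A) : sm g r φ = r • φ := rfl

lemma sm_mul (r s : A) : sm g (r * s) = sm g r * sm g s := map_mul _ _ _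

lemma x_sm (b : G) (r : A) : (x b : AddMonoid.End (V g A)) * sm g r = sm g r * x b := by
  refine AddMonoidHom.ext fun φ => ?_
  rfl

/-- the product of a pair of letters -/
def pr (s : S × S) : G := dg s.1 * dg s.2

open Classical in
lemma sum_pair (he : el dg a * el dg a = 1) (γ : G) :
    ∑ s : S × S, (if pr dg s = γ then a s.1 * a s.2 else 0) = if γ = 1 then 1 else 0 := by
  have h1 : (el dg a * el dg a).coeff γ = (1 : MonoidAlgebra A G).coeff γ := by rw [he]
  rw [el, Finset.sum_mul_sum] at h1
  simp only [MonoidAlgebra.single_mul_single] at h1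
  rw [MonoidAlgebra.coeff_sum, Finset.sum_apply'] at h1
  rw [Fintype.sum_prod_type]
  have h2 : (1 : MonoidAlgebra A G).coeff γ = if γ = 1 then 1 else 0 := by
    rw [MonoidAlgebra.one_def, MonoidAlgebra.coeff_single, Finsupp.single_apply]
    simp only [eq_comm]
  rw [← h2, ← h1]
  refine Finset.sum_congr rfl fun s _ => ?_
  rw [MonoidAlgebra.coeff_sum, Finset.sum_apply']
  refine Finset.sum_congr rfl fun s' _ => ?_
  rw [MonoidAlgebra.coeff_single, Finsupp.single_apply]
  rfl

open Classical in
/-- the sum over the odd vertices -/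
noncomputable def Sk (g : G) (k : ℕ) (h : G) (κ : List G) : AddMonoid.End (V g A) :=
  ∑ w : Fin κ.length → S × S, if (List.ofFn w).map (pr dg) = κ then
    sm g (co a (pl (List.ofFn w))) * Lop A g h ((pl (List.ofFn w)).map dg) ^ k else 0

open Classical in
/-- the odd vertex with its coefficients -/
noncomputable def Bo (g : G) (h γ : G) : AddMonoid.End (V g A) :=
  ∑ s : S × S, if pr dg s = γ then sm g (a s.1 * a s.2) * x (h * dg s.1) else 0

lemma x_Bo (b h γ : G) : (x b : AddMonoid.End (V g A)) * Bo dg a g h γ = -(Bo dg a g h γ * x b) := by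
  rw [Bo, Finset.mul_sum, Finset.sum_mul, ← Finset.sum_neg_distrib]
  refine Finset.sum_congr rfl fun s _ => ?_
  split_ifs
  · rw [← mul_assoc, x_sm, mul_assoc, x_anti, mul_neg, mul_assoc]
  · simp

lemma st_eq (h : G) (s : S × S) : st A g h (dg s.1) (dg s.2) =
    (x h - x (h * pr dg s)) * x (h * dg s.1) := by
  rw [st, sub_mul, x_anti (h * dg s.1), pr, mul_assoc h, sub_eq_add_neg]

open Classical in
lemma Sk_cons_zero (he : el dg a * el dg a = 1) (h γ : G) (κ : List G) :
    Sk dg a g 0 h (γ :: κ) = if γ = 1 then Sk dg a g 0 (h * γ) κ else 0 := by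
  have h1 : Sk dg a g 0 h (γ :: κ) = ∑ s : S × S, (if pr dg s = γ then
      sm g (a s.1 * a s.2) * Sk dg a g 0 (h * γ) κ else 0) := by
    rw [Sk]
    have := sum_words_succ (S := S × S) κ.length (F := fun l => if l.map (pr dg) = γ :: κ then
      sm g (co a (pl l)) * Lop A g h ((pl l).map dg) ^ 0 else 0)
    rw [show (γ :: κ).length = κ.length + 1 from rfl, this]
    refine Finset.sum_congr rfl fun s _ => ?_
    rw [Sk, Finset.mul_sum]
    split_ifs with hs
    · refine Finset.sum_congr rfl fun w _ => ?_
      simp only [List.map_cons, List.cons.injEq, hs, true_and, mul_ite, mul_zero]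
      congr 1
      rw [co_pl_cons, sm_mul, pow_zero, pow_zero, mul_one, mul_one]
    · refine Finset.sum_eq_zero fun w _ => ?_
      rw [if_neg]
      intro h2
      rw [List.map_cons, List.cons.injEq] at h2
      exact hs h2.1
  rw [h1]
  have h2 := congrArg (sm g) (sum_pair dg a he γ)
  rw [show sm g (∑ s : S × S, (if pr dg s = γ then a s.1 * a s.2 else 0)) =
    ∑ s : S × S, sm g (if pr dg s = γ then a s.1 * a s.2 else 0) from map_sum _ _ _] at h2
  have h3 : ∑ s : S × S, (if pr dg s = γ then
      sm g (a s.1 * a s.2) * Sk dg a g 0 (h * γ) κ else 0) =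
      (∑ s : S × S, sm g (if pr dg s = γ then a s.1 * a s.2 else 0)) *
        Sk dg a g 0 (h * γ) κ := by
    rw [Finset.sum_mul]
    refine Finset.sum_congr rfl fun s _ => ?_
    split_ifs
    · rfl
    · rw [show sm g (0 : A) = 0 from map_zero _, zero_mul]
  rw [h3, h2]
  split_ifs
  · rw [show sm g (1 : A) = 1 from map_one _, one_mul]
  · rw [show sm g (0 : A) = 0 from map_zero _, zero_mul]

open Classical in
lemma Sk_cons_succ (he : el dg a * el dg a = 1) (k : ℕ) (h γ : G) (κ : List G) :
    Sk dg a g (k + 1) h (γ :: κ) = (if γ = 1 then Sk dg a g (k + 1) (h * γ) κ else 0) +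
      (k + 1) • ((x h - x (h * γ)) * (Bo dg a g h γ * Sk dg a g k (h * γ) κ)) := by
  have h1 : Sk dg a g (k + 1) h (γ :: κ) = ∑ s : S × S, (if pr dg s = γ then
      sm g (a s.1 * a s.2) * Sk dg a g (k + 1) (h * γ) κ +
        (k + 1) • (sm g (a s.1 * a s.2) * (((x h - x (h * γ)) * x (h * dg s.1)) *
          Sk dg a g k (h * γ) κ)) else 0) := by
    rw [Sk]
    have := sum_words_succ (S := S × S) κ.length (F := fun l => if l.map (pr dg) = γ :: κ then
      sm g (co a (pl l)) * Lop A g h ((pl l).map dg) ^ (k + 1) else 0)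
    rw [show (γ :: κ).length = κ.length + 1 from rfl, this]
    refine Finset.sum_congr rfl fun s _ => ?_
    rw [Sk, Sk, Finset.mul_sum, Finset.mul_sum, Finset.mul_sum, ← Finset.sum_nsmul]
    split_ifs with hs
    · rw [← Finset.sum_add_distrib]
      refine Finset.sum_congr rfl fun w _ => ?_
      simp only [List.map_cons, List.cons.injEq, hs, true_and]
      split_ifs with hw
      · have e1 : h * dg s.1 * dg s.2 = h * γ := by rw [← hs, pr, mul_assoc]
        rw [co_pl_cons, sm_mul, pl_cons, List.map_cons, List.map_cons, Lop_two_pow, e1, st_eq, hs,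
          mul_add, mul_assoc (sm g (a s.1 * a s.2)), mul_smul_comm]
        congr 2
        set L' := Lop A g (h * γ) ((pl (List.ofFn w)).map dg)
        set c' := co a (pl (List.ofFn w))
        have e2 : ∀ b : G, (x b : AddMonoid.End (V g A)) * sm g c' = sm g c' * x b :=
          fun b => x_sm b c'
        have e3 : (x h - x (h * γ)) * x (h * dg s.1) * (sm g c' * L' ^ k) =
            sm g c' * ((x h - x (h * γ)) * x (h * dg s.1) * L' ^ k) := by
          rw [← mul_assoc, mul_assoc (x h - x (h * γ)), e2, ← mul_assoc (x h - x (h * γ)), sub_mul,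
            e2, e2, ← mul_sub, mul_assoc (sm g c'), mul_assoc (sm g c'), mul_assoc]
        rw [e3, mul_assoc (sm g (a s.1 * a s.2))]
      · simp
    · refine Finset.sum_eq_zero fun w _ => ?_
      rw [if_neg]
      intro h2
      rw [List.map_cons, List.cons.injEq] at h2
      exact hs h2.1
  have h2 := congrArg (sm g) (sum_pair dg a he γ)
  rw [show sm g (∑ s : S × S, (if pr dg s = γ then a s.1 * a s.2 else 0)) =
    ∑ s : S × S, sm g (if pr dg s = γ then a s.1 * a s.2 else 0) from map_sum _ _ _] at h2
  have h3 : (if γ = 1 then Sk dg a g (k + 1) (h * γ) κ else 0) =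
      ∑ s : S × S, (if pr dg s = γ then
      sm g (a s.1 * a s.2) * Sk dg a g (k + 1) (h * γ) κ else 0) := by
    have h4 : ∑ s : S × S, (if pr dg s = γ then
        sm g (a s.1 * a s.2) * Sk dg a g (k + 1) (h * γ) κ else 0) =
        (∑ s : S × S, sm g (if pr dg s = γ then a s.1 * a s.2 else 0)) *
          Sk dg a g (k + 1) (h * γ) κ := by
      rw [Finset.sum_mul]
      refine Finset.sum_congr rfl fun s _ => ?_
      split_ifs
      · rfl
      · rw [show sm g (0 : A) = 0 from map_zero _, zero_mul]
    rw [h4, h2]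
    split_ifs
    · rw [show sm g (1 : A) = 1 from map_one _, one_mul]
    · rw [show sm g (0 : A) = 0 from map_zero _, zero_mul]
  have h5 : (x h - x (h * γ)) * (Bo dg a g h γ * Sk dg a g k (h * γ) κ) =
      ∑ s : S × S, (if pr dg s = γ then (sm g (a s.1 * a s.2) *
        (((x h - x (h * γ)) * x (h * dg s.1)) * Sk dg a g k (h * γ) κ)) else 0) := by
    rw [Bo, Finset.sum_mul, Finset.mul_sum]
    refine Finset.sum_congr rfl fun s _ => ?_
    split_ifs
    · rw [mul_assoc (sm g (a s.1 * a s.2)), ← mul_assoc (x h - x (h * γ)) (sm g (a s.1 * a s.2)),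
        sub_mul, x_sm, x_sm, ← mul_sub, mul_assoc (sm g (a s.1 * a s.2)), mul_assoc]
    · rw [zero_mul, mul_zero]
  rw [h1, h3, h5, ← Finset.sum_nsmul, ← Finset.sum_add_distrib]
  refine Finset.sum_congr rfl fun s _ => ?_
  split_ifs
  · rfl
  · simp

lemma sub_sq (b c : G) : ((x b : AddMonoid.End (V g A)) - x c) * (x b - x c) = 0 := by
  rw [sub_mul, mul_sub, mul_sub, x_sq, x_sq, x_anti b c]
  abel

lemma sub_anti (b c d e : G) : ((x b : AddMonoid.End (V g A)) - x c) * (x d - x e) =
    -((x d - x e) * (x b - x c)) := by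
  rw [sub_mul, mul_sub, mul_sub, sub_mul, mul_sub, mul_sub, x_anti b d, x_anti b e, x_anti c d,
    x_anti c e]
  abel

lemma sub_Bo (b c h γ : G) : ((x b : AddMonoid.End (V g A)) - x c) * Bo dg a g h γ =
    -(Bo dg a g h γ * (x b - x c)) := by
  rw [sub_mul, mul_sub, x_Bo, x_Bo]
  abel

lemma Sk_P (he : el dg a * el dg a = 1) (κ : List G) (k : ℕ) (h : G) :
    (x h - x (h * κ.prod)) * Sk dg a g k h κ = 0 := by
  classical
  induction κ generalizing h k with
  | nil => rw [List.prod_nil, mul_one, sub_self, zero_mul]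
  | cons γ κ ih =>
    rw [List.prod_cons, ← mul_assoc]
    have h1 : ∀ k, (x h - x (h * γ * κ.prod)) *
        (if γ = 1 then Sk dg a g k (h * γ) κ else 0) = 0 := by
      intro k
      split_ifs with hγ
      · have h2 := ih k (h * γ)
        rw [hγ, mul_one] at h2 ⊢
        exact h2
      · rw [mul_zero]
    cases k with
    | zero => rw [Sk_cons_zero dg a he]; exact h1 0
    | succ k =>
      rw [Sk_cons_succ dg a he, mul_add, h1, zero_add, mul_smul_comm]
      have h3 : (x h - x (h * γ * κ.prod)) = ((x h : AddMonoid.End (V g A)) - x (h * γ)) +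
          (x (h * γ) - x (h * γ * κ.prod)) := by abel
      have h4 : (x h - x (h * γ * κ.prod)) * ((x h - x (h * γ)) *
          (Bo dg a g h γ * Sk dg a g k (h * γ) κ)) = 0 := by
        rw [h3, add_mul, ← mul_assoc, sub_sq, zero_mul, zero_add, ← mul_assoc, sub_anti, neg_mul,
          mul_assoc, ← mul_assoc (x (h * γ) - x (h * γ * κ.prod)), sub_Bo, neg_mul, mul_assoc,
          ih k (h * γ), mul_zero]
        simp
      rw [h4]
      simp

/-- **Vanishing for a fixed column** -/
lemma Sk_closed (he : el dg a * el dg a = 1) (κ : List G) (k : ℕ) (h : G)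
    (hc : (x (h * κ.prod) : AddMonoid.End (V g A)) = x h) : Sk dg a g (k + 1) h κ = 0 := by
  classical
  induction κ generalizing h k with
  | nil =>
    rw [Sk]
    refine Finset.sum_eq_zero fun w _ => ?_
    have h1 : List.ofFn w = [] := by
      apply List.eq_nil_of_length_eq_zero
      rw [List.length_ofFn]
      rfl
    rw [h1]
    simp [pl, Lop_nil]
  | cons γ κ ih =>
    rw [Sk_cons_succ dg a he]
    rw [List.prod_cons, ← mul_assoc] at hc
    have h1 : (if γ = 1 then Sk dg a g (k + 1) (h * γ) κ else 0) = 0 := by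
      split_ifs with hγ
      · apply ih
        rw [hc, hγ, mul_one]
      · rfl
    have h2 := Sk_P (g := g) dg a he κ k (h * γ)
    rw [hc] at h2
    have h3 : (x h - x (h * γ)) * (Bo dg a g h γ * Sk dg a g k (h * γ) κ) = 0 := by
      rw [← mul_assoc, sub_Bo, neg_mul, mul_assoc]
      have h4 : (x h - x (h * γ)) * Sk dg a g k (h * γ) κ = 0 := by
        rw [← neg_sub, neg_mul, h2, neg_zero]
      rw [h4, mul_zero, neg_zero]
    rw [h1, h3]
    simp

end column

end Pool.Agent.W647.HW1
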