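import Pool.Agent.W647.HW2
import Pool.Agent.W647.HV4

/-!
# The additive function on the vertices of a closed path, and equivariant choices of vertices
-/

set_option autoImplicit false
set_option linter.unusedSectionVars false

namespace Pool.Agent.W647.HW1

open Finset Pool.Agent.W647.HV1 Pool.Agent.H23R2 Pool.Agent.H23R2.Cyc

section kf

variable {G : Type*} [Group G] {g : G} {A : Type*} [Ring A]

/-- the function on pairs of vertices -/
def Kf (c : V g A) (h : G) (l : List G) (k : ℕ) (α β : G) : A :=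
  ev ((Lop A g h l ^ k) (x α (x β c))) []

lemma Kf_anti (c : V g A) (h : G) (l : List G) (k : ℕ) (α β : G) :
    Kf c h l k α β = - Kf c h l k β α := by
  have h1 : x α (x β c) = -(x β (x α c)) := DFunLike.congr_fun (x_anti (A := A) (g := g) α β) c
  rw [Kf, h1, map_neg, ev_neg]
  rfl

lemma Kf_zpow_left (c : V g A) (h : G) (l : List G) (k : ℕ) (m : ℤ) (α β : G) :
    Kf c h l k (g ^ m * α) β = Kf c h l k α β := by
  rw [Kf, x_zpow]; rfl

lemma Kf_zpow_right (c : V g A) (h : G) (l : List G) (k : ℕ) (m : ℤ) (α β : G) :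
    Kf c h l k α (g ^ m * β) = Kf c h l k α β := by
  rw [Kf, x_zpow]; rfl

lemma D_three (a b e : G) (φ : List G → A) (m : List G) :
    D m (fun l' => φ (e :: b :: a :: l')) =
      φ (b :: a :: m) - φ (e :: a :: m) + φ (e :: b :: m) - D (e :: b :: a :: m) φ := by
  rw [D_cons, D_cons, D_cons]
  abel

lemma Kf_add (c : V g A) (hD : ∀ m, D m (ev c) = 0) (h : G) (l : List G)
    (hc : h * l.prod = g * h) (k : ℕ) (α β γ : G) :
    Kf c h l k α β + Kf c h l k β γ = Kf c h l k α γ := by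
  have h1 := congrFun (D_Lop_pow h l hc k (x α (x β (x γ c)))) []
  rw [D_nil] at h1
  have h2 : (fun m' => D m' (ev (x α (x β (x γ c))))) =
      ev (x α (x β c) - x α (x γ c) + x β (x γ c)) := by
    funext m'
    have h3 : ev (x α (x β (x γ c))) = fun l' => ev c (γ :: β :: α :: l') := rfl
    rw [h3, D_three, hD, sub_zero]
    rfl
  rw [h2, ← ev_Lop_pow, map_add, map_sub, ev_add, ev_sub, Pi.add_apply, Pi.sub_apply] at h1
  have h4 : (0 : A) = Kf c h l k α β - Kf c h l k α γ + Kf c h l k β γ := h1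
  have h5 : Kf c h l k α β + Kf c h l k β γ - Kf c h l k α γ = 0 := by
    rw [h4]; abel
  exact sub_eq_zero.1 h5

lemma Kf_trans (c : V g A) (z : G) (hz : z * g = g * z) (hc : th z hz c = c) (h : G)
    (l : List G) (k : ℕ) (α β : G) :
    Kf c h l k α β = Kf c (z * h) l k (z * α) (z * β) := by
  have h1 : x α (x β c) = th z hz (x (z * α) (x (z * β) c)) := by
    conv_lhs => rw [← hc]
    rfl
  rw [Kf, h1]
  have h2 := DFunLike.congr_fun (Lop_pow_th (A := A) z hz h l k) (x (z * α) (x (z * β) c))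
  have h3 : (Lop A g h l ^ k) (th z hz (x (z * α) (x (z * β) c))) =
      th z hz ((Lop A g (z * h) l ^ k) (x (z * α) (x (z * β) c))) := h2
  rw [h3, ev_th]
  rfl

lemma Kf_rot (c : V g A) (h : G) (l l' : List G) (hc : h * (l ++ l').prod = g * h) (k : ℕ)
    (α β : G) : Kf c (h * l.prod) (l' ++ l) k α β = Kf c h (l ++ l') k α β := by
  rw [Kf, Kf, Lop_rot h l l' hc]

lemma Kf_cen (c : V g A) (hcen : c ∈ Cen g A) (h : G) (l : List G) (k : ℕ) (α β : G) (b : A) :
    b * Kf c h l k α β = Kf c h l k α β * b :=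
  Cen_Lop_pow h l k (Cen_x α (Cen_x β hcen)) [] b

end kf

section choice

variable {G : Type*} [Group G]

/-- roots of odd... : `p ^ m`-th roots of elements of `⟨g⟩` in groups without elements of order
`p` -/
lemma root_mem {p : ℕ} (hp : p.Prime) (hnt : ∀ y : G, orderOf y ≠ p) {g : G}
    (hg : IsOfFinOrder g) (m : ℕ) (ζ : G) (hζ : ζ ^ (p ^ m) ∈ Subgroup.zpowers g) :
    ζ ∈ Subgroup.zpowers g := by
  obtain ⟨i, hi⟩ := Subgroup.mem_zpowers_iff.1 hζ
  have h1 : IsOfFinOrder (ζ ^ (p ^ m)) := by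
    rw [← hi]; exact hg.zpow
  have h2 : IsOfFinOrder ζ := (isOfFinOrder_pow.1 h1).resolve_right (pow_ne_zero _ hp.ne_zero)
  have h3 : ¬ p ∣ orderOf ζ := by
    rintro ⟨q, hq⟩
    have hq0 : q ≠ 0 := by
      rintro rfl
      rw [mul_zero] at hq
      exact h2.orderOf_pos.ne' hq
    apply hnt (ζ ^ q)
    rw [orderOf_pow' ζ hq0, hq, Nat.gcd_mul_left_left, Nat.mul_div_cancel _ (Nat.pos_of_ne_zero hq0)]
  have h4 : Nat.Coprime (p ^ m) (orderOf ζ) :=
    Nat.Coprime.pow_left m ((hp.coprime_iff_not_dvd).2 h3)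
  have h5 := Nat.gcd_eq_gcd_ab (p ^ m) (orderOf ζ)
  rw [h4] at h5
  have h6 : ζ = (ζ ^ (p ^ m)) ^ (Nat.gcdA (p ^ m) (orderOf ζ)) := by
    have h7 : ζ = ζ ^ (((1 : ℕ) : ℤ)) := by simp
    conv_lhs => rw [h7, h5, zpow_add, zpow_mul, zpow_mul, zpow_natCast, zpow_natCast,
      pow_orderOf_eq_one, one_zpow, mul_one]
  rw [h6]
  exact Subgroup.zpow_mem _ hζ _

variable (g : G) (N : ℕ)

/-- the columns -/
def IsCol (Y : ℕ → G) : Prop := ∀ b, Y (b + N) = g * Y b

variable {g N}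

lemma IsCol.mul {Y : ℕ → G} (hY : IsCol g N Y) (n b : ℕ) : Y (b + N * n) = g ^ n * Y b := by
  induction n with
  | zero => simp
  | succ n ih => rw [Nat.mul_succ, ← add_assoc, hY, ih, pow_succ', mul_assoc]

/-- the equivalence of columns -/
def colS (g : G) (N : ℕ) : Setoid {Y : ℕ → G // IsCol g N Y} where
  r Y Y' := ∃ z : G, z * g = g * z ∧ ∃ s t : ℕ, ∀ b, Y'.1 (b + t) = z * Y.1 (b + s)
  iseqv := by
    refine ⟨fun Y => ⟨1, by simp, 0, 0, fun b => by simp⟩, ?_, ?_⟩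
    · rintro Y Y' ⟨z, hz, s, t, h⟩
      refine ⟨z⁻¹, ?_, t, s, fun b => ?_⟩
      · rw [inv_mul_eq_iff_eq_mul, ← mul_assoc, hz, mul_assoc, mul_inv_cancel, mul_one]
      · rw [h]; group
    · rintro Y Y' Y'' ⟨z, hz, s, t, h⟩ ⟨z', hz', s', t', h'⟩
      refine ⟨z' * z, ?_, s + s', t' + t, fun b => ?_⟩
      · rw [mul_assoc, hz, ← mul_assoc, hz', mul_assoc]
      · rw [show b + (t' + t) = (b + t) + t' by ring, h',
          show b + t + s' = (b + s') + t by ring, h, mul_assoc,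
          show b + s' + s = b + (s + s') by ring]

lemma stab {p : ℕ} (hp : p.Prime) (hnt : ∀ y : G, orderOf y ≠ p) (hg : IsOfFinOrder g) {M : ℕ}
    (hN : N = p ^ M) {Y : ℕ → G} (hY : IsCol g N Y) (ζ : G) (u v : ℕ)
    (h : ∀ b, Y (b + v) = ζ * Y (b + u)) : ζ ∈ Subgroup.zpowers g := by
  have h1 : ∀ n b, Y (b + v * n) = ζ ^ n * Y (b + u * n) := by
    intro n
    induction n with
    | zero => intro b; simp
    | succ n ih =>
      intro b
      rw [Nat.mul_succ, ← add_assoc, h, show b + v * n + u = (b + u) + v * n by ring, ih,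
        pow_succ', mul_assoc, Nat.mul_succ, show b + u + u * n = b + (u * n + u) by ring]
  have h2 := h1 N 0
  rw [show v * N = N * v by ring, show u * N = N * u by ring, hY.mul, hY.mul, ← mul_assoc] at h2
  have h3 := mul_right_cancel h2
  apply root_mem hp hnt hg M ζ
  rw [← hN, Subgroup.mem_zpowers_iff]
  refine ⟨(v : ℤ) - u, ?_⟩
  rw [zpow_sub, zpow_natCast, zpow_natCast, h3]
  group

open Classical in
/-- the choice of a vertex -/
noncomputable def Xc (g : G) (N : ℕ) (Y : ℕ → G) : G :=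
  if h : IsCol g N Y then
    (Quotient.mk_out (s := colS g N) ⟨Y, h⟩ : (colS g N).r _ _).choose *
      ((Quotient.out (s := colS g N) (Quotient.mk _ ⟨Y, h⟩)).1 0)
  else 1

lemma Xc_spec {p : ℕ} (hp : p.Prime) (hnt : ∀ y : G, orderOf y ≠ p) (hg : IsOfFinOrder g) {M : ℕ}
    (hN : N = p ^ M) {Y : ℕ → G} (hY : IsCol g N Y) (z : G) (hz : z * g = g * z) (s : ℕ)
    (Y' : ℕ → G) (hY' : ∀ b, Y' b = z * Y (b + s)) :
    ∃ m : ℤ, Xc g N Y' = g ^ m * (z * Xc g N Y) := by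
  have hY'c : IsCol g N Y' := by
    intro b
    rw [hY', hY', show b + N + s = (b + s) + N by ring, hY, ← mul_assoc, hz, mul_assoc]
  have hq : (Quotient.mk (colS g N) ⟨Y', hY'c⟩) = Quotient.mk (colS g N) ⟨Y, hY⟩ := by
    apply Quotient.sound
    refine ⟨z⁻¹, ?_, 0, s, fun b => ?_⟩
    · rw [inv_mul_eq_iff_eq_mul, ← mul_assoc, hz, mul_assoc, mul_inv_cancel, mul_one]
    · show Y (b + s) = z⁻¹ * Y' (b + 0)
      rw [hY']; group
  have e1 := (Quotient.mk_out (s := colS g N) ⟨Y, hY⟩ : (colS g N).r _ _).choose_spec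
  have e2 := (Quotient.mk_out (s := colS g N) ⟨Y', hY'c⟩ : (colS g N).r _ _).choose_spec
  have d1 : Xc g N Y = (Quotient.mk_out (s := colS g N) ⟨Y, hY⟩ : (colS g N).r _ _).choose *
      ((Quotient.out (s := colS g N) (Quotient.mk _ ⟨Y, hY⟩)).1 0) := by rw [Xc, dif_pos hY]
  have d2 : Xc g N Y' = (Quotient.mk_out (s := colS g N) ⟨Y', hY'c⟩ : (colS g N).r _ _).choose *
      ((Quotient.out (s := colS g N) (Quotient.mk _ ⟨Y', hY'c⟩)).1 0) := by rw [Xc, dif_pos hY'c]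
  set z₁ := (Quotient.mk_out (s := colS g N) ⟨Y, hY⟩ : (colS g N).r _ _).choose
  set z₂ := (Quotient.mk_out (s := colS g N) ⟨Y', hY'c⟩ : (colS g N).r _ _).choose
  set q := Quotient.out (s := colS g N) (Quotient.mk _ ⟨Y, hY⟩) with hqdef
  have hq2 : Quotient.out (s := colS g N) (Quotient.mk _ ⟨Y', hY'c⟩) = q := by
    rw [hqdef, hq]
  rw [hq2] at e2 d2
  obtain ⟨hz1, s₁, t₁, h₁⟩ := e1
  obtain ⟨hz2, s₂, t₂, h₂⟩ := e2
  have h₁' : ∀ b, Y (b + t₁) = z₁ * q.1 (b + s₁) := h₁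
  have h₂' : ∀ b, Y' (b + t₂) = z₂ * q.1 (b + s₂) := h₂
  have h3 : ((z * z₁)⁻¹ * z₂) ∈ Subgroup.zpowers g := by
    refine stab hp hnt hg hN q.2 _ (t₁ + s₂) (t₂ + s + s₁) fun b => ?_
    have h4 : z₂ * q.1 (b + t₁ + s₂) = z * z₁ * q.1 (b + (t₂ + s + s₁)) := by
      rw [← h₂', hY', show b + t₁ + t₂ + s = (b + t₂ + s) + t₁ by ring, h₁', mul_assoc,
        show b + t₂ + s + s₁ = b + (t₂ + s + s₁) by ring]
    rw [mul_assoc, show b + (t₁ + s₂) = b + t₁ + s₂ by ring, h4]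
    group
  obtain ⟨m, hm⟩ := Subgroup.mem_zpowers_iff.1 h3
  refine ⟨m, ?_⟩
  rw [d2, d1]
  have h5 : z₂ = z * z₁ * g ^ m := by rw [hm]; group
  have h6 : Commute (z * z₁) (g ^ m) := by
    apply Commute.zpow_right
    show z * z₁ * g = g * (z * z₁)
    rw [mul_assoc, hz1, ← mul_assoc, hz, mul_assoc]
  rw [h5, h6.eq]
  group

end choice

end Pool.Agent.W647.HW1
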