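import Pool.Agent.W647.HW3

/-!
# Cyclic words in pairs of letters: half rotations
-/

set_option autoImplicit false
set_option linter.unusedSectionVars false

namespace Pool.Agent.W647.HW1

open Finset Pool.Agent.W647.HV1 Pool.Agent.H23R2 Pool.Agent.H23R2.Cyc

section half

variable {S : Type*} {N : ℕ}

/-- rotation by half a pair -/
def hr (w : ZMod N → S × S) : ZMod N → S × S := fun i => ((w i).2, (w (i + 1)).1)

lemma hr_hr (w : ZMod N → S × S) : hr (hr w) = shift 1 w := rfl

/-- half rotation as a bijection -/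
def hrE (S : Type*) (N : ℕ) : (ZMod N → S × S) ≃ (ZMod N → S × S) where
  toFun := hr
  invFun w := fun i => ((w (i - 1)).2, (w i).1)
  left_inv w := by
    funext i
    simp [hr]
  right_inv w := by
    funext i
    simp [hr]

lemma tele {Q : Type*} [Monoid Q] (f : S → Q) (w : ZMod N → S × S) (m : ℕ) :
    f (w 0).1 * mpr (fun i => f (hr w i).1 * f (hr w i).2) 0 m =
      mpr (fun i => f (w i).1 * f (w i).2) 0 m * f (w (m : ZMod N)).1 := by
  induction m with
  | zero => simp [mpr]
  | succ m ih =>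
    rw [mpr, ← mul_assoc, ih, mpr]
    simp only [hr, zero_add]
    push_cast
    simp only [mul_assoc]

/-- the word of a cyclic word of pairs -/
def PW (w : ZMod N → S × S) (m : ℕ) : FreeMonoid S :=
  mpr (fun i => FreeMonoid.of (w i).1 * FreeMonoid.of (w i).2) 0 m

/-- the word as a list -/
def Wl (w : ZMod N → S × S) : List S := FreeMonoid.toList (PW w N)

lemma map_mpr {Q Q' : Type*} [Monoid Q] [Monoid Q'] (φ : Q →* Q') (f : ZMod N → Q) (m : ℕ) :
    φ (mpr f 0 m) = mpr (fun i => φ (f i)) 0 m := by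
  induction m with
  | zero => exact map_one φ
  | succ m ih => rw [mpr, map_mul, ih, mpr]

lemma PW_split (w : ZMod N → S × S) [NeZero N] :
    ∃ r : List S, Wl w = (w 0).1 :: r ∧ Wl (hr w) = r ++ [(w 0).1] := by
  obtain ⟨N', hN'⟩ : ∃ N', N = N' + 1 := ⟨N - 1, by have := NeZero.ne N; omega⟩
  have h1 := tele (fun s : S => FreeMonoid.of s) w N
  have h2 : ∃ r : FreeMonoid S, PW w N = FreeMonoid.of (w 0).1 * r := by
    subst hN'
    rw [PW, mpr_succ', mul_assoc]
    exact ⟨_, rfl⟩
  obtain ⟨r, hr'⟩ := h2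
  refine ⟨FreeMonoid.toList r, ?_, ?_⟩
  · rw [Wl, hr', FreeMonoid.toList_mul]; rfl
  · have h3 : FreeMonoid.of (w 0).1 * PW (hr w) N =
        FreeMonoid.of (w 0).1 * (r * FreeMonoid.of (w 0).1) := by
      rw [← mul_assoc, ← hr']
      have h4 : ((N : ℕ) : ZMod N) = 0 := ZMod.natCast_self N
      rw [h4] at h1
      exact h1
    have h5 := mul_left_cancel h3
    rw [Wl, h5, FreeMonoid.toList_mul]
    rfl

lemma PW_eq_ofFn (w : ZMod N → S × S) (m : ℕ) :
    FreeMonoid.toList (PW w m) = pl (List.ofFn fun i : Fin m => w ((i : ℕ) : ZMod N)) := by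
  rw [PW, mpr_eq_ofFn]
  have h1 : ∀ l : List (S × S), (l.map fun s => FreeMonoid.of s.1 * FreeMonoid.of s.2).prod =
      FreeMonoid.ofList (pl l) := by
    intro l
    induction l with
    | nil => rfl
    | cons s l ih => rw [List.map_cons, List.prod_cons, ih]; rfl
  have h2 : (List.ofFn fun i : Fin m => FreeMonoid.of (w (0 + ((i : ℕ) : ZMod N))).1 *
      FreeMonoid.of (w (0 + ((i : ℕ) : ZMod N))).2) =
      (List.ofFn fun i : Fin m => w ((i : ℕ) : ZMod N)).map
        (fun s => FreeMonoid.of s.1 * FreeMonoid.of s.2) := by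
    rw [List.map_ofFn]
    congr 1
    funext i
    simp
  rw [h2, h1]
  rfl

variable {G : Type*} [Group G] {g : G} (dg : S → G)

/-- the column of a cyclic word -/
def col (h : G) (w : ZMod N → S × S) : ℕ → G := fun j => h * mpr (fun i => pr dg (w i)) 0 j

lemma prod_Wl (w : ZMod N → S × S) :
    ((Wl w).map dg).prod = mpr (fun i => pr dg (w i)) 0 N := by
  have h1 : ∀ v : FreeMonoid S, ((FreeMonoid.toList v).map dg).prod = FreeMonoid.lift dg v := by
    intro v
    rw [FreeMonoid.lift_apply]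
  rw [Wl, h1, PW, map_mpr]
  rfl

lemma col_isCol (h : G) (w : ZMod N → S × S) (hc : h * ((Wl w).map dg).prod = g * h) :
    IsCol g N (col dg h w) := by
  intro b
  rw [col, col, add_comm b N, mpr_add, ← mul_assoc, ← prod_Wl, hc]
  have h4 : ((N : ℕ) : ZMod N) = 0 := ZMod.natCast_self N
  rw [h4, zero_add, mul_assoc]

lemma col_mul (z h : G) (w : ZMod N → S × S) (b : ℕ) :
    col dg (z * h) w b = z * col dg h w (b + 0) := by
  rw [col, col, mul_assoc, add_zero]

lemma col_shift (h : G) (w : ZMod N → S × S) (b : ℕ) :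
    col dg (h * dg (w 0).1 * dg (hr w 0).1) (hr (hr w)) b = 1 * col dg h w (b + 1) := by
  rw [hr_hr, col, col, mpr_succ', one_mul]
  have h1 : mpr (fun i => pr dg (shift 1 w i)) 0 b = mpr (fun i => pr dg (w i)) (0 + 1) b :=
    mpr_shift 1 (fun i => pr dg (w i)) 0 b
  rw [h1]
  show h * dg (w 0).1 * dg (w 0).2 * _ = h * (dg (w 0).1 * dg (w 0).2 * _)
  simp only [mul_assoc]

end half

section inv

variable {S : Type*} [Fintype S] {N : ℕ} [NeZero N] {G : Type*} [Group G] {g : G} {A : Type*}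
  [Ring A] (dg : S → G) (a : S → A) {M : Type*} [AddCommGroup M]

/-- the weight of a closed word with base vertex `h` -/
noncomputable def Psi (c : V g A) (k : ℕ) (h : G) (w : ZMod N → S × S) : A :=
  Kf c h ((Wl w).map dg) k (Xc g N (col dg h w)) (Xc g N (col dg (h * dg (w 0).1) (hr w)))

open Classical in
/-- sum over closed words -/
noncomputable def Fs (g : G) (T : A →+ M) (t : G → G) (Ψ : G → (ZMod N → S × S) → A)
    (w : ZMod N → S × S) : M :=
  if IsConj ((Wl w).map dg).prod g then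
    T (co a (Wl w) * Ψ (t ((Wl w).map dg).prod) w) else 0

/-- **Half rotation** -/
lemma Fs_half {T₁ T₂ : A →+ M} (hT : ∀ s m, T₁ (a s * m) = T₂ (m * a s)) {t : G → G}
    (ht : ∀ y, IsConj y g → t y * y * (t y)⁻¹ = g)
    (Ψ₁ Ψ₂ : G → (ZMod N → S × S) → A)
    (hcen : ∀ h w b, b * Ψ₁ h w = Ψ₁ h w * b)
    (hΨ : ∀ h w z, h * ((Wl w).map dg).prod = g * h → z * g = g * z →
      Ψ₁ h w = Ψ₂ (z * (h * dg (w 0).1)) (hr w)) (w : ZMod N → S × S) :
    Fs dg a g T₁ t Ψ₁ w = Fs dg a g T₂ t Ψ₂ (hr w) := by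
  classical
  obtain ⟨r, h1, h2⟩ := PW_split w
  set y := ((Wl w).map dg).prod with hy
  set y' := ((Wl (hr w)).map dg).prod with hy'
  have e1 : y = dg (w 0).1 * (r.map dg).prod := by rw [hy, h1, List.map_cons, List.prod_cons]
  have e2 : y' = (r.map dg).prod * dg (w 0).1 := by
    rw [hy', h2, List.map_append, List.prod_append]; simp
  have e3 : y' = (dg (w 0).1)⁻¹ * y * dg (w 0).1 := by rw [e1, e2]; group
  have hconj : IsConj y g ↔ IsConj y' g := by
    rw [e1, e2]; exact isConj_mul_comm _ _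
  rw [Fs, Fs, ← hy, ← hy']
  by_cases hyg : IsConj y g
  · have hyg' := hconj.1 hyg
    rw [if_pos hyg, if_pos hyg']
    have f1 := ht y hyg
    have f2 := ht y' hyg'
    set h := t y
    set h' := t y'
    have f1' : h * y = g * h := mul_inv_eq_iff_eq_mul.1 f1
    set z := h' * (h * dg (w 0).1)⁻¹ with hz
    have hzg : z * g = g * z := by
      have f3 : (h * dg (w 0).1) * y' * (h * dg (w 0).1)⁻¹ = g := by
        rw [e3, ← f1]; group
      rw [hz]
      nth_rewrite 1 [← f3]
      nth_rewrite 1 [← f2]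
      group
    have f4 : z * (h * dg (w 0).1) = h' := by rw [hz]; group
    have f5 := hΨ h w z f1' hzg
    rw [f4] at f5
    rw [← f5, h1, h2, co_cons, co_append, mul_assoc, hT, mul_assoc, ← hcen, ← mul_assoc]
    simp [co]
  · rw [if_neg hyg, if_neg (fun h => hyg (hconj.2 h))]

end inv

end Pool.Agent.W647.HW1
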