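import Pool.Agent.W647.HW4

/-!
# The weights of closed words and their sums
-/

set_option autoImplicit false
set_option linter.unusedSectionVars false

namespace Pool.Agent.W647.HW1

open Finset Pool.Agent.W647.HV1 Pool.Agent.H23R2 Pool.Agent.H23R2.Cyc

section inv

variable {S : Type*} [Fintype S] {N : ℕ} [NeZero N] {G : Type*} [Group G] {g : G} {A : Type*}
  [Ring A] (dg : S → G) (a : S → A) {M : Type*} [AddCommGroup M]

/-- the difference of the chosen even vertex and the base vertex -/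
noncomputable def PsA (c : V g A) (k : ℕ) (h : G) (w : ZMod N → S × S) : A :=
  Kf c h ((Wl w).map dg) k (Xc g N (col dg h w)) h

/-- the first edge -/
noncomputable def Ps1 (c : V g A) (k : ℕ) (h : G) (w : ZMod N → S × S) : A :=
  Kf c h ((Wl w).map dg) k h (h * dg (w 0).1)

/-- the difference of the first odd vertex and the chosen odd vertex -/
noncomputable def PsB (c : V g A) (k : ℕ) (h : G) (w : ZMod N → S × S) : A :=
  Kf c h ((Wl w).map dg) k (h * dg (w 0).1) (Xc g N (col dg (h * dg (w 0).1) (hr w)))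

lemma Psi_split (c : V g A) (hD : ∀ m, D m (ev c) = 0) (k : ℕ) (h : G) (w : ZMod N → S × S)
    (hc : h * ((Wl w).map dg).prod = g * h) :
    Psi dg c k h w = PsA dg c k h w + Ps1 dg c k h w + PsB dg c k h w := by
  rw [Psi, PsA, Ps1, PsB, Kf_add c hD _ _ hc, Kf_add c hD _ _ hc]

lemma Wl_half (w : ZMod N → S × S) : ∃ r : List G, (Wl w).map dg = [dg (w 0).1] ++ r ∧
    (Wl (hr w)).map dg = r ++ [dg (w 0).1] := by
  obtain ⟨r, h1, h2⟩ := PW_split w
  exact ⟨r.map dg, by rw [h1]; rfl, by rw [h2, List.map_append]; rfl⟩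

lemma Kf_half (c : V g A) (hth : ∀ z (hz : z * g = g * z), th z hz c = c) (k : ℕ) (h : G)
    (w : ZMod N → S × S) (hc : h * ((Wl w).map dg).prod = g * h) (z : G) (hz : z * g = g * z)
    (α β : G) : Kf c (z * (h * dg (w 0).1)) ((Wl (hr w)).map dg) k (z * α) (z * β) =
      Kf c h ((Wl w).map dg) k α β := by
  rw [← Kf_trans c z hz (hth z hz)]
  obtain ⟨r, h1, h2⟩ := Wl_half dg w
  rw [h1] at hc
  rw [h1, h2]
  have h3 := Kf_rot c h [dg (w 0).1] r hc k α β
  rw [List.prod_singleton] at h3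
  exact h3

variable {p : ℕ} (hp : p.Prime) (hnt : ∀ y : G, orderOf y ≠ p) (hg : IsOfFinOrder g) {m : ℕ}
  (hN : N = p ^ m)

include hp hnt hg hN in
lemma Xc_half (h : G) (w : ZMod N → S × S) (hc : h * ((Wl w).map dg).prod = g * h) (z : G)
    (hz : z * g = g * z) : ∃ i : ℤ, Xc g N (col dg (z * (h * dg (w 0).1)) (hr w)) =
      g ^ i * (z * Xc g N (col dg (h * dg (w 0).1) (hr w))) := by
  refine Xc_spec hp hnt hg hN (col_isCol dg _ _ ?_) z hz 0 _ fun b => col_mul dg _ _ _ b
  obtain ⟨r, h1, h2⟩ := Wl_half dg w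
  rw [h1, List.prod_append, List.prod_singleton] at hc
  rw [h2, List.prod_append, List.prod_singleton, mul_assoc, ← mul_assoc (dg (w 0).1), ← mul_assoc,
    hc, mul_assoc]

include hp hnt hg hN in
lemma Xc_full (h : G) (w : ZMod N → S × S) (hc : h * ((Wl w).map dg).prod = g * h) (z : G)
    (hz : z * g = g * z) :
    ∃ i : ℤ, Xc g N (col dg (z * (h * dg (w 0).1) * dg (hr w 0).1) (hr (hr w))) =
      g ^ i * (z * Xc g N (col dg h w)) := by
  refine Xc_spec hp hnt hg hN (col_isCol dg _ _ hc) z hz 1 _ fun b => ?_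
  rw [mul_assoc z, col_mul, col_shift]
  simp

include hp hnt hg hN in
lemma Psi_half (c : V g A) (hth : ∀ z (hz : z * g = g * z), th z hz c = c) (k : ℕ) (h : G)
    (w : ZMod N → S × S) (z : G) (hc : h * ((Wl w).map dg).prod = g * h) (hz : z * g = g * z) :
    Psi dg c k h w = - Psi dg c k (z * (h * dg (w 0).1)) (hr w) := by
  obtain ⟨i, hi⟩ := Xc_half dg hp hnt hg hN h w hc z hz
  obtain ⟨j, hj⟩ := Xc_full dg hp hnt hg hN h w hc z hz
  rw [Psi, Psi, hi, hj, Kf_zpow_left, Kf_zpow_right, Kf_half dg c hth k h w hc z hz, Kf_anti]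

include hp hnt hg hN in
lemma PsB_half (c : V g A) (hth : ∀ z (hz : z * g = g * z), th z hz c = c) (k : ℕ) (h : G)
    (w : ZMod N → S × S) (z : G) (hc : h * ((Wl w).map dg).prod = g * h) (hz : z * g = g * z) :
    PsB dg c k h w = - PsA dg c k (z * (h * dg (w 0).1)) (hr w) := by
  obtain ⟨i, hi⟩ := Xc_half dg hp hnt hg hN h w hc z hz
  rw [PsB, PsA, hi, Kf_zpow_left, Kf_half dg c hth k h w hc z hz, Kf_anti]

lemma Psi_cen (c : V g A) (hcen : c ∈ Cen g A) (k : ℕ) (h : G) (w : ZMod N → S × S) (b : A) :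
    b * Psi dg c k h w = Psi dg c k h w * b := Kf_cen c hcen _ _ _ _ _ b

lemma PsB_cen (c : V g A) (hcen : c ∈ Cen g A) (k : ℕ) (h : G) (w : ZMod N → S × S) (b : A) :
    b * PsB dg c k h w = PsB dg c k h w * b := Kf_cen c hcen _ _ _ _ _ b

lemma Fs_neg (T : A →+ M) (t : G → G) (Ψ : G → (ZMod N → S × S) → A) (w : ZMod N → S × S) :
    Fs dg a g T t (fun h w => - Ψ h w) w = - Fs dg a g T t Ψ w := by
  rw [Fs, Fs]
  split_ifs
  · rw [mul_neg, map_neg]
  · rw [neg_zero]

lemma Fs_congr (T : A →+ M) {t : G → G} (ht : ∀ y, IsConj y g → t y * y * (t y)⁻¹ = g)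
    (Ψ Ψ' : G → (ZMod N → S × S) → A)
    (hΨ : ∀ h w, h * ((Wl w).map dg).prod = g * h → Ψ h w = Ψ' h w) (w : ZMod N → S × S) :
    Fs dg a g T t Ψ w = Fs dg a g T t Ψ' w := by
  rw [Fs, Fs]
  split_ifs with h1
  · rw [hΨ _ _ (mul_inv_eq_iff_eq_mul.1 (ht _ h1))]
  · rfl

lemma Fs_add (T : A →+ M) (t : G → G) (Ψ Ψ' : G → (ZMod N → S × S) → A) (w : ZMod N → S × S) :
    Fs dg a g T t (fun h w => Ψ h w + Ψ' h w) w = Fs dg a g T t Ψ w + Fs dg a g T t Ψ' w := by
  rw [Fs, Fs, Fs]
  split_ifs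
  · rw [mul_add, map_add]
  · rw [add_zero]

variable {T₁ T₂ : A →+ M} (h12 : ∀ s m, T₁ (a s * m) = T₂ (m * a s))
  (h21 : ∀ s m, T₂ (a s * m) = T₁ (m * a s)) {t : G → G}
  (ht : ∀ y, IsConj y g → t y * y * (t y)⁻¹ = g) {c : V g A} (hcen : c ∈ Cen g A)
  (hD : ∀ m, D m (ev c) = 0) (hth : ∀ z (hz : z * g = g * z), th z hz c = c)

include hp hnt hg hN h12 ht hcen hth in
lemma Fs_half_Psi (k : ℕ) (w : ZMod N → S × S) :
    Fs dg a g T₁ t (Psi dg c k) w = - Fs dg a g T₂ t (Psi dg c k) (hr w) := by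
  rw [← Fs_neg]
  exact Fs_half dg a h12 ht _ _ (Psi_cen dg c hcen k)
    (fun h w z hc hz => Psi_half dg hp hnt hg hN c hth k h w z hc hz) w

include hp hnt hg hN h12 h21 ht hcen hth in
lemma Fs_rot (k : ℕ) (w : ZMod N → S × S) :
    Fs dg a g T₁ t (Psi dg c k) (shift 1 w) = Fs dg a g T₁ t (Psi dg c k) w := by
  rw [Fs_half_Psi dg a hp hnt hg hN h12 ht hcen hth k w,
    Fs_half_Psi dg a hp hnt hg hN h21 ht hcen hth k (hr w), neg_neg, hr_hr]

include hp hnt hg hN h12 h21 ht hcen hth in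
lemma Fs_rot' (k : ℕ) (e : ZMod N) (w : ZMod N → S × S) :
    Fs dg a g T₁ t (Psi dg c k) (shift e w) = Fs dg a g T₁ t (Psi dg c k) w := by
  have key : ∀ j : ℕ, Fs dg a g T₁ t (Psi dg c k) (shift (j : ZMod N) w) =
      Fs dg a g T₁ t (Psi dg c k) w := by
    intro j
    induction j with
    | zero => simp
    | succ j ih =>
      rw [← ih, ← Fs_rot dg a hp hnt hg hN h12 h21 ht hcen hth k (shift (j : ZMod N) w),
        shift_shift]
      congr 2
      push_cast
      ring
  have h := key e.val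
  rwa [ZMod.natCast_zmod_val] at h

include hp hnt hg hN ht in
lemma Fs_div (k : ℕ) (w : ZMod N → S × S) (d q : ℕ) (hdq : d * q = N)
    (hw : shift (d : ZMod N) w = w) :
    ∃ y : M, d • Fs dg a g T₁ t (Psi dg c (k + 1)) w = N • y := by
  classical
  rw [Fs]
  by_cases hy : IsConj ((Wl w).map dg).prod g
  · rw [if_pos hy]
    have h1 : Wl w = (List.replicate q (FreeMonoid.toList (PW w d))).flatten := by
      have h2 := mpr_periodic d q (fun i => FreeMonoid.of (w i).1 * FreeMonoid.of (w i).2)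
        (congrArg (fun v : ZMod N → S × S => fun i => FreeMonoid.of (v i).1 *
          FreeMonoid.of (v i).2) hw)
      rw [Wl]
      have h3 : PW w N = PW w d ^ q := by
        rw [PW, PW, ← h2]
        exact congrArg _ hdq.symm
      rw [h3, toList_pow]
    set h := t ((Wl w).map dg).prod with hh
    have h4 : h * ((Wl w).map dg).prod = g * h := mul_inv_eq_iff_eq_mul.1 (ht _ hy)
    have hq : q ≠ 0 := by
      rintro rfl
      rw [mul_zero] at hdq
      exact NeZero.ne N hdq.symm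
    have h5 : (Wl w).map dg = (List.replicate q ((FreeMonoid.toList (PW w d)).map dg)).flatten := by
      rw [h1, prod_flat]
    set u := (FreeMonoid.toList (PW w d)).map dg with hu
    have h6 : h * (List.replicate q u).flatten.prod = g * h := by rw [← h5]; exact h4
    obtain ⟨L', hL'⟩ := Lop_flat_div (A := A) h u q hq h6 (orderOf u.prod) (pow_orderOf_eq_one _)
    have hqd : q ∣ p ^ m := ⟨d, by rw [mul_comm, hdq, hN]⟩
    have hcop : Nat.gcd q (orderOf u.prod) = 1 := by
      obtain ⟨j, _, hj⟩ := (Nat.dvd_prime_pow hp).1 hqd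
      have hfin : IsOfFinOrder u.prod := by
        have h7 : (List.replicate q u).flatten.prod = u.prod ^ q := by
          rw [List.prod_flatten, List.map_replicate, List.prod_replicate]
        rw [h7] at h6
        have h8 : IsOfFinOrder (u.prod ^ q) := by
          have h9 : u.prod ^ q = h⁻¹ * g * h := by
            rw [mul_assoc, ← h6]; group
          obtain ⟨n, hn, hn1⟩ := hg.exists_pow_eq_one
          rw [isOfFinOrder_iff_pow_eq_one]
          refine ⟨n, hn, ?_⟩
          have h10 : (h⁻¹ * g * h⁻¹⁻¹) ^ n = h⁻¹ * g ^ n * h⁻¹⁻¹ := conj_pow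
          rw [inv_inv] at h10
          rw [h9, h10, hn1]
          group
        exact (isOfFinOrder_pow.1 h8).resolve_right hq
      have h3 : ¬ p ∣ orderOf u.prod := by
        rintro ⟨r, hr⟩
        have hr0 : r ≠ 0 := by
          rintro rfl
          rw [mul_zero] at hr
          exact hfin.orderOf_pos.ne' hr
        apply hnt (u.prod ^ r)
        rw [orderOf_pow' _ hr0, hr, Nat.gcd_mul_left_left,
          Nat.mul_div_cancel _ (Nat.pos_of_ne_zero hr0)]
      rw [hj]
      exact Nat.Coprime.pow_left j ((hp.coprime_iff_not_dvd).2 h3)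
    rw [hcop, Nat.div_one] at hL'
    obtain ⟨L'', hL''⟩ := nsmul_pow_div q L' k
    rw [Psi, Kf, h5, hL', hL'']
    refine ⟨T₁ (co a (Wl w) * ev (L'' (x (Xc g N (col dg h w))
      (x (Xc g N (col dg (h * dg (w 0).1) (hr w))) c))) []), ?_⟩
    set φ := x (Xc g N (col dg h w)) (x (Xc g N (col dg (h * dg (w 0).1) (hr w))) c)
    have h20 : T₁ (co a (Wl w) * ev ((q • L'') φ) []) =
        q • T₁ (co a (Wl w) * ev (L'' φ) []) := by
      rw [← map_nsmul, ← mul_smul_comm]
      rfl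
    rw [h20, smul_smul, hdq]
  · rw [if_neg hy]
    exact ⟨0, by rw [smul_zero, smul_zero]⟩

end inv

section orb

variable {B : Type*} [Fintype B] {M : Type*} [AddCommGroup M]

/-- rotation invariant functions of cyclic sequences -/
theorem cyc_sum' (N : ℕ) [NeZero N] (F : (ZMod N → B) → M) (hF : ∀ e w, F (shift e w) = F w)
    (D : AddSubgroup M) (h : ∀ (w : ZMod N → B) (d q : ℕ), d * q = N →
      shift ((d : ℕ) : ZMod N) w = w → d • F w ∈ D) : ∑ w, F w ∈ D := by
  classical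
  rw [← QuotientAddGroup.eq_zero_iff, ← QuotientAddGroup.mk'_apply, map_sum]
  let _ := rotAction N B
  refine sum_orbits (G := ZMod N) _ ?_ ?_
  · intro e w
    show QuotientAddGroup.mk' D (F (shift e w)) = _
    rw [hF]
  · intro w
    have h2 : Nat.card (AddAction.orbit (ZMod N) w) =
        (AddAction.stabilizer (ZMod N) w).index :=
      (AddAction.index_stabilizer (ZMod N) w).symm
    rw [h2]
    obtain ⟨d, hd⟩ : ∃ d, d = (AddAction.stabilizer (ZMod N) w).index := ⟨_, rfl⟩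
    have h3 : d ∣ N := by
      have h0 := (AddAction.stabilizer (ZMod N) w).index_dvd_card
      rw [Nat.card_zmod] at h0
      rw [hd]
      exact h0
    have h4 : shift ((d : ℕ) : ZMod N) w = w := by
      have h4 := AddSubgroup.nsmul_index_mem (AddAction.stabilizer (ZMod N) w) (1 : ZMod N)
      rw [nsmul_one, ← hd] at h4
      exact h4
    rw [← hd]
    obtain ⟨q, hq⟩ := h3
    rw [← map_nsmul, QuotientAddGroup.mk'_apply, QuotientAddGroup.eq_zero_iff]
    exact h _ d q hq.symm h4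

end orb

section total

variable {S : Type*} [Fintype S] {N : ℕ} [NeZero N] {G : Type*} [Group G] {g : G} {A : Type*}
  [Ring A] (dg : S → G) (a : S → A) {M : Type*} [AddCommGroup M]
  {p : ℕ} (hp : p.Prime) (hnt : ∀ y : G, orderOf y ≠ p) (hg : IsOfFinOrder g) {m : ℕ}
  (hN : N = p ^ m) {T₁ T₂ : A →+ M} (h12 : ∀ s m, T₁ (a s * m) = T₂ (m * a s))
  (h21 : ∀ s m, T₂ (a s * m) = T₁ (m * a s)) {t : G → G}
  (ht : ∀ y, IsConj y g → t y * y * (t y)⁻¹ = g) {c : V g A} (hcen : c ∈ Cen g A)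
  (hD : ∀ m, D m (ev c) = 0) (hth : ∀ z (hz : z * g = g * z), th z hz c = c)

include hp hnt hg hN h12 h21 ht hcen hth in
/-- the total weight is divisible by `N` -/
theorem sum_Psi_mem (k : ℕ) :
    ∃ y : M, ∑ w : ZMod N → S × S, Fs dg a g T₁ t (Psi dg c (k + 1)) w = N • y := by
  obtain ⟨y, hy⟩ := cyc_sum' N (Fs dg a g T₁ t (Psi dg c (k + 1)))
    (Fs_rot' dg a hp hnt hg hN h12 h21 ht hcen hth (k + 1))
    ((nsmulAddMonoidHom (α := M) N).range) (fun w d q hdq hw => by
      obtain ⟨y, hy⟩ := Fs_div dg a hp hnt hg hN ht (T₁ := T₁) (c := c) k w d q hdq hw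
      exact ⟨y, hy.symm⟩)
  exact ⟨y, hy.symm⟩

end total

end Pool.Agent.W647.HW1
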