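import Pool.Agent.W647.HW5

/-!
# Independence of the choices and the value of the total weight
-/

set_option autoImplicit false
set_option linter.unusedSectionVars false

namespace Pool.Agent.W647.HW1

open Finset Pool.Agent.W647.HV1 Pool.Agent.H23R2 Pool.Agent.H23R2.Cyc

section conv

variable {N : ℕ} [NeZero N]

lemma fz_bij : Function.Bijective (fun i : Fin N => ((i : ℕ) : ZMod N)) := by
  rw [Fintype.bijective_iff_injective_and_card]
  refine ⟨fun i j h => ?_, by rw [Fintype.card_fin, ZMod.card]⟩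
  have h' : ((i : ℕ) : ZMod N) = ((j : ℕ) : ZMod N) := h
  rw [ZMod.natCast_eq_natCast_iff'] at h'
  rw [Nat.mod_eq_of_lt i.isLt, Nat.mod_eq_of_lt j.isLt] at h'
  exact Fin.ext h'

variable (N) in
/-- the bijection -/
noncomputable def fz : Fin N ≃ ZMod N := Equiv.ofBijective _ fz_bij

lemma fz_apply (i : Fin N) : fz N i = ((i : ℕ) : ZMod N) := rfl

/-- transfer of sequences -/
noncomputable def tz {B : Type*} (w : Fin N → B) : ZMod N → B := fun i => w ((fz N).symm i)

lemma tz_cast {B : Type*} (w : Fin N → B) (i : Fin N) : tz w ((i : ℕ) : ZMod N) = w i := by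
  rw [tz, ← fz_apply, Equiv.symm_apply_apply]

lemma sum_tz {B M : Type*} [Fintype B] [AddCommMonoid M] (F : (ZMod N → B) → M) :
    ∑ w, F w = ∑ w : Fin N → B, F (tz w) := by
  classical
  exact ((Equiv.arrowCongr (fz N) (Equiv.refl B)).sum_comp F).symm

lemma Wl_tz {S : Type*} (w : Fin N → S × S) : Wl (tz w) = pl (List.ofFn w) := by
  rw [Wl, PW_eq_ofFn]
  congr 2
  funext i
  exact tz_cast w i

end conv

section total

variable {S : Type*} [Fintype S] {N : ℕ} [NeZero N] {G : Type*} [Group G] {g : G} {A : Type*}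
  [Ring A] (dg : S → G) (a : S → A) {M : Type*} [AddCommGroup M]

open Classical in
lemma Sk_eq (k : ℕ) (h : G) (κ : Fin N → G) :
    Sk dg a g k h (List.ofFn κ) = ∑ w : Fin N → S × S, if (fun i => pr dg (w i)) = κ then
      sm g (co a (pl (List.ofFn w))) * Lop A g h ((pl (List.ofFn w)).map dg) ^ k else 0 := by
  have h1 : ∀ (N' : ℕ) (κ' : List G), κ'.length = N' → Sk dg a g k h κ' =
      ∑ w : Fin N' → S × S, if (List.ofFn w).map (pr dg) = κ' then
      sm g (co a (pl (List.ofFn w))) * Lop A g h ((pl (List.ofFn w)).map dg) ^ k else 0 := by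
    intro N' κ' hκ
    subst hκ
    rfl
  rw [h1 N _ (List.length_ofFn)]
  refine Finset.sum_congr rfl fun w _ => ?_
  have h2 : (List.ofFn w).map (pr dg) = List.ofFn κ ↔ (fun i => pr dg (w i)) = κ := by
    rw [List.map_ofFn, List.ofFn_inj]
    rfl
  simp only [h2]

lemma prod_pl {S : Type*} (dg : S → G) (l : List (S × S)) :
    ((pl l).map dg).prod = (l.map (pr dg)).prod := by
  induction l with
  | nil => rfl
  | cons s l ih => rw [pl_cons, List.map_cons, List.map_cons, List.prod_cons, List.prod_cons, ih,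
      List.map_cons, List.prod_cons, pr, mul_assoc]

/-- **Independence of the choice of the even vertex** -/
theorem sum_PsA (he : el dg a * el dg a = 1) (T : A →+ M) {t : G → G}
    (ht : ∀ y, IsConj y g → t y * y * (t y)⁻¹ = g) (c : V g A) (k : ℕ) :
    ∑ w : ZMod N → S × S, Fs dg a g T t (PsA dg c (k + 1)) w = 0 := by
  classical
  rw [sum_tz]
  let θ : G → (Fin N → G) → G := fun h κ => Xc g N (fun j => h * mpr (tz κ) 0 j)
  have h1 : ∀ w : Fin N → S × S, Fs dg a g T t (PsA dg c (k + 1)) (tz w) =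
      ∑ κ ∈ ((univ : Finset (Fin N → S × S)).image fun w => fun i => pr dg (w i)).filter
        (fun κ => IsConj (List.ofFn κ).prod g),
        if (fun i => pr dg (w i)) = κ then T (co a (pl (List.ofFn w)) *
          ev ((Lop A g (t (List.ofFn κ).prod) ((pl (List.ofFn w)).map dg) ^ (k + 1))
            (x (θ (t (List.ofFn κ).prod) κ) (x (t (List.ofFn κ).prod) c))) []) else 0 := by
    intro w
    have e1 : ((Wl (tz w)).map dg).prod = (List.ofFn fun i => pr dg (w i)).prod := by
      rw [Wl_tz, prod_pl, List.map_ofFn]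
      rfl
    rw [Finset.sum_ite_eq, Fs, e1]
    by_cases h2 : IsConj (List.ofFn fun i => pr dg (w i)).prod g
    · rw [if_pos h2, if_pos]
      · rw [PsA, Kf, Wl_tz]
        rfl
      · exact mem_filter.2 ⟨mem_image_of_mem (fun w : Fin N → S × S => fun i => pr dg (w i))
          (mem_univ w), h2⟩
    · rw [if_neg h2, if_neg]
      exact fun h3 => h2 (mem_filter.1 h3).2
  rw [Finset.sum_congr rfl fun w _ => h1 w, Finset.sum_comm]
  refine Finset.sum_eq_zero fun κ hκ => ?_
  have hκg := (mem_filter.1 hκ).2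
  set h := t (List.ofFn κ).prod with hh
  have h2 : h * (List.ofFn κ).prod = g * h := mul_inv_eq_iff_eq_mul.1 (ht _ hκg)
  have h3 := Sk_closed (g := g) dg a he (List.ofFn κ) k h (by rw [h2, x_inv])
  rw [Sk_eq] at h3
  have h4 : T (ev ((∑ w : Fin N → S × S, (if (fun i => pr dg (w i)) = κ then
      sm g (co a (pl (List.ofFn w))) * Lop A g h ((pl (List.ofFn w)).map dg) ^ (k + 1) else 0) :
        AddMonoid.End (V g A)) (x (θ h κ) (x h c))) []) =
      T (ev ((0 : AddMonoid.End (V g A)) (x (θ h κ) (x h c))) []) := by rw [h3]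
  have h5 : T (ev ((0 : AddMonoid.End (V g A)) (x (θ h κ) (x h c))) []) = 0 := map_zero T
  refine Eq.trans ?_ (h4.trans h5)
  have h6 : (∑ w : Fin N → S × S, (if (fun i => pr dg (w i)) = κ then
      sm g (co a (pl (List.ofFn w))) * Lop A g h ((pl (List.ofFn w)).map dg) ^ (k + 1) else 0) :
        AddMonoid.End (V g A)) (x (θ h κ) (x h c)) =
      ∑ w : Fin N → S × S, (if (fun i => pr dg (w i)) = κ then
      sm g (co a (pl (List.ofFn w))) * Lop A g h ((pl (List.ofFn w)).map dg) ^ (k + 1) else 0 :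
        AddMonoid.End (V g A)) (x (θ h κ) (x h c)) := by
    induction (univ : Finset (Fin N → S × S)) using Finset.induction_on with
    | empty => rfl
    | insert s W hs ih =>
      rw [Finset.sum_insert hs, Finset.sum_insert hs, ← ih]
      rfl
  rw [h6, ← evHom_apply, map_sum, map_sum]
  refine Finset.sum_congr rfl fun w _ => ?_
  split_ifs
  · rfl
  · exact (map_zero T).symm

variable {p : ℕ} (hp : p.Prime) (hnt : ∀ y : G, orderOf y ≠ p) (hg : IsOfFinOrder g) {m : ℕ}
  (hN : N = p ^ m) {T₁ T₂ : A →+ M} (h12 : ∀ s m, T₁ (a s * m) = T₂ (m * a s))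
  {t : G → G}
  (ht : ∀ y, IsConj y g → t y * y * (t y)⁻¹ = g) {c : V g A} (hcen : c ∈ Cen g A)
  (hD : ∀ m, D m (ev c) = 0) (hth : ∀ z (hz : z * g = g * z), th z hz c = c)

include hp hnt hg hN h12 ht hcen hth in
/-- **Independence of the choice of the odd vertex** -/
theorem sum_PsB (he : el dg a * el dg a = 1) (k : ℕ) :
    ∑ w : ZMod N → S × S, Fs dg a g T₁ t (PsB dg c (k + 1)) w = 0 := by
  have h1 : ∀ w : ZMod N → S × S, Fs dg a g T₁ t (PsB dg c (k + 1)) w =
      - Fs dg a g T₂ t (PsA dg c (k + 1)) (hr w) := by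
    intro w
    rw [← Fs_neg]
    exact Fs_half dg a h12 ht _ _ (PsB_cen dg c hcen (k + 1))
      (fun h w z hc hz => PsB_half dg hp hnt hg hN c hth (k + 1) h w z hc hz) w
  rw [Finset.sum_congr rfl fun w _ => h1 w, Finset.sum_neg_distrib]
  have h2 : ∑ w : ZMod N → S × S, Fs dg a g T₂ t (PsA dg c (k + 1)) (hr w) =
      ∑ w : ZMod N → S × S, Fs dg a g T₂ t (PsA dg c (k + 1)) w :=
    (hrE S N).sum_comp (fun w => Fs dg a g T₂ t (PsA dg c (k + 1)) w)
  rw [h2, sum_PsA dg a he T₂ ht c k, neg_zero]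

include hp hnt hg hN h12 ht hcen hD hth in
theorem sum_Psi_eq (he : el dg a * el dg a = 1) (k : ℕ) :
    ∑ w : ZMod N → S × S, Fs dg a g T₁ t (Psi dg c (k + 1)) w =
      ∑ w : ZMod N → S × S, Fs dg a g T₁ t (Ps1 dg c (k + 1)) w := by
  have h1 : ∀ w : ZMod N → S × S, Fs dg a g T₁ t (Psi dg c (k + 1)) w =
      Fs dg a g T₁ t (PsA dg c (k + 1)) w + Fs dg a g T₁ t (Ps1 dg c (k + 1)) w +
      Fs dg a g T₁ t (PsB dg c (k + 1)) w := by
    intro w
    rw [← Fs_add, ← Fs_add]
    exact Fs_congr dg a T₁ ht _ _ (fun h w hc => Psi_split dg c hD (k + 1) h w hc) w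
  rw [Finset.sum_congr rfl fun w _ => h1 w, Finset.sum_add_distrib, Finset.sum_add_distrib,
    sum_PsA dg a he T₁ ht c k, sum_PsB dg a hp hnt hg hN h12 ht hcen hth he k, zero_add, add_zero]

end total

section value

variable {S : Type*} [Fintype S] {G : Type*} [Group G] {g : G} {A : Type*}
  [Ring A] (dg : S → G) (a : S → A) {M : Type*} [AddCommGroup M]

open Classical in
/-- the term of the odd Chern character at a closed word -/
noncomputable def PhiV (T : A →+ M) (c : V g A) (t : G → G) (l : List S) : M :=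
  if IsConj (l.map dg).prod g then
    T (co a l * ev (Xv A g (t (l.map dg).prod) (l.map dg) c) [])
  else 0

lemma fd_ofFn (N : ℕ) (w : Fin (N + 1) → S × S) : fd dg (List.ofFn w) = dg (w 0).1 := by
  rw [List.ofFn_succ, fd]

lemma term_one (T : A →+ M) (c : V g A) (h₀ y : G) (hy : h₀ * y * h₀⁻¹ = g) (k N : ℕ) :
    T (ev (∑ w : Fin (N + 1) → S × S, co a (pl (List.ofFn w)) •
      x h₀ (x (h₀ * fd dg (List.ofFn w)) ((Lop A g h₀ ((pl (List.ofFn w)).map dg) ^ k)
        (dl c h₀ (h₀ * ((pl (List.ofFn w)).map dg).prod))))) []) =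
      ∑ w : Fin (N + 1) → S × S,
        (open Classical in if ((pl (List.ofFn w)).map dg).prod = y then
        T (co a (pl (List.ofFn w)) * Kf c h₀ ((pl (List.ofFn w)).map dg) k h₀
          (h₀ * dg (w 0).1)) else 0) := by
  classical
  rw [← evHom_apply, map_sum, map_sum]
  refine Finset.sum_congr rfl fun w _ => ?_
  rw [evHom_apply, ev_smul, Pi.smul_apply, smul_eq_mul]
  split_ifs with h1
  · have h2 : h₀ * ((pl (List.ofFn w)).map dg).prod = g * h₀ := by
      rw [h1, ← hy]; group
    rw [h2]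
    have h3 : dl c h₀ (g * h₀) = c := by rw [dl, if_pos rfl]
    rw [h3, Kf, fd_ofFn]
    have h4 : ∀ b : G, Commute (Lop A g h₀ ((pl (List.ofFn w)).map dg) ^ k) (x b) :=
      fun b => (Lop_comm_x _ _ _).pow_left k
    have h5 : ∀ (b : G) (φ : V g A), x b ((Lop A g h₀ ((pl (List.ofFn w)).map dg) ^ k) φ) =
        (Lop A g h₀ ((pl (List.ofFn w)).map dg) ^ k) (x b φ) :=
      fun b φ => (DFunLike.congr_fun (h4 b).eq φ).symm
    rw [h5, h5]
  · have h2 : h₀ * ((pl (List.ofFn w)).map dg).prod ≠ g * h₀ := by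
      intro h2
      apply h1
      rw [← hy] at h2
      have h3 : h₀ * ((pl (List.ofFn w)).map dg).prod = h₀ * y := by rw [h2]; group
      exact mul_left_cancel h3
    have h3 : dl c h₀ (h₀ * ((pl (List.ofFn w)).map dg).prod) = 0 := by rw [dl, if_neg h2]
    rw [h3, map_zero, map_zero, map_zero, ev_zero, Pi.zero_apply, mul_zero, map_zero]

lemma term_V (T : A →+ M) (c : V g A) (h₀ y : G) (hy : h₀ * y * h₀⁻¹ = g) (n : ℕ) :
    T (ev (∑ w : Fin n → S, co a (List.ofFn w) •
          (Xv A g h₀ ((List.ofFn w).map dg)) (dl c h₀ (h₀ * ((List.ofFn w).map dg).prod))) []) =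
      ∑ w : Fin n → S, (open Classical in if ((List.ofFn w).map dg).prod = y then
        T (co a (List.ofFn w) * ev (Xv A g h₀ ((List.ofFn w).map dg) c) []) else 0) := by
  classical
  rw [← evHom_apply, map_sum, map_sum]
  refine Finset.sum_congr rfl fun w _ => ?_
  rw [evHom_apply, ev_smul, Pi.smul_apply, smul_eq_mul]
  split_ifs with h1
  · have h2 : h₀ * ((List.ofFn w).map dg).prod = g * h₀ := by
      rw [h1, ← hy]; group
    rw [h2]
    have h3 : dl c h₀ (g * h₀) = c := by rw [dl, if_pos rfl]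
    rw [h3]
  · have h2 : h₀ * ((List.ofFn w).map dg).prod ≠ g * h₀ := by
      intro h2
      apply h1
      rw [← hy] at h2
      have h3 : h₀ * ((List.ofFn w).map dg).prod = h₀ * y := by rw [h2]; group
      exact mul_left_cancel h3
    have h3 : dl c h₀ (h₀ * ((List.ofFn w).map dg).prod) = 0 := by rw [dl, if_neg h2]
    rw [h3, map_zero, ev_zero, Pi.zero_apply, mul_zero, map_zero]

theorem sum_Ps1 (he : el dg a * el dg a = 1) (T : A →+ M) {t : G → G}
    (ht : ∀ y, IsConj y g → t y * y * (t y)⁻¹ = g) (c : V g A) (N k : ℕ) :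
    ∑ w : ZMod (N + 1) → S × S, Fs dg a g T t (Ps1 dg c k) w = N.descFactorial k •
      ∑ w : Fin (2 * k + 2) → S, PhiV dg a T c t (List.ofFn w) := by
  classical
  rw [sum_tz]
  let Y : Finset G := (((univ : Finset (Fin (N + 1) → S × S)).image
    fun w => ((pl (List.ofFn w)).map dg).prod) ∪ ((univ : Finset (Fin (2 * k + 2) → S)).image
    fun w => ((List.ofFn w).map dg).prod)).filter fun y => IsConj y g
  have hYg : ∀ y ∈ Y, IsConj y g := fun y hy => (mem_filter.1 hy).2
  have h1 : ∑ w : Fin (N + 1) → S × S, Fs dg a g T t (Ps1 dg c k) (tz w) =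
      ∑ w : Fin (N + 1) → S × S, ∑ y ∈ Y, if ((pl (List.ofFn w)).map dg).prod = y then
        T (co a (pl (List.ofFn w)) * Kf c (t y) ((pl (List.ofFn w)).map dg) k (t y)
          (t y * dg (w 0).1)) else 0 := by
    refine Finset.sum_congr rfl fun w _ => ?_
    have e1 : tz w 0 = w 0 := by
      have := tz_cast w 0
      simpa using this
    rw [Finset.sum_ite_eq, Fs, Wl_tz, Ps1, Wl_tz, e1]
    by_cases h2 : IsConj ((pl (List.ofFn w)).map dg).prod g
    · rw [if_pos h2, if_pos]
      exact mem_filter.2 ⟨mem_union_left _ (mem_image_of_mem (fun w : Fin (N + 1) → S × S =>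
        ((pl (List.ofFn w)).map dg).prod) (mem_univ w)), h2⟩
    · rw [if_neg h2, if_neg]
      exact fun h3 => h2 (hYg _ h3)
  have h1' : ∑ w : Fin (2 * k + 2) → S, PhiV dg a T c t (List.ofFn w) =
      ∑ w : Fin (2 * k + 2) → S, ∑ y ∈ Y, if ((List.ofFn w).map dg).prod = y then
        T (co a (List.ofFn w) * ev (Xv A g (t y) ((List.ofFn w).map dg) c) []) else 0 := by
    refine Finset.sum_congr rfl fun w _ => ?_
    rw [Finset.sum_ite_eq, PhiV]
    by_cases h2 : IsConj ((List.ofFn w).map dg).prod g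
    · rw [if_pos h2, if_pos]
      exact mem_filter.2 ⟨mem_union_right _ (mem_image_of_mem (fun w : Fin (2 * k + 2) → S =>
        ((List.ofFn w).map dg).prod) (mem_univ w)), h2⟩
    · rw [if_neg h2, if_neg]
      exact fun h3 => h2 (hYg _ h3)
  rw [h1, h1', Finset.sum_comm, Finset.sum_comm (s := (univ : Finset (Fin (2 * k + 2) → S))),
    Finset.smul_sum]
  refine Finset.sum_congr rfl fun y hy => ?_
  have h2 := ht y (hYg y hy)
  rw [← term_one dg a T c (t y) y h2, ← term_V dg a T c (t y) y h2, ident_one dg a he, ← map_nsmul]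
  rfl

end value

end Pool.Agent.W647.HW1
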