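import Pool.Agent.W647.HW6
import Pool.Agent.W647.HV8

/-!
# Divisibility of the odd Chern character
-/

set_option autoImplicit false
set_option linter.unusedSectionVars false

namespace Pool.Agent.W647.HW1

open Finset Pool.Agent.W647.HV1 Pool.Agent.H23R2 Pool.Agent.H23R2.Cyc

section dvd

lemma desc_mod2 (k n : ℕ) (hk : k ≤ n) :
    ∃ t : ℤ, ((k.factorial : ℕ) : ℤ) = (-1) ^ k * (n.descFactorial k : ℤ) + ((n + 1 : ℕ) : ℤ) * t := by
  have h1 : (n.descFactorial k : ℤ) = ∏ i ∈ range k, (((n + 1 : ℕ) : ℤ) - (1 + i)) := by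
    rw [Nat.descFactorial_eq_prod_range, Nat.cast_prod]
    refine Finset.prod_congr rfl fun i hi => ?_
    rw [mem_range] at hi
    rw [Nat.cast_sub (by omega)]
    push_cast
    ring
  have h2 : ((k.factorial : ℕ) : ℤ) = ∏ i ∈ range k, ((1 : ℤ) + i) := by
    rw [← Finset.prod_range_add_one_eq_factorial, Nat.cast_prod]
    refine Finset.prod_congr rfl fun i hi => ?_
    push_cast
    ring
  have h3 : ∀ j, ∃ t : ℤ, ∏ i ∈ range j, ((1 : ℤ) + i) =
      (-1) ^ j * ∏ i ∈ range j, (((n + 1 : ℕ) : ℤ) - (1 + i)) + ((n + 1 : ℕ) : ℤ) * t := by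
    intro j
    induction j with
    | zero => exact ⟨0, by simp⟩
    | succ j ih =>
      obtain ⟨t, ht⟩ := ih
      refine ⟨(-1) ^ j * ∏ i ∈ range j, (((n + 1 : ℕ) : ℤ) - (1 + i)) + ((1 : ℤ) + j) * t, ?_⟩
      rw [Finset.prod_range_succ, Finset.prod_range_succ, ht]
      ring
  obtain ⟨t, ht⟩ := h3 k
  exact ⟨t, by rw [h1, h2, ht]⟩

variable {S : Type*} [Fintype S] {G : Type*} [Group G] {g : G} {A : Type*}
  [Ring A] (dg : S → G) (a : S → A) {M : Type*} [AddCommGroup M]
  {T₁ T₂ : A →+ M} (h12 : ∀ s m, T₁ (a s * m) = T₂ (m * a s))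
  (h21 : ∀ s m, T₂ (a s * m) = T₁ (m * a s))
  {t : G → G} (ht : ∀ y, IsConj y g → t y * y * (t y)⁻¹ = g) {c : V g A} (hcen : c ∈ Cen g A)
  (hD : ∀ m, D m (ev c) = 0) (hth : ∀ z (hz : z * g = g * z), th z hz c = c)

include h12 h21 ht hcen hD hth in
theorem odd_prime {p : ℕ} (hp : p.Prime) (hnt : ∀ y : G, orderOf y ≠ p) (hg : IsOfFinOrder g)
    (he : el dg a * el dg a = 1) (k m : ℕ) :
    ∃ y : M, (k + 1).factorial • ∑ w : Fin (2 * (k + 1) + 2) → S, PhiV dg a T₁ c t (List.ofFn w) =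
      p ^ m • y := by
  obtain ⟨n, hn⟩ : ∃ n, n + 1 = p ^ (m + (k + 1)) :=
    ⟨p ^ (m + (k + 1)) - 1, Nat.sub_add_cancel (Nat.one_le_pow _ _ hp.pos)⟩
  have hkn : k + 1 ≤ n := by
    have h1 : k + 1 < p ^ (k + 1) := Nat.lt_pow_self hp.one_lt
    have h2 : p ^ (k + 1) ≤ p ^ (m + (k + 1)) := Nat.pow_le_pow_right hp.pos (by omega)
    omega
  obtain ⟨y, hy⟩ := sum_Psi_mem (N := n + 1) dg a hp hnt hg hn h12 h21 ht hcen hth k
  rw [sum_Psi_eq dg a hp hnt hg hn h12 ht hcen hD hth he k, sum_Ps1 dg a he T₁ ht c n (k + 1)] at hy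
  set Z := ∑ w : Fin (2 * (k + 1) + 2) → S, PhiV dg a T₁ c t (List.ofFn w) with hZ
  obtain ⟨s, hs⟩ := desc_mod2 (k + 1) n hkn
  refine ⟨(-1 : ℤ) ^ (k + 1) • (p ^ (k + 1) • y) + s • (p ^ (k + 1) • Z), ?_⟩
  rw [← natCast_zsmul, hs, add_smul, mul_smul, natCast_zsmul, hy, smul_add, hn]
  congr 1
  · rw [pow_add p m (k + 1), mul_smul, smul_comm]
  · rw [mul_smul, smul_comm, natCast_zsmul, smul_comm (p ^ m) s]
    congr 1
    rw [smul_smul, ← pow_add]

lemma dvd_all {Z : M} (h : ∀ p : ℕ, p.Prime → ∀ m : ℕ, ∃ y : M, Z = p ^ m • y) (N : ℕ)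
    (hN : N ≠ 0) : ∃ y : M, Z = N • y := by
  induction N using Nat.recOnPosPrimePosCoprime with
  | prime_pow p m hp hm => exact h p hp m
  | zero => exact absurd rfl hN
  | one => exact ⟨Z, by rw [one_smul]⟩
  | coprime a b ha hb hab iha ihb =>
    obtain ⟨y, hy⟩ := iha (by omega)
    obtain ⟨y', hy'⟩ := ihb (by omega)
    have h1 := Nat.gcd_eq_gcd_ab a b
    rw [hab] at h1
    refine ⟨Nat.gcdA a b • y' + Nat.gcdB a b • y, ?_⟩
    have h3 : ((a : ℤ) * (Nat.gcdA a b) + (b : ℤ) * (Nat.gcdB a b)) • Z = Z := by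
      rw [← h1, Nat.cast_one, one_smul]
    rw [← h3, add_smul, smul_add]
    congr 1
    · conv_lhs => rw [hy']
      rw [mul_smul, natCast_zsmul, smul_comm (Nat.gcdA a b) b y', smul_smul, smul_comm]
    · conv_lhs => rw [hy]
      rw [mul_smul, natCast_zsmul, smul_comm (Nat.gcdB a b) a y, smul_smul, mul_comm b a]

end dvd

section verts

variable {G : Type*} [Group G] {g : G} {A : Type*} [Ring A]

/-- the vertices of a path without the last one -/
def vs : G → List G → List G
  | _, [] => []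
  | h, s :: l => h :: vs (h * s) l

lemma ev_Xv (h : G) (l : List G) (φ : V g A) (l' : List G) :
    ev (Xv A g h l φ) l' = ev φ ((vs h l).reverse ++ l') := by
  induction l generalizing h l' with
  | nil => rfl
  | cons s l ih =>
    show ev (Xv A g (h * s) l φ) (h :: l') = _
    rw [ih, vs, List.reverse_cons, List.append_assoc]
    rfl

lemma vs_length (h : G) (l : List G) : (vs h l).length = l.length := by
  induction l generalizing h with
  | nil => rfl
  | cons s l ih => rw [vs, List.length_cons, List.length_cons, ih]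

lemma vs_get (h : G) (l : List G) (i : ℕ) (hi : i < l.length) :
    (vs h l).getD i 1 = h * (l.take i).prod := by
  induction l generalizing h i with
  | nil => simp at hi
  | cons s l ih =>
    rw [vs]
    cases i with
    | zero => simp
    | succ i =>
      rw [List.getD_cons_succ, ih, List.take_succ_cons, List.prod_cons, mul_assoc]
      simpa using hi

/-- the value of the cochain on a path -/
lemma ev_path {n : ℕ} {c : (Fin (n + 1) → G) → A} (hc : IsClassCocycle g c)
    (h : G) (l : List G) (hl : l.length = n + 1) :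
    ev (Xv A g h l (lV hc)) [] =
      ((Equiv.Perm.sign (Fin.revPerm : Equiv.Perm (Fin (n + 1))) : ℤˣ) : ℤ) •
        c (fun i => h * (l.take i).prod) := by
  rw [ev_Xv, List.append_nil, ev_lV, lc, if_pos (by rw [List.length_reverse, vs_length, hl]),
    ← hc.perm]
  congr 1
  funext j
  have hlen : (vs h l).length = n + 1 := by rw [vs_length, hl]
  have := j.isLt
  rw [Function.comp_apply, vec]
  simp only [List.getD_eq_getElem?_getD]
  rw [List.getElem?_reverse (by rw [hlen]; exact j.isLt), hlen,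
    ← List.getD_eq_getElem?_getD, vs_get _ _ _ (by rw [hl]; omega), Fin.revPerm_apply]
  congr 3
  rw [Fin.val_rev]
  omega

end verts

section pack

variable {G : Type*} [Group G] {R : Type*} [Ring R] {d : Type*} [Fintype d] [DecidableEq d]
  {M : Type*} [AddCommGroup M]

/-- the product `v_{s₀} u_{s₁} v_{s₂} ⋯` of matrices of coefficients -/
noncomputable def altProd (v u : Matrix d d (MonoidAlgebra R G)) : List G → Matrix d d R
  | [] => 1
  | s :: l => cm v s * altProd u v l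

/-- the involution -/
noncomputable def inv2 (v u : Matrix d d (MonoidAlgebra R G)) : Matrix (d ⊕ d) (d ⊕ d) (MonoidAlgebra R G) :=
  Matrix.fromBlocks 0 v u 0

lemma cm_inv2 (v u : Matrix d d (MonoidAlgebra R G)) (s : G) :
    cm (inv2 v u) s = Matrix.fromBlocks 0 (cm v s) (cm u s) 0 := by
  ext i j
  rcases i with i | i <;> rcases j with j | j <;> simp [cm, inv2]

lemma inv2_sq (v u : Matrix d d (MonoidAlgebra R G)) (hvu : v * u = 1) (huv : u * v = 1) :
    inv2 v u * inv2 v u = 1 := by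
  rw [inv2, Matrix.fromBlocks_multiply]
  simp [hvu, huv]

lemma prod_inv2 (v u : Matrix d d (MonoidAlgebra R G)) (l : List G) :
    (l.map fun s => cm (inv2 v u) s).prod = if Even l.length then
      Matrix.fromBlocks (altProd v u l) 0 0 (altProd u v l) else
      Matrix.fromBlocks 0 (altProd v u l) (altProd u v l) 0 := by
  induction l with
  | nil => simp [altProd]
  | cons s l ih =>
    rw [List.map_cons, List.prod_cons, ih, cm_inv2, List.length_cons]
    by_cases h : Even l.length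
    · rw [if_pos h, if_neg (by rw [Nat.even_add_one]; exact not_not.2 h),
        Matrix.fromBlocks_multiply]
      simp [altProd]
    · rw [if_neg h, if_pos (by rw [Nat.even_add_one]; exact h), Matrix.fromBlocks_multiply]
      simp [altProd]

/-- the two traces -/
def tr1 (d : Type*) [Fintype d] (T : R →+ M) : Matrix (d ⊕ d) (d ⊕ d) R →+ M where
  toFun X := T X.toBlocks₁₁.trace
  map_zero' := by simp [Matrix.toBlocks₁₁, Matrix.trace]
  map_add' X Y := by
    rw [← map_add, ← Matrix.trace_add]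
    rfl

/-- the two traces -/
def tr2 (d : Type*) [Fintype d] (T : R →+ M) : Matrix (d ⊕ d) (d ⊕ d) R →+ M where
  toFun X := T X.toBlocks₂₂.trace
  map_zero' := by simp [Matrix.toBlocks₂₂, Matrix.trace]
  map_add' X Y := by
    rw [← map_add, ← Matrix.trace_add]
    rfl

lemma tr_12 (T : R →+ M) (hT : ∀ a b, T (a * b) = T (b * a)) (v u : Matrix d d (MonoidAlgebra R G))
    (s : G) (X : Matrix (d ⊕ d) (d ⊕ d) R) :
    tr1 d T (cm (inv2 v u) s * X) = tr2 d T (X * cm (inv2 v u) s) := by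
  show T (cm (inv2 v u) s * X).toBlocks₁₁.trace = T (X * cm (inv2 v u) s).toBlocks₂₂.trace
  obtain ⟨X1, X2, X3, X4, rfl⟩ : ∃ X1 X2 X3 X4, X = Matrix.fromBlocks X1 X2 X3 X4 :=
    ⟨_, _, _, _, (Matrix.fromBlocks_toBlocks X).symm⟩
  rw [cm_inv2, Matrix.fromBlocks_multiply, Matrix.fromBlocks_multiply,
    Matrix.toBlocks_fromBlocks₁₁, Matrix.toBlocks_fromBlocks₂₂, zero_mul, zero_add, mul_zero,
    add_zero]
  exact mT_comm T hT _ _

lemma tr_21 (T : R →+ M) (hT : ∀ a b, T (a * b) = T (b * a)) (v u : Matrix d d (MonoidAlgebra R G))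
    (s : G) (X : Matrix (d ⊕ d) (d ⊕ d) R) :
    tr2 d T (cm (inv2 v u) s * X) = tr1 d T (X * cm (inv2 v u) s) := by
  show T (cm (inv2 v u) s * X).toBlocks₂₂.trace = T (X * cm (inv2 v u) s).toBlocks₁₁.trace
  obtain ⟨X1, X2, X3, X4, rfl⟩ : ∃ X1 X2 X3 X4, X = Matrix.fromBlocks X1 X2 X3 X4 :=
    ⟨_, _, _, _, (Matrix.fromBlocks_toBlocks X).symm⟩
  rw [cm_inv2, Matrix.fromBlocks_multiply, Matrix.fromBlocks_multiply,
    Matrix.toBlocks_fromBlocks₁₁, Matrix.toBlocks_fromBlocks₂₂, zero_mul, add_zero, mul_zero,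
    zero_add]
  exact mT_comm T hT _ _

end pack

end Pool.Agent.W647.HW1
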