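import Pool.Agent.H23R2.Ch.Cycle2
import Pool.Agent.H290R4.ChernZ
import Pool.Agent.H71R2.Idem.Frob
import Pool.Agent.H26R2.IdemLI.Cls

/-!
# Traces of lifted idempotents over commutative domains of characteristic zero

Naturality in the coefficient ring, the vanishing theorem over a field of characteristic `p` at a
single conjugacy class, and specialisation.
-/

set_option autoImplicit false
set_option linter.unusedSectionVars false

namespace Pool.Agent.W647.K1

open Finset Pool.Agent.H23R2 Pool.Agent.H23R2.Ch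
open Pool.Agent.H26R2.IdemLI (AlmostDiv almostDiv_of_primes)
open scoped Pointwise

section nat

variable {S S' : Type*} [CommRing S] [CommRing S'] {F : Type*} [Monoid F]
  {d : Type*} [Fintype d] [DecidableEq d] {G : Type*} [Group G]

/-- change of coefficients -/
noncomputable def mp (F : Type*) [Monoid F] (ψ : S →+* S') :
    MonoidAlgebra S F →+* MonoidAlgebra S' F := MonoidAlgebra.mapRingHom F ψ

lemma mp_single (ψ : S →+* S') (f : F) (a : S) :
    mp F ψ (MonoidAlgebra.single f a) = MonoidAlgebra.single f (ψ a) := by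
  simp [mp]

lemma mp_coeff (ψ : S →+* S') (x : MonoidAlgebra S F) (f : F) :
    (mp F ψ x).coeff f = ψ (x.coeff f) := by
  simp [mp]

lemma mp_inj (ψ : S →+* S') (hψ : Function.Injective ψ) : Function.Injective (mp F ψ) := by
  intro x y h
  apply MonoidAlgebra.coeff_injective
  ext f
  apply hψ
  rw [← mp_coeff, ← mp_coeff, h]

lemma ex_mp (ψ : S →+* S') (Φ : F → S) (x : MonoidAlgebra S F) :
    ex (fun f => ψ (Φ f)) (mp F ψ x) = ψ (ex Φ x) := by
  induction x using MonoidAlgebra.induction_linear with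
  | zero => simp
  | add x y hx hy => rw [map_add, map_add, map_add, map_add, hx, hy]
  | single f a =>
    rw [mp_single, ex_single, ex_single, smul_eq_mul, smul_eq_mul, map_mul]

lemma tf_mp (ψ : S →+* S') (Φ : F → S) (X : Matrix d d (MonoidAlgebra S F)) :
    tf (fun f => ψ (Φ f)) (X.map (mp F ψ)) = ψ (tf Φ X) := by
  rw [tf_apply, tf_apply, map_sum]
  exact Finset.sum_congr rfl fun i _ => by rw [Matrix.map_apply, ex_mp]

lemma Dif_image (ψ : S →+* S') (π : F →* G) : (mp F ψ) '' (Dif S π) = Dif S' π := by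
  ext y
  constructor
  · rintro ⟨_, ⟨a, b, hab, rfl⟩, rfl⟩
    exact ⟨a, b, hab, by rw [map_sub, mp_single, mp_single, map_one]⟩
  · rintro ⟨a, b, hab, rfl⟩
    exact ⟨_, ⟨a, b, hab, rfl⟩, by rw [map_sub, mp_single, mp_single, map_one]⟩

lemma Dif_pow_image (ψ : S →+* S') (π : F →* G) (n : ℕ) :
    (mp F ψ) '' ((Dif S π) ^ n) = (Dif S' π) ^ n := by
  rw [← Dif_image ψ π]
  exact Set.image_pow (mp F ψ) _ n

/-- killing powers of the ideal: pushing forward -/
lemma kill_push (ψ : S →+* S') (π : F →* G) (n : ℕ) (Φ : F → S)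
    (hJ : ∀ x ∈ (Idl S π) ^ n, ex Φ x = 0) :
    ∀ x ∈ (Idl S' π) ^ n, ex (fun f => ψ (Φ f)) x = 0 := by
  intro x hx
  unfold Idl at hx
  rw [Submodule.span_pow] at hx
  have h1 : Set.EqOn (ex (k := S') (fun f => ψ (Φ f))) (0 : MonoidAlgebra S' F →ₗ[S'] S')
      ((Dif S' π) ^ n) := by
    intro y hy
    rw [← Dif_pow_image ψ π n] at hy
    obtain ⟨y, hy, rfl⟩ := hy
    rw [ex_mp, hJ, map_zero, LinearMap.zero_apply]
    unfold Idl
    rw [Submodule.span_pow]
    exact Submodule.subset_span hy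
  exact LinearMap.eqOn_span h1 hx

/-- killing powers of the ideal: pulling back along an injection -/
lemma kill_pull (ψ : S →+* S') (hψ : Function.Injective ψ) (π : F →* G) (n : ℕ) (Φ : F → S)
    (hJ : ∀ x ∈ (Idl S' π) ^ n, ex (fun f => ψ (Φ f)) x = 0) :
    ∀ x ∈ (Idl S π) ^ n, ex Φ x = 0 := by
  intro x hx
  unfold Idl at hx
  rw [Submodule.span_pow] at hx
  have h1 : Set.EqOn (ex (k := S) Φ) (0 : MonoidAlgebra S F →ₗ[S] S) ((Dif S π) ^ n) := by
    intro y hy
    apply hψ
    rw [← ex_mp, LinearMap.zero_apply, map_zero]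
    apply hJ
    unfold Idl
    rw [Submodule.span_pow]
    apply Submodule.subset_span
    rw [← Dif_pow_image ψ π n]
    exact ⟨y, hy, rfl⟩
  exact LinearMap.eqOn_span h1 hx

lemma sec_mp (ψ : S →+* S') (x : MonoidAlgebra S G) :
    mp (FreeMonoid G) ψ (sec S G x) = sec S' G (mp G ψ x) := by
  induction x using MonoidAlgebra.induction_linear with
  | zero => simp
  | add x y hx hy => rw [map_add, map_add, map_add, map_add, hx, hy]
  | single f a => rw [sec_single, mp_single, mp_single, sec_single]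

lemma lp_mp (ψ : S →+* S') (n : ℕ) (e : Matrix d d (MonoidAlgebra S G)) :
    (lp n (e.map (sec S G))).map (mp (FreeMonoid G) ψ) =
      lp n ((e.map (mp G ψ)).map (sec S' G)) := by
  have h1 := lp_map (mp (FreeMonoid G) ψ).mapMatrix n (e.map (sec S G))
  rw [RingHom.mapMatrix_apply, RingHom.mapMatrix_apply] at h1
  rw [h1]
  congr 1
  ext1 i j
  rw [Matrix.map_apply, Matrix.map_apply, Matrix.map_apply, Matrix.map_apply, sec_mp]

lemma idem_mp (ψ : S →+* S') (e : Matrix d d (MonoidAlgebra S G)) (he : e * e = e) :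
    e.map (mp G ψ) * e.map (mp G ψ) = e.map (mp G ψ) := by
  have h1 : e.map (mp G ψ) = (mp G ψ).mapMatrix e := rfl
  rw [h1, ← map_mul, he]

/-- the lifted idempotent is idempotent modulo a power of the ideal -/
lemma lifted (n : ℕ) (e : Matrix d d (MonoidAlgebra S G)) (he : e * e = e) (i j : d) :
    (lp n (e.map (sec S G)) * lp n (e.map (sec S G)) - lp n (e.map (sec S G))) i j ∈
      (Idl S (pr G)) ^ (n + 1) := by
  set X0 : Matrix d d (MonoidAlgebra S (FreeMonoid G)) := e.map (sec S G) with hX0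
  set Y : Matrix d d (MonoidAlgebra S (FreeMonoid G)) := X0 - X0 * X0 with hY
  have hYI : ∀ i j, Y i j ∈ Idl S (pr G) := by
    intro i j
    have h1 : Y i j = ∑ l, (sec S G (e i l * e l j) - sec S G (e i l) * sec S G (e l j)) := by
      rw [hY, hX0, Matrix.sub_apply, Matrix.mul_apply, Finset.sum_sub_distrib]
      congr 1
      rw [Matrix.map_apply, ← map_sum, ← Matrix.mul_apply, he]
    rw [h1]
    exact Submodule.sum_mem _ fun l _ => sec_Idl _ _
  have hYpow : ∀ m i j, (Y ^ m) i j ∈ (Idl S (pr G)) ^ m := by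
    intro m
    induction m with
    | zero =>
      intro i j
      rw [pow_zero, pow_zero, Matrix.one_apply]
      split_ifs
      · exact Submodule.one_le.mp le_rfl
      · exact Submodule.zero_mem _
    | succ m ih =>
      intro i j
      rw [pow_succ, pow_succ, Matrix.mul_apply]
      exact Submodule.sum_mem _ fun l _ => Submodule.mul_mem_mul (ih i l) (hYI l j)
  obtain ⟨Q, hQ⟩ := lp_ring n X0
  rw [hQ, Matrix.mul_apply]
  exact Submodule.sum_mem _ fun l _ => mul_mem_Idl_pow (pr G) n _ (hYpow (n + 1) l j)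

end nat

section cls

variable {k : Type*} [Field k] {F : Type*} [Monoid F]
  {d : Type*} [Fintype d] [DecidableEq d] {G : Type*} [Group G]

/-- the class of `g` -/
def cl (g : G) : G → Prop := fun h => ConjClasses.mk h = ConjClasses.mk g

lemma cl_iff (g h : G) : cl g h ↔ IsConj h g := ConjClasses.mk_eq_mk_iff_isConj

lemma cl_comm (g x y : G) : cl g (x * y) ↔ cl g (y * x) := by
  unfold cl
  have h2 : ConjClasses.mk (x * y) = ConjClasses.mk (y * x) := by
    rw [ConjClasses.mk_eq_mk_iff_isConj, isConj_iff]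
    exact ⟨x⁻¹, by group⟩
  rw [h2]

lemma mul_pow_comm {A : Type*} [Ring A] (x y : A) (m : ℕ) :
    (x * y) ^ (m + 1) = x * ((y * x) ^ m * y) := by
  induction m with
  | zero => simp
  | succ m ih => rw [pow_succ, ih, pow_succ (y * x) m]; noncomm_ring

/-- additivity of `x ↦ T (x ^ p ^ K)` in characteristic `p` -/
theorem frob {A : Type*} [Ring A] {p : ℕ} [hp : Fact p.Prime] [CharP k p] (K : ℕ) {ι : Type*}
    (s : Finset ι) (a : ι → A) : ∀ (T : A →+ k) (_ : ∀ x y, T (x * y) = T (y * x)),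
    T ((∑ i ∈ s, a i) ^ p ^ K) = ∑ i ∈ s, T (a i ^ p ^ K) := by
  induction K with
  | zero => intro T _; simp
  | succ K ih =>
    intro T hT
    let T' : A →+ k :=
      { toFun := fun x => T (x ^ p)
        map_zero' := by rw [zero_pow hp.out.ne_zero, map_zero]
        map_add' := Pool.Agent.H71R2.Idem.trace_add_pow p T hT }
    have hT' : ∀ x y, T' (x * y) = T' (y * x) := by
      intro x y
      show T ((x * y) ^ p) = T ((y * x) ^ p)
      obtain ⟨m, hm⟩ : ∃ m, p = m + 1 := ⟨p - 1, by have := hp.out.pos; omega⟩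
      rw [hm, mul_pow_comm, hT, mul_assoc, ← pow_succ]
    have h1 := ih T' hT'
    simp only [pow_succ, pow_mul]
    exact h1

/-- **Vanishing at the class of `1`**, over a field of characteristic `p`. -/
theorem main_one {p : ℕ} [hp : Fact p.Prime] [CharP k p] (π : F →* G) (n : ℕ) (Φ : F → k)
    (hΦ : ∀ x y, Φ (x * y) = Φ (y * x)) (hJ : ∀ x ∈ (Idl k π) ^ (n + 1), ex Φ x = 0)
    (h1 : Φ 1 = 0) (hG : ∀ x : G, x ^ p = 1 → x = 1)
    (X : Matrix d d (MonoidAlgebra k F))
    (hX : ∀ i j, (X * X - X) i j ∈ (Idl k π) ^ (n + 1)) : tf (cut π (cl 1) Φ) X = 0 := by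
  have hΦ' := cut_comm π (cl 1) (cl_comm 1) Φ hΦ
  have hJ' := ex_cut_kill π (cl 1) Φ (n + 1) hJ
  have hXp := tf_pow π n X hX (cut π (cl 1) Φ) hJ'
  have h2 : tf (cut π (cl 1) Φ) X = tf (cut π (cl 1) Φ) (X ^ p ^ (1 + n)) :=
    (hXp _ (pow_ne_zero _ hp.out.ne_zero)).symm
  have h9 := frob (k := k) (A := Matrix d d (MonoidAlgebra k F)) (p := p) (1 + n) univ
    (fun w : {f // f ∈ msupp X} => io (cm X w.1) w.1) (tf (cut π (cl 1) Φ))
    (fun x y => tf_mul_comm _ hΦ' x y)
  rw [h2]
  conv_lhs => rw [eq_sum_io X]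
  rw [h9]
  apply Finset.sum_eq_zero
  intro w _
  rw [io_pow, tf_io]
  suffices h3 : cut π (cl 1) Φ (w.1 ^ p ^ (1 + n)) = 0 by rw [h3, smul_zero]
  by_cases hw : π w.1 = 1
  · obtain ⟨y, hy⟩ := ker_div (p := p) π n _ hJ' (by
      unfold cut
      rw [h1]
      split_ifs <;> rfl) 1 w.1 hw
    rw [← hy, pow_one, nsmul_eq_mul, CharP.cast_eq_zero, zero_mul]
  · have h4 : ¬ cl 1 (π (w.1 ^ p ^ (1 + n))) := by
      intro h3
      rw [cl_iff, isConj_one_left, map_pow] at h3
      have h4 : ∀ t : ℕ, (π w.1) ^ p ^ t = 1 → π w.1 = 1 := by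
        intro t
        induction t with
        | zero => intro h5; simpa using h5
        | succ t ih =>
          intro h5
          rw [pow_succ, pow_mul] at h5
          exact ih (hG _ h5)
      exact hw (h4 _ h3)
    unfold cut
    rw [if_neg h4]

/-- **Conjugate powers**: if the trace at the class of `g` is nonzero, over a field of
characteristic `p`, then `g` is conjugate to `g ^ p ^ j` for some `1 ≤ j ≤ B`. -/
theorem main_conj {p : ℕ} [hp : Fact p.Prime] [CharP k p] (π : F →* G) (n : ℕ) (Φ : F → k)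
    (hΦ : ∀ x y, Φ (x * y) = Φ (y * x)) (hJ : ∀ x ∈ (Idl k π) ^ (n + 1), ex Φ x = 0) (g : G)
    (X : Matrix d d (MonoidAlgebra k F))
    (hX : ∀ i j, (X * X - X) i j ∈ (Idl k π) ^ (n + 1))
    (hne : tf (cut π (cl g) Φ) X ≠ 0) :
    ∃ j, 1 ≤ j ∧ j ≤ (msupp X).card ∧ IsConj g (g ^ p ^ j) := by
  classical
  have hΦ' := cut_comm π (cl g) (cl_comm g) Φ hΦ
  have hJ' := ex_cut_kill π (cl g) Φ (n + 1) hJ
  have hXp := tf_pow π n X hX (cut π (cl g) Φ) hJ'
  have key : ∀ K : ℕ, ∃ w : {f // f ∈ msupp X}, cl g (π (w.1 ^ p ^ K)) := by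
    intro K
    by_contra hcon
    push Not at hcon
    apply hne
    have h2 : tf (cut π (cl g) Φ) X = tf (cut π (cl g) Φ) (X ^ p ^ K) :=
      (hXp _ (pow_ne_zero _ hp.out.ne_zero)).symm
    have h9 := frob (k := k) (A := Matrix d d (MonoidAlgebra k F)) (p := p) K univ
      (fun w : {f // f ∈ msupp X} => io (cm X w.1) w.1) (tf (cut π (cl g) Φ))
      (fun x y => tf_mul_comm _ hΦ' x y)
    rw [h2]
    conv_lhs => rw [eq_sum_io X]
    rw [h9]
    apply Finset.sum_eq_zero
    intro w _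
    rw [io_pow, tf_io]
    have h3 : cut π (cl g) Φ (w.1 ^ p ^ K) = 0 := by
      unfold cut
      rw [if_neg (hcon w)]
    rw [h3, smul_zero]
  choose w hw using key
  obtain ⟨a, ha, b, hb, hab, hwab⟩ := Finset.exists_ne_map_eq_of_card_lt_of_maps_to
    (s := Finset.range ((msupp X).card + 1)) (t := (msupp X).attach) (f := w)
    (by rw [Finset.card_attach, Finset.card_range]; omega) (fun x _ => Finset.mem_attach _ _)
  rw [Finset.mem_range] at ha hb
  have main : ∀ a b : ℕ, a < b → b < (msupp X).card + 1 → w a = w b →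
      ∃ j, 1 ≤ j ∧ j ≤ (msupp X).card ∧ IsConj g (g ^ p ^ j) := by
    intro a b hlt hb hwab
    refine ⟨b - a, by omega, by omega, ?_⟩
    have h1 := (cl_iff _ _).1 (hw a)
    have h2 := (cl_iff _ _).1 (hw b)
    rw [← hwab] at h2
    rw [map_pow] at h1 h2
    have h4 : (π (w a).1) ^ p ^ b = ((π (w a).1) ^ p ^ a) ^ p ^ (b - a) := by
      rw [← pow_mul, ← pow_add]
      congr 2
      omega
    rw [h4] at h2
    exact h2.symm.trans (h1.pow _)
  rcases Nat.lt_or_gt_of_ne hab with h | h
  · exact main a b h hb hwab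
  · exact main b a h ha hwab.symm

lemma cut_ring {S S' : Type*} [CommRing S] [CommRing S'] (ψ : S →+* S') (π : F →* G)
    (c : G → Prop) (Φ : F → S) : cut π c (fun f => ψ (Φ f)) = fun f => ψ (cut π c Φ f) := by
  funext f
  unfold cut
  split_ifs
  · rfl
  · rw [map_zero]

/-- sum over the classes -/
lemma sum_classes {S : Type*} [CommRing S] (π : F →* G) (Φ : F → S)
    (X : Matrix d d (MonoidAlgebra S F)) (h : ∀ g : G, tf (cut π (cl g) Φ) X = 0) :
    tf Φ X = 0 := by
  classical
  let T : Finset (ConjClasses G) := X.trace.coeff.support.image fun f => ConjClasses.mk (π f)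
  have h2 : tf Φ X = ∑ C ∈ T, tf (cut π (fun h => ConjClasses.mk h = C) Φ) X := by
    rw [tf_eq, ex_eq_sum]
    simp only [tf_eq, ex_eq_sum]
    rw [Finset.sum_comm]
    refine Finset.sum_congr rfl fun f hf => ?_
    rw [← Finset.smul_sum]
    congr 1
    unfold cut
    beta_reduce
    rw [Finset.sum_eq_single (ConjClasses.mk (π f)), if_pos rfl]
    · intro C _ hC
      rw [if_neg (Ne.symm hC)]
    · intro hne
      exact absurd (Finset.mem_image_of_mem _ hf) hne
  rw [h2]
  refine Finset.sum_eq_zero fun C _ => ?_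
  obtain ⟨g, rfl⟩ := ConjClasses.exists_rep C
  exact h g

end cls

section spec

universe u

variable {K : Type u} [Field K] [CharZero K]

/-- Specialisations of a finitely generated ring in characteristic `p` which do not kill a given
nonzero element exist for almost all primes `p`. -/
theorem finite_no_hom (s : Finset K) (a : Algebra.adjoin ℤ (s : Set K)) (ha : a ≠ 0) :
    {p : ℕ | p.Prime ∧ ¬ ∃ (E : Type u) (_ : Field E) (_ : CharP E p)
      (φ : Algebra.adjoin ℤ (s : Set K) →+* E), φ a ≠ 0}.Finite := by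
  classical
  have ha0 : (a : K) ≠ 0 := fun h => ha (Subtype.ext h)
  refine (finite_inv_primes (insert (a : K)⁻¹ s)).subset ?_
  rintro p ⟨hp, hno⟩
  refine ⟨hp, ?_⟩
  by_contra hinv
  apply hno
  let R' : Subalgebra ℤ K := Algebra.adjoin ℤ (((insert (a : K)⁻¹ s : Finset K)) : Set K)
  have hle : Algebra.adjoin ℤ (s : Set K) ≤ R' := Algebra.adjoin_mono (by simp)
  have hpR : (p : R') ∈ nonunits R' := by
    intro hu
    apply hinv
    obtain ⟨u, hu⟩ := hu
    have h1 : (p : R') * (u⁻¹ : R'ˣ).val = 1 := by rw [← hu, Units.mul_inv]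
    have h2 : (p : K) * ((u⁻¹ : R'ˣ).val : K) = 1 := by
      have := congrArg Subtype.val h1
      simpa using this
    rw [inv_eq_of_mul_eq_one_right h2]
    exact ((u⁻¹ : R'ˣ).val).2
  obtain ⟨m, hm, hpm⟩ := exists_max_ideal_of_mem_nonunits hpR
  let i1 : Field (R' ⧸ m) := Ideal.Quotient.field m
  have hpz : ((p : ℕ) : R' ⧸ m) = 0 := by
    rw [← map_natCast (Ideal.Quotient.mk m), Ideal.Quotient.eq_zero_iff_mem]
    exact hpm
  have : Fact p.Prime := ⟨hp⟩
  have hchar : CharP (R' ⧸ m) p := (CharP.charP_iff_prime_eq_zero hp).2 hpz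
  refine ⟨R' ⧸ m, i1, hchar, (Ideal.Quotient.mk m).comp (Subalgebra.inclusion hle).toRingHom, ?_⟩
  intro h0
  have h1 : (a : K)⁻¹ ∈ R' := Algebra.subset_adjoin (by simp)
  have h2 : (Subalgebra.inclusion hle a) * (⟨(a : K)⁻¹, h1⟩ : R') = 1 := by
    apply Subtype.ext
    simp [ha0]
  have h3 := congrArg (Ideal.Quotient.mk m) h2
  rw [map_mul, map_one] at h3
  have h4 : (Ideal.Quotient.mk m) (Subalgebra.inclusion hle a) = 0 := h0
  rw [h4, zero_mul] at h3
  exact zero_ne_one h3

variable {G : Type*} [Group G] {d : Type*} [Fintype d] [DecidableEq d]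

/-- lifting coefficients to a subring -/
lemma exists_lift {S : Type*} [CommRing S] (A : Subalgebra ℤ S) (x : MonoidAlgebra S G)
    (hx : ∀ g, x.coeff g ∈ A) : ∃ y : MonoidAlgebra A G, mp G (A.val : A →+* S) y = x := by
  classical
  refine ⟨∑ g ∈ x.coeff.support, MonoidAlgebra.single g ⟨x.coeff g, hx g⟩, ?_⟩
  rw [map_sum]
  apply MonoidAlgebra.coeff_injective
  ext h
  rw [MonoidAlgebra.coeff_sum, Finset.sum_apply']
  by_cases hh : h ∈ x.coeff.support
  · rw [Finset.sum_eq_single h]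
    · rw [mp_single]
      simp
    · intro g _ hgh
      rw [mp_single]
      simp [hgh]
    · intro h'; exact absurd hh h'
  · rw [Finset.sum_eq_zero]
    · by_contra hne
      exact hh (Finsupp.mem_support_iff.mpr (Ne.symm hne))
    · intro g hg
      have : g ≠ h := fun e => hh (e ▸ hg)
      rw [mp_single]
      simp [this]

lemma msupp_mp {S S' : Type*} [CommRing S] [CommRing S'] {F : Type*} [Monoid F]
    (ψ : S →+* S') (X : Matrix d d (MonoidAlgebra S F)) :
    (msupp (X.map (mp F ψ))).card ≤ (msupp X).card := by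
  classical
  apply Finset.card_le_card
  intro f hf
  unfold msupp at hf ⊢
  simp only [Finset.mem_biUnion, Finset.mem_univ, true_and, Finsupp.mem_support_iff,
    Matrix.map_apply, mp_coeff] at hf ⊢
  obtain ⟨i, j, h⟩ := hf
  refine ⟨i, j, fun h0 => h ?_⟩
  rw [h0, map_zero]

/-- **The trace at one conjugacy class over a field of characteristic zero**, for functions with
values in a finitely generated subring: a nonzero value forces `g` to be almost divisible, and
`p`-torsion for almost all `p` if `g = 1`. -/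
theorem core (n : ℕ) (s : Finset K) (Φ : FreeMonoid G → K)
    (hΦ : ∀ x y, Φ (x * y) = Φ (y * x))
    (hJ : ∀ x ∈ (Idl K (pr G)) ^ (n + 1), ex Φ x = 0)
    (hA : ∀ f, Φ f ∈ Algebra.adjoin ℤ (s : Set K)) (g : G)
    (hg : (g = 1 ∧ Φ 1 = 0 ∧ {p : ℕ | p.Prime ∧ ∀ x : G, x ^ p = 1 → x = 1}.Infinite) ∨
      ¬ AlmostDiv g)
    (e : Matrix d d (MonoidAlgebra K G)) (he : e * e = e)
    (hes : ∀ i j g, (e i j).coeff g ∈ Algebra.adjoin ℤ (s : Set K)) :
    tf (cut (pr G) (cl g) Φ) (lp n (e.map (sec K G))) = 0 := by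
  classical
  set A : Subalgebra ℤ K := Algebra.adjoin ℤ (s : Set K) with hAdef
  let ι : A →+* K := (A.val : A →+* K)
  have hι : Function.Injective ι := Subtype.val_injective
  have hlift : ∀ i j, ∃ y : MonoidAlgebra A G, mp G ι y = e i j := fun i j =>
    exists_lift A (e i j) (hes i j)
  choose eA0 heA0 using hlift
  let eA : Matrix d d (MonoidAlgebra A G) := Matrix.of eA0
  have heA : eA.map (mp G ι) = e := by
    ext1 i j
    exact heA0 i j
  have hidA : eA * eA = eA := by
    have h4 : (eA * eA).map (mp G ι) = eA.map (mp G ι) := by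
      rw [Matrix.map_mul, heA, he]
    ext1 a b
    apply mp_inj ι hι
    exact congrFun (congrFun h4 a) b
  let ΦA : FreeMonoid G → A := fun f => ⟨Φ f, hA f⟩
  have hΦA : (fun f => ι (ΦA f)) = Φ := rfl
  have hΦAc : ∀ x y, ΦA (x * y) = ΦA (y * x) := fun x y => Subtype.ext (hΦ x y)
  have hJA : ∀ x ∈ (Idl A (pr G)) ^ (n + 1), ex ΦA x = 0 :=
    kill_pull ι hι (pr G) (n + 1) ΦA hJ
  have hval : tf (cut (pr G) (cl g) Φ) (lp n (e.map (sec K G))) =
      ι (tf (cut (pr G) (cl g) ΦA) (lp n (eA.map (sec A G)))) := by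
    rw [← tf_mp, lp_mp, heA, ← cut_ring]
    rfl
  rw [hval]
  by_contra hne
  have ha : tf (cut (pr G) (cl g) ΦA) (lp n (eA.map (sec A G))) ≠ 0 := by
    intro h0
    apply hne
    rw [h0, map_zero]
  have hfin := finite_no_hom s _ ha
  have hgood : ∀ p : ℕ, p.Prime → p ∉ hfin.toFinset → ∃ (E : Type u) (_ : Field E)
      (_ : CharP E p) (φ : A →+* E),
      φ (tf (cut (pr G) (cl g) ΦA) (lp n (eA.map (sec A G)))) ≠ 0 := by
    intro p hp hpf
    by_contra hcon
    apply hpf
    rw [Set.Finite.mem_toFinset]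
    exact ⟨hp, hcon⟩
  rcases hg with ⟨h1, h2, h3⟩ | h1
  · obtain ⟨p, ⟨hp, hpG⟩, hpf⟩ := h3.exists_notMem_finset hfin.toFinset
    obtain ⟨E, iE, iC, φ, hφ⟩ := hgood p hp hpf
    apply hφ
    have : Fact p.Prime := ⟨hp⟩
    subst h1
    rw [← tf_mp, lp_mp, ← cut_ring]
    refine main_one (p := p) (pr G) n _ (fun x y => by rw [hΦAc]) (kill_push φ (pr G) _ ΦA hJA)
      ?_ hpG _ (lifted n _ (idem_mp φ eA hidA))
    have h5 : ΦA 1 = 0 := Subtype.ext h2
    rw [h5, map_zero]
  · apply h1
    apply almostDiv_of_primes g (∏ p ∈ hfin.toFinset, p) (msupp (lp n (eA.map (sec A G)))).card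
    · rw [Finset.prod_ne_zero_iff]
      intro p hp
      rw [Set.Finite.mem_toFinset] at hp
      exact hp.1.ne_zero
    · intro p hp hpd
      have hpf : p ∉ hfin.toFinset := fun h => hpd (Finset.dvd_prod_of_mem _ h)
      obtain ⟨E, iE, iC, φ, hφ⟩ := hgood p hp hpf
      have : Fact p.Prime := ⟨hp⟩
      rw [← tf_mp, ← cut_ring] at hφ
      obtain ⟨j, hj1, hj2, hj3⟩ := main_conj (p := p) (pr G) n _ (fun x y => by rw [hΦAc])
        (kill_push φ (pr G) _ ΦA hJA) g _ (by
          rw [lp_mp]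
          exact lifted n _ (idem_mp φ eA hidA)) hφ
      exact ⟨j, hj1, hj2.trans (msupp_mp φ _), hj3⟩

end spec

end Pool.Agent.W647.K1
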