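import Pool.Agent.W647.HW7
import Pool.Agent.W647.K1

/-!
# Invertible matrices over group rings
-/

set_option autoImplicit false
set_option linter.unusedSectionVars false

namespace Pool.Agent.W647.HW1

open Finset Pool.Agent.W647.HV1

section matrix

variable {G : Type*} [Group G] {R : Type*} [Ring R] {d : Type*} [Fintype d] [DecidableEq d]
  {M : Type*} [AddCommGroup M]

open Classical in
/-- the value of the `n`-cochain `c` at the class of `g` on the matrix `u` with inverse `v` -/
noncomputable def oddSum (T : R →+ M) (g : G) (t : G → G) {n : ℕ} (c : (Fin (n + 1) → G) → R)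
    (v u : Matrix d d (MonoidAlgebra R G)) : M :=
  ∑ᶠ w : Fin (n + 1) → G, if IsConj (List.ofFn w).prod g then
    T ((altProd v u (List.ofFn w)).trace *
      c (fun i => t (List.ofFn w).prod * ((List.ofFn w).take i).prod)) else 0

lemma tr1_diag (T : R →+ M) (P P' : Matrix d d R) (r : R) :
    tr1 d T (Matrix.fromBlocks P 0 0 P' * Matrix.diagonal fun _ => r) = T (P.trace * r) := by
  show T (Matrix.fromBlocks P 0 0 P' * Matrix.diagonal fun _ => r).toBlocks₁₁.trace = _
  congr 1
  rw [Matrix.trace, Matrix.trace, Finset.sum_mul]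
  refine Finset.sum_congr rfl fun i _ => ?_
  have h1 := Matrix.mul_diagonal (fun _ : d ⊕ d => r) (Matrix.fromBlocks P 0 0 P')
    (Sum.inl i) (Sum.inl i)
  exact h1

lemma oddSum_eq (T : R →+ M) {g : G} {t : G → G}
    {n : ℕ} (hn : Even (n + 1))
    {c : (Fin (n + 1) → G) → R} (hc : IsClassCocycle g c)
    (v u : Matrix d d (MonoidAlgebra R G)) (S : Finset G)
    (hS : ∀ i j, ((inv2 v u) i j).coeff.support ⊆ S) :
    ∑ w : Fin (n + 1) → S, PhiV (fun s : S => (s : G)) (fun s : S => cm (inv2 v u) (s : G))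
      (tr1 d T) (lV (cmat_class (d := d ⊕ d) hc)) t (List.ofFn w) =
    ((Equiv.Perm.sign (Fin.revPerm : Equiv.Perm (Fin (n + 1))) : ℤˣ) : ℤ) •
      oddSum T g t c v u := by
  classical
  have hcm : ∀ s, s ∉ S → cm (inv2 v u) s = 0 := by
    intro s hs
    ext i j
    exact Finsupp.notMem_support_iff.1 fun h => hs (hS i j h)
  have h1 : oddSum T g t c v u = ∑ w ∈ Fintype.piFinset fun _ : Fin (n + 1) => S,
      if IsConj (List.ofFn w).prod g then
        T ((altProd v u (List.ofFn w)).trace *
          c (fun i => t (List.ofFn w).prod * ((List.ofFn w).take i).prod)) else 0 := by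
    rw [oddSum]
    apply finsum_eq_sum_of_support_subset
    intro w hw
    rw [Function.mem_support] at hw
    rw [Finset.mem_coe, Fintype.mem_piFinset]
    by_contra hcon
    push Not at hcon
    obtain ⟨i, hi⟩ := hcon
    apply hw
    have h2 : ((List.ofFn w).map fun s => cm (inv2 v u) s).prod = 0 := by
      apply List.prod_eq_zero
      rw [List.mem_map]
      exact ⟨w i, by rw [List.mem_ofFn]; exact ⟨i, rfl⟩, hcm _ hi⟩
    rw [prod_inv2, if_pos (by rw [List.length_ofFn]; exact hn)] at h2
    have h3 : altProd v u (List.ofFn w) = 0 := by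
      have h4 := congrArg Matrix.toBlocks₁₁ h2
      rw [Matrix.toBlocks_fromBlocks₁₁] at h4
      rw [h4]
      rfl
    rw [h3]
    simp
  rw [h1, Finset.smul_sum]
  refine Finset.sum_bij (fun w _ => fun i => ((w i : S) : G)) ?_ ?_ ?_ ?_
  · intro w _
    rw [Fintype.mem_piFinset]
    exact fun i => (w i).2
  · intro w _ w' _ h
    funext i
    exact Subtype.ext (congrFun h i)
  · intro w hw
    rw [Fintype.mem_piFinset] at hw
    exact ⟨fun i => ⟨w i, hw i⟩, mem_univ _, rfl⟩
  · intro w _
    have h2 : (List.ofFn w).map (fun s : S => (s : G)) = List.ofFn fun i => ((w i : S) : G) := by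
      rw [List.map_ofFn]; rfl
    have h3 : co (fun s : S => cm (inv2 v u) (s : G)) (List.ofFn w) =
        Matrix.fromBlocks (altProd v u (List.ofFn fun i => ((w i : S) : G))) 0 0
          (altProd u v (List.ofFn fun i => ((w i : S) : G))) := by
      have h4 := prod_inv2 v u (List.ofFn fun i => ((w i : S) : G))
      rw [if_pos (by rw [List.length_ofFn]; exact hn)] at h4
      rw [← h4, co, List.map_ofFn, List.map_ofFn]
      rfl
    rw [PhiV, h2, h3]
    split_ifs with h4
    · rw [ev_path (cmat_class (d := d ⊕ d) hc) _ _ (by rw [List.length_ofFn]), mul_smul_comm,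
        map_zsmul]
      congr 1
      exact tr1_diag T _ _ _
    · rw [smul_zero]

/-- **Divisibility of the odd Chern character** by the powers of a prime `p`, for groups without
elements of order `p`. -/
theorem oddSum_dvd (T : R →+ M) (hT : ∀ a b, T (a * b) = T (b * a)) {g : G}
    (hg : IsOfFinOrder g) {t : G → G} (ht : ∀ y, IsConj y g → t y * y * (t y)⁻¹ = g) {k : ℕ}
    (hk : k ≠ 0) {c : (Fin (2 * k + 1 + 1) → G) → R} (hc : IsClassCocycle g c)
    (hcen : ∀ v a, a * c v = c v * a)
    (v u : Matrix d d (MonoidAlgebra R G)) (hvu : v * u = 1) (huv : u * v = 1)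
    {p : ℕ} (hp : p.Prime) (hnt : ∀ y : G, orderOf y ≠ p) (m : ℕ) :
    ∃ y : M, k.factorial • oddSum T g t c v u = p ^ m • y := by
  classical
  obtain ⟨k, rfl⟩ := Nat.exists_eq_succ_of_ne_zero hk
  obtain ⟨S, hS⟩ : ∃ S : Finset G, ∀ i j, ((inv2 v u) i j).coeff.support ⊆ S :=
    ⟨univ.biUnion fun i => univ.biUnion fun j => ((inv2 v u) i j).coeff.support, fun i j =>
      (Finset.subset_biUnion_of_mem (fun j => ((inv2 v u) i j).coeff.support) (mem_univ j)).trans
        (Finset.subset_biUnion_of_mem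
          (fun i => univ.biUnion fun j => ((inv2 v u) i j).coeff.support) (mem_univ i))⟩
  have he : el (fun s : S => (s : G)) (fun s : S => cm (inv2 v u) (s : G)) *
      el (fun s : S => (s : G)) (fun s : S => cm (inv2 v u) (s : G)) = 1 := by
    apply rho_inj
    rw [rho_mul, rho_el (inv2 v u) S hS, inv2_sq v u hvu huv]
    refine (Matrix.ext fun i j => ?_)
    rw [MonoidAlgebra.one_def, rho_single]
    by_cases h : i = j
    · subst h
      rw [Matrix.one_apply_eq, Matrix.one_apply_eq, MonoidAlgebra.one_def]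
    · rw [Matrix.one_apply_ne h, Matrix.one_apply_ne h, MonoidAlgebra.single_zero]
  obtain ⟨y, hy⟩ := odd_prime (T₁ := tr1 d T) (T₂ := tr2 d T)
    (c := lV (cmat_class (d := d ⊕ d) hc)) (t := t)
    (fun s : S => (s : G)) (fun s : S => cm (inv2 v u) (s : G))
    (fun s X => tr_12 T hT v u s X) (fun s X => tr_21 T hT v u s X) ht
    (Cen_lV _ (cmat_cen hcen)) (D_lc (cmat_class (d := d ⊕ d) hc)) (th_lV _) hp hnt hg he k m
  have h1 := oddSum_eq (d := d) (t := t) T (n := 2 * (k + 1) + 1) ⟨k + 2, by ring⟩ hc v u S hS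
  have h2 : (k + 1).factorial •
      (((Equiv.Perm.sign (Fin.revPerm : Equiv.Perm (Fin (2 * (k + 1) + 1 + 1))) : ℤˣ) : ℤ) •
        oddSum T g t c v u) = p ^ m • y := by
    rw [← hy]
    exact congrArg _ h1.symm
  rcases Int.units_eq_one_or
    (Equiv.Perm.sign (Fin.revPerm : Equiv.Perm (Fin (2 * (k + 1) + 1 + 1)))) with h3 | h3
  · rw [h3, Units.val_one, one_smul] at h2
    exact ⟨y, h2⟩
  · rw [h3, Units.val_neg, Units.val_one, neg_smul, one_smul, smul_neg] at h2
    exact ⟨-y, by rw [smul_neg, ← h2, neg_neg]⟩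

end matrix

end Pool.Agent.W647.HW1
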