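import Pool.Agent.W647.HW8
import Mathlib.Algebra.TrivSqZeroExt.Basic

/-!
# Cocycles with values in an abelian group
-/

set_option autoImplicit false
set_option linter.unusedSectionVars false

namespace Pool.Agent.W647.HX1

open Finset Pool.Agent.W647.HV1 Pool.Agent.W647.HW1
open scoped TensorProduct

section dvd

lemma dvd_of_primes {M : Type*} [AddCommGroup M] {Z : M} (N : ℕ) (hN : N ≠ 0)
    (h : ∀ p : ℕ, p.Prime → p ∣ N → ∀ m : ℕ, ∃ y : M, Z = p ^ m • y) :
    ∃ y : M, Z = N • y := by
  induction N using Nat.recOnPosPrimePosCoprime with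
  | prime_pow p m hp hm => exact h p hp (dvd_pow_self p hm.ne') m
  | zero => exact absurd rfl hN
  | one => exact ⟨Z, by rw [one_smul]⟩
  | coprime a b ha hb hab iha ihb =>
    obtain ⟨y, hy⟩ := iha (by omega) fun p hp hd => h p hp (hd.mul_right b)
    obtain ⟨y', hy'⟩ := ihb (by omega) fun p hp hd => h p hp (hd.mul_left a)
    have h1 := Nat.gcd_eq_gcd_ab a b
    rw [hab] at h1
    refine ⟨Nat.gcdA a b • y' + Nat.gcdB a b • y, ?_⟩
    have h3 : ((a : ℤ) * (Nat.gcdA a b) + (b : ℤ) * (Nat.gcdB a b)) • Z = Z := by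
      rw [← h1, Nat.cast_one, one_smul]
    rw [← h3, add_smul, smul_add]
    congr 1
    · conv_lhs => rw [hy']
      rw [mul_smul, natCast_zsmul, smul_comm (Nat.gcdA a b) b y', smul_smul, smul_comm]
    · conv_lhs => rw [hy]
      rw [mul_smul, natCast_zsmul, smul_comm (Nat.gcdB a b) a y, smul_smul, mul_comm b a]

end dvd

section coc

variable {G : Type*} [Group G]

/-- alternating homogeneous cocycles of degree `n` on `G` with values in the abelian group `A`
(with the trivial action) -/
structure IsAltCocycle {A : Type*} [AddCommGroup A] {n : ℕ} (c : (Fin (n + 1) → G) → A) : Prop where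
  perm : ∀ (v : Fin (n + 1) → G) (σ : Equiv.Perm (Fin (n + 1))),
    c (v ∘ σ) = ((Equiv.Perm.sign σ : ℤˣ) : ℤ) • c v
  rep : ∀ (v : Fin (n + 1) → G) (i j : Fin (n + 1)), i ≠ j → v i = v j → c v = 0
  left : ∀ (z : G) (v : Fin (n + 1) → G), c (fun i => z * v i) = c v
  closed : ∀ v : Fin (n + 2) → G, ∑ i : Fin (n + 2), (-1 : ℤ) ^ (i : ℕ) • c (v ∘ i.succAbove) = 0

variable {R : Type*} [Ring R] {A : Type*} [AddCommGroup A] {M : Type*} [AddCommGroup M]
  {d : Type*} [Fintype d] [DecidableEq d]

open Classical in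
/-- the pairing of the invertible matrix `u`, with inverse `v`, with the cochain `c` -/
noncomputable def oddTau (T : R →+ A →+ M) {n : ℕ} (c : (Fin (n + 1) → G) → A)
    (v u : Matrix d d (MonoidAlgebra R G)) : M :=
  ∑ᶠ w : Fin (n + 1) → G, if (List.ofFn w).prod = 1 then
    T (altProd v u (List.ofFn w)).trace (c fun i => ((List.ofFn w).take i).prod) else 0

variable (R A) in
/-- the coefficient ring -/
abbrev E : Type _ := TrivSqZeroExt R (R ⊗[ℤ] A)

variable (R A) in
/-- the inclusion -/
def ι : R →+* E R A := TrivSqZeroExt.inlHom R (R ⊗[ℤ] A)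

variable (R A) in
/-- the coefficients of the cocycles -/
def κ : A →+ E R A := (TrivSqZeroExt.inrHom R (R ⊗[ℤ] A)).toAddMonoidHom.comp
  (TensorProduct.mk ℤ R A 1).toAddMonoidHom

lemma κ_cen (x : E R A) (a : A) : x * κ R A a = κ R A a * x := by
  induction x using TrivSqZeroExt.ind with
  | inl_add_inr r m =>
    show (TrivSqZeroExt.inl r + TrivSqZeroExt.inr m) * TrivSqZeroExt.inr ((1 : R) ⊗ₜ[ℤ] a) =
      TrivSqZeroExt.inr ((1 : R) ⊗ₜ[ℤ] a) * (TrivSqZeroExt.inl r + TrivSqZeroExt.inr m)
    rw [add_mul, mul_add, TrivSqZeroExt.inr_mul_inr, TrivSqZeroExt.inr_mul_inr,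
      TrivSqZeroExt.inl_mul_inr, TrivSqZeroExt.inr_mul_inl, add_zero, add_zero,
      TensorProduct.smul_tmul', TensorProduct.smul_tmul']
    congr 2
    show r * 1 = 1 * r
    rw [mul_one, one_mul]

/-- the linear map of a biadditive map -/
def bl (T : R →+ A →+ M) : R ⊗[ℤ] A →+ M :=
  TensorProduct.liftAddHom T (fun z r a => by
    rw [map_zsmul, AddMonoidHom.smul_apply, map_zsmul])

lemma bl_tmul (T : R →+ A →+ M) (r : R) (a : A) : bl T (r ⊗ₜ[ℤ] a) = T r a := rfl

/-- the trace -/
def tE (T : R →+ A →+ M) : E R A →+ M :=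
  (bl T).comp (TrivSqZeroExt.sndHom R (R ⊗[ℤ] A)).toAddMonoidHom

lemma tE_κ (T : R →+ A →+ M) (r : R) (a : A) : tE T (ι R A r * κ R A a) = T r a := by
  show bl T (TrivSqZeroExt.snd
    (TrivSqZeroExt.inl r * TrivSqZeroExt.inr ((1 : R) ⊗ₜ[ℤ] a))) = _
  rw [TrivSqZeroExt.inl_mul_inr, TrivSqZeroExt.snd_inr, TensorProduct.smul_tmul', smul_eq_mul,
    mul_one, bl_tmul]

lemma tE_comm (T : R →+ A →+ M) (hT : ∀ x y, T (x * y) = T (y * x)) (x y : E R A) :
    tE T (x * y) = tE T (y * x) := by
  have h1 : ∀ (r : R) (m : R ⊗[ℤ] A),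
      tE T (TrivSqZeroExt.inl r * TrivSqZeroExt.inr m) =
        tE T (TrivSqZeroExt.inr m * TrivSqZeroExt.inl r) := by
    intro r m
    induction m using TensorProduct.induction_on with
    | zero => simp
    | add m m' h h' =>
      rw [TrivSqZeroExt.inr_add, mul_add, add_mul, map_add, map_add, h, h']
    | tmul s a =>
      rw [TrivSqZeroExt.inl_mul_inr, TrivSqZeroExt.inr_mul_inl, TensorProduct.smul_tmul',
        TensorProduct.smul_tmul']
      show T (r * s) a = T (s * r) a
      rw [hT]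
  induction x using TrivSqZeroExt.ind with
  | inl_add_inr r m =>
    induction y using TrivSqZeroExt.ind with
    | inl_add_inr s n =>
      rw [add_mul, mul_add, mul_add, add_mul, mul_add, mul_add, TrivSqZeroExt.inr_mul_inr,
        TrivSqZeroExt.inr_mul_inr, map_add, map_add, map_add, map_add, map_add, map_add,
        h1, ← h1 s m, ← TrivSqZeroExt.inl_mul, ← TrivSqZeroExt.inl_mul]
      have h2 : ∀ r : R, tE T (TrivSqZeroExt.inl r) = 0 := by
        intro r
        show bl T (TrivSqZeroExt.snd (TrivSqZeroExt.inl r)) = _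
        rw [TrivSqZeroExt.snd_inl, map_zero]
      rw [h2, h2]
      abel

variable (A) in
/-- the matrix over the larger ring -/
noncomputable def em (u : Matrix d d (MonoidAlgebra R G)) : Matrix d d (MonoidAlgebra (E R A) G) :=
  (MonoidAlgebra.mapRingHom G (ι R A)).mapMatrix u

lemma em_mul (u v : Matrix d d (MonoidAlgebra R G)) : em A (u * v) = em A u * em A v := map_mul _ _ _

lemma em_one : em A (1 : Matrix d d (MonoidAlgebra R G)) = 1 := map_one _

lemma cm_em (u : Matrix d d (MonoidAlgebra R G)) (s : G) :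
    cm (em A u) s = (ι R A).mapMatrix (cm u s) := by
  ext1 i j
  show (MonoidAlgebra.mapRingHom G (ι R A) (u i j)).coeff s = ι R A ((u i j).coeff s)
  simp

lemma altProd_em (v u : Matrix d d (MonoidAlgebra R G)) (l : List G) :
    altProd (em A v) (em A u) l = (ι R A).mapMatrix (altProd v u l) := by
  induction l generalizing v u with
  | nil => exact (map_one _).symm
  | cons s l ih => rw [altProd, altProd, map_mul, ← ih, cm_em]

lemma κ_class {n : ℕ} {c : (Fin (n + 1) → G) → A} (hc : IsAltCocycle c) :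
    IsClassCocycle (1 : G) (fun v => κ R A (c v)) where
  perm v σ := by rw [hc.perm, map_zsmul]
  rep v i j hij h := by rw [hc.rep v i j hij h, map_zero]
  left z _ v := by rw [hc.left]
  single v i := by rw [one_mul, Function.update_eq_self]
  closed v := by
    have h1 := congrArg (κ R A) (hc.closed v)
    rw [map_sum, map_zero] at h1
    rw [← h1]
    exact Finset.sum_congr rfl fun i _ => by rw [map_zsmul]

lemma oddSum_em (T : R →+ A →+ M) {n : ℕ} (c : (Fin (n + 1) → G) → A)
    (v u : Matrix d d (MonoidAlgebra R G)) :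
    oddSum (tE T) (1 : G) (fun _ => 1) (fun v => κ R A (c v)) (em A v) (em A u) =
      oddTau T c v u := by
  rw [oddSum, oddTau]
  refine finsum_congr fun w => ?_
  have h1 : (altProd (em A v) (em A u) (List.ofFn w)).trace =
      ι R A (altProd v u (List.ofFn w)).trace := by
    rw [altProd_em]
    exact (AddMonoidHom.map_trace (ι R A).toAddMonoidHom _).symm
  simp only [h1, tE_κ, one_mul]
  by_cases h : (List.ofFn w).prod = 1
  · rw [if_pos (isConj_one_left.2 h), if_pos h]
  · rw [if_neg (fun h' => h (isConj_one_left.1 h')), if_neg h]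

/-- **Divisibility of the odd Chern character.** -/
theorem oddTau_dvd (T : R →+ A →+ M) (hT : ∀ x y, T (x * y) = T (y * x)) {k : ℕ} (hk : k ≠ 0)
    {c : (Fin (2 * k + 1 + 1) → G) → A} (hc : IsAltCocycle c)
    (v u : Matrix d d (MonoidAlgebra R G)) (hvu : v * u = 1) (huv : u * v = 1) (N : ℕ)
    (hN : N ≠ 0) (hnt : ∀ p : ℕ, p.Prime → p ∣ N → ∀ y : G, orderOf y ≠ p) :
    ∃ y : M, k.factorial • oddTau T c v u = N • y := by
  refine dvd_of_primes N hN fun p hp hpN m => ?_
  rw [← oddSum_em]
  refine oddSum_dvd (tE T) (tE_comm T hT) (g := (1 : G)) IsOfFinOrder.one (fun y hy => ?_) hk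
    (κ_class hc) (fun v a => κ_cen a _) (em A v) (em A u) ?_ ?_ hp (hnt p hp hpN) m
  · rw [isConj_one_left] at hy
    rw [hy]
    simp
  · rw [← em_mul, hvu, em_one]
  · rw [← em_mul, huv, em_one]

end coc

end Pool.Agent.W647.HX1
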