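import Pool.Agent.W647.HX1

/-!
# Class cocycles with values in an abelian group, and rings graded by a group
-/

set_option autoImplicit false
set_option linter.unusedSectionVars false

namespace Pool.Agent.W647.HX1

open Finset Pool.Agent.W647.HV1 Pool.Agent.W647.HW1
open scoped TensorProduct

section coc

variable {G : Type*} [Group G]

/-- Alternating homogeneous cocycles of degree `n` on `G` with values in the abelian group `A` which
are invariant under left multiplication by the centralizer of `g`, and under left multiplication by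
`g` in each single variable. -/
structure IsClassCoc {A : Type*} [AddCommGroup A] (g : G) {n : ℕ} (c : (Fin (n + 1) → G) → A) :
    Prop where
  perm : ∀ (v : Fin (n + 1) → G) (σ : Equiv.Perm (Fin (n + 1))),
    c (v ∘ σ) = ((Equiv.Perm.sign σ : ℤˣ) : ℤ) • c v
  rep : ∀ (v : Fin (n + 1) → G) (i j : Fin (n + 1)), i ≠ j → v i = v j → c v = 0
  left : ∀ z : G, z * g = g * z → ∀ v : Fin (n + 1) → G, c (fun i => z * v i) = c v
  single : ∀ (v : Fin (n + 1) → G) (i : Fin (n + 1)), c (Function.update v i (g * v i)) = c v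
  closed : ∀ v : Fin (n + 2) → G, ∑ i : Fin (n + 2), (-1 : ℤ) ^ (i : ℕ) • c (v ∘ i.succAbove) = 0

variable {R : Type*} [Ring R] {A : Type*} [AddCommGroup A] {M : Type*} [AddCommGroup M]
  {d : Type*} [Fintype d] [DecidableEq d]

lemma κ_class' {g : G} {n : ℕ} {c : (Fin (n + 1) → G) → A} (hc : IsClassCoc g c) :
    IsClassCocycle g (fun v => κ R A (c v)) where
  perm v σ := by rw [hc.perm, map_zsmul]
  rep v i j hij h := by rw [hc.rep v i j hij h, map_zero]
  left z hz v := by rw [hc.left z hz]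
  single v i := by rw [hc.single]
  closed v := by
    have h1 := congrArg (κ R A) (hc.closed v)
    rw [map_sum, map_zero] at h1
    rw [← h1]
    exact Finset.sum_congr rfl fun i _ => by rw [map_zsmul]

open Classical in
/-- the even number, for matrices `f s` of coefficients -/
noncomputable def evTau (T : R →+ A →+ M) (g : G) (t : G → G) {n : ℕ} (c : (Fin (n + 1) → G) → A)
    (f : G → Matrix d d R) : M :=
  ∑ᶠ w : Fin (n + 1) → G, if IsConj (List.ofFn w).prod g then
    T (List.ofFn fun i => f (w i)).prod.trace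
      (c fun i => t (List.ofFn w).prod * ((List.ofFn w).take i).prod) else 0

lemma chernSum_em (T : R →+ A →+ M) (g : G) (t : G → G) {n : ℕ} (c : (Fin (n + 1) → G) → A)
    (e : Matrix d d (MonoidAlgebra R G)) :
    chernSum (tE T) g t (fun v => κ R A (c v)) (em A e) = evTau T g t c (cm e) := by
  rw [chernSum, evTau]
  refine finsum_congr fun w => ?_
  have h1 : (List.ofFn fun i => cm (em A e) (w i)).prod.trace =
      ι R A (List.ofFn fun i => cm e (w i)).prod.trace := by
    have h2 : (List.ofFn fun i => cm (em A e) (w i)).prod =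
        (ι R A).mapMatrix (List.ofFn fun i => cm e (w i)).prod := by
      rw [map_list_prod, List.map_ofFn]
      congr 2
    rw [h2]
    exact (AddMonoidHom.map_trace (ι R A).toAddMonoidHom _).symm
  simp only [h1, tE_κ]

/-- **Divisibility of the even Chern character.** -/
theorem evTau_dvd (T : R →+ A →+ M) (hT : ∀ x y, T (x * y) = T (y * x)) {g : G}
    (hg : IsOfFinOrder g) {t : G → G} (ht : ∀ y, IsConj y g → t y * y * (t y)⁻¹ = g) {k : ℕ}
    (hk : k ≠ 0) {c : (Fin (2 * k + 1) → G) → A} (hc : IsClassCoc g c)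
    (e : Matrix d d (MonoidAlgebra R G)) (he : e * e = e) (N : ℕ) (hN : N ≠ 0) :
    ∃ y : M, (2 * k).descFactorial k • evTau T g t c (cm e) = N • y := by
  rw [← chernSum_em]
  exact chernSum_dvd (tE T) (tE_comm T hT) hg ht hk (κ_class' hc) (fun v a => κ_cen a _)
    (em A e) (by rw [← em_mul, he]) N hN

end coc

section graded

variable {G : Type*} [Group G] [DecidableEq G] {S : Type*} [Ring S] (𝒮 : G → AddSubgroup S)
  [DirectSum.Decomposition 𝒮]

/-- the coaction of a graded ring -/
noncomputable def coa : S →+ MonoidAlgebra S G :=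
  (DirectSum.toAddMonoid fun s => (MonoidAlgebra.singleAddHom s).comp (𝒮 s).subtype).comp
    (DirectSum.decomposeAddEquiv 𝒮).toAddMonoidHom

lemma coa_of_mem {s : G} {x : S} (hx : x ∈ 𝒮 s) : coa 𝒮 x = MonoidAlgebra.single s x := by
  show (DirectSum.toAddMonoid fun s => (MonoidAlgebra.singleAddHom s).comp (𝒮 s).subtype)
    (DirectSum.decompose 𝒮 x) = _
  rw [DirectSum.decompose_of_mem 𝒮 hx, DirectSum.toAddMonoid_of]
  rfl

lemma coa_coeff (x : S) (s : G) : (coa 𝒮 x).coeff s = (DirectSum.decompose 𝒮 x s : S) := by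
  induction x using DirectSum.Decomposition.inductionOn 𝒮 with
  | zero => simp
  | add x y hx hy =>
    rw [map_add, MonoidAlgebra.coeff_add, Finsupp.add_apply, hx, hy, DirectSum.decompose_add]
    rfl
  | homogeneous m =>
    rename_i i
    rw [coa_of_mem 𝒮 m.2, DirectSum.decompose_coe, MonoidAlgebra.coeff_single]
    by_cases h : i = s
    · subst h
      rw [Finsupp.single_eq_same, DirectSum.of_eq_same]
    · rw [Finsupp.single_eq_of_ne (Ne.symm h), DirectSum.of_eq_of_ne _ _ _ (Ne.symm h)]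
      rfl

lemma coa_one (h1 : (1 : S) ∈ 𝒮 1) : coa 𝒮 1 = 1 := by
  rw [coa_of_mem 𝒮 h1, MonoidAlgebra.one_def]

lemma coa_mul (hmul : ∀ g h : G, ∀ x ∈ 𝒮 g, ∀ y ∈ 𝒮 h, x * y ∈ 𝒮 (g * h)) (x y : S) :
    coa 𝒮 (x * y) = coa 𝒮 x * coa 𝒮 y := by
  induction x using DirectSum.Decomposition.inductionOn 𝒮 with
  | zero => simp
  | add x x' hx hx' => rw [add_mul, map_add, map_add, add_mul, hx, hx']
  | homogeneous m =>
    rename_i i
    induction y using DirectSum.Decomposition.inductionOn 𝒮 with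
    | zero => simp
    | add y y' hy hy' => rw [mul_add, map_add, map_add, mul_add, hy, hy']
    | homogeneous m' =>
      rename_i j
      rw [coa_of_mem 𝒮 m.2, coa_of_mem 𝒮 m'.2, coa_of_mem 𝒮 (hmul i j _ m.2 _ m'.2),
        MonoidAlgebra.single_mul_single]

/-- the coaction as a ring homomorphism -/
noncomputable def coaR (h1 : (1 : S) ∈ 𝒮 1)
    (hmul : ∀ g h : G, ∀ x ∈ 𝒮 g, ∀ y ∈ 𝒮 h, x * y ∈ 𝒮 (g * h)) : S →+* MonoidAlgebra S G :=
  { coa 𝒮 with
    map_one' := coa_one 𝒮 h1
    map_mul' := coa_mul 𝒮 hmul }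

variable {d : Type*} [Fintype d] [DecidableEq d]

/-- the homogeneous component of degree `s` of a matrix -/
def gc (e : Matrix d d S) (s : G) : Matrix d d S :=
  e.map fun x => (DirectSum.decompose 𝒮 x s : S)

lemma cm_coa (h1 : (1 : S) ∈ 𝒮 1)
    (hmul : ∀ g h : G, ∀ x ∈ 𝒮 g, ∀ y ∈ 𝒮 h, x * y ∈ 𝒮 (g * h)) (e : Matrix d d S) :
    cm ((coaR 𝒮 h1 hmul).mapMatrix e) = gc 𝒮 e := by
  funext s
  ext1 i j
  exact coa_coeff 𝒮 (e i j) s

variable {A : Type*} [AddCommGroup A] {M : Type*} [AddCommGroup M]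

/-- **Divisibility of the even Chern character for graded rings.** -/
theorem graded_even (h1 : (1 : S) ∈ 𝒮 1)
    (hmul : ∀ g h : G, ∀ x ∈ 𝒮 g, ∀ y ∈ 𝒮 h, x * y ∈ 𝒮 (g * h))
    (T : S →+ A →+ M) (hT : ∀ x y, T (x * y) = T (y * x)) {g : G}
    (hg : IsOfFinOrder g) {t : G → G} (ht : ∀ y, IsConj y g → t y * y * (t y)⁻¹ = g) {k : ℕ}
    (hk : k ≠ 0) {c : (Fin (2 * k + 1) → G) → A} (hc : IsClassCoc g c)
    (e : Matrix d d S) (he : e * e = e) (N : ℕ) (hN : N ≠ 0) :
    ∃ y : M, (2 * k).descFactorial k • evTau T g t c (gc 𝒮 e) = N • y := by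
  rw [← cm_coa 𝒮 h1 hmul e]
  exact evTau_dvd T hT hg ht hk hc _ (by rw [← map_mul, he]) N hN

end graded

end Pool.Agent.W647.HX1
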