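import Pool.Agent.W647.HW7

/-!
# Equivariant choices of vertices at elements of bounded `p`-height
-/

set_option autoImplicit false
set_option linter.unusedSectionVars false

namespace Pool.Agent.W647.HY1

open Finset Pool.Agent.W647.HV1 Pool.Agent.W647.HW1 Pool.Agent.H23R2 Pool.Agent.H23R2.Cyc

section choice

variable {G : Type*} [Group G] (g : G) (N : ℕ) (H : Subgroup G)

/-- the columns with vertices in one coset of `H` -/
def IsColH (Y : ℕ → G) : Prop := (∀ b, Y (b + N) = g * Y b) ∧ ∀ b, (Y 0)⁻¹ * Y b ∈ H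

variable {g N H}

lemma IsColH.isCol {Y : ℕ → G} (hY : IsColH g N H Y) : IsCol g N Y := hY.1

lemma IsColH.shift {Y : ℕ → G} (hY : IsColH g N H Y) (z : G) (hz : z * g = g * z) (r : ℕ) :
    IsColH g N H (fun b => z * Y (b + r)) := by
  refine ⟨fun b => ?_, fun b => ?_⟩
  · show z * Y (b + N + r) = g * (z * Y (b + r))
    rw [show b + N + r = (b + r) + N by ring, hY.1, ← mul_assoc, hz, mul_assoc]
  · show (z * Y (0 + r))⁻¹ * (z * Y (b + r)) ∈ H
    have h1 := H.mul_mem (H.inv_mem (hY.2 (0 + r))) (hY.2 (b + r))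
    have h2 : (z * Y (0 + r))⁻¹ * (z * Y (b + r)) =
        ((Y 0)⁻¹ * Y (0 + r))⁻¹ * ((Y 0)⁻¹ * Y (b + r)) := by group
    rw [h2]
    exact h1

variable {p : ℕ} (hp : p.Prime) {h Q : ℕ} (hN : N = p ^ h * Q) (hQ : ∃ m, Q = p ^ m)
  (hroot : ∀ y ∈ H, IsConj y g → ∀ x ∈ H, x ^ p ^ (h + 1) ≠ y)

include hp hN hQ hroot in
lemma stab_aux {Y : ℕ → G} (hY : IsColH g N H Y) (ζ : G) (δ : ℕ) (hδ : 0 < δ)
    (h1 : ∀ b, Y (b + δ) = ζ * Y b) : Q ∣ δ := by
  obtain ⟨m, hm⟩ := hQ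
  have hNp : N = p ^ (h + m) := by rw [hN, hm, pow_add]
  have hN0 : 0 < N := by rw [hNp]; exact pow_pos hp.pos _
  set s := Nat.gcd δ N with hs
  have hs0 : 0 < s := Nat.gcd_pos_of_pos_left _ hδ
  have hsN : s ∣ N := Nat.gcd_dvd_right _ _
  have hsδ : s ∣ δ := Nat.gcd_dvd_left _ _
  -- a translation by `s`
  obtain ⟨η, hη⟩ : ∃ η : G, ∀ b, Y (b + s) = η * Y b := by
    rcases Nat.lt_or_ge s N with hlt | hge
    · obtain ⟨α, hα⟩ := Nat.exists_mul_mod_eq_gcd hlt
      have h2 : δ * α = N * (δ * α / N) + s := by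
        have := Nat.div_add_mod (δ * α) N
        rw [hα.2] at this
        exact this.symm
      set β := δ * α / N
      have h3 : ∀ n b, Y (b + δ * n) = ζ ^ n * Y b := by
        intro n
        induction n with
        | zero => intro b; simp
        | succ n ih =>
          intro b
          rw [Nat.mul_succ, ← add_assoc, h1, ih, pow_succ', mul_assoc]
      refine ⟨(g ^ β)⁻¹ * ζ ^ α, fun b => ?_⟩
      have h4 := h3 α b
      rw [h2, show b + (N * β + s) = (b + s) + N * β by ring, hY.isCol.mul] at h4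
      rw [mul_assoc, ← h4]
      group
    · have : s = N := le_antisymm (Nat.le_of_dvd hN0 hsN) hge
      exact ⟨g, fun b => by rw [this, hY.1]⟩
  obtain ⟨n, hn⟩ := hsN
  have h5 : ∀ n b, Y (b + s * n) = η ^ n * Y b := by
    intro n
    induction n with
    | zero => intro b; simp
    | succ n ih =>
      intro b
      rw [Nat.mul_succ, ← add_assoc, hη, ih, pow_succ', mul_assoc]
  have h6 : g = η ^ n := by
    have e1 := h5 n 0
    rw [← hn, hY.1] at e1
    exact mul_right_cancel e1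
  -- `n` is a power of `p`
  have hnN : n ∣ p ^ (h + m) := by rw [← hNp, hn]; exact dvd_mul_left _ _
  obtain ⟨j, hj, hnj⟩ := (Nat.dvd_prime_pow hp).1 hnN
  have hjh : j ≤ h := by
    by_contra hcon
    push Not at hcon
    obtain ⟨i, hi⟩ := Nat.exists_eq_add_of_le hcon
    have e1 : (Y 0)⁻¹ * (η * Y 0) ∈ H := by
      rw [← hη]; exact hY.2 _
    have e2 : ((Y 0)⁻¹ * (η * Y 0)) ^ n = (Y 0)⁻¹ * (g * Y 0) := by
      have e3 : (Y 0)⁻¹ * (η * Y 0) = (Y 0)⁻¹ * η * (Y 0)⁻¹⁻¹ := by group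
      rw [e3, conj_pow, ← h6]
      group
    have e4 : (Y 0)⁻¹ * (g * Y 0) ∈ H := by rw [← e2]; exact H.pow_mem e1 n
    refine hroot _ e4 ?_ (((Y 0)⁻¹ * (η * Y 0)) ^ p ^ i) (H.pow_mem e1 _) ?_
    · rw [isConj_iff]
      exact ⟨Y 0, by group⟩
    · rw [← pow_mul, ← e2, hnj]
      congr 1
      rw [← pow_add]
      congr 1
      omega
  have h7 : Q ∣ s := by
    obtain ⟨i, hi⟩ := Nat.exists_eq_add_of_le hjh
    have e1 : s * p ^ j = Q * p ^ i * p ^ j := by
      rw [← hnj, ← hn, hN, hi, hnj]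
      ring
    have e2 : s = Q * p ^ i := Nat.eq_of_mul_eq_mul_right (pow_pos hp.pos j) e1
    rw [e2]
    exact dvd_mul_right _ _
  exact h7.trans hsδ

include hp hN hQ hroot in
lemma stabH {Y : ℕ → G} (hY : IsColH g N H Y) (ζ : G) (_hζ : ζ * g = g * ζ) (u v : ℕ)
    (h1 : ∀ b, Y (b + v) = ζ * Y (b + u)) : u ≡ v [MOD Q] := by
  have key : ∀ (u v : ℕ) (ζ : G), u < v → (∀ b, Y (b + v) = ζ * Y (b + u)) →
      u ≡ v [MOD Q] := by
    intro u v ζ huv h1
    obtain ⟨δ, hδ⟩ := Nat.exists_eq_add_of_lt huv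
    have h2 := hY.shift 1 (by simp) u
    have h3 := stab_aux hp hN hQ hroot h2 ζ (δ + 1) (by omega) (fun b => by
      show 1 * Y (b + (δ + 1) + u) = ζ * (1 * Y (b + u))
      rw [one_mul, one_mul, ← h1, hδ]
      congr 1
      ring)
    rw [Nat.modEq_iff_dvd' huv.le]
    have : v - u = δ + 1 := by omega
    rw [this]
    exact h3
  rcases lt_trichotomy u v with huv | huv | huv
  · exact key u v ζ huv h1
  · rw [huv]
  · exact (key v u ζ⁻¹ huv fun b => by rw [h1]; group).symm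

/-- the equivalence of columns -/
def colT (g : G) (N : ℕ) (H : Subgroup G) : Setoid {Y : ℕ → G // IsColH g N H Y} where
  r Y Y' := ∃ z : G, z * g = g * z ∧ ∃ s t : ℕ, ∀ b, Y'.1 (b + t) = z * Y.1 (b + s)
  iseqv := by
    refine ⟨fun Y => ⟨1, by simp, 0, 0, fun b => by simp⟩, ?_, ?_⟩
    · rintro Y Y' ⟨z, hz, s, t, h⟩
      refine ⟨z⁻¹, ?_, t, s, fun b => ?_⟩
      · rw [inv_mul_eq_iff_eq_mul, ← mul_assoc, hz, mul_assoc, mul_inv_cancel, mul_one]
      · rw [h]; group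
    · rintro Y Y' Y'' ⟨z, hz, s, t, h⟩ ⟨z', hz', s', t', h'⟩
      refine ⟨z' * z, ?_, s + s', t' + t, fun b => ?_⟩
      · rw [mul_assoc, hz, ← mul_assoc, hz', mul_assoc]
      · rw [show b + (t' + t) = (b + t) + t' by ring, h',
          show b + t + s' = (b + s') + t by ring, h, mul_assoc,
          show b + s' + s = b + (s + s') by ring]

open Classical in
/-- the choice of a position modulo `Q` -/
noncomputable def jc (g : G) (N Q : ℕ) (H : Subgroup G) (Y : ℕ → G) : ℕ :=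
  if h : IsColH g N H Y then
    (Quotient.mk_out (s := colT g N H) ⟨Y, h⟩ : (colT g N H).r _ _).choose_spec.2.choose_spec.choose +
      (Q - 1) * (Quotient.mk_out (s := colT g N H) ⟨Y, h⟩ :
        (colT g N H).r _ _).choose_spec.2.choose
  else 0

include hp hN hQ hroot in
lemma jc_spec {Y : ℕ → G} (hY : IsColH g N H Y) (z : G) (hz : z * g = g * z) (r : ℕ)
    (Y' : ℕ → G) (hY' : ∀ b, Y' b = z * Y (b + r)) :
    jc g N Q H Y' + r ≡ jc g N Q H Y [MOD Q] := by
  have hQ0 : 0 < Q := by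
    obtain ⟨m, hm⟩ := hQ
    rw [hm]; exact pow_pos hp.pos _
  have hY'c : IsColH g N H Y' := by
    have := hY.shift z hz r
    have e : Y' = fun b => z * Y (b + r) := funext hY'
    rw [e]; exact this
  have hq : (Quotient.mk (colT g N H) ⟨Y', hY'c⟩) = Quotient.mk (colT g N H) ⟨Y, hY⟩ := by
    apply Quotient.sound
    refine ⟨z⁻¹, ?_, 0, r, fun b => ?_⟩
    · rw [inv_mul_eq_iff_eq_mul, ← mul_assoc, hz, mul_assoc, mul_inv_cancel, mul_one]
    · show Y (b + r) = z⁻¹ * Y' (b + 0)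
      rw [hY']; group
  have e1 := (Quotient.mk_out (s := colT g N H) ⟨Y, hY⟩ : (colT g N H).r _ _).choose_spec
  have d1 : jc g N Q H Y = (Quotient.mk_out (s := colT g N H) ⟨Y, hY⟩ :
      (colT g N H).r _ _).choose_spec.2.choose_spec.choose + (Q - 1) *
        (Quotient.mk_out (s := colT g N H) ⟨Y, hY⟩ :
          (colT g N H).r _ _).choose_spec.2.choose := by rw [jc, dif_pos hY]
  have d2 : jc g N Q H Y' = (Quotient.mk_out (s := colT g N H) ⟨Y', hY'c⟩ :
      (colT g N H).r _ _).choose_spec.2.choose_spec.choose + (Q - 1) *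
        (Quotient.mk_out (s := colT g N H) ⟨Y', hY'c⟩ :
          (colT g N H).r _ _).choose_spec.2.choose := by rw [jc, dif_pos hY'c]
  have f1 := (Quotient.mk_out (s := colT g N H) ⟨Y, hY⟩ :
      (colT g N H).r _ _).choose_spec.2.choose_spec.choose_spec
  have f2 := (Quotient.mk_out (s := colT g N H) ⟨Y', hY'c⟩ :
      (colT g N H).r _ _).choose_spec.2.choose_spec.choose_spec
  have c1 := (Quotient.mk_out (s := colT g N H) ⟨Y, hY⟩ : (colT g N H).r _ _).choose_spec.1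
  have c2 := (Quotient.mk_out (s := colT g N H) ⟨Y', hY'c⟩ : (colT g N H).r _ _).choose_spec.1
  generalize (Quotient.mk_out (s := colT g N H) ⟨Y, hY⟩ :
      (colT g N H).r _ _).choose_spec.2.choose_spec.choose = t₁ at f1 d1
  generalize (Quotient.mk_out (s := colT g N H) ⟨Y, hY⟩ :
      (colT g N H).r _ _).choose_spec.2.choose = s₁ at f1 d1
  generalize (Quotient.mk_out (s := colT g N H) ⟨Y, hY⟩ :
      (colT g N H).r _ _).choose = z₁ at f1 c1
  generalize (Quotient.mk_out (s := colT g N H) ⟨Y', hY'c⟩ :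
      (colT g N H).r _ _).choose_spec.2.choose_spec.choose = t₂ at f2 d2
  generalize (Quotient.mk_out (s := colT g N H) ⟨Y', hY'c⟩ :
      (colT g N H).r _ _).choose_spec.2.choose = s₂ at f2 d2
  generalize (Quotient.mk_out (s := colT g N H) ⟨Y', hY'c⟩ :
      (colT g N H).r _ _).choose = z₂ at f2 c2
  set q := Quotient.out (s := colT g N H) (Quotient.mk _ ⟨Y, hY⟩) with hqdef
  have hq2 : Quotient.out (s := colT g N H) (Quotient.mk _ ⟨Y', hY'c⟩) = q := by
    rw [hqdef, hq]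
  have h₁ : ∀ b, Y (b + t₁) = z₁ * q.1 (b + s₁) := f1
  have h₂ : ∀ b, Y' (b + t₂) = z₂ * q.1 (b + s₂) := by
    intro b
    have := f2 b
    rw [hq2] at this
    exact this
  have h3 : t₂ + r + s₁ ≡ t₁ + s₂ [MOD Q] := by
    refine stabH hp hN hQ hroot q.2 (z₂⁻¹ * (z * z₁)) ?_ _ _ fun b => ?_
    · have k1 : Commute z g := hz
      have k2 : Commute z₁ g := c1
      have k3 : Commute z₂ g := c2
      exact (k3.inv_left.mul_left (k1.mul_left k2)).eq
    · have h4 : z₂ * q.1 (b + t₁ + s₂) = z * z₁ * q.1 (b + (t₂ + r + s₁)) := by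
        rw [← h₂, hY', show b + t₁ + t₂ + r = (b + t₂ + r) + t₁ by ring, h₁, mul_assoc,
          show b + t₂ + r + s₁ = b + (t₂ + r + s₁) by ring]
      rw [show b + (t₁ + s₂) = b + t₁ + s₂ by ring, mul_assoc z₂⁻¹, ← h4]
      group
  rw [d1, d2]
  -- cancel
  have h5 : ∀ s : ℕ, (Q - 1) * s + s ≡ 0 [MOD Q] := by
    intro s
    have e : (Q - 1) * s + s = Q * s := by
      obtain ⟨Q', rfl⟩ : ∃ Q', Q = Q' + 1 := ⟨Q - 1, by omega⟩
      simp only [Nat.add_sub_cancel]
      ring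
    rw [e]
    exact (Nat.modEq_zero_iff_dvd).2 (dvd_mul_right _ _)
  apply Nat.ModEq.add_right_cancel' (s₁ + s₂)
  have e1 : t₂ + (Q - 1) * s₂ + r + (s₁ + s₂) = (t₂ + r + s₁) + ((Q - 1) * s₂ + s₂) := by ring
  have e2 : t₁ + (Q - 1) * s₁ + (s₁ + s₂) = (t₁ + s₂) + ((Q - 1) * s₁ + s₁) := by ring
  rw [e1, e2]
  exact h3.add ((h5 s₂).trans (h5 s₁).symm)

/-- sum over `P` vertices of a column -/
def cs {A : Type*} [AddCommMonoid A] (P Q : ℕ) (F : G → A) (Y : ℕ → G) (j : ℕ) : A :=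
  ∑ i ∈ range P, F (Y (j + i * Q))

lemma cs_add {A : Type*} [AddCommGroup A] {P : ℕ} (hPN : N = P * Q) {F : G → A}
    (hF : ∀ a, F (g * a) = F a) {Y : ℕ → G} (hY : IsCol g N Y) (j : ℕ) :
    cs P Q F Y (j + Q) = cs P Q F Y j := by
  rw [cs, cs]
  have h1 : ∀ i, F (Y (j + Q + i * Q)) = F (Y (j + (i + 1) * Q)) := fun i => by
    congr 2
    ring
  rw [Finset.sum_congr rfl fun i _ => h1 i]
  have h2 := Finset.sum_range_succ' (fun i => F (Y (j + i * Q))) P
  have h3 := Finset.sum_range_succ (fun i => F (Y (j + i * Q))) P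
  rw [h3] at h2
  have h4 : F (Y (j + P * Q)) = F (Y (j + 0 * Q)) := by
    rw [← hPN, hY, hF, zero_mul, add_zero]
  rw [h4] at h2
  exact (add_right_cancel h2).symm

lemma cs_modEq {A : Type*} [AddCommGroup A] {P : ℕ} (hPN : N = P * Q) {F : G → A}
    (hF : ∀ a, F (g * a) = F a) {Y : ℕ → G} (hY : IsCol g N Y) {j j' : ℕ} (hj : j ≡ j' [MOD Q]) :
    cs P Q F Y j = cs P Q F Y j' := by
  have h1 : ∀ n j, cs P Q F Y (j + Q * n) = cs P Q F Y j := by
    intro n
    induction n with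
    | zero => intro j; simp
    | succ n ih => intro j; rw [Nat.mul_succ, ← add_assoc, cs_add hPN hF hY, ih]
  rcases le_total j j' with h | h
  · obtain ⟨n, hn⟩ := (Nat.modEq_iff_dvd' h).1 hj
    have : j' = j + Q * n := by omega
    rw [this, h1]
  · obtain ⟨n, hn⟩ := (Nat.modEq_iff_dvd' h).1 hj.symm
    have : j = j' + Q * n := by omega
    rw [this, h1]

include hp hN hQ hroot in
/-- **Equivariance of the chosen sums.** -/
lemma cs_spec {A : Type*} [AddCommGroup A] {F : G → A} (hF : ∀ a, F (g * a) = F a) {Y : ℕ → G}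
    (hY : IsColH g N H Y) (z : G) (hz : z * g = g * z) (r : ℕ)
    (Y' : ℕ → G) (hY' : ∀ b, Y' b = z * Y (b + r)) :
    cs (p ^ h) Q F Y' (jc g N Q H Y') = cs (p ^ h) Q (fun a => F (z * a)) Y (jc g N Q H Y) := by
  have h1 : cs (p ^ h) Q F Y' (jc g N Q H Y') =
      cs (p ^ h) Q (fun a => F (z * a)) Y (jc g N Q H Y' + r) := by
    rw [cs, cs]
    refine Finset.sum_congr rfl fun i _ => ?_
    rw [hY', show jc g N Q H Y' + i * Q + r = jc g N Q H Y' + r + i * Q by ring]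
  rw [h1]
  refine cs_modEq hN (fun a => ?_) hY.isCol (jc_spec hp hN hQ hroot hY z hz r Y' hY')
  show F (z * (g * a)) = F (z * a)
  rw [← mul_assoc, hz, mul_assoc, hF]

end choice

end Pool.Agent.W647.HY1
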