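import Pool.Agent.W647.HY1

/-!
# Weights of closed words at elements of bounded `p`-height
-/

set_option autoImplicit false
set_option linter.unusedSectionVars false

namespace Pool.Agent.W647.HY1

open Finset Pool.Agent.W647.HV1 Pool.Agent.W647.HW1 Pool.Agent.H23R2 Pool.Agent.H23R2.Cyc

section inv

variable {S : Type*} [Fintype S] {N : ℕ} [NeZero N] {G : Type*} [Group G] {g : G} {A : Type*}
  [Ring A] (dg : S → G) (a : S → A) {M : Type*} [AddCommGroup M]

lemma prod_Wl_mem {H : Subgroup G} (hdg : ∀ s, dg s ∈ H) (w : ZMod N → S × S) (j : ℕ) :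
    mpr (fun i => pr dg (w i)) 0 j ∈ H := by
  induction j with
  | zero => exact H.one_mem
  | succ j ih =>
    rw [mpr]
    exact H.mul_mem ih (H.mul_mem (hdg _) (hdg _))

lemma col_isColH {H : Subgroup G} (hdg : ∀ s, dg s ∈ H) (h : G) (w : ZMod N → S × S)
    (hc : h * ((Wl w).map dg).prod = g * h) : IsColH g N H (col dg h w) := by
  refine ⟨col_isCol dg h w hc, fun b => ?_⟩
  have h1 : (col dg h w 0)⁻¹ * col dg h w b = mpr (fun i => pr dg (w i)) 0 b := by
    rw [col, col]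
    simp [mpr]
  rw [h1]
  exact prod_Wl_mem dg hdg w b

variable (H : Subgroup G) (P Q : ℕ)

/-- the weight of a closed word with base vertex `h` -/
noncomputable def PsiH (c : V g A) (k : ℕ) (h : G) (w : ZMod N → S × S) : A :=
  cs P Q (fun α => cs P Q (fun β => Kf c h ((Wl w).map dg) k α β)
    (col dg (h * dg (w 0).1) (hr w)) (jc g N Q H (col dg (h * dg (w 0).1) (hr w))))
    (col dg h w) (jc g N Q H (col dg h w))

/-- the even vertices and the base vertex -/
noncomputable def PsAH (c : V g A) (k : ℕ) (h : G) (w : ZMod N → S × S) : A :=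
  P • cs P Q (fun α => Kf c h ((Wl w).map dg) k α h) (col dg h w) (jc g N Q H (col dg h w))

/-- the first edge -/
noncomputable def Ps1H (c : V g A) (k : ℕ) (h : G) (w : ZMod N → S × S) : A :=
  (P * P) • Ps1 dg c k h w

/-- the first odd vertex and the odd vertices -/
noncomputable def PsBH (c : V g A) (k : ℕ) (h : G) (w : ZMod N → S × S) : A :=
  P • cs P Q (fun β => Kf c h ((Wl w).map dg) k (h * dg (w 0).1) β)
    (col dg (h * dg (w 0).1) (hr w)) (jc g N Q H (col dg (h * dg (w 0).1) (hr w)))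

lemma PsiH_split (c : V g A) (hD : ∀ m, D m (ev c) = 0) (k : ℕ) (h : G) (w : ZMod N → S × S)
    (hc : h * ((Wl w).map dg).prod = g * h) :
    PsiH dg H P Q c k h w =
      PsAH dg H P Q c k h w + Ps1H dg P c k h w + PsBH dg H P Q c k h w := by
  rw [PsiH, PsAH, Ps1H, PsBH, Ps1]
  set Y := col dg h w
  set Y' := col dg (h * dg (w 0).1) (hr w)
  set j := jc g N Q H Y
  set j' := jc g N Q H Y'
  set l := (Wl w).map dg
  have h1 : ∀ α β : G, Kf c h l k α β = Kf c h l k α h + Kf c h l k h (h * dg (w 0).1) +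
      Kf c h l k (h * dg (w 0).1) β := fun α β => by
    rw [Kf_add c hD _ _ hc, Kf_add c hD _ _ hc]
  unfold cs
  have h2 : ∀ i ∈ range P, ∑ i' ∈ range P, Kf c h l k (Y (j + i * Q)) (Y' (j' + i' * Q)) =
      P • Kf c h l k (Y (j + i * Q)) h + P • Kf c h l k h (h * dg (w 0).1) +
      ∑ i' ∈ range P, Kf c h l k (h * dg (w 0).1) (Y' (j' + i' * Q)) := by
    intro i _
    rw [Finset.sum_congr rfl fun i' _ => h1 (Y (j + i * Q)) (Y' (j' + i' * Q)),
      Finset.sum_add_distrib, Finset.sum_add_distrib, Finset.sum_const, Finset.sum_const,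
      Finset.card_range]
  rw [Finset.sum_congr rfl h2, Finset.sum_add_distrib, Finset.sum_add_distrib, Finset.sum_const,
    Finset.sum_const, Finset.card_range, Finset.smul_sum, Finset.smul_sum, mul_smul]

variable {p : ℕ} (hp : p.Prime) {v : ℕ} {Q} (hN : N = p ^ v * Q) (hQ : ∃ m, Q = p ^ m)
  (hroot : ∀ y ∈ H, IsConj y g → ∀ x ∈ H, x ^ p ^ (v + 1) ≠ y) (hdg : ∀ s, dg s ∈ H)

lemma hr_closed (h : G) (w : ZMod N → S × S) (hc : h * ((Wl w).map dg).prod = g * h) :
    (h * dg (w 0).1) * ((Wl (hr w)).map dg).prod = g * (h * dg (w 0).1) := by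
  obtain ⟨r, h1, h2⟩ := Wl_half dg w
  rw [h1, List.prod_append, List.prod_singleton] at hc
  rw [h2, List.prod_append, List.prod_singleton, mul_assoc, ← mul_assoc (dg (w 0).1), ← mul_assoc,
    hc, mul_assoc]

include hp hN hQ hroot hdg in
/-- the odd column -/
lemma cs_half {F : G → A} (hF : ∀ a, F (g * a) = F a) (h : G) (w : ZMod N → S × S)
    (hc : h * ((Wl w).map dg).prod = g * h) (z : G) (hz : z * g = g * z) :
    cs (p ^ v) Q F (col dg (z * (h * dg (w 0).1)) (hr w))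
      (jc g N Q H (col dg (z * (h * dg (w 0).1)) (hr w))) =
    cs (p ^ v) Q (fun a => F (z * a)) (col dg (h * dg (w 0).1) (hr w))
      (jc g N Q H (col dg (h * dg (w 0).1) (hr w))) :=
  cs_spec hp hN hQ hroot hF (col_isColH dg hdg _ _ (hr_closed dg h w hc)) z hz 0 _
    fun b => col_mul dg _ _ _ b

include hp hN hQ hroot hdg in
/-- the even column -/
lemma cs_full {F : G → A} (hF : ∀ a, F (g * a) = F a) (h : G) (w : ZMod N → S × S)
    (hc : h * ((Wl w).map dg).prod = g * h) (z : G) (hz : z * g = g * z) :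
    cs (p ^ v) Q F (col dg (z * (h * dg (w 0).1) * dg (hr w 0).1) (hr (hr w)))
      (jc g N Q H (col dg (z * (h * dg (w 0).1) * dg (hr w 0).1) (hr (hr w)))) =
    cs (p ^ v) Q (fun a => F (z * a)) (col dg h w) (jc g N Q H (col dg h w)) := by
  refine cs_spec hp hN hQ hroot hF (col_isColH dg hdg _ _ hc) z hz 1 _ fun b => ?_
  rw [mul_assoc z, col_mul, col_shift]
  simp

lemma Kf_g_left (c : V g A) (h : G) (l : List G) (k : ℕ) (α β : G) :
    Kf c h l k (g * α) β = Kf c h l k α β := by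
  have := Kf_zpow_left c h l k 1 α β
  rwa [zpow_one] at this

lemma Kf_g_right (c : V g A) (h : G) (l : List G) (k : ℕ) (α β : G) :
    Kf c h l k α (g * β) = Kf c h l k α β := by
  have := Kf_zpow_right c h l k 1 α β
  rwa [zpow_one] at this

include hp hN hQ hroot hdg in
lemma PsiH_half (c : V g A) (hth : ∀ z (hz : z * g = g * z), th z hz c = c) (k : ℕ) (h : G)
    (w : ZMod N → S × S) (z : G) (hc : h * ((Wl w).map dg).prod = g * h) (hz : z * g = g * z) :
    PsiH dg H (p ^ v) Q c k h w = - PsiH dg H (p ^ v) Q c k (z * (h * dg (w 0).1)) (hr w) := by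
  rw [PsiH, PsiH]
  have e1 : ∀ α : G, cs (p ^ v) Q (fun β => Kf c (z * (h * dg (w 0).1)) ((Wl (hr w)).map dg) k α β)
      (col dg (z * (h * dg (w 0).1) * dg (hr w 0).1) (hr (hr w)))
      (jc g N Q H (col dg (z * (h * dg (w 0).1) * dg (hr w 0).1) (hr (hr w)))) =
      cs (p ^ v) Q (fun β => Kf c (z * (h * dg (w 0).1)) ((Wl (hr w)).map dg) k α (z * β))
        (col dg h w) (jc g N Q H (col dg h w)) := fun α =>
    cs_full dg H hp hN hQ hroot hdg (fun β => Kf_g_right c _ _ k α β) h w hc z hz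
  simp only [e1]
  rw [cs_half dg H hp hN hQ hroot hdg (F := fun α => cs (p ^ v) Q (fun β =>
    Kf c (z * (h * dg (w 0).1)) ((Wl (hr w)).map dg) k α (z * β)) (col dg h w)
      (jc g N Q H (col dg h w))) (fun α => by
        show cs _ _ _ _ _ = cs _ _ _ _ _
        simp only [Kf_g_left]) h w hc z hz]
  simp only [Kf_half dg c hth k h w hc z hz]
  unfold cs
  rw [Finset.sum_comm, ← Finset.sum_neg_distrib]
  refine Finset.sum_congr rfl fun i _ => ?_
  rw [← Finset.sum_neg_distrib]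
  exact Finset.sum_congr rfl fun i' _ => Kf_anti _ _ _ _ _ _

include hp hN hQ hroot hdg in
lemma PsBH_half (c : V g A) (hth : ∀ z (hz : z * g = g * z), th z hz c = c) (k : ℕ) (h : G)
    (w : ZMod N → S × S) (z : G) (hc : h * ((Wl w).map dg).prod = g * h) (hz : z * g = g * z) :
    PsBH dg H (p ^ v) Q c k h w = - PsAH dg H (p ^ v) Q c k (z * (h * dg (w 0).1)) (hr w) := by
  rw [PsBH, PsAH, cs_half dg H hp hN hQ hroot hdg (F := fun α =>
    Kf c (z * (h * dg (w 0).1)) ((Wl (hr w)).map dg) k α (z * (h * dg (w 0).1)))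
      (fun α => Kf_g_left _ _ _ _ _ _) h w hc z hz]
  simp only [Kf_half dg c hth k h w hc z hz]
  unfold cs
  rw [← smul_neg, ← Finset.sum_neg_distrib]
  congr 1
  exact Finset.sum_congr rfl fun i' _ => Kf_anti _ _ _ _ _ _

lemma cs_cen (F : G → A) (hF : ∀ α b, b * F α = F α * b) (Y : ℕ → G) (j : ℕ) (b : A) :
    b * cs P Q F Y j = cs P Q F Y j * b := by
  unfold cs
  rw [Finset.mul_sum, Finset.sum_mul]
  exact Finset.sum_congr rfl fun i _ => hF _ _

lemma PsiH_cen (c : V g A) (hcen : c ∈ Cen g A) (k : ℕ) (h : G) (w : ZMod N → S × S) (b : A) :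
    b * PsiH dg H P Q c k h w = PsiH dg H P Q c k h w * b :=
  cs_cen P _ (fun _ _ => cs_cen P _ (fun _ _ => Kf_cen c hcen _ _ _ _ _ _) _ _ _) _ _ _

lemma PsBH_cen (c : V g A) (hcen : c ∈ Cen g A) (k : ℕ) (h : G) (w : ZMod N → S × S) (b : A) :
    b * PsBH dg H P Q c k h w = PsBH dg H P Q c k h w * b := by
  rw [PsBH, mul_smul_comm, smul_mul_assoc]
  congr 1
  exact cs_cen P _ (fun _ _ => Kf_cen c hcen _ _ _ _ _ _) _ _ _

variable {T₁ T₂ : A →+ M} (h12 : ∀ s m, T₁ (a s * m) = T₂ (m * a s))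
  (h21 : ∀ s m, T₂ (a s * m) = T₁ (m * a s)) {t : G → G}
  (ht : ∀ y, IsConj y g → t y * y * (t y)⁻¹ = g) {c : V g A} (hcen : c ∈ Cen g A)
  (hD : ∀ m, D m (ev c) = 0) (hth : ∀ z (hz : z * g = g * z), th z hz c = c)

include hp hN hQ hroot hdg h12 ht hcen hth in
lemma Fs_half_PsiH (k : ℕ) (w : ZMod N → S × S) :
    Fs dg a g T₁ t (PsiH dg H (p ^ v) Q c k) w =
      - Fs dg a g T₂ t (PsiH dg H (p ^ v) Q c k) (hr w) := by
  rw [← Fs_neg]
  exact Fs_half dg a h12 ht _ _ (PsiH_cen dg H _ c hcen k)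
    (fun h w z hc hz => PsiH_half dg H hp hN hQ hroot hdg c hth k h w z hc hz) w

include hp hN hQ hroot hdg h12 h21 ht hcen hth in
lemma FsH_rot (k : ℕ) (w : ZMod N → S × S) :
    Fs dg a g T₁ t (PsiH dg H (p ^ v) Q c k) (shift 1 w) =
      Fs dg a g T₁ t (PsiH dg H (p ^ v) Q c k) w := by
  rw [Fs_half_PsiH dg a H hp hN hQ hroot hdg h12 ht hcen hth k w,
    Fs_half_PsiH dg a H hp hN hQ hroot hdg h21 ht hcen hth k (hr w), neg_neg, hr_hr]

include hp hN hQ hroot hdg h12 h21 ht hcen hth in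
lemma FsH_rot' (k : ℕ) (e : ZMod N) (w : ZMod N → S × S) :
    Fs dg a g T₁ t (PsiH dg H (p ^ v) Q c k) (shift e w) =
      Fs dg a g T₁ t (PsiH dg H (p ^ v) Q c k) w := by
  have key : ∀ j : ℕ, Fs dg a g T₁ t (PsiH dg H (p ^ v) Q c k) (shift (j : ZMod N) w) =
      Fs dg a g T₁ t (PsiH dg H (p ^ v) Q c k) w := by
    intro j
    induction j with
    | zero => simp
    | succ j ih =>
      rw [← ih, ← FsH_rot dg a H hp hN hQ hroot hdg h12 h21 ht hcen hth k (shift (j : ZMod N) w),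
        shift_shift]
      congr 2
      push_cast
      ring
  have h := key e.val
  rwa [ZMod.natCast_zmod_val] at h

include hp hN hQ hroot hdg in
/-- periodic words -/
lemma FsH_div (Ψ : G → (ZMod N → S × S) → A) (w : ZMod N → S × S) (d q : ℕ) (hdq : d * q = N)
    (hw : shift (d : ZMod N) w = w) :
    ∃ y : M, d • Fs dg a g T₁ t Ψ w = Q • y := by
  classical
  obtain ⟨m, hm⟩ := hQ
  rw [Fs]
  by_cases hy : IsConj ((Wl w).map dg).prod g
  · rw [if_pos hy]
    have h3 : mpr (fun i => pr dg (w i)) 0 N = mpr (fun i => pr dg (w i)) 0 d ^ q := by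
      have h2 := mpr_periodic d q (fun i => pr dg (w i))
        (congrArg (fun v : ZMod N → S × S => fun i => pr dg (v i)) hw)
      rw [← h2]
      exact congrArg _ hdq.symm
    have hqd : q ∣ p ^ (v + m) := ⟨d, by rw [mul_comm q, hdq, hN, hm, pow_add]⟩
    obtain ⟨j, _, hj⟩ := (Nat.dvd_prime_pow hp).1 hqd
    have hjv : j ≤ v := by
      by_contra hcon
      push Not at hcon
      obtain ⟨i, hi⟩ := Nat.exists_eq_add_of_le hcon
      refine hroot _ ?_ hy (mpr (fun i => pr dg (w i)) 0 d ^ p ^ i)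
        (H.pow_mem (prod_Wl_mem dg hdg w d) _) ?_
      · rw [prod_Wl]
        exact prod_Wl_mem dg hdg w N
      · rw [prod_Wl, h3, ← pow_mul, hj, ← pow_add]
        congr 2
        omega
    obtain ⟨i, hi⟩ := Nat.exists_eq_add_of_le hjv
    have h4 : d = Q * p ^ i := by
      have e1 : d * p ^ j = Q * p ^ i * p ^ j := by
        rw [← hj, hdq, hN, hi, hj, pow_add]
        ring
      exact Nat.eq_of_mul_eq_mul_right (pow_pos hp.pos j) e1
    rw [h4, mul_smul]
    exact ⟨_, rfl⟩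
  · rw [if_neg hy]
    exact ⟨0, by rw [smul_zero, smul_zero]⟩

include hp hN hQ hroot hdg h12 h21 ht hcen hth in
/-- the total weight is divisible by `Q` -/
theorem sum_PsiH_mem (k : ℕ) :
    ∃ y : M, ∑ w : ZMod N → S × S, Fs dg a g T₁ t (PsiH dg H (p ^ v) Q c k) w = Q • y := by
  obtain ⟨y, hy⟩ := cyc_sum' N (Fs dg a g T₁ t (PsiH dg H (p ^ v) Q c k))
    (FsH_rot' dg a H hp hN hQ hroot hdg h12 h21 ht hcen hth k)
    ((nsmulAddMonoidHom (α := M) Q).range) (fun w d q hdq hw => by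
      obtain ⟨y, hy⟩ := FsH_div dg a H hp hN hQ hroot hdg (T₁ := T₁) (t := t)
        (PsiH dg H (p ^ v) Q c k) w d q hdq hw
      exact ⟨y, hy.symm⟩)
  exact ⟨y, hy.symm⟩

end inv

end Pool.Agent.W647.HY1
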