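import Pool.Agent.W647.HY2

/-!
# The value of the total weight
-/

set_option autoImplicit false
set_option linter.unusedSectionVars false

namespace Pool.Agent.W647.HY1

open Finset Pool.Agent.W647.HV1 Pool.Agent.W647.HW1 Pool.Agent.H23R2 Pool.Agent.H23R2.Cyc

section zero

variable {G : Type*} [Group G] {g : G} {A : Type*} [Ring A] {S : Type*} [Fintype S]
  (dg : S → G) (a : S → A)

lemma Sk_zero (he : el dg a * el dg a = 1) (κ : List G) (h : G) (hκ : κ.prod ≠ 1) :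
    Sk dg a g 0 h κ = 0 := by
  classical
  induction κ generalizing h with
  | nil => exact absurd List.prod_nil hκ
  | cons γ κ ih =>
    rw [Sk_cons_zero dg a he]
    split_ifs with hγ
    · apply ih
      rw [List.prod_cons, hγ, one_mul] at hκ
      exact hκ
    · rfl

lemma Sk_all (he : el dg a * el dg a = 1) (κ : List G) (k : ℕ) (hk : k ≠ 0 ∨ g ≠ 1) (h : G)
    (hc : h * κ.prod = g * h) : Sk dg a g k h κ = 0 := by
  rcases Nat.eq_zero_or_pos k with rfl | hk0
  · refine Sk_zero dg a he κ h fun h1 => ?_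
    rw [h1, mul_one] at hc
    exact (hk.resolve_left (by simp)) (mul_eq_right.1 hc.symm)
  · obtain ⟨k, rfl⟩ := Nat.exists_eq_succ_of_ne_zero hk0.ne'
    exact Sk_closed dg a he κ k h (by rw [hc, x_inv])

end zero

section total

variable {S : Type*} [Fintype S] {N : ℕ} [NeZero N] {G : Type*} [Group G] {g : G} {A : Type*}
  [Ring A] (dg : S → G) (a : S → A) {M : Type*} [AddCommGroup M]

/-- **Independence of the choice of the even vertex** -/
theorem sum_PsA_gen (he : el dg a * el dg a = 1) (T : A →+ M) {t : G → G}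
    (ht : ∀ y, IsConj y g → t y * y * (t y)⁻¹ = g) (c : V g A) (k : ℕ) (hk : k ≠ 0 ∨ g ≠ 1)
    (θ : (ℕ → G) → G) :
    ∑ w : ZMod N → S × S, Fs dg a g T t
      (fun h w => Kf c h ((Wl w).map dg) k (θ (col dg h w)) h) w = 0 := by
  classical
  rw [sum_tz]
  let θ' : G → (Fin N → G) → G := fun h κ => θ (fun j => h * mpr (tz κ) 0 j)
  have h1 : ∀ w : Fin N → S × S, Fs dg a g T t
      (fun h w => Kf c h ((Wl w).map dg) k (θ (col dg h w)) h) (tz w) =
      ∑ κ ∈ ((univ : Finset (Fin N → S × S)).image fun w => fun i => pr dg (w i)).filter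
        (fun κ => IsConj (List.ofFn κ).prod g),
        if (fun i => pr dg (w i)) = κ then T (co a (pl (List.ofFn w)) *
          ev ((Lop A g (t (List.ofFn κ).prod) ((pl (List.ofFn w)).map dg) ^ k)
            (x (θ' (t (List.ofFn κ).prod) κ) (x (t (List.ofFn κ).prod) c))) []) else 0 := by
    intro w
    have e1 : ((Wl (tz w)).map dg).prod = (List.ofFn fun i => pr dg (w i)).prod := by
      rw [Wl_tz, prod_pl, List.map_ofFn]
      rfl
    rw [Finset.sum_ite_eq, Fs, e1]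
    by_cases h2 : IsConj (List.ofFn fun i => pr dg (w i)).prod g
    · rw [if_pos h2, if_pos]
      · rw [Kf, Wl_tz]
        rfl
      · exact mem_filter.2 ⟨mem_image_of_mem (fun w : Fin N → S × S => fun i => pr dg (w i))
          (mem_univ w), h2⟩
    · rw [if_neg h2, if_neg]
      exact fun h3 => h2 (mem_filter.1 h3).2
  rw [Finset.sum_congr rfl fun w _ => h1 w, Finset.sum_comm]
  refine Finset.sum_eq_zero fun κ hκ => ?_
  have hκg := (mem_filter.1 hκ).2
  set h := t (List.ofFn κ).prod with hh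
  have h2 : h * (List.ofFn κ).prod = g * h := mul_inv_eq_iff_eq_mul.1 (ht _ hκg)
  have h3 := Sk_all (g := g) dg a he (List.ofFn κ) k hk h h2
  rw [Sk_eq] at h3
  have h4 : T (ev ((∑ w : Fin N → S × S, (if (fun i => pr dg (w i)) = κ then
      sm g (co a (pl (List.ofFn w))) * Lop A g h ((pl (List.ofFn w)).map dg) ^ k else 0) :
        AddMonoid.End (V g A)) (x (θ' h κ) (x h c))) []) =
      T (ev ((0 : AddMonoid.End (V g A)) (x (θ' h κ) (x h c))) []) := by rw [h3]
  have h5 : T (ev ((0 : AddMonoid.End (V g A)) (x (θ' h κ) (x h c))) []) = 0 := map_zero T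
  refine Eq.trans ?_ (h4.trans h5)
  have h6 : (∑ w : Fin N → S × S, (if (fun i => pr dg (w i)) = κ then
      sm g (co a (pl (List.ofFn w))) * Lop A g h ((pl (List.ofFn w)).map dg) ^ k else 0) :
        AddMonoid.End (V g A)) (x (θ' h κ) (x h c)) =
      ∑ w : Fin N → S × S, (if (fun i => pr dg (w i)) = κ then
      sm g (co a (pl (List.ofFn w))) * Lop A g h ((pl (List.ofFn w)).map dg) ^ k else 0 :
        AddMonoid.End (V g A)) (x (θ' h κ) (x h c)) := by
    induction (univ : Finset (Fin N → S × S)) using Finset.induction_on with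
    | empty => rfl
    | insert s W hs ih =>
      rw [Finset.sum_insert hs, Finset.sum_insert hs, ← ih]
      rfl
  rw [h6, ← evHom_apply, map_sum, map_sum]
  refine Finset.sum_congr rfl fun w _ => ?_
  split_ifs
  · rfl
  · exact (map_zero T).symm

lemma Fs_nsmul (T : A →+ M) (t : G → G) (n : ℕ) (Ψ : G → (ZMod N → S × S) → A)
    (w : ZMod N → S × S) :
    Fs dg a g T t (fun h w => n • Ψ h w) w = n • Fs dg a g T t Ψ w := by
  rw [Fs, Fs]
  split_ifs
  · rw [mul_smul_comm, map_nsmul]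
  · rw [smul_zero]

lemma Fs_sum {ι : Type*} (s : Finset ι) (T : A →+ M) (t : G → G)
    (Ψ : ι → G → (ZMod N → S × S) → A) (w : ZMod N → S × S) :
    Fs dg a g T t (fun h w => ∑ i ∈ s, Ψ i h w) w = ∑ i ∈ s, Fs dg a g T t (Ψ i) w := by
  classical
  by_cases h1 : IsConj ((Wl w).map dg).prod g
  · simp only [Fs, if_pos h1]
    rw [Finset.mul_sum, map_sum]
  · simp only [Fs, if_neg h1]
    rw [Finset.sum_const_zero]

variable (H : Subgroup G) (P : ℕ) {Q : ℕ}

theorem sum_PsAH (he : el dg a * el dg a = 1) (T : A →+ M) {t : G → G}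
    (ht : ∀ y, IsConj y g → t y * y * (t y)⁻¹ = g) (c : V g A) (k : ℕ) (hk : k ≠ 0 ∨ g ≠ 1) :
    ∑ w : ZMod N → S × S, Fs dg a g T t (PsAH dg H P Q c k) w = 0 := by
  have h1 : ∀ w : ZMod N → S × S, Fs dg a g T t (PsAH dg H P Q c k) w =
      P • ∑ i ∈ range P, Fs dg a g T t (fun h w => Kf c h ((Wl w).map dg) k
        (col dg h w (jc g N Q H (col dg h w) + i * Q)) h) w := by
    intro w
    have e1 : Fs dg a g T t (PsAH dg H P Q c k) w = P • Fs dg a g T t
        (fun h w => cs P Q (fun α => Kf c h ((Wl w).map dg) k α h) (col dg h w)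
          (jc g N Q H (col dg h w))) w :=
      Fs_nsmul dg a T t P (fun h w => cs P Q (fun α => Kf c h ((Wl w).map dg) k α h)
        (col dg h w) (jc g N Q H (col dg h w))) w
    have e2 : Fs dg a g T t
        (fun h w => cs P Q (fun α => Kf c h ((Wl w).map dg) k α h) (col dg h w)
          (jc g N Q H (col dg h w))) w = ∑ i ∈ range P, Fs dg a g T t
          (fun h w => Kf c h ((Wl w).map dg) k
            (col dg h w (jc g N Q H (col dg h w) + i * Q)) h) w :=
      Fs_sum dg a (range P) T t (fun i h w => Kf c h ((Wl w).map dg) k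
        (col dg h w (jc g N Q H (col dg h w) + i * Q)) h) w
    rw [e1, e2]
  rw [Finset.sum_congr rfl fun w _ => h1 w, ← Finset.smul_sum, Finset.sum_comm]
  have h2 : ∀ i ∈ range P, ∑ w : ZMod N → S × S, Fs dg a g T t (fun h w =>
      Kf c h ((Wl w).map dg) k (col dg h w (jc g N Q H (col dg h w) + i * Q)) h) w = 0 :=
    fun i _ => sum_PsA_gen dg a he T ht c k hk (fun Y : ℕ → G => Y (jc g N Q H Y + i * Q))
  rw [Finset.sum_congr rfl h2, Finset.sum_const_zero, smul_zero]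

variable {p : ℕ} (hp : p.Prime) {v : ℕ} (hN : N = p ^ v * Q) (hQ : ∃ m, Q = p ^ m)
  (hroot : ∀ y ∈ H, IsConj y g → ∀ x ∈ H, x ^ p ^ (v + 1) ≠ y) (hdg : ∀ s, dg s ∈ H)
  {T₁ T₂ : A →+ M} (h12 : ∀ s m, T₁ (a s * m) = T₂ (m * a s))
  (h21 : ∀ s m, T₂ (a s * m) = T₁ (m * a s))
  {t : G → G}
  (ht : ∀ y, IsConj y g → t y * y * (t y)⁻¹ = g) {c : V g A} (hcen : c ∈ Cen g A)
  (hD : ∀ m, D m (ev c) = 0) (hth : ∀ z (hz : z * g = g * z), th z hz c = c)

include hp hN hQ hroot hdg h12 ht hcen hth in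
/-- **Independence of the choice of the odd vertex** -/
theorem sum_PsBH (he : el dg a * el dg a = 1) (k : ℕ) (hk : k ≠ 0 ∨ g ≠ 1) :
    ∑ w : ZMod N → S × S, Fs dg a g T₁ t (PsBH dg H (p ^ v) Q c k) w = 0 := by
  have h1 : ∀ w : ZMod N → S × S, Fs dg a g T₁ t (PsBH dg H (p ^ v) Q c k) w =
      - Fs dg a g T₂ t (PsAH dg H (p ^ v) Q c k) (hr w) := by
    intro w
    rw [← Fs_neg]
    exact Fs_half dg a h12 ht _ _ (PsBH_cen dg H _ c hcen k)
      (fun h w z hc hz => PsBH_half dg H hp hN hQ hroot hdg c hth k h w z hc hz) w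
  rw [Finset.sum_congr rfl fun w _ => h1 w, Finset.sum_neg_distrib]
  have h2 : ∑ w : ZMod N → S × S, Fs dg a g T₂ t (PsAH dg H (p ^ v) Q c k) (hr w) =
      ∑ w : ZMod N → S × S, Fs dg a g T₂ t (PsAH dg H (p ^ v) Q c k) w :=
    (hrE S N).sum_comp (fun w => Fs dg a g T₂ t (PsAH dg H (p ^ v) Q c k) w)
  rw [h2, sum_PsAH dg a H _ he T₂ ht c k hk, neg_zero]

include hp hN hQ hroot hdg h12 ht hcen hD hth in
theorem sum_PsiH_eq (he : el dg a * el dg a = 1) (k : ℕ) (hk : k ≠ 0 ∨ g ≠ 1) :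
    ∑ w : ZMod N → S × S, Fs dg a g T₁ t (PsiH dg H (p ^ v) Q c k) w =
      (p ^ v * p ^ v) • ∑ w : ZMod N → S × S, Fs dg a g T₁ t (Ps1 dg c k) w := by
  have h1 : ∀ w : ZMod N → S × S, Fs dg a g T₁ t (PsiH dg H (p ^ v) Q c k) w =
      Fs dg a g T₁ t (PsAH dg H (p ^ v) Q c k) w +
      (p ^ v * p ^ v) • Fs dg a g T₁ t (Ps1 dg c k) w +
      Fs dg a g T₁ t (PsBH dg H (p ^ v) Q c k) w := by
    intro w
    rw [← Fs_nsmul, ← Fs_add, ← Fs_add]
    exact Fs_congr dg a T₁ ht _ _ (fun h w hc => PsiH_split dg H _ Q c hD k h w hc) w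
  rw [Finset.sum_congr rfl fun w _ => h1 w, Finset.sum_add_distrib, Finset.sum_add_distrib,
    sum_PsAH dg a H _ he T₁ ht c k hk, sum_PsBH dg a H hp hN hQ hroot hdg h12 ht hcen hth he k hk,
    zero_add, add_zero, Finset.smul_sum]

end total

section final

variable {S : Type*} [Fintype S] {G : Type*} [Group G] {g : G} {A : Type*}
  [Ring A] (dg : S → G) (a : S → A) {M : Type*} [AddCommGroup M]
  {T₁ T₂ : A →+ M} (h12 : ∀ s m, T₁ (a s * m) = T₂ (m * a s))
  (h21 : ∀ s m, T₂ (a s * m) = T₁ (m * a s))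
  {t : G → G} (ht : ∀ y, IsConj y g → t y * y * (t y)⁻¹ = g) {c : V g A} (hcen : c ∈ Cen g A)
  (hD : ∀ m, D m (ev c) = 0) (hth : ∀ z (hz : z * g = g * z), th z hz c = c)

include h12 h21 ht hcen hD hth in
theorem odd_height (H : Subgroup G) (hdg : ∀ s, dg s ∈ H) {p : ℕ} (hp : p.Prime) (v : ℕ)
    (hroot : ∀ y ∈ H, IsConj y g → ∀ x ∈ H, x ^ p ^ (v + 1) ≠ y)
    (he : el dg a * el dg a = 1) (k : ℕ) (hk : k ≠ 0 ∨ g ≠ 1) (m : ℕ) :
    ∃ y : M, k.factorial • ((p ^ v * p ^ v) •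
      ∑ w : Fin (2 * k + 2) → S, PhiV dg a T₁ c t (List.ofFn w)) = p ^ m • y := by
  obtain ⟨n, hn⟩ : ∃ n, n + 1 = p ^ v * p ^ (m + (k + 1)) :=
    ⟨p ^ v * p ^ (m + (k + 1)) - 1, Nat.sub_add_cancel (Nat.one_le_iff_ne_zero.2
      (mul_ne_zero (pow_ne_zero _ hp.ne_zero) (pow_ne_zero _ hp.ne_zero)))⟩
  have hkn : k ≤ n := by
    have h1 : k + 1 < p ^ (k + 1) := Nat.lt_pow_self hp.one_lt
    have h2 : p ^ (k + 1) ≤ p ^ v * p ^ (m + (k + 1)) := by
      rw [← pow_add]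
      exact Nat.pow_le_pow_right hp.pos (by omega)
    omega
  obtain ⟨y, hy⟩ := sum_PsiH_mem (N := n + 1) dg a H hp hn ⟨_, rfl⟩ hroot hdg h12 h21 ht hcen hth k
  rw [sum_PsiH_eq dg a H hp hn ⟨_, rfl⟩ hroot hdg h12 ht hcen hD hth he k hk,
    sum_Ps1 dg a he T₁ ht c n k] at hy
  set Z := ∑ w : Fin (2 * k + 2) → S, PhiV dg a T₁ c t (List.ofFn w) with hZ
  obtain ⟨s, hs⟩ := desc_mod2 k n hkn
  refine ⟨(-1 : ℤ) ^ k • (p ^ (k + 1) • y) + s • ((p ^ v * p ^ (k + 1)) • ((p ^ v * p ^ v) • Z)), ?_⟩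
  rw [← natCast_zsmul, hs, add_smul, mul_smul, natCast_zsmul,
    smul_comm (n.descFactorial k) (p ^ v * p ^ v) Z, hy, smul_add, hn]
  congr 1
  · rw [pow_add p m (k + 1), mul_smul, smul_comm]
  · rw [mul_smul, smul_comm, natCast_zsmul, smul_comm (p ^ m) s]
    congr 1
    rw [smul_smul (p ^ m)]
    congr 1
    rw [pow_add]
    ring

end final

end Pool.Agent.W647.HY1
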