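import Pool.Agent.W647.HY3
import Pool.Agent.W647.HX2

/-!
# Invertible matrices: elements of finite order and elements of bounded `p`-height
-/

set_option autoImplicit false
set_option linter.unusedSectionVars false

namespace Pool.Agent.W647.HX1

open Finset Pool.Agent.W647.HV1 Pool.Agent.W647.HW1 Pool.Agent.W647.HY1
open scoped TensorProduct

section matrix

variable {G : Type*} [Group G] {R : Type*} [Ring R] {d : Type*} [Fintype d] [DecidableEq d]
  {M : Type*} [AddCommGroup M]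

/-- Divisibility at the elements of bounded `p`-height -/
theorem oddSum_height (T : R →+ M) (hT : ∀ a b, T (a * b) = T (b * a)) {g : G}
    {t : G → G} (ht : ∀ y, IsConj y g → t y * y * (t y)⁻¹ = g) {k : ℕ}
    {c : (Fin (2 * k + 1 + 1) → G) → R} (hc : IsClassCocycle g c)
    (hcen : ∀ v a, a * c v = c v * a)
    (v u : Matrix d d (MonoidAlgebra R G)) (hvu : v * u = 1) (huv : u * v = 1)
    (H : Subgroup G) (hv : ∀ i j s, (v i j).coeff s ≠ 0 → s ∈ H)
    (hu : ∀ i j s, (u i j).coeff s ≠ 0 → s ∈ H)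
    {p : ℕ} (hp : p.Prime) (b : ℕ)
    (hroot : ∀ y ∈ H, IsConj y g → ∀ x ∈ H, x ^ p ^ (b + 1) ≠ y) (m : ℕ) :
    ∃ y : M, k.factorial • ((p ^ b * p ^ b) • oddSum T g t c v u) = p ^ m • y := by
  classical
  let S : Finset G := univ.biUnion fun i => univ.biUnion fun j => ((inv2 v u) i j).coeff.support
  have hS : ∀ i j, ((inv2 v u) i j).coeff.support ⊆ S := fun i j =>
    (Finset.subset_biUnion_of_mem (fun j => ((inv2 v u) i j).coeff.support) (mem_univ j)).trans
      (Finset.subset_biUnion_of_mem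
        (fun i => univ.biUnion fun j => ((inv2 v u) i j).coeff.support) (mem_univ i))
  have hSH : ∀ s : S, (s : G) ∈ H := by
    rintro ⟨s, hs⟩
    obtain ⟨i, _, hi⟩ := Finset.mem_biUnion.1 hs
    obtain ⟨j, _, hj⟩ := Finset.mem_biUnion.1 hi
    rw [Finsupp.mem_support_iff] at hj
    rcases i with i | i <;> rcases j with j | j
    · simp [inv2] at hj
    · exact hv i j s (by simpa [inv2] using hj)
    · exact hu i j s (by simpa [inv2] using hj)
    · simp [inv2] at hj
  have hg1 : g ≠ 1 := by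
    rintro rfl
    exact hroot 1 H.one_mem (IsConj.refl 1) 1 H.one_mem (one_pow _)
  have he : el (fun s : S => (s : G)) (fun s : S => cm (inv2 v u) (s : G)) *
      el (fun s : S => (s : G)) (fun s : S => cm (inv2 v u) (s : G)) = 1 := by
    apply rho_inj
    rw [rho_mul, rho_el (inv2 v u) S hS, inv2_sq v u hvu huv]
    refine (Matrix.ext fun i j => ?_)
    rw [MonoidAlgebra.one_def, rho_single]
    by_cases h : i = j
    · subst h
      rw [Matrix.one_apply_eq, Matrix.one_apply_eq, MonoidAlgebra.one_def]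
    · rw [Matrix.one_apply_ne h, Matrix.one_apply_ne h, MonoidAlgebra.single_zero]
  obtain ⟨y, hy⟩ := odd_height (T₁ := tr1 d T) (T₂ := tr2 d T)
    (c := lV (cmat_class (d := d ⊕ d) hc)) (t := t)
    (fun s : S => (s : G)) (fun s : S => cm (inv2 v u) (s : G))
    (fun s X => tr_12 T hT v u s X) (fun s X => tr_21 T hT v u s X) ht
    (Cen_lV _ (cmat_cen hcen)) (D_lc (cmat_class (d := d ⊕ d) hc)) (th_lV _) H hSH hp b hroot he k
    (Or.inr hg1) m
  have h1 := oddSum_eq (d := d) (t := t) T (n := 2 * k + 1) ⟨k + 1, by ring⟩ hc v u S hS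
  have h2 : k.factorial • ((p ^ b * p ^ b) •
      (((Equiv.Perm.sign (Fin.revPerm : Equiv.Perm (Fin (2 * k + 1 + 1))) : ℤˣ) : ℤ) •
        oddSum T g t c v u)) = p ^ m • y := by
    rw [← hy]
    exact congrArg (fun z => k.factorial • ((p ^ b * p ^ b) • z)) h1.symm
  rcases Int.units_eq_one_or
    (Equiv.Perm.sign (Fin.revPerm : Equiv.Perm (Fin (2 * k + 1 + 1)))) with h3 | h3
  · rw [h3, Units.val_one, one_smul] at h2
    exact ⟨y, h2⟩
  · rw [h3, Units.val_neg, Units.val_one, neg_smul, one_smul, smul_neg, smul_neg] at h2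
    exact ⟨-y, by rw [smul_neg, ← h2, neg_neg]⟩

/-- the product `f s₀ * f' s₁ * f s₂ ⋯` -/
def altC (f f' : G → Matrix d d R) : List G → Matrix d d R
  | [] => 1
  | s :: l => f s * altC f' f l

lemma altProd_eq (v u : Matrix d d (MonoidAlgebra R G)) (l : List G) :
    altProd v u l = altC (cm v) (cm u) l := by
  induction l generalizing v u with
  | nil => rfl
  | cons s l ih => rw [altProd, altC, ih]

variable {A : Type*} [AddCommGroup A]

open Classical in
/-- the odd number, for matrices `f s`, `f' s` of coefficients -/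
noncomputable def odTau (T : R →+ A →+ M) (g : G) (t : G → G) {n : ℕ} (c : (Fin (n + 1) → G) → A)
    (f f' : G → Matrix d d R) : M :=
  ∑ᶠ w : Fin (n + 1) → G, if IsConj (List.ofFn w).prod g then
    T (altC f f' (List.ofFn w)).trace
      (c fun i => t (List.ofFn w).prod * ((List.ofFn w).take i).prod) else 0

lemma oddSum_em' (T : R →+ A →+ M) (g : G) (t : G → G) {n : ℕ} (c : (Fin (n + 1) → G) → A)
    (v u : Matrix d d (MonoidAlgebra R G)) :
    oddSum (tE T) g t (fun v => κ R A (c v)) (em A v) (em A u) =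
      odTau T g t c (cm v) (cm u) := by
  rw [oddSum, odTau]
  refine finsum_congr fun w => ?_
  have h1 : (altProd (em A v) (em A u) (List.ofFn w)).trace =
      ι R A (altC (cm v) (cm u) (List.ofFn w)).trace := by
    rw [altProd_em, altProd_eq]
    exact (AddMonoidHom.map_trace (ι R A).toAddMonoidHom _).symm
  simp only [h1, tE_κ]

lemma em_coeff (u : Matrix d d (MonoidAlgebra R G)) (i j : d) (s : G)
    (h : ((em A u) i j).coeff s ≠ 0) : (u i j).coeff s ≠ 0 := by
  intro h0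
  apply h
  have h1 := congrFun (congrFun (cm_em (A := A) u s) i) j
  have h2 : ((em A u) i j).coeff s = ι R A ((u i j).coeff s) := h1
  rw [h2, h0, map_zero]

/-- **Elements of finite order** -/
theorem odTau_fin (T : R →+ A →+ M) (hT : ∀ x y, T (x * y) = T (y * x)) {g : G}
    (hg : IsOfFinOrder g) {t : G → G} (ht : ∀ y, IsConj y g → t y * y * (t y)⁻¹ = g) {k : ℕ}
    (hk : k ≠ 0) {c : (Fin (2 * k + 1 + 1) → G) → A} (hc : IsClassCoc g c)
    (v u : Matrix d d (MonoidAlgebra R G)) (hvu : v * u = 1) (huv : u * v = 1) (N : ℕ)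
    (hN : N ≠ 0) (hnt : ∀ p : ℕ, p.Prime → p ∣ N → ∀ y : G, orderOf y ≠ p) :
    ∃ y : M, k.factorial • odTau T g t c (cm v) (cm u) = N • y := by
  refine dvd_of_primes N hN fun p hp hpN m => ?_
  rw [← oddSum_em']
  exact oddSum_dvd (tE T) (tE_comm T hT) hg ht hk (κ_class' hc) (fun v a => κ_cen a _)
    (em A v) (em A u) (by rw [← em_mul, hvu, em_one]) (by rw [← em_mul, huv, em_one]) hp
    (hnt p hp hpN) m

/-- **Elements of bounded `p`-height** -/
theorem odTau_height (T : R →+ A →+ M) (hT : ∀ x y, T (x * y) = T (y * x)) {g : G}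
    {t : G → G} (ht : ∀ y, IsConj y g → t y * y * (t y)⁻¹ = g) {k : ℕ}
    {c : (Fin (2 * k + 1 + 1) → G) → A} (hc : IsClassCoc g c)
    (v u : Matrix d d (MonoidAlgebra R G)) (hvu : v * u = 1) (huv : u * v = 1)
    (H : Subgroup G) (hv : ∀ i j s, (v i j).coeff s ≠ 0 → s ∈ H)
    (hu : ∀ i j s, (u i j).coeff s ≠ 0 → s ∈ H)
    {p : ℕ} (hp : p.Prime) (b : ℕ)
    (hroot : ∀ y ∈ H, IsConj y g → ∀ x ∈ H, x ^ p ^ (b + 1) ≠ y) (m : ℕ) :
    ∃ y : M, (k.factorial * p ^ (2 * b)) • odTau T g t c (cm v) (cm u) = p ^ m • y := by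
  obtain ⟨y, hy⟩ := oddSum_height (tE T) (tE_comm T hT) ht (κ_class' hc) (fun v a => κ_cen a _)
    (em A v) (em A u) (by rw [← em_mul, hvu, em_one]) (by rw [← em_mul, huv, em_one]) H
    (fun i j s h => hv i j s (em_coeff v i j s h)) (fun i j s h => hu i j s (em_coeff u i j s h))
    hp b hroot m
  rw [oddSum_em'] at hy
  refine ⟨y, ?_⟩
  rw [← hy, mul_smul, two_mul, pow_add]

end matrix

section graded

variable {G : Type*} [Group G] [DecidableEq G] {S : Type*} [Ring S] (𝒮 : G → AddSubgroup S)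
  [DirectSum.Decomposition 𝒮] {d : Type*} [Fintype d] [DecidableEq d]
  {A : Type*} [AddCommGroup A] {M : Type*} [AddCommGroup M]

/-- **Graded rings, elements of finite order** -/
theorem graded_odd (h1 : (1 : S) ∈ 𝒮 1)
    (hmul : ∀ g h : G, ∀ x ∈ 𝒮 g, ∀ y ∈ 𝒮 h, x * y ∈ 𝒮 (g * h))
    (T : S →+ A →+ M) (hT : ∀ x y, T (x * y) = T (y * x)) {g : G}
    (hg : IsOfFinOrder g) {t : G → G} (ht : ∀ y, IsConj y g → t y * y * (t y)⁻¹ = g) {k : ℕ}
    (hk : k ≠ 0) {c : (Fin (2 * k + 1 + 1) → G) → A} (hc : IsClassCoc g c)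
    (v u : Matrix d d S) (hvu : v * u = 1) (huv : u * v = 1) (N : ℕ) (hN : N ≠ 0)
    (hnt : ∀ p : ℕ, p.Prime → p ∣ N → ∀ y : G, orderOf y ≠ p) :
    ∃ y : M, k.factorial • odTau T g t c (gc 𝒮 v) (gc 𝒮 u) = N • y := by
  rw [← cm_coa 𝒮 h1 hmul v, ← cm_coa 𝒮 h1 hmul u]
  exact odTau_fin T hT hg ht hk hc _ _ (by rw [← map_mul, hvu, map_one])
    (by rw [← map_mul, huv, map_one]) N hN hnt

/-- **Graded rings, elements of bounded `p`-height** -/
theorem graded_height (h1 : (1 : S) ∈ 𝒮 1)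
    (hmul : ∀ g h : G, ∀ x ∈ 𝒮 g, ∀ y ∈ 𝒮 h, x * y ∈ 𝒮 (g * h))
    (T : S →+ A →+ M) (hT : ∀ x y, T (x * y) = T (y * x)) {g : G}
    {t : G → G} (ht : ∀ y, IsConj y g → t y * y * (t y)⁻¹ = g) {k : ℕ}
    {c : (Fin (2 * k + 1 + 1) → G) → A} (hc : IsClassCoc g c)
    (v u : Matrix d d S) (hvu : v * u = 1) (huv : u * v = 1)
    (H : Subgroup G) (hv : ∀ s, gc 𝒮 v s ≠ 0 → s ∈ H) (hu : ∀ s, gc 𝒮 u s ≠ 0 → s ∈ H)
    {p : ℕ} (hp : p.Prime) (b : ℕ)
    (hroot : ∀ y ∈ H, IsConj y g → ∀ x ∈ H, x ^ p ^ (b + 1) ≠ y) (m : ℕ) :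
    ∃ y : M, (k.factorial * p ^ (2 * b)) • odTau T g t c (gc 𝒮 v) (gc 𝒮 u) = p ^ m • y := by
  rw [← cm_coa 𝒮 h1 hmul v, ← cm_coa 𝒮 h1 hmul u] at *
  have key : ∀ (X : Matrix d d (MonoidAlgebra S G)), (∀ s, cm X s ≠ 0 → s ∈ H) →
      ∀ i j s, (X i j).coeff s ≠ 0 → s ∈ H := by
    intro X hX i j s h
    refine hX s fun h0 => h ?_
    exact congrFun (congrFun h0 i) j
  exact odTau_height T hT ht hc _ _ (by rw [← map_mul, hvu, map_one])
    (by rw [← map_mul, huv, map_one]) H (key _ hv) (key _ hu) hp b hroot m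

end graded

end Pool.Agent.W647.HX1
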