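import Pool.Agent.W647.HX2
import Mathlib.RepresentationTheory.Homological.GroupHomology.Basic

/-!
# Groups without infinitely divisible integral homology classes
-/

set_option autoImplicit false
set_option linter.unusedSectionVars false

namespace Pool.Agent.W647.HZ1

open Finset Pool.Agent.W647.HV1 Pool.Agent.W647.HW1 Pool.Agent.W647.HX1 CategoryTheory

section bridge

variable (G : Type) [Group G]

/-- the trivial representation of `G` on `ℤ` -/
abbrev Tr : Rep ℤ G := Rep.trivial ℤ G ℤ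

/-- the differential of the complex of inhomogeneous chains of `G` with coefficients `ℤ` -/
noncomputable def dd (m : ℕ) : ((Fin (m + 1) → G) →₀ ℤ) →+ ((Fin m → G) →₀ ℤ) :=
  (groupHomology.inhomogeneousChains.d (Tr G) m).hom.toAddMonoidHom

lemma dd_single (m : ℕ) (g : Fin (m + 1) → G) (a : ℤ) :
    dd G m (Finsupp.single g a) = Finsupp.single (fun i => g i.succ) a +
      ∑ j : Fin (m + 1), (-1 : ℤ) ^ ((j : ℕ) + 1) • Finsupp.single (Fin.contractNth j (· * ·) g) a :=
  groupHomology.inhomogeneousChains.d_single (A := Tr G) m g a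

lemma dd_dd (m : ℕ) (z : (Fin (m + 2) → G) →₀ ℤ) : dd G m (dd G (m + 1) z) = 0 := by
  have h := groupHomology.inhomogeneousChains.d_comp_d (A := Tr G) (n := m)
  have h2 := congrArg (fun f => f.hom z) h
  exact h2

/-- the group `H_m(G; ℤ)` has no nonzero element which is divisible by all `N ≥ 1` -/
def Red (m : ℕ) : Prop :=
  ∀ x : groupHomology (Tr G) m, (∀ N : ℕ, N ≠ 0 → ∃ y, x = N • y) → x = 0

lemma int_zero_of_dvd (a : ℤ) (h : ∀ N : ℕ, N ≠ 0 → (N : ℤ) ∣ a) : a = 0 := by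
  have h1 := h (a.natAbs + 1) (by omega)
  exact Int.eq_zero_of_abs_lt_dvd h1 (by rw [Int.abs_eq_natAbs]; push_cast; omega)

variable {G}

lemma cyc_of_div {m : ℕ} (z : (Fin (m + 1) → G) →₀ ℤ)
    (hz : ∀ N : ℕ, N ≠ 0 → ∃ y w, z = N • y + dd G (m + 1) w) : dd G m z = 0 := by
  ext v
  refine int_zero_of_dvd _ fun N hN => ?_
  obtain ⟨y, w, h⟩ := hz N hN
  rw [h, map_add, dd_dd, add_zero, map_nsmul, Finsupp.smul_apply, nsmul_eq_mul]
  exact dvd_mul_right _ _

/-- the cycle of a chain -/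
noncomputable def mkc {m : ℕ} (z : (Fin (m + 1) → G) →₀ ℤ) (hz : dd G m z = 0) :
    groupHomology.cycles (Tr G) (m + 1) :=
  groupHomology.cyclesMk (m + 1) m (by simp) z (by
    rw [groupHomology.inhomogeneousChains.d_def]
    exact hz)

lemma i_mkc {m : ℕ} (z : (Fin (m + 1) → G) →₀ ℤ) (hz : dd G m z = 0) :
    groupHomology.iCycles (Tr G) (m + 1) (mkc z hz) = z := by
  rw [mkc]
  exact groupHomology.iCycles_mk _ _ _

lemma i_inj {m : ℕ} : Function.Injective (groupHomology.iCycles (Tr G) (m + 1)) :=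
  (ModuleCat.mono_iff_injective _).1 inferInstance

lemma i_toCycles {m : ℕ} (w : (Fin (m + 2) → G) →₀ ℤ) :
    groupHomology.iCycles (Tr G) (m + 1) (groupHomology.toCycles (Tr G) (m + 2) (m + 1) w) =
      dd G (m + 1) w := by
  have h := (groupHomology.inhomogeneousChains (Tr G)).toCycles_i (m + 2) (m + 1)
  have h2 := congrArg (fun f => f.hom w) h
  rw [groupHomology.inhomogeneousChains.d_def] at h2
  exact h2

lemma π_toCycles {m : ℕ} (w : (Fin (m + 2) → G) →₀ ℤ) :
    groupHomology.π (Tr G) (m + 1) (groupHomology.toCycles (Tr G) (m + 2) (m + 1) w) = 0 := by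
  have h := (groupHomology.inhomogeneousChains (Tr G)).toCycles_comp_homologyπ (m + 2) (m + 1)
  exact congrArg (fun f => f.hom w) h

lemma π_zero {m : ℕ} (x : groupHomology.cycles (Tr G) (m + 1))
    (hx : groupHomology.π (Tr G) (m + 1) x = 0) :
    ∃ w, groupHomology.toCycles (Tr G) (m + 2) (m + 1) w = x := by
  have h := (ShortComplex.mk _ _
    ((groupHomology.inhomogeneousChains (Tr G)).toCycles_comp_homologyπ (m + 2)
      (m + 1))).exact_of_g_is_cokernel
    ((groupHomology.inhomogeneousChains (Tr G)).homologyIsCokernel (m + 2) (m + 1) (by simp))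
  exact (ShortComplex.moduleCat_exact_iff _).1 h x hx

lemma red_chain {m : ℕ} (h : Red G (m + 1)) (z : (Fin (m + 1) → G) →₀ ℤ)
    (hz : ∀ N : ℕ, N ≠ 0 → ∃ y w, z = N • y + dd G (m + 1) w) : ∃ w, z = dd G (m + 1) w := by
  have hz0 := cyc_of_div z hz
  have h1 : groupHomology.π (Tr G) (m + 1) (mkc z hz0) = 0 := by
    refine h _ fun N hN => ?_
    obtain ⟨y, w, hy⟩ := hz N hN
    have hy0 : dd G m y = 0 := by
      have h2 := hz0
      rw [hy, map_add, dd_dd, add_zero, map_nsmul] at h2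
      exact (smul_eq_zero.1 h2).resolve_left hN
    refine ⟨groupHomology.π (Tr G) (m + 1) (mkc y hy0), ?_⟩
    have h3 : mkc z hz0 = N • mkc y hy0 + groupHomology.toCycles (Tr G) (m + 2) (m + 1) w := by
      apply i_inj
      rw [map_add, map_nsmul, i_mkc, i_mkc, i_toCycles]
      exact hy
    rw [h3, map_add, π_toCycles, add_zero, map_nsmul]
  obtain ⟨w, hw⟩ := π_zero _ h1
  refine ⟨w, ?_⟩
  rw [← i_toCycles, hw, i_mkc]

end bridge

section univ

variable (G : Type) [Group G] (m : ℕ)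

/-- chains modulo boundaries -/
def Uq : Type := ((Fin m → G) →₀ ℤ) ⧸ (dd G m).range

noncomputable instance : AddCommGroup (Uq G m) :=
  inferInstanceAs (AddCommGroup (((Fin m → G) →₀ ℤ) ⧸ (dd G m).range))

/-- the projection -/
noncomputable def mkU : ((Fin m → G) →₀ ℤ) →+ Uq G m := QuotientAddGroup.mk' (dd G m).range

variable {G m}

lemma mkU_dd (x : (Fin (m + 1) → G) →₀ ℤ) : mkU G m (dd G m x) = 0 :=
  (QuotientAddGroup.eq_zero_iff _).2 ⟨_, rfl⟩

lemma mkU_zero {x : (Fin m → G) →₀ ℤ} (h : mkU G m x = 0) : ∃ w, dd G m w = x :=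
  (QuotientAddGroup.eq_zero_iff _).1 h

lemma mkU_surj (x : Uq G m) : ∃ z, mkU G m z = x := QuotientAddGroup.mk'_surjective _ x

/-- the universal homogeneous cocycle -/
noncomputable def cu (v : Fin (m + 1) → G) : Uq G m :=
  mkU G m (Finsupp.single (fun i => (v i.castSucc)⁻¹ * v i.succ) 1)

lemma cu_left (z : G) (v : Fin (m + 1) → G) : cu (fun i => z * v i) = cu v := by
  rw [cu, cu]
  congr 2
  funext i
  group

lemma cu_closed (v : Fin (m + 2) → G) :
    ∑ i : Fin (m + 2), (-1 : ℤ) ^ (i : ℕ) • cu (v ∘ i.succAbove) = 0 := by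
  set g : Fin (m + 1) → G := fun i => (v i.castSucc)⁻¹ * v i.succ with hg
  have h1 : mkU G m (dd G m (Finsupp.single g 1)) = 0 := mkU_dd _
  rw [dd_single] at h1
  rw [Fin.sum_univ_succ, ← h1]
  rw [map_add, map_sum]
  congr 1
  · rw [Fin.val_zero, pow_zero, one_smul, cu]
    rfl
  · refine Finset.sum_congr rfl fun j _ => ?_
    rw [map_zsmul, Fin.val_succ, cu]
    congr 3
    funext k
    have hv : ∀ i, v i = v 0 * Fin.partialProd g i := fun i =>
      (congrFun (Fin.partialProd_left_inv v) i).symm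
    rw [← Fin.inv_partialProd_mul_eq_contractNth]
    simp only [Function.comp_apply]
    rw [hv, hv (j.succ.succAbove k.succ), Fin.succ_succAbove_succ]
    group

/-- the antisymmetrised universal cocycle -/
noncomputable def ca (v : Fin (m + 1) → G) : Uq G m :=
  (m + 2) • ∑ σ : Equiv.Perm (Fin (m + 1)), ((Equiv.Perm.sign σ : ℤˣ) : ℤ) • cu (v ∘ σ)

/-- the permutations of `Fin (m + 2)` -/
def pe (x : Fin (m + 2) × Equiv.Perm (Fin (m + 1))) : Equiv.Perm (Fin (m + 2)) :=
  (x.1.cycleRange)⁻¹ * Equiv.Perm.decomposeFin.symm (0, x.2)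

lemma pe_zero (x : Fin (m + 2) × Equiv.Perm (Fin (m + 1))) : pe x 0 = x.1 := by
  rw [pe, Equiv.Perm.mul_apply, Equiv.Perm.decomposeFin_symm_apply_zero]
  exact Fin.cycleRange_symm_zero _

lemma pe_succ (x : Fin (m + 2) × Equiv.Perm (Fin (m + 1))) (j : Fin (m + 1)) :
    pe x j.succ = x.1.succAbove (x.2 j) := by
  rw [pe, Equiv.Perm.mul_apply, Equiv.Perm.decomposeFin_symm_apply_succ, Equiv.swap_self]
  exact Fin.cycleRange_symm_succ _ _

lemma pe_bij : Function.Bijective (pe : Fin (m + 2) × Equiv.Perm (Fin (m + 1)) → _) := by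
  rw [Fintype.bijective_iff_injective_and_card]
  constructor
  · rintro ⟨i, σ⟩ ⟨i', σ'⟩ h
    have h1 : i = i' := by
      have h0 := pe_zero (i, σ)
      rw [h, pe_zero] at h0
      exact h0.symm
    subst h1
    congr 1
    ext1 j
    have h2 : pe (i, σ) j.succ = pe (i, σ') j.succ := by rw [h]
    rw [pe_succ, pe_succ] at h2
    exact Fin.succAbove_right_injective h2
  · rw [Fintype.card_prod, Fintype.card_perm, Fintype.card_perm, Fintype.card_fin, Fintype.card_fin,
      Nat.factorial_succ (m + 1)]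

lemma pe_sign (x : Fin (m + 2) × Equiv.Perm (Fin (m + 1))) :
    ((Equiv.Perm.sign (pe x) : ℤˣ) : ℤ) = (-1) ^ (x.1 : ℕ) * ((Equiv.Perm.sign x.2 : ℤˣ) : ℤ) := by
  rw [pe, Equiv.Perm.sign_mul, Equiv.Perm.sign_inv, Fin.sign_cycleRange,
    Equiv.Perm.decomposeFin.symm_sign]
  simp

variable {B : Type*} [AddCommGroup B]

lemma alt_closed (c : (Fin (m + 1) → G) → B)
    (hc : ∀ v : Fin (m + 2) → G, ∑ i : Fin (m + 2), (-1 : ℤ) ^ (i : ℕ) • c (v ∘ i.succAbove) = 0)
    (v : Fin (m + 2) → G) :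
    (m + 2) • ∑ i : Fin (m + 2), (-1 : ℤ) ^ (i : ℕ) •
      ∑ σ : Equiv.Perm (Fin (m + 1)), ((Equiv.Perm.sign σ : ℤˣ) : ℤ) • c ((v ∘ i.succAbove) ∘ σ) =
        0 := by
  set S : B := ∑ ρ : Equiv.Perm (Fin (m + 2)), ((Equiv.Perm.sign ρ : ℤˣ) : ℤ) •
    c (fun j => v (ρ j.succ)) with hS
  have h1 : ∑ i : Fin (m + 2), (-1 : ℤ) ^ (i : ℕ) •
      ∑ σ : Equiv.Perm (Fin (m + 1)), ((Equiv.Perm.sign σ : ℤˣ) : ℤ) •
        c ((v ∘ i.succAbove) ∘ σ) = S := by
    rw [hS, ← Fintype.sum_bijective pe pe_bij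
      (fun x => ((Equiv.Perm.sign (pe x) : ℤˣ) : ℤ) • c (fun j => v (pe x j.succ))) _
      (fun x => rfl), Fintype.sum_prod_type]
    refine Finset.sum_congr rfl fun i _ => ?_
    rw [Finset.smul_sum]
    refine Finset.sum_congr rfl fun σ _ => ?_
    rw [pe_sign, smul_smul]
    congr 2
    funext j
    rw [pe_succ]
    rfl
  have h2 : ∀ j : Fin (m + 2), ∑ ρ : Equiv.Perm (Fin (m + 2)), ((Equiv.Perm.sign ρ : ℤˣ) : ℤ) •
      ((-1 : ℤ) ^ (j : ℕ) • c ((v ∘ ρ) ∘ j.succAbove)) = S := by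
    intro j
    rw [hS]
    refine Fintype.sum_equiv (Equiv.mulRight (j.cycleRange)⁻¹) _ _ fun ρ => ?_
    have h3 : ∀ i, (j.cycleRange)⁻¹ i.succ = j.succAbove i := fun i =>
      Fin.cycleRange_symm_succ _ _
    have h4 : (fun i : Fin (m + 1) => v ((ρ * (j.cycleRange)⁻¹) i.succ)) =
        (v ∘ ρ) ∘ j.succAbove := by
      funext i
      rw [Equiv.Perm.mul_apply, h3]
      rfl
    show _ = ((Equiv.Perm.sign (ρ * (j.cycleRange)⁻¹) : ℤˣ) : ℤ) •
      c (fun i : Fin (m + 1) => v ((ρ * (j.cycleRange)⁻¹) i.succ))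
    rw [h4, Equiv.Perm.sign_mul, Equiv.Perm.sign_inv, Fin.sign_cycleRange, smul_smul]
    push_cast
    rfl
  have h3 : ∑ j : Fin (m + 2), S = 0 := by
    rw [← Finset.sum_congr rfl fun j _ => h2 j, Finset.sum_comm]
    refine Finset.sum_eq_zero fun ρ _ => ?_
    rw [← Finset.smul_sum, hc, smul_zero]
  rw [h1]
  rw [Finset.sum_const, Finset.card_univ, Fintype.card_fin] at h3
  exact h3

lemma ca_coc : IsAltCocycle (ca : (Fin (m + 1) → G) → Uq G m) where
  perm v σ := by
    have h1 : ∑ ρ : Equiv.Perm (Fin (m + 1)), ((Equiv.Perm.sign ρ : ℤˣ) : ℤ) • cu ((v ∘ σ) ∘ ρ) =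
        ((Equiv.Perm.sign σ : ℤˣ) : ℤ) •
          ∑ ρ : Equiv.Perm (Fin (m + 1)), ((Equiv.Perm.sign ρ : ℤˣ) : ℤ) • cu (v ∘ ρ) := by
      rw [Finset.smul_sum]
      refine Fintype.sum_equiv (Equiv.mulLeft σ) _ _ fun ρ => ?_
      show _ = ((Equiv.Perm.sign σ : ℤˣ) : ℤ) • ((Equiv.Perm.sign (σ * ρ) : ℤˣ) : ℤ) •
        cu (v ∘ ⇑(σ * ρ))
      rw [Equiv.Perm.sign_mul, smul_smul]
      push_cast
      rw [← mul_assoc, ← Units.val_mul, Int.units_mul_self, Units.val_one, one_mul]
      rfl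
    rw [ca, ca, h1, smul_comm]
  rep v i j hij h := by
    rw [ca]
    have h1 : ∑ σ : Equiv.Perm (Fin (m + 1)), ((Equiv.Perm.sign σ : ℤˣ) : ℤ) • cu (v ∘ σ) = 0 := by
      refine Finset.sum_involution (fun σ _ => Equiv.swap i j * σ) ?_ ?_ ?_ ?_
      · intro σ _
        have h2 : v ∘ ⇑(Equiv.swap i j * σ) = v ∘ σ := by
          funext x
          rw [Function.comp_apply, Function.comp_apply, Equiv.Perm.mul_apply, Equiv.swap_apply_def]
          split_ifs with h3 h4
          · rw [← h, ← h3]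
          · rw [h, ← h4]
          · rfl
        rw [h2, Equiv.Perm.sign_mul, Equiv.Perm.sign_swap hij]
        simp
      · intro σ _ _ h3
        have h4 : Equiv.swap i j = 1 := mul_eq_right.1 h3
        exact hij (Equiv.swap_eq_one_iff.1 h4)
      · intro σ _
        exact Finset.mem_univ _
      · intro σ _
        rw [← mul_assoc, Equiv.swap_mul_self, one_mul]
    rw [h1, smul_zero]
  left z v := by
    rw [ca, ca]
    congr 1
    refine Finset.sum_congr rfl fun σ _ => ?_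
    congr 1
    exact cu_left z (v ∘ σ)
  closed v := by
    rw [← alt_closed cu cu_closed v, Finset.smul_sum]
    exact Finset.sum_congr rfl fun i _ => by rw [ca, smul_comm]

variable {A : Type*} [AddCommGroup A]

/-- the homomorphism of chains of a cochain -/
noncomputable def ph0 (c : (Fin (m + 1) → G) → A) : ((Fin m → G) →₀ ℤ) →+ A :=
  Finsupp.liftAddHom fun g => (zmultiplesHom A) (c (Fin.partialProd g))

lemma ph0_single (c : (Fin (m + 1) → G) → A) (g : Fin m → G) (a : ℤ) :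
    ph0 c (Finsupp.single g a) = a • c (Fin.partialProd g) := by
  rw [ph0, Finsupp.liftAddHom_apply_single, zmultiplesHom_apply]

lemma ph0_dd {c : (Fin (m + 1) → G) → A} (hc : IsAltCocycle c) (x : (Fin (m + 1) → G) →₀ ℤ) :
    ph0 c (dd G m x) = 0 := by
  induction x using Finsupp.induction_linear with
  | zero => rw [map_zero, map_zero]
  | add f g hf hg => rw [map_add, map_add, hf, hg, add_zero]
  | single g a =>
    rw [dd_single, map_add, ph0_single, map_sum]
    have h1 := hc.closed (Fin.partialProd g)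
    rw [Fin.sum_univ_succ, Fin.val_zero, pow_zero, one_smul] at h1
    have h2 : c (Fin.partialProd fun i => g i.succ) =
        c (Fin.partialProd g ∘ (0 : Fin (m + 2)).succAbove) := by
      rw [← hc.left (g 0)]
      congr 1
      funext i
      rw [Function.comp_apply, Fin.zero_succAbove, Fin.partialProd_succ']
      rfl
    have h3 : ∀ j : Fin (m + 1), ph0 c ((-1 : ℤ) ^ ((j : ℕ) + 1) •
        Finsupp.single (Fin.contractNth j (· * ·) g) a) =
        a • ((-1 : ℤ) ^ ((j.succ : Fin (m + 2)) : ℕ) •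
          c (Fin.partialProd g ∘ (j.succ).succAbove)) := by
      intro j
      rw [map_zsmul, ph0_single, Fin.partialProd_contractNth, Fin.val_succ, smul_comm]
    rw [h2, Finset.sum_congr rfl fun j _ => h3 j, ← Finset.smul_sum, ← smul_add, h1, smul_zero]

/-- the homomorphism of an alternating cocycle -/
noncomputable def ph {c : (Fin (m + 1) → G) → A} (hc : IsAltCocycle c) : Uq G m →+ A :=
  QuotientAddGroup.lift _ (ph0 c) (by
    rintro _ ⟨x, rfl⟩
    exact ph0_dd hc x)

lemma ph_cu {c : (Fin (m + 1) → G) → A} (hc : IsAltCocycle c) (v : Fin (m + 1) → G) :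
    ph hc (cu v) = c v := by
  have h1 : ph hc (cu v) = ph0 c (Finsupp.single (fun i => (v i.castSucc)⁻¹ * v i.succ) 1) := rfl
  rw [h1, ph0_single, one_smul, ← hc.left (v 0)]
  congr 1
  exact Fin.partialProd_left_inv v

lemma ph_ca {c : (Fin (m + 1) → G) → A} (hc : IsAltCocycle c) (v : Fin (m + 1) → G) :
    ph hc (ca v) = (m + 2).factorial • c v := by
  have h1 : ∀ σ : Equiv.Perm (Fin (m + 1)), ph hc (((Equiv.Perm.sign σ : ℤˣ) : ℤ) • cu (v ∘ σ)) =
      c v := by
    intro σ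
    rw [map_zsmul, ph_cu, hc.perm, smul_smul, ← Units.val_mul, Int.units_mul_self, Units.val_one,
      one_smul]
  rw [ca, map_nsmul, map_sum, Finset.sum_congr rfl fun σ _ => h1 σ, Finset.sum_const,
    Finset.card_univ, Fintype.card_perm, Fintype.card_fin, smul_smul, ← Nat.factorial_succ]

end univ

section tau

variable {G : Type} [Group G] {R : Type*} [Ring R] {d : Type*} [Fintype d] [DecidableEq d]

/-- the pairing of a trace with integral values -/
def TT (T₀ : R →+ ℤ) (A : Type*) [AddCommGroup A] : R →+ A →+ A where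
  toFun r :=
    { toFun := fun a => T₀ r • a
      map_zero' := smul_zero _
      map_add' := fun a b => smul_add _ a b }
  map_zero' := by
    ext a
    simp
  map_add' r s := by
    ext a
    simp [add_smul]

lemma TT_apply (T₀ : R →+ ℤ) {A : Type*} [AddCommGroup A] (r : R) (a : A) :
    TT T₀ A r a = T₀ r • a := rfl

lemma TT_comm {T₀ : R →+ ℤ} (hT : ∀ x y, T₀ (x * y) = T₀ (y * x)) {A : Type*} [AddCommGroup A]
    (x y : R) : TT T₀ A (x * y) = TT T₀ A (y * x) := by
  ext a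
  rw [TT_apply, TT_apply, hT]

/-- the coefficients which occur in a matrix -/
def su (u : Matrix d d (MonoidAlgebra R G)) : Set G := ⋃ i, ⋃ j, (↑(u i j).coeff.support : Set G)

lemma su_fin (u : Matrix d d (MonoidAlgebra R G)) : (su u).Finite :=
  Set.finite_iUnion fun _ => Set.finite_iUnion fun _ => Finset.finite_toSet _

lemma cm_su (u : Matrix d d (MonoidAlgebra R G)) {s : G} (hs : s ∉ su u) : cm u s = 0 := by
  ext1 i j
  show (u i j).coeff s = 0
  by_contra h
  exact hs (Set.mem_iUnion.2 ⟨i, Set.mem_iUnion.2 ⟨j, Finset.mem_coe.2 (Finsupp.mem_support_iff.2 h)⟩⟩)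

lemma altProd_zero (v u : Matrix d d (MonoidAlgebra R G)) (l : List G)
    (h : ∃ s ∈ l, s ∉ su v ∪ su u) : altProd v u l = 0 := by
  induction l generalizing v u with
  | nil => simp at h
  | cons s l ih =>
    rw [altProd]
    obtain ⟨s', hs', hs2⟩ := h
    rcases List.mem_cons.1 hs' with rfl | h3
    · rw [cm_su v fun h4 => hs2 (Or.inl h4), zero_mul]
    · rw [ih u v ⟨s', h3, fun h4 => hs2 h4.symm⟩, mul_zero]

lemma evProd_zero (e : Matrix d d (MonoidAlgebra R G)) (l : List G)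
    (h : ∃ s ∈ l, s ∉ su e) : (l.map (cm e)).prod = 0 := by
  obtain ⟨s', hs', hs2⟩ := h
  exact List.prod_eq_zero (List.mem_map.2 ⟨s', hs', cm_su e hs2⟩)

lemma fin_words {n : ℕ} {M : Type*} [Zero M] (S : Set G) (hS : S.Finite) (F : (Fin n → G) → M)
    (hF : ∀ w, (∃ i, w i ∉ S) → F w = 0) : (Function.support F).Finite := by
  refine (Set.Finite.pi' fun _ : Fin n => hS).subset fun w hw => ?_
  intro i
  by_contra h
  exact hw (hF w ⟨i, h⟩)

lemma oddTau_map (T₀ : R →+ ℤ) {A B : Type*} [AddCommGroup A] [AddCommGroup B] (f : A →+ B) {n : ℕ}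
    (c : (Fin (n + 1) → G) → A) (v u : Matrix d d (MonoidAlgebra R G)) :
    f (oddTau (TT T₀ A) c v u) = oddTau (TT T₀ B) (fun w => f (c w)) v u := by
  classical
  rw [oddTau, oddTau, AddMonoidHom.map_finsum]
  · refine finsum_congr fun w => ?_
    split_ifs
    · rw [TT_apply, TT_apply, map_zsmul]
    · rw [map_zero]
  · refine fin_words (su v ∪ su u) ((su_fin v).union (su_fin u)) _ fun w hw => ?_
    obtain ⟨i, hi⟩ := hw
    rw [altProd_zero v u (List.ofFn w) ⟨w i, (List.mem_ofFn' w (w i)).2 ⟨i, rfl⟩, hi⟩,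
      Matrix.trace_zero, map_zero, AddMonoidHom.zero_apply, ite_self]

lemma evTau_map (T₀ : R →+ ℤ) {A B : Type*} [AddCommGroup A] [AddCommGroup B] (f : A →+ B) {n : ℕ}
    (g : G) (t : G → G) (c : (Fin (n + 1) → G) → A) (e : Matrix d d (MonoidAlgebra R G)) :
    f (evTau (TT T₀ A) g t c (cm e)) = evTau (TT T₀ B) g t (fun w => f (c w)) (cm e) := by
  classical
  rw [evTau, evTau, AddMonoidHom.map_finsum]
  · refine finsum_congr fun w => ?_
    split_ifs
    · rw [TT_apply, TT_apply, map_zsmul]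
    · rw [map_zero]
  · refine fin_words (su e) (su_fin e) _ fun w hw => ?_
    obtain ⟨i, hi⟩ := hw
    have h1 : (List.ofFn fun i => cm e (w i)).prod = 0 := by
      have h0 : (List.ofFn fun i => cm e (w i)) = (List.ofFn w).map (cm e) := by
        rw [List.map_ofFn]
        rfl
      rw [h0]
      exact evProd_zero e _ ⟨w i, (List.mem_ofFn' w (w i)).2 ⟨i, rfl⟩, hi⟩
    rw [h1, Matrix.trace_zero, map_zero, AddMonoidHom.zero_apply, ite_self]

lemma oddTau_smul (T₀ : R →+ ℤ) {A : Type*} [AddCommGroup A] {n : ℕ} (N : ℕ)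
    (c : (Fin (n + 1) → G) → A) (v u : Matrix d d (MonoidAlgebra R G)) :
    oddTau (TT T₀ A) (fun w => N • c w) v u = N • oddTau (TT T₀ A) c v u :=
  (oddTau_map T₀ (nsmulAddMonoidHom N) c v u).symm

lemma evTau_smul (T₀ : R →+ ℤ) {A : Type*} [AddCommGroup A] {n : ℕ} (N : ℕ) (g : G) (t : G → G)
    (c : (Fin (n + 1) → G) → A) (e : Matrix d d (MonoidAlgebra R G)) :
    evTau (TT T₀ A) g t (fun w => N • c w) (cm e) = N • evTau (TT T₀ A) g t c (cm e) :=
  (evTau_map T₀ (nsmulAddMonoidHom N) g t c e).symm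

lemma zero_of_dvd {m : ℕ} (h : Red G (m + 1)) (x : Uq G (m + 1))
    (hx : ∀ N : ℕ, N ≠ 0 → ∃ y, x = N • y) : x = 0 := by
  obtain ⟨z, rfl⟩ := mkU_surj x
  obtain ⟨w, hw⟩ := red_chain h z fun N hN => by
    obtain ⟨y, hy⟩ := hx N hN
    obtain ⟨y', rfl⟩ := mkU_surj y
    obtain ⟨w, hw⟩ := mkU_zero (x := z - N • y') (by rw [map_sub, map_nsmul, hy, sub_self])
    exact ⟨y', w, by rw [hw]; abel⟩
  rw [hw, mkU_dd]

/-- **Vanishing of the odd Chern numbers.** -/
theorem odd_zero (hG : ∀ y : G, IsOfFinOrder y → y = 1) {k : ℕ} (hk : k ≠ 0)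
    (h : Red G (2 * k + 1)) (T₀ : R →+ ℤ) (hT : ∀ x y, T₀ (x * y) = T₀ (y * x))
    (v u : Matrix d d (MonoidAlgebra R G)) (hvu : v * u = 1) (huv : u * v = 1)
    {A : Type*} [AddCommGroup A] {c : (Fin (2 * k + 1 + 1) → G) → A} (hc : IsAltCocycle c) :
    (k.factorial * (2 * k + 1 + 2).factorial) • oddTau (TT T₀ A) c v u = 0 := by
  have h1 : k.factorial • oddTau (TT T₀ (Uq G (2 * k + 1))) ca v u = 0 := by
    refine zero_of_dvd h _ fun N hN => ?_
    refine oddTau_dvd (TT T₀ _) (TT_comm hT) hk ca_coc v u hvu huv N hN fun p hp _ y hy => ?_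
    have h5 : IsOfFinOrder y := orderOf_pos_iff.1 (hy ▸ hp.pos)
    have h6 := hG y h5
    rw [h6, orderOf_one] at hy
    exact hp.one_lt.ne hy
  have h2 := congrArg (ph hc) h1
  rw [map_nsmul, oddTau_map, map_zero] at h2
  have h3 : (fun w => ph hc (ca w)) = fun w => (2 * k + 1 + 2).factorial • c w :=
    funext fun w => ph_ca hc w
  rw [h3, oddTau_smul, smul_smul] at h2
  exact h2

lemma alt_class {A : Type*} [AddCommGroup A] {n : ℕ} {c : (Fin (n + 1) → G) → A}
    (hc : IsAltCocycle c) : IsClassCoc (1 : G) c where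
  perm := hc.perm
  rep := hc.rep
  left z _ v := hc.left z v
  single v i := by rw [one_mul, Function.update_eq_self]
  closed := hc.closed

/-- **Vanishing of the even Chern numbers.** -/
theorem even_zero {k : ℕ} (hk : k ≠ 0) (h : Red G (2 * k)) (T₀ : R →+ ℤ)
    (hT : ∀ x y, T₀ (x * y) = T₀ (y * x)) (e : Matrix d d (MonoidAlgebra R G)) (he : e * e = e)
    {A : Type*} [AddCommGroup A] {c : (Fin (2 * k + 1) → G) → A} (hc : IsAltCocycle c) :
    ((2 * k).descFactorial k * (2 * k + 2).factorial) •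
      evTau (TT T₀ A) 1 (fun _ => 1) c (cm e) = 0 := by
  have h1 : (2 * k).descFactorial k • evTau (TT T₀ (Uq G (2 * k))) 1 (fun _ => 1) ca (cm e) = 0 := by
    have h4 := fun N hN => evTau_dvd (TT T₀ (Uq G (2 * k))) (TT_comm hT) (g := (1 : G))
      IsOfFinOrder.one (t := fun _ => 1) (fun y hy => by
        rw [isConj_one_left] at hy
        rw [hy]
        simp) hk (alt_class ca_coc) e he N hN
    obtain ⟨k', rfl⟩ := Nat.exists_eq_succ_of_ne_zero hk
    exact zero_of_dvd (m := 2 * k' + 1) h _ h4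
  have h2 := congrArg (ph hc) h1
  rw [map_nsmul, evTau_map, map_zero] at h2
  have h3 : (fun w => ph hc (ca w)) = fun w => (2 * k + 2).factorial • c w :=
    funext fun w => ph_ca hc w
  rw [h3, evTau_smul, smul_smul] at h2
  exact h2

end tau

end Pool.Agent.W647.HZ1
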