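import Pool.Agent.W647.HZ1

/-!
# Finitely generated homology, explicit numbers
-/

set_option autoImplicit false
set_option linter.unusedSectionVars false

namespace Pool.Agent.W647.HZ1

open Finset Pool.Agent.W647.HV1 Pool.Agent.W647.HW1 Pool.Agent.W647.HX1 CategoryTheory

section fg

/-- the torsion elements of a finitely generated abelian group have bounded order -/
lemma tors_bound (M : Type*) [AddCommGroup M] [Module.Finite ℤ M] :
    ∃ n : ℕ, n ≠ 0 ∧ ∀ x ∈ Submodule.torsion ℤ M, n • x = 0 := by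
  have h1 : (Submodule.torsion ℤ M).FG := IsNoetherian.noetherian _
  obtain ⟨s, hs⟩ := h1
  have h2 : ∀ t : Finset M, (∀ x ∈ t, x ∈ Submodule.torsion ℤ M) →
      ∃ n : ℕ, n ≠ 0 ∧ ∀ x ∈ t, n • x = 0 := by
    classical
    intro t
    induction t using Finset.induction_on with
    | empty => exact fun _ => ⟨1, one_ne_zero, by simp⟩
    | insert a t _ ih =>
      intro h
      obtain ⟨n, hn, hn2⟩ := ih fun x hx => h x (Finset.mem_insert_of_mem hx)
      obtain ⟨z, hz⟩ := (Submodule.mem_torsion_iff a).1 (h a (Finset.mem_insert_self a t))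
      have hz0 : (z : ℤ) ≠ 0 := nonZeroDivisors.ne_zero z.2
      have hz1 : (z : ℤ) • a = 0 := hz
      have hz2 : (z : ℤ).natAbs • a = 0 := by
        rcases Int.natAbs_eq (z : ℤ) with h3 | h3
        · rw [h3, natCast_zsmul] at hz1
          exact hz1
        · rw [h3, neg_smul, natCast_zsmul, neg_eq_zero] at hz1
          exact hz1
      refine ⟨(z : ℤ).natAbs * n, mul_ne_zero (Int.natAbs_ne_zero.2 hz0) hn, fun x hx => ?_⟩
      rcases Finset.mem_insert.1 hx with rfl | hx
      · rw [mul_comm, mul_smul, hz2, smul_zero]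
      · rw [mul_smul, hn2 x hx, smul_zero]
  obtain ⟨n, hn, hn2⟩ := h2 s fun x hx => hs ▸ Submodule.subset_span hx
  refine ⟨n, hn, fun x hx => ?_⟩
  rw [← hs] at hx
  induction hx using Submodule.span_induction with
  | mem x hx => exact hn2 x hx
  | zero => exact smul_zero _
  | add x y _ _ hx hy => rw [smul_add, hx, hy, add_zero]
  | smul r x _ hx => rw [smul_comm, hx, smul_zero]

/-- a finitely generated abelian group has no infinitely divisible elements -/
lemma fg_red (M : Type*) [AddCommGroup M] [Module.Finite ℤ M] (x : M)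
    (hx : ∀ N : ℕ, N ≠ 0 → ∃ y, x = N • y) : x = 0 := by
  set Q := M ⧸ Submodule.torsion ℤ M with hQ
  have hfree : Module.Free ℤ Q := inferInstance
  set b := Module.Free.chooseBasis ℤ Q with hb
  have key : ∀ y : M, (∀ N : ℕ, N ≠ 0 → ∃ z, y = N • z) → y ∈ Submodule.torsion ℤ M := by
    intro y hy
    rw [← Submodule.Quotient.mk_eq_zero]
    apply b.repr.injective
    rw [map_zero]
    ext i
    refine int_zero_of_dvd _ fun N hN => ?_
    obtain ⟨z, hz⟩ := hy N hN
    rw [hz, ← Submodule.mkQ_apply, map_nsmul, map_nsmul, Finsupp.smul_apply, nsmul_eq_mul]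
    exact dvd_mul_right _ _
  obtain ⟨n, hn, hn2⟩ := tors_bound M
  obtain ⟨y, hy⟩ := hx n hn
  have h3 : y ∈ Submodule.torsion ℤ M := by
    have h4 := key x hx
    rw [Submodule.mem_torsion_iff] at h4 ⊢
    obtain ⟨z, hz⟩ := h4
    have hz1 : (z : ℤ) • x = 0 := hz
    refine ⟨z * ⟨(n : ℤ), mem_nonZeroDivisors_of_ne_zero (by exact_mod_cast hn)⟩, ?_⟩
    show ((z : ℤ) * (n : ℤ)) • y = 0
    rw [mul_smul, natCast_zsmul, ← hy, hz1]
  rw [hy, hn2 y h3]

lemma fg_red' (M : Type*) [AddCommGroup M] [i : Module ℤ M] (h : Module.Finite ℤ M) (x : M)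
    (hx : ∀ N : ℕ, N ≠ 0 → ∃ y, x = N • y) : x = 0 := by
  have h1 : i = AddCommGroup.toIntModule M := Subsingleton.elim _ _
  subst h1
  exact fg_red M x hx

lemma red_of_finite {G : Type} [Group G] {m : ℕ}
    (h : Module.Finite ℤ (groupHomology (Tr G) m)) : Red G m := fun x hx => fg_red' _ h x hx

end fg

section numbers

variable {G : Type*} [Group G] {R : Type*} [Ring R] {d : Type*} [Fintype d] [DecidableEq d]
  {A : Type*} [AddCommGroup A]

open Classical in
/-- the number of an invertible matrix `u` over `R[G]` with inverse `v` -/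
noncomputable def oddNumber (T₀ : R →+ ℤ) {n : ℕ} (c : (Fin (n + 1) → G) → A)
    (v u : Matrix d d (MonoidAlgebra R G)) : A :=
  ∑ᶠ w : Fin (n + 1) → G, if (List.ofFn w).prod = 1 then
    T₀ (altProd v u (List.ofFn w)).trace • c (fun i => ((List.ofFn w).take i).prod) else 0

open Classical in
/-- the number of an idempotent matrix `e` over `R[G]` -/
noncomputable def evenNumber (T₀ : R →+ ℤ) {n : ℕ} (c : (Fin (n + 1) → G) → A)
    (e : Matrix d d (MonoidAlgebra R G)) : A :=
  ∑ᶠ w : Fin (n + 1) → G, if (List.ofFn w).prod = 1 then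
    T₀ (List.ofFn fun i => cm e (w i)).prod.trace • c (fun i => ((List.ofFn w).take i).prod) else 0

end numbers

section final

variable {G : Type} [Group G] {R : Type*} [Ring R] {d : Type*} [Fintype d] [DecidableEq d]
  {A : Type*} [AddCommGroup A]

lemma evenNumber_eq (T₀ : R →+ ℤ) {n : ℕ} (c : (Fin (n + 1) → G) → A)
    (e : Matrix d d (MonoidAlgebra R G)) :
    evenNumber T₀ c e = evTau (TT T₀ A) 1 (fun _ => 1) c (cm e) := by
  rw [evenNumber, evTau]
  refine finsum_congr fun w => ?_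
  simp only [TT_apply, one_mul]
  by_cases h : (List.ofFn w).prod = 1
  · rw [if_pos h, if_pos (isConj_one_left.2 h)]
  · rw [if_neg h, if_neg (fun h' => h (isConj_one_left.1 h'))]

theorem odd_final (hG : ∀ y : G, IsOfFinOrder y → y = 1) {k : ℕ} (hk : 1 ≤ k)
    (h : (∀ x : groupHomology (Rep.trivial ℤ G ℤ) (2 * k + 1),
      (∀ N : ℕ, N ≠ 0 → ∃ y, x = N • y) → x = 0) ∨
      Module.Finite ℤ (groupHomology (Rep.trivial ℤ G ℤ) (2 * k + 1))) (T₀ : R →+ ℤ)
    (hT : ∀ x y, T₀ (x * y) = T₀ (y * x)) (u v : Matrix d d (MonoidAlgebra R G)) (huv : u * v = 1)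
    (hvu : v * u = 1) (c : (Fin (2 * k + 1 + 1) → G) → A) (hc : IsAltCocycle c) :
    (k.factorial * (2 * k + 3).factorial) • oddNumber T₀ c v u = 0 ∧
      ((∀ (n : ℕ) (a : A), n ≠ 0 → n • a = 0 → a = 0) → oddNumber T₀ c v u = 0) := by
  have h1 : Red G (2 * k + 1) := by
    rcases h with h | h
    · exact h
    · exact red_of_finite h
  have h2 : (k.factorial * (2 * k + 3).factorial) • oddNumber T₀ c v u = 0 :=
    odd_zero hG (by omega) h1 T₀ hT v u hvu huv hc
  exact ⟨h2, fun hA => hA _ _ (mul_ne_zero (Nat.factorial_ne_zero _) (Nat.factorial_ne_zero _)) h2⟩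

theorem even_final {k : ℕ} (hk : 1 ≤ k)
    (h : (∀ x : groupHomology (Rep.trivial ℤ G ℤ) (2 * k),
      (∀ N : ℕ, N ≠ 0 → ∃ y, x = N • y) → x = 0) ∨
      Module.Finite ℤ (groupHomology (Rep.trivial ℤ G ℤ) (2 * k))) (T₀ : R →+ ℤ)
    (hT : ∀ x y, T₀ (x * y) = T₀ (y * x)) (e : Matrix d d (MonoidAlgebra R G)) (he : e * e = e)
    (c : (Fin (2 * k + 1) → G) → A) (hc : IsAltCocycle c) :
    ((2 * k).descFactorial k * (2 * k + 2).factorial) • evenNumber T₀ c e = 0 ∧
      ((∀ (n : ℕ) (a : A), n ≠ 0 → n • a = 0 → a = 0) → evenNumber T₀ c e = 0) := by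
  have h1 : Red G (2 * k) := by
    rcases h with h | h
    · exact h
    · exact red_of_finite h
  have h2 : ((2 * k).descFactorial k * (2 * k + 2).factorial) • evenNumber T₀ c e = 0 := by
    rw [evenNumber_eq]
    exact even_zero (by omega) h1 T₀ hT e he hc
  refine ⟨h2, fun hA => hA _ _ (mul_ne_zero (Nat.ne_of_gt (Nat.descFactorial_pos.2 (by omega)))
    (Nat.factorial_ne_zero _)) h2⟩

end final

end Pool.Agent.W647.HZ1
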