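import Pool.Agent.W647.HZ2

/-!
# Groups with finitely generated projective resolutions
-/

set_option autoImplicit false
set_option linter.unusedSectionVars false

namespace Pool.Agent.W647.HZ1

open CategoryTheory

/-- a resolution of `k` by finitely generated projective modules over `k[G]` -/
structure Res (k G : Type) [CommRing k] [Group G] where
  P : ℕ → Type
  acg : ∀ i, AddCommGroup (P i)
  mod : ∀ i, Module (MonoidAlgebra k G) (P i)
  d : ∀ i, P (i + 1) →ₗ[MonoidAlgebra k G] P i
  ε : P 0 →+ k
  fin : ∀ i, Module.Finite (MonoidAlgebra k G) (P i)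
  proj : ∀ i, Module.Projective (MonoidAlgebra k G) (P i)
  inv : ∀ (g : G) (r : k) (x : P 0),
    ε ((MonoidAlgebra.single g r : MonoidAlgebra k G) • x) = r * ε x
  surj : Function.Surjective ε
  ex0 : ∀ x : P 0, ε x = 0 ↔ x ∈ LinearMap.range (d 0)
  ex : ∀ i, LinearMap.range (d (i + 1)) = LinearMap.ker (d i)

namespace Res

attribute [instance] Res.acg Res.mod Res.fin Res.proj

variable {k G : Type} [CommRing k] [Group G] (S : Res k G)

/-- the modules as representations -/
noncomputable abbrev X (i : ℕ) : Rep k G :=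
  Rep.ofModuleMonoidAlgebra.obj (ModuleCat.of (MonoidAlgebra k G) (S.P i))

/-- the differentials -/
noncomputable abbrev dX (i : ℕ) : S.X (i + 1) ⟶ S.X i :=
  Rep.ofModuleMonoidAlgebra.map (ModuleCat.ofHom (S.d i))

lemma dd_zero (i : ℕ) (x : S.P (i + 2)) : S.d i (S.d (i + 1) x) = 0 := by
  have h : S.d (i + 1) x ∈ LinearMap.ker (S.d i) := by
    rw [← S.ex i]
    exact ⟨x, rfl⟩
  exact h

lemma dX_comp (i : ℕ) : S.dX (i + 1) ≫ S.dX i = 0 := by
  rw [← Functor.map_comp, ← ModuleCat.ofHom_comp]
  have h : S.d i ∘ₗ S.d (i + 1) = 0 := LinearMap.ext fun x => S.dd_zero i x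
  rw [h]
  rfl

/-- the complex -/
noncomputable def cx : ChainComplex (Rep k G) ℕ := ChainComplex.of S.X S.dX S.dX_comp

/-- the augmentation -/
noncomputable def aug : S.X 0 ⟶ Rep.trivial k G k :=
  ConcreteCategory.ofHom (C := Rep k G) (X := S.X 0) (Y := Rep.trivial k G k)
    { toFun := fun x => S.ε x
      map_add' := fun x y => S.ε.map_add x y
      map_smul' := fun n x => S.inv 1 n x
      isIntertwining' := fun g => by
        ext x
        exact (S.inv g 1 x).trans (one_mul _) }

lemma aug_apply (x : S.P 0) : S.aug.hom x = S.ε x := rfl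

lemma dX_aug : S.dX 0 ≫ S.aug = 0 := by
  ext x
  exact (S.ex0 _).2 ⟨x, rfl⟩


lemma cx_d (i : ℕ) : S.cx.d (i + 1) i = S.dX i := ChainComplex.of_d ..

/-- the augmentation as a morphism of complexes -/
noncomputable def π : S.cx ⟶ (ChainComplex.single₀ (Rep k G)).obj (Rep.trivial k G k) :=
  (S.cx.toSingle₀Equiv (Rep.trivial k G k)).symm ⟨S.aug, by
    rw [cx_d]
    exact S.dX_aug⟩

set_option backward.defeqAttrib.useBackward true in
set_option backward.isDefEq.respectTransparency false in
lemma quasiIso : QuasiIso S.π where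
  quasiIsoAt m := by
    cases m with
    | zero =>
      rw [ChainComplex.quasiIsoAt₀_iff, ShortComplex.quasiIso_iff_of_zeros' _ rfl rfl rfl]
      constructor
      · apply (forget₂ _ (ModuleCat k)).reflects_exact_of_faithful
        rw [ShortComplex.moduleCat_exact_iff]
        intro x hx
        obtain ⟨y, hy⟩ := (S.ex0 x).1 hx
        exact ⟨y, (congrArg (fun f : S.X 1 ⟶ S.X 0 => (f.hom y : S.P 0)) (S.cx_d 0)).trans hy⟩
      · rw [Rep.epi_iff_surjective]
        exact S.surj
    | succ m =>
      rw [quasiIsoAt_iff_exactAt' (hL := ChainComplex.exactAt_succ_single_obj ..),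
          HomologicalComplex.exactAt_iff' _ (m + 2) (m + 1) m (by simp) (by simp)]
      apply (forget₂ _ (ModuleCat k)).reflects_exact_of_faithful
      rw [ShortComplex.moduleCat_exact_iff]
      intro x hx
      have hx' : S.d m x = 0 :=
        (congrArg (fun f : S.X (m + 1) ⟶ S.X m => (f.hom x : S.P m)) (S.cx_d m)).symm.trans hx
      have h1 : x ∈ LinearMap.range (S.d (m + 1)) := by
        rw [S.ex m]
        exact hx'
      obtain ⟨y, hy⟩ := h1
      exact ⟨y, (congrArg (fun f : S.X (m + 2) ⟶ S.X (m + 1) => (f.hom y : S.P (m + 1)))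
        (S.cx_d (m + 1))).trans hy⟩

/-- the projective resolution -/
noncomputable def pr : ProjectiveResolution (Rep.trivial k G k) where
  complex := S.cx
  projective n := by
    have h1 : Projective (ModuleCat.of (MonoidAlgebra k G) (S.P n)) :=
      (IsProjective.iff_projective _).1 (S.proj n)
    exact (Rep.equivalenceModuleMonoidAlgebra (k := k) (G := G)).symm.map_projective_iff _ |>.2 h1
  π := S.π
  quasiIso := S.quasiIso

open Rep Representation

lemma ofMod_smul {P : Type} [AddCommGroup P] [Module (MonoidAlgebra k G) P] (g : G) (c : k)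
    (p : (Rep.ofModuleMonoidAlgebra.obj (ModuleCat.of (MonoidAlgebra k G) P) : Rep k G)) :
    (show (Rep.ofModuleMonoidAlgebra.obj (ModuleCat.of (MonoidAlgebra k G) P) : Rep k G) from
      ((MonoidAlgebra.single g c : MonoidAlgebra k G) • (show P from p))) =
      c • (Rep.ofModuleMonoidAlgebra.obj (ModuleCat.of (MonoidAlgebra k G) P) : Rep k G).ρ g p := by
  have h1 : (MonoidAlgebra.single g c : MonoidAlgebra k G) =
      MonoidAlgebra.single 1 c * MonoidAlgebra.single g 1 := by
    rw [MonoidAlgebra.single_mul_single, one_mul, mul_one]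
  rw [h1]
  exact mul_smul (MonoidAlgebra.single 1 c : MonoidAlgebra k G) (MonoidAlgebra.single g 1)
    (show P from p)

lemma mk_mem (n : ℕ) (W : Submodule k (((coinvariantsTensor k G).obj (Rep.trivial k G k)).obj (S.X n)))
    (s : Set (S.P n)) (hs : Submodule.span (MonoidAlgebra k G) s = ⊤)
    (hW : ∀ b ∈ s, coinvariantsTensorMk (Rep.trivial k G k) (S.X n) (1 : k) b ∈ W) (p : S.P n) :
    coinvariantsTensorMk (Rep.trivial k G k) (S.X n) (1 : k) p ∈ W := by
  have hp : p ∈ Submodule.span (MonoidAlgebra k G) s := hs ▸ Submodule.mem_top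
  induction hp using Submodule.span_induction with
  | mem x hx => exact hW x hx
  | zero => 
    have h : coinvariantsTensorMk (Rep.trivial k G k) (S.X n) (1 : k) 0 = 0 := map_zero _
    exact h ▸ W.zero_mem
  | add x y _ _ hx hy =>
    have h : coinvariantsTensorMk (Rep.trivial k G k) (S.X n) (1 : k) (x + y) = _ := map_add _ x y
    rw [h]
    exact W.add_mem hx hy
  | smul r x _ hx =>
    induction r using MonoidAlgebra.induction_linear with
    | zero =>
      rw [zero_smul]
      have h : coinvariantsTensorMk (Rep.trivial k G k) (S.X n) (1 : k) 0 = 0 := map_zero _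
      exact h ▸ W.zero_mem
    | add r r' hr hr' =>
      rw [add_smul]
      have h : coinvariantsTensorMk (Rep.trivial k G k) (S.X n) (1 : k) (r • x + r' • x) = _ :=
        map_add _ (r • x) (r' • x)
      rw [h]
      exact W.add_mem hr hr'
    | single g c =>
      have h1 : coinvariantsTensorMk (Rep.trivial k G k) (S.X n) (1 : k)
          ((MonoidAlgebra.single g c : MonoidAlgebra k G) • x) =
          c • coinvariantsTensorMk (Rep.trivial k G k) (S.X n) (1 : k) x := by
        have h2 := ofMod_smul (k := k) (G := G) g c x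
        have h3 : coinvariantsTensorMk (Rep.trivial k G k) (S.X n) (1 : k)
            (c • (S.X n).ρ g x) = c • coinvariantsTensorMk (Rep.trivial k G k) (S.X n) (1 : k) x := by
          rw [map_smul]
          congr 1
          exact (Coinvariants.mk_inv_tmul _ _ _ _ _).symm
        exact (congrArg _ h2).trans h3
      rw [h1]
      exact W.smul_mem _ hx

/-- the coinvariants of the modules of the resolution are finitely generated -/
lemma fin_X (n : ℕ) :
    Module.Finite k (((coinvariantsTensor k G).obj (Rep.trivial k G k)).obj (S.X n)) := by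
  obtain ⟨s, hs⟩ := (S.fin n).fg_top
  set f : S.P n → ((coinvariantsTensor k G).obj (Rep.trivial k G k)).obj (S.X n) :=
    fun b => coinvariantsTensorMk (Rep.trivial k G k) (S.X n) (1 : k) b with hf
  set W := Submodule.span k (f '' (s : Set (S.P n))) with hW
  have h1 : ∀ p : S.P n, f p ∈ W := fun p =>
    S.mk_mem n W s hs (fun b hb => Submodule.subset_span ⟨b, hb, rfl⟩) p
  have h2 : W = ⊤ := by
    refine Submodule.eq_top_iff'.2 fun x => ?_
    obtain ⟨y, hy⟩ := Coinvariants.mk_surjective ((Rep.trivial k G k).ρ.tprod (S.X n).ρ) x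
    rw [← hy]
    clear hy
    induction y using TensorProduct.induction_on with
    | zero => exact (map_zero (Coinvariants.mk ((Rep.trivial k G k).ρ.tprod (S.X n).ρ))).symm ▸ W.zero_mem
    | add y y' h h' =>
      exact (map_add (Coinvariants.mk ((Rep.trivial k G k).ρ.tprod (S.X n).ρ)) y y').symm ▸
        W.add_mem h h'
    | tmul a p =>
      have h3 : coinvariantsTensorMk (Rep.trivial k G k) (S.X n) (a : k) p = (a : k) • f p := by
        have h4 : (a : k) = (a : k) • (1 : k) := by rw [smul_eq_mul, mul_one]
        have h5 := LinearMap.congr_fun (LinearMap.map_smul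
          (coinvariantsTensorMk (Rep.trivial k G k) (S.X n)) (a : k) (1 : k)) p
        rw [← h4] at h5
        exact h5
      have h6 : coinvariantsTensorMk (Rep.trivial k G k) (S.X n) (a : k) p ∈ W :=
        h3 ▸ W.smul_mem _ (h1 p)
      exact h6
  refine ⟨?_⟩
  rw [← h2]
  exact Submodule.fg_span (s.finite_toSet.image f)

/-- the homology of a group of type `FP_∞` is finitely generated -/
lemma fin_homology (S : Res k G) [IsNoetherianRing k] (n : ℕ) :
    Module.Finite k (groupHomology (Rep.trivial k G k) n) := by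
  classical
  have h0 := S.fin_X n
  set K := S.pr.complex.coinvariantsTensorObj (Rep.trivial k G k) with hK
  have h1 : Module.Finite k (K.X n) := h0
  have h2 : Module.Finite k (K.cycles n) :=
    Module.Finite.of_injective (K.iCycles n).hom ((ModuleCat.mono_iff_injective _).1 inferInstance)
  have h3 : Module.Finite k (K.homology n) :=
    Module.Finite.of_surjective (K.homologyπ n).hom
      ((ModuleCat.epi_iff_surjective _).1 inferInstance)
  exact Module.Finite.equiv (groupHomologyIso (Rep.trivial k G k) n S.pr).toLinearEquiv.symm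

end Res

/-- `G` is of type `FP_∞`: there is a resolution, perhaps infinite, of the trivial `ℤ[G]`-module
`ℤ` by finitely generated projective modules. -/
def TypeFPInf (G : Type) [Group G] : Prop :=
  ∃ (P : ℕ → Type) (_ : ∀ i, AddCommGroup (P i)) (_ : ∀ i, Module (MonoidAlgebra ℤ G) (P i))
    (d : ∀ i, P (i + 1) →ₗ[MonoidAlgebra ℤ G] P i) (ε : P 0 →+ ℤ),
    (∀ i, Module.Finite (MonoidAlgebra ℤ G) (P i)) ∧
    (∀ i, Module.Projective (MonoidAlgebra ℤ G) (P i)) ∧
    (∀ (g : G) (x : P 0), ε (MonoidAlgebra.of ℤ G g • x) = ε x) ∧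
    Function.Surjective ε ∧
    (∀ x : P 0, ε x = 0 ↔ x ∈ LinearMap.range (d 0)) ∧
    (∀ i, LinearMap.range (d (i + 1)) = LinearMap.ker (d i))

lemma TypeFPInf.red {G : Type} [Group G] (h : TypeFPInf G) (m : ℕ) : Red G m := by
  obtain ⟨P, i1, i2, d, ε, hfin, hproj, hinv, hsurj, hex0, hex⟩ := h
  have key : ∀ (g : G) (r : ℤ) (x : P 0),
      ε ((MonoidAlgebra.single g r : MonoidAlgebra ℤ G) • x) = r * ε x := by
    intro g r x
    have h1 : (MonoidAlgebra.single g r : MonoidAlgebra ℤ G) = r • MonoidAlgebra.of ℤ G g := by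
      rw [MonoidAlgebra.of_apply, MonoidAlgebra.smul_single, smul_eq_mul, mul_one]
    rw [h1, smul_assoc, map_zsmul, hinv, smul_eq_mul]
  let S : Res ℤ G :=
    { P := P, acg := i1, mod := i2, d := d, ε := ε, fin := hfin, proj := hproj, inv := key,
      surj := hsurj, ex0 := hex0, ex := hex }
  exact red_of_finite (S.fin_homology m)

end Pool.Agent.W647.HZ1
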