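import Pool.Agent.W647.KN12

/-!
# Twisted version: cochains which are invariant under `g` in each variable
-/

set_option autoImplicit false
set_option linter.unusedSectionVars false

namespace Pool.Agent.W647.KG

open Finset Pool.Agent.W647.HV1 Pool.Agent.W647.HW1 Pool.Agent.W647.KN

section rp

variable {G : Type*} [Group G] (g : G)

/-- representatives of the cosets `⟨g⟩ x` -/
noncomputable def rp (x : G) : G :=
  Quotient.out (s := QuotientGroup.rightRel (Subgroup.zpowers g)) (Quotient.mk _ x)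

lemma rp_spec (x : G) : ∃ m : ℤ, rp g x = g ^ m * x := by
  have h1 : (QuotientGroup.rightRel (Subgroup.zpowers g)) (rp g x) x :=
    Quotient.mk_out (s := QuotientGroup.rightRel (Subgroup.zpowers g)) x
  rw [QuotientGroup.rightRel_apply, Subgroup.mem_zpowers_iff] at h1
  obtain ⟨m, hm⟩ := h1
  refine ⟨-m, ?_⟩
  rw [zpow_neg, hm]
  group

lemma rp_zpow (m : ℤ) (x : G) : rp g (g ^ m * x) = rp g x := by
  rw [rp, rp]
  congr 1
  apply Quotient.sound
  show (QuotientGroup.rightRel (Subgroup.zpowers g)) (g ^ m * x) x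
  rw [QuotientGroup.rightRel_apply, Subgroup.mem_zpowers_iff]
  refine ⟨-m, ?_⟩
  rw [zpow_neg]
  group

/-- representatives, for all columns -/
noncomputable def rr (a : ℕ → G) : ℕ → G := rp g ∘ a

lemma rr_eq {a a' : ℕ → G} (h : ∀ p, ∃ m : ℤ, a' p = g ^ m * a p) : rr g a' = rr g a := by
  funext p
  obtain ⟨m, hm⟩ := h p
  show rp g (a' p) = rp g (a p)
  rw [hm, rp_zpow]

end rp

section post

variable {G : Type*} [Group G] {A : Type*} [AddCommGroup A]

lemma J_post (f : G → G) (n r : ℕ) (φ : List G → A) (P : List ℕ) (l : List (ℕ → G))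
    (hl : l.length = r) :
    J n r φ P (l.map fun a => f ∘ a) = J n r (fun v => φ (v.map f)) P l := by
  induction n generalizing r φ P l with
  | zero => rw [J_zero, J_zero]
  | succ n ihn =>
    induction r generalizing φ l with
    | zero => rw [J_succ_zero, J_succ_zero]; rfl
    | succ r ihr =>
      have h1 : hv P (l.map fun a => f ∘ a) = f (hv P l) := by
        obtain ⟨a, l, rfl⟩ := List.exists_cons_of_length_eq_add_one hl
        rfl
      rw [J_succ_succ, J_succ_succ, h1, dl_list_map]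
      congr 1
      · exact dl_congr _ _ _ fun l' _ h' => ihr _ _ (by omega)
      · congr 1
        exact dl_congr _ _ _ fun P' _ _ => ihn _ _ _ _ hl

end post

section inv

variable {G : Type*} [Group G] {A : Type*} [Ring A]

/-- cochains on lists of columns which only depend on the cosets -/
def Inv (g : G) (Φ : List (ℕ → G) → A) : Prop := ∀ l, Φ (l.map (rr g)) = Φ l

/-- cochains on lists which only depend on the cosets -/
def inv (g : G) (φ : List G → A) : Prop := ∀ l, φ (l.map (rp g)) = φ l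

variable {g : G}

lemma Ph_Inv (k : ℕ) {φ : List G → A} (hφ : inv g φ) (P : List ℕ) : Inv g (Ph k φ P) := by
  intro l
  rw [Ph, Ph, Al_map (rr g) (2 * k + 1) (J P.length (2 * k + 1) φ P)]
  intro l' hl'
  have h1 := J_post (rp g) P.length (2 * k + 1) φ P l' hl'
  have h2 : (fun v : List G => φ (v.map (rp g))) = φ := funext hφ
  rw [h2] at h1
  exact h1

lemma Pg_Inv (k : ℕ) {φ : List G → A} (hφ : inv g φ) (P : List ℕ) : Inv g (Pg k φ P) := by
  intro l
  rw [Pg, Pg, Al_map (rr g) (2 * k + 2) (J P.length (2 * k + 2) φ P)]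
  intro l' hl'
  have h1 := J_post (rp g) P.length (2 * k + 2) φ P l' hl'
  have h2 : (fun v : List G => φ (v.map (rp g))) = φ := funext hφ
  rw [h2] at h1
  exact h1

/-- translation -/
def tl (z : G) (l : List (ℕ → G)) : List (ℕ → G) := l.map fun a => (fun _ => z) * a

lemma tl_nil (z : G) : tl z [] = [] := rfl

lemma tl_cons (z : G) (a : ℕ → G) (l : List (ℕ → G)) :
    tl z (a :: l) = ((fun _ => z) * a) :: tl z l := rfl

lemma tl_append (z : G) (l l' : List (ℕ → G)) : tl z (l ++ l') = tl z l ++ tl z l' :=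
  List.map_append

lemma tl_length (z : G) (l : List (ℕ → G)) : (tl z l).length = l.length := List.length_map _

lemma tl_mul (z z' : G) (l : List (ℕ → G)) : tl (z * z') l = tl z (tl z' l) := by
  rw [tl, tl, tl, List.map_map]
  congr 1
  funext a p
  exact mul_assoc _ _ _

lemma tl_one (l : List (ℕ → G)) : tl 1 l = l := by
  rw [tl]
  have h1 : (fun a : ℕ → G => (fun _ => (1 : G)) * a) = id := by
    funext a p
    exact one_mul _
  rw [h1, List.map_id]

lemma tl_reverse (z : G) (l : List (ℕ → G)) : tl z l.reverse = (tl z l).reverse := by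
  rw [tl, tl, List.map_reverse]

/-- the value with a given apex -/
noncomputable def AV (k : ℕ) (Φ : List (ℕ → G) → A) (l : List (ℕ → G)) (κ : ℕ → G) : A :=
  (Lc cA l ^ k : AddMonoid.End (List (ℕ → G) → A)) (cA κ Φ) []

lemma AV_pull (k : ℕ) (Φ Φ' : List (ℕ → G) → A) (f : (ℕ → G) → (ℕ → G))
    (h : ∀ m : List (ℕ → G), Φ (m.map f) = Φ' m) (l : List (ℕ → G)) (κ κ' : ℕ → G)
    (hκ : ∀ m : List (ℕ → G), Φ (κ' :: m.map f) = Φ (f κ :: m.map f)) :
    AV k Φ (l.map f) κ' = AV k Φ' l κ := by
  rw [AV, AV]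
  have h3 := congrFun (Lc_pow_pull f l k (cA κ' Φ)) []
  rw [List.map_nil] at h3
  rw [h3]
  have h4 : (fun m' : List (ℕ → G) => cA κ' Φ (m'.map f)) = cA κ Φ' := by
    funext m'
    show Φ (κ' :: m'.map f) = Φ' (κ :: m')
    rw [hκ, ← h (κ :: m')]
    rfl
  rw [h4]

lemma Inv_cons {Φ : List (ℕ → G) → A} (hΦ : Inv g Φ) {κ κ' : ℕ → G} (h : rr g κ' = rr g κ)
    (m : List (ℕ → G)) : Φ (κ' :: m) = Φ (κ :: m) := by
  rw [← hΦ (κ' :: m), ← hΦ (κ :: m), List.map_cons, List.map_cons, h]

/-- the value only depends on the cosets -/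
lemma AV_rr (k : ℕ) {Φ : List (ℕ → G) → A} (hΦ : Inv g Φ) {l l' : List (ℕ → G)} {κ κ' : ℕ → G}
    (hl : l.map (rr g) = l'.map (rr g)) (hκ : rr g κ = rr g κ') : AV k Φ l κ = AV k Φ l' κ' := by
  have h1 : ∀ (l : List (ℕ → G)) (κ : ℕ → G), AV k Φ (l.map (rr g)) (rr g κ) = AV k Φ l κ :=
    fun l κ => AV_pull k Φ Φ (rr g) hΦ l κ _ fun m => rfl
  rw [← h1 l κ, hl, hκ, h1]

lemma AV_rot (k : ℕ) (Φ : List (ℕ → G) → A) (l l' : List (ℕ → G)) (κ : ℕ → G) :
    AV k Φ (l ++ l') κ = AV k Φ (l' ++ l) κ := by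
  rw [AV, AV, Lc_rot]

/-- invariance under the centralizer -/
def Czi (g : G) (Φ : List (ℕ → G) → A) : Prop := ∀ z : G, z * g = g * z → ∀ l, Φ (tl z l) = Φ l

lemma AV_tl (k : ℕ) {Φ : List (ℕ → G) → A} (hΦ : Inv g Φ) (hC : Czi g Φ) (z : G)
    (hz : z * g = g * z) (l : List (ℕ → G)) (κ κ' : ℕ → G)
    (hκ : rr g κ' = rr g ((fun _ => z) * κ)) : AV k Φ (tl z l) κ' = AV k Φ l κ :=
  AV_pull k Φ Φ (fun a => (fun _ => z) * a) (fun m => hC z hz m) l κ κ'
    fun m => Inv_cons hΦ hκ _

end inv

section kg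

variable {G : Type*} [Group G] (g : G)

/-- the column -/
def col (N : ℕ) (l : List (ℕ → G)) (p : ℕ) (b : ℕ) : G := g ^ (b / N) * (l.getD (b % N) 1) p

/-- the rotation invariant apex -/
noncomputable def kg (N : ℕ) (l : List (ℕ → G)) : ℕ → G := fun p => Xc g N (col g N l p)

variable {g}

lemma col_isCol {N : ℕ} (hN : 0 < N) (l : List (ℕ → G)) (p : ℕ) : IsCol g N (col g N l p) := by
  intro b
  rw [col, col, Nat.add_mod_right, Nat.add_div_right b hN, pow_succ', mul_assoc]

lemma getD_tl (z : G) (l : List (ℕ → G)) (j : ℕ) (hj : j < l.length) (p : ℕ) :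
    ((tl z l).getD j 1) p = z * (l.getD j 1) p := by
  rw [tl]
  simp only [List.getD_eq_getElem?_getD]
  rw [List.getElem?_map, List.getElem?_eq_getElem hj]
  rfl

variable {p : ℕ} (hp : p.Prime) (hnt : ∀ y : G, orderOf y ≠ p) (hg : IsOfFinOrder g) {m N : ℕ}
  (hN : N = p ^ m)

include hp hnt hg hN in
lemma kg_tl (z : G) (hz : z * g = g * z) (l : List (ℕ → G)) (hl : l.length = N) :
    rr g (kg g N (tl z l)) = rr g ((fun _ => z) * kg g N l) := by
  have hN0 : 0 < N := by rw [hN]; exact pow_pos hp.pos _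
  refine rr_eq g fun q => ?_
  refine Xc_spec hp hnt hg hN (col_isCol hN0 l q) z hz 0 _ fun b => ?_
  have hb : b % N < l.length := by rw [hl]; exact Nat.mod_lt _ hN0
  rw [col, col, getD_tl z l _ hb, add_zero, ← mul_assoc, ← mul_assoc]
  congr 1
  have h1 : Commute z (g ^ (b / N)) := Commute.pow_right hz _
  exact h1.eq.symm

include hp hnt hg hN in
lemma kg_rot (l l' : List (ℕ → G)) (hl : (l ++ l').length = N) :
    rr g (kg g N (l' ++ tl g l)) = rr g (kg g N (l ++ l')) := by
  have hN0 : 0 < N := by rw [hN]; exact pow_pos hp.pos _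
  rw [List.length_append] at hl
  refine rr_eq g fun q => ?_
  have h0 := Xc_spec hp hnt hg hN (col_isCol hN0 (l ++ l') q) 1 (by rw [mul_one, one_mul])
    l.length (col g N (l' ++ tl g l) q) (fun b => ?_)
  · obtain ⟨i, hi⟩ := h0
    refine ⟨i, ?_⟩
    rw [one_mul] at hi
    exact hi
  · rw [one_mul, col, col]
    have hb : b % N < N := Nat.mod_lt _ hN0
    have e0 : b = b % N + N * (b / N) := (Nat.mod_add_div b N).symm
    set b' := b % N with hb'
    set c := b / N with hc
    have e1 : (b + l.length) % N = (b' + l.length) % N := by rw [hb', Nat.mod_add_mod]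
    have e2 : (b + l.length) / N = (b' + l.length) / N + c := by
      conv_lhs => rw [e0]
      rw [show b' + N * c + l.length = b' + l.length + N * c by ring, Nat.add_mul_div_left _ _ hN0]
    rw [e1, e2]
    rcases Nat.lt_or_ge b' l'.length with h1 | h1
    · have h2 : b' + l.length < N := by omega
      rw [Nat.mod_eq_of_lt h2, Nat.div_eq_of_lt h2, zero_add]
      simp only [List.getD_eq_getElem?_getD]
      rw [List.getElem?_append_left h1, List.getElem?_append_right (by omega), Nat.add_sub_cancel]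
    · obtain ⟨r, hr⟩ : ∃ r, b' = l'.length + r := ⟨b' - l'.length, by omega⟩
      have h2 : b' + l.length = r + N := by omega
      have hr2 : r < l.length := by omega
      rw [h2, Nat.add_mod_right, Nat.add_div_right _ hN0, Nat.mod_eq_of_lt (by omega),
        Nat.div_eq_of_lt (by omega : r < N)]
      have h3 : ((l' ++ tl g l).getD b' 1) q = g * (l.getD r 1) q := by
        rw [← getD_tl g l r hr2 q]
        simp only [List.getD_eq_getElem?_getD]
        rw [List.getElem?_append_right (by omega), hr, Nat.add_sub_cancel_left]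
      have h4 : ((l ++ l').getD r 1) q = (l.getD r 1) q := by
        simp only [List.getD_eq_getElem?_getD]
        rw [List.getElem?_append_left hr2]
      rw [h3, h4, ← mul_assoc, ← pow_succ, add_comm]

end kg

end Pool.Agent.W647.KG
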