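import Pool.Agent.W647.KG1

/-!
# Twisted version: sums over words whose product is conjugate to `g`
-/

set_option autoImplicit false
set_option linter.unusedSectionVars false

namespace Pool.Agent.W647.KG

open Finset Pool.Agent.W647.HV1 Pool.Agent.W647.HW1 Pool.Agent.W647.KN

universe u

section gen

variable {G : Type*} [Group G] {A : Type*} [Ring A] (σ : ℕ → ℕ → MonoidAlgebra A G)
  {M : Type*} [AddCommGroup M]

/-- rotation of the last step -/
lemma rot_gen (T : A →+ M) (hT : ∀ x y, T (x * y) = T (y * x)) (Ξ : List (ℕ → G) → G → A)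
    (hΞ : ∀ (z : G) l y, Ξ (tl z l) (z * y * z⁻¹) = Ξ l y) (hcen : ∀ l y b, b * Ξ l y = Ξ l y * b)
    (W : (List (ℕ → G) → G → A) →+ (G → A))
    (hW1 : ∀ Ψ h b, W (fun l h' => Ψ l h' * b) h = W Ψ h * b)
    (hW2 : ∀ Ψ z h, W Ψ (z * h) =
      W (fun l h' => Ψ (l.map fun a => (fun _ => z) * a) (z * h')) h)
    (f : MonoidAlgebra A G) :
    T (W (fun l h' => Ep A f (Ξ l) h') 1) = T (Ep A f (W Ξ) 1) := by
  classical
  have h1 : (fun (l : List (ℕ → G)) (h' : G) => Ep A f (Ξ l) h') =
      ∑ s ∈ f.coeff.support, fun (l : List (ℕ → G)) (h' : G) =>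
        f.coeff s * Ξ l (h' * s) := by
    funext l h'
    rw [Finset.sum_apply, Finset.sum_apply, Ep_apply f _ h' _ subset_rfl]
    rfl
  rw [h1, map_sum, Finset.sum_apply, map_sum, Ep_apply f _ 1 _ subset_rfl, map_sum]
  refine Finset.sum_congr rfl fun s _ => ?_
  have e5 := hW2 (fun l h' => Ξ l h' * f.coeff s) s 1
  rw [mul_one] at e5
  rw [smul_eq_mul, hT, ← hW1, one_mul, e5]
  have e6 : (fun (l : List (ℕ → G)) (h' : G) => f.coeff s * Ξ l (h' * s)) =
      fun l h' => Ξ (l.map fun a => (fun _ => s) * a) (s * h') * f.coeff s := by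
    funext l h'
    have h2 : s * h' = s * (h' * s) * s⁻¹ := by group
    rw [hcen, h2]
    congr 1
    exact (hΞ s l (h' * s)).symm
  rw [e6]

variable (hσ : ∀ i j k, σ i j * σ j k = σ i k)

include hσ in
/-- **The last face** -/
lemma last_gen (T : A →+ M) (hT : ∀ x y, T (x * y) = T (y * x)) (Ξ : List (ℕ → G) → G → A)
    (hΞ : ∀ (z : G) l y, Ξ (tl z l) (z * y * z⁻¹) = Ξ l y) (hcen : ∀ l y b, b * Ξ l y = Ξ l y * b)
    (Q : List ℕ) (hQ : Q ≠ []) (q : ℕ) (hq : q ∉ Q) (hdep : DepL Q Ξ) (N : ℕ) :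
    T (WS σ (Q ++ [q]) N Ξ 1) = T (WS σ Q N Ξ 1) := by
  cases N with
  | zero => rw [WS_zero, WS_zero]
  | succ N =>
    let W : (List (ℕ → G) → G → A) →+ (G → A) :=
      { toFun := fun Ψ h => PS σ q Q (fun a h' => WS σ Q N (fun l => Ψ (a :: l)) h') h
        map_zero' := by
          funext h
          have h1 : (fun (a : ℕ → G) (h' : G) => WS σ Q N
              (fun l => (0 : List (ℕ → G) → G → A) (a :: l)) h') = 0 := by
            funext a h'
            exact (WSh σ Q N h').map_zero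
          rw [h1]
          exact (PSh σ q Q h).map_zero
        map_add' := fun Ψ Ψ' => by
          funext h
          have h1 : (fun (a : ℕ → G) (h' : G) => WS σ Q N (fun l => (Ψ + Ψ') (a :: l)) h') =
              fun a h' => WS σ Q N (fun l => Ψ (a :: l)) h' + WS σ Q N (fun l => Ψ' (a :: l)) h' := by
            funext a h'
            exact WS_add σ Q N _ _ h'
          rw [h1]
          exact PS_add σ q Q _ _ h }
    have hW : ∀ Ψ h, W Ψ h = PS σ q Q (fun a h' => WS σ Q N (fun l => Ψ (a :: l)) h') h :=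
      fun _ _ => rfl
    have e1 : WS σ (Q ++ [q]) (N + 1) Ξ 1 =
        W (fun l h' => Ep A (σ (Q.getLastD 0) q) (Ξ l) h') 1 := by
      rw [WS_succ, List.getLastD_concat, PS_last σ q Q q _ _ hq, hW, getLastD_indep Q hQ q 0]
      · congr 1
        funext a h'
        exact WS_last_aux σ hσ Q hQ q hq N _ (DepL_cons hdep a) h'
      · intro a a' haa
        funext h''
        show WS σ (Q ++ [q]) N (fun l => Ξ (a :: l)) h'' =
          WS σ (Q ++ [q]) N (fun l => Ξ (a' :: l)) h''
        rw [DepL_head hdep a a' haa]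
    have e2 : WS σ Q (N + 1) Ξ 1 = Ep A (σ (Q.getLastD 0) q) (W Ξ) 1 := by
      rw [WS_succ]
      cases Q with
      | nil => exact absurd rfl hQ
      | cons p Q =>
        have h3 : W Ξ = Ep A (σ q p) (fun h' => PS σ p Q (fun a h'' => WS σ (p :: Q) N
            (fun l => Ξ (Function.update a p h' :: l)) h'') h') := by
          funext h'
          rw [hW, PS_cons]
        rw [h3, Ep_mul, hσ, PS_cons]
    rw [e1, e2]
    refine rot_gen T hT Ξ hΞ hcen W ?_ ?_ _
    · intro Ψ h b
      rw [hW, hW]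
      have h4 := PS_map σ (LinearMap.toSpanSingleton A A b) q Q
        (fun a h' => WS σ Q N (fun l => Ψ (a :: l)) h') h
      simp only [LinearMap.toSpanSingleton_apply, smul_eq_mul] at h4
      rw [h4]
      congr 1
      funext a h'
      have h5 := WS_map σ (LinearMap.toSpanSingleton A A b) Q N (fun l => Ψ (a :: l)) h'
      simp only [LinearMap.toSpanSingleton_apply, smul_eq_mul] at h5
      exact h5.symm
    · intro Ψ z h
      rw [hW, hW, PS_trans]
      simp only [WS_trans]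
      rfl

include hσ in
/-- **Faces** -/
lemma face_gen (T : A →+ M) (hT : ∀ x y, T (x * y) = T (y * x))
    (P : List ℕ) (hP : P.Nodup) (N : ℕ) (Ξ : List ℕ → List (ℕ → G) → G → A)
    (hΞ : ∀ P' (z : G) l y, Ξ P' (tl z l) (z * y * z⁻¹) = Ξ P' l y)
    (hcen : ∀ P' l y b, b * Ξ P' l y = Ξ P' l y * b) (hdep : ∀ P', DepL P' (Ξ P'))
    (hnil : ∀ l y, Ξ [] l y = 0) :
    dl P (fun P' => T (WS σ P N (Ξ P') 1)) = dl P (fun P' => T (WS σ P' N (Ξ P') 1)) := by
  rw [dl_eq_sum, dl_eq_sum]
  refine Finset.sum_congr rfl fun j hj => ?_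
  rw [mem_range] at hj
  congr 1
  rcases Nat.lt_or_ge (j + 1) P.length with h1 | h1
  · congr 1
    exact WS_erase σ hσ P j h1 hP N _ (hdep _) 1
  · rcases List.eq_nil_or_concat P with h2 | ⟨Q, q, h2⟩
    · subst h2
      simp at hj
    · rw [List.concat_eq_append] at h2
      subst h2
      have h3 : j = Q.length := by
        rw [List.length_append, List.length_singleton] at hj h1
        omega
      have h4 : (Q ++ [q]).eraseIdx j = Q := by
        rw [List.eraseIdx_append_of_length_le (by omega), h3, Nat.sub_self]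
        simp
      rw [h4]
      by_cases hQ : Q = []
      · subst hQ
        have h5 : Ξ [] = fun _ _ => 0 := by
          funext l y
          exact hnil l y
        rw [h5, WS_zero', WS_zero']
      · refine last_gen σ hσ T hT (Ξ Q) (hΞ Q) (hcen Q) Q hQ q ?_ (hdep Q) N
        intro hq
        have h6 := List.nodup_append.1 hP
        exact h6.2.2 q hq q (List.mem_singleton_self q) rfl

end gen

section tw

variable {G : Type*} [Group G] {A : Type*} [Ring A] (g : G) (t : G → G)

open Classical in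
/-- the values at the words whose product is conjugate to `g` -/
noncomputable def tw (Φ : List (ℕ → G) → A) (l : List (ℕ → G)) (y : G) : A :=
  if IsConj y g then Φ (tl (t y) l) else 0

variable {g t} (ht : ∀ y, IsConj y g → t y * y * (t y)⁻¹ = g)

lemma tw_pos {y : G} (hy : IsConj y g) (Φ : List (ℕ → G) → A) (l : List (ℕ → G)) :
    tw g t Φ l y = Φ (tl (t y) l) := by rw [tw, if_pos hy]

lemma tw_neg {y : G} (hy : ¬ IsConj y g) (Φ : List (ℕ → G) → A) (l : List (ℕ → G)) :
    tw g t Φ l y = 0 := by rw [tw, if_neg hy]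

lemma conj_iff (z y : G) : IsConj (z * y * z⁻¹) g ↔ IsConj y g := by
  have h1 : IsConj y (z * y * z⁻¹) := isConj_iff.2 ⟨z, rfl⟩
  exact ⟨fun h => h1.trans h, fun h => h1.symm.trans h⟩

include ht in
lemma t_cen (z y : G) (hy : IsConj y g) :
    (t (z * y * z⁻¹) * z * (t y)⁻¹) * g = g * (t (z * y * z⁻¹) * z * (t y)⁻¹) := by
  have h1 := ht y hy
  have h2 := ht (z * y * z⁻¹) ((conj_iff z y).2 hy)
  conv_lhs => rw [← h1]
  conv_rhs => rw [← h2]
  group

include ht in
lemma tw_conj (Φ : List (ℕ → G) → A) (hΦ : Czi g Φ) (z : G) (l : List (ℕ → G)) (y : G) :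
    tw g t Φ (tl z l) (z * y * z⁻¹) = tw g t Φ l y := by
  by_cases hy : IsConj y g
  · rw [tw_pos hy, tw_pos ((conj_iff z y).2 hy), ← tl_mul]
    have h1 : t (z * y * z⁻¹) * z = (t (z * y * z⁻¹) * z * (t y)⁻¹) * t y := by group
    rw [h1, tl_mul, hΦ _ (t_cen ht z y hy)]
  · rw [tw_neg hy, tw_neg fun h => hy ((conj_iff z y).1 h)]

lemma tw_mem (K : AddSubgroup A) (Φ : List (ℕ → G) → A) (hΦ : ∀ l, Φ l ∈ K) (l : List (ℕ → G))
    (y : G) : tw g t Φ l y ∈ K := by
  rw [tw]
  split_ifs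
  · exact hΦ _
  · exact K.zero_mem

lemma tl_forall {z : G} {Q : List ℕ} {l l' : List (ℕ → G)}
    (h : List.Forall₂ (fun a a' : ℕ → G => ∀ p ∈ Q, a p = a' p) l l') :
    List.Forall₂ (fun a a' : ℕ → G => ∀ p ∈ Q, a p = a' p) (tl z l) (tl z l') := by
  induction h with
  | nil => exact List.Forall₂.nil
  | cons hab _ ih =>
    refine List.Forall₂.cons (fun p hp => ?_) ih
    show z * _ = z * _
    rw [hab p hp]

lemma tw_dep {Q : List ℕ} (Φ : List (ℕ → G) → A) (hΦ : DepL Q Φ) : DepL Q (tw g t Φ) := by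
  intro l l' hl
  funext y
  rw [tw, tw, hΦ _ _ (tl_forall hl)]

lemma tw_zero (l : List (ℕ → G)) (y : G) : tw g t (fun _ => (0 : A)) l y = 0 := by
  rw [tw, ite_self]

lemma tw_sub (Φ Φ' : List (ℕ → G) → A) (l : List (ℕ → G)) (y : G) :
    tw g t (fun l => Φ l - Φ' l) l y = tw g t Φ l y - tw g t Φ' l y := by
  rw [tw, tw, tw]
  split_ifs
  · rfl
  · rw [sub_zero]

lemma tw_dl {Z : Type*} (P : List Z) (F : List Z → List (ℕ → G) → A) (l : List (ℕ → G)) (y : G) :
    tw g t (fun l => dl P (fun P' => F P' l)) l y = dl P (fun P' => tw g t (F P') l y) := by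
  by_cases hy : IsConj y g
  · rw [tw_pos hy]
    congr 1
    funext P'
    rw [tw_pos hy]
  · rw [tw_neg hy]
    have h1 : (fun P' => tw g t (F P') l y) = fun _ => 0 := by
      funext P'
      rw [tw_neg hy]
    rw [h1, dl_zero]

lemma tw_congr {N : ℕ} (Φ Φ' : List (ℕ → G) → A) (h : ∀ l, l.length = N → Φ l = Φ' l)
    (l : List (ℕ → G)) (hl : l.length = N) (y : G) : tw g t Φ l y = tw g t Φ' l y := by
  rw [tw, tw, h _ (by rw [tl_length, hl])]

end tw

section WT

variable {G : Type*} [Group G] {A : Type*} [Ring A] (σ : ℕ → ℕ → MonoidAlgebra A G) (g : G)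
  (t : G → G)

/-- the sum over the words whose product is conjugate to `g` -/
noncomputable def CT (P : List ℕ) (N : ℕ) (Θ : List (ℕ → G) → A) : A := WS σ P N (tw g t Θ) 1

lemma CT_congr (P : List ℕ) (N : ℕ) (Θ Θ' : List (ℕ → G) → A)
    (h : ∀ l, l.length = N → Θ l = Θ' l) : CT σ g t P N Θ = CT σ g t P N Θ' := by
  rw [CT, CT]
  exact WS_congr σ P N _ _ _ fun l h' hl => tw_congr Θ Θ' h l hl h'

/-- as a homomorphism -/
noncomputable def CTh (P : List ℕ) (N : ℕ) : (List (ℕ → G) → A) →+ A where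
  toFun Θ := CT σ g t P N Θ
  map_zero' := by
    have h1 : tw g t (0 : List (ℕ → G) → A) = 0 := by
      funext l h
      exact tw_zero l h
    show CT σ g t P N 0 = 0
    rw [CT, h1]
    exact (WSh σ P N 1).map_zero
  map_add' Θ Θ' := by
    show CT σ g t P N (fun l => Θ l + Θ' l) = CT σ g t P N Θ + CT σ g t P N Θ'
    have h1 : tw g t (fun l => Θ l + Θ' l) = fun l h => tw g t Θ l h + tw g t Θ' l h := by
      funext l h
      rw [tw, tw, tw]
      split_ifs
      · rfl
      · rw [add_zero]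
    rw [CT, h1, WS_add]
    rfl

lemma CT_sub (P : List ℕ) (N : ℕ) (Θ Θ' : List (ℕ → G) → A) :
    CT σ g t P N (fun l => Θ l - Θ' l) = CT σ g t P N Θ - CT σ g t P N Θ' :=
  (CTh σ g t P N).map_sub Θ Θ'

lemma CT_dl (P : List ℕ) (N : ℕ) {Z : Type*} (Q : List Z) (F : List Z → List (ℕ → G) → A) :
    CT σ g t P N (fun l => dl Q (fun Q' => F Q' l)) = dl Q (fun Q' => CT σ g t P N (F Q')) := by
  have h1 : (fun l => dl Q (fun Q' => F Q' l)) = dl Q F := by
    funext l
    exact (dl_map (Pi.evalAddMonoidHom (fun _ : List (ℕ → G) => A) l) Q F).symm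
  rw [h1]
  exact dl_map (CTh σ g t P N) Q F

end WT

end Pool.Agent.W647.KG
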