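import Pool.Agent.W647.KG2

/-!
# Twisted version: counting
-/

set_option autoImplicit false
set_option linter.unusedSectionVars false

namespace Pool.Agent.W647.KG

open Finset Pool.Agent.W647.HV1 Pool.Agent.W647.HW1 Pool.Agent.W647.KN

universe u

section first

variable {G : Type*} [Group G] {A : Type*} [Ring A] (g : G) (t : G → G)

lemma VS_tl (z : G) {Φ : List (ℕ → G) → A} (hΦ : Φ ∈ VS (1 : ℕ → G) A) :
    (fun m => Φ (tl z m)) ∈ VS (1 : ℕ → G) A := by
  obtain ⟨h1, h2, h3⟩ := hΦ
  refine ⟨fun l a b l' => ?_, fun l a l' => ?_, fun l a l' => ?_⟩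
  · show Φ (tl z (l ++ a :: b :: l')) = - Φ (tl z (l ++ b :: a :: l'))
    rw [tl_append, tl_append, tl_cons, tl_cons, tl_cons, tl_cons, h1]
  · show Φ (tl z (l ++ a :: a :: l')) = 0
    rw [tl_append, tl_cons, tl_cons, h2]
  · show Φ (tl z (l ++ (1 * a) :: l')) = Φ (tl z (l ++ a :: l'))
    rw [one_mul]

lemma VS_tw {Φ : List (ℕ → G) → A} (hΦ : Φ ∈ VS (1 : ℕ → G) A) (y : G) :
    (fun m => tw g t Φ m y) ∈ VS (1 : ℕ → G) A := by
  by_cases hy : IsConj y g
  · have h1 : (fun m => tw g t Φ m y) = fun m => Φ (tl (t y) m) := by
      funext m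
      rw [tw_pos hy]
    rw [h1]
    exact VS_tl _ hΦ
  · have h1 : (fun m => tw g t Φ m y) = 0 := by
      funext m
      rw [tw_neg hy]
      rfl
    rw [h1]
    exact (VS (1 : ℕ → G) A).zero_mem

variable (σ : ℕ → ℕ → MonoidAlgebra A G) (hσ : ∀ i j k, σ i j * σ j k = σ i k)
  (hone : ∀ i, σ i i = 1)

include hσ hone in
/-- **The sum with the apex at the first vertex** -/
lemma first_tw (P : List ℕ) (Φ : List (ℕ → G) → A) (hΦ : Φ ∈ VS (1 : ℕ → G) A) (N k : ℕ) :
    CT σ g t P (N + 1) (fun l => AV k Φ l (l.headD 1)) =
      cn N k • CT σ g t P (2 * k + 1) (fun l => Φ l.reverse) := by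
  classical
  set F : G → V (1 : ℕ → G) A := fun y => ⟨fun m => tw g t Φ m y, VS_tw g t hΦ y⟩ with hF
  have hev : ∀ y m, ev (F y) m = tw g t Φ m y := fun _ _ => rfl
  rw [CT, CT, WS_succ, WS_succ, ← PS_nsmul]
  congr 1
  funext α h₁
  have h1 : (fun (l : List (ℕ → G)) => tw g t (fun l => AV k Φ l (l.headD 1)) (α :: l)) =
      fun l h' => ((evlin []).comp (xlin α))
        ((PL A l ^ k : AddMonoid.End (V (1 : ℕ → G) A)) (F h')) := by
    funext l h'
    have h0 : tw g t (fun l => AV k Φ l (l.headD 1)) (α :: l) h' =
        AV k (ev (F h')) (α :: l) α := by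
      by_cases hy : IsConj h' g
      · rw [tw_pos hy]
        have h6 : ev (F h') = fun m => Φ (tl (t h') m) := by
          funext m
          rw [hev, tw_pos hy]
        rw [h6]
        exact AV_pull k Φ (fun m => Φ (tl (t h') m)) (fun a => (fun _ => t h') * a)
          (fun m => rfl) (α :: l) α _ fun m => rfl
      · rw [tw_neg hy]
        have h6 : cA α (ev (F h')) = 0 := by
          funext m
          show ev (F h') (α :: m) = 0
          rw [hev, tw_neg hy]
        rw [AV, h6, map_zero]
        rfl
    rw [h0, AV]
    have h2 : cA (α) (ev (F h')) = ev (xx A α (F h')) := rfl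
    rw [h2, ← ev_Lc_pow]
    have hc : Commute (Lc (xx A) (α :: l) ^ k) (xx A α) :=
      (Lc_comm _ _ (fun β γ => P_comm β γ α) _).pow_left k
    have h3 := DFunLike.congr_fun hc.eq (F h')
    have h4 := DFunLike.congr_fun (x_Lc_pow (A := A) α l k) (F h')
    have h5 : (Lc (xx A) (α :: l) ^ k : AddMonoid.End (V (1 : ℕ → G) A)) (xx A α (F h')) =
        xx A α ((PL A l ^ k : AddMonoid.End (V (1 : ℕ → G) A)) (F h')) := h3.trans h4
    rw [h5]
    rfl
  rw [h1, ← WS_map, count σ hσ hone P F N k, map_nsmul, WS_map]
  congr 1
  congr 1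
  funext l h'
  show ev (Xl A (α :: l) (F h')) [] = _
  rw [ev_Xl, List.append_nil, hev]
  by_cases hy : IsConj h' g
  · rw [tw_pos hy, tw_pos hy, tl_reverse]
  · rw [tw_neg hy, tw_neg hy]

end first

section orbit

variable {G : Type*} [Group G] {A : Type*} [Ring A] {S : Type*} (dg : S → G) (a : S → A)
  (uu : S → ℕ → G) {g : G} {t : G → G}

lemma vl_tl (z h : G) (l : List S) : vl dg uu (z * h) l = tl z (vl dg uu h l) :=
  vl_trans dg uu z h l

lemma rr_tl {c : G} (hc : c ∈ Subgroup.zpowers g) (l : List (ℕ → G)) :
    (tl c l).map (rr g) = l.map (rr g) := by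
  obtain ⟨m, hm⟩ := Subgroup.mem_zpowers_iff.1 hc
  rw [tl, List.map_map]
  congr 1
  funext a
  show rr g ((fun _ => c) * a) = rr g a
  exact rr_eq g fun p => ⟨m, by rw [hm]; rfl⟩

/-- the vertices of a power of a word, up to `⟨g⟩` -/
lemma vl_pow (l : List S) (z : G) (hz : z * (l.map dg).prod * z⁻¹ ∈ Subgroup.zpowers g) (q : ℕ) :
    ∀ c ∈ Subgroup.zpowers g, (vl dg uu (c * z) (List.replicate q l).flatten).map (rr g) =
      (List.replicate q ((vl dg uu z l).map (rr g))).flatten := by
  induction q with
  | zero => intro c _; rfl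
  | succ q ih =>
    intro c hc
    rw [List.replicate_succ, List.flatten_cons, vl_append, List.map_append, List.replicate_succ,
      List.flatten_cons, vl_tl, rr_tl hc]
    congr 1
    have h1 : c * z * (l.map dg).prod = (c * (z * (l.map dg).prod * z⁻¹)) * z := by group
    rw [h1]
    exact ih _ (Subgroup.mul_mem _ hc hz)

variable {M : Type*} [AddCommGroup M]

open Classical in
/-- the weight of a word whose product is conjugate to `g` -/
noncomputable def FT (g : G) (t : G → G) (T : A →+ M) (N : ℕ) (Θ : List (ℕ → G) → A)
    (l : List S) : M :=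
  if l.length = N then T (co a l * tw g t Θ (vl dg uu 1 l) (l.map dg).prod) else 0

variable [Fintype S] (ht : ∀ y, IsConj y g → t y * y * (t y)⁻¹ = g)

include ht in
/-- **Divisibility of sums over words whose product is conjugate to `g`** -/
theorem orbit_tw (T : A →+ M) (hT : ∀ x y, T (x * y) = T (y * x)) {p : ℕ} (hp : p.Prime)
    (hnt : ∀ y : G, orderOf y ≠ p) (hg : IsOfFinOrder g) {m N : ℕ} (hN : N = p ^ m)
    (Θ : List (ℕ → G) → A)
    (R1 : ∀ (z : G), z * g = g * z → ∀ l, l.length = N → Θ (tl z l) = Θ l)
    (R2 : ∀ l l', (l ++ l').length = N → Θ (l ++ l') = Θ (l' ++ tl g l))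
    (R3 : ∀ l b, b * Θ l = Θ l * b)
    (R4 : ∀ l q (l₀ : List (ℕ → G)), l.map (rr g) = (List.replicate q l₀).flatten →
      ∃ y, Θ l = q • y) :
    ∃ y : M, ∑ w : Fin N → S, FT dg a uu g t T N Θ (List.ofFn w) = N • y := by
  classical
  have hN0 : N ≠ 0 := by rw [hN]; exact pow_ne_zero _ hp.ne_zero
  have : NeZero N := ⟨hN0⟩
  have hR3 : ∀ l y b, b * tw g t Θ l y = tw g t Θ l y * b := by
    intro l y b
    by_cases hy : IsConj y g
    · rw [tw_pos hy, R3]
    · rw [tw_neg hy, mul_zero, zero_mul]
  obtain ⟨y, hy⟩ := cyc_sum (fun v : FreeMonoid S => FT dg a uu g t T N Θ (FreeMonoid.toList v))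
    (fun u v => by
      show FT dg a uu g t T N Θ (FreeMonoid.toList (u * v)) =
        FT dg a uu g t T N Θ (FreeMonoid.toList (v * u))
      rw [FreeMonoid.toList_mul, FreeMonoid.toList_mul]
      set l := FreeMonoid.toList u
      set l' := FreeMonoid.toList v
      rw [FT, FT]
      have e1 : (l ++ l').length = (l' ++ l).length := by
        rw [List.length_append, List.length_append, add_comm]
      by_cases hc : (l ++ l').length = N
      · have hc' : (l' ++ l).length = N := e1 ▸ hc
        rw [if_pos hc, if_pos hc']
        have e5 : tw g t Θ (vl dg uu 1 (l ++ l')) ((l ++ l').map dg).prod =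
            tw g t Θ (vl dg uu 1 (l' ++ l)) ((l' ++ l).map dg).prod := by
          set x := (l.map dg).prod with hx
          set x' := (l'.map dg).prod with hx'
          have k1 : ((l ++ l').map dg).prod = x * x' := by
            rw [List.map_append, List.prod_append]
          have k2 : ((l' ++ l).map dg).prod = x' * x := by
            rw [List.map_append, List.prod_append]
          rw [k1, k2, vl_append, vl_append, one_mul, one_mul]
          have k3 : vl dg uu x l' = tl x (vl dg uu 1 l') := by rw [← vl_tl, mul_one]
          have k4 : vl dg uu x' l = tl x' (vl dg uu 1 l) := by rw [← vl_tl, mul_one]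
          rw [k3, ← hx', k4]
          have len1 : (vl dg uu 1 l).length = l.length := vl_length _ _ _ _
          have len2 : (vl dg uu 1 l').length = l'.length := vl_length _ _ _ _
          set L := vl dg uu 1 l
          set L' := vl dg uu 1 l'
          have k5 : x * (x' * x) * x⁻¹ = x * x' := by group
          by_cases hyc : IsConj (x * x') g
          · have hyc' : IsConj (x' * x) g := by
              rw [← conj_iff x (x' * x), k5]
              exact hyc
            rw [tw_pos hyc, tw_pos hyc']
            have c1 := t_cen ht x (x' * x) hyc'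
            rw [k5] at c1
            set z := t (x * x') * x * (t (x' * x))⁻¹ with hz
            have k6 : z * t (x' * x) = t (x * x') * x := by rw [hz]; group
            have len3 : (tl (t (x' * x)) (L' ++ tl x' L)).length = N := by
              rw [tl_length, List.length_append, tl_length, len1, len2, ← List.length_append]
              exact hc'
            rw [← R1 z c1 _ len3, ← tl_mul, k6]
            have k7 : tl (t (x * x')) (L ++ tl x L') = tl (t (x * x')) L ++ tl (t (x * x') * x) L' := by
              rw [tl_append, ← tl_mul]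
            have k8 : tl (t (x * x') * x) (L' ++ tl x' L) =
                tl (t (x * x') * x) L' ++ tl g (tl (t (x * x')) L) := by
              rw [tl_append, ← tl_mul, ← tl_mul]
              congr 2
              have h9 := ht (x * x') hyc
              conv_rhs => rw [← h9]
              group
            rw [k7, k8]
            apply R2
            rw [List.length_append, tl_length, tl_length, len1, len2, ← List.length_append]
            exact hc
          · have hyc' : ¬ IsConj (x' * x) g := by
              rw [← conj_iff x (x' * x), k5]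
              exact hyc
            rw [tw_neg hyc, tw_neg hyc']
        rw [e5, co_append, co_append, mul_assoc, hT, mul_assoc, ← hR3, ← mul_assoc]
      · have hc' : ¬ ((l' ++ l).length = N) := fun h => hc (e1 ▸ h)
        rw [if_neg hc, if_neg hc']) N ((nsmulAddMonoidHom (α := M) N).range)
    (fun u d q hdq hu => by
      show d • FT dg a uu g t T N Θ (FreeMonoid.toList (u ^ q)) ∈ _
      rw [toList_pow]
      set l := FreeMonoid.toList u
      rw [FT]
      split_ifs with hc
      · have hq : q ≠ 0 := by
          rintro rfl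
          rw [mul_zero] at hdq
          exact hN0 hdq.symm
        by_cases hyc : IsConj ((List.replicate q l).flatten.map dg).prod g
        · rw [tw_pos hyc]
          set yy := ((List.replicate q l).flatten.map dg).prod with hyy
          have h1 : yy = (l.map dg).prod ^ q := by
            rw [hyy, List.map_flatten, List.prod_flatten, List.map_replicate, List.map_replicate,
              List.prod_replicate]
          have h2 : t yy * (l.map dg).prod * (t yy)⁻¹ ∈ Subgroup.zpowers g := by
            obtain ⟨j, _, hj⟩ := (Nat.dvd_prime_pow hp).1 (show q ∣ p ^ m from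
              ⟨d, by rw [← hN, ← hdq, mul_comm]⟩)
            apply root_mem hp hnt hg j
            rw [← hj, conj_pow, ← h1, ht yy hyc]
            exact Subgroup.mem_zpowers g
          have h3 := vl_pow dg uu l (t yy) h2 q 1 (Subgroup.one_mem _)
          rw [one_mul] at h3
          have h4 : vl dg uu (t yy) (List.replicate q l).flatten =
              tl (t yy) (vl dg uu 1 (List.replicate q l).flatten) := by rw [← vl_tl, mul_one]
          rw [h4] at h3
          obtain ⟨y, hy⟩ := R4 _ q _ h3
          refine ⟨T (co a (List.replicate q l).flatten * y), ?_⟩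
          show N • (T (co a (List.replicate q l).flatten * y) : M) = _
          rw [hy, mul_smul_comm, map_nsmul, smul_smul, hdq]
        · rw [tw_neg hyc, mul_zero, map_zero, smul_zero]
          exact AddSubgroup.zero_mem _
      · rw [smul_zero]
        exact AddSubgroup.zero_mem _)
  exact ⟨y, hy.symm⟩

end orbit

end Pool.Agent.W647.KG
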