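import Pool.Agent.W647.KG3

/-!
# Twisted version: the value of one simplex
-/

set_option autoImplicit false
set_option linter.unusedSectionVars false

namespace Pool.Agent.W647.KG

open Finset Pool.Agent.W647.HV1 Pool.Agent.W647.HW1 Pool.Agent.W647.KN

universe u

section TXg

variable {G : Type*} [Group G] {A : Type*} [Ring A] {g : G}

lemma AV_mem (K : AddSubgroup A) (k : ℕ) (Φ : List (ℕ → G) → A) (hΦ : ∀ l, Φ l ∈ K)
    (l : List (ℕ → G)) (κ : ℕ → G) : AV k Φ l κ ∈ K :=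
  Lc_pow_mem K l k _ (fun _ => hΦ _) []

lemma AV_flat (k : ℕ) {Φ : List (ℕ → G) → A} (hΦ : Inv g Φ) (l : List (ℕ → G)) (κ : ℕ → G)
    (q : ℕ) (l₀ : List (ℕ → G)) (h : l.map (rr g) = (List.replicate q l₀).flatten) :
    ∃ y, AV (k + 1) Φ l κ = q • y := by
  have h1 : AV (k + 1) Φ (l.map (rr g)) (rr g κ) = AV (k + 1) Φ l κ :=
    AV_pull (k + 1) Φ Φ (rr g) hΦ l κ _ fun m => rfl
  obtain ⟨L'', hL''⟩ := nsmul_pow_div q
    (Lc (cA : (ℕ → G) → AddMonoid.End (List (ℕ → G) → A)) l₀) k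
  rw [← h1, h, AV, Lc_flat, hL'']
  exact ⟨L'' (cA (rr g κ) Φ) [], rfl⟩

variable {p : ℕ} (hp : p.Prime) (hnt : ∀ y : G, orderOf y ≠ p) (hg : IsOfFinOrder g) {m N : ℕ}
  (hN : N = p ^ m)

include hp hnt hg hN in
lemma AV_R1 (k : ℕ) {Φ : List (ℕ → G) → A} (hΦ : Inv g Φ) (hC : Czi g Φ) (z : G)
    (hz : z * g = g * z) (l : List (ℕ → G)) (hl : l.length = N) :
    AV k Φ (tl z l) (kg g N (tl z l)) = AV k Φ l (kg g N l) :=
  AV_tl k hΦ hC z hz l _ _ (kg_tl hp hnt hg hN z hz l hl)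

lemma rr_append_tl (l l' : List (ℕ → G)) :
    (l' ++ tl g l).map (rr g) = (l' ++ l).map (rr g) := by
  rw [List.map_append, List.map_append, rr_tl (Subgroup.mem_zpowers g)]

include hp hnt hg hN in
lemma AV_R2 (k : ℕ) {Φ : List (ℕ → G) → A} (hΦ : Inv g Φ) (l l' : List (ℕ → G))
    (hl : (l ++ l').length = N) :
    AV k Φ (l ++ l') (kg g N (l ++ l')) = AV k Φ (l' ++ tl g l) (kg g N (l' ++ tl g l)) := by
  rw [AV_rot k Φ l l']
  exact AV_rr k hΦ (rr_append_tl l l').symm (kg_rot hp hnt hg hN l l' hl).symm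

end TXg

section total

variable {G : Type u} [Group G] {A : Type*} [Ring A] (σ : ℕ → ℕ → MonoidAlgebra A G)
  {M : Type*} [AddCommGroup M] {g : G} {t : G → G}
  (ht : ∀ y, IsConj y g → t y * y * (t y)⁻¹ = g)

include ht in
/-- **Divisibility for the rotation invariant apex** -/
theorem CT_dvd (T : A →+ M) (hT : ∀ x y, T (x * y) = T (y * x)) {p : ℕ} (hp : p.Prime)
    (hnt : ∀ y : G, orderOf y ≠ p) (hg : IsOfFinOrder g) {m N : ℕ} (hN : N = p ^ m) (S : Finset G)
    (hS : ∀ i j, (σ i j).coeff.support ⊆ S) (P : List ℕ) (k : ℕ) (Φ : List (ℕ → G) → A)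
    (hΦ : Inv g Φ) (hC : Czi g Φ) (hcen : ∀ l b, b * Φ l = Φ l * b) :
    ∃ y : M, T (CT σ g t P N (fun l => AV (k + 1) Φ l (kg g N l))) = N • y := by
  classical
  obtain ⟨y, hy⟩ := orbit_tw (bq S P) (bw σ S (P.getLastD 0) P) (bu S P) ht T hT hp hnt hg hN
    (fun l => AV (k + 1) Φ l (kg g N l))
    (fun z hz l hl => AV_R1 hp hnt hg hN (k + 1) hΦ hC z hz l hl)
    (fun l l' hl => AV_R2 hp hnt hg hN (k + 1) hΦ l l' hl)
    (fun l => AV_mem (Zs A) (k + 1) Φ (fun v => (mem_Zs _).2 (hcen v)) l _)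
    (fun l q l₀ h => AV_flat k hΦ l _ q l₀ h)
  refine ⟨y, ?_⟩
  rw [← hy, CT, words_sum (bq S P) (bw σ S (P.getLastD 0) P) (bu S P) (PS σ (P.getLastD 0) P)
    (fun Ψ h => PS_formula σ S hS _ P Ψ h) (WS σ P) (fun Ψ h => WS_zero σ P Ψ h)
    (fun N Ψ h => WS_succ σ P N Ψ h) N, map_sum]
  refine Finset.sum_congr rfl fun w _ => ?_
  rw [FT, one_mul, List.length_ofFn, smul_eq_mul, if_pos rfl]

end total

section QQ

variable {G : Type*} [Group G] {A : Type*} [Ring A] (g : G)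

/-- the values for the faces -/
noncomputable def Qg (k N : ℕ) (φ : List G → A) (P : List ℕ) (l : List (ℕ → G)) : A :=
  if l.length = N then AV k (cA (l.headD 1) (Pg k φ P)) l (kg g N l) else 0

lemma kg_coord (N : ℕ) (l l' : List (ℕ → G)) (p : ℕ)
    (h : ∀ j, (l.getD j 1) p = (l'.getD j 1) p) : kg g N l p = kg g N l' p := by
  show Xc g N (col g N l p) = Xc g N (col g N l' p)
  congr 1
  funext b
  rw [col, col, h]

variable {g}

lemma Qg_dep (k N : ℕ) (φ : List G → A) (P : List ℕ) : DepL P (Qg g k N φ P) := by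
  classical
  intro l l' hl
  set rs : (ℕ → G) → (ℕ → G) := fun a p => if p ∈ P then a p else 1 with hrs
  have h1 : ∀ a, ∀ p ∈ P, rs a p = a p := fun a p hp => by rw [hrs]; simp only; rw [if_pos hp]
  have h2 : l.map rs = l'.map rs := by
    induction hl with
    | nil => rfl
    | cons hab _ ih =>
      rw [List.map_cons, List.map_cons, ih]
      congr 1
      funext p
      rw [hrs]
      simp only
      split_ifs with hp
      · exact hab p hp
      · rfl
  have h0 : rs 1 = 1 := by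
    funext p
    rw [hrs]
    simp
  have key : ∀ l : List (ℕ → G), Qg g k N φ P (l.map rs) = Qg g k N φ P l := by
    intro l
    rw [Qg, Qg, List.length_map]
    split_ifs with hlN
    · have h3 := congrFun (Lc_pow_pull rs l k
        (cA (kg g N (l.map rs)) (cA ((l.map rs).headD 1) (Pg k φ P)))) []
      rw [List.map_nil] at h3
      rw [AV, h3, AV]
      have h4 : (fun m' : List (ℕ → G) =>
          cA (kg g N (l.map rs)) (cA ((l.map rs).headD 1) (Pg k φ P)) (m'.map rs)) =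
          cA (kg g N l) (cA (l.headD 1) (Pg k φ P)) := by
        funext m'
        show Pg k φ P ((l.map rs).headD 1 :: kg g N (l.map rs) :: m'.map rs) =
          Pg k φ P (l.headD 1 :: kg g N l :: m')
        refine Pg_dep k φ P _ _ (List.Forall₂.cons ?_ (List.Forall₂.cons ?_ ?_))
        · intro p hp
          cases l with
          | nil => rfl
          | cons a l => exact h1 a p hp
        · intro p hp
          refine kg_coord g N _ _ p fun j => ?_
          have h5 := getD_map_one (f := rs) l j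
          rw [h0] at h5
          rw [h5, h1 _ p hp]
        · rw [List.forall₂_map_left_iff]
          exact List.forall₂_same.2 fun a _ p hp => h1 a p hp
      rw [h4]
    · rfl
  rw [← key l, h2, key l']

lemma Qg_relabel (ρ : ℕ → ℕ) (k N : ℕ) (φ : List G → A) (P : List ℕ) (l : List (ℕ → G)) :
    Qg g k N φ (P.map ρ) l = Qg g k N φ P (l.map fun a => a ∘ ρ) := by
  rw [Qg, Qg, List.length_map]
  split_ifs with hlN
  · have h3 := congrFun (Lc_pow_pull (fun a : ℕ → G => a ∘ ρ) l k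
      (cA (kg g N (l.map fun a => a ∘ ρ)) (cA ((l.map fun a => a ∘ ρ).headD 1) (Pg k φ P)))) []
    rw [List.map_nil] at h3
    rw [AV, AV, h3]
    have h4 : (fun m' : List (ℕ → G) =>
        cA (kg g N (l.map fun a => a ∘ ρ)) (cA ((l.map fun a => a ∘ ρ).headD 1) (Pg k φ P))
          (m'.map fun a => a ∘ ρ)) = cA (kg g N l) (cA (l.headD 1) (Pg k φ (P.map ρ))) := by
      funext m'
      show Pg k φ P ((l.map fun a => a ∘ ρ).headD 1 :: kg g N (l.map fun a => a ∘ ρ) ::
        m'.map fun a => a ∘ ρ) = Pg k φ (P.map ρ) (l.headD 1 :: kg g N l :: m')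
      rw [Pg_relabel]
      have h5 : (l.map fun a => a ∘ ρ).headD 1 = (l.headD 1) ∘ ρ := by
        cases l with
        | nil => rfl
        | cons a l => rfl
      have h6 : kg g N (l.map fun a => a ∘ ρ) = (kg g N l) ∘ ρ := by
        funext p
        show Xc g N (col g N (l.map fun a : ℕ → G => a ∘ ρ) p) = Xc g N (col g N l (ρ p))
        congr 1
        funext b
        rw [col, col]
        have h7 := getD_map_one (f := fun a : ℕ → G => a ∘ ρ) l (b % N)
        have h8 : ((1 : ℕ → G) ∘ ρ) = 1 := rfl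
        simp only [h8] at h7
        rw [h7]
        rfl
      rw [h5, h6]
      rfl
    rw [h4]
  · rfl

lemma tl_head {l : List (ℕ → G)} (hl : l ≠ []) (z : G) :
    (tl z l).headD 1 = (fun _ => z) * l.headD 1 := by
  cases l with
  | nil => exact absurd rfl hl
  | cons a l => rfl

variable {p : ℕ} (hp : p.Prime) (hnt : ∀ y : G, orderOf y ≠ p) (hg : IsOfFinOrder g) {m N : ℕ}
  (hN : N = p ^ m)

include hp hnt hg hN in
lemma Qg_trans (k : ℕ) (φ : List G → A) (hi : inv g φ)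
    (hφ : ∀ z : G, z * g = g * z → ∀ v, φ (v.map fun a => z * a) = φ v) (P : List ℕ) :
    Czi g (Qg g k N φ P) := by
  intro z hz l
  rw [Qg, Qg, tl_length]
  split_ifs with hlN
  · have hl : l ≠ [] := by
      rintro rfl
      rw [List.length_nil] at hlN
      exact (pow_ne_zero m hp.ne_zero) (hN.symm.trans hlN.symm)
    rw [tl_head hl]
    have hPI : Inv g (Pg k φ P) := Pg_Inv k hi P
    refine AV_pull k (cA ((fun _ => z) * l.headD 1) (Pg k φ P)) (cA (l.headD 1) (Pg k φ P))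
      (fun a => (fun _ => z) * a) (fun m => ?_) l (kg g N l) _ fun m => ?_
    · exact Pg_trans z k φ (hφ z hz) P (l.headD 1 :: m)
    · have h1 := kg_tl hp hnt hg hN z hz l hlN
      show Pg k φ P (((fun _ => z) * l.headD 1) :: kg g N (tl z l) :: _) =
        Pg k φ P (((fun _ => z) * l.headD 1) :: ((fun _ => z) * kg g N l) :: _)
      rw [← hPI (((fun _ => z) * l.headD 1) :: kg g N (tl z l) :: _),
        ← hPI (((fun _ => z) * l.headD 1) :: ((fun _ => z) * kg g N l) :: _), List.map_cons,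
        List.map_cons, List.map_cons, List.map_cons, h1]
  · rfl

lemma Qg_mem (K : AddSubgroup A) (k N : ℕ) (φ : List G → A) (hφ : ∀ v, φ v ∈ K) (P : List ℕ)
    (l : List (ℕ → G)) : Qg g k N φ P l ∈ K := by
  rw [Qg]
  split_ifs
  · exact AV_mem K k _ (fun m' => Pg_mem K k φ hφ P _) _ _
  · exact K.zero_mem

lemma Qg_nil (k N : ℕ) (φ : List G → A) (l : List (ℕ → G)) : Qg g k N φ [] l = 0 := by
  rw [Qg]
  split_ifs
  · have h1 : cA (kg g N l) (cA (l.headD 1) (Pg k φ [])) = 0 := by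
      funext m'
      exact Pg_nil k φ _
    rw [AV, h1, map_zero]
    rfl
  · rfl

end QQ

section combine

variable {G : Type u} [Group G] {A : Type*} [Ring A] {M : Type*} [AddCommGroup M]

/-- the value of one simplex -/
noncomputable def Vt (g : G) (t : G → G) (σ : ℕ → ℕ → MonoidAlgebra A G) (T : A →+ M) (k : ℕ)
    (φ : List G → A) (P : List ℕ) : M :=
  T (CT σ g t P (2 * k + 1) (fun l => Ph k φ P l.reverse))

variable (σ : ℕ → ℕ → MonoidAlgebra A G) (hσ : ∀ i j k, σ i j * σ j k = σ i k)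
  (hone : ∀ i, σ i i = 1) (T : A →+ M) (hT : ∀ x y, T (x * y) = T (y * x)) {g : G} {t : G → G}
  (ht : ∀ y, IsConj y g → t y * y * (t y)⁻¹ = g)
  (φ : List G → A) (hφ : ∀ v, dl v φ = 0) (hi : inv g φ)
  (hφG : ∀ z : G, z * g = g * z → ∀ v, φ (v.map fun a => z * a) = φ v)
  (hcen : ∀ v b, b * φ v = φ v * b)

include hσ hone hT ht hφ hi hφG hcen in
/-- **The value of one simplex** -/
theorem one_tw {p : ℕ} (hp : p.Prime) (hnt : ∀ y : G, orderOf y ≠ p) (hg : IsOfFinOrder g)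
    {m N : ℕ} (hN : N + 1 = p ^ m) (P : List ℕ) (hP : P.Nodup) (S : Finset G)
    (hS : ∀ i j, (σ i j).coeff.support ⊆ S) (k : ℕ) :
    ∃ y : M, cn N (k + 1) • Vt g t σ T (k + 1) φ P =
      (N + 1) • y + dl P (fun P' => T (CT σ g t P' (N + 1) (Qg g (k + 1) (N + 1) φ P'))) := by
  have hC : Czi g (Ph (k + 1) φ P) := fun z hz l => Ph_trans z (k + 1) φ (hφG z hz) P l
  obtain ⟨y, hy⟩ := CT_dvd σ ht T hT hp hnt hg hN S hS P k (Ph (k + 1) φ P)
    (Ph_Inv (k + 1) hi P) hC
    (fun l => Ph_mem (Zs A) (k + 1) φ (fun v => (mem_Zs _).2 (hcen v)) P l)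
  refine ⟨y, ?_⟩
  rw [← hy, Vt, ← map_nsmul]
  have h1 := first_tw g t σ hσ hone P (Ph (k + 1) φ P) (Ph_VS (k + 1) φ P) N (k + 1)
  have h2 := face_gen σ hσ T hT P hP (N + 1) (fun P' => tw g t (Qg g (k + 1) (N + 1) φ P'))
    (fun P' z l y => tw_conj ht _ (Qg_trans hp hnt hg hN (k + 1) φ hi hφG P') z l y)
    (fun P' l y => tw_mem (Zs A) _
      (Qg_mem (Zs A) (k + 1) (N + 1) φ (fun v => (mem_Zs _).2 (hcen v)) P') l y)
    (fun P' => tw_dep _ (Qg_dep _ _ _ _)) (fun l y => by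
      have h3 : Qg g (k + 1) (N + 1) φ [] = fun _ => 0 := funext fun l => Qg_nil _ _ _ l
      rw [h3, tw_zero])
  have h2' : dl P (fun P' => T (CT σ g t P (N + 1) (Qg g (k + 1) (N + 1) φ P'))) =
      dl P (fun P' => T (CT σ g t P' (N + 1) (Qg g (k + 1) (N + 1) φ P'))) := h2
  rw [← h1, ← h2', ← dl_map T, ← CT_dl σ g t P (N + 1) P (Qg g (k + 1) (N + 1) φ), ← map_add]
  congr 1
  rw [← sub_eq_iff_eq_add', ← CT_sub]
  refine CT_congr σ g t P (N + 1) _ _ fun l hl => ?_
  have h3 := apex l (k + 1) (Ph (k + 1) φ P) (Pg (k + 1) φ) P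
    (fun m' => Ph_dl (k + 1) φ hφ P m') (kg g (N + 1) l) (l.headD 1)
  rw [AV, AV, h3]
  congr 1
  funext P'
  rw [Qg, if_pos hl, AV]

end combine

end Pool.Agent.W647.KG
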