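import Pool.Agent.W647.KG4

/-!
# Twisted version: cycles of groups of invertible elements
-/

set_option autoImplicit false
set_option linter.unusedSectionVars false

namespace Pool.Agent.W647.KG

open Finset Pool.Agent.W647.HV1 Pool.Agent.W647.HW1 Pool.Agent.W647.HZ1 Pool.Agent.W647.KN

universe u

section main

variable {Γ : Type} [Group Γ] {G : Type*} [Group G] {A : Type*} [Ring A] {M : Type*}
  [AddCommGroup M] (θ : Γ →* MonoidAlgebra A G) (g : G) (t : G → G)

lemma tl_comp (ρ : ℕ → ℕ) (z : G) (l : List (ℕ → G)) :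
    (tl z l).map (fun a => a ∘ ρ) = tl z (l.map fun a => a ∘ ρ) := by
  rw [tl, tl, List.map_map, List.map_map]
  rfl

lemma CT_relabel (σ : ℕ → ℕ → MonoidAlgebra A G) (ρ : ℕ → ℕ) (hρ : Function.Injective ρ)
    (P : List ℕ) (hP : P ≠ []) (k N : ℕ) (φ : List G → A) :
    CT σ g t (P.map ρ) N (Qg g k N φ (P.map ρ)) =
      CT (fun a b => σ (ρ a) (ρ b)) g t P N (Qg g k N φ P) := by
  rw [CT, CT]
  refine WS_relabel σ ρ hρ P hP N _ _ (fun l => ?_) 1
  funext h
  rw [tw, tw, Qg_relabel, tl_comp]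

/-- the values of the faces -/
noncomputable def Et (T : A →+ M) (k N : ℕ) (φ : List G → A) {m : ℕ} (w : Fin (m + 1) → Γ) : M :=
  T (CT (sw θ w) g t (List.range (m + 1)) N (Qg g k N φ (List.range (m + 1))))

lemma Et_left (T : A →+ M) (k N : ℕ) (φ : List G → A) {m : ℕ} (z : Γ) (w : Fin (m + 1) → Γ) :
    Et θ g t T k N φ (fun i => z * w i) = Et θ g t T k N φ w := by
  rw [Et, Et, sw_left]

lemma dl_tw (T : A →+ M) (k N : ℕ) (φ : List G → A) {m : ℕ} (w : Fin (m + 2) → Γ) :
    dl (List.range (m + 2)) (fun P' => T (CT (sw θ w) g t P' N (Qg g k N φ P'))) =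
      ∑ j : Fin (m + 2), (-1 : ℤ) ^ (j : ℕ) • Et θ g t T k N φ (w ∘ j.succAbove) := by
  rw [dl_eq_sum, List.length_range, Finset.sum_range]
  refine Finset.sum_congr rfl fun j _ => ?_
  congr 1
  rw [Et, erase_range (m + 1) j j.isLt, CT_relabel g t _ _ (dlt_inj _) _ (by simp)]
  congr 1
  rw [CT, CT]
  refine WS_congr_σ _ _ _ (by simp) (fun a ha b hb => ?_) N _ _
  rw [List.mem_range] at ha hb
  exact sw_face θ w j a b ha hb

/-- the values at chains -/
noncomputable def Vh (T : A →+ M) (k : ℕ) (φ : List G → A) {m : ℕ} (w : Fin (m + 1) → Γ) : M :=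
  Vt g t (sw θ w) T k φ (List.range (m + 1))

variable {g t} (T : A →+ M) (hT : ∀ x y, T (x * y) = T (y * x))
  (ht : ∀ y, IsConj y g → t y * y * (t y)⁻¹ = g) (hg : IsOfFinOrder g)
  (φ : List G → A) (hφ : ∀ v, dl v φ = 0) (hi : inv g φ)
  (hφG : ∀ z : G, z * g = g * z → ∀ v, φ (v.map fun a => z * a) = φ v)
  (hcen : ∀ v b, b * φ v = φ v * b)

include hT ht hg hφ hi hφG hcen in
/-- **Divisibility on cycles, one prime** -/
theorem cycle_prime_tw {p : ℕ} (hp : p.Prime) (hnt : ∀ y : G, orderOf y ≠ p) (M' : ℕ) {m : ℕ}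
    (z : (Fin (m + 1) → Γ) →₀ ℤ) (hz : dd Γ m z = 0) (k : ℕ) :
    ∃ y : M, (2 * (k + 1)).descFactorial (k + 1) • ph0 (Vh θ g t T (k + 1) φ) z = p ^ M' • y := by
  obtain ⟨N, hN⟩ : ∃ N, N + 1 = p ^ (M' + (2 * k + 4)) :=
    ⟨p ^ (M' + (2 * k + 4)) - 1, Nat.succ_pred_eq_of_pos (pow_pos hp.pos _)⟩
  have h1 : ∀ w : Fin (m + 2) → Γ, ∃ y : M, cn N (k + 1) • Vh θ g t T (k + 1) φ w =
      (N + 1) • y + ∑ j : Fin (m + 2), (-1 : ℤ) ^ (j : ℕ) •
        Et θ g t T (k + 1) (N + 1) φ (w ∘ j.succAbove) := by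
    intro w
    obtain ⟨S, hS⟩ := sw_supp θ w
    obtain ⟨y, hy⟩ := one_tw (sw θ w) (sw_mul θ w) (sw_one θ w) T hT ht φ hφ hi hφG hcen hp hnt hg hN
      (List.range (m + 2)) List.nodup_range S hS k
    refine ⟨y, ?_⟩
    rw [Vh, hy, dl_tw]
  choose y hy using h1
  have h2 : cn N (k + 1) • ph0 (Vh θ g t T (k + 1) φ) z = (N + 1) • ph0 y z := by
    rw [← ph0_nsmul, show (fun v => cn N (k + 1) • Vh θ g t T (k + 1) φ v) =
      (fun v => (N + 1) • y v + ∑ j : Fin (m + 2), (-1 : ℤ) ^ (j : ℕ) •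
        Et θ g t T (k + 1) (N + 1) φ (v ∘ j.succAbove)) from funext hy, ph0_add, ph0_nsmul,
      ← ph0_dd' _ (Et_left θ g t T (k + 1) (N + 1) φ), hz, map_zero, add_zero]
  have hN1 : 2 * k + 4 < N + 1 := by
    rw [hN]
    calc 2 * k + 4 < p ^ (2 * k + 4) := Nat.lt_pow_self hp.one_lt
      _ ≤ p ^ (M' + (2 * k + 4)) := Nat.pow_le_pow_right hp.pos (by omega)
  obtain ⟨n, hn⟩ : ∃ n, N = n + (k + 1) := ⟨N - (k + 1), by omega⟩
  obtain ⟨s, hs⟩ := desc_mod (k + 1) n (N + 1) (by omega) (by omega)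
  rw [hn, cn_eq, ← hn] at h2
  set Z := ph0 (Vh θ g t T (k + 1) φ) z
  refine ⟨(-1 : ℤ) ^ (k + 1) • (p ^ (2 * k + 4) • ph0 y z) + s • (p ^ (2 * k + 4) • Z), ?_⟩
  rw [← natCast_zsmul, hs, add_smul, mul_smul, natCast_zsmul, h2, smul_add, hN]
  congr 1
  · rw [pow_add p M' (2 * k + 4), mul_smul, smul_comm]
  · rw [mul_smul, smul_comm, natCast_zsmul, smul_comm (p ^ M') s, smul_smul (p ^ M'), ← pow_add,
      smul_comm]

include hT ht hg hφ hi hφG hcen in
/-- **Divisibility on cycles** -/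
theorem cycle_tw {m : ℕ} (z : (Fin (m + 1) → Γ) →₀ ℤ) (hz : dd Γ m z = 0) {k : ℕ} (hk : k ≠ 0)
    (N : ℕ) (hN : N ≠ 0) (hnt : ∀ p : ℕ, p.Prime → p ∣ N → ∀ y : G, orderOf y ≠ p) :
    ∃ y : M, (2 * k).descFactorial k • ph0 (Vh θ g t T k φ) z = N • y := by
  obtain ⟨k, rfl⟩ := Nat.exists_eq_succ_of_ne_zero hk
  exact HX1.dvd_of_primes N hN fun p hp hpN M' =>
    cycle_prime_tw θ T hT ht hg φ hφ hi hφG hcen hp (hnt p hp hpN) M' z hz k

end main

section arrays

variable {G : Type*} [Group G] {A : Type*} [Ring A]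

open Classical in
lemma CT_arr (g : G) (t : G → G) (σ : ℕ → ℕ → MonoidAlgebra A G) (S : Finset G)
    (hS : ∀ i j, (σ i j).coeff.support ⊆ S) (n q : ℕ) (Θ : List (ℕ → G) → A)
    (hΘ : DepL (List.range (n + 1)) Θ) : CT σ g t (List.range (n + 1)) q Θ =
      ∑ w : Fin q → Fin (n + 1) → S,
        if IsConj (List.ofFn fun b => (List.ofFn fun p => (w b p : G)).prod).prod g then
          (List.ofFn fun b => (List.ofFn fun p =>
            (σ (prv n 0 p) p).coeff (w b p : G)).prod).prod *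
          Θ (List.ofFn fun b => (fun _ => t (List.ofFn fun b =>
            (List.ofFn fun p => (w b p : G)).prod).prod) * vtx (fun b p => (w b p : G)) b)
          else 0 := by
  classical
  have hlen : (List.range (n + 1)).length = n + 1 := List.length_range
  have hlast : (List.range (n + 1)).getLastD 0 = n := by
    rw [List.range_succ, List.getLastD_concat]
  have h1 : ∀ (Ψ : (ℕ → G) → G → A) (h : G), PS σ n (List.range (n + 1)) Ψ h =
      ∑ w : Fin (n + 1) → S, bwl σ S n (List.range (n + 1)) (List.ofFn w) •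
        Ψ ((fun _ => h) * bul S (List.range (n + 1)) (List.ofFn w))
          (h * ((List.ofFn w).map fun s : S => (s : G)).prod) := by
    intro Ψ h
    have h2 := PS_words σ S hS n (List.range (n + 1)) Ψ h
    rw [hlen] at h2
    exact h2
  rw [CT, words_sum (fun w : Fin (n + 1) → S => ((List.ofFn w).map fun s : S => (s : G)).prod)
    (fun w => bwl σ S n (List.range (n + 1)) (List.ofFn w))
    (fun w => bul S (List.range (n + 1)) (List.ofFn w))
    (PS σ ((List.range (n + 1)).getLastD 0) (List.range (n + 1)))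
    (fun Ψ h => by rw [hlast]; exact h1 Ψ h) (WS σ (List.range (n + 1)))
    (fun Ψ h => WS_zero σ _ Ψ h) (fun N Ψ h => WS_succ σ _ N Ψ h) q]
  refine Finset.sum_congr rfl fun w _ => ?_
  have e1 : (List.ofFn w).map (fun w : Fin (n + 1) → S =>
      ((List.ofFn w).map fun s : S => (s : G)).prod) =
      List.ofFn fun b => (List.ofFn fun p => (w b p : G)).prod := by
    rw [List.map_ofFn]
    congr 1
    funext b
    rw [Function.comp_apply, List.map_ofFn]
    rfl
  rw [tw, one_mul, e1, smul_eq_mul]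
  by_cases hc : IsConj (List.ofFn fun b => (List.ofFn fun p => (w b p : G)).prod).prod g
  · rw [if_pos hc, if_pos hc, vl_ofFn]
    congr 1
    · rw [co, List.map_ofFn]
      congr 2
      funext b
      rw [Function.comp_apply, List.range_eq_range', bwl_range]
      congr 2
      funext j
      rw [zero_add]
    · apply hΘ
      rw [tl, List.map_ofFn, List.forall₂_iff_get]
      refine ⟨by rw [List.length_ofFn, List.length_ofFn], fun i h2 h3 p hp => ?_⟩
      rw [List.mem_range] at hp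
      simp only [List.get_eq_getElem, List.getElem_ofFn]
      rw [Function.comp_apply, Pi.mul_apply, Pi.mul_apply, Pi.mul_apply, vtx, one_mul]
      congr 1
      congr 1
      · congr 3
        funext b'
        rw [List.map_ofFn]
        rfl
      · have h4 := bul_range S 0 (n + 1) (List.ofFn (w ⟨i, by rw [List.length_ofFn] at h2; exact h2⟩))
          (List.length_ofFn) p hp
        rw [zero_add, ← List.range_eq_range'] at h4
        rw [h4, List.map_ofFn]
        rfl
  · rw [if_neg hc, if_neg hc, mul_zero]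

end arrays

end Pool.Agent.W647.KG
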