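import Pool.Agent.W647.KG5

/-!
# Twisted version: Chern numbers of cycles of invertible matrices over graded rings
-/

set_option autoImplicit false
set_option linter.unusedSectionVars false

namespace Pool.Agent.W647.KG

open Finset Pool.Agent.W647.HV1 Pool.Agent.W647.HW1 Pool.Agent.W647.HX1 Pool.Agent.W647.HZ1
open Pool.Agent.W647.KN

section defs

variable {G : Type*} [Group G] {A : Type*} [AddCommGroup A]

/-- The value of the cochain `c` of `G` on the array of the partial products of the elements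
`s b p`, multiplied by `x` from the left: the alternating sum over all permutations of the rows of
the signed sums over the lattice paths. -/
def cvt {q n N : ℕ} (c : (Fin N → G) → A) (x : G) (s : Fin q → Fin n → G) : A :=
  ∑ τ : Equiv.Perm (Fin q), ((Equiv.Perm.sign τ : ℤˣ) : ℤ) •
    sh (List.ofFn fun b => fun p => x * vtx s (τ b) p) (List.range n) (la c)

variable {R : Type*} [Ring R] {M : Type*} [AddCommGroup M] {d : Type*} [Fintype d] [DecidableEq d]

open Classical in
/-- The sum over all arrays `s` with `q` rows and `n` columns of elements of `G` whose product `y`,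
row by row, is conjugate to `g`, of the trace of the product, row by row, of the matrices
`f p (s b p)`, paired with the value of `c` on the array of the partial products, multiplied by
`t y` from the left, where `t y * y * (t y)⁻¹ = g`. -/
noncomputable def chg (T : R →+ A →+ M) (g : G) (t : G → G) (q : ℕ) {n N : ℕ}
    (c : (Fin N → G) → A) (f : Fin n → G → Matrix d d R) : M :=
  ∑ᶠ s : Fin q → Fin n → G, if IsConj (List.ofFn fun b => (List.ofFn (s b)).prod).prod g then
    T (List.ofFn fun b => (List.ofFn fun p => f p (s b p)).prod).prod.trace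
      (cvt c (t (List.ofFn fun b => (List.ofFn (s b)).prod).prod) s) else 0

end defs

section basic

variable {G : Type*} [Group G] {A : Type*} [Ring A] {g : G}

lemma VS_zpow {φ : List G → A} (hφ : φ ∈ VS g A) (m : ℤ) :
    ∀ l a l', φ (l ++ (g ^ m * a) :: l') = φ (l ++ a :: l') := by
  obtain ⟨_, _, h3⟩ := hφ
  have hn : ∀ (n : ℕ) l a l', φ (l ++ (g ^ n * a) :: l') = φ (l ++ a :: l') := by
    intro n
    induction n with
    | zero => intro l a l'; rw [pow_zero, one_mul]
    | succ n ih => intro l a l'; rw [pow_succ', mul_assoc, h3, ih]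
  intro l a l'
  cases m with
  | ofNat n => rw [Int.ofNat_eq_natCast, zpow_natCast]; exact hn n l a l'
  | negSucc n =>
    have h4 := hn (n + 1) l (g ^ (Int.negSucc n) * a) l'
    rw [← h4, ← mul_assoc, zpow_negSucc, mul_inv_cancel, one_mul]

lemma VS_inv {φ : List G → A} (hφ : φ ∈ VS g A) : inv g φ := by
  have h1 : ∀ l l₀ : List G, φ (l₀ ++ l.map (rp g)) = φ (l₀ ++ l) := by
    intro l
    induction l with
    | nil => intro l₀; rfl
    | cons a l ih =>
      intro l₀
      obtain ⟨m, hm⟩ := rp_spec g a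
      rw [List.map_cons, hm, VS_zpow hφ m l₀ a (l.map (rp g))]
      have h2 := ih (l₀ ++ [a])
      simpa using h2
  intro l
  have h2 := h1 l []
  simpa using h2

lemma lc_left' {n : ℕ} {c : (Fin (n + 1) → G) → A} (hc : IsClassCocycle g c) (z : G)
    (hz : z * g = g * z) (l : List G) : lc c (l.map fun a => z * a) = lc c l := by
  rw [lc, lc, List.length_map]
  split_ifs with hl
  · rw [vec_map (n + 1) l hl]
    exact hc.left z hz _
  · rfl

end basic

section main

variable {G : Type*} [Group G] [DecidableEq G] {S : Type} [Ring S] (𝒮 : G → AddSubgroup S)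
  [DirectSum.Decomposition 𝒮] {d : Type} [Fintype d] [DecidableEq d]
  {A : Type*} [AddCommGroup A] {M : Type*} [AddCommGroup M]
  (h1 : (1 : S) ∈ 𝒮 1) (hmul : ∀ g h : G, ∀ x ∈ 𝒮 g, ∀ y ∈ 𝒮 h, x * y ∈ 𝒮 (g * h))
  {g : G} {t : G → G}

lemma Ph_Th' (k n : ℕ) {N : ℕ} {c : (Fin (N + 1) → G) → A} (hc : IsClassCoc g c)
    (l : List (ℕ → G)) (hl : l.length = 2 * k + 1) :
    Ph k (lc (cmat d fun v => κ S A (c v))) (List.range n) l.reverse = ff d S A (Th k n c l) := by
  have hcl := cmat_class (d := d) (κ_class' (R := S) hc)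
  have hrep := (lc_VS hcl.perm hcl.rep).2.1
  have e1 : Ph k (lc (cmat d fun v => κ S A (c v))) (List.range n) l.reverse = (2 * k + 2) •
      Al (2 * k + 1) (J (List.range n).length (2 * k + 1) (lc (cmat d fun v => κ S A (c v)))
        (List.range n)) l.reverse := rfl
  rw [e1, Al_rev _ _ _ hl, Al_apply _ _ _ hl, Th, ← natCast_zsmul, smul_smul, map_zsmul, map_sum]
  congr 1
  refine Finset.sum_congr rfl fun τ _ => ?_
  rw [map_zsmul, sh_map]
  congr 1
  have e2 : (fun v => ff d S A (la c v)) = lc (cmat d fun v => κ S A (c v)) := by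
    funext v
    exact (lc_ff c v).symm
  rw [e2, ← J_eq_sh _ (by
    intro h
    have h2 := congrArg List.length h
    rw [List.length_ofFn, List.length_nil] at h2
    omega) _ _ hrep, List.length_ofFn]

/-- the general formula for the values at chains -/
lemma Vh_gen {Γ : Type} [Group Γ] (θ : Γ →* MonoidAlgebra (Matrix d d (E S A)) G)
    (f : Γ → G → Matrix d d S) (hθ : ∀ u s, (θ u).coeff s = (ι S A).mapMatrix (f u s))
    (T : S →+ A →+ M) (k : ℕ) {m N : ℕ} {c : (Fin (N + 1) → G) → A}
    (hc : IsClassCoc g c) (v : Fin m → Γ) :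
    Vh θ g t (mT d (tE T)) k (lc (cmat d fun v => κ S A (c v))) (Fin.partialProd v) =
      (((2 * k + 2 : ℕ) : ℤ) * ((Equiv.Perm.sign (Fin.revPerm : Equiv.Perm (Fin (2 * k + 1))) :
        ℤˣ) : ℤ)) • chg T g t (2 * k + 1) c (fun p => f (hh v p)) := by
  classical
  obtain ⟨U, hU⟩ := sw_supp θ (Fin.partialProd v)
  rw [Vh, Vt, CT_congr _ _ _ _ _ _ (fun l => ff d S A (Th k (m + 1) c l))
    (fun l hl => Ph_Th' k (m + 1) hc l hl),
    CT_arr g t _ U hU m (2 * k + 1) _ (fun l l' hl => by rw [Th_dep k (m + 1) c l l' hl]), map_sum,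
    chg, ← arr_finsum U (2 * k + 1) (m + 1), Finset.smul_sum]
  · refine Finset.sum_congr rfl fun w _ => ?_
    split_ifs with hc1
    · have e1 : (List.ofFn fun b => (List.ofFn fun p : Fin (m + 1) =>
          ((sw θ (Fin.partialProd v) (prv m 0 p) p).coeff) (w b p : G)).prod).prod =
          (ι S A).mapMatrix (List.ofFn fun b => (List.ofFn fun p =>
            f (hh v p) (w b p : G)).prod).prod := by
        rw [map_list_prod, List.map_ofFn]
        congr 2
        funext b
        rw [Function.comp_apply, map_list_prod, List.map_ofFn]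
        congr 2
        funext p
        rw [Function.comp_apply, sw, prv_hh, hθ]
      rw [e1, T_ff, Th, map_zsmul, vec_ofFn]
      rfl
    · rw [map_zero, smul_zero]
  · intro s hs
    obtain ⟨b, p, hbp⟩ := hs
    have e2 : f (hh v p) (s b p) = 0 := by
      have e3 : (θ (hh v p)).coeff (s b p) = 0 := by
        rw [← prv_hh]
        exact Finsupp.notMem_support_iff.1 fun h => hbp (hU (prv m 0 p) p h)
      rw [hθ] at e3
      have e5 : ∀ X : Matrix d d S, (ι S A).mapMatrix X = 0 → X = 0 := by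
        intro X hX
        apply Matrix.ext
        intro i j
        apply ι_inj (A := A)
        have e6 := congrFun (congrFun hX i) j
        rw [Matrix.zero_apply, map_zero]
        exact e6
      exact e5 _ e3
    have e4 : (List.ofFn fun b => (List.ofFn fun p => f (hh v p) (s b p)).prod).prod = 0 := by
      apply List.prod_eq_zero
      rw [List.mem_ofFn]
      refine ⟨b, ?_⟩
      apply List.prod_eq_zero
      rw [List.mem_ofFn]
      exact ⟨p, e2⟩
    rw [e4, Matrix.trace_zero, map_zero, AddMonoidHom.zero_apply, ite_self]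

/-- **Divisibility of the Chern numbers at `g`** -/
theorem gen_dvd {Γ : Type} [Group Γ] (θ : Γ →* MonoidAlgebra (Matrix d d (E S A)) G)
    (f : Γ → G → Matrix d d S) (hθ : ∀ u s, (θ u).coeff s = (ι S A).mapMatrix (f u s))
    (T : S →+ A →+ M) (hT : ∀ x y, T (x * y) = T (y * x)) (hg : IsOfFinOrder g)
    (ht : ∀ y, IsConj y g → t y * y * (t y)⁻¹ = g) {m k : ℕ}
    (hk : k ≠ 0) {N' : ℕ} {c : (Fin (N' + 1) → G) → A} (hc : IsClassCoc g c)
    (z : (Fin (m + 1) → Γ) →₀ ℤ) (hz : dd Γ m z = 0) (N : ℕ)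
    (hN : N ≠ 0) (hnt : ∀ p : ℕ, p.Prime → p ∣ N → ∀ y : G, orderOf y ≠ p) :
    ∃ y : M, ((2 * k + 2) * (2 * k).descFactorial k) • z.sum (fun v a => a •
      chg T g t (2 * k + 1) c (fun p => f (hh v p))) = N • y := by
  have hcl := cmat_class (d := d) (κ_class' (R := S) hc)
  obtain ⟨y, hy⟩ := cycle_tw θ (mT d (tE T)) (mT_comm _ (tE_comm T hT)) ht hg
    (lc (cmat d fun v => κ S A (c v)))
    (fun v => by rw [dl_D]; exact D_lc hcl v)
    (VS_inv (lc_mem hcl))
    (fun z hz v => lc_left' hcl z hz v)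
    (fun v b => by
      rw [lc]
      split_ifs
      · exact cmat_cen (fun v a => κ_cen a _) _ _
      · rw [mul_zero, zero_mul]) z hz hk N hN hnt
  set sg : ℤ := ((Equiv.Perm.sign (Fin.revPerm : Equiv.Perm (Fin (2 * k + 1))) : ℤˣ) : ℤ) with hsg
  have e1 : ph0 (Vh θ g t (mT d (tE T)) k (lc (cmat d fun v => κ S A (c v)))) z =
      sg • (2 * k + 2) • z.sum (fun v a => a •
        chg T g t (2 * k + 1) c (fun p => f (hh v p))) := by
    rw [ph0_sum, Finsupp.sum, Finsupp.sum, Finset.smul_sum, Finset.smul_sum]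
    refine Finset.sum_congr rfl fun v _ => ?_
    rw [Vh_gen θ f hθ _ _ hc, smul_smul, ← natCast_zsmul, smul_smul, smul_smul]
    congr 1
    ring
  rw [e1] at hy
  have hsg1 : sg * sg = 1 := by
    rw [hsg, ← Units.val_mul, Int.units_mul_self, Units.val_one]
  refine ⟨sg • y, ?_⟩
  rw [smul_comm N sg y, ← hy, smul_comm ((2 * k).descFactorial k) sg, smul_smul sg, hsg1, one_smul,
    smul_smul, mul_comm]

include h1 hmul in
/-- **Divisibility of the Chern numbers at `g` of cycles of invertible matrices over graded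
rings** -/
theorem graded_tw (T : S →+ A →+ M) (hT : ∀ x y, T (x * y) = T (y * x)) (hg : IsOfFinOrder g)
    (ht : ∀ y, IsConj y g → t y * y * (t y)⁻¹ = g) {m k : ℕ}
    (hk : k ≠ 0) {N' : ℕ} {c : (Fin (N' + 1) → G) → A} (hc : IsClassCoc g c)
    (z : (Fin (m + 1) → (Matrix d d S)ˣ) →₀ ℤ) (hz : dd (Matrix d d S)ˣ m z = 0) (N : ℕ)
    (hN : N ≠ 0) (hnt : ∀ p : ℕ, p.Prime → p ∣ N → ∀ y : G, orderOf y ≠ p) :
    ∃ y : M, ((2 * k + 2) * (2 * k).descFactorial k) • z.sum (fun v a => a •
      chg T g t (2 * k + 1) c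
        (fun p => gc 𝒮 ((hh v p : (Matrix d d S)ˣ) : Matrix d d S))) = N • y := by
  have h2 : ∀ (u : (Matrix d d S)ˣ) (s : G), (thG 𝒮 A h1 hmul u).coeff s =
      (ι S A).mapMatrix ((fun (u : (Matrix d d S)ˣ) (s : G) => gc 𝒮 (u : Matrix d d S) s) u s) :=
    fun u s => thG_coeff 𝒮 h1 hmul u s
  exact gen_dvd (Γ := (Matrix d d S)ˣ) (thG 𝒮 A h1 hmul)
    (fun (u : (Matrix d d S)ˣ) (s : G) => gc 𝒮 (u : Matrix d d S) s) h2 T hT hg ht
    hk hc z hz N hN hnt

end main

section groupring

variable {G : Type} [Group G] {R : Type} [Ring R] {d : Type} [Fintype d] [DecidableEq d]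
  {A : Type*} [AddCommGroup A] {M : Type*} [AddCommGroup M] {g : G} {t : G → G}

/-- **Divisibility of the Chern numbers at `g` of cycles of invertible matrices over group rings** -/
theorem ring_tw (T : R →+ A →+ M) (hT : ∀ x y, T (x * y) = T (y * x)) (hg : IsOfFinOrder g)
    (ht : ∀ y, IsConj y g → t y * y * (t y)⁻¹ = g) {m k : ℕ}
    (hk : k ≠ 0) {N' : ℕ} {c : (Fin (N' + 1) → G) → A} (hc : IsClassCoc g c)
    (z : (Fin (m + 1) → (Matrix d d (MonoidAlgebra R G))ˣ) →₀ ℤ)
    (hz : dd (Matrix d d (MonoidAlgebra R G))ˣ m z = 0) (N : ℕ)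
    (hN : N ≠ 0) (hnt : ∀ p : ℕ, p.Prime → p ∣ N → ∀ y : G, orderOf y ≠ p) :
    ∃ y : M, ((2 * k + 2) * (2 * k).descFactorial k) • z.sum (fun v a => a •
      chg T g t (2 * k + 1) c (fun p =>
        cm ((hh v p : (Matrix d d (MonoidAlgebra R G))ˣ) : Matrix d d (MonoidAlgebra R G)))) =
      N • y := by
  classical
  have h2 : ∀ (u : (Matrix d d (MonoidAlgebra R G))ˣ) (s : G), (thR A u).coeff s =
      (ι R A).mapMatrix ((fun (u : (Matrix d d (MonoidAlgebra R G))ˣ) (s : G) =>
        cm (u : Matrix d d (MonoidAlgebra R G)) s) u s) :=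
    fun u s => thR_coeff u s
  exact gen_dvd (Γ := (Matrix d d (MonoidAlgebra R G))ˣ) (thR A)
    (fun (u : (Matrix d d (MonoidAlgebra R G))ˣ) (s : G) =>
      cm (u : Matrix d d (MonoidAlgebra R G)) s) h2 T hT hg ht
    hk hc z hz N hN hnt

end groupring

end Pool.Agent.W647.KG
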