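import Pool.Agent.W647.KN12

/-!
# The explicit numbers of the cycles of invertible matrices over group rings
-/

set_option autoImplicit false
set_option linter.unusedSectionVars false

namespace Pool.Agent.W647.KN

open Finset Pool.Agent.W647.HV1 Pool.Agent.W647.HW1 Pool.Agent.W647.HX1 Pool.Agent.W647.HZ1

universe u

section final

/-- the group `GL_d(R[G])` -/
abbrev GLG (d R G : Type) [Fintype d] [DecidableEq d] [Ring R] [Group G] : Type :=
  (Matrix d d (MonoidAlgebra R G))ˣ

/-- `z` is an integral cycle of degree `m + 1` of the group `Γ`, in the complex of inhomogeneous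
chains. -/
def IsCyc {Γ : Type} [Group Γ] {m : ℕ} (z : (Fin (m + 1) → Γ) →₀ ℤ) : Prop :=
  (groupHomology.inhomogeneousChains.d (Rep.trivial ℤ Γ ℤ) m).hom z = 0

/-- the product of the entries of the array `s`, row by row -/
def rowProd {Γ : Type*} [Monoid Γ] {q n : ℕ} (s : Fin q → Fin n → Γ) : Γ :=
  (List.ofFn fun b => (List.ofFn (s b)).prod).prod

variable {G : Type} [Group G] {R : Type} [Ring R] {d : Type} [Fintype d] [DecidableEq d]
  {A : Type u} [AddCommGroup A]

open Classical in
/-- The sum over all arrays `s` of elements of `G` with `q` rows and `n` columns, whose product,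
row by row, is `1`, of the numbers `T₀ (tr (∏ h_p [s_{b,p}])) · cv c s`, where the product is taken
row by row and `h [s]` is the matrix of the coefficients of `h` at `s`. -/
noncomputable def arrayNumber (T₀ : R →+ ℤ) (q : ℕ) {n N : ℕ} (c : (Fin N → G) → A)
    (h : Fin n → GLG d R G) : A :=
  ∑ᶠ s : Fin q → Fin n → G, if rowProd s = 1 then
    T₀ (rowProd fun b p => cm (h p : Matrix d d (MonoidAlgebra R G)) (s b p)).trace • cv c s else 0

/-- The Chern number of the chain `z` of `GL_d(R[G])` and the cochain `c` of `G`: the sum over the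
sequences `g = (g₁, …, gₙ)`, with the coefficients of `z`, of the numbers of
`((g₁ ⋯ gₙ)⁻¹, g₁, …, gₙ)` and `c`, for arrays with `2 k + 1` rows. -/
noncomputable def cycleNumber (T₀ : R →+ ℤ) (k : ℕ) {m N : ℕ} (c : (Fin N → G) → A)
    (z : (Fin (m + 1) → GLG d R G) →₀ ℤ) : A :=
  z.sum fun g a => a • arrayNumber T₀ (2 * k + 1) c (hh g)

lemma cycleNumber_eq (T₀ : R →+ ℤ) (k : ℕ) {m N : ℕ} (c : (Fin N → G) → A)
    (z : (Fin (m + 1) → GLG d R G) →₀ ℤ) :
    cycleNumber T₀ k c z = chz (TT T₀ A) k c z := rfl

end final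

end Pool.Agent.W647.KN
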