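import Pool.Agent.W647.KG6
import Pool.Agent.W647.KN13

/-!
# Twisted version: vanishing of the Chern numbers of group rings
-/

set_option autoImplicit false
set_option linter.unusedSectionVars false

namespace Pool.Agent.W647.KG

open Finset Pool.Agent.W647.HV1 Pool.Agent.W647.HW1 Pool.Agent.W647.HX1 Pool.Agent.W647.HZ1
open Pool.Agent.W647.KN CategoryTheory

universe u

section pull

variable {G : Type*} [Group G] {g : G} {Q : Type*} [Group Q] {A : Type*} [AddCommGroup A]

/-- cocycles of quotients of the centralizer of `g` -/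
lemma pull_class (ρ : Subgroup.centralizer {g} →* Q)
    (hρ : ∀ z : Subgroup.centralizer {g}, (z : G) = g → ρ z = 1) (r : G → Q)
    (hr : ∀ (z : Subgroup.centralizer {g}) (x : G), r (z * x) = ρ z * r x) {n : ℕ}
    {c : (Fin (n + 1) → Q) → A} (hc : IsAltCocycle c) : IsClassCoc g fun v => c (r ∘ v) where
  perm v σ := hc.perm (r ∘ v) σ
  rep v i j hij h := hc.rep (r ∘ v) i j hij (congrArg r h)
  left z hz v := by
    have h1 : z ∈ Subgroup.centralizer {g} := by
      rw [Subgroup.mem_centralizer_singleton_iff]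
      exact hz
    have h2 : (r ∘ fun i => z * v i) = fun i => ρ ⟨z, h1⟩ * (r ∘ v) i := by
      funext i
      exact hr ⟨z, h1⟩ (v i)
    rw [h2, hc.left]
  single v i := by
    congr 1
    funext j
    rw [Function.comp_apply, Function.comp_apply]
    by_cases h : j = i
    · subst h
      rw [Function.update_self]
      have h1 : g ∈ Subgroup.centralizer {g} := by
        rw [Subgroup.mem_centralizer_singleton_iff]
      have h2 := hr ⟨g, h1⟩ (v j)
      rw [hρ ⟨g, h1⟩ rfl, one_mul] at h2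
      exact h2
    · rw [Function.update_of_ne h]
  closed v := hc.closed (r ∘ v)

end pull

section functor

variable {G : Type} [Group G] {R : Type} [Ring R] {d : Type} [Fintype d] [DecidableEq d]
  {A : Type*} [AddCommGroup A] {B : Type*} [AddCommGroup B] (g : G) (t : G → G)

lemma cvt_map (f : A →+ B) {q n N : ℕ} (c : (Fin N → G) → A) (x : G) (s : Fin q → Fin n → G) :
    f (cvt c x s) = cvt (fun v => f (c v)) x s := by
  rw [cvt, cvt, map_sum]
  refine Finset.sum_congr rfl fun τ _ => ?_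
  rw [map_zsmul, sh_map]
  congr 2
  funext l
  rw [la, la]
  split_ifs
  · rfl
  · rw [map_zero]

lemma chg_map (T₀ : R →+ ℤ) (f : A →+ B) (q : ℕ) {n N : ℕ} (c : (Fin N → G) → A)
    (F : Fin n → Matrix d d (MonoidAlgebra R G)) :
    f (chg (TT T₀ A) g t q c fun p => cm (F p)) =
      chg (TT T₀ B) g t q (fun v => f (c v)) fun p => cm (F p) := by
  classical
  rw [chg, chg, AddMonoidHom.map_finsum]
  · refine finsum_congr fun w => ?_
    split_ifs
    · rw [TT_apply, TT_apply, map_zsmul, cvt_map]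
    · rw [map_zero]
  · have h1 : (⋃ p, su (F p)).Finite := Set.finite_iUnion fun p => su_fin (F p)
    refine (Set.Finite.pi' fun _ : Fin q => Set.Finite.pi' fun _ : Fin n => h1).subset fun w hw => ?_
    intro b p
    by_contra hcon
    apply hw
    have e1 : cm (F p) (w b p) = 0 := cm_su (F p) fun h => hcon (Set.mem_iUnion.2 ⟨p, h⟩)
    have e4 : (List.ofFn fun b => (List.ofFn fun p => cm (F p) (w b p)).prod).prod = 0 := by
      apply List.prod_eq_zero
      rw [List.mem_ofFn]
      refine ⟨b, ?_⟩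
      apply List.prod_eq_zero
      rw [List.mem_ofFn]
      exact ⟨p, e1⟩
    simp only [e4, Matrix.trace_zero, map_zero, AddMonoidHom.zero_apply, ite_self]

end functor

section final

variable {G : Type} [Group G] {R : Type} [Ring R] {d : Type} [Fintype d] [DecidableEq d]

open Classical in
/-- The sum over all arrays `s` of elements of `G` with `q` rows and `n` columns, whose product `y`,
row by row, is conjugate to `g`, of the numbers `T₀ (tr (∏ h_p [s_{b,p}])) · cvt c (t y) s`, where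
the product is taken row by row and `h [s]` is the matrix of the coefficients of `h` at `s`. -/
noncomputable def arrayNumberAt {A : Type*} [AddCommGroup A] (T₀ : R →+ ℤ) (g : G) (t : G → G)
    (q : ℕ) {n N : ℕ} (c : (Fin N → G) → A) (h : Fin n → GLG d R G) : A :=
  ∑ᶠ s : Fin q → Fin n → G, if IsConj (rowProd s) g then
    T₀ (rowProd fun b p => cm (h p : Matrix d d (MonoidAlgebra R G)) (s b p)).trace •
      cvt c (t (rowProd s)) s else 0

/-- The Chern number at `g` of the chain `z` of `GL_d(R[G])` and the cochain `c` on `G`: the sum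
over the sequences `v = (v₁, …, vₙ)`, with the coefficients of `z`, of the numbers of
`((v₁ ⋯ vₙ)⁻¹, v₁, …, vₙ)` and `c`, for arrays with `2 k + 1` rows. -/
noncomputable def cycleNumberAt {A : Type*} [AddCommGroup A] (T₀ : R →+ ℤ) (g : G) (t : G → G)
    (k : ℕ) {m N : ℕ} (c : (Fin N → G) → A) (z : (Fin (m + 1) → GLG d R G) →₀ ℤ) : A :=
  z.sum fun v a => a • arrayNumberAt T₀ g t (2 * k + 1) c (hh v)

lemma cna_eq {A : Type*} [AddCommGroup A] (T₀ : R →+ ℤ) (g : G) (t : G → G) (k : ℕ) {m N : ℕ}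
    (c : (Fin N → G) → A) (z : (Fin (m + 1) → GLG d R G) →₀ ℤ) :
    cycleNumberAt T₀ g t k c z = z.sum fun v a => a • chg (TT T₀ A) g t (2 * k + 1) c fun p =>
      cm ((hh v p : GLG d R G) : Matrix d d (MonoidAlgebra R G)) := rfl

lemma cna_map {A : Type*} [AddCommGroup A] {B : Type*} [AddCommGroup B] (T₀ : R →+ ℤ) (f : A →+ B)
    (g : G) (t : G → G) (k : ℕ) {m N : ℕ} (c : (Fin N → G) → A)
    (z : (Fin (m + 1) → GLG d R G) →₀ ℤ) :
    f (cycleNumberAt T₀ g t k c z) = cycleNumberAt T₀ g t k (fun v => f (c v)) z := by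
  rw [cna_eq, cna_eq, Finsupp.sum, Finsupp.sum, map_sum]
  refine Finset.sum_congr rfl fun v _ => ?_
  rw [map_zsmul, chg_map]

lemma cna_smul {A : Type*} [AddCommGroup A] (T₀ : R →+ ℤ) (g : G) (t : G → G) (k : ℕ) {m N : ℕ}
    (n : ℕ) (c : (Fin N → G) → A) (z : (Fin (m + 1) → GLG d R G) →₀ ℤ) :
    cycleNumberAt T₀ g t k (fun v => n • c v) z = n • cycleNumberAt T₀ g t k c z := by
  have h := cna_map T₀ (nsmulAddMonoidHom (α := A) n) g t k c z
  rw [nsmulAddMonoidHom_apply] at h
  rw [h]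
  rfl

/-- **Vanishing of the higher Chern numbers at `g`.** -/
theorem twisted_zero {m k : ℕ} (hk : k ≠ 0) {Q : Type} [Group Q]
    (hfin : Module.Finite ℤ (groupHomology (Tr Q) (m + 1 + 2 * k))) (q : ℕ) (hq : q.Prime)
    (hqG : ∀ y : G, orderOf y ≠ q) {g : G} (hg : IsOfFinOrder g)
    (ρ : Subgroup.centralizer {g} →* Q)
    (hρ : ∀ z : Subgroup.centralizer {g}, (z : G) = g → ρ z = 1) (r : G → Q)
    (hr : ∀ (z : Subgroup.centralizer {g}) (x : G), r (z * x) = ρ z * r x)
    {t : G → G} (ht : ∀ y, IsConj y g → t y * y * (t y)⁻¹ = g) :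
    ∃ a : ℕ, a ≠ 0 ∧ (∀ p : ℕ, p.Prime → p ∣ a → ∃ y : G, orderOf y = p) ∧
      ∀ (R : Type) [Ring R] (T₀ : R →+ ℤ), (∀ x y, T₀ (x * y) = T₀ (y * x)) →
      ∀ (d : Type) [Fintype d] [DecidableEq d] (z : (Fin (m + 1) → GLG d R G) →₀ ℤ), IsCyc z →
      ∀ (A : Type u) [AddCommGroup A] (c : (Fin (m + 1 + 2 * k + 1) → Q) → A), IsAltCocycle c →
        (a * ((2 * k + 2) * (2 * k).descFactorial k * (m + 1 + 2 * k + 2).factorial)) •
          cycleNumberAt T₀ g t k (fun v => c (r ∘ v)) z = 0 := by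
  have e0 : m + 1 + 2 * k = (m + 2 * k) + 1 := by omega
  rw [e0] at hfin ⊢
  obtain ⟨a, ha, ha2, ha3⟩ := tor_of_dvd hfin (fun p => ∃ y : G, orderOf y = p) q hq (by
    push Not
    exact hqG)
  refine ⟨a, ha, ha2, fun R _ T₀ hT d _ _ z hz A _ c hc => ?_⟩
  have h1 : a • (((2 * k + 2) * (2 * k).descFactorial k) •
      cycleNumberAt T₀ g t k (fun v => (ca (r ∘ v) : Uq Q (m + 2 * k + 1))) z) = 0 := by
    refine ha3 _ fun N hN hNQ => ?_
    refine ring_tw (TT T₀ _) (TT_comm hT) hg ht hk (pull_class ρ hρ r hr ca_coc) z hz N hN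
      fun p hp hpN y hy => ?_
    exact hNQ p hp hpN ⟨y, hy⟩
  have h2 := congrArg (ph hc) h1
  rw [map_nsmul, map_nsmul, cna_map, map_zero] at h2
  have h3 : (fun w : Fin (m + 2 * k + 1 + 1) → G => ph hc (ca (r ∘ w))) =
      fun w => (m + 2 * k + 1 + 2).factorial • c (r ∘ w) := funext fun w => ph_ca hc (r ∘ w)
  rw [h3, cna_smul, smul_smul, smul_smul] at h2
  rw [← h2]
  congr 1
  ring

end final

end Pool.Agent.W647.KG
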