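import Pool.Agent.W647.HZ1

/-!
# Alternating sums over faces of lists, and the prism operator
-/

set_option autoImplicit false
set_option linter.unusedSectionVars false

namespace Pool.Agent.W647.KN

open Finset

section dl

variable {Y : Type*} {A : Type*} [AddCommGroup A] {B : Type*} [AddCommGroup B]

/-- the alternating sum of a function over the faces of a list -/
def dl : List Y → (List Y → A) → A
  | [], _ => 0
  | a :: l, φ => φ l - dl l (fun l' => φ (a :: l'))

lemma dl_nil (φ : List Y → A) : dl [] φ = 0 := rfl

lemma dl_cons (a : Y) (l : List Y) (φ : List Y → A) :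
    dl (a :: l) φ = φ l - dl l (fun l' => φ (a :: l')) := rfl

lemma dl_map (f : A →+ B) (l : List Y) (φ : List Y → A) :
    f (dl l φ) = dl l (fun l' => f (φ l')) := by
  induction l generalizing φ with
  | nil => exact map_zero f
  | cons a l ih => rw [dl_cons, dl_cons, map_sub, ih]

lemma dl_add (l : List Y) (φ ψ : List Y → A) : dl l (fun l' => φ l' + ψ l') = dl l φ + dl l ψ := by
  induction l generalizing φ ψ with
  | nil => simp [dl_nil]
  | cons a l ih => rw [dl_cons, dl_cons, dl_cons, ih]; abel

lemma dl_zero (l : List Y) : dl l (fun _ => (0 : A)) = 0 := by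
  induction l with
  | nil => rfl
  | cons a l ih => rw [dl_cons, ih, sub_zero]

/-- as a homomorphism -/
def dh (l : List Y) : (List Y → A) →+ A where
  toFun φ := dl l φ
  map_zero' := dl_zero l
  map_add' φ ψ := dl_add l φ ψ

lemma dh_apply (l : List Y) (φ : List Y → A) : dh l φ = dl l φ := rfl

lemma dl_sub (l : List Y) (φ ψ : List Y → A) : dl l (fun l' => φ l' - ψ l') = dl l φ - dl l ψ :=
  map_sub (dh l) φ ψ

lemma dl_neg (l : List Y) (φ : List Y → A) : dl l (fun l' => - φ l') = - dl l φ :=
  map_neg (dh l) φ

lemma dl_zsmul (l : List Y) (n : ℤ) (φ : List Y → A) : dl l (fun l' => n • φ l') = n • dl l φ :=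
  map_zsmul (dh l) n φ

lemma dl_nsmul (l : List Y) (n : ℕ) (φ : List Y → A) : dl l (fun l' => n • φ l') = n • dl l φ :=
  map_nsmul (dh l) n φ

lemma dl_sum {ι : Type*} (s : Finset ι) (l : List Y) (φ : ι → List Y → A) :
    dl l (fun l' => ∑ i ∈ s, φ i l') = ∑ i ∈ s, dl l (φ i) := by
  have h := map_sum (dh l) φ s
  rw [dh_apply] at h
  rw [← Finset.sum_congr rfl fun i _ => dh_apply l (φ i), ← h]
  congr 1
  funext l'
  rw [Finset.sum_apply]

lemma dl_congr (l : List Y) (φ ψ : List Y → A)
    (h : ∀ l', l'.Sublist l → l'.length + 1 = l.length → φ l' = ψ l') : dl l φ = dl l ψ := by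
  induction l generalizing φ ψ with
  | nil => rfl
  | cons a l ih =>
    rw [dl_cons, dl_cons, h l (List.sublist_cons_self a l) rfl,
      ih (fun l' => φ (a :: l')) (fun l' => ψ (a :: l'))]
    intro l' h1 h2
    exact h (a :: l') (h1.cons_cons a) (by rw [List.length_cons, h2, List.length_cons])

lemma dl_dl (l : List Y) (φ : List Y → A) : dl l (fun l' => dl l' φ) = 0 := by
  induction l generalizing φ with
  | nil => rfl
  | cons a l ih =>
    rw [dl_cons]
    have h1 : (fun l' => dl (a :: l') φ) = fun l' => φ l' - dl l' (fun l'' => φ (a :: l'')) := rfl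
    rw [h1, dl_sub, ih]
    abel

lemma dl_swap {Z : Type*} (P : List Z) (l : List Y) (F : List Z → List Y → A) :
    dl P (fun P' => dl l (F P')) = dl l (fun l' => dl P (fun P' => F P' l')) := by
  have h := dl_map (dh l) P F
  have h2 : ∀ P' : List Z, dh l (F P') = dl l (F P') := fun _ => rfl
  simp only [h2] at h
  rw [← h, dh_apply]
  congr 1
  funext l'
  exact dl_map (Pi.evalAddMonoidHom (fun _ : List Y => A) l') P F

lemma dl_list_map {Z : Type*} (f : Y → Z) (l : List Y) (φ : List Z → A) :
    dl (l.map f) φ = dl l (fun l' => φ (l'.map f)) := by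
  induction l generalizing φ with
  | nil => rfl
  | cons a l ih => rw [List.map_cons, dl_cons, dl_cons, ih]; rfl

lemma dl_mem (K : AddSubgroup A) (l : List Y) (φ : List Y → A) (h : ∀ l', φ l' ∈ K) :
    dl l φ ∈ K := by
  induction l generalizing φ with
  | nil => exact K.zero_mem
  | cons a l ih => exact K.sub_mem (h l) (ih _ fun l' => h _)

lemma dl_eq_sum (l : List Y) (φ : List Y → A) :
    dl l φ = ∑ i ∈ range l.length, (-1 : ℤ) ^ i • φ (l.eraseIdx i) := by
  induction l generalizing φ with
  | nil => simp [dl_nil]
  | cons a l ih =>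
    rw [dl_cons, ih, List.length_cons, Finset.sum_range_succ', sub_eq_add_neg, add_comm,
      ← Finset.sum_neg_distrib]
    congr 1
    · refine Finset.sum_congr rfl fun i _ => ?_
      rw [List.eraseIdx_cons_succ, pow_succ, mul_neg_one, neg_smul]
    · simp

end dl

section prism

variable {G : Type*} [Group G] {A : Type*} [AddCommGroup A]

/-- the first vertex -/
def hv (P : List ℕ) (l : List (ℕ → G)) : G := l.headD 1 (P.headD 0)

/-- the prism operator -/
def J : ℕ → ℕ → (List G → A) → List ℕ → List (ℕ → G) → A
  | 0, _, _, _, _ => 0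
  | n + 1, 0, φ, _, _ => if n = 0 then φ [] else 0
  | n + 1, r + 1, φ, P, l =>
      dl l (fun l' => J (n + 1) r (fun v => φ (hv P l :: v)) P l') +
        (-1 : ℤ) ^ (r + 1) • dl P (fun P' => J n (r + 1) (fun v => φ (hv P l :: v)) P' l)

lemma J_zero (r : ℕ) (φ : List G → A) (P : List ℕ) (l : List (ℕ → G)) : J 0 r φ P l = 0 := by
  rw [J]

lemma J_succ_zero (n : ℕ) (φ : List G → A) (P : List ℕ) (l : List (ℕ → G)) :
    J (n + 1) 0 φ P l = if n = 0 then φ [] else 0 := by
  rw [J]

lemma J_succ_succ (n r : ℕ) (φ : List G → A) (P : List ℕ) (l : List (ℕ → G)) :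
    J (n + 1) (r + 1) φ P l =
      dl l (fun l' => J (n + 1) r (fun v => φ (hv P l :: v)) P l') +
        (-1 : ℤ) ^ (r + 1) • dl P (fun P' => J n (r + 1) (fun v => φ (hv P l :: v)) P' l) := by
  rw [J]

lemma J_add (n r : ℕ) (φ ψ : List G → A) (P : List ℕ) (l : List (ℕ → G)) :
    J n r (fun v => φ v + ψ v) P l = J n r φ P l + J n r ψ P l := by
  induction n generalizing r φ ψ P l with
  | zero => simp only [J_zero, add_zero]
  | succ n ihn =>
    induction r generalizing φ ψ P l with
    | zero =>
      simp only [J_succ_zero]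
      split_ifs
      · rfl
      · rw [add_zero]
    | succ r ihr =>
      rw [J_succ_succ, J_succ_succ, J_succ_succ]
      simp only [ihr, ihn, dl_add, smul_add]
      abel

lemma J_phi_zero (n r : ℕ) (P : List ℕ) (l : List (ℕ → G)) :
    J n r (fun _ : List G => (0 : A)) P l = 0 := by
  have h := J_add n r (fun _ : List G => (0 : A)) (fun _ => 0) P l
  simp only [add_zero] at h
  exact left_eq_add.1 h

lemma J_sub (n r : ℕ) (φ ψ : List G → A) (P : List ℕ) (l : List (ℕ → G)) :
    J n r (fun v => φ v - ψ v) P l = J n r φ P l - J n r ψ P l := by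
  have h := J_add n r (fun v => φ v - ψ v) ψ P l
  simp only [sub_add_cancel] at h
  rw [h, add_sub_cancel_right]

/-- **The boundary formula of the prism operator** -/
lemma J_star (n r : ℕ) (φ : List G → A) (P : List ℕ) (l : List (ℕ → G)) (hP : P.length = n)
    (hl : l.length = r) : J n r (fun v => dl v φ) P l =
      dl l (fun l' => J n (r - 1) φ P l') +
        (-1 : ℤ) ^ r • dl P (fun P' => J (n - 1) r φ P' l) := by
  induction n generalizing r φ P l with
  | zero =>
    have hP' : P = [] := List.eq_nil_of_length_eq_zero hP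
    subst hP'
    simp only [J_zero, dl_nil, smul_zero, add_zero]
    rw [dl_zero]
  | succ n ihn =>
    induction r generalizing φ l with
    | zero =>
      have hl' : l = [] := List.eq_nil_of_length_eq_zero hl
      subst hl'
      rw [J_succ_zero, dl_nil, dl_nil, ite_self, pow_zero, one_smul, zero_add]
      show 0 = dl P (fun P' => J n 0 φ P' [])
      cases n with
      | zero => simp only [J_zero]; rw [dl_zero]
      | succ n =>
        simp only [J_succ_zero]
        by_cases hn : n = 0
        · subst hn
          match P, hP with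
          | [p, q], _ => simp [dl_cons, dl_nil]
        · simp only [if_neg hn]
          rw [dl_zero]
    | succ r ihr =>
      set h := hv P l with hh
      set ψ : List G → A := fun v => φ (h :: v) with hψ
      have e1 : (fun v : List G => dl (h :: v) φ) = fun v => φ v - dl v ψ := by
        funext v
        rw [dl_cons]
      rw [J_succ_succ, ← hh, e1]
      simp only [J_sub, dl_sub, smul_sub]
      have e2 : dl l (fun l' => J (n + 1) r (fun v => dl v ψ) P l') =
          (-1 : ℤ) ^ r • dl l (fun l' => dl P (fun P' => J n r ψ P' l')) := by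
        rw [dl_congr l _ (fun l' => dl l' (fun l'' => J (n + 1) (r - 1) ψ P l'') +
          (-1 : ℤ) ^ r • dl P (fun P' => J n r ψ P' l'))]
        · rw [dl_add, dl_dl, dl_zsmul, zero_add]
        · intro l' _ hl'
          exact ihr ψ l' (by omega)
      have e3 : dl P (fun P' => J n (r + 1) (fun v => dl v ψ) P' l) =
          dl P (fun P' => dl l (fun l' => J n r ψ P' l')) := by
        rw [dl_congr P _ (fun P' => dl l (fun l' => J n r ψ P' l') +
          (-1 : ℤ) ^ (r + 1) • dl P' (fun P'' => J (n - 1) (r + 1) ψ P'' l))]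
        · rw [dl_add, dl_zsmul, dl_dl, smul_zero, add_zero]
        · intro P' _ hP'
          exact ihn (r + 1) ψ P' l (by omega) hl
      have e4 : (-1 : ℤ) ^ (r + 1) = -((-1) ^ r) := by rw [pow_succ, mul_neg_one]
      rw [e2, e3, dl_swap, e4]
      simp only [neg_smul, Nat.add_sub_cancel]
      abel

lemma J_mem (K : AddSubgroup A) (n r : ℕ) (φ : List G → A) (hφ : ∀ v, φ v ∈ K) (P : List ℕ)
    (l : List (ℕ → G)) : J n r φ P l ∈ K := by
  induction n generalizing r φ P l with
  | zero => rw [J_zero]; exact K.zero_mem
  | succ n ihn =>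
    induction r generalizing φ P l with
    | zero =>
      rw [J_succ_zero]
      split_ifs
      · exact hφ _
      · exact K.zero_mem
    | succ r ihr =>
      rw [J_succ_succ]
      exact K.add_mem (dl_mem K _ _ fun l' => ihr _ (fun v => hφ _) _ _)
        (K.zsmul_mem (dl_mem K _ _ fun P' => ihn _ _ (fun v => hφ _) _ _) _)

lemma J_relabel (ρ : ℕ → ℕ) (n r : ℕ) (φ : List G → A) (P : List ℕ) (l : List (ℕ → G))
    (hP : P.length = n) :
    J n r φ (P.map ρ) l = J n r φ P (l.map fun a => a ∘ ρ) := by
  induction n generalizing r φ P l with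
  | zero => rw [J_zero, J_zero]
  | succ n ihn =>
    induction r generalizing φ l with
    | zero => rw [J_succ_zero, J_succ_zero]
    | succ r ihr =>
      have h1 : hv (P.map ρ) l = hv P (l.map fun a => a ∘ ρ) := by
        obtain ⟨p, P, rfl⟩ := List.exists_cons_of_length_eq_add_one hP
        cases l with
        | nil => rfl
        | cons a l => rfl
      rw [J_succ_succ, J_succ_succ, h1, dl_list_map, dl_list_map]
      congr 1
      · exact dl_congr _ _ _ fun l' _ _ => ihr _ _
      · congr 1
        exact dl_congr _ _ _ fun P' _ hP' => ihn _ _ _ _ (by omega)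

lemma J_trans (z : G) (n r : ℕ) (φ : List G → A) (P : List ℕ) (l : List (ℕ → G))
    (hl : l.length = r) :
    J n r φ P (l.map fun a => (fun _ => z) * a) = J n r (fun v => φ (v.map fun a => z * a)) P l := by
  induction n generalizing r φ P l with
  | zero => rw [J_zero, J_zero]
  | succ n ihn =>
    induction r generalizing φ l with
    | zero => rw [J_succ_zero, J_succ_zero]; rfl
    | succ r ihr =>
      have h1 : hv P (l.map fun a => (fun _ => z) * a) = z * hv P l := by
        obtain ⟨a, l, rfl⟩ := List.exists_cons_of_length_eq_add_one hl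
        rfl
      rw [J_succ_succ, J_succ_succ, h1, dl_list_map]
      congr 1
      · exact dl_congr _ _ _ fun l' _ h' => ihr _ _ (by omega)
      · congr 1
        exact dl_congr _ _ _ fun P' _ _ => ihn _ _ _ _ hl

lemma J_fix (f : (ℕ → G) → (ℕ → G)) (n r : ℕ) (φ : List G → A) (P : List ℕ) (l : List (ℕ → G))
    (hP : P.length = n) (hl : l.length = r) (hf : ∀ a, ∀ p ∈ P, f a p = a p) :
    J n r φ P (l.map f) = J n r φ P l := by
  induction n generalizing r φ P l with
  | zero => rw [J_zero, J_zero]
  | succ n ihn =>
    induction r generalizing φ l with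
    | zero => rw [J_succ_zero, J_succ_zero]
    | succ r ihr =>
      have h1 : hv P (l.map f) = hv P l := by
        obtain ⟨a, l, rfl⟩ := List.exists_cons_of_length_eq_add_one hl
        obtain ⟨p, P, rfl⟩ := List.exists_cons_of_length_eq_add_one hP
        exact hf a p (List.mem_cons_self)
      rw [J_succ_succ, J_succ_succ, h1, dl_list_map]
      congr 1
      · exact dl_congr _ _ _ fun l' _ h' => ihr _ _ (by omega)
      · congr 1
        exact dl_congr _ _ _ fun P' hs h' => ihn _ _ _ _ (by omega) hl
          fun a p hp => hf a p (hs.subset hp)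

end prism

end Pool.Agent.W647.KN
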