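import Pool.Agent.W647.KN9

/-!
# Sums over arrays
-/

set_option autoImplicit false
set_option linter.unusedSectionVars false

namespace Pool.Agent.W647.KN

open Finset Pool.Agent.W647.HV1 Pool.Agent.W647.HW1 Pool.Agent.W647.HZ1

section words

variable {G : Type*} [Group G] {A : Type*} [Ring A] (σ : ℕ → ℕ → MonoidAlgebra A G) (S : Finset G)

/-- weights -/
noncomputable def bwl : ℕ → List ℕ → List S → A
  | _, [], _ => 1
  | _, _ :: _, [] => 1
  | i, p :: P, s :: l => (σ i p).coeff (s : G) * bwl p P l

/-- vertices -/
def bul : List ℕ → List S → ℕ → G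
  | [], _ => fun _ => 1
  | _ :: _, [] => fun _ => 1
  | p :: P, s :: l => Function.update ((fun _ => (s : G)) * bul P l) p (s : G)

lemma bwl_nil (i : ℕ) (l : List S) : bwl σ S i [] l = 1 := by rw [bwl]

lemma bwl_cons (i p : ℕ) (P : List ℕ) (s : S) (l : List S) :
    bwl σ S i (p :: P) (s :: l) = (σ i p).coeff (s : G) * bwl σ S p P l := by rw [bwl]

lemma bul_nil (l : List S) : bul S [] l = fun _ => 1 := by rw [bul]

lemma bul_cons (p : ℕ) (P : List ℕ) (s : S) (l : List S) :
    bul S (p :: P) (s :: l) = Function.update ((fun _ => (s : G)) * bul S P l) p (s : G) := by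
  rw [bul]

variable {X : Type*} [AddCommGroup X] [Module A X]

lemma PS_words (hS : ∀ i j, (σ i j).coeff.support ⊆ S) (i : ℕ) (P : List ℕ)
    (Ψ : (ℕ → G) → G → X) (h : G) : PS σ i P Ψ h =
      ∑ w : Fin P.length → S, bwl σ S i P (List.ofFn w) •
        Ψ ((fun _ => h) * bul S P (List.ofFn w))
          (h * ((List.ofFn w).map fun s : S => (s : G)).prod) := by
  induction P generalizing i Ψ h with
  | nil =>
    rw [PS_nil]
    simp [bwl_nil, bul_nil]
    congr 1
    funext p
    simp
  | cons p P ih =>
    rw [PS_cons, Ep_apply _ _ _ S (hS i p), ← Finset.sum_coe_sort S, List.length_cons,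
      sum_words_succ P.length (fun l => bwl σ S i (p :: P) l •
        Ψ ((fun _ => h) * bul S (p :: P) l) (h * (l.map fun s : S => (s : G)).prod))]
    refine Finset.sum_congr rfl fun s _ => ?_
    rw [ih, Finset.smul_sum]
    refine Finset.sum_congr rfl fun w _ => ?_
    have h2 : ((fun _ => h * (s : G) : ℕ → G)) * bul S P (List.ofFn w) =
        (fun _ => h) * ((fun _ => (s : G)) * bul S P (List.ofFn w)) := by
      funext q
      exact mul_assoc _ _ _
    rw [bwl_cons, bul_cons, List.map_cons, List.prod_cons, mul_smul, ← upd_trans, ← mul_assoc h, h2]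

/-- the predecessor -/
def prv (i a j : ℕ) : ℕ := if j = 0 then i else a + j - 1

lemma bwl_range (i a n : ℕ) (w : Fin n → S) : bwl σ S i (List.range' a n) (List.ofFn w) =
    (List.ofFn fun j : Fin n => (σ (prv i a j) (a + j)).coeff (w j : G)).prod := by
  induction n generalizing i a with
  | zero => rw [List.range'_zero, bwl_nil]; simp
  | succ n ih =>
    rw [List.range'_succ, List.ofFn_succ, bwl_cons, ih, List.ofFn_succ, List.prod_cons]
    congr 1
    congr 2
    funext j
    have e1 : prv a (a + 1) (j : ℕ) = prv i a ((j.succ : Fin (n + 1)) : ℕ) := by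
      rw [Fin.val_succ, prv, prv, if_neg (Nat.succ_ne_zero _)]
      split_ifs with h
      · rw [h]; rfl
      · omega
    have e2 : a + 1 + (j : ℕ) = a + (j.succ : ℕ) := by rw [Fin.val_succ]; omega
    rw [e1, e2]

lemma bul_range (a n : ℕ) (l : List S) (hl : l.length = n) (j : ℕ) (hj : j < n) :
    bul S (List.range' a n) l (a + j) = ((l.map fun s : S => (s : G)).take (j + 1)).prod := by
  induction n generalizing a l j with
  | zero => omega
  | succ n ih =>
    cases l with
    | nil => simp at hl
    | cons s l =>
      rw [List.range'_succ, bul_cons, List.map_cons, List.take_succ_cons, List.prod_cons]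
      cases j with
      | zero => rw [add_zero, Function.update_self]; simp
      | succ j =>
        rw [Function.update_of_ne (by omega)]
        have e1 : a + (j + 1) = a + 1 + j := by omega
        rw [e1, Pi.mul_apply, ih (a + 1) l (by simpa using hl) j (by omega)]

end words

section vl

variable {G : Type*} [Group G] {S : Type*} (dg : S → G) (uu : S → ℕ → G)

lemma vl_ofFn (N : ℕ) (w : Fin N → S) (h : G) : vl dg uu h (List.ofFn w) =
    List.ofFn fun b : Fin N =>
      (fun _ => h * ((List.ofFn fun b' => dg (w b')).take b).prod) * uu (w b) := by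
  induction N generalizing h with
  | zero => simp [vl_nil]
  | succ N ih =>
    rw [List.ofFn_succ, vl_cons, ih, List.ofFn_succ]
    congr 1
    · simp
    · congr 1
      funext b
      congr 1
      funext _
      rw [Fin.val_succ, List.ofFn_succ, List.take_succ_cons, List.prod_cons, mul_assoc]

end vl

section arrays

variable {G : Type*} [Group G]

/-- The entry in the row `b` and the column `p` of the array of the partial products of the
elements `s b p` of `G`, which are multiplied row by row: the product of the elements of `s` from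
the first one up to `s b p`. -/
def vtx {q n : ℕ} (s : Fin q → Fin n → G) (b : Fin q) (p : ℕ) : G :=
  ((List.ofFn fun b' => (List.ofFn (s b')).prod).take b).prod * ((List.ofFn (s b)).take (p + 1)).prod

variable {A : Type*} [Ring A]

/-- the sum over closed arrays -/
noncomputable def arr {q n : ℕ} (f : Fin n → G → A) (Θ : (Fin q → ℕ → G) → A)
    (s : Fin q → Fin n → G) : A :=
  (List.ofFn fun b => (List.ofFn fun p => f p (s b p)).prod).prod * Θ (vtx s)

open Classical in
lemma CE_arr (σ : ℕ → ℕ → MonoidAlgebra A G) (S : Finset G)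
    (hS : ∀ i j, (σ i j).coeff.support ⊆ S) (n q : ℕ) (Θ : List (ℕ → G) → A)
    (hΘ : DepL (List.range (n + 1)) Θ) : CE σ (List.range (n + 1)) q Θ =
      ∑ w : Fin q → Fin (n + 1) → S,
        if (List.ofFn fun b => (List.ofFn fun p => (w b p : G)).prod).prod = 1 then
          arr (fun p => (σ (prv n 0 p) p).coeff) (fun a => Θ (List.ofFn a))
            (fun b p => (w b p : G)) else 0 := by
  classical
  have hlen : (List.range (n + 1)).length = n + 1 := List.length_range
  have hlast : (List.range (n + 1)).getLastD 0 = n := by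
    rw [List.range_succ, List.getLastD_concat]
  have h1 : ∀ (Ψ : (ℕ → G) → G → A) (h : G), PS σ n (List.range (n + 1)) Ψ h =
      ∑ w : Fin (n + 1) → S, bwl σ S n (List.range (n + 1)) (List.ofFn w) •
        Ψ ((fun _ => h) * bul S (List.range (n + 1)) (List.ofFn w))
          (h * ((List.ofFn w).map fun s : S => (s : G)).prod) := by
    intro Ψ h
    have h2 := PS_words σ S hS n (List.range (n + 1)) Ψ h
    rw [hlen] at h2
    exact h2
  rw [CE, words_sum (fun w : Fin (n + 1) → S => ((List.ofFn w).map fun s : S => (s : G)).prod)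
    (fun w => bwl σ S n (List.range (n + 1)) (List.ofFn w))
    (fun w => bul S (List.range (n + 1)) (List.ofFn w))
    (PS σ ((List.range (n + 1)).getLastD 0) (List.range (n + 1)))
    (fun Ψ h => by rw [hlast]; exact h1 Ψ h) (WS σ (List.range (n + 1)))
    (fun Ψ h => WS_zero σ _ Ψ h) (fun N Ψ h => WS_succ σ _ N Ψ h) q]
  refine Finset.sum_congr rfl fun w _ => ?_
  have e1 : (List.ofFn w).map (fun w : Fin (n + 1) → S =>
      ((List.ofFn w).map fun s : S => (s : G)).prod) =
      List.ofFn fun b => (List.ofFn fun p => (w b p : G)).prod := by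
    rw [List.map_ofFn]
    congr 1
    funext b
    rw [Function.comp_apply, List.map_ofFn]
    rfl
  rw [cl, one_mul, e1, smul_eq_mul]
  by_cases hc : (List.ofFn fun b => (List.ofFn fun p => (w b p : G)).prod).prod = 1
  · rw [if_pos hc, if_pos hc, arr, vl_ofFn]
    congr 1
    · rw [co, List.map_ofFn]
      congr 2
      funext b
      rw [Function.comp_apply, List.range_eq_range', bwl_range]
      congr 2
      funext j
      rw [zero_add]
    · apply hΘ
      rw [List.forall₂_iff_get]
      refine ⟨by rw [List.length_ofFn, List.length_ofFn], fun i h2 h3 p hp => ?_⟩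
      rw [List.mem_range] at hp
      simp only [List.get_eq_getElem, List.getElem_ofFn]
      rw [Pi.mul_apply, vtx, one_mul]
      congr 1
      · congr 3
        funext b'
        rw [List.map_ofFn]
        rfl
      · have h4 := bul_range S 0 (n + 1) (List.ofFn (w ⟨i, by rw [List.length_ofFn] at h2; exact h2⟩))
          (List.length_ofFn) p hp
        rw [zero_add, ← List.range_eq_range'] at h4
        rw [h4, List.map_ofFn]
        rfl
  · rw [if_neg hc, if_neg hc, mul_zero]

/-- finite sums over arrays -/
lemma arr_finsum {M : Type*} [AddCommGroup M] (S : Finset G) (q n : ℕ)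
    (F : (Fin q → Fin n → G) → M) (hF : ∀ s, (∃ b p, s b p ∉ S) → F s = 0) :
    ∑ w : Fin q → Fin n → S, F (fun b p => (w b p : G)) = ∑ᶠ s, F s := by
  classical
  have h1 : ∑ᶠ s, F s = ∑ s ∈ Fintype.piFinset fun _ : Fin q => Fintype.piFinset fun _ : Fin n => S,
      F s := by
    apply finsum_eq_sum_of_support_subset
    intro w hw
    rw [Function.mem_support] at hw
    rw [Finset.mem_coe, Fintype.mem_piFinset]
    intro b
    rw [Fintype.mem_piFinset]
    intro p
    by_contra hcon
    exact hw (hF w ⟨b, p, hcon⟩)
  rw [h1]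
  refine Finset.sum_bij (fun w _ => fun b p => ((w b p : S) : G)) ?_ ?_ ?_ ?_
  · intro w _
    rw [Fintype.mem_piFinset]
    intro b
    rw [Fintype.mem_piFinset]
    exact fun p => (w b p).2
  · intro w _ w' _ h
    funext b p
    exact Subtype.ext (congrFun (congrFun h b) p)
  · intro w hw
    rw [Fintype.mem_piFinset] at hw
    exact ⟨fun b p => ⟨w b p, Fintype.mem_piFinset.1 (hw b) p⟩, mem_univ _, rfl⟩
  · intro w _
    rfl

end arrays

end Pool.Agent.W647.KN
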