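import Pool.Agent.W647.KN10

/-!
# Chern numbers of cycles of invertible matrices over graded rings
-/

set_option autoImplicit false
set_option linter.unusedSectionVars false

namespace Pool.Agent.W647.KN

open Finset Pool.Agent.W647.HV1 Pool.Agent.W647.HW1 Pool.Agent.W647.HX1 Pool.Agent.W647.HZ1

section defs

variable {G : Type*} [Group G] {A : Type*} [AddCommGroup A]

/-- the cochain `c` on lists of elements of `G` (`0` on the lists of a wrong length) -/
def la {N : ℕ} (c : (Fin N → G) → A) (l : List G) : A :=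
  if l.length = N then c (fun i => l.getD i 1) else 0

/-- The value of the cochain `c` of `G` on the array of the partial products of the elements
`s b p`: the alternating sum over all permutations of the rows of the signed sums over the lattice
paths. -/
def cv {q n N : ℕ} (c : (Fin N → G) → A) (s : Fin q → Fin n → G) : A :=
  ∑ τ : Equiv.Perm (Fin q), ((Equiv.Perm.sign τ : ℤˣ) : ℤ) •
    sh (List.ofFn fun b => vtx s (τ b)) (List.range n) (la c)

variable {R : Type*} [Ring R] {M : Type*} [AddCommGroup M] {d : Type*} [Fintype d] [DecidableEq d]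

open Classical in
/-- The sum over all arrays `s` with `q` rows and `n` columns of elements of `G` whose product, row
by row, is `1`, of the trace of the product, row by row, of the matrices `f p (s b p)`, paired with
the value of `c` on the array of the partial products. -/
noncomputable def chn (T : R →+ A →+ M) (q : ℕ) {n N : ℕ} (c : (Fin N → G) → A)
    (f : Fin n → G → Matrix d d R) : M :=
  ∑ᶠ s : Fin q → Fin n → G, if (List.ofFn fun b => (List.ofFn (s b)).prod).prod = 1 then
    T (List.ofFn fun b => (List.ofFn fun p => f p (s b p)).prod).prod.trace (cv c s) else 0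

/-- The sequence `(g₁ ⋯ gₙ)⁻¹, g₁, …, gₙ`. -/
def hh {Γ : Type*} [Group Γ] {m : ℕ} (g : Fin m → Γ) : Fin (m + 1) → Γ :=
  Fin.cons ((List.ofFn g).prod)⁻¹ g

end defs

section basic

variable {G : Type*} [Group G] {A : Type*} [Ring A]

lemma dl_D (l : List G) (φ : List G → A) : dl l φ = D l φ := by
  induction l generalizing φ with
  | nil => rfl
  | cons a l ih => rw [dl_cons, D_cons, ih]

lemma lc_left {n : ℕ} {c : (Fin (n + 1) → G) → A} (hc : IsClassCocycle 1 c) (z : G) (l : List G) :
    lc c (l.map fun a => z * a) = lc c l := by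
  rw [lc, lc, List.length_map]
  split_ifs with hl
  · rw [vec_map (n + 1) l hl]
    exact hc.left z (by simp) _
  · rfl

end basic

section rhoE

variable {G : Type*} [Group G] {R : Type*} [Ring R] {d : Type*} [Fintype d] [DecidableEq d]

lemma rho_bij : Function.Bijective (rho : MonoidAlgebra (Matrix d d R) G →+ _) := by
  classical
  refine ⟨rho_inj, fun e => ?_⟩
  refine ⟨_, rho_el e (Finset.univ.biUnion fun i => Finset.univ.biUnion fun j =>
    (e i j).coeff.support) fun i j => ?_⟩
  exact Finset.Subset.trans (Finset.subset_biUnion_of_mem (fun j => (e i j).coeff.support)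
    (Finset.mem_univ j)) (Finset.subset_biUnion_of_mem (fun i => Finset.univ.biUnion fun j =>
    (e i j).coeff.support) (Finset.mem_univ i))

/-- the multiplicative equivalence -/
noncomputable def rhoE : MonoidAlgebra (Matrix d d R) G ≃* Matrix d d (MonoidAlgebra R G) :=
  { Equiv.ofBijective _ rho_bij with map_mul' := rho_mul }

lemma rhoE_apply (X : MonoidAlgebra (Matrix d d R) G) : rhoE X = rho X := rfl

lemma rhoE_symm_coeff (e : Matrix d d (MonoidAlgebra R G)) (s : G) :
    (rhoE.symm e).coeff s = cm e s := by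
  have h1 : rho (rhoE.symm e) = e := rhoE.apply_symm_apply e
  ext i j
  rw [← rho_coeff, h1]
  rfl

end rhoE

section main

variable {G : Type*} [Group G] [DecidableEq G] {S : Type} [Ring S] (𝒮 : G → AddSubgroup S)
  [DirectSum.Decomposition 𝒮] {d : Type} [Fintype d] [DecidableEq d]
  {A : Type*} [AddCommGroup A] {M : Type*} [AddCommGroup M]
  (h1 : (1 : S) ∈ 𝒮 1) (hmul : ∀ g h : G, ∀ x ∈ 𝒮 g, ∀ y ∈ 𝒮 h, x * y ∈ 𝒮 (g * h))

variable (A) in
/-- the coaction on invertible matrices -/
noncomputable def thG : (Matrix d d S)ˣ →* MonoidAlgebra (Matrix d d (E S A)) G :=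
  ((rhoE : MonoidAlgebra (Matrix d d (E S A)) G ≃* _).symm.toMonoidHom).comp
    ((((MonoidAlgebra.mapRingHom G (ι S A)).mapMatrix).comp
      ((coaR 𝒮 h1 hmul).mapMatrix)).toMonoidHom.comp (Units.coeHom (Matrix d d S)))

lemma thG_coeff (u : (Matrix d d S)ˣ) (s : G) :
    (thG 𝒮 A h1 hmul u).coeff s = (ι S A).mapMatrix (gc 𝒮 (u : Matrix d d S) s) := by
  have h2 : thG 𝒮 A h1 hmul u = rhoE.symm (em A ((coaR 𝒮 h1 hmul).mapMatrix (u : Matrix d d S))) :=
    rfl
  rw [h2, rhoE_symm_coeff, cm_em, cm_coa]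

lemma ι_inj : Function.Injective (ι S A) := fun x y h => by
  have h2 := congrArg TrivSqZeroExt.fst h
  exact h2

/-- the constant matrices -/
def ff (d : Type) [DecidableEq d] (S : Type) [Ring S] (A : Type*) [AddCommGroup A] :
    A →+ Matrix d d (E S A) where
  toFun a := Matrix.diagonal fun _ => κ S A a
  map_zero' := by rw [map_zero]; exact Matrix.diagonal_zero
  map_add' a b := by rw [map_add, Matrix.diagonal_add]

lemma lc_ff {N : ℕ} (c : (Fin (N + 1) → G) → A) (l : List G) :
    lc (cmat d fun v => κ S A (c v)) l = ff d S A (la c l) := by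
  rw [lc, la]
  split_ifs
  · rfl
  · rw [map_zero]

lemma T_ff (T : S →+ A →+ M) (X : Matrix d d S) (a : A) :
    mT d (tE T) ((ι S A).mapMatrix X * ff d S A a) = T X.trace a := by
  show mT d (tE T) ((ι S A).mapMatrix X * Matrix.diagonal fun _ => κ S A a) = _
  rw [mT_diag]
  have h2 : ((ι S A).mapMatrix X).trace = ι S A X.trace :=
    (AddMonoidHom.map_trace (ι S A).toAddMonoidHom _).symm
  rw [h2, tE_κ]

/-- the explicit cochain -/
noncomputable def Th (k n : ℕ) {N : ℕ} (c : (Fin N → G) → A) (l : List (ℕ → G)) : A :=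
  (((2 * k + 2 : ℕ) : ℤ) * ((Equiv.Perm.sign (Fin.revPerm : Equiv.Perm (Fin (2 * k + 1))) : ℤˣ) :
    ℤ)) • ∑ τ : Equiv.Perm (Fin (2 * k + 1)), ((Equiv.Perm.sign τ : ℤˣ) : ℤ) •
      sh (List.ofFn (vec (2 * k + 1) l ∘ τ)) (List.range n) (la c)

lemma Th_dep (k n : ℕ) {N : ℕ} (c : (Fin N → G) → A) : DepL (List.range n) (Th k n c) := by
  intro l l' hl
  rw [Th, Th]
  congr 1
  refine Finset.sum_congr rfl fun τ _ => ?_
  congr 1
  apply sh_dep
  rw [List.forall₂_iff_get]
  refine ⟨by rw [List.length_ofFn, List.length_ofFn], fun i h2 h3 p hp => ?_⟩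
  simp only [List.get_eq_getElem, List.getElem_ofFn, Function.comp_apply, vec]
  have key : ∀ (l l' : List (ℕ → G)), List.Forall₂ (fun a a' => ∀ p ∈ List.range n, a p = a' p) l
      l' → ∀ j, l.getD j 1 p = l'.getD j 1 p := by
    intro l l' hl
    induction hl with
    | nil => intro j; rfl
    | cons hab _ ih =>
      intro j
      cases j with
      | zero => exact hab p hp
      | succ j => exact ih j
  exact key l l' hl _

lemma Ph_Th (k n : ℕ) {N : ℕ} {c : (Fin (N + 1) → G) → A} (hc : IsAltCocycle c)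
    (l : List (ℕ → G)) (hl : l.length = 2 * k + 1) :
    Ph k (lc (cmat d fun v => κ S A (c v))) (List.range n) l.reverse = ff d S A (Th k n c l) := by
  have hcl := cmat_class (d := d) (κ_class (R := S) hc)
  have hrep := (lc_VS hcl.perm hcl.rep).2.1
  have e1 : Ph k (lc (cmat d fun v => κ S A (c v))) (List.range n) l.reverse = (2 * k + 2) •
      Al (2 * k + 1) (J (List.range n).length (2 * k + 1) (lc (cmat d fun v => κ S A (c v)))
        (List.range n)) l.reverse := rfl
  rw [e1, Al_rev _ _ _ hl, Al_apply _ _ _ hl, Th, ← natCast_zsmul, smul_smul, map_zsmul, map_sum]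
  congr 1
  refine Finset.sum_congr rfl fun τ _ => ?_
  rw [map_zsmul, sh_map]
  congr 1
  have e2 : (fun v => ff d S A (la c v)) = lc (cmat d fun v => κ S A (c v)) := by
    funext v
    exact (lc_ff c v).symm
  rw [e2, ← J_eq_sh _ (by
    intro h
    have h2 := congrArg List.length h
    rw [List.length_ofFn, List.length_nil] at h2
    omega) _ _ hrep, List.length_ofFn]

lemma prv_hh {Γ : Type*} [Group Γ] {m : ℕ} (g : Fin m → Γ) (p : Fin (m + 1)) :
    (cw (Fin.partialProd g) (prv m 0 p))⁻¹ * cw (Fin.partialProd g) p = hh g p := by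
  refine Fin.cases ?_ (fun p => ?_) p
  · rw [prv, if_pos (Fin.val_zero (m + 1)), cw, cw, hh, Fin.cons_zero]
    have e1 : (⟨min ((0 : Fin (m + 1)) : ℕ) m, by omega⟩ : Fin (m + 1)) = 0 := by
      apply Fin.ext
      simp
    rw [e1, Fin.partialProd_zero, mul_one, Fin.partialProd]
    congr 2
    rw [List.take_of_length_le]
    rw [List.length_ofFn]
    simp
  · rw [prv, if_neg (by rw [Fin.val_succ]; exact Nat.succ_ne_zero _), cw, cw, hh, Fin.cons_succ,
      ← Fin.partialProd_right_inv g p]
    congr 2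
    · congr 1
      apply Fin.ext
      simp only [Fin.val_succ, Fin.val_castSucc]
      omega
    · apply Fin.ext
      simp only [Fin.val_succ]
      omega

lemma ph0_sum {Γ : Type} [Group Γ] {m : ℕ} (F : (Fin (m + 1) → Γ) → M) (z : (Fin m → Γ) →₀ ℤ) :
    ph0 F z = z.sum fun g a => a • F (Fin.partialProd g) := rfl

lemma VV_eq (T : S →+ A →+ M) (k : ℕ) {m N : ℕ} {c : (Fin (N + 1) → G) → A}
    (hc : IsAltCocycle c) (g : Fin m → (Matrix d d S)ˣ) :
    VV (thG 𝒮 A h1 hmul) (mT d (tE T)) k (lc (cmat d fun v => κ S A (c v))) (Fin.partialProd g) =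
      (((2 * k + 2 : ℕ) : ℤ) * ((Equiv.Perm.sign (Fin.revPerm : Equiv.Perm (Fin (2 * k + 1))) :
        ℤˣ) : ℤ)) • chn T (2 * k + 1) c (fun p => gc 𝒮 ((hh g p : (Matrix d d S)ˣ) : Matrix d d S)) := by
  classical
  obtain ⟨U, hU⟩ := sw_supp (thG 𝒮 A h1 hmul) (Fin.partialProd g)
  rw [VV, Vx, CE_congr _ _ _ _ (fun l => ff d S A (Th k (m + 1) c l))
    (fun l hl => Ph_Th k (m + 1) hc l hl),
    CE_arr _ U hU m (2 * k + 1) _ (fun l l' hl => by rw [Th_dep k (m + 1) c l l' hl]), map_sum, chn,
    ← arr_finsum U (2 * k + 1) (m + 1), Finset.smul_sum]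
  · refine Finset.sum_congr rfl fun w _ => ?_
    split_ifs with hc1
    · rw [arr]
      have e1 : (List.ofFn fun b => (List.ofFn fun p : Fin (m + 1) =>
          ((sw (thG 𝒮 A h1 hmul) (Fin.partialProd g) (prv m 0 p) p).coeff) (w b p : G)).prod).prod =
          (ι S A).mapMatrix (List.ofFn fun b => (List.ofFn fun p =>
            gc 𝒮 ((hh g p : (Matrix d d S)ˣ) : Matrix d d S) (w b p : G)).prod).prod := by
        rw [map_list_prod, List.map_ofFn]
        congr 2
        funext b
        rw [Function.comp_apply, map_list_prod, List.map_ofFn]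
        congr 2
        funext p
        rw [Function.comp_apply, sw, prv_hh, thG_coeff]
      rw [e1, T_ff, Th, map_zsmul, vec_ofFn]
      rfl
    · rw [map_zero, smul_zero]
  · intro s hs
    obtain ⟨b, p, hbp⟩ := hs
    have e2 : gc 𝒮 ((hh g p : (Matrix d d S)ˣ) : Matrix d d S) (s b p) = 0 := by
      have e3 : (thG 𝒮 A h1 hmul (hh g p)).coeff (s b p) = 0 := by
        rw [← prv_hh]
        exact Finsupp.notMem_support_iff.1 fun h => hbp (hU (prv m 0 p) p h)
      rw [thG_coeff] at e3
      have e5 : ∀ X : Matrix d d S, (ι S A).mapMatrix X = 0 → X = 0 := by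
        intro X hX
        apply Matrix.ext
        intro i j
        apply ι_inj (A := A)
        have e6 := congrFun (congrFun hX i) j
        rw [Matrix.zero_apply, map_zero]
        exact e6
      exact e5 _ e3
    have e4 : (List.ofFn fun b => (List.ofFn fun p => gc 𝒮 ((hh g p : (Matrix d d S)ˣ) : Matrix d d S) (s b p)).prod).prod
        = 0 := by
      apply List.prod_eq_zero
      rw [List.mem_ofFn]
      refine ⟨b, ?_⟩
      apply List.prod_eq_zero
      rw [List.mem_ofFn]
      exact ⟨p, e2⟩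
    rw [e4, Matrix.trace_zero, map_zero, AddMonoidHom.zero_apply, ite_self]

include h1 hmul in
/-- **Divisibility of the Chern numbers of cycles of invertible matrices** -/
theorem graded_higher (T : S →+ A →+ M) (hT : ∀ x y, T (x * y) = T (y * x)) {m k : ℕ}
    (hk : k ≠ 0) {N' : ℕ} {c : (Fin (N' + 1) → G) → A} (hc : IsAltCocycle c)
    (z : (Fin (m + 1) → (Matrix d d S)ˣ) →₀ ℤ) (hz : dd (Matrix d d S)ˣ m z = 0) (N : ℕ)
    (hN : N ≠ 0) (hnt : ∀ p : ℕ, p.Prime → p ∣ N → ∀ y : G, orderOf y ≠ p) :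
    ∃ y : M, ((2 * k + 2) * (2 * k).descFactorial k) • z.sum (fun g a => a •
      chn T (2 * k + 1) c (fun p => gc 𝒮 ((hh g p : (Matrix d d S)ˣ) : Matrix d d S))) = N • y := by
  have hcl := cmat_class (d := d) (κ_class (R := S) hc)
  obtain ⟨y, hy⟩ := cycle_dvd (thG 𝒮 A h1 hmul) (mT d (tE T)) (mT_comm _ (tE_comm T hT))
    (lc (cmat d fun v => κ S A (c v)))
    (fun v => by rw [dl_D]; exact D_lc hcl v)
    (fun z v => lc_left hcl z v)
    (fun v b => by
      rw [lc]
      split_ifs
      · exact cmat_cen (fun v a => κ_cen a _) _ _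
      · rw [mul_zero, zero_mul]) z hz hk N hN hnt
  set sg : ℤ := ((Equiv.Perm.sign (Fin.revPerm : Equiv.Perm (Fin (2 * k + 1))) : ℤˣ) : ℤ) with hsg
  have e1 : ph0 (VV (thG 𝒮 A h1 hmul) (mT d (tE T)) k (lc (cmat d fun v => κ S A (c v)))) z =
      sg • (2 * k + 2) • z.sum (fun g a => a •
        chn T (2 * k + 1) c (fun p => gc 𝒮 ((hh g p : (Matrix d d S)ˣ) : Matrix d d S))) := by
    rw [ph0_sum, Finsupp.sum, Finsupp.sum, Finset.smul_sum, Finset.smul_sum]
    refine Finset.sum_congr rfl fun g _ => ?_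
    rw [VV_eq _ _ _ _ _ hc, smul_smul, ← natCast_zsmul, smul_smul, smul_smul]
    congr 1
    ring
  rw [e1] at hy
  have hsg1 : sg * sg = 1 := by
    rw [hsg, ← Units.val_mul, Int.units_mul_self, Units.val_one]
  refine ⟨sg • y, ?_⟩
  rw [smul_comm N sg y, ← hy, smul_comm ((2 * k).descFactorial k) sg, smul_smul sg, hsg1, one_smul,
    smul_smul, mul_comm]

end main

end Pool.Agent.W647.KN
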