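import Pool.Agent.W647.KN11
import Pool.Agent.W647.HZ3

/-!
# Vanishing of higher Chern numbers
-/

set_option autoImplicit false
set_option linter.unusedSectionVars false

namespace Pool.Agent.W647.KN

open Finset Pool.Agent.W647.HV1 Pool.Agent.W647.HW1 Pool.Agent.W647.HX1 Pool.Agent.W647.HZ1
open CategoryTheory

section groupring

variable {G : Type} [Group G] {R : Type} [Ring R] {d : Type} [Fintype d] [DecidableEq d]
  {A : Type*} [AddCommGroup A] {M : Type*} [AddCommGroup M]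

variable (A) in
/-- invertible matrices over the group ring -/
noncomputable def thR : (Matrix d d (MonoidAlgebra R G))ˣ →* MonoidAlgebra (Matrix d d (E R A)) G :=
  ((rhoE : MonoidAlgebra (Matrix d d (E R A)) G ≃* _).symm.toMonoidHom).comp
    (((MonoidAlgebra.mapRingHom G (ι R A)).mapMatrix).toMonoidHom.comp
      (Units.coeHom (Matrix d d (MonoidAlgebra R G))))

lemma thR_coeff (u : (Matrix d d (MonoidAlgebra R G))ˣ) (s : G) :
    (thR A u).coeff s = (ι R A).mapMatrix (cm (u : Matrix d d (MonoidAlgebra R G)) s) := by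
  have h2 : thR A u = rhoE.symm (em A (u : Matrix d d (MonoidAlgebra R G))) := rfl
  rw [h2, rhoE_symm_coeff, cm_em]

lemma VV_R (T : R →+ A →+ M) (k : ℕ) {m N : ℕ} {c : (Fin (N + 1) → G) → A}
    (hc : IsAltCocycle c) (g : Fin m → (Matrix d d (MonoidAlgebra R G))ˣ) :
    VV (thR A) (mT d (tE T)) k (lc (cmat d fun v => κ R A (c v))) (Fin.partialProd g) =
      (((2 * k + 2 : ℕ) : ℤ) * ((Equiv.Perm.sign (Fin.revPerm : Equiv.Perm (Fin (2 * k + 1))) :
        ℤˣ) : ℤ)) • chn T (2 * k + 1) c (fun p =>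
          cm ((hh g p : (Matrix d d (MonoidAlgebra R G))ˣ) : Matrix d d (MonoidAlgebra R G))) := by
  classical
  obtain ⟨U, hU⟩ := sw_supp (thR A) (Fin.partialProd g)
  rw [VV, Vx, CE_congr _ _ _ _ (fun l => ff d R A (Th k (m + 1) c l))
    (fun l hl => Ph_Th k (m + 1) hc l hl),
    CE_arr _ U hU m (2 * k + 1) _ (fun l l' hl => by rw [Th_dep k (m + 1) c l l' hl]), map_sum, chn,
    ← arr_finsum U (2 * k + 1) (m + 1), Finset.smul_sum]
  · refine Finset.sum_congr rfl fun w _ => ?_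
    split_ifs with hc1
    · rw [arr]
      have e1 : (List.ofFn fun b => (List.ofFn fun p : Fin (m + 1) =>
          ((sw (thR A) (Fin.partialProd g) (prv m 0 p) p).coeff) (w b p : G)).prod).prod =
          (ι R A).mapMatrix (List.ofFn fun b => (List.ofFn fun p =>
            cm ((hh g p : (Matrix d d (MonoidAlgebra R G))ˣ) : Matrix d d (MonoidAlgebra R G))
              (w b p : G)).prod).prod := by
        rw [map_list_prod, List.map_ofFn]
        congr 2
        funext b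
        rw [Function.comp_apply, map_list_prod, List.map_ofFn]
        congr 2
        funext p
        rw [Function.comp_apply, sw, prv_hh, thR_coeff]
      rw [e1, T_ff, Th, map_zsmul, vec_ofFn]
      rfl
    · rw [map_zero, smul_zero]
  · intro s hs
    obtain ⟨b, p, hbp⟩ := hs
    have e2 : cm ((hh g p : (Matrix d d (MonoidAlgebra R G))ˣ) : Matrix d d (MonoidAlgebra R G))
        (s b p) = 0 := by
      have e3 : (thR A (hh g p)).coeff (s b p) = 0 := by
        rw [← prv_hh]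
        exact Finsupp.notMem_support_iff.1 fun h => hbp (hU (prv m 0 p) p h)
      rw [thR_coeff] at e3
      have e5 : ∀ X : Matrix d d R, (ι R A).mapMatrix X = 0 → X = 0 := by
        intro X hX
        apply Matrix.ext
        intro i j
        apply ι_inj (A := A)
        have e6 := congrFun (congrFun hX i) j
        rw [Matrix.zero_apply, map_zero]
        exact e6
      exact e5 _ e3
    have e4 : (List.ofFn fun b => (List.ofFn fun p =>
        cm ((hh g p : (Matrix d d (MonoidAlgebra R G))ˣ) : Matrix d d (MonoidAlgebra R G))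
          (s b p)).prod).prod = 0 := by
      apply List.prod_eq_zero
      rw [List.mem_ofFn]
      refine ⟨b, ?_⟩
      apply List.prod_eq_zero
      rw [List.mem_ofFn]
      exact ⟨p, e2⟩
    rw [e4, Matrix.trace_zero, map_zero, AddMonoidHom.zero_apply, ite_self]

/-- the Chern number of a chain -/
noncomputable def chz (T : R →+ A →+ M) (k : ℕ) {m N : ℕ} (c : (Fin N → G) → A)
    (z : (Fin (m + 1) → (Matrix d d (MonoidAlgebra R G))ˣ) →₀ ℤ) : M :=
  z.sum fun g a => a • chn T (2 * k + 1) c fun p =>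
    cm ((hh g p : (Matrix d d (MonoidAlgebra R G))ˣ) : Matrix d d (MonoidAlgebra R G))

/-- **Divisibility of the Chern numbers of cycles of invertible matrices over group rings** -/
theorem ring_higher (T : R →+ A →+ M) (hT : ∀ x y, T (x * y) = T (y * x)) {m k : ℕ}
    (hk : k ≠ 0) {N' : ℕ} {c : (Fin (N' + 1) → G) → A} (hc : IsAltCocycle c)
    (z : (Fin (m + 1) → (Matrix d d (MonoidAlgebra R G))ˣ) →₀ ℤ)
    (hz : dd (Matrix d d (MonoidAlgebra R G))ˣ m z = 0) (N : ℕ)
    (hN : N ≠ 0) (hnt : ∀ p : ℕ, p.Prime → p ∣ N → ∀ y : G, orderOf y ≠ p) :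
    ∃ y : M, ((2 * k + 2) * (2 * k).descFactorial k) • chz T k c z = N • y := by
  have hcl := cmat_class (d := d) (κ_class (R := R) hc)
  obtain ⟨y, hy⟩ := cycle_dvd (thR A) (mT d (tE T)) (mT_comm _ (tE_comm T hT))
    (lc (cmat d fun v => κ R A (c v)))
    (fun v => by rw [dl_D]; exact D_lc hcl v)
    (fun z v => lc_left hcl z v)
    (fun v b => by
      rw [lc]
      split_ifs
      · exact cmat_cen (fun v a => κ_cen a _) _ _
      · rw [mul_zero, zero_mul]) z hz hk N hN hnt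
  set sg : ℤ := ((Equiv.Perm.sign (Fin.revPerm : Equiv.Perm (Fin (2 * k + 1))) : ℤˣ) : ℤ) with hsg
  have e1 : ph0 (VV (thR A) (mT d (tE T)) k (lc (cmat d fun v => κ R A (c v)))) z =
      sg • (2 * k + 2) • chz T k c z := by
    rw [ph0_sum, chz, Finsupp.sum, Finsupp.sum, Finset.smul_sum, Finset.smul_sum]
    refine Finset.sum_congr rfl fun g _ => ?_
    rw [VV_R _ _ hc, smul_smul, ← natCast_zsmul, smul_smul, smul_smul]
    congr 1
    ring
  rw [e1] at hy
  have hsg1 : sg * sg = 1 := by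
    rw [hsg, ← Units.val_mul, Int.units_mul_self, Units.val_one]
  refine ⟨sg • y, ?_⟩
  rw [smul_comm N sg y, ← hy, smul_comm ((2 * k).descFactorial k) sg, smul_smul sg, hsg1, one_smul,
    smul_smul, mul_comm]

end groupring

section functor

variable {G : Type} [Group G] {R : Type} [Ring R] {d : Type} [Fintype d] [DecidableEq d]
  {A : Type*} [AddCommGroup A] {B : Type*} [AddCommGroup B]

lemma cv_map (f : A →+ B) {q n N : ℕ} (c : (Fin N → G) → A) (s : Fin q → Fin n → G) :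
    f (cv c s) = cv (fun v => f (c v)) s := by
  rw [cv, cv, map_sum]
  refine Finset.sum_congr rfl fun τ _ => ?_
  rw [map_zsmul, sh_map]
  congr 2
  funext l
  rw [la, la]
  split_ifs
  · rfl
  · rw [map_zero]

lemma chn_map (T₀ : R →+ ℤ) (f : A →+ B) (q : ℕ) {n N : ℕ} (c : (Fin N → G) → A)
    (F : Fin n → Matrix d d (MonoidAlgebra R G)) :
    f (chn (TT T₀ A) q c fun p => cm (F p)) = chn (TT T₀ B) q (fun v => f (c v)) fun p => cm (F p) := by
  classical
  rw [chn, chn, AddMonoidHom.map_finsum]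
  · refine finsum_congr fun w => ?_
    split_ifs
    · rw [TT_apply, TT_apply, map_zsmul, cv_map]
    · rw [map_zero]
  · have h1 : (⋃ p, su (F p)).Finite := Set.finite_iUnion fun p => su_fin (F p)
    refine (Set.Finite.pi' fun _ : Fin q => Set.Finite.pi' fun _ : Fin n => h1).subset fun w hw => ?_
    intro b p
    by_contra hcon
    apply hw
    have e1 : cm (F p) (w b p) = 0 := cm_su (F p) fun h => hcon (Set.mem_iUnion.2 ⟨p, h⟩)
    have e4 : (List.ofFn fun b => (List.ofFn fun p => cm (F p) (w b p)).prod).prod = 0 := by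
      apply List.prod_eq_zero
      rw [List.mem_ofFn]
      refine ⟨b, ?_⟩
      apply List.prod_eq_zero
      rw [List.mem_ofFn]
      exact ⟨p, e1⟩
    simp only [e4, Matrix.trace_zero, map_zero, AddMonoidHom.zero_apply, ite_self]

lemma chz_map (T₀ : R →+ ℤ) (f : A →+ B) (k : ℕ) {m N : ℕ} (c : (Fin N → G) → A)
    (z : (Fin (m + 1) → (Matrix d d (MonoidAlgebra R G))ˣ) →₀ ℤ) :
    f (chz (TT T₀ A) k c z) = chz (TT T₀ B) k (fun v => f (c v)) z := by
  rw [chz, chz, Finsupp.sum, Finsupp.sum, map_sum]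
  refine Finset.sum_congr rfl fun g _ => ?_
  rw [map_zsmul, chn_map]

lemma chz_smul (T₀ : R →+ ℤ) (k : ℕ) {m N : ℕ} (n : ℕ) (c : (Fin N → G) → A)
    (z : (Fin (m + 1) → (Matrix d d (MonoidAlgebra R G))ˣ) →₀ ℤ) :
    chz (TT T₀ A) k (fun v => n • c v) z = n • chz (TT T₀ A) k c z := by
  have h := chz_map T₀ (nsmulAddMonoidHom (α := A) n) k c z
  rw [nsmulAddMonoidHom_apply] at h
  rw [h]
  rfl

end functor

section tors

/-- splitting of an integer -/
lemma split_primes (Q : ℕ → Prop) (e : ℕ) (he : e ≠ 0) : ∃ t e' : ℕ, e = t * e' ∧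
    (∀ p : ℕ, p.Prime → p ∣ t → Q p) ∧ (∀ p : ℕ, p.Prime → p ∣ e' → ¬ Q p) := by
  classical
  induction e using Nat.recOnMul with
  | zero => exact absurd rfl he
  | one =>
    exact ⟨1, 1, rfl, fun p hp h => absurd (Nat.dvd_one.1 h) hp.ne_one,
      fun p hp h => absurd (Nat.dvd_one.1 h) hp.ne_one⟩
  | prime p hp =>
    by_cases hQ : Q p
    · exact ⟨p, 1, (mul_one p).symm, fun q hq h => ((Nat.prime_dvd_prime_iff_eq hq hp).1 h) ▸ hQ,
        fun q hq h => absurd (Nat.dvd_one.1 h) hq.ne_one⟩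
    · exact ⟨1, p, (one_mul p).symm, fun q hq h => absurd (Nat.dvd_one.1 h) hq.ne_one,
        fun q hq h => ((Nat.prime_dvd_prime_iff_eq hq hp).1 h) ▸ hQ⟩
  | mul a b iha ihb =>
    obtain ⟨t, e', h1, h2, h3⟩ := iha (left_ne_zero_of_mul he)
    obtain ⟨u, f', k1, k2, k3⟩ := ihb (right_ne_zero_of_mul he)
    refine ⟨t * u, e' * f', by rw [h1, k1]; ring, fun p hp h => ?_, fun p hp h => ?_⟩
    · rcases (hp.dvd_mul).1 h with h | h
      · exact h2 p hp h
      · exact k2 p hp h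
    · rcases (hp.dvd_mul).1 h with h | h
      · exact h3 p hp h
      · exact k3 p hp h

lemma int_zero_of_pow (q : ℕ) (hq : 1 < q) (a : ℤ) (h : ∀ j : ℕ, ((q ^ j : ℕ) : ℤ) ∣ a) : a = 0 := by
  refine Int.eq_zero_of_abs_lt_dvd (h a.natAbs) ?_
  rw [Int.abs_eq_natAbs]
  exact_mod_cast Nat.lt_pow_self hq

lemma tors_of_pow (M : Type*) [AddCommGroup M] [Module.Finite ℤ M] (q : ℕ) (hq : 1 < q) (x : M)
    (hx : ∀ j : ℕ, ∃ y, x = q ^ j • y) : x ∈ Submodule.torsion ℤ M := by
  set Q := M ⧸ Submodule.torsion ℤ M with hQ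
  have hfree : Module.Free ℤ Q := inferInstance
  set b := Module.Free.chooseBasis ℤ Q with hb
  rw [← Submodule.Quotient.mk_eq_zero]
  apply b.ext_elem
  intro i
  rw [map_zero, Finsupp.zero_apply]
  refine int_zero_of_pow q hq _ fun j => ?_
  obtain ⟨y, hy⟩ := hx j
  refine ⟨b.repr (Submodule.Quotient.mk y) i, ?_⟩
  rw [hy, ← natCast_zsmul, Submodule.Quotient.mk_smul, map_smul, Finsupp.smul_apply, smul_eq_mul]

/-- elements which are divisible by enough integers are torsion elements -/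
lemma fg_tors (M : Type*) [AddCommGroup M] [Module.Finite ℤ M] (Q : ℕ → Prop) (q : ℕ)
    (hq : q.Prime) (hqQ : ¬ Q q) : ∃ t : ℕ, t ≠ 0 ∧ (∀ p : ℕ, p.Prime → p ∣ t → Q p) ∧
      ∀ x : M, (∀ N : ℕ, N ≠ 0 → (∀ p : ℕ, p.Prime → p ∣ N → ¬ Q p) → ∃ y, x = N • y) →
        t • x = 0 := by
  obtain ⟨e, he, he2⟩ := tors_bound M
  obtain ⟨t, e', h1, h2, h3⟩ := split_primes Q e he
  refine ⟨t, fun h => he (by rw [h1, h, zero_mul]), h2, fun x hx => ?_⟩
  have he' : e' ≠ 0 := fun h => he (by rw [h1, h, mul_zero])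
  have hxt : x ∈ Submodule.torsion ℤ M := by
    refine tors_of_pow M q hq.one_lt x fun j => hx _ (pow_ne_zero _ hq.ne_zero) fun p hp h => ?_
    have h4 := (Nat.prime_dvd_prime_iff_eq hp hq).1 (hp.dvd_of_dvd_pow h)
    rw [h4]
    exact hqQ
  obtain ⟨y, hy⟩ := hx e' he' h3
  have hyt : y ∈ Submodule.torsion ℤ M := by
    obtain ⟨z, hz⟩ := (Submodule.mem_torsion_iff x).1 hxt
    rw [Submodule.mem_torsion_iff]
    have hz1 : (z : ℤ) • x = 0 := hz
    refine ⟨z * ⟨(e' : ℤ), mem_nonZeroDivisors_of_ne_zero (by exact_mod_cast he')⟩, ?_⟩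
    show ((z : ℤ) * (e' : ℤ)) • y = 0
    rw [mul_smul, natCast_zsmul, ← hy, hz1]
  rw [hy, smul_smul, ← h1, he2 y hyt]

lemma fg_tors' (M : Type*) [AddCommGroup M] [i : Module ℤ M] (h : Module.Finite ℤ M)
    (Q : ℕ → Prop) (q : ℕ)
    (hq : q.Prime) (hqQ : ¬ Q q) : ∃ t : ℕ, t ≠ 0 ∧ (∀ p : ℕ, p.Prime → p ∣ t → Q p) ∧
      ∀ x : M, (∀ N : ℕ, N ≠ 0 → (∀ p : ℕ, p.Prime → p ∣ N → ¬ Q p) → ∃ y, x = N • y) →
        t • x = 0 := by
  have h1 : i = AddCommGroup.toIntModule M := Subsingleton.elim _ _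
  subst h1
  exact fg_tors M Q q hq hqQ

variable {G : Type} [Group G]

lemma cyc_of_pow {m : ℕ} (q : ℕ) (hq : 1 < q) (z : (Fin (m + 1) → G) →₀ ℤ)
    (hz : ∀ j : ℕ, ∃ y w, z = q ^ j • y + dd G (m + 1) w) : dd G m z = 0 := by
  ext v
  refine int_zero_of_pow q hq _ fun j => ?_
  obtain ⟨y, w, h⟩ := hz j
  rw [h, map_add, dd_dd, add_zero, map_nsmul, Finsupp.smul_apply, nsmul_eq_mul]
  exact dvd_mul_right _ _

/-- elements of `Uq` which are divisible by enough integers are torsion elements -/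
lemma tor_of_dvd {m : ℕ} (hfin : Module.Finite ℤ (groupHomology (Tr G) (m + 1)))
    (Q : ℕ → Prop) (q : ℕ) (hq : q.Prime) (hqQ : ¬ Q q) :
    ∃ t : ℕ, t ≠ 0 ∧ (∀ p : ℕ, p.Prime → p ∣ t → Q p) ∧
      ∀ x : Uq G (m + 1),
        (∀ N : ℕ, N ≠ 0 → (∀ p : ℕ, p.Prime → p ∣ N → ¬ Q p) → ∃ y, x = N • y) → t • x = 0 := by
  obtain ⟨t, ht, ht2, ht3⟩ := fg_tors' (groupHomology (Tr G) (m + 1)) hfin Q q hq hqQ
  refine ⟨t, ht, ht2, fun x hx => ?_⟩
  obtain ⟨z, rfl⟩ := mkU_surj x
  have h0 : ∀ N : ℕ, N ≠ 0 → (∀ p : ℕ, p.Prime → p ∣ N → ¬ Q p) →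
      ∃ y w, z = N • y + dd G (m + 1) w := by
    intro N hN hNQ
    obtain ⟨y, hy⟩ := hx N hN hNQ
    obtain ⟨y', rfl⟩ := mkU_surj y
    obtain ⟨w, hw⟩ := mkU_zero (x := z - N • y') (by rw [map_sub, map_nsmul, hy, sub_self])
    exact ⟨y', w, by rw [hw]; abel⟩
  have hz0 : dd G m z = 0 := cyc_of_pow q hq.one_lt z fun j => by
    refine h0 _ (pow_ne_zero _ hq.ne_zero) fun p hp h => ?_
    have h4 := (Nat.prime_dvd_prime_iff_eq hp hq).1 (hp.dvd_of_dvd_pow h)
    rw [h4]
    exact hqQ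
  have h1 : t • groupHomology.π (Tr G) (m + 1) (mkc z hz0) = 0 := by
    refine ht3 _ fun N hN hNQ => ?_
    obtain ⟨y, w, hy⟩ := h0 N hN hNQ
    have hy0 : dd G m y = 0 := by
      have h2 := hz0
      rw [hy, map_add, dd_dd, add_zero, map_nsmul] at h2
      exact (smul_eq_zero.1 h2).resolve_left hN
    refine ⟨groupHomology.π (Tr G) (m + 1) (mkc y hy0), ?_⟩
    have h3 : mkc z hz0 = N • mkc y hy0 + groupHomology.toCycles (Tr G) (m + 2) (m + 1) w := by
      apply i_inj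
      rw [map_add, map_nsmul, i_mkc, i_mkc, i_toCycles]
      exact hy
    rw [h3, map_add, π_toCycles, add_zero, map_nsmul]
  rw [← map_nsmul] at h1
  obtain ⟨w, hw⟩ := π_zero _ h1
  have h5 : t • z = dd G (m + 1) w := by
    rw [← i_toCycles, hw, map_nsmul, i_mkc]
  rw [← map_nsmul, h5, mkU_dd]

end tors

section final

universe u

variable {G : Type} [Group G]

lemma TypeFPInf_finite (h : TypeFPInf G) (m : ℕ) :
    Module.Finite ℤ (groupHomology (Rep.trivial ℤ G ℤ) m) := by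
  obtain ⟨P, i1, i2, d, ε, hfin, hproj, hinv, hsurj, hex0, hex⟩ := h
  have key : ∀ (g : G) (r : ℤ) (x : P 0),
      ε ((MonoidAlgebra.single g r : MonoidAlgebra ℤ G) • x) = r * ε x := by
    intro g r x
    have h1 : (MonoidAlgebra.single g r : MonoidAlgebra ℤ G) = r • MonoidAlgebra.of ℤ G g := by
      rw [MonoidAlgebra.of_apply, MonoidAlgebra.smul_single, smul_eq_mul, mul_one]
    rw [h1, smul_assoc, map_zsmul, hinv, smul_eq_mul]
  let S : Res ℤ G :=
    { P := P, acg := i1, mod := i2, d := d, ε := ε, fin := hfin, proj := hproj, inv := key,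
      surj := hsurj, ex0 := hex0, ex := hex }
  exact S.fin_homology m

/-- **Vanishing of the higher Chern numbers.** -/
theorem higher_zero {m k : ℕ} (hk : k ≠ 0)
    (hfin : Module.Finite ℤ (groupHomology (Tr G) (m + 1 + 2 * k))) (q : ℕ) (hq : q.Prime)
    (hqG : ∀ y : G, orderOf y ≠ q) :
    ∃ t : ℕ, t ≠ 0 ∧ (∀ p : ℕ, p.Prime → p ∣ t → ∃ y : G, orderOf y = p) ∧
      ∀ (R : Type) [Ring R] (T₀ : R →+ ℤ), (∀ x y, T₀ (x * y) = T₀ (y * x)) →
      ∀ (d : Type) [Fintype d] [DecidableEq d]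
        (z : (Fin (m + 1) → (Matrix d d (MonoidAlgebra R G))ˣ) →₀ ℤ),
        dd (Matrix d d (MonoidAlgebra R G))ˣ m z = 0 →
      ∀ (A : Type u) [AddCommGroup A] (c : (Fin (m + 1 + 2 * k + 1) → G) → A), IsAltCocycle c →
        (t * ((2 * k + 2) * (2 * k).descFactorial k * (m + 1 + 2 * k + 2).factorial)) •
          chz (TT T₀ A) k c z = 0 := by
  have e0 : m + 1 + 2 * k = (m + 2 * k) + 1 := by omega
  rw [e0] at hfin ⊢
  obtain ⟨t, ht, ht2, ht3⟩ := tor_of_dvd hfin (fun p => ∃ y : G, orderOf y = p) q hq (by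
    push Not
    exact hqG)
  refine ⟨t, ht, ht2, fun R _ T₀ hT d _ _ z hz A _ c hc => ?_⟩
  have h1 : t • (((2 * k + 2) * (2 * k).descFactorial k) •
      chz (TT T₀ (Uq G (m + 2 * k + 1))) k ca z) = 0 := by
    refine ht3 _ fun N hN hNQ => ?_
    refine ring_higher (TT T₀ _) (TT_comm hT) hk ca_coc z hz N hN fun p hp hpN y hy => ?_
    exact hNQ p hp hpN ⟨y, hy⟩
  have h2 := congrArg (ph hc) h1
  rw [map_nsmul, map_nsmul, chz_map, map_zero] at h2
  have h3 : (fun w => ph hc (ca w)) = fun w => (m + 2 * k + 1 + 2).factorial • c w :=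
    funext fun w => ph_ca hc w
  rw [h3, chz_smul, smul_smul, smul_smul] at h2
  rw [← h2]
  congr 1
  ring

end final

end Pool.Agent.W647.KN
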