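import Pool.Agent.W647.KN1

/-!
# Antisymmetrisation
-/

set_option autoImplicit false
set_option linter.unusedSectionVars false

namespace Pool.Agent.W647.KN

open Finset Pool.Agent.W647.HV1 Pool.Agent.W647.HZ1

section lists

variable {Y : Type*} [Group Y]

lemma ofFn_vec (m : ℕ) (l : List Y) (h : l.length = m) : List.ofFn (vec m l) = l := by
  apply List.ext_getElem
  · rw [List.length_ofFn, h]
  · intro i h1 h2
    rw [List.getElem_ofFn, vec]
    simp only [List.getD_eq_getElem?_getD]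
    rw [List.getElem?_eq_getElem h2]
    rfl

lemma vec_ofFn (m : ℕ) (w : Fin m → Y) : vec m (List.ofFn w) = w := by
  funext i
  rw [vec]
  simp only [List.getD_eq_getElem?_getD]
  rw [List.getElem?_eq_getElem (by rw [List.length_ofFn]; exact i.isLt), Option.getD_some,
    List.getElem_ofFn]

lemma vec_map {Z : Type*} [Group Z] (m : ℕ) (l : List Y) (h : l.length = m) (f : Y → Z) :
    vec m (l.map f) = f ∘ vec m l := by
  rw [← ofFn_vec m l h, List.map_ofFn, vec_ofFn, vec_ofFn]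

lemma ofFn_erase (m : ℕ) (w : Fin (m + 1) → Y) (i : Fin (m + 1)) :
    (List.ofFn w).eraseIdx i = List.ofFn (w ∘ i.succAbove) := by
  have h1 : ((List.ofFn w).eraseIdx i).length = m := by
    rw [List.length_eraseIdx_of_lt (by rw [List.length_ofFn]; exact i.isLt), List.length_ofFn]
    rfl
  rw [← ofFn_vec m _ h1, vec_eraseIdx, vec_ofFn]

variable {A : Type*} [AddCommGroup A]

lemma dl_ofFn (m : ℕ) (w : Fin (m + 1) → Y) (F : List Y → A) :
    dl (List.ofFn w) F =
      ∑ i : Fin (m + 1), (-1 : ℤ) ^ (i : ℕ) • F (List.ofFn (w ∘ i.succAbove)) := by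
  rw [dl_eq_sum, List.length_ofFn, Finset.sum_range]
  exact Finset.sum_congr rfl fun i _ => by rw [ofFn_erase]

end lists

section alt

variable {Y : Type*} {B : Type*} [AddCommGroup B]

lemma alt_delta {m : ℕ} (c : (Fin (m + 1) → Y) → B) (v : Fin (m + 2) → Y) :
    (m + 2) • ∑ i : Fin (m + 2), (-1 : ℤ) ^ (i : ℕ) •
      ∑ σ : Equiv.Perm (Fin (m + 1)), ((Equiv.Perm.sign σ : ℤˣ) : ℤ) • c ((v ∘ i.succAbove) ∘ σ) =
      ∑ ρ : Equiv.Perm (Fin (m + 2)), ((Equiv.Perm.sign ρ : ℤˣ) : ℤ) •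
        ∑ j : Fin (m + 2), (-1 : ℤ) ^ (j : ℕ) • c ((v ∘ ρ) ∘ j.succAbove) := by
  set S : B := ∑ ρ : Equiv.Perm (Fin (m + 2)), ((Equiv.Perm.sign ρ : ℤˣ) : ℤ) •
    c (fun j => v (ρ j.succ)) with hS
  have h1 : ∑ i : Fin (m + 2), (-1 : ℤ) ^ (i : ℕ) •
      ∑ σ : Equiv.Perm (Fin (m + 1)), ((Equiv.Perm.sign σ : ℤˣ) : ℤ) •
        c ((v ∘ i.succAbove) ∘ σ) = S := by
    rw [hS, ← Fintype.sum_bijective pe pe_bij
      (fun x => ((Equiv.Perm.sign (pe x) : ℤˣ) : ℤ) • c (fun j => v (pe x j.succ))) _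
      (fun x => rfl), Fintype.sum_prod_type]
    refine Finset.sum_congr rfl fun i _ => ?_
    rw [Finset.smul_sum]
    refine Finset.sum_congr rfl fun σ _ => ?_
    rw [pe_sign, smul_smul]
    congr 2
    funext j
    rw [pe_succ]
    rfl
  have h2 : ∀ j : Fin (m + 2), ∑ ρ : Equiv.Perm (Fin (m + 2)), ((Equiv.Perm.sign ρ : ℤˣ) : ℤ) •
      ((-1 : ℤ) ^ (j : ℕ) • c ((v ∘ ρ) ∘ j.succAbove)) = S := by
    intro j
    rw [hS]
    refine Fintype.sum_equiv (Equiv.mulRight (j.cycleRange)⁻¹) _ _ fun ρ => ?_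
    have h3 : ∀ i, (j.cycleRange)⁻¹ i.succ = j.succAbove i := fun i =>
      Fin.cycleRange_symm_succ _ _
    have h4 : (fun i : Fin (m + 1) => v ((ρ * (j.cycleRange)⁻¹) i.succ)) =
        (v ∘ ρ) ∘ j.succAbove := by
      funext i
      rw [Equiv.Perm.mul_apply, h3]
      rfl
    show _ = ((Equiv.Perm.sign (ρ * (j.cycleRange)⁻¹) : ℤˣ) : ℤ) •
      c (fun i : Fin (m + 1) => v ((ρ * (j.cycleRange)⁻¹) i.succ))
    rw [h4, Equiv.Perm.sign_mul, Equiv.Perm.sign_inv, Fin.sign_cycleRange, smul_smul]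
    push_cast
    rfl
  have h3 : ∑ ρ : Equiv.Perm (Fin (m + 2)), ((Equiv.Perm.sign ρ : ℤˣ) : ℤ) •
        ∑ j : Fin (m + 2), (-1 : ℤ) ^ (j : ℕ) • c ((v ∘ ρ) ∘ j.succAbove) =
      ∑ _j : Fin (m + 2), S := by
    rw [← Finset.sum_congr rfl fun j _ => h2 j, Finset.sum_comm]
    exact Finset.sum_congr rfl fun ρ _ => by rw [Finset.smul_sum]
  rw [h1, h3, Finset.sum_const, Finset.card_univ, Fintype.card_fin]

/-- the antisymmetrisation of a function of tuples -/
def As {m : ℕ} (c : (Fin m → Y) → B) (v : Fin m → Y) : B :=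
  ∑ σ : Equiv.Perm (Fin m), ((Equiv.Perm.sign σ : ℤˣ) : ℤ) • c (v ∘ σ)

lemma As_perm {m : ℕ} (c : (Fin m → Y) → B) (v : Fin m → Y) (σ : Equiv.Perm (Fin m)) :
    As c (v ∘ σ) = ((Equiv.Perm.sign σ : ℤˣ) : ℤ) • As c v := by
  rw [As, As, Finset.smul_sum]
  refine Fintype.sum_equiv (Equiv.mulLeft σ) _ _ fun ρ => ?_
  show _ = ((Equiv.Perm.sign σ : ℤˣ) : ℤ) • ((Equiv.Perm.sign (σ * ρ) : ℤˣ) : ℤ) •
    c (v ∘ ⇑(σ * ρ))
  rw [Equiv.Perm.sign_mul, smul_smul]
  push_cast
  rw [← mul_assoc, ← Units.val_mul, Int.units_mul_self, Units.val_one, one_mul]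
  rfl

lemma As_rep {m : ℕ} (c : (Fin m → Y) → B) (v : Fin m → Y) (i j : Fin m) (hij : i ≠ j)
    (h : v i = v j) : As c v = 0 := by
  rw [As]
  refine Finset.sum_involution (fun σ _ => Equiv.swap i j * σ) ?_ ?_ ?_ ?_
  · intro σ _
    have h2 : v ∘ ⇑(Equiv.swap i j * σ) = v ∘ σ := by
      funext x
      rw [Function.comp_apply, Function.comp_apply, Equiv.Perm.mul_apply, Equiv.swap_apply_def]
      split_ifs with h3 h4
      · rw [← h, ← h3]
      · rw [h, ← h4]
      · rfl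
    rw [h2, Equiv.Perm.sign_mul, Equiv.Perm.sign_swap hij]
    simp
  · intro σ _ _ h3
    have h4 : Equiv.swap i j = 1 := mul_eq_right.1 h3
    exact hij (Equiv.swap_eq_one_iff.1 h4)
  · intro σ _
    exact Finset.mem_univ _
  · intro σ _
    rw [← mul_assoc, Equiv.swap_mul_self, one_mul]

end alt

section lists

variable {Y : Type*} [Group Y] {A : Type*} [Ring A]

lemma lc_VS {m : ℕ} {c : (Fin m → Y) → A}
    (hperm : ∀ (v : Fin m → Y) (σ : Equiv.Perm (Fin m)),
      c (v ∘ σ) = ((Equiv.Perm.sign σ : ℤˣ) : ℤ) • c v)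
    (hrep : ∀ (v : Fin m → Y) (i j : Fin m), i ≠ j → v i = v j → c v = 0) :
    lc c ∈ VS (1 : Y) A := by
  refine ⟨fun l a b l' => ?_, fun l a l' => ?_, fun l a l' => ?_⟩
  · by_cases hl : (l ++ a :: b :: l').length = m
    · have hl' : (l ++ b :: a :: l').length = m := by
        rw [← hl]; simp
      rw [lc, lc, if_pos hl, if_pos hl']
      have hi : l.length < m := by
        rw [List.length_append, List.length_cons] at hl; omega
      have hi' : l.length + 1 < m := by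
        rw [List.length_append, List.length_cons, List.length_cons] at hl; omega
      have h1 : vec m (l ++ a :: b :: l') =
          vec m (l ++ b :: a :: l') ∘ (Equiv.swap ⟨l.length, hi⟩ ⟨l.length + 1, hi'⟩) := by
        funext j
        rw [Function.comp_apply]
        by_cases e1 : j = ⟨l.length, hi⟩
        · rw [e1, Equiv.swap_apply_left, vec_append_right _ _ _ _ le_rfl,
            vec_append_right _ _ _ _ (Nat.le_succ _)]
          simp
        · by_cases e2 : j = ⟨l.length + 1, hi'⟩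
          · rw [e2, Equiv.swap_apply_right, vec_append_right _ _ _ _ (Nat.le_succ _),
              vec_append_right _ _ _ _ le_rfl]
            simp
          · rw [Equiv.swap_apply_of_ne_of_ne e1 e2]
            rcases lt_or_ge (j : ℕ) l.length with e3 | e3
            · rw [vec_append_left _ _ _ _ e3, vec_append_left _ _ _ _ e3]
            · rw [vec_append_right _ _ _ _ e3, vec_append_right _ _ _ _ e3]
              have e1' : (j : ℕ) ≠ l.length := fun e => e1 (Fin.ext e)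
              have e2' : (j : ℕ) ≠ l.length + 1 := fun e => e2 (Fin.ext e)
              obtain ⟨s, hs⟩ : ∃ s, (j : ℕ) - l.length = s + 2 :=
                ⟨(j : ℕ) - l.length - 2, by omega⟩
              rw [hs]
              simp
      rw [h1, hperm, Equiv.Perm.sign_swap]
      · simp
      · intro e
        have := congrArg Fin.val e
        simp at this
    · have hl' : ¬ (l ++ b :: a :: l').length = m := by
        intro e; apply hl; rw [← e]; simp
      rw [lc, lc, if_neg hl, if_neg hl', neg_zero]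
  · by_cases hl : (l ++ a :: a :: l').length = m
    · rw [lc, if_pos hl]
      have hi : l.length < m := by
        rw [List.length_append, List.length_cons] at hl; omega
      have hi' : l.length + 1 < m := by
        rw [List.length_append, List.length_cons, List.length_cons] at hl; omega
      refine hrep _ ⟨l.length, hi⟩ ⟨l.length + 1, hi'⟩ ?_ ?_
      · intro e
        have := congrArg Fin.val e
        simp at this
      · rw [vec_append_right _ _ _ _ le_rfl, vec_append_right _ _ _ _ (Nat.le_succ _)]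
        simp
    · rw [lc, if_neg hl]
  · rw [one_mul]

/-- the antisymmetrisation of a function of lists, restricted to lists of length `m` -/
def Al (m : ℕ) (F : List Y → A) : List Y → A := lc (As (m := m) fun v => F (List.ofFn v))

lemma Al_apply (m : ℕ) (F : List Y → A) (l : List Y) (hl : l.length = m) :
    Al m F l = ∑ σ : Equiv.Perm (Fin m), ((Equiv.Perm.sign σ : ℤˣ) : ℤ) •
      F (List.ofFn (vec m l ∘ σ)) := by
  rw [Al, lc, if_pos hl, As]

lemma Al_ne (m : ℕ) (F : List Y → A) (l : List Y) (hl : l.length ≠ m) : Al m F l = 0 := by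
  rw [Al, lc, if_neg hl]

lemma Al_VS (m : ℕ) (F : List Y → A) : Al m F ∈ VS (1 : Y) A :=
  lc_VS (fun v σ => As_perm _ v σ) (fun v i j hij h => As_rep _ v i j hij h)

lemma Al_congr (m : ℕ) (F F' : List Y → A) (h : ∀ l, l.length = m → F l = F' l) (l : List Y) :
    Al m F l = Al m F' l := by
  by_cases hl : l.length = m
  · rw [Al_apply m F l hl, Al_apply m F' l hl]
    exact Finset.sum_congr rfl fun σ _ => by rw [h _ (List.length_ofFn)]
  · rw [Al_ne m F l hl, Al_ne m F' l hl]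

lemma Al_map {Z : Type*} [Group Z] (f : Y → Z) (m : ℕ) (F : List Y → A) (F' : List Z → A)
    (h : ∀ l, l.length = m → F' (l.map f) = F l) (l : List Y) : Al m F' (l.map f) = Al m F l := by
  by_cases hl : l.length = m
  · rw [Al_apply m F l hl, Al_apply m F' _ (by rw [List.length_map, hl]), vec_map m l hl]
    refine Finset.sum_congr rfl fun σ _ => ?_
    rw [← h _ (List.length_ofFn), List.map_ofFn]
    rfl
  · rw [Al_ne m F l hl, Al_ne m F' _ (by rw [List.length_map]; exact hl)]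

lemma Al_mem (K : AddSubgroup A) (m : ℕ) (F : List Y → A) (h : ∀ l, F l ∈ K) (l : List Y) :
    Al m F l ∈ K := by
  by_cases hl : l.length = m
  · rw [Al_apply m F l hl]
    exact K.sum_mem fun σ _ => K.zsmul_mem (h _) _
  · rw [Al_ne m F l hl]
    exact K.zero_mem

lemma Al_dl (m : ℕ) (F : List Y → A) (l : List Y) :
    (m + 2) • dl l (Al (m + 1) F) = Al (m + 2) (fun l' => dl l' F) l := by
  by_cases hl : l.length = m + 2
  · rw [Al_apply _ _ l hl, ← Finset.sum_congr rfl fun σ _ =>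
      by rw [dl_ofFn (m + 1) (vec (m + 2) l ∘ σ) F],
      ← alt_delta (fun w => F (List.ofFn w)) (vec (m + 2) l)]
    congr 1
    conv_lhs => rw [← ofFn_vec (m + 2) l hl]
    rw [dl_ofFn]
    refine Finset.sum_congr rfl fun i _ => ?_
    rw [Al_apply _ _ _ (List.length_ofFn), vec_ofFn]
  · rw [Al_ne _ _ l hl, dl_congr l _ (fun _ => 0) fun l' _ h' => Al_ne _ _ _ (by omega), dl_zero,
      smul_zero]

lemma Al_dl_comm {Z : Type*} (m : ℕ) (P : List Z) (F : List Z → List Y → A) (l : List Y) :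
    Al m (fun l' => dl P (fun P' => F P' l')) l = dl P (fun P' => Al m (F P') l) := by
  by_cases hl : l.length = m
  · rw [Al_apply _ _ l hl]
    have h1 : ∀ P' : List Z, Al m (F P') l = ∑ σ : Equiv.Perm (Fin m),
      ((Equiv.Perm.sign σ : ℤˣ) : ℤ) • F P' (List.ofFn (vec m l ∘ σ)) := fun P' => Al_apply _ _ l hl
    simp only [h1]
    rw [dl_sum]
    exact Finset.sum_congr rfl fun σ _ => by rw [dl_zsmul]
  · rw [Al_ne _ _ l hl]
    have h1 : ∀ P' : List Z, Al m (F P') l = 0 := fun P' => Al_ne _ _ l hl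
    simp only [h1]
    rw [dl_zero]

end lists

section Ph

variable {G : Type*} [Group G] {A : Type*} [Ring A]

/-- the antisymmetrised prism cochain -/
def Ph (k : ℕ) (φ : List G → A) (P : List ℕ) (l : List (ℕ → G)) : A :=
  (2 * k + 2) • Al (2 * k + 1) (J P.length (2 * k + 1) φ P) l

/-- the antisymmetrised prism cochain for the faces -/
def Pg (k : ℕ) (φ : List G → A) (P : List ℕ) (l : List (ℕ → G)) : A :=
  Al (2 * k + 2) (J P.length (2 * k + 2) φ P) l

lemma Ph_dl (k : ℕ) (φ : List G → A) (hφ : ∀ v, dl v φ = 0) (P : List ℕ) (l : List (ℕ → G)) :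
    dl l (Ph k φ P) = - dl P (fun P' => Pg k φ P' l) := by
  have h1 : dl l (Ph k φ P) = (2 * k + 2) • dl l (Al (2 * k + 1) (J P.length (2 * k + 1) φ P)) :=
    dl_nsmul _ _ _
  rw [h1, Al_dl]
  have h2 : ∀ l' : List (ℕ → G), l'.length = 2 * k + 2 →
      dl l' (J P.length (2 * k + 1) φ P) = dl P (fun P' => - J P'.length (2 * k + 2) φ P' l') := by
    intro l' hl'
    have h3 := J_star P.length (2 * k + 2) φ P l' rfl hl'
    simp only [hφ, J_phi_zero] at h3
    have h4 : (-1 : ℤ) ^ (2 * k + 2) = 1 := by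
      rw [show 2 * k + 2 = 2 * (k + 1) by ring, pow_mul]; norm_num
    rw [h4, one_smul, show 2 * k + 2 - 1 = 2 * k + 1 by omega] at h3
    rw [dl_neg, dl_congr P (fun P' => J P'.length (2 * k + 2) φ P' l')
      (fun P' => J (P.length - 1) (2 * k + 2) φ P' l') fun P' _ hP' => by
        rw [show P'.length = P.length - 1 by omega]]
    exact eq_neg_of_add_eq_zero_left h3.symm
  rw [Al_congr (2 * k + 2) _ _ h2, Al_dl_comm, ← dl_neg]
  congr 1
  funext P'
  by_cases hl : l.length = 2 * k + 2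
  · rw [Pg, Al_apply _ _ l hl, Al_apply _ _ l hl, ← Finset.sum_neg_distrib]
    exact Finset.sum_congr rfl fun σ _ => smul_neg _ _
  · rw [Pg, Al_ne _ _ l hl, Al_ne _ _ l hl, neg_zero]

lemma Ph_VS (k : ℕ) (φ : List G → A) (P : List ℕ) : Ph k φ P ∈ VS (1 : ℕ → G) A := by
  have h := (VS (1 : ℕ → G) A).toAddSubmonoid.nsmul_mem (Al_VS (2 * k + 1)
    (J P.length (2 * k + 1) φ P)) (2 * k + 2)
  exact h

lemma Ph_mem (K : AddSubgroup A) (k : ℕ) (φ : List G → A) (hφ : ∀ v, φ v ∈ K) (P : List ℕ)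
    (l : List (ℕ → G)) : Ph k φ P l ∈ K :=
  K.nsmul_mem (Al_mem K _ _ (fun l => J_mem K _ _ _ hφ _ _) l) _

lemma Pg_mem (K : AddSubgroup A) (k : ℕ) (φ : List G → A) (hφ : ∀ v, φ v ∈ K) (P : List ℕ)
    (l : List (ℕ → G)) : Pg k φ P l ∈ K := Al_mem K _ _ (fun l => J_mem K _ _ _ hφ _ _) l

lemma Ph_relabel (ρ : ℕ → ℕ) (k : ℕ) (φ : List G → A) (P : List ℕ) (l : List (ℕ → G)) :
    Ph k φ (P.map ρ) l = Ph k φ P (l.map fun a => a ∘ ρ) := by
  rw [Ph, Ph, Al_map (fun a : ℕ → G => a ∘ ρ) (2 * k + 1) (J (P.map ρ).length (2 * k + 1) φ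
    (P.map ρ))]
  intro l' _
  rw [List.length_map, J_relabel ρ _ _ _ _ _ rfl]

lemma Pg_relabel (ρ : ℕ → ℕ) (k : ℕ) (φ : List G → A) (P : List ℕ) (l : List (ℕ → G)) :
    Pg k φ (P.map ρ) l = Pg k φ P (l.map fun a => a ∘ ρ) := by
  rw [Pg, Pg, Al_map (fun a : ℕ → G => a ∘ ρ) (2 * k + 2) (J (P.map ρ).length (2 * k + 2) φ
    (P.map ρ))]
  intro l' _
  rw [List.length_map, J_relabel ρ _ _ _ _ _ rfl]

lemma Ph_trans (z : G) (k : ℕ) (φ : List G → A) (hφ : ∀ v, φ (v.map fun a => z * a) = φ v)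
    (P : List ℕ) (l : List (ℕ → G)) :
    Ph k φ P (l.map fun a => (fun _ => z) * a) = Ph k φ P l := by
  rw [Ph, Ph, Al_map (fun a : ℕ → G => (fun _ => z) * a) (2 * k + 1)
    (J P.length (2 * k + 1) φ P)]
  intro l' hl'
  rw [J_trans z _ _ _ _ _ hl']
  simp only [hφ]

lemma Pg_trans (z : G) (k : ℕ) (φ : List G → A) (hφ : ∀ v, φ (v.map fun a => z * a) = φ v)
    (P : List ℕ) (l : List (ℕ → G)) :
    Pg k φ P (l.map fun a => (fun _ => z) * a) = Pg k φ P l := by
  rw [Pg, Pg, Al_map (fun a : ℕ → G => (fun _ => z) * a) (2 * k + 2)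
    (J P.length (2 * k + 2) φ P)]
  intro l' hl'
  rw [J_trans z _ _ _ _ _ hl']
  simp only [hφ]

lemma Pg_fix (f : (ℕ → G) → (ℕ → G)) (k : ℕ) (φ : List G → A)
    (P : List ℕ) (l : List (ℕ → G)) (hf : ∀ a, ∀ p ∈ P, f a p = a p) :
    Pg k φ P (l.map f) = Pg k φ P l := by
  rw [Pg, Pg, Al_map f (2 * k + 2) (J P.length (2 * k + 2) φ P)]
  intro l' hl'
  exact J_fix f _ _ _ _ _ rfl hl' hf

lemma Pg_nil (k : ℕ) (φ : List G → A) (l : List (ℕ → G)) : Pg k φ [] l = 0 := by
  have h := Al_mem (⊥ : AddSubgroup A) (2 * k + 2) (J (0 : ℕ) (2 * k + 2) φ [])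
    (fun l => by rw [J_zero]; exact (⊥ : AddSubgroup A).zero_mem) l
  exact (AddSubgroup.mem_bot).1 h

end Ph

end Pool.Agent.W647.KN
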