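import Pool.Agent.W647.KN2

/-!
# Sums over pairs of consecutive vertices
-/

set_option autoImplicit false
set_option linter.unusedSectionVars false

namespace Pool.Agent.W647.KN

open Finset Pool.Agent.W647.HV1

section pairs

variable {Y : Type*} {E : Type*} [Ring E]

/-- sum over the pairs of consecutive vertices of a path -/
def Lp (X : Y → E) : Y → List Y → E
  | _, [] => 0
  | α, β :: l => X α * X β + Lp X β l

lemma Lp_nil (X : Y → E) (α : Y) : Lp X α [] = 0 := rfl

lemma Lp_cons (X : Y → E) (α β : Y) (l : List Y) : Lp X α (β :: l) = X α * X β + Lp X β l := rfl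

lemma Lp_append (X : Y → E) (α : Y) (l l' : List Y) :
    Lp X α (l ++ l') = Lp X α l + Lp X (l.getLastD α) l' := by
  induction l generalizing α with
  | nil => simp [Lp_nil]
  | cons β l ih => rw [List.cons_append, Lp_cons, ih, Lp_cons, List.getLastD_cons, add_assoc]

lemma Lp_mid (X : Y → E) (α β : Y) (l l' : List Y) :
    Lp X α (l ++ β :: l') = Lp X α (l ++ [β]) + Lp X β l' := by
  rw [show l ++ β :: l' = (l ++ [β]) ++ l' by simp, Lp_append, List.getLastD_concat]

/-- sum over the pairs of consecutive vertices of a closed path -/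
def Lc (X : Y → E) : List Y → E
  | [] => 0
  | α :: l => Lp X α (l ++ [α])

lemma Lc_nil (X : Y → E) : Lc X [] = 0 := rfl

lemma Lc_cons (X : Y → E) (α : Y) (l : List Y) : Lc X (α :: l) = Lp X α (l ++ [α]) := rfl

lemma Lc_rot (X : Y → E) (l l' : List Y) : Lc X (l ++ l') = Lc X (l' ++ l) := by
  cases l with
  | nil => rw [List.nil_append, List.append_nil]
  | cons α l =>
    cases l' with
    | nil => rw [List.nil_append, List.append_nil]
    | cons β l' =>
      have e1 : (l ++ β :: l') ++ [α] = l ++ β :: (l' ++ [α]) := by simp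
      have e2 : (l' ++ α :: l) ++ [β] = l' ++ α :: (l ++ [β]) := by simp
      rw [List.cons_append, List.cons_append, Lc_cons, Lc_cons, e1, e2,
        Lp_mid X α β l (l' ++ [α]), Lp_mid X β α l' (l ++ [β]), add_comm]

lemma Lc_flat (X : Y → E) (l : List Y) (q : ℕ) :
    Lc X (List.replicate q l).flatten = q • Lc X l := by
  cases l with
  | nil => simp [Lc_nil]
  | cons α l =>
    cases q with
    | zero => simp [Lc_nil]
    | succ q =>
      have key : ∀ q : ℕ, Lp X α (l ++ (List.replicate q (α :: l)).flatten ++ [α]) =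
          (q + 1) • Lp X α (l ++ [α]) := by
        intro q
        induction q with
        | zero => simp
        | succ q ih =>
          rw [List.replicate_succ, List.flatten_cons, List.append_assoc, List.append_assoc,
            List.cons_append, Lp_mid, ← List.append_assoc, ih, succ_nsmul' _ (q + 1)]
      rw [List.replicate_succ, List.flatten_cons, List.cons_append, Lc_cons, key, Lc_cons]

lemma Lp_comm (X : Y → E) (c : E) (h : ∀ α β, Commute (X α * X β) c) (α : Y) (l : List Y) :
    Commute (Lp X α l) c := by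
  induction l generalizing α with
  | nil => exact Commute.zero_left _
  | cons β l ih => exact (h _ _).add_left (ih _)

lemma Lc_comm (X : Y → E) (c : E) (h : ∀ α β, Commute (X α * X β) c) (l : List Y) :
    Commute (Lc X l) c := by
  cases l with
  | nil => exact Commute.zero_left _
  | cons β l => exact Lp_comm X c h _ _

end pairs

section functions

variable {Y : Type*} {A : Type*} [AddCommGroup A]

/-- insertion of a first variable -/
def cA (a : Y) : AddMonoid.End (List Y → A) where
  toFun ψ := fun m => ψ (a :: m)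
  map_zero' := rfl
  map_add' _ _ := rfl

lemma cA_apply (a : Y) (ψ : List Y → A) (m : List Y) : cA a ψ m = ψ (a :: m) := rfl

lemma dl_two (a b : Y) (φ : List Y → A) (m : List Y) :
    dl m (fun l' => φ (b :: a :: l')) = φ (b :: m) - φ (a :: m) + dl (b :: a :: m) φ := by
  rw [dl_cons, dl_cons]
  abel

lemma dl_Lp (α : Y) (l : List Y) (ψ : List Y → A) (m : List Y) :
    dl m (Lp cA α l ψ) = Lp cA α l (fun m' => dl m' ψ) m + ψ (l.getLastD α :: m) - ψ (α :: m) := by
  induction l generalizing α with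
  | nil =>
    have h1 : Lp cA α [] ψ = fun _ => (0 : A) := rfl
    have h2 : Lp cA α [] (fun m' => dl m' ψ) m = (0 : A) := rfl
    rw [h1, h2, dl_zero]
    simp
  | cons β l ih =>
    have h1 : Lp cA α (β :: l) ψ = fun m' => ψ (β :: α :: m') + Lp cA β l ψ m' := rfl
    have h2 : Lp cA α (β :: l) (fun m' => dl m' ψ) m =
      dl (β :: α :: m) ψ + Lp cA β l (fun m' => dl m' ψ) m := rfl
    have h3 : dl m (Lp cA β l ψ) = dl m (fun m' => Lp cA β l ψ m') := rfl
    rw [h1, h2, dl_add, ← h3, ih, dl_two, List.getLastD_cons]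
    abel

lemma dl_Lc (l : List Y) (ψ : List Y → A) :
    (fun m => dl m (Lc cA l ψ)) = Lc cA l (fun m' => dl m' ψ) := by
  funext m
  cases l with
  | nil =>
    have h1 : Lc cA [] ψ = fun _ => (0 : A) := rfl
    rw [h1, dl_zero]
    rfl
  | cons α l =>
    rw [Lc_cons, dl_Lp, List.getLastD_concat]
    abel

lemma dl_Lc_pow (l : List Y) (k : ℕ) (ψ : List Y → A) :
    (fun m => dl m ((Lc cA l ^ k : AddMonoid.End (List Y → A)) ψ)) =
      (Lc cA l ^ k : AddMonoid.End (List Y → A)) (fun m' => dl m' ψ) := by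
  induction k with
  | zero => rfl
  | succ k ih =>
    rw [pow_succ']
    show (fun m => dl m (Lc cA l ((Lc cA l ^ k : AddMonoid.End (List Y → A)) ψ))) =
      Lc cA l ((Lc cA l ^ k : AddMonoid.End (List Y → A)) (fun m' => dl m' ψ))
    rw [dl_Lc, ih]

lemma dl_outer {Z : Type*} (f : AddMonoid.End (List Y → A)) (P : List Z)
    (F : List Z → List Y → A) (m : List Y) :
    f (fun m' => dl P (fun P' => F P' m')) m = dl P (fun P' => f (F P') m) := by
  have h1 : (fun m' => dl P (fun P' => F P' m')) = dl P F := by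
    funext m'
    exact (dl_map (Pi.evalAddMonoidHom (fun _ : List Y => A) m') P F).symm
  rw [h1]
  exact dl_map ((Pi.evalAddMonoidHom (fun _ : List Y => A) m).comp f) P F

/-- **Change of the apex** -/
lemma apex {Z : Type*} (l : List Y) (k : ℕ) (Φ : List Y → A) (Φ' : List Z → List Y → A)
    (P : List Z) (h : ∀ m, dl m Φ = - dl P (fun P' => Φ' P' m)) (κ κ' : Y) :
    (Lc cA l ^ k : AddMonoid.End (List Y → A)) (cA κ' Φ) [] -
      (Lc cA l ^ k : AddMonoid.End (List Y → A)) (cA κ Φ) [] =
      dl P (fun P' => (Lc cA l ^ k : AddMonoid.End (List Y → A)) (cA κ (cA κ' (Φ' P'))) []) := by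
  have h1 := congrFun (dl_Lc_pow l k (cA κ (cA κ' Φ))) []
  have h2 : (fun m' => dl m' (cA κ (cA κ' Φ))) = cA κ' Φ - cA κ Φ -
      (fun m' => dl P (fun P' => cA κ (cA κ' (Φ' P')) m')) := by
    funext m'
    have h3 : dl m' (cA κ (cA κ' Φ)) = dl m' (fun l' => Φ (κ' :: κ :: l')) := rfl
    rw [h3, dl_two, h, ← sub_eq_add_neg]
    rfl
  rw [h2, map_sub, map_sub, Pi.sub_apply, Pi.sub_apply, dl_outer] at h1
  have h4 : dl [] ((Lc cA l ^ k : AddMonoid.End (List Y → A)) (cA κ (cA κ' Φ))) = 0 := rfl
  rw [h4] at h1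
  exact sub_eq_zero.1 h1.symm

/-- functoriality -/
lemma Lp_pull {Z : Type*} (f : Y → Z) (α : Y) (l : List Y) (ψ : List Z → A) (m : List Y) :
    Lp cA (f α) (l.map f) ψ (m.map f) = Lp cA α l (fun m' => ψ (m'.map f)) m := by
  induction l generalizing α with
  | nil => rfl
  | cons β l ih =>
    show ψ (f β :: f α :: m.map f) + Lp cA (f β) (l.map f) ψ (m.map f) =
      ψ (f β :: f α :: m.map f) + Lp cA β l (fun m' => ψ (m'.map f)) m
    rw [ih]

lemma Lc_pull {Z : Type*} (f : Y → Z) (l : List Y) (ψ : List Z → A) (m : List Y) :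
    Lc cA (l.map f) ψ (m.map f) = Lc cA l (fun m' => ψ (m'.map f)) m := by
  cases l with
  | nil => rfl
  | cons α l =>
    rw [List.map_cons, Lc_cons, Lc_cons, ← Lp_pull, List.map_append]
    rfl

lemma Lc_pow_pull {Z : Type*} (f : Y → Z) (l : List Y) (k : ℕ) (ψ : List Z → A) :
    (fun m : List Y => (Lc cA (l.map f) ^ k : AddMonoid.End (List Z → A)) ψ (m.map f)) =
      (Lc cA l ^ k : AddMonoid.End (List Y → A)) (fun m' => ψ (m'.map f)) := by
  induction k with
  | zero => rfl
  | succ k ih =>
    funext m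
    rw [pow_succ', pow_succ']
    show Lc cA (l.map f) ((Lc cA (l.map f) ^ k : AddMonoid.End (List Z → A)) ψ) (m.map f) =
      Lc cA l ((Lc cA l ^ k : AddMonoid.End (List Y → A)) (fun m' => ψ (m'.map f))) m
    rw [Lc_pull, ih]

lemma Lp_mem (K : AddSubgroup A) (α : Y) (l : List Y) (ψ : List Y → A) (h : ∀ m, ψ m ∈ K)
    (m : List Y) : Lp cA α l ψ m ∈ K := by
  induction l generalizing α with
  | nil => exact K.zero_mem
  | cons β l ih => exact K.add_mem (h _) (ih _)

lemma Lc_pow_mem (K : AddSubgroup A) (l : List Y) (k : ℕ) (ψ : List Y → A) (h : ∀ m, ψ m ∈ K)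
    (m : List Y) : (Lc cA l ^ k : AddMonoid.End (List Y → A)) ψ m ∈ K := by
  induction k generalizing m with
  | zero => exact h m
  | succ k ih =>
    rw [pow_succ']
    show Lc cA l ((Lc cA l ^ k : AddMonoid.End (List Y → A)) ψ) m ∈ K
    cases l with
    | nil => exact K.zero_mem
    | cons α l => exact Lp_mem K α _ _ ih m

end functions

section V

variable {Y : Type*} [Group Y] {A : Type*} [Ring A]

/-- the insertion on alternating cochains -/
abbrev xx (A : Type*) [Ring A] (a : Y) : AddMonoid.End (V (1 : Y) A) := x a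

lemma ev_xx (a : Y) (φ : V (1 : Y) A) : ev (xx A a φ) = cA a (ev φ) := rfl

lemma ev_Lp (α : Y) (l : List Y) (φ : V (1 : Y) A) :
    ev (Lp (xx A) α l φ) = Lp cA α l (ev φ) := by
  induction l generalizing α with
  | nil => rfl
  | cons β l ih =>
    have h1 : ev (Lp (xx A) α (β :: l) φ) = ev (xx A α (xx A β φ)) + ev (Lp (xx A) β l φ) := rfl
    rw [h1, ih]
    rfl

lemma ev_Lc_pow (l : List Y) (k : ℕ) (φ : V (1 : Y) A) :
    ev ((Lc (xx A) l ^ k : AddMonoid.End (V (1 : Y) A)) φ) =
      (Lc cA l ^ k : AddMonoid.End (List Y → A)) (ev φ) := by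
  induction k with
  | zero => rfl
  | succ k ih =>
    rw [pow_succ', pow_succ']
    show ev (Lc (xx A) l ((Lc (xx A) l ^ k : AddMonoid.End (V (1 : Y) A)) φ)) =
      Lc cA l ((Lc cA l ^ k : AddMonoid.End (List Y → A)) (ev φ))
    rw [← ih]
    cases l with
    | nil => rfl
    | cons α l => exact ev_Lp _ _ _

/-- the pairs of a path given by the list of its vertices -/
def PL (A : Type*) [Ring A] : List Y → AddMonoid.End (V (1 : Y) A)
  | [] => 0
  | α :: l => Lp (xx A) α l

lemma x_PL (α : Y) (l : List Y) : xx A α * PL A (α :: l) = xx A α * PL A l := by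
  cases l with
  | nil => rfl
  | cons β l =>
    show xx A α * (xx A α * xx A β + Lp (xx A) β l) = xx A α * Lp (xx A) β l
    rw [mul_add, ← mul_assoc, x_sq, zero_mul, zero_add]

lemma PL_comm (l : List Y) (c : Y) : Commute (PL A l) (xx A c) := by
  cases l with
  | nil => exact Commute.zero_left _
  | cons α l => exact Lp_comm _ _ (fun α β => P_comm α β c) _ _

lemma x_PL_pow (α : Y) (l : List Y) (k : ℕ) :
    xx A α * PL A (α :: l) ^ k = xx A α * PL A l ^ k := by
  induction k with
  | zero => rw [pow_zero, pow_zero]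
  | succ k ih =>
    have hc : Commute (PL A l ^ k) (xx A α) := (PL_comm l α).pow_left k
    rw [pow_succ, ← mul_assoc, ih, ← hc.eq, mul_assoc, x_PL, ← mul_assoc, hc.eq, mul_assoc,
      ← pow_succ]

lemma PL_two_pow (α β : Y) (l : List Y) (k : ℕ) :
    PL A (α :: β :: l) ^ (k + 1) = PL A (β :: l) ^ (k + 1) +
      (k + 1) • (xx A α * (xx A β * PL A l ^ k)) := by
  have h1 : PL A (α :: β :: l) = xx A α * xx A β + PL A (β :: l) := rfl
  rw [h1, add_pow_sq_zero _ _ _ (P_sq _ _) k, mul_assoc, x_PL_pow]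
  exact ((PL_comm _ _).mul_right (PL_comm _ _)).symm

lemma x_Lc_pow (α : Y) (l : List Y) (k : ℕ) :
    xx A α * Lc (xx A) (α :: l) ^ k = xx A α * PL A l ^ k := by
  have h1 : xx A α * Lc (xx A) (α :: l) = xx A α * PL A l := by
    cases l with
    | nil =>
      show xx A α * (xx A α * xx A α + 0) = xx A α * 0
      rw [add_zero, x_sq, mul_zero]
    | cons β l =>
      rw [Lc_cons, List.cons_append, Lp_cons, Lp_append, Lp_cons, Lp_nil, add_zero, mul_add,
        mul_add, ← mul_assoc, x_sq, zero_mul, zero_add]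
      have h2 : xx A α * (xx A (l.getLastD β) * xx A α) = 0 := by
        rw [← (P_comm (g := (1 : Y)) (A := A) (l.getLastD β) α α).eq, mul_assoc, x_sq, mul_zero]
      rw [h2, add_zero]
      rfl
  have hc : Commute (Lc (xx A) (α :: l)) (xx A α) := Lc_comm _ _ (fun β γ => P_comm β γ α) _
  induction k with
  | zero => rw [pow_zero, pow_zero]
  | succ k ih =>
    have e1 : xx A α * Lc (xx A) (α :: l) ^ (k + 1) =
        Lc (xx A) (α :: l) * (xx A α * Lc (xx A) (α :: l) ^ k) := by
      rw [pow_succ', ← mul_assoc, ← mul_assoc, hc.eq]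
    rw [e1, ih, ← mul_assoc, hc.eq, h1, pow_succ', mul_assoc]

end V

end Pool.Agent.W647.KN
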