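import Pool.Agent.W647.KN3

/-!
# Sums over words of blocks
-/

set_option autoImplicit false
set_option linter.unusedSectionVars false

namespace Pool.Agent.W647.KN

open Finset Pool.Agent.W647.HV1

section Ep

variable {G : Type*} [Group G] {A : Type*} [Ring A] {X : Type*} [AddCommGroup X] [Module A X]
  {X' : Type*} [AddCommGroup X'] [Module A X']

/-- translation of states -/
def tr1 (X : Type*) [AddCommGroup X] : G →* AddMonoid.End (G → X) where
  toFun s :=
    { toFun := fun f h => f (h * s)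
      map_zero' := rfl
      map_add' := fun _ _ => rfl }
  map_one' := by
    refine AddMonoidHom.ext fun f => funext fun h => ?_
    show f (h * 1) = f h
    rw [mul_one]
  map_mul' s t := by
    refine AddMonoidHom.ext fun f => funext fun h => ?_
    show f (h * (s * t)) = f (h * s * t)
    rw [mul_assoc]

lemma comm_tr1 (r : A) (s : G) :
    Commute (Module.toAddMonoidEnd A (G → X) r) (tr1 X s) := by
  refine AddMonoidHom.ext fun f => funext fun h => ?_
  rfl

variable (X) in
/-- the action of the group ring on states -/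
noncomputable def Ep : MonoidAlgebra A G →+* AddMonoid.End (G → X) :=
  MonoidAlgebra.liftNCRingHom (Module.toAddMonoidEnd A (G → X)) (tr1 X) comm_tr1

lemma Ep_single (s : G) (a : A) (F : G → X) (h : G) :
    Ep X (MonoidAlgebra.single s a) F h = a • F (h * s) := by
  have h1 : Ep X (MonoidAlgebra.single s a) = Module.toAddMonoidEnd A (G → X) a * tr1 X s :=
    MonoidAlgebra.liftNCRingHom_single _ _ _ _ _
  rw [h1]
  rfl

lemma Ep_sum (f : MonoidAlgebra A G) (F : G → X) (h : G) :
    Ep X f F h = f.coeff.sum fun s a => a • F (h * s) := by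
  induction f using MonoidAlgebra.induction_linear with
  | zero => rw [map_zero]; simp
  | add f f' hf hf' =>
    rw [map_add, MonoidAlgebra.coeff_add, Finsupp.sum_add_index', ← hf, ← hf']
    · rfl
    · intro s; exact zero_smul _ _
    · intro s a b; exact add_smul _ _ _
  | single s a =>
    rw [Ep_single, MonoidAlgebra.coeff_single, Finsupp.sum_single_index]
    exact zero_smul _ _

lemma Ep_apply (f : MonoidAlgebra A G) (F : G → X) (h : G) (S : Finset G)
    (hS : f.coeff.support ⊆ S) : Ep X f F h = ∑ s ∈ S, f.coeff s • F (h * s) := by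
  rw [Ep_sum, Finsupp.sum_of_support_subset _ hS]
  intro s _
  exact zero_smul _ _

lemma Ep_map (g : X →ₗ[A] X') (f : MonoidAlgebra A G) (F : G → X) (h : G) :
    g (Ep X f F h) = Ep X' f (fun h' => g (F h')) h := by
  rw [Ep_apply f F h _ subset_rfl, Ep_apply f _ h _ subset_rfl, map_sum]
  exact Finset.sum_congr rfl fun s _ => map_smul _ _ _

lemma Ep_trans (z : G) (f : MonoidAlgebra A G) (F : G → X) (h : G) :
    Ep X f F (z * h) = Ep X f (fun h' => F (z * h')) h := by
  rw [Ep_apply f F _ _ subset_rfl, Ep_apply f _ h _ subset_rfl]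
  exact Finset.sum_congr rfl fun s _ => by rw [mul_assoc]

lemma Ep_mul (f f' : MonoidAlgebra A G) (F : G → X) (h : G) :
    Ep X f (Ep X f' F) h = Ep X (f * f') F h := by
  rw [map_mul]
  rfl

lemma Ep_congr (f : MonoidAlgebra A G) (F F' : G → X) (hF : ∀ h', F h' = F' h') (h : G) :
    Ep X f F h = Ep X f F' h := by
  rw [show F = F' from funext hF]

lemma Ep_one (F : G → X) (h : G) : Ep X (1 : MonoidAlgebra A G) F h = F h := by
  rw [map_one]
  rfl

lemma Ep_add (f : MonoidAlgebra A G) (F F' : G → X) (h : G) :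
    Ep X f (fun h' => F h' + F' h') h = Ep X f F h + Ep X f F' h := by
  have h1 := map_add (Ep X f) F F'
  exact congrFun h1 h

lemma Ep_zero (f : MonoidAlgebra A G) (h : G) : Ep X f (fun _ => 0) h = 0 :=
  congrFun (map_zero (Ep X f)) h

end Ep

section PS

variable {G : Type*} [Group G] {A : Type*} [Ring A] {X : Type*} [AddCommGroup X] [Module A X]
  {X' : Type*} [AddCommGroup X'] [Module A X'] (σ : ℕ → ℕ → MonoidAlgebra A G)

/-- the sum over the words of one block, with the vertices recorded -/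
noncomputable def PS : ℕ → List ℕ → ((ℕ → G) → G → X) → G → X
  | _, [], Ψ, h => Ψ (fun _ => h) h
  | i, p :: P, Ψ, h => Ep X (σ i p) (fun h' => PS p P (fun a => Ψ (Function.update a p h')) h') h

/-- the sum over the words of `N` blocks -/
noncomputable def WS (P : List ℕ) : ℕ → (List (ℕ → G) → G → X) → G → X
  | 0, Ψ, h => Ψ [] h
  | N + 1, Ψ, h => PS σ (P.getLastD 0) P (fun a h' => WS P N (fun l => Ψ (a :: l)) h') h

lemma PS_nil (i : ℕ) (Ψ : (ℕ → G) → G → X) (h : G) : PS σ i [] Ψ h = Ψ (fun _ => h) h := by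
  rw [PS]

lemma PS_cons (i p : ℕ) (P : List ℕ) (Ψ : (ℕ → G) → G → X) (h : G) :
    PS σ i (p :: P) Ψ h =
      Ep X (σ i p) (fun h' => PS σ p P (fun a => Ψ (Function.update a p h')) h') h := by
  rw [PS]

lemma WS_zero (P : List ℕ) (Ψ : List (ℕ → G) → G → X) (h : G) : WS σ P 0 Ψ h = Ψ [] h := by
  rw [WS]

lemma WS_succ (P : List ℕ) (N : ℕ) (Ψ : List (ℕ → G) → G → X) (h : G) :
    WS σ P (N + 1) Ψ h =
      PS σ (P.getLastD 0) P (fun a h' => WS σ P N (fun l => Ψ (a :: l)) h') h := by
  rw [WS]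

lemma PS_map (g : X →ₗ[A] X') (i : ℕ) (P : List ℕ) (Ψ : (ℕ → G) → G → X) (h : G) :
    g (PS σ i P Ψ h) = PS σ i P (fun a h' => g (Ψ a h')) h := by
  induction P generalizing i Ψ h with
  | nil => rw [PS_nil, PS_nil]
  | cons p P ih =>
    rw [PS_cons, PS_cons, Ep_map]
    simp only [ih]

lemma WS_map (g : X →ₗ[A] X') (P : List ℕ) (N : ℕ) (Ψ : List (ℕ → G) → G → X) (h : G) :
    g (WS σ P N Ψ h) = WS σ P N (fun l h' => g (Ψ l h')) h := by
  induction N generalizing Ψ h with
  | zero => rw [WS_zero, WS_zero]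
  | succ N ih =>
    rw [WS_succ, WS_succ, PS_map]
    simp only [ih]

lemma PS_add (i : ℕ) (P : List ℕ) (Ψ Ψ' : (ℕ → G) → G → X) (h : G) :
    PS σ i P (fun a h' => Ψ a h' + Ψ' a h') h = PS σ i P Ψ h + PS σ i P Ψ' h := by
  induction P generalizing i Ψ Ψ' h with
  | nil => rw [PS_nil, PS_nil, PS_nil]
  | cons p P ih =>
    rw [PS_cons, PS_cons, PS_cons]
    simp only [ih]
    exact Ep_add _ _ _ _

lemma WS_add (P : List ℕ) (N : ℕ) (Ψ Ψ' : List (ℕ → G) → G → X) (h : G) :
    WS σ P N (fun l h' => Ψ l h' + Ψ' l h') h = WS σ P N Ψ h + WS σ P N Ψ' h := by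
  induction N generalizing Ψ Ψ' h with
  | zero => rw [WS_zero, WS_zero, WS_zero]
  | succ N ih =>
    rw [WS_succ, WS_succ, WS_succ]
    simp only [ih]
    exact PS_add _ _ _ _ _ _

/-- as a homomorphism -/
noncomputable def WSh (P : List ℕ) (N : ℕ) (h : G) : (List (ℕ → G) → G → X) →+ X where
  toFun Ψ := WS σ P N Ψ h
  map_zero' := by
    have h1 := WS_add σ P N (0 : List (ℕ → G) → G → X) 0 h
    have h2 : (fun (l : List (ℕ → G)) (h' : G) => (0 : List (ℕ → G) → G → X) l h' +
      (0 : List (ℕ → G) → G → X) l h') = 0 := by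
      funext l h'
      simp
    rw [h2] at h1
    exact left_eq_add.1 h1
  map_add' Ψ Ψ' := WS_add σ P N Ψ Ψ' h

/-- as a homomorphism -/
noncomputable def PSh (i : ℕ) (P : List ℕ) (h : G) : ((ℕ → G) → G → X) →+ X where
  toFun Ψ := PS σ i P Ψ h
  map_zero' := by
    have h1 := PS_add σ i P (0 : (ℕ → G) → G → X) 0 h
    have h2 : (fun (l : ℕ → G) (h' : G) => (0 : (ℕ → G) → G → X) l h' +
      (0 : (ℕ → G) → G → X) l h') = 0 := by
      funext l h'
      simp
    rw [h2] at h1
    exact left_eq_add.1 h1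
  map_add' Ψ Ψ' := PS_add σ i P Ψ Ψ' h

lemma upd_trans (z : G) (a : ℕ → G) (p : ℕ) (y : G) :
    Function.update ((fun _ => z) * a) p (z * y) = (fun _ => z) * Function.update a p y := by
  funext q
  by_cases hq : q = p
  · subst hq
    simp
  · simp [Function.update_of_ne hq]

lemma PS_trans (z : G) (i : ℕ) (P : List ℕ) (Ψ : (ℕ → G) → G → X) (h : G) :
    PS σ i P Ψ (z * h) = PS σ i P (fun a h' => Ψ ((fun _ => z) * a) (z * h')) h := by
  induction P generalizing i Ψ h with
  | nil => rw [PS_nil, PS_nil]; rfl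
  | cons p P ih =>
    rw [PS_cons, PS_cons, Ep_trans]
    simp only [ih, upd_trans]

lemma WS_trans (z : G) (P : List ℕ) (N : ℕ) (Ψ : List (ℕ → G) → G → X) (h : G) :
    WS σ P N Ψ (z * h) =
      WS σ P N (fun l h' => Ψ (l.map fun a => (fun _ => z) * a) (z * h')) h := by
  induction N generalizing Ψ h with
  | zero => rw [WS_zero, WS_zero]; rfl
  | succ N ih =>
    rw [WS_succ, WS_succ, PS_trans]
    simp only [ih]
    rfl

/-- dependence on the coordinates in `Q` only -/
def DepOn (Q : List ℕ) (Ψ : (ℕ → G) → G → X) : Prop :=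
  ∀ a a' : ℕ → G, (∀ p ∈ Q, a p = a' p) → Ψ a = Ψ a'

/-- dependence on the coordinates in `Q` only -/
def DepL {Z : Type*} (Q : List ℕ) (Ψ : List (ℕ → G) → Z) : Prop :=
  ∀ l l' : List (ℕ → G), List.Forall₂ (fun a a' => ∀ p ∈ Q, a p = a' p) l l' → Ψ l = Ψ l'

lemma DepL_cons {Z : Type*} {Q : List ℕ} {Ψ : List (ℕ → G) → Z} (h : DepL Q Ψ) (a : ℕ → G) :
    DepL Q (fun l => Ψ (a :: l)) := fun l l' hl =>
  h _ _ (List.Forall₂.cons (fun _ _ => rfl) hl)

lemma DepL_head {Z : Type*} {Q : List ℕ} {Ψ : List (ℕ → G) → Z} (h : DepL Q Ψ) (a a' : ℕ → G)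
    (haa : ∀ p ∈ Q, a p = a' p) : (fun l => Ψ (a :: l)) = fun l => Ψ (a' :: l) := by
  funext l
  exact h _ _ (List.Forall₂.cons haa (List.forall₂_same.2 fun _ _ _ _ => rfl))

variable (hσ : ∀ i j k, σ i j * σ j k = σ i k)

include hσ in
lemma PS_skip (i p q : ℕ) (P : List ℕ) (Ψ : (ℕ → G) → G → X)
    (hΨ : ∀ a y, Ψ (Function.update a p y) = Ψ a) (h : G) :
    PS σ i (p :: q :: P) Ψ h = PS σ i (q :: P) Ψ h := by
  rw [PS_cons]
  simp only [hΨ]
  have h1 : (fun h' => PS σ p (q :: P) (fun a => Ψ a) h') =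
      Ep X (σ p q) (fun h' => PS σ q P (fun a => Ψ (Function.update a q h')) h') := by
    funext h'
    rw [PS_cons]
  rw [h1, Ep_mul, hσ, PS_cons]

include hσ in
lemma PS_erase (i : ℕ) (P : List ℕ) (j : ℕ) (hj : j + 1 < P.length) (hP : P.Nodup)
    (Ψ : (ℕ → G) → G → X) (hΨ : DepOn (P.eraseIdx j) Ψ) (h : G) :
    PS σ i P Ψ h = PS σ i (P.eraseIdx j) Ψ h := by
  induction P generalizing i j Ψ h with
  | nil => simp at hj
  | cons p P ih =>
    cases j with
    | zero =>
      cases P with
      | nil => simp at hj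
      | cons q P =>
        show PS σ i (p :: q :: P) Ψ h = PS σ i (q :: P) Ψ h
        refine PS_skip σ hσ i p q P Ψ (fun a y => ?_) h
        refine hΨ _ _ fun r hr => ?_
        have h1 : r ≠ p := by
          rintro rfl
          exact (List.nodup_cons.1 hP).1 hr
        rw [Function.update_of_ne h1]
    | succ j =>
      rw [List.eraseIdx_cons_succ, PS_cons, PS_cons]
      refine Ep_congr _ _ _ (fun h' => ?_) _
      refine ih p j ?_ (List.nodup_cons.1 hP).2 _ ?_ h'
      · rw [List.length_cons] at hj; omega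
      · intro a a' haa
        refine hΨ _ _ fun r hr => ?_
        rw [List.eraseIdx_cons_succ] at hr
        by_cases h1 : r = p
        · subst h1; rw [Function.update_self, Function.update_self]
        · rw [Function.update_of_ne h1, Function.update_of_ne h1]
          exact haa r ((List.mem_cons.1 hr).resolve_left h1)

lemma PS_last (i : ℕ) (Q : List ℕ) (q : ℕ) (Ψ : (ℕ → G) → G → X) (hΨ : DepOn Q Ψ) (hq : q ∉ Q)
    (h : G) : PS σ i (Q ++ [q]) Ψ h =
      PS σ i Q (fun a h' => Ep X (σ (Q.getLastD i) q) (Ψ a) h') h := by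
  induction Q generalizing i Ψ h with
  | nil =>
    rw [List.nil_append, PS_cons, PS_nil]
    refine Ep_congr _ _ _ (fun h' => ?_) _
    rw [PS_nil]
    exact congrFun (hΨ _ _ fun p hp => by simp at hp) h'
  | cons p Q ih =>
    rw [List.cons_append, PS_cons, PS_cons, List.getLastD_cons]
    refine Ep_congr _ _ _ (fun h' => ?_) _
    refine ih p _ ?_ (fun h1 => hq (List.mem_cons_of_mem _ h1)) h'
    intro a a' haa
    refine hΨ _ _ fun r hr => ?_
    by_cases h1 : r = p
    · subst h1; rw [Function.update_self, Function.update_self]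
    · rw [Function.update_of_ne h1, Function.update_of_ne h1]
      exact haa r ((List.mem_cons.1 hr).resolve_left h1)

include hσ in
lemma PS_const (hone : ∀ i, σ i i = 1) (i : ℕ) (P : List ℕ) (F : G → X) (h : G) :
    PS σ i P (fun _ => F) h = Ep X (σ i (P.getLastD i)) F h := by
  induction P generalizing i h with
  | nil => rw [PS_nil, List.getLastD_nil, hone, Ep_one]
  | cons p P ih =>
    rw [PS_cons, List.getLastD_cons]
    have h1 : (fun h' => PS σ p P (fun _ => F) h') = Ep X (σ p (P.getLastD p)) F := by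
      funext h'
      exact ih p h'
    rw [h1, Ep_mul, hσ]

lemma getLastD_indep (P : List ℕ) (hP : P ≠ []) (a b : ℕ) : P.getLastD a = P.getLastD b := by
  cases P with
  | nil => exact absurd rfl hP
  | cons p P => rw [List.getLastD_cons, List.getLastD_cons]

include hσ in
lemma PS_block (hone : ∀ i, σ i i = 1) (P : List ℕ) (F : G → X) (h : G) :
    PS σ (P.getLastD 0) P (fun _ => F) h = F h := by
  rw [PS_const σ hσ hone]
  cases P with
  | nil => rw [List.getLastD_nil, List.getLastD_nil, hone, Ep_one]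
  | cons p P =>
    rw [List.getLastD_cons, List.getLastD_cons, hone, Ep_one]

include hσ in
lemma WS_const (hone : ∀ i, σ i i = 1) (P : List ℕ) (N : ℕ) (F : G → X) (h : G) :
    WS σ P N (fun _ => F) h = F h := by
  induction N generalizing h with
  | zero => rw [WS_zero]
  | succ N ih =>
    rw [WS_succ]
    have h1 : (fun (_ : ℕ → G) (h' : G) => WS σ P N (fun _ => F) h') = fun _ => F := by
      funext _ h'
      exact ih h'
    rw [h1, PS_block σ hσ hone]

lemma getLastD_erase (P : List ℕ) (j d : ℕ) (hj : j + 1 < P.length) :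
    (P.eraseIdx j).getLastD d = P.getLastD d := by
  induction P generalizing j d with
  | nil => simp at hj
  | cons p P ih =>
    cases j with
    | zero =>
      have hP : P ≠ [] := by
        rintro rfl
        simp at hj
      rw [List.eraseIdx_cons_zero, List.getLastD_cons]
      exact getLastD_indep P hP _ _
    | succ j =>
      rw [List.eraseIdx_cons_succ, List.getLastD_cons, List.getLastD_cons]
      exact ih j p (by rw [List.length_cons] at hj; omega)

include hσ in
/-- **Faces which are not the last one** -/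
lemma WS_erase (P : List ℕ) (j : ℕ) (hj : j + 1 < P.length) (hP : P.Nodup) (N : ℕ)
    (Ψ : List (ℕ → G) → G → X) (hΨ : DepL (P.eraseIdx j) Ψ) (h : G) :
    WS σ P N Ψ h = WS σ (P.eraseIdx j) N Ψ h := by
  induction N generalizing Ψ h with
  | zero => rw [WS_zero, WS_zero]
  | succ N ih =>
    rw [WS_succ, WS_succ, getLastD_erase P j 0 hj, ← PS_erase σ hσ _ P j hj hP]
    · congr 1
      funext a h'
      exact ih _ (DepL_cons hΨ a) h'
    · intro a a' haa
      funext h'
      have h1 := DepL_head hΨ a a' haa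
      show WS σ (P.eraseIdx j) N (fun l => Ψ (a :: l)) h' =
        WS σ (P.eraseIdx j) N (fun l => Ψ (a' :: l)) h'
      rw [h1]

include hσ in
lemma WS_last_aux (Q : List ℕ) (hQ : Q ≠ []) (q : ℕ) (hq : q ∉ Q) (N : ℕ)
    (Ψ : List (ℕ → G) → G → X) (hΨ : DepL Q Ψ) (h : G) :
    Ep X (σ (Q.getLastD 0) q) (WS σ (Q ++ [q]) N Ψ) h =
      WS σ Q N (fun l => Ep X (σ (Q.getLastD 0) q) (Ψ l)) h := by
  induction N generalizing Ψ h with
  | zero =>
    rw [WS_zero]
    have h1 : WS σ (Q ++ [q]) 0 Ψ = Ψ [] := by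
      funext h'
      rw [WS_zero]
    rw [h1]
  | succ N ih =>
    have h1 : WS σ (Q ++ [q]) (N + 1) Ψ = PS σ q Q (fun a h' =>
        Ep X (σ (Q.getLastD 0) q) (WS σ (Q ++ [q]) N (fun l => Ψ (a :: l))) h') := by
      funext h'
      rw [WS_succ, List.getLastD_concat, PS_last σ q Q q _ _ hq, getLastD_indep Q hQ q 0]
      intro a a' haa
      funext h''
      show WS σ (Q ++ [q]) N (fun l => Ψ (a :: l)) h'' = WS σ (Q ++ [q]) N (fun l => Ψ (a' :: l)) h''
      rw [DepL_head hΨ a a' haa]
    rw [h1, WS_succ]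
    have h2 : ∀ (Φ : (ℕ → G) → G → X) (h : G), Ep X (σ (Q.getLastD 0) q) (PS σ q Q Φ) h =
        PS σ (Q.getLastD 0) Q Φ h := by
      intro Φ h
      cases Q with
      | nil => exact absurd rfl hQ
      | cons p Q =>
        have h3 : PS σ q (p :: Q) Φ = Ep X (σ q p)
            (fun h' => PS σ p Q (fun a => Φ (Function.update a p h')) h') := by
          funext h'
          rw [PS_cons]
        rw [h3, Ep_mul, hσ, PS_cons]
    rw [h2]
    congr 1
    funext a h'
    exact ih _ (DepL_cons hΨ a) h'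

end PS

section close

variable {G : Type*} [Group G] {A : Type*} [Ring A] (σ : ℕ → ℕ → MonoidAlgebra A G)
  {M : Type*} [AddCommGroup M]

open Classical in
/-- the value at the closed words -/
noncomputable def cl (Θ : List (ℕ → G) → A) : List (ℕ → G) → G → A :=
  fun l h => if h = 1 then Θ l else 0

/-- the sum over closed words of `N` blocks -/
noncomputable def CE (P : List ℕ) (N : ℕ) (Θ : List (ℕ → G) → A) : A := WS σ P N (cl Θ) 1

/-- rotation of the last step -/
lemma rot_close (T : A →+ M) (hT : ∀ x y, T (x * y) = T (y * x)) (Θ : List (ℕ → G) → A)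
    (hΘ : ∀ (z : G) l, Θ (l.map fun a => (fun _ => z) * a) = Θ l) (hcen : ∀ l b, b * Θ l = Θ l * b)
    (W : (List (ℕ → G) → G → A) →+ (G → A))
    (hW1 : ∀ Ψ h b, W (fun l h' => Ψ l h' * b) h = W Ψ h * b)
    (hW2 : ∀ Ψ z h, W Ψ (z * h) =
      W (fun l h' => Ψ (l.map fun a => (fun _ => z) * a) (z * h')) h)
    (f : MonoidAlgebra A G) :
    T (W (fun l h' => Ep A f (cl Θ l) h') 1) = T (Ep A f (W (cl Θ)) 1) := by
  classical
  have h1 : (fun (l : List (ℕ → G)) (h' : G) => Ep A f (cl Θ l) h') =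
      ∑ s ∈ f.coeff.support, fun (l : List (ℕ → G)) (h' : G) =>
        (if h' * s = 1 then f.coeff s * Θ l else 0) := by
    funext l h'
    rw [Finset.sum_apply, Finset.sum_apply, Ep_apply f _ h' _ subset_rfl]
    refine Finset.sum_congr rfl fun s _ => ?_
    rw [cl, smul_eq_mul]
    split_ifs
    · rfl
    · rw [mul_zero]
  rw [h1, map_sum, Finset.sum_apply, map_sum, Ep_apply f _ 1 _ subset_rfl, map_sum]
  refine Finset.sum_congr rfl fun s _ => ?_
  have e5 := hW2 (fun l h' => cl Θ l h' * f.coeff s) s 1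
  rw [mul_one] at e5
  rw [smul_eq_mul, hT, ← hW1, one_mul, e5]
  have e6 : (fun (l : List (ℕ → G)) (h' : G) => if h' * s = 1 then f.coeff s * Θ l else 0) =
      fun l h' => cl Θ (l.map fun a => (fun _ => s) * a) (s * h') * f.coeff s := by
    funext l h'
    rw [cl, hΘ]
    by_cases h2 : h' * s = 1
    · have h3 : s * h' = 1 := by
        rw [mul_eq_one_iff_eq_inv] at h2
        rw [h2, mul_inv_cancel]
      rw [if_pos h2, if_pos h3, hcen]
    · have h3 : ¬ s * h' = 1 := by
        intro h3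
        apply h2
        rw [mul_eq_one_iff_eq_inv] at h3
        rw [h3, mul_inv_cancel]
      rw [if_neg h2, if_neg h3, zero_mul]
  rw [e6]

variable (hσ : ∀ i j k, σ i j * σ j k = σ i k)

include hσ in
/-- **The last face** -/
lemma CE_last (T : A →+ M) (hT : ∀ x y, T (x * y) = T (y * x)) (Θ : List (ℕ → G) → A)
    (hΘ : ∀ (z : G) l, Θ (l.map fun a => (fun _ => z) * a) = Θ l) (hcen : ∀ l b, b * Θ l = Θ l * b)
    (Q : List ℕ) (hQ : Q ≠ []) (q : ℕ) (hq : q ∉ Q) (hdep : DepL Q Θ) (N : ℕ) :
    T (CE σ (Q ++ [q]) N Θ) = T (CE σ Q N Θ) := by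
  cases N with
  | zero => rw [CE, CE, WS_zero, WS_zero]
  | succ N =>
    let W : (List (ℕ → G) → G → A) →+ (G → A) :=
      { toFun := fun Ψ h => PS σ q Q (fun a h' => WS σ Q N (fun l => Ψ (a :: l)) h') h
        map_zero' := by
          funext h
          have h1 : (fun (a : ℕ → G) (h' : G) => WS σ Q N
              (fun l => (0 : List (ℕ → G) → G → A) (a :: l)) h') = 0 := by
            funext a h'
            exact (WSh σ Q N h').map_zero
          rw [h1]
          exact (PSh σ q Q h).map_zero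
        map_add' := fun Ψ Ψ' => by
          funext h
          have h1 : (fun (a : ℕ → G) (h' : G) => WS σ Q N (fun l => (Ψ + Ψ') (a :: l)) h') =
              fun a h' => WS σ Q N (fun l => Ψ (a :: l)) h' + WS σ Q N (fun l => Ψ' (a :: l)) h' := by
            funext a h'
            exact WS_add σ Q N _ _ h'
          rw [h1]
          exact PS_add σ q Q _ _ h }
    have hW : ∀ Ψ h, W Ψ h = PS σ q Q (fun a h' => WS σ Q N (fun l => Ψ (a :: l)) h') h :=
      fun _ _ => rfl
    have hdep' : DepL Q (cl Θ) := by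
      intro l l' hl
      funext h
      rw [cl, cl, hdep l l' hl]
    have e1 : CE σ (Q ++ [q]) (N + 1) Θ =
        W (fun l h' => Ep A (σ (Q.getLastD 0) q) (cl Θ l) h') 1 := by
      rw [CE, WS_succ, List.getLastD_concat, PS_last σ q Q q _ _ hq, hW, getLastD_indep Q hQ q 0]
      · congr 1
        funext a h'
        exact WS_last_aux σ hσ Q hQ q hq N _ (DepL_cons hdep' a) h'
      · intro a a' haa
        funext h''
        show WS σ (Q ++ [q]) N (fun l => cl Θ (a :: l)) h'' =
          WS σ (Q ++ [q]) N (fun l => cl Θ (a' :: l)) h''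
        rw [DepL_head hdep' a a' haa]
    have e2 : CE σ Q (N + 1) Θ = Ep A (σ (Q.getLastD 0) q) (W (cl Θ)) 1 := by
      rw [CE, WS_succ]
      cases Q with
      | nil => exact absurd rfl hQ
      | cons p Q =>
        have h3 : W (cl Θ) = Ep A (σ q p) (fun h' => PS σ p Q (fun a h'' => WS σ (p :: Q) N
            (fun l => cl Θ (Function.update a p h' :: l)) h'') h') := by
          funext h'
          rw [hW, PS_cons]
        rw [h3, Ep_mul, hσ, PS_cons]
    rw [e1, e2]
    refine rot_close T hT Θ hΘ hcen W ?_ ?_ _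
    · intro Ψ h b
      rw [hW, hW]
      have h4 := PS_map σ (LinearMap.toSpanSingleton A A b) q Q
        (fun a h' => WS σ Q N (fun l => Ψ (a :: l)) h') h
      simp only [LinearMap.toSpanSingleton_apply, smul_eq_mul] at h4
      rw [h4]
      congr 1
      funext a h'
      have h5 := WS_map σ (LinearMap.toSpanSingleton A A b) Q N (fun l => Ψ (a :: l)) h'
      simp only [LinearMap.toSpanSingleton_apply, smul_eq_mul] at h5
      exact h5.symm
    · intro Ψ z h
      rw [hW, hW, PS_trans]
      simp only [WS_trans]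
      rfl

end close

section relabel

variable {G : Type*} [Group G] {A : Type*} [Ring A] {X : Type*} [AddCommGroup X] [Module A X]
  (σ : ℕ → ℕ → MonoidAlgebra A G)

lemma PS_relabel (ρ : ℕ → ℕ) (hρ : Function.Injective ρ) (i : ℕ) (P : List ℕ)
    (Ψ Ψ' : (ℕ → G) → G → X) (h : ∀ a, Ψ a = Ψ' (a ∘ ρ)) (h₀ : G) :
    PS σ (ρ i) (P.map ρ) Ψ h₀ = PS (fun a b => σ (ρ a) (ρ b)) i P Ψ' h₀ := by
  induction P generalizing i Ψ Ψ' h₀ with
  | nil => rw [List.map_nil, PS_nil, PS_nil, h]; rfl
  | cons p P ih =>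
    rw [List.map_cons, PS_cons, PS_cons]
    refine Ep_congr _ _ _ (fun h' => ?_) _
    refine ih p _ _ (fun a => ?_) h'
    rw [h, Function.update_comp_eq_of_injective _ hρ]

lemma getLastD_map (ρ : ℕ → ℕ) (P : List ℕ) (d : ℕ) :
    (P.map ρ).getLastD (ρ d) = ρ (P.getLastD d) := by
  induction P generalizing d with
  | nil => rfl
  | cons p P ih => rw [List.map_cons, List.getLastD_cons, List.getLastD_cons]; exact ih p

lemma WS_relabel (ρ : ℕ → ℕ) (hρ : Function.Injective ρ) (P : List ℕ) (hP : P ≠ []) (N : ℕ)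
    (Ψ Ψ' : List (ℕ → G) → G → X) (h : ∀ l, Ψ l = Ψ' (l.map fun a => a ∘ ρ)) (h₀ : G) :
    WS σ (P.map ρ) N Ψ h₀ = WS (fun a b => σ (ρ a) (ρ b)) P N Ψ' h₀ := by
  induction N generalizing Ψ Ψ' h₀ with
  | zero => rw [WS_zero, WS_zero, h]; rfl
  | succ N ih =>
    rw [WS_succ, WS_succ]
    have h1 : (P.map ρ).getLastD 0 = ρ (P.getLastD 0) := by
      cases P with
      | nil => exact absurd rfl hP
      | cons p P =>
        rw [List.map_cons, List.getLastD_cons, List.getLastD_cons]
        exact getLastD_map ρ P p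
    rw [h1]
    refine PS_relabel σ ρ hρ _ _ _ _ (fun a => ?_) _
    funext h'
    refine ih _ _ (fun l => ?_) h'
    rw [h]
    rfl

end relabel

end Pool.Agent.W647.KN
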