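import Pool.Agent.W647.KN4

/-!
# Counting
-/

set_option autoImplicit false
set_option linter.unusedSectionVars false

namespace Pool.Agent.W647.KN

open Finset Pool.Agent.W647.HV1

section cn

/-- the number of ordered choices of `k` disjoint pairs of neighbours in a path with `N` vertices -/
def cn : ℕ → ℕ → ℕ
  | _, 0 => 1
  | 0, _ + 1 => 0
  | 1, _ + 1 => 0
  | N + 2, k + 1 => cn (N + 1) (k + 1) + (k + 1) * cn N k

lemma cn_zero_right (N : ℕ) : cn N 0 = 1 := by
  cases N with
  | zero => rfl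
  | succ N => cases N <;> rfl

lemma cn_rec (N k : ℕ) : cn (N + 2) (k + 1) = cn (N + 1) (k + 1) + (k + 1) * cn N k := rfl

lemma cn_zero : ∀ (N k : ℕ), N < 2 * k → cn N k = 0
  | _, 0, h => by simp at h
  | 0, _ + 1, _ => rfl
  | 1, _ + 1, _ => rfl
  | N + 2, k + 1, h => by
    rw [cn_rec, cn_zero (N + 1) (k + 1) (by omega), cn_zero N k (by omega)]
    rfl

lemma cn_eq (k : ℕ) : ∀ n, cn (n + k) k = n.descFactorial k := by
  induction k with
  | zero => intro n; rw [cn_zero_right, Nat.descFactorial_zero]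
  | succ k ih =>
    intro n
    induction n with
    | zero =>
      rw [Nat.zero_descFactorial_succ]
      exact cn_zero _ _ (by omega)
    | succ n ihn =>
      rw [show n + 1 + (k + 1) = (n + k) + 2 by ring, cn_rec, show n + k + 1 = n + (k + 1) by ring,
        ihn, ih, Nat.succ_descFactorial_succ, Nat.descFactorial_succ]
      rcases le_or_gt k n with hk | hk
      · obtain ⟨t, rfl⟩ := Nat.exists_eq_add_of_le hk
        rw [Nat.add_sub_cancel_left]
        ring
      · rw [(Nat.descFactorial_eq_zero_iff_lt).2 hk]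
        simp

end cn

section count

variable {G : Type*} [Group G] {A : Type*} [Ring A] (σ : ℕ → ℕ → MonoidAlgebra A G)

/-- product of the insertions -/
def Xl (A : Type*) [Ring A] {Y : Type*} [Group Y] : List Y → AddMonoid.End (V (1 : Y) A)
  | [] => 1
  | α :: l => xx A α * Xl A l

lemma ev_Xl {Y : Type*} [Group Y] (l : List Y) (φ : V (1 : Y) A) (m : List Y) :
    ev (Xl A l φ) m = ev φ (l.reverse ++ m) := by
  induction l generalizing m with
  | nil => rfl
  | cons α l ih =>
    show ev (Xl A l φ) (α :: m) = _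
    rw [ih, List.reverse_cons, List.append_assoc]
    rfl

/-- insertion as a linear map -/
def xlin {Y : Type*} [Group Y] (a : Y) : V (1 : Y) A →ₗ[A] V (1 : Y) A where
  toFun := xx A a
  map_add' := map_add _
  map_smul' r φ := x_smul a r φ

lemma xlin_apply {Y : Type*} [Group Y] (a : Y) (φ : V (1 : Y) A) : xlin a φ = xx A a φ := rfl

/-- evaluation as a linear map -/
def evlin {Y : Type*} [Group Y] (m : List Y) : V (1 : Y) A →ₗ[A] A where
  toFun φ := ev φ m
  map_add' _ _ := rfl
  map_smul' _ _ := rfl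

lemma evlin_apply {Y : Type*} [Group Y] (m : List Y) (φ : V (1 : Y) A) : evlin m φ = ev φ m := rfl

variable {X : Type*} [AddCommGroup X] [Module A X]

lemma PS_nsmul (n : ℕ) (i : ℕ) (P : List ℕ) (Ψ : (ℕ → G) → G → X) (h : G) :
    PS σ i P (fun a h' => n • Ψ a h') h = n • PS σ i P Ψ h := map_nsmul (PSh σ i P h) n Ψ

lemma WS_nsmul (n : ℕ) (P : List ℕ) (N : ℕ) (Ψ : List (ℕ → G) → G → X) (h : G) :
    WS σ P N (fun a h' => n • Ψ a h') h = n • WS σ P N Ψ h := map_nsmul (WSh σ P N h) n Ψ

lemma PS_zero (i : ℕ) (P : List ℕ) (h : G) : PS σ i P (fun _ _ => (0 : X)) h = 0 :=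
  (PSh σ i P h).map_zero

lemma WS_zero' (P : List ℕ) (N : ℕ) (h : G) : WS σ P N (fun _ _ => (0 : X)) h = 0 :=
  (WSh σ P N h).map_zero

variable (hσ : ∀ i j k, σ i j * σ j k = σ i k) (hone : ∀ i, σ i i = 1)

include hσ hone in
/-- **Counting** -/
lemma count (P : List ℕ) (F : G → V (1 : ℕ → G) A) : ∀ (N k : ℕ) (h : G),
    WS σ P N (fun l h' => (PL A l ^ k : AddMonoid.End (V (1 : ℕ → G) A)) (F h')) h =
      cn N k • WS σ P (2 * k) (fun l h' => Xl A l (F h')) h
  | N, 0, h => by
    rw [cn_zero_right, one_smul, mul_zero, WS_zero]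
    exact WS_const σ hσ hone P N F h
  | 0, k + 1, h => by
    rw [WS_zero]
    show ((0 : AddMonoid.End (V (1 : ℕ → G) A)) ^ (k + 1)) (F h) = 0 • _
    rw [zero_pow (Nat.succ_ne_zero k), zero_smul]
    rfl
  | 1, k + 1, h => by
    have h1 : (fun (a : ℕ → G) (h' : G) => WS σ P 0 (fun l h'' =>
        (PL A (a :: l) ^ (k + 1) : AddMonoid.End (V (1 : ℕ → G) A)) (F h'')) h') =
        fun _ _ => 0 := by
      funext a h'
      rw [WS_zero]
      show ((0 : AddMonoid.End (V (1 : ℕ → G) A)) ^ (k + 1)) (F h') = 0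
      rw [zero_pow (Nat.succ_ne_zero k)]
      rfl
    rw [WS_succ, h1, PS_zero]
    show 0 = 0 • _
    rw [zero_smul]
  | N + 2, k + 1, h => by
    have ih1 := count P F (N + 1) (k + 1)
    have ih2 := count P F N k
    rw [WS_succ]
    simp only [WS_succ]
    have h1 : (fun (α : ℕ → G) (h' : G) => PS σ (P.getLastD 0) P (fun β h'' => WS σ P N
        (fun l h₃ => (PL A (α :: β :: l) ^ (k + 1) : AddMonoid.End (V (1 : ℕ → G) A)) (F h₃)) h'')
        h') = fun α h' => WS σ P (N + 1) (fun l h₃ =>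
          (PL A l ^ (k + 1) : AddMonoid.End (V (1 : ℕ → G) A)) (F h₃)) h' +
        ((k + 1) * cn N k) • PS σ (P.getLastD 0) P (fun β h'' =>
          WS σ P (2 * k) (fun l h₃ => Xl A (α :: β :: l) (F h₃)) h'') h' := by
      funext α h'
      have h2 : (fun (β : ℕ → G) (h'' : G) => WS σ P N (fun l h₃ =>
          (PL A (α :: β :: l) ^ (k + 1) : AddMonoid.End (V (1 : ℕ → G) A)) (F h₃)) h'') =
          fun β h'' => WS σ P N (fun l h₃ =>
            (PL A (β :: l) ^ (k + 1) : AddMonoid.End (V (1 : ℕ → G) A)) (F h₃)) h'' +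
          ((k + 1) * cn N k) • WS σ P (2 * k) (fun l h₃ => Xl A (α :: β :: l) (F h₃)) h'' := by
        funext β h''
        have h3 : (fun (l : List (ℕ → G)) (h₃ : G) =>
            (PL A (α :: β :: l) ^ (k + 1) : AddMonoid.End (V (1 : ℕ → G) A)) (F h₃)) =
            fun l h₃ => (PL A (β :: l) ^ (k + 1) : AddMonoid.End (V (1 : ℕ → G) A)) (F h₃) +
              (k + 1) • ((xlin α).comp (xlin β))
                ((PL A l ^ k : AddMonoid.End (V (1 : ℕ → G) A)) (F h₃)) := by
          funext l h₃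
          rw [PL_two_pow]
          rfl
        rw [h3, WS_add, WS_nsmul, ← WS_map, ih2, map_nsmul, WS_map, smul_smul]
        rfl
      rw [h2, PS_add, PS_nsmul]
      congr 1
    rw [h1, PS_add, PS_nsmul, PS_block σ hσ hone, ih1, cn_rec, add_smul]
    congr 2

include hσ hone in
/-- **The sum with the apex at the first vertex** -/
lemma first_sum (P : List ℕ) (Φ : V (1 : ℕ → G) A) (N k : ℕ) :
    CE σ P (N + 1) (fun l => (Lc cA l ^ k : AddMonoid.End (List (ℕ → G) → A))
      (cA (l.headD 1) (ev Φ)) []) = cn N k • CE σ P (2 * k + 1) (fun l => ev Φ l.reverse) := by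
  classical
  set F : G → V (1 : ℕ → G) A := fun h => if h = 1 then Φ else 0 with hF
  rw [CE, CE, WS_succ, WS_succ, ← PS_nsmul]
  congr 1
  funext α h₁
  have h1 : (fun (l : List (ℕ → G)) => cl (fun l => (Lc cA l ^ k :
      AddMonoid.End (List (ℕ → G) → A)) (cA (l.headD 1) (ev Φ)) []) (α :: l)) =
      fun l h' => ((evlin []).comp (xlin α))
        ((PL A l ^ k : AddMonoid.End (V (1 : ℕ → G) A)) (F h')) := by
    funext l h'
    rw [cl, hF]
    simp only
    split_ifs with hh
    · have h2 : cA (α) (ev Φ) = ev (xx A α Φ) := rfl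
      rw [List.headD_cons, h2, ← ev_Lc_pow]
      have hc : Commute (Lc (xx A) (α :: l) ^ k) (xx A α) :=
        (Lc_comm _ _ (fun β γ => P_comm β γ α) _).pow_left k
      have h3 := DFunLike.congr_fun hc.eq Φ
      have h4 := DFunLike.congr_fun (x_Lc_pow (A := A) α l k) Φ
      have h5 : (Lc (xx A) (α :: l) ^ k : AddMonoid.End (V (1 : ℕ → G) A)) (xx A α Φ) =
          xx A α ((PL A l ^ k : AddMonoid.End (V (1 : ℕ → G) A)) Φ) := h3.trans h4
      rw [h5]
      rfl
    · rw [map_zero, map_zero]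
  rw [h1, ← WS_map, count σ hσ hone P F N k, map_nsmul, WS_map]
  congr 1
  congr 1
  funext l h'
  rw [hF]
  simp only
  rw [cl]
  split_ifs with hh
  · show ev (Xl A (α :: l) Φ) [] = _
    rw [ev_Xl, List.append_nil]
  · rw [map_zero, map_zero]

end count

end Pool.Agent.W647.KN
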