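import Pool.Agent.W647.KN5

/-!
# Rotation invariant apex and divisibility
-/

set_option autoImplicit false
set_option linter.unusedSectionVars false

namespace Pool.Agent.W647.KN

open Finset Pool.Agent.W647.HV1 Pool.Agent.W647.HW1

universe u v

section words

variable {G : Type*} [Group G] {A : Type*} [Ring A] {S : Type*} (dg : S → G) (a : S → A)
  (uu : S → ℕ → G)

/-- the vertices of a word of blocks -/
def vl : G → List S → List (ℕ → G)
  | _, [] => []
  | h, s :: l => ((fun _ => h) * uu s) :: vl (h * dg s) l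

lemma vl_nil (h : G) : vl dg uu h [] = [] := rfl

lemma vl_cons (h : G) (s : S) (l : List S) :
    vl dg uu h (s :: l) = ((fun _ => h) * uu s) :: vl dg uu (h * dg s) l := rfl

lemma vl_append (h : G) (l l' : List S) :
    vl dg uu h (l ++ l') = vl dg uu h l ++ vl dg uu (h * (l.map dg).prod) l' := by
  induction l generalizing h with
  | nil => simp [vl_nil]
  | cons s l ih =>
    rw [List.cons_append, vl_cons, vl_cons, ih, List.map_cons, List.prod_cons, ← mul_assoc]
    rfl

lemma vl_trans (z h : G) (l : List S) :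
    vl dg uu (z * h) l = (vl dg uu h l).map fun a => (fun _ => z) * a := by
  induction l generalizing h with
  | nil => rfl
  | cons s l ih =>
    rw [vl_cons, vl_cons, List.map_cons, mul_assoc z h (dg s), ih]
    have h1 : ((fun _ => z * h : ℕ → G)) * uu s = (fun _ => z) * ((fun _ => h) * uu s) := by
      funext q
      exact mul_assoc _ _ _
    rw [h1]

lemma vl_length (h : G) (l : List S) : (vl dg uu h l).length = l.length := by
  induction l generalizing h with
  | nil => rfl
  | cons s l ih => rw [vl_cons, List.length_cons, List.length_cons, ih]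

lemma vl_flat (l : List S) (hl : (l.map dg).prod = 1) (q : ℕ) :
    vl dg uu 1 (List.replicate q l).flatten = (List.replicate q (vl dg uu 1 l)).flatten := by
  induction q with
  | zero => rfl
  | succ q ih =>
    rw [List.replicate_succ, List.flatten_cons, vl_append, hl, mul_one, ih, List.replicate_succ,
      List.flatten_cons]

variable {M : Type*} [AddCommGroup M]

open Classical in
/-- the weight of a closed word -/
noncomputable def FX (T : A →+ M) (N : ℕ) (Θ : List (ℕ → G) → A) (l : List S) : M :=
  if l.length = N ∧ (l.map dg).prod = 1 then T (co a l * Θ (vl dg uu 1 l)) else 0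

variable [Fintype S]

/-- **Divisibility of sums over closed words** -/
theorem orbit_dvd (T : A →+ M) (hT : ∀ x y, T (x * y) = T (y * x)) {p : ℕ} (hp : p.Prime)
    (hnt : ∀ y : G, orderOf y ≠ p) {m N : ℕ} (hN : N = p ^ m) (Θ : List (ℕ → G) → A)
    (R1 : ∀ (z : G) l, l.length = N → Θ (l.map fun a => (fun _ => z) * a) = Θ l)
    (R2 : ∀ l l', (l ++ l').length = N → Θ (l ++ l') = Θ (l' ++ l))
    (R3 : ∀ l b, b * Θ l = Θ l * b)
    (R4 : ∀ l q, ((List.replicate q l).flatten).length = N →
      ∃ y, Θ (List.replicate q l).flatten = q • y) :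
    ∃ y : M, ∑ w : Fin N → S, FX dg a uu T N Θ (List.ofFn w) = N • y := by
  classical
  have hN0 : N ≠ 0 := by rw [hN]; exact pow_ne_zero _ hp.ne_zero
  have : NeZero N := ⟨hN0⟩
  obtain ⟨y, hy⟩ := cyc_sum (fun v : FreeMonoid S => FX dg a uu T N Θ (FreeMonoid.toList v))
    (fun u v => by
      show FX dg a uu T N Θ (FreeMonoid.toList (u * v)) =
        FX dg a uu T N Θ (FreeMonoid.toList (v * u))
      rw [FreeMonoid.toList_mul, FreeMonoid.toList_mul]
      set l := FreeMonoid.toList u
      set l' := FreeMonoid.toList v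
      rw [FX, FX]
      have e1 : (l ++ l').length = (l' ++ l).length := by
        rw [List.length_append, List.length_append, add_comm]
      have e2 : ((l ++ l').map dg).prod = 1 ↔ ((l' ++ l).map dg).prod = 1 := by
        rw [List.map_append, List.map_append, List.prod_append, List.prod_append,
          mul_eq_one_iff_eq_inv, mul_eq_one_iff_inv_eq, eq_comm]
      by_cases hc : (l ++ l').length = N ∧ ((l ++ l').map dg).prod = 1
      · have hc' : (l' ++ l).length = N ∧ ((l' ++ l).map dg).prod = 1 :=
          ⟨e1 ▸ hc.1, e2.1 hc.2⟩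
        rw [if_pos hc, if_pos hc']
        have e3 : (l.map dg).prod * (l'.map dg).prod = 1 := by
          rw [← List.prod_append, ← List.map_append]; exact hc.2
        have e4 : (l'.map dg).prod * (l.map dg).prod = 1 := by
          rw [← List.prod_append, ← List.map_append]; exact hc'.2
        have e5 : Θ (vl dg uu 1 (l ++ l')) = Θ (vl dg uu 1 (l' ++ l)) := by
          rw [vl_append, one_mul, R2 _ _ (by
            rw [List.length_append, vl_length, vl_length, ← List.length_append]; exact hc.1)]
          have e6 : vl dg uu 1 (l' ++ l) = (vl dg uu (l.map dg).prod l' ++ vl dg uu 1 l).map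
              fun a => (fun _ => (l'.map dg).prod) * a := by
            rw [vl_append, List.map_append, ← vl_trans, ← vl_trans, e4, mul_one, one_mul]
          rw [e6, R1]
          rw [List.length_append, vl_length, vl_length, ← List.length_append]; exact hc'.1
        rw [e5, co_append, co_append, mul_assoc, hT, mul_assoc, ← R3, ← mul_assoc]
      · have hc' : ¬ ((l' ++ l).length = N ∧ ((l' ++ l).map dg).prod = 1) := fun h =>
          hc ⟨e1 ▸ h.1, e2.2 h.2⟩
        rw [if_neg hc, if_neg hc']) N ((nsmulAddMonoidHom (α := M) N).range)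
    (fun u d q hdq hu => by
      show d • FX dg a uu T N Θ (FreeMonoid.toList (u ^ q)) ∈ _
      rw [toList_pow]
      set l := FreeMonoid.toList u
      rw [FX]
      split_ifs with hc
      · have hq : q ≠ 0 := by
          rintro rfl
          rw [mul_zero] at hdq
          exact hN0 hdq.symm
        have h1 : (l.map dg).prod ^ q = 1 := by
          rw [← hc.2, prod_flat, List.prod_flatten, List.map_replicate, List.prod_replicate]
        have h2 : (l.map dg).prod = 1 := by
          obtain ⟨j, _, hj⟩ := (Nat.dvd_prime_pow hp).1 (show q ∣ p ^ m from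
            ⟨d, by rw [← hN, ← hdq, mul_comm]⟩)
          rw [hj] at h1
          have h3 := root_mem hp hnt (g := (1 : G)) IsOfFinOrder.one j (l.map dg).prod (by
            rw [h1]; exact Subgroup.one_mem _)
          rwa [Subgroup.zpowers_one_eq_bot, Subgroup.mem_bot] at h3
        have h4 : vl dg uu 1 (List.replicate q l).flatten =
          (List.replicate q (vl dg uu 1 l)).flatten := vl_flat dg uu l h2 q
        obtain ⟨y, hy⟩ := R4 (vl dg uu 1 l) q (by rw [← h4, vl_length]; exact hc.1)
        refine ⟨T (co a (List.replicate q l).flatten * y), ?_⟩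
        show N • (T (co a (List.replicate q l).flatten * y) : M) = _
        rw [h4, hy, mul_smul_comm, map_nsmul, smul_smul, hdq]
      · rw [smul_zero]
        exact AddSubgroup.zero_mem _)
  exact ⟨y, hy.symm⟩

variable {X : Type*} [AddCommGroup X] [Module A X]

/-- sums over words -/
lemma words_sum (B : ((ℕ → G) → G → X) → G → X)
    (hB : ∀ Ψ h, B Ψ h = ∑ s : S, a s • Ψ ((fun _ => h) * uu s) (h * dg s))
    (W : ℕ → (List (ℕ → G) → G → X) → G → X) (hW0 : ∀ Ψ h, W 0 Ψ h = Ψ [] h)
    (hW : ∀ N Ψ h, W (N + 1) Ψ h = B (fun a h' => W N (fun l => Ψ (a :: l)) h') h) (N : ℕ)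
    (Ψ : List (ℕ → G) → G → X) (h : G) :
    W N Ψ h = ∑ w : Fin N → S, co a (List.ofFn w) •
      Ψ (vl dg uu h (List.ofFn w)) (h * ((List.ofFn w).map dg).prod) := by
  induction N generalizing Ψ h with
  | zero => simp [hW0, co, vl_nil]
  | succ N ih =>
    rw [hW, hB, sum_words_succ (F := fun l => co a l • Ψ (vl dg uu h l) (h * (l.map dg).prod))]
    refine Finset.sum_congr rfl fun s _ => ?_
    rw [ih, Finset.smul_sum]
    refine Finset.sum_congr rfl fun w _ => ?_
    rw [co_cons, mul_smul, vl_cons, List.map_cons, List.prod_cons, mul_assoc]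

end words

section blocks

variable {G : Type u} [Group G] {A : Type*} [Ring A] (σ : ℕ → ℕ → MonoidAlgebra A G) (S : Finset G)

/-- the words of one block -/
def Bt (S : Finset G) : List ℕ → Type u
  | [] => PUnit.{u + 1}
  | _ :: P => S × Bt S P

/-- finitely many words -/
@[instance_reducible]
noncomputable def Bt.fin (S : Finset G) : (P : List ℕ) → Fintype (Bt S P)
  | [] => inferInstanceAs (Fintype PUnit.{u + 1})
  | _ :: P => by
      have := Bt.fin S P
      exact inferInstanceAs (Fintype (S × Bt S P))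

noncomputable instance (S : Finset G) (P : List ℕ) : Fintype (Bt S P) := Bt.fin S P

/-- the weight -/
noncomputable def bw : ℕ → (P : List ℕ) → Bt S P → A
  | _, [], _ => 1
  | i, p :: P, t => (σ i p).coeff (t.1 : G) * bw p P t.2

/-- the product -/
def bq : (P : List ℕ) → Bt S P → G
  | [], _ => 1
  | _ :: P, t => (t.1 : G) * bq P t.2

/-- the vertices -/
def bu : (P : List ℕ) → Bt S P → ℕ → G
  | [], _ => fun _ => 1
  | p :: P, t => Function.update ((fun _ => (t.1 : G)) * bu P t.2) p (t.1 : G)

variable {X : Type*} [AddCommGroup X] [Module A X]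

lemma PS_formula (hS : ∀ i j, (σ i j).coeff.support ⊆ S) (i : ℕ) (P : List ℕ)
    (Ψ : (ℕ → G) → G → X) (h : G) : PS σ i P Ψ h =
      ∑ t : Bt S P, bw σ S i P t • Ψ ((fun _ => h) * bu S P t) (h * bq S P t) := by
  induction P generalizing i Ψ h with
  | nil =>
    have h1 : ∑ t : Bt S [], bw σ S i [] t • Ψ ((fun _ => h) * bu S [] t) (h * bq S [] t) =
      ∑ _t : PUnit.{u + 1}, (1 : A) • Ψ ((fun _ => h) * fun _ => 1) (h * 1) := rfl
    rw [h1, PS_nil]
    simp
    congr 1
    funext p
    simp
  | cons p P ih =>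
    have h1 : ∑ t : Bt S (p :: P), bw σ S i (p :: P) t • Ψ ((fun _ => h) * bu S (p :: P) t)
        (h * bq S (p :: P) t) = ∑ t : S × Bt S P, ((σ i p).coeff (t.1 : G) * bw σ S p P t.2) •
          Ψ ((fun _ => h) * Function.update ((fun _ => (t.1 : G)) * bu S P t.2) p (t.1 : G))
          (h * ((t.1 : G) * bq S P t.2)) := rfl
    rw [h1, PS_cons, Ep_apply _ _ _ S (hS i p), Fintype.sum_prod_type, ← Finset.sum_coe_sort S]
    refine Finset.sum_congr rfl fun s _ => ?_
    rw [ih, Finset.smul_sum]
    refine Finset.sum_congr rfl fun t _ => ?_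
    have h2 : ((fun _ => h * (s : G) : ℕ → G)) * bu S P t =
        (fun _ => h) * ((fun _ => (s : G)) * bu S P t) := by
      funext q
      exact mul_assoc _ _ _
    rw [mul_smul, ← upd_trans, ← mul_assoc h, h2]

end blocks

section apexchoice

variable {G : Type*} [Group G] {A : Type*} [AddCommGroup A]

/-- the rotation invariant apex -/
noncomputable def kX (N : ℕ) (l : List (ℕ → G)) : ℕ → G :=
  fun p => Xc (1 : G) N fun b => (l.getD (b % N) 1) p

lemma isCol_getD (N : ℕ) (l : List (ℕ → G)) (p : ℕ) :
    IsCol (1 : G) N fun b => (l.getD (b % N) 1) p := by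
  intro b
  show (l.getD ((b + N) % N) 1) p = 1 * (l.getD (b % N) 1) p
  rw [Nat.add_mod_right, one_mul]

variable {p : ℕ} (hp : p.Prime) (hnt : ∀ y : G, orderOf y ≠ p) {m N : ℕ} (hN : N = p ^ m)

include hp hnt hN in
lemma kX_trans (z : G) (l : List (ℕ → G)) (hl : l.length = N) :
    kX N (l.map fun a => (fun _ => z) * a) = (fun _ => z) * kX N l := by
  have hN0 : 0 < N := by rw [hN]; exact pow_pos hp.pos _
  funext q
  obtain ⟨i, hi⟩ := Xc_spec hp hnt (g := (1 : G)) IsOfFinOrder.one hN (isCol_getD N l q) z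
    (by rw [mul_one, one_mul]) 0
    (fun b => ((l.map fun a : ℕ → G => (fun _ => z) * a).getD (b % N) (1 : ℕ → G)) q)
    (fun b => by
      have hb : b % N < l.length := by rw [hl]; exact Nat.mod_lt _ hN0
      simp only [List.getD_eq_getElem?_getD, add_zero]
      rw [List.getElem?_map, List.getElem?_eq_getElem hb]
      rfl)
  rw [one_zpow, one_mul] at hi
  exact hi

include hp hnt hN in
lemma kX_rot (l l' : List (ℕ → G)) (hl : (l ++ l').length = N) :
    kX N (l' ++ l) = kX N (l ++ l') := by
  have hN0 : 0 < N := by rw [hN]; exact pow_pos hp.pos _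
  rw [List.length_append] at hl
  funext q
  obtain ⟨i, hi⟩ := Xc_spec hp hnt (g := (1 : G)) IsOfFinOrder.one hN (isCol_getD N (l ++ l') q) 1
    (by rw [mul_one]) l.length (fun b => ((l' ++ l).getD (b % N) 1) q) (fun b => by
      rw [one_mul]
      have hb : b % N < N := Nat.mod_lt _ hN0
      have e1 : (b + l.length) % N = (b % N + l.length) % N := by rw [Nat.mod_add_mod]
      rw [e1]
      set b' := b % N
      simp only [List.getD_eq_getElem?_getD]
      rcases Nat.lt_or_ge b' l'.length with h1 | h1
      · rw [List.getElem?_append_left h1, Nat.mod_eq_of_lt (by omega),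
          List.getElem?_append_right (by omega), Nat.add_sub_cancel]
      · have e2 : (b' + l.length) % N = b' - l'.length := by
          have e3 : b' + l.length = (b' - l'.length) + N := by omega
          rw [e3, Nat.add_mod_right, Nat.mod_eq_of_lt (by omega)]
        rw [e2, List.getElem?_append_right h1, List.getElem?_append_left (by omega)])
  rw [one_zpow, one_mul, one_mul] at hi
  exact hi

/-- the value with the rotation invariant apex -/
noncomputable def TX (k N : ℕ) (Φ : List (ℕ → G) → A) (l : List (ℕ → G)) : A :=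
  (Lc cA l ^ k : AddMonoid.End (List (ℕ → G) → A)) (cA (kX N l) Φ) []

include hp hnt hN in
lemma TX_R1 (k : ℕ) (Φ : List (ℕ → G) → A)
    (hΦ : ∀ (z : G) l, Φ (l.map fun a => (fun _ => z) * a) = Φ l) (z : G) (l : List (ℕ → G))
    (hl : l.length = N) : TX k N Φ (l.map fun a => (fun _ => z) * a) = TX k N Φ l := by
  rw [TX, TX, kX_trans hp hnt hN z l hl]
  have h1 := congrFun (Lc_pow_pull (fun a : ℕ → G => (fun _ => z) * a) l k
    (cA ((fun _ => z) * kX N l) Φ)) []
  rw [List.map_nil] at h1
  rw [h1]
  have h2 : (fun m' : List (ℕ → G) =>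
      cA ((fun _ => z) * kX N l) Φ (m'.map fun a => (fun _ => z) * a)) = cA (kX N l) Φ := by
    funext m'
    exact hΦ z (kX N l :: m')
  rw [h2]

include hp hnt hN in
lemma TX_R2 (k : ℕ) (Φ : List (ℕ → G) → A) (l l' : List (ℕ → G)) (hl : (l ++ l').length = N) :
    TX k N Φ (l ++ l') = TX k N Φ (l' ++ l) := by
  rw [TX, TX, kX_rot hp hnt hN l l' hl, Lc_rot]

lemma TX_R4 (k : ℕ) (Φ : List (ℕ → G) → A) (l : List (ℕ → G)) (q : ℕ) :
    ∃ y, TX (k + 1) N Φ (List.replicate q l).flatten = q • y := by
  obtain ⟨L'', hL''⟩ := nsmul_pow_div q (Lc (cA : (ℕ → G) → AddMonoid.End (List (ℕ → G) → A)) l) k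
  rw [TX, Lc_flat, hL'']
  exact ⟨L'' (cA (kX N (List.replicate q l).flatten) Φ) [], rfl⟩

end apexchoice

section total

variable {G : Type u} [Group G] {A : Type*} [Ring A] (σ : ℕ → ℕ → MonoidAlgebra A G)
  {M : Type*} [AddCommGroup M]

/-- **Divisibility for the rotation invariant apex** -/
theorem CE_dvd (T : A →+ M) (hT : ∀ x y, T (x * y) = T (y * x)) {p : ℕ} (hp : p.Prime)
    (hnt : ∀ y : G, orderOf y ≠ p) {m N : ℕ} (hN : N = p ^ m) (S : Finset G)
    (hS : ∀ i j, (σ i j).coeff.support ⊆ S) (P : List ℕ) (k : ℕ) (Φ : List (ℕ → G) → A)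
    (hΦ : ∀ (z : G) l, Φ (l.map fun a => (fun _ => z) * a) = Φ l)
    (hcen : ∀ l b, b * Φ l = Φ l * b) :
    ∃ y : M, T (CE σ P N (TX (k + 1) N Φ)) = N • y := by
  classical
  have hR3 : ∀ l b, b * TX (k + 1) N Φ l = TX (k + 1) N Φ l * b := by
    let K : AddSubgroup A :=
      { carrier := {a | ∀ b, b * a = a * b}
        zero_mem' := fun b => by rw [mul_zero, zero_mul]
        add_mem' := fun ha hb b => by rw [mul_add, add_mul, ha, hb]
        neg_mem' := fun ha b => by rw [mul_neg, neg_mul, ha] }
    intro l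
    exact Lc_pow_mem K l (k + 1) _ (fun m' => hcen _) []
  obtain ⟨y, hy⟩ := orbit_dvd (bq S P) (bw σ S (P.getLastD 0) P) (bu S P) T hT hp hnt hN
    (TX (k + 1) N Φ) (fun z l hl => TX_R1 hp hnt hN (k + 1) Φ hΦ z l hl)
    (fun l l' hl => TX_R2 hp hnt hN (k + 1) Φ l l' hl) hR3
    (fun l q _ => TX_R4 k Φ l q)
  refine ⟨y, ?_⟩
  rw [← hy, CE, words_sum (bq S P) (bw σ S (P.getLastD 0) P) (bu S P) (PS σ (P.getLastD 0) P)
    (fun Ψ h => PS_formula σ S hS _ P Ψ h) (WS σ P) (fun Ψ h => WS_zero σ P Ψ h)
    (fun N Ψ h => WS_succ σ P N Ψ h) N, map_sum]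
  refine Finset.sum_congr rfl fun w _ => ?_
  rw [FX, cl, one_mul, List.length_ofFn, smul_eq_mul]
  by_cases h1 : ((List.ofFn w).map (bq S P)).prod = 1
  · rw [if_pos h1, if_pos ⟨rfl, h1⟩]
  · rw [if_neg h1, if_neg (fun h => h1 h.2), mul_zero, map_zero]

end total

end Pool.Agent.W647.KN
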