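import Pool.Agent.W647.KN6
import Pool.Agent.W647.HZ1

/-!
# Faces of simplices and cycles
-/

set_option autoImplicit false
set_option linter.unusedSectionVars false

namespace Pool.Agent.W647.KN

open Finset Pool.Agent.W647.HV1 Pool.Agent.W647.HW1

universe u

section congr

variable {G : Type*} [Group G] {A : Type*} [Ring A] {X : Type*} [AddCommGroup X] [Module A X]
  (σ σ' : ℕ → ℕ → MonoidAlgebra A G)

lemma PS_congr (i : ℕ) (P : List ℕ) (h1 : ∀ x y, (x = i ∨ x ∈ P) → y ∈ P → σ x y = σ' x y)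
    (Ψ : (ℕ → G) → G → X) (h : G) : PS σ i P Ψ h = PS σ' i P Ψ h := by
  induction P generalizing i Ψ h with
  | nil => rw [PS_nil, PS_nil]
  | cons p P ih =>
    rw [PS_cons, PS_cons, h1 i p (Or.inl rfl) (List.mem_cons_self ..)]
    refine Ep_congr _ _ _ (fun h' => ?_) _
    refine ih p (fun x y hx hy => h1 x y (Or.inr ?_) (List.mem_cons_of_mem _ hy)) _ _
    rcases hx with hx | hx
    · rw [hx]; exact List.mem_cons_self ..
    · exact List.mem_cons_of_mem _ hx

lemma getLastD_mem (P : List ℕ) (hP : P ≠ []) (d : ℕ) : P.getLastD d ∈ P := by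
  induction P generalizing d with
  | nil => exact absurd rfl hP
  | cons p P ih =>
    rw [List.getLastD_cons]
    by_cases h : P = []
    · subst h
      simp
    · exact List.mem_cons_of_mem _ (ih h p)

lemma WS_congr_σ (P : List ℕ) (hP : P ≠ []) (h1 : ∀ x ∈ P, ∀ y ∈ P, σ x y = σ' x y) (N : ℕ)
    (Ψ : List (ℕ → G) → G → X) (h : G) : WS σ P N Ψ h = WS σ' P N Ψ h := by
  induction N generalizing Ψ h with
  | zero => rw [WS_zero, WS_zero]
  | succ N ih =>
    rw [WS_succ, WS_succ, PS_congr σ σ' _ P]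
    · simp only [ih]
    · intro x y hx hy
      refine h1 x ?_ y hy
      rcases hx with hx | hx
      · rw [hx]; exact getLastD_mem P hP 0
      · exact hx

lemma WS_congr (P : List ℕ) (N : ℕ) (Ψ Ψ' : List (ℕ → G) → G → X) (h : G)
    (hΨ : ∀ l h', l.length = N → Ψ l h' = Ψ' l h') : WS σ P N Ψ h = WS σ P N Ψ' h := by
  induction N generalizing Ψ Ψ' h with
  | zero => rw [WS_zero, WS_zero]; exact hΨ [] h rfl
  | succ N ih =>
    rw [WS_succ, WS_succ]
    congr 1
    funext a h'
    exact ih _ _ _ (fun l h'' hl => hΨ _ _ (by rw [List.length_cons, hl]))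

lemma cl_add (Θ Θ' : List (ℕ → G) → A) :
    cl (fun l => Θ l + Θ' l) = fun l h => cl Θ l h + cl Θ' l h := by
  funext l h
  rw [cl, cl, cl]
  split_ifs
  · rfl
  · rw [add_zero]

/-- as a homomorphism -/
noncomputable def CEh (P : List ℕ) (N : ℕ) : (List (ℕ → G) → A) →+ A where
  toFun Θ := CE σ P N Θ
  map_zero' := by
    have h1 : cl (0 : List (ℕ → G) → A) = 0 := by
      funext l h
      rw [cl]
      split_ifs
      · rfl
      · rfl
    show CE σ P N 0 = 0
    rw [CE, h1]
    exact (WSh σ P N 1).map_zero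
  map_add' Θ Θ' := by
    show CE σ P N (fun l => Θ l + Θ' l) = CE σ P N Θ + CE σ P N Θ'
    rw [CE, cl_add, WS_add]
    rfl

lemma CEh_apply (P : List ℕ) (N : ℕ) (Θ : List (ℕ → G) → A) : CEh σ P N Θ = CE σ P N Θ := rfl

lemma CE_zero (P : List ℕ) (N : ℕ) : CE σ P N (fun _ => 0) = 0 := (CEh σ P N).map_zero

lemma CE_congr (P : List ℕ) (N : ℕ) (Θ Θ' : List (ℕ → G) → A)
    (h : ∀ l, l.length = N → Θ l = Θ' l) : CE σ P N Θ = CE σ P N Θ' := by
  rw [CE, CE]
  refine WS_congr σ P N _ _ _ fun l h' hl => ?_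
  rw [cl, cl, h l hl]

lemma CE_sub (P : List ℕ) (N : ℕ) (Θ Θ' : List (ℕ → G) → A) :
    CE σ P N (fun l => Θ l - Θ' l) = CE σ P N Θ - CE σ P N Θ' := (CEh σ P N).map_sub Θ Θ'

lemma CE_dl (P : List ℕ) (N : ℕ) {Z : Type*} (Q : List Z) (F : List Z → List (ℕ → G) → A) :
    CE σ P N (fun l => dl Q (fun Q' => F Q' l)) = dl Q (fun Q' => CE σ P N (F Q')) := by
  have h1 : (fun l => dl Q (fun Q' => F Q' l)) = dl Q F := by
    funext l
    exact (dl_map (Pi.evalAddMonoidHom (fun _ : List (ℕ → G) => A) l) Q F).symm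
  rw [h1]
  exact dl_map (CEh σ P N) Q F

end congr

section faces

variable {G : Type*} [Group G] {A : Type*} [Ring A] (σ : ℕ → ℕ → MonoidAlgebra A G)
  {M : Type*} [AddCommGroup M]

lemma face (hσ : ∀ i j k, σ i j * σ j k = σ i k) (T : A →+ M) (hT : ∀ x y, T (x * y) = T (y * x))
    (P : List ℕ) (hP : P.Nodup) (N : ℕ) (Θ : List ℕ → List (ℕ → G) → A)
    (hΘ : ∀ P' (z : G) l, Θ P' (l.map fun a => (fun _ => z) * a) = Θ P' l)
    (hcen : ∀ P' l b, b * Θ P' l = Θ P' l * b) (hdep : ∀ P', DepL P' (Θ P'))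
    (hnil : ∀ l, Θ [] l = 0) :
    dl P (fun P' => T (CE σ P N (Θ P'))) = dl P (fun P' => T (CE σ P' N (Θ P'))) := by
  rw [dl_eq_sum, dl_eq_sum]
  refine Finset.sum_congr rfl fun j hj => ?_
  rw [mem_range] at hj
  congr 1
  rcases Nat.lt_or_ge (j + 1) P.length with h1 | h1
  · congr 1
    rw [CE, CE]
    refine WS_erase σ hσ P j h1 hP N _ ?_ 1
    intro l l' hl
    funext h
    rw [cl, cl, hdep _ l l' hl]
  · rcases List.eq_nil_or_concat P with h2 | ⟨Q, q, h2⟩
    · subst h2
      simp at hj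
    · rw [List.concat_eq_append] at h2
      subst h2
      have h3 : j = Q.length := by
        rw [List.length_append, List.length_singleton] at hj h1
        omega
      have h4 : (Q ++ [q]).eraseIdx j = Q := by
        rw [List.eraseIdx_append_of_length_le (by omega), h3, Nat.sub_self]
        simp
      rw [h4]
      by_cases hQ : Q = []
      · subst hQ
        have h5 : Θ [] = fun _ => 0 := funext hnil
        rw [h5, CE_zero, CE_zero]
      · refine CE_last σ hσ T hT (Θ Q) (hΘ Q) (hcen Q) Q hQ q ?_ (hdep Q) N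
        intro hq
        have h6 := List.nodup_append.1 hP
        exact h6.2.2 q hq q (List.mem_singleton_self q) rfl

end faces

section QQ

variable {G : Type*} [Group G] {A : Type*} [Ring A]

/-- the values for the faces -/
noncomputable def QQ (k N : ℕ) (φ : List G → A) (P : List ℕ) (l : List (ℕ → G)) : A :=
  if l.length = N then (Lc cA l ^ k : AddMonoid.End (List (ℕ → G) → A))
    (cA (kX N l) (cA (l.headD 1) (Pg k φ P))) [] else 0

lemma Pg_dep (k : ℕ) (φ : List G → A) (P : List ℕ) (l l' : List (ℕ → G))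
    (h : List.Forall₂ (fun a a' => ∀ p ∈ P, a p = a' p) l l') : Pg k φ P l = Pg k φ P l' := by
  classical
  set rs : (ℕ → G) → (ℕ → G) := fun a p => if p ∈ P then a p else 1 with hrs
  have h1 : ∀ a, ∀ p ∈ P, rs a p = a p := fun a p hp => by rw [hrs]; simp only; rw [if_pos hp]
  have h2 : l.map rs = l'.map rs := by
    induction h with
    | nil => rfl
    | cons hab _ ih =>
      rw [List.map_cons, List.map_cons, ih]
      congr 1
      funext p
      rw [hrs]
      simp only
      split_ifs with hp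
      · exact hab p hp
      · rfl
  rw [← Pg_fix rs k φ P l h1, h2, Pg_fix rs k φ P l' h1]

lemma getD_map_one {f : (ℕ → G) → (ℕ → G)} (l : List (ℕ → G)) (j : ℕ) :
    (l.map f).getD j (f 1) = f (l.getD j 1) := by
  simp only [List.getD_eq_getElem?_getD]
  rw [List.getElem?_map]
  cases l[j]? with
  | none => rfl
  | some a => rfl

lemma QQ_dep (k N : ℕ) (φ : List G → A) (P : List ℕ) : DepL P (QQ k N φ P) := by
  classical
  intro l l' hl
  set rs : (ℕ → G) → (ℕ → G) := fun a p => if p ∈ P then a p else 1 with hrs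
  have h1 : ∀ a, ∀ p ∈ P, rs a p = a p := fun a p hp => by rw [hrs]; simp only; rw [if_pos hp]
  have h2 : l.map rs = l'.map rs := by
    induction hl with
    | nil => rfl
    | cons hab _ ih =>
      rw [List.map_cons, List.map_cons, ih]
      congr 1
      funext p
      rw [hrs]
      simp only
      split_ifs with hp
      · exact hab p hp
      · rfl
  have h0 : rs 1 = 1 := by
    funext p
    rw [hrs]
    simp
  have key : ∀ l : List (ℕ → G), QQ k N φ P (l.map rs) = QQ k N φ P l := by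
    intro l
    rw [QQ, QQ, List.length_map]
    split_ifs with hlN
    · have h3 := congrFun (Lc_pow_pull rs l k
        (cA (kX N (l.map rs)) (cA ((l.map rs).headD 1) (Pg k φ P)))) []
      rw [List.map_nil] at h3
      rw [h3]
      have h4 : (fun m' : List (ℕ → G) =>
          cA (kX N (l.map rs)) (cA ((l.map rs).headD 1) (Pg k φ P)) (m'.map rs)) =
          cA (kX N l) (cA (l.headD 1) (Pg k φ P)) := by
        funext m'
        show Pg k φ P ((l.map rs).headD 1 :: kX N (l.map rs) :: m'.map rs) =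
          Pg k φ P (l.headD 1 :: kX N l :: m')
        refine Pg_dep k φ P _ _ (List.Forall₂.cons ?_ (List.Forall₂.cons ?_ ?_))
        · intro p hp
          cases l with
          | nil => rfl
          | cons a l => exact h1 a p hp
        · intro p hp
          show Xc (1 : G) N (fun b => ((l.map rs).getD (b % N) 1) p) =
            Xc (1 : G) N (fun b => (l.getD (b % N) 1) p)
          congr 1
          funext b
          have h5 := getD_map_one (f := rs) l (b % N)
          rw [h0] at h5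
          rw [h5, h1 _ p hp]
        · rw [List.forall₂_map_left_iff]
          exact List.forall₂_same.2 fun a _ p hp => h1 a p hp
      rw [h4]
    · rfl
  rw [← key l, h2, key l']

lemma QQ_relabel (ρ : ℕ → ℕ) (k N : ℕ) (φ : List G → A) (P : List ℕ) (l : List (ℕ → G)) :
    QQ k N φ (P.map ρ) l = QQ k N φ P (l.map fun a => a ∘ ρ) := by
  rw [QQ, QQ, List.length_map]
  split_ifs with hlN
  · have h3 := congrFun (Lc_pow_pull (fun a : ℕ → G => a ∘ ρ) l k
      (cA (kX N (l.map fun a => a ∘ ρ)) (cA ((l.map fun a => a ∘ ρ).headD 1) (Pg k φ P)))) []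
    rw [List.map_nil] at h3
    rw [h3]
    have h4 : (fun m' : List (ℕ → G) =>
        cA (kX N (l.map fun a => a ∘ ρ)) (cA ((l.map fun a => a ∘ ρ).headD 1) (Pg k φ P))
          (m'.map fun a => a ∘ ρ)) = cA (kX N l) (cA (l.headD 1) (Pg k φ (P.map ρ))) := by
      funext m'
      show Pg k φ P ((l.map fun a => a ∘ ρ).headD 1 :: kX N (l.map fun a => a ∘ ρ) ::
        m'.map fun a => a ∘ ρ) = Pg k φ (P.map ρ) (l.headD 1 :: kX N l :: m')
      rw [Pg_relabel]
      have h5 : (l.map fun a => a ∘ ρ).headD 1 = (l.headD 1) ∘ ρ := by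
        cases l with
        | nil => rfl
        | cons a l => rfl
      have h6 : kX N (l.map fun a => a ∘ ρ) = (kX N l) ∘ ρ := by
        funext p
        show Xc (1 : G) N (fun b => ((l.map fun a : ℕ → G => a ∘ ρ).getD (b % N) 1) p) =
          Xc (1 : G) N (fun b => (l.getD (b % N) 1) (ρ p))
        congr 1
        funext b
        have h7 := getD_map_one (f := fun a : ℕ → G => a ∘ ρ) l (b % N)
        have h8 : ((1 : ℕ → G) ∘ ρ) = 1 := rfl
        simp only [h8] at h7
        rw [h7]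
        rfl
      rw [h5, h6]
      rfl
    rw [h4]
  · rfl

variable {p : ℕ} (hp : p.Prime) (hnt : ∀ y : G, orderOf y ≠ p) {m N : ℕ} (hN : N = p ^ m)

include hp hnt hN in
lemma QQ_trans (k : ℕ) (φ : List G → A) (hφ : ∀ (z : G) v, φ (v.map fun a => z * a) = φ v)
    (P : List ℕ) (z : G) (l : List (ℕ → G)) :
    QQ k N φ P (l.map fun a => (fun _ => z) * a) = QQ k N φ P l := by
  rw [QQ, QQ, List.length_map]
  split_ifs with hlN
  · rw [kX_trans hp hnt hN z l hlN]
    have hl : l ≠ [] := by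
      rintro rfl
      rw [List.length_nil] at hlN
      exact (pow_ne_zero m hp.ne_zero) (hN.symm.trans hlN.symm)
    have h1 : (l.map fun a => (fun _ => z) * a).headD 1 = (fun _ => z) * l.headD 1 := by
      cases l with
      | nil => exact absurd rfl hl
      | cons a l => rfl
    rw [h1]
    have h3 := congrFun (Lc_pow_pull (fun a : ℕ → G => (fun _ => z) * a) l k
      (cA ((fun _ => z) * kX N l) (cA ((fun _ => z) * l.headD 1) (Pg k φ P)))) []
    rw [List.map_nil] at h3
    rw [h3]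
    have h4 : (fun m' : List (ℕ → G) =>
        cA ((fun _ => z) * kX N l) (cA ((fun _ => z) * l.headD 1) (Pg k φ P))
          (m'.map fun a => (fun _ => z) * a)) = cA (kX N l) (cA (l.headD 1) (Pg k φ P)) := by
      funext m'
      exact Pg_trans z k φ (hφ z) P (l.headD 1 :: kX N l :: m')
    rw [h4]
  · rfl

lemma QQ_mem (K : AddSubgroup A) (k N : ℕ) (φ : List G → A) (hφ : ∀ v, φ v ∈ K) (P : List ℕ)
    (l : List (ℕ → G)) : QQ k N φ P l ∈ K := by
  rw [QQ]
  split_ifs
  · exact Lc_pow_mem K l k _ (fun m' => Pg_mem K k φ hφ P _) []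
  · exact K.zero_mem

lemma QQ_nil (k N : ℕ) (φ : List G → A) (l : List (ℕ → G)) : QQ k N φ [] l = 0 := by
  rw [QQ]
  split_ifs
  · have h1 : cA (kX N l) (cA (l.headD 1) (Pg k φ [])) = 0 := by
      funext m'
      exact Pg_nil k φ _
    rw [h1, map_zero]
    rfl
  · rfl

end QQ

section center

/-- the centre -/
def Zs (A : Type*) [Ring A] : AddSubgroup A where
  carrier := {a | ∀ b, b * a = a * b}
  zero_mem' := fun b => by rw [mul_zero, zero_mul]
  add_mem' := fun ha hb b => by rw [mul_add, add_mul, ha, hb]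
  neg_mem' := fun ha b => by rw [mul_neg, neg_mul, ha]

lemma mem_Zs {A : Type*} [Ring A] (a : A) : a ∈ Zs A ↔ ∀ b, b * a = a * b := Iff.rfl

end center

section combine

variable {G : Type u} [Group G] {A : Type*} [Ring A] {M : Type*} [AddCommGroup M]

/-- the value of one simplex -/
noncomputable def Vx (σ : ℕ → ℕ → MonoidAlgebra A G) (T : A →+ M) (k : ℕ) (φ : List G → A)
    (P : List ℕ) : M := T (CE σ P (2 * k + 1) (fun l => Ph k φ P l.reverse))

variable (σ : ℕ → ℕ → MonoidAlgebra A G) (hσ : ∀ i j k, σ i j * σ j k = σ i k)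
  (hone : ∀ i, σ i i = 1) (T : A →+ M) (hT : ∀ x y, T (x * y) = T (y * x))
  (φ : List G → A) (hφ : ∀ v, dl v φ = 0) (hφG : ∀ (z : G) v, φ (v.map fun a => z * a) = φ v)
  (hcen : ∀ v b, b * φ v = φ v * b)

include hσ hone hT hφ hφG hcen in
/-- **The value of one simplex** -/
theorem one_simplex {p : ℕ} (hp : p.Prime) (hnt : ∀ y : G, orderOf y ≠ p) {m N : ℕ}
    (hN : N + 1 = p ^ m) (P : List ℕ) (hP : P.Nodup) (S : Finset G)
    (hS : ∀ i j, (σ i j).coeff.support ⊆ S) (k : ℕ) :
    ∃ y : M, cn N (k + 1) • Vx σ T (k + 1) φ P =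
      (N + 1) • y + dl P (fun P' => T (CE σ P' (N + 1) (QQ (k + 1) (N + 1) φ P'))) := by
  obtain ⟨y, hy⟩ := CE_dvd σ T hT hp hnt hN S hS P k (Ph (k + 1) φ P)
    (fun z l => Ph_trans z (k + 1) φ (hφG z) P l)
    (fun l => Ph_mem (Zs A) (k + 1) φ (fun v => (mem_Zs _).2 (hcen v)) P l)
  refine ⟨y, ?_⟩
  rw [← hy, Vx, ← map_nsmul]
  have h1 := first_sum σ hσ hone P (⟨Ph (k + 1) φ P, Ph_VS (k + 1) φ P⟩ : V (1 : ℕ → G) A) N (k + 1)
  have h2 : ev (⟨Ph (k + 1) φ P, Ph_VS (k + 1) φ P⟩ : V (1 : ℕ → G) A) = Ph (k + 1) φ P := rfl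
  rw [h2] at h1
  rw [← h1, ← face σ hσ T hT P hP (N + 1) (QQ (k + 1) (N + 1) φ)
    (fun P' z l => QQ_trans hp hnt hN (k + 1) φ hφG P' z l)
    (fun P' l => QQ_mem (Zs A) (k + 1) (N + 1) φ (fun v => (mem_Zs _).2 (hcen v)) P' l)
    (fun P' => QQ_dep _ _ _ _) (fun l => QQ_nil _ _ _ l),
    ← dl_map T, ← CE_dl σ P (N + 1) P (QQ (k + 1) (N + 1) φ), ← map_add]
  congr 1
  rw [← sub_eq_iff_eq_add', ← CE_sub]
  refine CE_congr σ P (N + 1) _ _ fun l hl => ?_
  have h3 := apex l (k + 1) (Ph (k + 1) φ P) (Pg (k + 1) φ) P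
    (fun m' => Ph_dl (k + 1) φ hφ P m') (kX (N + 1) l) (l.headD 1)
  rw [TX, h3]
  congr 1
  funext P'
  rw [QQ, if_pos hl]

end combine

end Pool.Agent.W647.KN
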