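import Pool.Agent.W647.KN7

/-!
# Cycles of groups of invertible elements
-/

set_option autoImplicit false
set_option linter.unusedSectionVars false

namespace Pool.Agent.W647.KN

open Finset Pool.Agent.W647.HV1 Pool.Agent.W647.HW1 Pool.Agent.W647.HZ1

section range

/-- the injection which omits `j` -/
def dlt (j p : ℕ) : ℕ := if p < j then p else p + 1

lemma dlt_inj (j : ℕ) : Function.Injective (dlt j) := by
  intro a b h
  unfold dlt at h
  split_ifs at h <;> omega

lemma erase_range (m j : ℕ) (hj : j < m + 1) :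
    (List.range (m + 1)).eraseIdx j = (List.range m).map (dlt j) := by
  apply List.ext_getElem
  · rw [List.length_eraseIdx_of_lt (by rw [List.length_range]; exact hj), List.length_range,
      List.length_map, List.length_range]
    rfl
  · intro i h1 h2
    rw [List.getElem_eraseIdx, List.getElem_map]
    simp only [List.getElem_range]
    unfold dlt
    split_ifs <;> rfl

end range

section family

variable {Γ : Type*} [Group Γ] {G : Type*} [Group G] {A : Type*} [Ring A]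
  (θ : Γ →* MonoidAlgebra A G)

/-- the extended vertices -/
def cw {n : ℕ} (w : Fin (n + 1) → Γ) (p : ℕ) : Γ := w ⟨min p n, by omega⟩

/-- the transition elements -/
noncomputable def sw {n : ℕ} (w : Fin (n + 1) → Γ) (i j : ℕ) : MonoidAlgebra A G := θ ((cw w i)⁻¹ * cw w j)

lemma sw_mul {n : ℕ} (w : Fin (n + 1) → Γ) (i j k : ℕ) : sw θ w i j * sw θ w j k = sw θ w i k := by
  rw [sw, sw, sw, ← map_mul]
  congr 1
  group

lemma sw_one {n : ℕ} (w : Fin (n + 1) → Γ) (i : ℕ) : sw θ w i i = 1 := by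
  rw [sw, inv_mul_cancel, map_one]

lemma sw_left {n : ℕ} (z : Γ) (w : Fin (n + 1) → Γ) : sw θ (fun i => z * w i) = sw θ w := by
  funext i j
  rw [sw, sw]
  congr 1
  show (z * cw w i)⁻¹ * (z * cw w j) = _
  group

lemma sw_face {m : ℕ} (w : Fin (m + 2) → Γ) (j : Fin (m + 2)) (a b : ℕ) (ha : a < m + 1)
    (hb : b < m + 1) : sw θ w (dlt j a) (dlt j b) = sw θ (w ∘ j.succAbove) a b := by
  have h1 : ∀ a, a < m + 1 → cw w (dlt j a) = cw (w ∘ j.succAbove) a := by
    intro a ha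
    rw [cw, cw, Function.comp_apply]
    congr 1
    apply Fin.ext
    rw [Fin.succAbove]
    unfold dlt
    by_cases h : a < (j : ℕ)
    · rw [if_pos h, if_pos (by rw [Fin.lt_def]; simp only [Fin.val_castSucc]; omega)]
      simp only [Fin.val_castSucc]
      omega
    · rw [if_neg h, if_neg (by rw [Fin.lt_def]; simp only [Fin.val_castSucc]; omega)]
      simp only [Fin.val_succ]
      omega
  rw [sw, sw, h1 a ha, h1 b hb]

/-- finitely many supports -/
lemma sw_supp {n : ℕ} (w : Fin (n + 1) → Γ) :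
    ∃ S : Finset G, ∀ i j, (sw θ w i j).coeff.support ⊆ S := by
  classical
  refine ⟨Finset.univ.biUnion fun i : Fin (n + 1) => Finset.univ.biUnion fun j : Fin (n + 1) =>
    (θ ((w i)⁻¹ * w j)).coeff.support, fun i j => ?_⟩
  refine Finset.Subset.trans ?_ (Finset.subset_biUnion_of_mem _ (Finset.mem_univ
    (⟨min i n, by omega⟩ : Fin (n + 1))))
  exact Finset.subset_biUnion_of_mem (fun j : Fin (n + 1) =>
    (θ ((w ⟨min i n, by omega⟩)⁻¹ * w j)).coeff.support) (Finset.mem_univ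
    (⟨min j n, by omega⟩ : Fin (n + 1)))

end family

section ph

variable {Γ : Type} [Group Γ] {M : Type*} [AddCommGroup M]

lemma ph0_add {m : ℕ} (c c' : (Fin (m + 1) → Γ) → M) (z : (Fin m → Γ) →₀ ℤ) :
    ph0 (fun v => c v + c' v) z = ph0 c z + ph0 c' z := by
  induction z using Finsupp.induction_linear with
  | zero => simp
  | add f g hf hg => rw [map_add, map_add, map_add, hf, hg]; abel
  | single g a => rw [ph0_single, ph0_single, ph0_single, smul_add]

lemma ph0_nsmul {m : ℕ} (n : ℕ) (c : (Fin (m + 1) → Γ) → M) (z : (Fin m → Γ) →₀ ℤ) :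
    ph0 (fun v => n • c v) z = n • ph0 c z := by
  induction z using Finsupp.induction_linear with
  | zero => simp
  | add f g hf hg => rw [map_add, map_add, smul_add, hf, hg]
  | single g a => rw [ph0_single, ph0_single, smul_comm]

lemma ph0_dd' {m : ℕ} (c : (Fin (m + 1) → Γ) → M) (hc : ∀ z v, c (fun i => z * v i) = c v)
    (x : (Fin (m + 1) → Γ) →₀ ℤ) : ph0 c (dd Γ m x) =
      ph0 (fun v => ∑ i : Fin (m + 2), (-1 : ℤ) ^ (i : ℕ) • c (v ∘ i.succAbove)) x := by
  induction x using Finsupp.induction_linear with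
  | zero => simp
  | add f g hf hg => rw [map_add, map_add, map_add, hf, hg]
  | single g a =>
    rw [dd_single, map_add, ph0_single, map_sum, ph0_single]
    have h2 : c (Fin.partialProd fun i => g i.succ) =
        c (Fin.partialProd g ∘ (0 : Fin (m + 2)).succAbove) := by
      rw [← hc (g 0)]
      congr 1
      funext i
      rw [Function.comp_apply, Fin.zero_succAbove, Fin.partialProd_succ']
      rfl
    have h3 : ∀ j : Fin (m + 1), ph0 c ((-1 : ℤ) ^ ((j : ℕ) + 1) •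
        Finsupp.single (Fin.contractNth j (· * ·) g) a) =
        a • ((-1 : ℤ) ^ ((j.succ : Fin (m + 2)) : ℕ) •
          c (Fin.partialProd g ∘ (j.succ).succAbove)) := by
      intro j
      rw [map_zsmul, ph0_single, Fin.partialProd_contractNth, Fin.val_succ, smul_comm]
    rw [h2, Finset.sum_congr rfl fun j _ => h3 j, ← Finset.smul_sum, ← smul_add]
    congr 1
    rw [Fin.sum_univ_succ (fun i : Fin (m + 2) =>
      (-1 : ℤ) ^ (i : ℕ) • c (Fin.partialProd g ∘ i.succAbove)), Fin.val_zero, pow_zero, one_smul]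

end ph

section main

variable {Γ : Type} [Group Γ] {G : Type*} [Group G] {A : Type*} [Ring A] {M : Type*}
  [AddCommGroup M] (θ : Γ →* MonoidAlgebra A G)

lemma CE_relabel (σ : ℕ → ℕ → MonoidAlgebra A G) (ρ : ℕ → ℕ) (hρ : Function.Injective ρ)
    (P : List ℕ) (hP : P ≠ []) (k N : ℕ) (φ : List G → A) :
    CE σ (P.map ρ) N (QQ k N φ (P.map ρ)) =
      CE (fun a b => σ (ρ a) (ρ b)) P N (QQ k N φ P) := by
  rw [CE, CE]
  refine WS_relabel σ ρ hρ P hP N _ _ (fun l => ?_) 1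
  funext h
  rw [cl, cl, QQ_relabel]

/-- the values of the faces -/
noncomputable def EE (T : A →+ M) (k N : ℕ) (φ : List G → A) {m : ℕ} (w : Fin (m + 1) → Γ) : M :=
  T (CE (sw θ w) (List.range (m + 1)) N (QQ k N φ (List.range (m + 1))))

lemma EE_left (T : A →+ M) (k N : ℕ) (φ : List G → A) {m : ℕ} (z : Γ) (w : Fin (m + 1) → Γ) :
    EE θ T k N φ (fun i => z * w i) = EE θ T k N φ w := by
  rw [EE, EE, sw_left]

lemma dl_faces (T : A →+ M) (k N : ℕ) (φ : List G → A) {m : ℕ} (w : Fin (m + 2) → Γ) :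
    dl (List.range (m + 2)) (fun P' => T (CE (sw θ w) P' N (QQ k N φ P'))) =
      ∑ j : Fin (m + 2), (-1 : ℤ) ^ (j : ℕ) • EE θ T k N φ (w ∘ j.succAbove) := by
  rw [dl_eq_sum, List.length_range, Finset.sum_range]
  refine Finset.sum_congr rfl fun j _ => ?_
  congr 1
  rw [EE, erase_range (m + 1) j j.isLt, CE_relabel _ _ (dlt_inj _) _ (by simp)]
  congr 1
  rw [CE, CE]
  refine WS_congr_σ _ _ _ (by simp) (fun a ha b hb => ?_) N _ _
  rw [List.mem_range] at ha hb
  exact sw_face θ w j a b ha hb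

/-- the values at chains -/
noncomputable def VV (T : A →+ M) (k : ℕ) (φ : List G → A) {m : ℕ} (w : Fin (m + 1) → Γ) : M :=
  Vx (sw θ w) T k φ (List.range (m + 1))

variable (T : A →+ M) (hT : ∀ x y, T (x * y) = T (y * x))
  (φ : List G → A) (hφ : ∀ v, dl v φ = 0) (hφG : ∀ (z : G) v, φ (v.map fun a => z * a) = φ v)
  (hcen : ∀ v b, b * φ v = φ v * b)

include hT hφ hφG hcen in
/-- **Divisibility on cycles, one prime** -/
theorem cycle_prime {p : ℕ} (hp : p.Prime) (hnt : ∀ y : G, orderOf y ≠ p) (M' : ℕ) {m : ℕ}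
    (z : (Fin (m + 1) → Γ) →₀ ℤ) (hz : dd Γ m z = 0) (k : ℕ) :
    ∃ y : M, (2 * (k + 1)).descFactorial (k + 1) • ph0 (VV θ T (k + 1) φ) z = p ^ M' • y := by
  obtain ⟨N, hN⟩ : ∃ N, N + 1 = p ^ (M' + (2 * k + 4)) :=
    ⟨p ^ (M' + (2 * k + 4)) - 1, Nat.succ_pred_eq_of_pos (pow_pos hp.pos _)⟩
  have h1 : ∀ w : Fin (m + 2) → Γ, ∃ y : M, cn N (k + 1) • VV θ T (k + 1) φ w =
      (N + 1) • y + ∑ j : Fin (m + 2), (-1 : ℤ) ^ (j : ℕ) •
        EE θ T (k + 1) (N + 1) φ (w ∘ j.succAbove) := by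
    intro w
    obtain ⟨S, hS⟩ := sw_supp θ w
    obtain ⟨y, hy⟩ := one_simplex (sw θ w) (sw_mul θ w) (sw_one θ w) T hT φ hφ hφG hcen hp hnt hN
      (List.range (m + 2)) List.nodup_range S hS k
    refine ⟨y, ?_⟩
    rw [VV, hy, dl_faces]
  choose y hy using h1
  have h2 : cn N (k + 1) • ph0 (VV θ T (k + 1) φ) z = (N + 1) • ph0 y z := by
    rw [← ph0_nsmul, show (fun v => cn N (k + 1) • VV θ T (k + 1) φ v) =
      (fun v => (N + 1) • y v + ∑ j : Fin (m + 2), (-1 : ℤ) ^ (j : ℕ) •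
        EE θ T (k + 1) (N + 1) φ (v ∘ j.succAbove)) from funext hy, ph0_add, ph0_nsmul,
      ← ph0_dd' _ (EE_left θ T (k + 1) (N + 1) φ), hz, map_zero, add_zero]
  have hN1 : 2 * k + 4 < N + 1 := by
    rw [hN]
    calc 2 * k + 4 < p ^ (2 * k + 4) := Nat.lt_pow_self hp.one_lt
      _ ≤ p ^ (M' + (2 * k + 4)) := Nat.pow_le_pow_right hp.pos (by omega)
  obtain ⟨n, hn⟩ : ∃ n, N = n + (k + 1) := ⟨N - (k + 1), by omega⟩
  obtain ⟨s, hs⟩ := desc_mod (k + 1) n (N + 1) (by omega) (by omega)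
  rw [hn, cn_eq, ← hn] at h2
  set Z := ph0 (VV θ T (k + 1) φ) z
  refine ⟨(-1 : ℤ) ^ (k + 1) • (p ^ (2 * k + 4) • ph0 y z) + s • (p ^ (2 * k + 4) • Z), ?_⟩
  rw [← natCast_zsmul, hs, add_smul, mul_smul, natCast_zsmul, h2, smul_add, hN]
  congr 1
  · rw [pow_add p M' (2 * k + 4), mul_smul, smul_comm]
  · rw [mul_smul, smul_comm, natCast_zsmul, smul_comm (p ^ M') s, smul_smul (p ^ M'), ← pow_add,
      smul_comm]

include hT hφ hφG hcen in
/-- **Divisibility on cycles** -/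
theorem cycle_dvd {m : ℕ} (z : (Fin (m + 1) → Γ) →₀ ℤ) (hz : dd Γ m z = 0) {k : ℕ} (hk : k ≠ 0)
    (N : ℕ) (hN : N ≠ 0) (hnt : ∀ p : ℕ, p.Prime → p ∣ N → ∀ y : G, orderOf y ≠ p) :
    ∃ y : M, (2 * k).descFactorial k • ph0 (VV θ T k φ) z = N • y := by
  obtain ⟨k, rfl⟩ := Nat.exists_eq_succ_of_ne_zero hk
  exact HX1.dvd_of_primes N hN fun p hp hpN M' =>
    cycle_prime θ T hT φ hφ hφG hcen hp (hnt p hp hpN) M' z hz k

end main

end Pool.Agent.W647.KN
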