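import Pool.Agent.W647.KN8

/-!
# Shuffles
-/

set_option autoImplicit false
set_option linter.unusedSectionVars false

namespace Pool.Agent.W647.KN

open Finset Pool.Agent.W647.HV1 Pool.Agent.W647.HW1 Pool.Agent.W647.HZ1

section sh

variable {G : Type*} [Group G] {A : Type*} [AddCommGroup A] {B : Type*} [AddCommGroup B]

/-- The signed sum over the lattice paths in a rectangular array of elements of `G`, with rows `l`
(the entry of the row `a` in the column `p` is `a p`) and columns `P`, which go from the upper left
entry to the lower right entry by steps to the next row or to the next column; the value of a path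
is `φ` at the list of the entries on the path, and a step to the next column gives the sign
`(-1) ^ r`, where `r` is the number of the rows from the present one on. -/
def sh : List (ℕ → G) → List ℕ → (List G → A) → A
  | [], _, _ => 0
  | _ :: _, [], _ => 0
  | [a], [p], φ => φ [a p]
  | a :: l, p :: P, φ => sh l (p :: P) (fun v => φ (a p :: v)) +
      (-1 : ℤ) ^ (l.length + 1) • sh (a :: l) P (fun v => φ (a p :: v))
termination_by l P => l.length + P.length

lemma sh_nil (P : List ℕ) (φ : List G → A) : sh [] P φ = 0 := by rw [sh]

lemma sh_nil' (l : List (ℕ → G)) (φ : List G → A) : sh l [] φ = 0 := by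
  cases l <;> rw [sh]

lemma sh_one (a : ℕ → G) (p : ℕ) (φ : List G → A) : sh [a] [p] φ = φ [a p] := by rw [sh]

lemma sh_cons (a : ℕ → G) (l : List (ℕ → G)) (p : ℕ) (P : List ℕ) (φ : List G → A)
    (h : l ≠ [] ∨ P ≠ []) :
    sh (a :: l) (p :: P) φ = sh l (p :: P) (fun v => φ (a p :: v)) +
      (-1 : ℤ) ^ (l.length + 1) • sh (a :: l) P (fun v => φ (a p :: v)) := by
  rw [sh]
  rintro rfl rfl
  simp at h

lemma sh_map (f : A →+ B) (l : List (ℕ → G)) (P : List ℕ) (φ : List G → A) :
    f (sh l P φ) = sh l P (fun v => f (φ v)) := by
  induction l generalizing P φ with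
  | nil => rw [sh_nil, sh_nil, map_zero]
  | cons a l ihl =>
    induction P generalizing φ with
    | nil => rw [sh_nil', sh_nil', map_zero]
    | cons p P ihP =>
      by_cases h : l ≠ [] ∨ P ≠ []
      · rw [sh_cons _ _ _ _ _ h, sh_cons _ _ _ _ _ h, map_add, map_zsmul, ihl, ihP]
      · push Not at h
        obtain ⟨rfl, rfl⟩ := h
        rw [sh_one, sh_one]

/-- dependence on the columns only -/
lemma sh_dep (l l' : List (ℕ → G)) (P : List ℕ) (φ : List G → A)
    (h : List.Forall₂ (fun a a' => ∀ p ∈ P, a p = a' p) l l') : sh l P φ = sh l' P φ := by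
  induction l generalizing l' P φ with
  | nil =>
    rw [List.forall₂_nil_left_iff] at h
    rw [h]
  | cons a l ihl =>
    cases h with
    | cons hab hl =>
      rename_i a' l'
      induction P generalizing φ with
      | nil => rw [sh_nil', sh_nil']
      | cons p P ihP =>
        have e1 : l.length = l'.length := hl.length_eq
        have e2 : a p = a' p := hab p (List.mem_cons_self ..)
        have e3 : (l ≠ [] ∨ P ≠ []) ↔ (l' ≠ [] ∨ P ≠ []) := by
          rw [← List.length_pos_iff, e1, List.length_pos_iff]
        by_cases h : l ≠ [] ∨ P ≠ []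
        · rw [sh_cons _ _ _ _ _ h, sh_cons _ _ _ _ _ (e3.1 h), e1, e2, ihl l' (p :: P) _ hl,
            ihP _ (fun q hq => hab q (List.mem_cons_of_mem _ hq))
              (hl.imp fun b b' hbb q hq => hbb q (List.mem_cons_of_mem _ hq))]
        · push Not at h
          obtain ⟨rfl, rfl⟩ := h
          have e4 : l' = [] := List.eq_nil_of_length_eq_zero e1.symm
          subst e4
          rw [sh_one, sh_one, e2]

lemma J_hv_zero (n r : ℕ) (φ : List G → A) (P : List ℕ) (l : List (ℕ → G))
    (h : ∀ m, φ (hv P l :: m) = 0) : J n (r + 1) φ P l = 0 := by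
  cases n with
  | zero => rw [J_zero]
  | succ n =>
    rw [J_succ_succ]
    simp only [h, J_phi_zero, dl_zero, smul_zero, add_zero]

/-- **The prism operator is given by shuffles** -/
lemma J_eq_sh (l : List (ℕ → G)) (hl : l ≠ []) (P : List ℕ) (φ : List G → A)
    (hφ : ∀ l x l', φ (l ++ x :: x :: l') = 0) : J P.length l.length φ P l = sh l P φ := by
  induction l generalizing P φ with
  | nil => exact absurd rfl hl
  | cons a l ihl =>
    induction P generalizing φ with
    | nil => rw [List.length_nil, J_zero, sh_nil']
    | cons p P ihP =>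
      have hφ' : ∀ l x l', (fun v => φ (a p :: v)) (l ++ x :: x :: l') = 0 := fun l x l' =>
        hφ (a p :: l) x l'
      rw [List.length_cons, List.length_cons, J_succ_succ]
      have hh : hv (p :: P) (a :: l) = a p := rfl
      rw [hh]
      have e1 : dl (a :: l) (fun l' => J (P.length + 1) l.length (fun v => φ (a p :: v)) (p :: P)
          l') = J (P.length + 1) l.length (fun v => φ (a p :: v)) (p :: P) l := by
        rw [dl_cons, sub_eq_self]
        rw [dl_congr l _ (fun _ => 0), dl_zero]
        intro l' _ hl'
        rw [← hl']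
        exact J_hv_zero _ _ _ _ _ fun m => hφ [] (a p) m
      have e2 : dl (p :: P) (fun P' => J P.length (l.length + 1) (fun v => φ (a p :: v)) P'
          (a :: l)) = J P.length (l.length + 1) (fun v => φ (a p :: v)) P (a :: l) := by
        rw [dl_cons, sub_eq_self]
        rw [dl_congr P _ (fun _ => 0), dl_zero]
        intro P' _ hP'
        exact J_hv_zero _ _ _ _ _ fun m => hφ [] (a p) m
      rw [e1, e2]
      have e3 := ihP (fun v => φ (a p :: v)) hφ'
      rw [List.length_cons] at e3
      rw [e3]
      by_cases hl0 : l = []
      · subst hl0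
        cases P with
        | nil =>
          rw [sh_nil', smul_zero, add_zero, sh_one, List.length_nil, List.length_nil, J_succ_zero,
            if_pos rfl]
        | cons p' P =>
          rw [sh_cons _ _ _ _ _ (Or.inr (List.cons_ne_nil _ _)), sh_nil, List.length_nil,
            J_succ_zero, if_neg (by rw [List.length_cons]; exact Nat.succ_ne_zero _)]
      · rw [sh_cons _ _ _ _ _ (Or.inl hl0)]
        have e4 := ihl hl0 (p :: P) (fun v => φ (a p :: v)) hφ'
        rw [List.length_cons] at e4
        rw [e4]

end sh

section rev

variable {Y : Type*} [Group Y] {A : Type*} [Ring A]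

lemma Al_rev (m : ℕ) (F : List Y → A) (l : List Y) (hl : l.length = m) :
    Al m F l.reverse = ((Equiv.Perm.sign (Fin.revPerm : Equiv.Perm (Fin m)) : ℤˣ) : ℤ) •
      Al m F l := by
  have h1 : vec m l.reverse = vec m l ∘ (Fin.revPerm : Equiv.Perm (Fin m)) := by
    funext i
    rw [Function.comp_apply, vec, vec]
    simp only [List.getD_eq_getElem?_getD, Fin.revPerm_apply, Fin.val_rev]
    rw [List.getElem?_reverse (by rw [hl]; exact i.isLt), hl]
    congr 2
    omega
  have h2 : ∀ l : List Y, l.length = m → Al m F l = As (fun v => F (List.ofFn v)) (vec m l) :=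
    fun l hl => Al_apply m F l hl
  rw [h2 _ (by rw [List.length_reverse, hl]), h2 l hl, h1, As_perm]

end rev

end Pool.Agent.W647.KN
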