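import Pool.Agent.W647.G1

/-!
# Traces on ideals of group-graded rings: the core argument
-/

set_option autoImplicit false
set_option linter.unusedSectionVars false

namespace Pool.Agent.W647.R1

open Finset Pool.Agent.H23R2 Pool.Agent.H23R2.Cyc
open Pool.Agent.H23R2.Ch (Sep)
open Pool.Agent.W647.G1 (Fam)

open Classical in
/-- rotation invariant functions on cyclic words, modulo `p ^ m` -/
theorem cyc_sum {S M : Type*} [Fintype S] [AddCommGroup M] {p m : ℕ} (k n : ℕ)
    [hp : Fact p.Prime] [NeZero n] (hn : n = p ^ (m + k)) (hM : ∀ x : M, p ^ m • x = 0)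
    (F : (ZMod n → S) → M) (hinv : ∀ (c : ZMod n) w, F (shift c w) = F w) :
    ∑ w, F w = ∑ w : ZMod n → S with shift ((p ^ m : ℕ) : ZMod n) w = w, F w := by
  have hn0 : n ≠ 0 := NeZero.ne n
  let _ := rotAction n S
  obtain ⟨c0, hc0⟩ : ∃ c0 : ZMod n, c0 = ((p ^ m : ℕ) : ZMod n) := ⟨_, rfl⟩
  rw [← hc0]
  set P : (ZMod n → S) → Prop := fun w => shift c0 w = w with hP
  have hPinv : ∀ (c : ZMod n) w, P (shift c w) ↔ P w := by
    intro c w
    simp only [hP]
    rw [shift_shift, add_comm, ← shift_shift]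
    constructor
    · intro h
      have := congrArg (shift (-c)) h
      rwa [shift_neg_shift, shift_neg_shift] at this
    · intro h
      rw [h]
  have hzero : ∑ w, (if P w then 0 else F w) = 0 := by
    refine sum_orbits (G := ZMod n) _ ?_ ?_
    · intro c w
      show (if P (shift c w) then 0 else F (shift c w)) = _
      simp only [hPinv, hinv]
    · intro w
      by_cases hw : P w
      · simp [hw]
      · simp only [hw, if_false]
        have h1 : Nat.card (AddAction.orbit (ZMod n) w) =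
            (AddAction.stabilizer (ZMod n) w).index :=
          (AddAction.index_stabilizer (ZMod n) w).symm
        rw [h1]
        have h2 : (AddAction.stabilizer (ZMod n) w).index ∣ p ^ (m + k) := by
          have h0 := (AddAction.stabilizer (ZMod n) w).index_dvd_card
          rw [Nat.card_zmod] at h0
          exact h0.trans hn.dvd
        obtain ⟨i, _, hi⟩ := (Nat.dvd_prime_pow hp.out).mp h2
        have h3 : m ≤ i := by
          by_contra hcon
          push Not at hcon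
          apply hw
          have h4 := AddSubgroup.nsmul_index_mem (AddAction.stabilizer (ZMod n) w)
            (1 : ZMod n)
          have h5 := AddSubgroup.nsmul_mem _ h4 (p ^ (m - i))
          rw [hi, smul_smul, ← pow_add, Nat.sub_add_cancel hcon.le, nsmul_one, ← hc0] at h5
          exact h5
        rw [hi, show p ^ i = p ^ (i - m) * p ^ m by rw [← pow_add, Nat.sub_add_cancel h3],
          mul_smul, hM, smul_zero]
  have hsplit : ∑ w, F w = ∑ w, (if P w then F w else 0) := by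
    have h1 : ∀ w, F w = (if P w then F w else 0) + (if P w then 0 else F w) := by
      intro w
      split_ifs <;> simp
    rw [Finset.sum_congr rfl fun w _ => h1 w, Finset.sum_add_distrib, hzero, add_zero]
  rw [hsplit, ← Finset.sum_filter]

variable {G : Type*} [Group G] {A : Type*} [Ring A] {M : Type*} [AddCommGroup M]

/-- `T` is a trace on the ideal `L` of the ring `B` -/
structure Tr (B : Subring A) (L : AddSubgroup A) (T : A → M) : Prop where
  le : ∀ x ∈ L, x ∈ B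
  left : ∀ x ∈ L, ∀ y ∈ B, y * x ∈ L
  right : ∀ x ∈ L, ∀ y ∈ B, x * y ∈ L
  add : ∀ x ∈ L, ∀ y ∈ L, T (x + y) = T x + T y
  comm : ∀ x ∈ L, ∀ y ∈ B, T (x * y) = T (y * x)

section basic

variable {B : Subring A} {L : AddSubgroup A} {T : A → M}

lemma Tr.zero (h : Tr B L T) : T 0 = 0 := by
  have h1 := h.add 0 L.zero_mem 0 L.zero_mem
  rw [add_zero] at h1
  exact (add_eq_left.1 h1.symm)

lemma Tr.neg (h : Tr B L T) {x : A} (hx : x ∈ L) : T (-x) = - T x := by
  have h1 := h.add (-x) (L.neg_mem hx) x hx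
  rw [neg_add_cancel, h.zero] at h1
  exact eq_neg_of_add_eq_zero_left h1.symm

lemma Tr.sub (h : Tr B L T) {x y : A} (hx : x ∈ L) (hy : y ∈ L) : T (x - y) = T x - T y := by
  rw [sub_eq_add_neg, h.add _ hx _ (L.neg_mem hy), h.neg hy, sub_eq_add_neg]

lemma Tr.sum (h : Tr B L T) {ι : Type*} (s : Finset ι) (f : ι → A) (hf : ∀ i ∈ s, f i ∈ L) :
    T (∑ i ∈ s, f i) = ∑ i ∈ s, T (f i) := by
  classical
  induction s using Finset.induction_on with
  | empty => simp [h.zero]
  | insert i s hi ih =>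
    rw [Finset.sum_insert hi, Finset.sum_insert hi,
      h.add _ (hf i (Finset.mem_insert_self _ _)) _
        (L.sum_mem fun j hj => hf j (Finset.mem_insert_of_mem hj)),
      ih fun j hj => hf j (Finset.mem_insert_of_mem hj)]

end basic

section mpr

variable {n : ℕ}

lemma rot_one' {B : Subring A} {L : AddSubgroup A} {T : A → M} (h : Tr B L T) {e N : ℕ}
    (g : ZMod N → A) (hgB : ∀ i, g i ∈ B) (hgL : ∀ k m, e ≤ m → mpr g k m ∈ L)
    (hN : e + 1 ≤ N) : T (mpr (shift 1 g) 0 N) = T (mpr g 0 N) := by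
  obtain ⟨n', rfl⟩ : ∃ n', N = n' + 1 := ⟨N - 1, by omega⟩
  rw [mpr_shift, zero_add]
  have h1 : mpr g 1 (n' + 1) = mpr g 1 n' * g 0 := by
    rw [mpr]
    congr 2
    have : ((n' + 1 : ℕ) : ZMod (n' + 1)) = 0 := ZMod.natCast_self _
    push_cast at this
    exact (add_comm _ _).trans this
  have h2 : mpr g 0 (n' + 1) = g 0 * mpr g 1 n' := by
    rw [mpr_succ', zero_add]
  rw [h1, h2, h.comm _ (hgL _ _ (by omega)) _ (hgB _)]

lemma rot' {B : Subring A} {L : AddSubgroup A} {T : A → M} (h : Tr B L T) {e N : ℕ}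
    (g : ZMod N → A) (hgB : ∀ i, g i ∈ B) (hgL : ∀ k m, e ≤ m → mpr g k m ∈ L)
    (hN : e + 1 ≤ N) (c : ZMod N) : T (mpr (shift c g) 0 N) = T (mpr g 0 N) := by
  have key : ∀ m : ℕ, T (mpr (shift (m : ZMod N) g) 0 N) = T (mpr g 0 N) := by
    intro m
    induction m with
    | zero => simp
    | succ m ih =>
      rw [← ih, ← rot_one' h (shift (m : ZMod N) g) (fun i => hgB _)
        (fun k l hl => by rw [mpr_shift]; exact hgL _ _ hl) hN, shift_shift]
      congr 4
      push_cast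
      ring
  have : NeZero N := ⟨by omega⟩
  have h := key c.val
  rwa [ZMod.natCast_zmod_val] at h

end mpr

section core

variable {𝒮 : G → AddSubgroup A} {B : Subring A} {L : AddSubgroup A} {T : A → M}

/-- the value of a trace on `L` at a `p`-power power is divisible by a power of `p` -/
theorem pow_div (h𝒮 : Fam 𝒮) (h : Tr B L T) {p : ℕ} [hp : Fact p.Prime] (g : G)
    (hsupp : ∀ h, ¬ IsConj h g → ∀ x ∈ 𝒮 h, x ∈ L → T x = 0) {ι : Type*} [Fintype ι] (a : ι → A)
    (deg : ι → G) (ha : ∀ i, a i ∈ 𝒮 (deg i)) (haB : ∀ i, a i ∈ B) {e : ℕ}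
    (haL : ∀ l : List ι, e ≤ l.length → (l.map a).prod ∈ L) (m K : ℕ)
    (he : e + 1 ≤ p ^ (m + K))
    (hK : ∀ v : Fin (p ^ m) → ι, ¬ IsConj ((List.ofFn fun i => deg (v i)).prod ^ p ^ K) g) :
    ∃ y : M, p ^ m • y = T ((∑ i, a i) ^ p ^ (m + K)) := by
  classical
  let N : AddSubgroup M := (nsmulAddMonoidHom (α := M) (p ^ m)).range
  have hN : ∀ x : M, x ∈ N ↔ ∃ y, p ^ m • y = x := fun x => Iff.rfl
  have hMN : ∀ x : M ⧸ N, p ^ m • x = 0 := by
    intro x
    obtain ⟨x, rfl⟩ := QuotientAddGroup.mk'_surjective N x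
    rw [← map_nsmul, QuotientAddGroup.mk'_apply, QuotientAddGroup.eq_zero_iff, hN]
    exact ⟨x, rfl⟩
  have hn : p ^ (m + K) ≠ 0 := pow_ne_zero _ hp.out.ne_zero
  have : NeZero (p ^ (m + K)) := ⟨hn⟩
  have hlist : ∀ (w : ZMod (p ^ (m + K)) → ι) (k : ZMod (p ^ (m + K))) (l : ℕ), e ≤ l →
      mpr (fun i => a (w i)) k l ∈ L := by
    intro w k l hl
    rw [mpr_eq_ofFn]
    have h1 := haL (List.ofFn fun i : Fin l => w (k + ((i : ℕ) : ZMod _))) (by simpa using hl)
    rw [List.map_ofFn] at h1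
    exact h1
  rw [← hN, ← QuotientAddGroup.eq_zero_iff, ← QuotientAddGroup.mk'_apply]
  rw [sum_pow_cyc a, h.sum _ _ fun w _ => hlist w 0 _ (by omega), map_sum]
  rw [cyc_sum K (p ^ (m + K)) rfl hMN
    (fun w => QuotientAddGroup.mk' N (T (mpr (fun k => a (w k)) 0 (p ^ (m + K)))))]
  · refine Finset.sum_eq_zero fun w hw => ?_
    have hper : mpr (fun k => a (w k)) 0 (p ^ (m + K)) =
        (mpr (fun k => a (w k)) 0 (p ^ m)) ^ p ^ K := by
      have h3 := mpr_periodic (p ^ m) (p ^ K) (fun i => a (w i)) (by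
        have h1 : shift ((p ^ m : ℕ) : ZMod (p ^ (m + K))) w = w := (mem_filter.mp hw).2
        exact congrArg (fun v : ZMod (p ^ (m + K)) → ι => fun i => a (v i)) h1)
      rw [← h3, ← pow_add]
    have h3 := h𝒮.pow (h𝒮.mpr (fun i => a (w i)) (fun i => deg (w i)) (fun i => ha _) 0 (p ^ m))
      (p ^ K)
    have h4 : T (mpr (fun k => a (w k)) 0 (p ^ (m + K))) = 0 := by
      have h5 := hlist w 0 (p ^ (m + K)) (by omega)
      refine hsupp _ ?_ _ (hper ▸ h3) h5
      rw [mpr_eq_ofFn (fun i => deg (w i))]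
      exact hK fun i => w (0 + ((i : ℕ) : ZMod _))
    rw [h4, map_zero]
  · intro c w
    have h1 := rot' h (fun k => a (w k)) (fun i => haB _) (hlist w) he c
    exact congrArg (QuotientAddGroup.mk' N) h1

/-- exponents such that `p`-power powers avoid the class of `g` -/
lemma exists_exp' {p : ℕ} {g : G} (hg : ∀ j, 1 ≤ j → ¬ IsConj g (g ^ p ^ j)) (W : Finset G)
    (K0 : ℕ) : ∃ K : ℕ, K0 ≤ K ∧ ∀ w ∈ W, ¬ IsConj (w ^ p ^ K) g := by
  classical
  obtain ⟨K, hK⟩ := G1.exists_exp hg (W.image fun w => w ^ p ^ K0)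
  refine ⟨K0 + K, by omega, fun w hw => ?_⟩
  have h1 := hK (w ^ p ^ K0) (Finset.mem_image_of_mem _ hw)
  rwa [← pow_mul, ← pow_add] at h1

variable {u v : A}

lemma one_sub_pow_comm (N : ℕ) : v * (1 - u * v) ^ N = (1 - v * u) ^ N * v := by
  induction N with
  | zero => simp
  | succ N ih =>
    rw [pow_succ', ← mul_assoc, show v * (1 - u * v) = (1 - v * u) * v by noncomm_ring,
      mul_assoc, ih, ← mul_assoc, ← pow_succ']

/-- the difference does not depend on the exponent -/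
lemma diff_step (h : Tr B L T) (hu : u ∈ B) (hv : v ∈ B) {N : ℕ}
    (h1 : (1 - u * v) ^ N ∈ L) (h2 : (1 - v * u) ^ N ∈ L) :
    T ((1 - u * v) ^ (N + 1)) - T ((1 - v * u) ^ (N + 1)) =
      T ((1 - u * v) ^ N) - T ((1 - v * u) ^ N) := by
  have e1 : (1 - u * v) ^ (N + 1) = (1 - u * v) ^ N - (1 - u * v) ^ N * u * v := by
    rw [pow_succ]; noncomm_ring
  have e2 : (1 - v * u) ^ (N + 1) = (1 - v * u) ^ N - v * ((1 - u * v) ^ N * u) := by
    rw [pow_succ, ← mul_assoc, one_sub_pow_comm]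
    noncomm_ring
  have m1 : (1 - u * v) ^ N * u ∈ L := h.right _ h1 _ hu
  rw [e1, e2, h.sub h1 (h.right _ m1 _ hv), h.sub h2 (h.left _ m1 _ hv), h.comm _ m1 _ hv]
  abel

lemma diff_const (h : Tr B L T) (hu : u ∈ B) (hv : v ∈ B) {e : ℕ}
    (h1 : ∀ N, e ≤ N → (1 - u * v) ^ N ∈ L) (h2 : ∀ N, e ≤ N → (1 - v * u) ^ N ∈ L) {N : ℕ}
    (hN : e ≤ N) :
    T ((1 - u * v) ^ N) - T ((1 - v * u) ^ N) = T ((1 - u * v) ^ e) - T ((1 - v * u) ^ e) := by
  induction N, hN using Nat.le_induction with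
  | base => rfl
  | succ N hN ih => rw [diff_step h hu hv (h1 N hN) (h2 N hN), ih]

lemma pow_mem_of_list {ι : Type*} [Fintype ι] {a : ι → A} {e : ℕ}
    (haL : ∀ l : List ι, e ≤ l.length → (l.map a).prod ∈ L) {N : ℕ} (hN : e ≤ N) :
    (∑ i, a i) ^ N ∈ L := by
  rw [sum_pow_words]
  refine L.sum_mem fun w _ => ?_
  have h1 := haL (List.ofFn w) (by simpa using hN)
  rwa [List.map_ofFn] at h1

/-- **Core theorem**: the index pairing of an element invertible modulo an ideal with a trace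
supported on the class of `g` vanishes. -/
theorem core (h𝒮 : Fam 𝒮) (h : Tr B L T) {p : ℕ} [hp : Fact p.Prime] (hM : Sep M p) (g : G)
    (hg : ∀ j, 1 ≤ j → ¬ IsConj g (g ^ p ^ j))
    (hsupp : ∀ h, ¬ IsConj h g → ∀ x ∈ 𝒮 h, x ∈ L → T x = 0)
    (hu : u ∈ B) (hv : v ∈ B) {e : ℕ}
    {ι : Type*} [Fintype ι] (a : ι → A) (deg : ι → G) (ha : ∀ i, a i ∈ 𝒮 (deg i))
    (haB : ∀ i, a i ∈ B) (haL : ∀ l : List ι, e ≤ l.length → (l.map a).prod ∈ L)
    (hau : ∑ i, a i = 1 - u * v)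
    {κ : Type*} [Fintype κ] (b : κ → A) (deg' : κ → G) (hb : ∀ i, b i ∈ 𝒮 (deg' i))
    (hbB : ∀ i, b i ∈ B) (hbL : ∀ l : List κ, e ≤ l.length → (l.map b).prod ∈ L)
    (hbu : ∑ i, b i = 1 - v * u) :
    T ((1 - u * v) ^ e) - T ((1 - v * u) ^ e) = 0 := by
  classical
  have h1 : ∀ N, e ≤ N → (1 - u * v) ^ N ∈ L := fun N hN => hau ▸ pow_mem_of_list haL hN
  have h2 : ∀ N, e ≤ N → (1 - v * u) ^ N ∈ L := fun N hN => hbu ▸ pow_mem_of_list hbL hN
  apply hM
  intro m
  let W : Finset G := ((univ : Finset (Fin (p ^ m) → ι)).image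
    fun v => (List.ofFn fun i => deg (v i)).prod) ∪ ((univ : Finset (Fin (p ^ m) → κ)).image
    fun v => (List.ofFn fun i => deg' (v i)).prod)
  obtain ⟨K, hK0, hK⟩ := exists_exp' hg W (e + 1)
  have hN : e + 1 ≤ p ^ (m + K) := by
    have h3 : m + K < p ^ (m + K) := Nat.lt_pow_self hp.out.one_lt
    omega
  obtain ⟨y, hy⟩ := pow_div h𝒮 h g hsupp a deg ha haB haL m K hN fun v =>
    hK _ (Finset.mem_union_left _ (Finset.mem_image.mpr ⟨v, mem_univ _, rfl⟩))
  obtain ⟨z, hz⟩ := pow_div h𝒮 h g hsupp b deg' hb hbB hbL m K hN fun v =>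
    hK _ (Finset.mem_union_right _ (Finset.mem_image.mpr ⟨v, mem_univ _, rfl⟩))
  refine ⟨y - z, ?_⟩
  rw [smul_sub, hy, hz, hau, hbu, diff_const h hu hv h1 h2 (by omega)]

end core

end Pool.Agent.W647.R1
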