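import Pool.Agent.W647.R1
import Pool.Agent.W647.G4

/-!
# Traces on powers of graded ideals of group-graded rings
-/

set_option autoImplicit false
set_option linter.unusedSectionVars false

namespace Pool.Agent.W647.R2

open Finset Pool.Agent.W647.R1
open Pool.Agent.H23R2.Ch (Sep)
open Pool.Agent.W647.G1 (Fam)

section mat

variable {A : Type*} [Ring A] {M : Type*} [AddCommGroup M] {d : Type*} [Fintype d]
  [DecidableEq d]

/-- matrices with entries in a subring -/
def mB (B : Subring A) : Subring (Matrix d d A) where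
  carrier := {X | ∀ i j, X i j ∈ B}
  mul_mem' hX hY i j := by
    rw [Matrix.mul_apply]
    exact B.sum_mem fun l _ => B.mul_mem (hX i l) (hY l j)
  one_mem' i j := by
    rw [Matrix.one_apply]
    split_ifs
    · exact B.one_mem
    · exact B.zero_mem
  add_mem' hX hY i j := B.add_mem (hX i j) (hY i j)
  zero_mem' _ _ := B.zero_mem
  neg_mem' hX i j := B.neg_mem (hX i j)

/-- matrices with entries in an additive subgroup -/
def mL (L : AddSubgroup A) : AddSubgroup (Matrix d d A) where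
  carrier := {X | ∀ i j, X i j ∈ L}
  add_mem' hX hY i j := L.add_mem (hX i j) (hY i j)
  zero_mem' _ _ := L.zero_mem
  neg_mem' hX i j := L.neg_mem (hX i j)

lemma trace_mem {L : AddSubgroup A} {X : Matrix d d A} (hX : X ∈ mL L) : X.trace ∈ L :=
  L.sum_mem fun i _ => hX i i

lemma mat {B : Subring A} {L : AddSubgroup A} {T : A → M} (h : Tr B L T) :
    Tr (mB (d := d) B) (mL L) (fun X => T X.trace) where
  le X hX i j := h.le _ (hX i j)
  left X hX Y hY i j := by
    rw [Matrix.mul_apply]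
    exact L.sum_mem fun l _ => h.left _ (hX l j) _ (hY i l)
  right X hX Y hY i j := by
    rw [Matrix.mul_apply]
    exact L.sum_mem fun l _ => h.right _ (hX i l) _ (hY l j)
  add X hX Y hY := by
    show T (X + Y).trace = _
    rw [Matrix.trace_add]
    exact h.add _ (trace_mem hX) _ (trace_mem hY)
  comm X hX Y hY := by
    show T (X * Y).trace = T (Y * X).trace
    have e1 : (X * Y).trace = ∑ i, ∑ j, X i j * Y j i := by
      simp only [Matrix.trace, Matrix.diag, Matrix.mul_apply]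
    have e2 : (Y * X).trace = ∑ i, ∑ j, Y j i * X i j := by
      simp only [Matrix.trace, Matrix.diag, Matrix.mul_apply]
      exact Finset.sum_comm
    rw [e1, e2, h.sum _ _ fun i _ => L.sum_mem fun j _ => h.right _ (hX i j) _ (hY j i),
      h.sum _ _ fun i _ => L.sum_mem fun j _ => h.left _ (hX i j) _ (hY j i)]
    refine Finset.sum_congr rfl fun i _ => ?_
    rw [h.sum _ _ fun j _ => h.right _ (hX i j) _ (hY j i),
      h.sum _ _ fun j _ => h.left _ (hX i j) _ (hY j i)]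
    exact Finset.sum_congr rfl fun j _ => h.comm _ (hX i j) _ (hY j i)

lemma matFam {G : Type*} [Group G] {𝒮 : G → AddSubgroup A} (h : Fam 𝒮) :
    Fam (fun g => mL (d := d) (𝒮 g)) where
  one i j := by
    rw [Matrix.one_apply]
    split_ifs
    · exact h.one
    · exact (𝒮 1).zero_mem
  mul g g' X Y hX hY i j := by
    rw [Matrix.mul_apply]
    exact (𝒮 (g * g')).sum_mem fun l _ => h.mul _ _ _ _ (hX i l) (hY l j)

end mat

section proj

variable {k : Type*} [CommRing k] {G : Type*} [Group G] [DecidableEq G] {R : Type*} [Ring R]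
  [Algebra k R] {𝒮 : G → Submodule k R}

lemma bij (hint : DirectSum.IsInternal 𝒮) : Function.Bijective (DirectSum.coeLinearMap 𝒮) := hint

open Classical in
/-- the projection to the components with degree in `C` -/
noncomputable def P (hint : DirectSum.IsInternal 𝒮) (C : Set G) : R →ₗ[k] R :=
  (DirectSum.coeLinearMap 𝒮) ∘ₗ (DFinsupp.filterLinearMap k (fun g => 𝒮 g) (· ∈ C)) ∘ₗ
    (LinearEquiv.ofBijective (DirectSum.coeLinearMap 𝒮) (bij hint)).symm.toLinearMap

open Classical in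
lemma P_apply (hint : DirectSum.IsInternal 𝒮) (C : Set G) {g : G} {x : R} (hx : x ∈ 𝒮 g) :
    P hint C x = if g ∈ C then x else 0 := by
  have h1 : (LinearEquiv.ofBijective (DirectSum.coeLinearMap 𝒮) (bij hint)).symm x =
      DFinsupp.single g (⟨x, hx⟩ : 𝒮 g) := by
    rw [LinearEquiv.symm_apply_eq, LinearEquiv.ofBijective_apply]
    exact (DirectSum.coeLinearMap_of 𝒮 g ⟨x, hx⟩).symm
  rw [P, LinearMap.comp_apply, LinearMap.comp_apply, LinearEquiv.coe_coe, h1,
    DFinsupp.filterLinearMap_apply, DFinsupp.filter_single]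
  split_ifs with h2
  · exact DirectSum.coeLinearMap_of 𝒮 g ⟨x, hx⟩
  · rw [map_zero]

lemma P_mem (hint : DirectSum.IsInternal 𝒮) (C : Set G) (N : Submodule k R) {ι : Type*}
    (f : ι → G) {x : R} (hx : x ∈ ⨆ i, N ⊓ 𝒮 (f i)) :
    P hint C x ∈ ⨆ i, ⨆ (_ : f i ∈ C), N ⊓ 𝒮 (f i) := by
  classical
  refine Submodule.iSup_induction (fun i => N ⊓ 𝒮 (f i))
    (motive := fun x => P hint C x ∈ ⨆ i, ⨆ (_ : f i ∈ C), N ⊓ 𝒮 (f i)) hx ?_ ?_ ?_
  · intro i x hx
    rw [P_apply hint C hx.2]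
    split_ifs with h1
    · exact Submodule.mem_iSup_of_mem i (Submodule.mem_iSup_of_mem h1 hx)
    · exact Submodule.zero_mem _
  · rw [map_zero]; exact Submodule.zero_mem _
  · intro x y hx hy
    rw [map_add]; exact Submodule.add_mem _ hx hy

lemma P_mem' (hint : DirectSum.IsInternal 𝒮) (C : Set G) (N : Submodule k R) {ι : Type*}
    (f : ι → G) {x : R} (hx : x ∈ ⨆ i, N ⊓ 𝒮 (f i)) : P hint C x ∈ N :=
  (iSup_le fun _ => iSup_le fun _ => inf_le_left :
    (⨆ i, ⨆ (_ : f i ∈ C), N ⊓ 𝒮 (f i)) ≤ N) (P_mem hint C N f hx)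

/-- the subring of elements with degrees in `H` -/
def RH (𝒮 : G → Submodule k R) (H : Subgroup G) : Submodule k R := ⨆ h : H, 𝒮 (h : G)

lemma P_eq (hint : DirectSum.IsInternal 𝒮) (H : Subgroup G) {x : R} (hx : x ∈ RH 𝒮 H) :
    P hint (H : Set G) x = x := by
  classical
  refine Submodule.iSup_induction (fun h : H => 𝒮 (h : G))
    (motive := fun x => P hint (H : Set G) x = x) hx ?_ (map_zero _) ?_
  · intro i x hx
    rw [P_apply hint _ hx, if_pos (show (i : G) ∈ (H : Set G) from i.2)]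
  · intro x y hx hy
    rw [map_add, hx, hy]

/-- a graded submodule intersected with `R_H` -/
lemma inf_RH (hint : DirectSum.IsInternal 𝒮) (H : Subgroup G) {N : Submodule k R}
    (hN : N ≤ ⨆ g, N ⊓ 𝒮 g) {x : R} (hx : x ∈ N) (hxH : x ∈ RH 𝒮 H) :
    x ∈ ⨆ h : H, N ⊓ 𝒮 (h : G) := by
  rw [← P_eq hint H hxH]
  refine (iSup_le fun g => iSup_le fun hg => ?_ :
    (⨆ g : G, ⨆ (_ : id g ∈ (H : Set G)), N ⊓ 𝒮 (id g)) ≤ ⨆ h : H, N ⊓ 𝒮 (h : G))
    (P_mem hint H N id (hN hx))
  exact le_iSup (fun h : H => N ⊓ 𝒮 (h : G)) ⟨g, hg⟩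

variable (h1 : (1 : R) ∈ 𝒮 1)
  (hmul : ∀ g h : G, ∀ x ∈ 𝒮 g, ∀ y ∈ 𝒮 h, x * y ∈ 𝒮 (g * h))

include hmul in
lemma RH_mul (H : Subgroup G) {x y : R} (hx : x ∈ RH 𝒮 H) (hy : y ∈ RH 𝒮 H) :
    x * y ∈ RH 𝒮 H := by
  refine Submodule.iSup_induction (fun h : H => 𝒮 (h : G))
    (motive := fun x => x * y ∈ RH 𝒮 H) hx ?_ (by rw [zero_mul]; exact Submodule.zero_mem _) ?_
  · intro g x hx
    refine Submodule.iSup_induction (fun h : H => 𝒮 (h : G))
      (motive := fun y => x * y ∈ RH 𝒮 H) hy ?_ (by rw [mul_zero]; exact Submodule.zero_mem _) ?_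
    · intro h y hy
      exact Submodule.mem_iSup_of_mem (p := fun h : H => 𝒮 (h : G)) (g * h) (hmul _ _ _ hx _ hy)
    · intro y y' hy hy'
      rw [mul_add]; exact Submodule.add_mem _ hy hy'
  · intro x x' hx hx'
    rw [add_mul]; exact Submodule.add_mem _ hx hx'

/-- `R_H` as a subring -/
def BH (H : Subgroup G) : Subring R where
  carrier := {x | x ∈ RH 𝒮 H}
  mul_mem' hx hy := RH_mul hmul H hx hy
  one_mem' := Submodule.mem_iSup_of_mem (p := fun h : H => 𝒮 (h : G)) 1 h1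
  add_mem' hx hy := (RH 𝒮 H).add_mem hx hy
  zero_mem' := (RH 𝒮 H).zero_mem
  neg_mem' hx := (RH 𝒮 H).neg_mem hx

variable {I : Submodule k R} (hI : ∀ x ∈ I, ∀ y, x * y ∈ I ∧ y * x ∈ I)

include hI in
lemma pow_ideal (n : ℕ) {x : R} (hx : x ∈ I ^ (n + 1)) (y : R) :
    x * y ∈ I ^ (n + 1) ∧ y * x ∈ I ^ (n + 1) := by
  constructor
  · rw [pow_succ] at hx ⊢
    refine Submodule.mul_induction_on (C := fun x => x * y ∈ I ^ n * I) hx ?_ ?_
    · intro a ha b hb
      rw [mul_assoc]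
      exact Submodule.mul_mem_mul ha (hI b hb y).1
    · intro a b ha hb
      rw [add_mul]; exact Submodule.add_mem _ ha hb
  · rw [pow_succ'] at hx ⊢
    refine Submodule.mul_induction_on (C := fun x => y * x ∈ I * I ^ n) hx ?_ ?_
    · intro a ha b hb
      rw [← mul_assoc]
      exact Submodule.mul_mem_mul (hI a ha y).2 hb
    · intro a b ha hb
      rw [mul_add]; exact Submodule.add_mem _ ha hb

include hmul in
lemma pow_graded (hgr : I ≤ ⨆ g, I ⊓ 𝒮 g) (n : ℕ) :
    I ^ (n + 1) ≤ ⨆ g, I ^ (n + 1) ⊓ 𝒮 g := by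
  induction n with
  | zero => simpa using hgr
  | succ n ih =>
    rw [pow_succ, Submodule.mul_le]
    intro x hx y hy
    refine Submodule.iSup_induction (fun g => I ^ (n + 1) ⊓ 𝒮 g)
      (motive := fun x => x * y ∈ ⨆ g, I ^ (n + 1) * I ⊓ 𝒮 g) (ih hx) ?_
      (by rw [zero_mul]; exact Submodule.zero_mem _) ?_
    · intro g x hx
      refine Submodule.iSup_induction (fun g => I ⊓ 𝒮 g)
        (motive := fun y => x * y ∈ ⨆ g, I ^ (n + 1) * I ⊓ 𝒮 g) (hgr hy) ?_
        (by rw [mul_zero]; exact Submodule.zero_mem _) ?_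
      · intro h y hy
        exact Submodule.mem_iSup_of_mem (p := fun g => I ^ (n + 1) * I ⊓ 𝒮 g) (g * h)
          ⟨Submodule.mul_mem_mul hx.1 hy.1, hmul _ _ _ hx.2 _ hy.2⟩
      · intro y y' hy hy'
        rw [mul_add]; exact Submodule.add_mem _ hy hy'
    · intro x x' hx hx'
      rw [add_mul]; exact Submodule.add_mem _ hx hx'

variable {M : Type*} [AddCommGroup M]

/-- the `H`-conjugacy class of `g` as a subset of `G` -/
def Cl (H : Subgroup G) (g : H) : Set G := {x | ∃ h : H, (h : G) = x ∧ IsConj h g}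

lemma mem_Cl {H : Subgroup G} {g h : H} : (h : G) ∈ Cl H g ↔ IsConj h g :=
  ⟨fun ⟨h', hh, hc⟩ => by rwa [← Subtype.ext hh], fun hc => ⟨h, rfl, hc⟩⟩

include hI in
/-- restriction of a trace to a class -/
lemma trClass (hint : DirectSum.IsInternal 𝒮) (hgr : I ≤ ⨆ g, I ⊓ 𝒮 g) (n : ℕ) {T : R → M}
    (hadd : ∀ x ∈ I ^ (n + 1), ∀ y ∈ I ^ (n + 1), T (x + y) = T x + T y)
    (hcomm : ∀ x ∈ I ^ (n + 1), ∀ y, T (x * y) = T (y * x)) (H : Subgroup G) (g : H) :
    Tr (BH h1 hmul H) (I ^ (n + 1) ⊓ RH 𝒮 H).toAddSubgroup (fun x => T (P hint (Cl H g) x)) := by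
  classical
  have hgrn := pow_graded hmul hgr n
  have hPm : ∀ x ∈ I ^ (n + 1), P hint (Cl H g) x ∈ I ^ (n + 1) := fun x hx =>
    P_mem' hint _ _ id (hgrn hx)
  have hT0 : T 0 = 0 := by
    have h1 := hadd 0 (Submodule.zero_mem _) 0 (Submodule.zero_mem _)
    rw [add_zero] at h1
    exact (add_eq_left.1 h1.symm)
  refine ⟨fun x hx => hx.2, ?_, ?_, ?_, ?_⟩
  · intro x hx y hy
    exact ⟨(pow_ideal hI n hx.1 y).2, RH_mul hmul H hy hx.2⟩
  · intro x hx y hy
    exact ⟨(pow_ideal hI n hx.1 y).1, RH_mul hmul H hx.2 hy⟩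
  · intro x hx y hy
    show T (P hint _ (x + y)) = _
    rw [map_add]
    exact hadd _ (hPm x hx.1) _ (hPm y hy.1)
  · intro x hx y hy
    show T (P hint _ (x * y)) = T (P hint _ (y * x))
    have hx' := inf_RH hint H hgrn hx.1 hx.2
    refine (Submodule.iSup_induction (fun h : H => I ^ (n + 1) ⊓ 𝒮 (h : G))
      (motive := fun x => x ∈ I ^ (n + 1) ∧
        T (P hint (Cl H g) (x * y)) = T (P hint (Cl H g) (y * x))) hx' ?_
      ⟨Submodule.zero_mem _, by rw [zero_mul, mul_zero]⟩ ?_).2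
    · intro a x hx
      refine ⟨hx.1, ?_⟩
      refine Submodule.iSup_induction (fun h : H => 𝒮 (h : G))
        (motive := fun y => T (P hint (Cl H g) (x * y)) = T (P hint (Cl H g) (y * x))) hy ?_
        (by rw [zero_mul, mul_zero]) ?_
      · intro b y hy
        rw [P_apply hint _ (hmul _ _ _ hx.2 _ hy), P_apply hint _ (hmul _ _ _ hy _ hx.2)]
        have e1 : ((a : G) * (b : G) ∈ Cl H g) ↔ ((b : G) * (a : G) ∈ Cl H g) := by
          rw [← Subgroup.coe_mul, ← Subgroup.coe_mul, mem_Cl, mem_Cl]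
          have h2 : IsConj (a * b) (b * a) := isConj_iff.2 ⟨b, by group⟩
          exact ⟨fun h => h2.symm.trans h, fun h => h2.trans h⟩
        by_cases h3 : (a : G) * (b : G) ∈ Cl H g
        · rw [if_pos h3, if_pos (e1.1 h3)]
          exact hcomm _ hx.1 _
        · rw [if_neg h3, if_neg fun h => h3 (e1.2 h)]
      · intro y y' hy hy'
        rw [mul_add, add_mul, map_add, map_add,
          hadd _ (hPm _ (pow_ideal hI n hx.1 _).1) _ (hPm _ (pow_ideal hI n hx.1 _).1), hy, hy',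
          hadd _ (hPm _ (pow_ideal hI n hx.1 _).2) _ (hPm _ (pow_ideal hI n hx.1 _).2)]
    · rintro x x' ⟨hx, hx2⟩ ⟨hx', hx2'⟩
      refine ⟨Submodule.add_mem _ hx hx', ?_⟩
      rw [mul_add, add_mul, map_add, map_add,
        hadd _ (hPm _ (pow_ideal hI n hx _).1) _ (hPm _ (pow_ideal hI n hx' _).1), hx2, hx2',
        hadd _ (hPm _ (pow_ideal hI n hx _).2) _ (hPm _ (pow_ideal hI n hx' _).2)]

include hI in
lemma pow_le_of_le {n m : ℕ} (h : n + 1 ≤ m) : I ^ m ≤ I ^ (n + 1) := by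
  obtain ⟨r, rfl⟩ := Nat.exists_eq_add_of_le h
  rw [pow_add, Submodule.mul_le]
  exact fun x hx y _ => (pow_ideal hI n hx y).1

section decomp

variable {d : Type*} [Fintype d] [DecidableEq d]

/-- decomposition of a matrix into homogeneous components -/
lemma exists_decomp {H : Subgroup G} {N : Submodule k R} (X : Matrix d d R)
    (hX : ∀ i j, X i j ∈ ⨆ h : H, N ⊓ 𝒮 (h : G)) :
    ∃ (s : Finset H) (a : {h // h ∈ s} → Matrix d d R),
      (∀ (h : {h // h ∈ s}) i j, a h i j ∈ N ⊓ 𝒮 ((h : H) : G)) ∧ ∑ h, a h = X := by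
  classical
  have h1 : ∀ i j, ∃ f : H →₀ R, (∀ h : H, f h ∈ N ⊓ 𝒮 (h : G)) ∧ (f.sum fun _ x => x) = X i j :=
    fun i j => (Submodule.mem_iSup_iff_exists_finsupp _ _).1 (hX i j)
  choose f hf hf' using h1
  let s : Finset H := univ.biUnion fun i => univ.biUnion fun j => (f i j).support
  refine ⟨s, fun h => Matrix.of fun i j => f i j (h : H), fun h i j => hf i j (h : H), ?_⟩
  ext i j
  rw [Matrix.sum_apply]
  simp only [Matrix.of_apply]
  rw [← hf' i j, Finsupp.sum, Finset.sum_coe_sort s (fun h => f i j h)]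
  symm
  refine Finset.sum_subset ?_ ?_
  · intro h hh
    simp only [s, Finset.mem_biUnion]
    exact ⟨i, mem_univ _, j, mem_univ _, hh⟩
  · intro h _ hh
    simpa using hh

include hI in
lemma list_mem {ι : Type*} (a : ι → Matrix d d R) (ha : ∀ h i j, a h i j ∈ I) (l : List ι) :
    ∀ i j, (l.map a).prod i j ∈ I ^ l.length := by
  induction l with
  | nil =>
    intro i j
    rw [List.map_nil, List.prod_nil, List.length_nil, pow_zero, Matrix.one_apply]
    split_ifs
    · exact Submodule.one_le.mp le_rfl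
    · exact Submodule.zero_mem _
  | cons b l ih =>
    intro i j
    rw [List.map_cons, List.prod_cons, List.length_cons, pow_succ', Matrix.mul_apply]
    exact Submodule.sum_mem _ fun m _ => Submodule.mul_mem_mul (ha b i m) (ih m j)

end decomp

section main

variable {d : Type*} [Fintype d] [DecidableEq d]

include h1 hmul hI in
/-- **Vanishing of the index pairing for group-graded rings.** -/
theorem vanish (hint : DirectSum.IsInternal 𝒮) (hgr : I ≤ ⨆ g, I ⊓ 𝒮 g) (n : ℕ) {T : R → M}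
    (hadd : ∀ x ∈ I ^ (n + 1), ∀ y ∈ I ^ (n + 1), T (x + y) = T x + T y)
    (hcomm : ∀ x ∈ I ^ (n + 1), ∀ y, T (x * y) = T (y * x)) (H : Subgroup G)
    (hloc : ∀ g : H, (∃ p : ℕ, p.Prime ∧ Sep M p ∧ ∀ j, 1 ≤ j → ¬ IsConj g (g ^ p ^ j)) ∨
      ∀ x ∈ 𝒮 (g : G), x ∈ I ^ (n + 1) → T x = 0)
    (U V : Matrix d d R) (hU : ∀ i j, U i j ∈ RH 𝒮 H) (hV : ∀ i j, V i j ∈ RH 𝒮 H)
    (hUV : ∀ i j, (1 - U * V) i j ∈ I) (hVU : ∀ i j, (1 - V * U) i j ∈ I) :
    T ((1 - U * V) ^ (n + 1) - (1 - V * U) ^ (n + 1)).trace = 0 ∧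
      (∀ N, n + 1 ≤ N → ((1 - U * V) ^ N - (1 - V * U) ^ N).trace ∈ I ^ (n + 1)) ∧
      ∀ N, n + 1 ≤ N → T ((1 - U * V) ^ N - (1 - V * U) ^ N).trace =
        T ((1 - U * V) ^ (n + 1) - (1 - V * U) ^ (n + 1)).trace := by
  classical
  have hUB : U ∈ mB (d := d) (BH h1 hmul H) := hU
  have hVB : V ∈ mB (d := d) (BH h1 hmul H) := hV
  have hUVB : 1 - U * V ∈ mB (d := d) (BH h1 hmul H) :=
    Subring.sub_mem _ (Subring.one_mem _) (Subring.mul_mem _ hUB hVB)
  have hVUB : 1 - V * U ∈ mB (d := d) (BH h1 hmul H) :=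
    Subring.sub_mem _ (Subring.one_mem _) (Subring.mul_mem _ hVB hUB)
  obtain ⟨s, a, ha, hsa⟩ := exists_decomp (H := H) (N := I) (1 - U * V)
    fun i j => inf_RH hint H hgr (hUV i j) (hUVB i j)
  obtain ⟨t, b, hb, hsb⟩ := exists_decomp (H := H) (N := I) (1 - V * U)
    fun i j => inf_RH hint H hgr (hVU i j) (hVUB i j)
  have hRHof : ∀ (h : H) (x : R), x ∈ 𝒮 (h : G) → x ∈ RH 𝒮 H := fun h x hx =>
    Submodule.mem_iSup_of_mem (p := fun h : H => 𝒮 (h : G)) h hx
  have hprodL : ∀ {ι : Type _} (a : ι → Matrix d d R) (deg : ι → H)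
      (_ : ∀ h i j, a h i j ∈ I ⊓ 𝒮 (deg h : G)) (l : List ι), n + 1 ≤ l.length →
      (l.map a).prod ∈ mL (d := d) (I ^ (n + 1) ⊓ RH 𝒮 H).toAddSubgroup := by
    intro ι a deg ha l hl i j
    refine ⟨pow_le_of_le hI hl (list_mem hI a (fun h i j => (ha h i j).1) l i j), ?_⟩
    have h3 : (l.map a).prod ∈ mB (d := d) (BH h1 hmul H) :=
      Subring.list_prod_mem _ fun x hx => by
        obtain ⟨q, _, rfl⟩ := List.mem_map.1 hx
        exact fun i j => hRHof _ _ (ha q i j).2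
    exact h3 i j
  have hmemUV : ∀ N, n + 1 ≤ N → (1 - U * V) ^ N ∈
      mL (d := d) (I ^ (n + 1) ⊓ RH 𝒮 H).toAddSubgroup := fun N hN => by
    rw [← hsa]
    exact pow_mem_of_list (fun l hl => hprodL a (fun h => (h : H)) ha l hl) hN
  have hmemVU : ∀ N, n + 1 ≤ N → (1 - V * U) ^ N ∈
      mL (d := d) (I ^ (n + 1) ⊓ RH 𝒮 H).toAddSubgroup := fun N hN => by
    rw [← hsb]
    exact pow_mem_of_list (fun l hl => hprodL b (fun h => (h : H)) hb l hl) hN
  have hT0 : T 0 = 0 := by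
    have h1 := hadd 0 (Submodule.zero_mem _) 0 (Submodule.zero_mem _)
    rw [add_zero] at h1
    exact (add_eq_left.1 h1.symm)
  -- the whole trace
  have hTr : Tr (BH h1 hmul H) (I ^ (n + 1) ⊓ RH 𝒮 H).toAddSubgroup T :=
    ⟨fun x hx => hx.2, fun x hx y hy => ⟨(pow_ideal hI n hx.1 y).2, RH_mul hmul H hy hx.2⟩,
      fun x hx y hy => ⟨(pow_ideal hI n hx.1 y).1, RH_mul hmul H hx.2 hy⟩,
      fun x hx y hy => hadd x hx.1 y hy.1, fun x hx y _ => hcomm x hx.1 y⟩
  have hTrM := mat (d := d) hTr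
  have hsubL : ∀ N, n + 1 ≤ N → ((1 - U * V) ^ N - (1 - V * U) ^ N) ∈
      mL (d := d) (I ^ (n + 1) ⊓ RH 𝒮 H).toAddSubgroup := fun N hN =>
    AddSubgroup.sub_mem _ (hmemUV N hN) (hmemVU N hN)
  refine ⟨?_, fun N hN => (trace_mem (hsubL N hN)).1, ?_⟩
  · set D := ((1 - U * V) ^ (n + 1) - (1 - V * U) ^ (n + 1)).trace with hD
    have hDL : D ∈ (I ^ (n + 1) ⊓ RH 𝒮 H).toAddSubgroup := trace_mem (hsubL _ le_rfl)
    have hgrn := pow_graded hmul hgr n
    obtain ⟨f, hf, hfD⟩ := (Submodule.mem_iSup_iff_exists_finsupp _ _).1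
      (inf_RH hint H hgrn hDL.1 hDL.2)
    have hTsum : ∀ (s : Finset H), T (∑ h ∈ s, f h) = ∑ h ∈ s, T (f h) := by
      intro s
      induction s using Finset.induction_on with
      | empty => simp [hT0]
      | insert h s hh ih =>
        rw [Finset.sum_insert hh, Finset.sum_insert hh, ← ih]
        exact hadd _ (hf h).1 _ (Submodule.sum_mem _ fun h _ => (hf h).1)
    rw [← hfD, Finsupp.sum, hTsum,
      ← Finset.sum_fiberwise_of_maps_to (g := fun h => ConjClasses.mk h)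
        (fun h hh => Finset.mem_image_of_mem _ hh)]
    refine Finset.sum_eq_zero fun c hc => ?_
    obtain ⟨g, -, rfl⟩ := Finset.mem_image.1 hc
    by_cases hgood : ∃ p : ℕ, p.Prime ∧ Sep M p ∧ ∀ j, 1 ≤ j → ¬ IsConj g (g ^ p ^ j)
    · obtain ⟨p, hp, hM, hgj⟩ := hgood
      have : Fact p.Prime := ⟨hp⟩
      have hcl := trClass h1 hmul hI hint hgr n hadd hcomm H g
      have hfam : Fam (fun h : H => (𝒮 (h : G)).toAddSubgroup) :=
        ⟨by simpa using h1, fun g h x y hx hy => by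
          simpa using hmul _ _ _ hx _ hy⟩
      have hcore := core (matFam (d := d) hfam) (mat (d := d) hcl) hM g hgj
        (by
          intro h hh X hX _
          show T (P hint (Cl H g) X.trace) = 0
          have h5 : X.trace ∈ 𝒮 (h : G) := trace_mem hX
          rw [P_apply hint _ h5, if_neg fun h6 => hh (mem_Cl.1 h6), hT0])
        hUB hVB (e := n + 1) a (fun h => (h : H)) (fun h i j => (ha h i j).2)
        (fun h i j => hRHof _ _ (ha h i j).2) (fun l hl => hprodL a (fun h => (h : H)) ha l hl)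
        hsa b (fun h => (h : H)) (fun h i j => (hb h i j).2)
        (fun h i j => hRHof _ _ (hb h i j).2) (fun l hl => hprodL b (fun h => (h : H)) hb l hl)
        hsb
      have h6 : T (P hint (Cl H g) D) = 0 := by
        rw [← hcore, hD, Matrix.trace_sub]
        exact hcl.sub (trace_mem (hmemUV _ le_rfl)) (trace_mem (hmemVU _ le_rfl))
      have h7 : P hint (Cl H g) D = ∑ h ∈ f.support with ConjClasses.mk h = ConjClasses.mk g,
          f h := by
        rw [← hfD, Finsupp.sum, map_sum, Finset.sum_filter]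
        refine Finset.sum_congr rfl fun h _ => ?_
        rw [P_apply hint _ (hf h).2]
        have e1 : ((h : G) ∈ Cl H g) ↔ ConjClasses.mk h = ConjClasses.mk g := by
          rw [mem_Cl, ConjClasses.mk_eq_mk_iff_isConj]
        by_cases h8 : (h : G) ∈ Cl H g
        · rw [if_pos h8, if_pos (e1.1 h8)]
        · rw [if_neg h8, if_neg fun h9 => h8 (e1.2 h9)]
      rw [← hTsum, ← h7, h6]
    · refine Finset.sum_eq_zero fun h hh => ?_
      have hconj : IsConj h g := ConjClasses.mk_eq_mk_iff_isConj.1 (Finset.mem_filter.1 hh).2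
      rcases hloc h with ⟨p, hp, hM, hj⟩ | h0
      · exfalso
        exact hgood ⟨p, hp, hM, fun j hj1 hc => hj j hj1 (hconj.trans (hc.trans (hconj.symm.pow _)))⟩
      · exact h0 _ (hf h).2 (hf h).1
  · intro N hN
    rw [Matrix.trace_sub, Matrix.trace_sub, hTr.sub (trace_mem (hmemUV N hN))
      (trace_mem (hmemVU N hN)), hTr.sub (trace_mem (hmemUV _ le_rfl))
      (trace_mem (hmemVU _ le_rfl))]
    exact diff_const hTrM hUB hVB hmemUV hmemVU hN

end main

end proj

end Pool.Agent.W647.R2
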