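import Pool.Agent.H290R4.ChernZ
import Pool.Agent.H26R2.Bass.Main

/-!
# Chern-Connes characters of finitely generated projective modules over integral group rings
-/

set_option autoImplicit false

namespace Pool.Agent.W647.T1

open Pool.Agent.H23R2 Pool.Agent.H23R2.Ch
open Pool.Agent.H26R2.Bass (tau tau_eq ind ind_comm isConj_mul_comm)
open Pool.Agent.H23R2.Cyc (ell ell_single ell_eq_sum tf tf_apply)

universe u v w z

/-- The augmentation `ε : ℤ[G] → ℤ`. -/
noncomputable def aug (G : Type u) [Group G] : MonoidAlgebra ℤ G →+* ℤ :=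
  (MonoidAlgebra.lift ℤ ℤ G (1 : G →* ℤ)).toRingHom

lemma aug_single {G : Type u} [Group G] (g : G) (a : ℤ) : aug G (MonoidAlgebra.single g a) = a := by
  simp [aug]

lemma aug_eq_ell {G : Type u} [Group G] (x : MonoidAlgebra ℤ G) :
    aug G x = ell (fun _ : G => (1 : ℤ)) x := by
  induction x using MonoidAlgebra.induction_linear with
  | zero => simp
  | add x y hx hy => rw [map_add, map_add, hx, hy]
  | single g a => rw [aug_single, ell_single, mul_one]

/-- If all class sums of `x` away from the class of `1` vanish then a trace function takes the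
value `x₁ • f 1` on `x`. -/
lemma trace_value {G : Type u} [Group G] {M : Type v} [AddCommGroup M]
    (f : MonoidAlgebra ℤ G →+ M)
    (hf : ∀ g h : G, IsConj g h → f (MonoidAlgebra.single g 1) = f (MonoidAlgebra.single h 1))
    (x : MonoidAlgebra ℤ G) (hx : ∀ g : G, g ≠ 1 → ell (ind ℤ g) x = 0) :
    f x = ell (ind ℤ (1 : G)) x • f 1 := by
  classical
  have h1 : x = ∑ g ∈ x.coeff.support, MonoidAlgebra.single g (x.coeff g) := by
    apply MonoidAlgebra.coeff_injective
    ext h
    rw [MonoidAlgebra.coeff_sum, Finset.sum_apply']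
    by_cases hh : h ∈ x.coeff.support
    · rw [Finset.sum_eq_single h]
      · simp
      · intro b _ hb
        simp [Finsupp.single_apply, hb]
      · intro h2
        exact absurd hh h2
    · rw [Finset.sum_eq_zero]
      · simpa using hh
      · intro b hb
        have : b ≠ h := fun h3 => hh (h3 ▸ hb)
        simp [Finsupp.single_apply, this]
  have h2 : ∀ (g : G) (a : ℤ), f (MonoidAlgebra.single g a) = a • f (MonoidAlgebra.single g 1) := by
    intro g a
    rw [← map_zsmul]
    congr 1
    rw [MonoidAlgebra.smul_single]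
    simp
  have h3 : f x = ∑ g ∈ x.coeff.support, x.coeff g • f (MonoidAlgebra.single g 1) := by
    conv_lhs => rw [h1]
    rw [map_sum]
    exact Finset.sum_congr rfl fun g _ => h2 _ _
  rw [h3]
  -- group by conjugacy classes
  rw [← Finset.sum_fiberwise_of_maps_to (t := x.coeff.support.image ConjClasses.mk)
    (g := ConjClasses.mk) (fun g hg => Finset.mem_image_of_mem _ hg)]
  have h4 : ∀ c ∈ x.coeff.support.image ConjClasses.mk, c ≠ ConjClasses.mk (1 : G) →
      ∑ g ∈ x.coeff.support with ConjClasses.mk g = c,
        x.coeff g • f (MonoidAlgebra.single g 1) = 0 := by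
    intro c hc hc1
    obtain ⟨g0, hg0, rfl⟩ := Finset.mem_image.1 hc
    have h5 : ∀ g ∈ x.coeff.support.filter (fun g => ConjClasses.mk g = ConjClasses.mk g0),
        x.coeff g • f (MonoidAlgebra.single g 1) =
        x.coeff g • f (MonoidAlgebra.single g0 1) := by
      intro g hg
      rw [hf g g0 (ConjClasses.mk_eq_mk_iff_isConj.1 (Finset.mem_filter.1 hg).2)]
    rw [Finset.sum_congr rfl h5, ← Finset.sum_smul]
    have h6 : ∑ g ∈ x.coeff.support with ConjClasses.mk g = ConjClasses.mk g0, x.coeff g = 0 := by
      have h7 := hx g0 (fun h => hc1 (by rw [h]))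
      rw [ell_eq_sum (ind ℤ g0) x.coeff.support x (fun g hg => Finsupp.mem_support_iff.2 hg)] at h7
      rw [← h7, Finset.sum_filter]
      apply Finset.sum_congr rfl
      intro g _
      unfold ind
      simp only [ConjClasses.mk_eq_mk_iff_isConj]
      split_ifs <;> simp
    rw [h6, zero_smul]
  have h8 : ell (ind ℤ (1 : G)) x = x.coeff 1 := by
    rw [ell_eq_sum (ind ℤ 1) (insert 1 x.coeff.support) x
      (fun g hg => Finset.mem_insert_of_mem (Finsupp.mem_support_iff.2 hg))]
    rw [Finset.sum_eq_single 1]
    · unfold ind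
      rw [if_pos (IsConj.refl _), mul_one]
    · intro g _ hg
      unfold ind
      rw [if_neg (fun h => hg (isConj_one_left.1 h)), mul_zero]
    · intro h
      exact absurd (Finset.mem_insert_self _ _) h
  by_cases hmem : (1 : G) ∈ x.coeff.support
  · rw [Finset.sum_eq_single (ConjClasses.mk (1 : G)) h4
      (fun h => absurd (Finset.mem_image_of_mem _ hmem) h)]
    have h9 : x.coeff.support.filter (fun g => ConjClasses.mk g = ConjClasses.mk (1 : G)) = {1} := by
      ext g
      rw [Finset.mem_filter, Finset.mem_singleton, ConjClasses.mk_eq_mk_iff_isConj]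
      constructor
      · rintro ⟨_, h⟩
        exact isConj_one_left.1 h
      · rintro rfl
        exact ⟨hmem, IsConj.refl _⟩
    rw [h9, Finset.sum_singleton, h8]
    rfl
  · rw [Finset.sum_eq_zero, h8]
    · have : x.coeff 1 = 0 := by simpa using hmem
      rw [this, zero_smul]
    · intro c hc
      apply h4 c hc
      rintro rfl
      obtain ⟨g, hg, hg1⟩ := Finset.mem_image.1 hc
      have : g = 1 := isConj_one_left.1 (ConjClasses.mk_eq_mk_iff_isConj.1 hg1)
      rw [this] at hg
      exact hmem hg

end Pool.Agent.W647.T1
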