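import Pool.Agent.H290R4.ChernZ
import Pool.Agent.H26R2.Bass.Main
import Pool.Agent.H23R2.Lin
import Pool.Agent.W647.T1

/-!
# Primes without torsion in finitely generated linear groups over arbitrary fields
-/

set_option autoImplicit false

namespace Pool.Agent.W647.T2

open Pool.Agent.H23R2 Pool.Agent.H23R2.Ch
open Pool.Agent.H26R2.Bass (tau tau_eq ind ind_comm isConj_mul_comm)
open Pool.Agent.H23R2.Cyc (ell ell_single ell_eq_sum tf tf_apply)
open Pool.Agent.W647.T1 (aug aug_single aug_eq_ell trace_value)

universe u v w z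

section linear

variable {K : Type u} [Field K] {N : ℕ} {H : Type v} [Group H]

/-- In a finitely generated linear group over an arbitrary field there is no element of order `p`
for some prime `p`. -/
theorem exists_prime_no_torsion [Group.FG H] (φ : H →* GL (Fin N) K)
    (hφ : Function.Injective φ) : ∃ p : ℕ, p.Prime ∧ ∀ g : H, g ^ p = 1 → g = 1 := by
  classical
  obtain ⟨T, hT⟩ := Group.fg_def.1 (inferInstance : Group.FG H)
  let s : Finset K := T.biUnion fun t => Finset.univ.biUnion fun i : Fin N =>
    Finset.univ.biUnion fun j : Fin N => {(φ t).val i j, (φ t⁻¹).val i j}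
  let R : Subalgebra ℤ K := Algebra.adjoin ℤ (s : Set K)
  have hR : Algebra.FiniteType ℤ R := by
    rw [← Subalgebra.fg_iff_finiteType]
    exact ⟨s, rfl⟩
  have hN : IsNoetherianRing R := Algebra.FiniteType.isNoetherianRing ℤ R
  have hent : ∀ h : H, ∀ i j, (φ h).val i j ∈ R := by
    apply Pool.Agent.H290R4.ChernZ.entries_mem φ (T : Set H) hT R
    · intro t ht i j
      apply Algebra.subset_adjoin
      simp only [s, Finset.coe_biUnion, Set.mem_iUnion]
      exact ⟨t, ht, i, by simp, j, by simp, by simp⟩
    · intro t ht i j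
      apply Algebra.subset_adjoin
      simp only [s, Finset.coe_biUnion, Set.mem_iUnion]
      exact ⟨t, ht, i, by simp, j, by simp, by simp⟩
  let ψ0 : H →* Matrix (Fin N) (Fin N) R :=
    { toFun := fun h => Matrix.of fun i j => ⟨(φ h).val i j, hent h i j⟩
      map_one' := by
        ext i j
        simp only [Matrix.of_apply, map_one, Units.val_one, Matrix.one_apply]
        split_ifs <;> rfl
      map_mul' := by
        intro x y
        ext i j
        simp only [Matrix.of_apply, map_mul, Units.val_mul, Matrix.mul_apply]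
        rw [AddSubmonoidClass.coe_finsetSum]
        rfl }
  let ψ : H →* (Matrix (Fin N) (Fin N) R)ˣ := ψ0.toHomUnits
  have hψ : Function.Injective ψ := by
    intro x y hxy
    apply hφ
    apply Units.ext
    ext i j
    have h1 : (ψ x).val i j = (ψ y).val i j := by rw [hxy]
    exact congrArg Subtype.val h1
  obtain ⟨m, hm⟩ := Ideal.exists_maximal R
  obtain ⟨q, hq, hqm, hfin⟩ := residue_finite R m
  obtain ⟨E, hE0, hE⟩ := exists_exponent (n := Fin N) m q hqm hfin
  obtain ⟨p, hpge, hp⟩ := Nat.exists_infinite_primes (E * q + 1)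
  refine ⟨p, hp, fun g hg => ?_⟩
  have hpE : Nat.Coprime p (E * q) := by
    rw [Nat.Prime.coprime_iff_not_dvd hp]
    intro hd
    have h1 := Nat.le_of_dvd (Nat.mul_pos hE0 hq.pos) hd
    omega
  exact roots_unique ψ hψ m hm.ne_top q E hE p hpE g 1 (by rw [hg, one_pow])

end linear

end Pool.Agent.W647.T2
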